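import Pool.Agent.Lib.MP_5a39b1_nt.Clz.SpecF

set_option autoImplicit false

namespace Pool.Agent.Clz

open Finset

namespace Admaux

lemma log3_pos : 0 < Real.log 3 := Real.log_pos (by norm_num)

lemma al_lo : 126 / 100 ≤ al := by
  unfold al
  rw [le_div_iff₀ log3_pos]
  have h : Real.log ((3 : ℝ) ^ 126) ≤ Real.log ((4 : ℝ) ^ 100) :=
    Real.log_le_log (by positivity) (by norm_num)
  rw [Real.log_pow, Real.log_pow] at h
  push_cast at h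
  linarith

lemma al_hi : al ≤ 127 / 100 := by
  unfold al
  rw [div_le_iff₀ log3_pos]
  have h : Real.log ((4 : ℝ) ^ 100) ≤ Real.log ((3 : ℝ) ^ 127) :=
    Real.log_le_log (by positivity) (by norm_num)
  rw [Real.log_pow, Real.log_pow] at h
  push_cast at h
  linarith

lemma card_lb (t s : ℝ) (h : 0 ≤ t - s) (hs : 0 ≤ s) :
    2 * s - 1 ≤ ((Finset.Icc ⌈t - s⌉₊ ⌊t + s⌋₊).card : ℝ) := by
  rw [Nat.card_Icc]
  have h1 : (⌈t - s⌉₊ : ℝ) < t - s + 1 := Nat.ceil_lt_add_one h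
  have h2 : t + s < (⌊t + s⌋₊ : ℝ) + 1 := Nat.lt_floor_add_one _
  have h3 : ((⌊t + s⌋₊ + 1 : ℕ) : ℝ) - (⌈t - s⌉₊ : ℝ) ≤ ((⌊t + s⌋₊ + 1 - ⌈t - s⌉₊ : ℕ) : ℝ) := by
    rw [sub_le_iff_le_add]
    exact_mod_cast (by omega : ⌊t + s⌋₊ + 1 ≤ (⌊t + s⌋₊ + 1 - ⌈t - s⌉₊) + ⌈t - s⌉₊)
  push_cast at h3 ⊢
  linarith

end Admaux

open Admaux in
/-- see the docstring of `StmtAdm` in SpecF.lean for the paper proof -/
theorem stmtAdm : StmtAdm := by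
  refine ⟨1000000, fun ℓ κ₁ m β hℓ hβ1 hβ2 hκ hm => ?_⟩
  have hal1 := al_lo
  have hal2 := al_hi
  set δ : ℝ := al - 1 with hδ
  have hδ1 : 26 / 100 ≤ δ := by rw [hδ]; linarith
  have hδ2 : δ ≤ 27 / 100 := by rw [hδ]; linarith
  have hal : al = 1 + δ := by rw [hδ]; ring
  have hδ0 : 0 < δ := by linarith
  set q : ℝ := Real.sqrt ℓ with hq
  have hℓR : (1000000 : ℝ) ≤ (ℓ : ℝ) := by exact_mod_cast hℓ
  have hqq : q * q = (ℓ : ℝ) := Real.mul_self_sqrt (by linarith)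
  have hq0 : 0 ≤ q := Real.sqrt_nonneg _
  have hq1 : 1000 ≤ q := by
    by_contra hcon
    push Not at hcon
    have : q * q < 1000 * 1000 := by nlinarith
    linarith
  -- q ≤ ℓ / 1000
  have hqℓ : q * 1000 ≤ (ℓ : ℝ) := by nlinarith
  set t : ℝ := (β + κ₁ - ℓ) / δ - ℓ with ht
  have hδt : δ * t = β + κ₁ - ℓ - δ * ℓ := by
    rw [ht]; field_simp
  have hκR : |(κ₁ : ℝ) - ℓ| * 1000 ≤ (ℓ : ℝ) := by
    have : ((1000 * |(κ₁ : ℤ) - (ℓ : ℤ)| : ℤ) : ℝ) ≤ ((ℓ : ℤ) : ℝ) := by exact_mod_cast hκ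
    push_cast at this
    linarith
  have hκ1 : (κ₁ : ℝ) - ℓ ≤ ℓ / 1000 := by
    have := le_abs_self ((κ₁ : ℝ) - ℓ); linarith
  have hκ2 : -((ℓ : ℝ) / 1000) ≤ (κ₁ : ℝ) - ℓ := by
    have := neg_abs_le ((κ₁ : ℝ) - ℓ); linarith
  -- bounds on t
  have ht1 : 7 / 1000 * (ℓ : ℝ) ≤ t := by
    have h1 : δ * (7 / 1000 * (ℓ : ℝ)) ≤ δ * t := by
      rw [hδt]; nlinarith
    exact le_of_mul_le_mul_left h1 hδ0
  have ht2 : t ≤ 26 / 1000 * (ℓ : ℝ) := by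
    have h1 : δ * t ≤ δ * (26 / 1000 * (ℓ : ℝ)) := by
      rw [hδt]; nlinarith
    exact le_of_mul_le_mul_left h1 hδ0
  have hs0 : 0 ≤ q / 100 := by linarith
  have hts : 0 ≤ t - q / 100 := by linarith
  have hcard := card_lb t (q / 100) hts hs0
  refine le_trans ?_ (le_trans hcard (Nat.cast_le.2 (Finset.card_le_card ?_)))
  · linarith
  intro τ hτ
  rw [Finset.mem_Icc] at hτ
  have hτ1 : t - q / 100 ≤ (τ : ℝ) := Nat.ceil_le.1 hτ.1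
  have hτ2 : (τ : ℝ) ≤ t + q / 100 := (Nat.le_floor_iff (by linarith)).1 hτ.2
  have hx : ((ℓ + τ : ℕ) : ℝ) * al - β - κ₁ - τ = δ * (τ - t) := by
    rw [mul_sub, hδt, hal]; push_cast; ring
  have hx1 : δ * (τ - t) ≤ 27 / 10000 * q := by nlinarith
  have hx2 : -(27 / 10000 * q) ≤ δ * (τ - t) := by nlinarith
  have hc1 : ((ℓ + τ : ℕ) : ℝ) * al - β ≤ (kz β (ℓ + τ) : ℝ) := Nat.le_ceil _
  have hxpos : 0 ≤ ((ℓ + τ : ℕ) : ℝ) * al - β := by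
    have : ((ℓ + τ : ℕ) : ℝ) * al - β = κ₁ + τ + δ * (τ - t) := by linarith
    rw [this]
    have : (0 : ℝ) ≤ κ₁ := Nat.cast_nonneg _
    linarith
  have hc2 : (kz β (ℓ + τ) : ℝ) < ((ℓ + τ : ℕ) : ℝ) * al - β + 1 := Nat.ceil_lt_add_one hxpos
  have hle : κ₁ ≤ kz β (ℓ + τ) := by
    have : (κ₁ : ℝ) ≤ (kz β (ℓ + τ) : ℝ) := by linarith
    exact_mod_cast this
  have hm2 : 2 * (m : ℝ) ≤ q / 1000 := by linarith
  rw [Finset.mem_filter, Finset.mem_Icc]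
  refine ⟨⟨?_, ?_⟩, hle, ?_, ?_⟩
  · have h1 : (ℓ : ℝ) ≤ 200 * (τ : ℝ) := by linarith
    have h2 : ℓ ≤ 200 * τ := by exact_mod_cast h1
    omega
  · have h1 : 20 * (τ : ℝ) ≤ (ℓ : ℝ) := by linarith
    have h2 : 20 * τ ≤ ℓ := by exact_mod_cast h1
    omega
  · have h1 : 2 * (m : ℝ) < (τ : ℝ) := by linarith
    exact_mod_cast h1
  · have hsub : ((kz β (ℓ + τ) - κ₁ : ℕ) : ℝ) = (kz β (ℓ + τ) : ℝ) - κ₁ := Nat.cast_sub hle
    have habs : |((kz β (ℓ + τ) - κ₁ : ℕ) : ℝ) - τ| ≤ 27 / 10000 * q + 1 := by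
      rw [hsub, abs_le]
      constructor <;> linarith
    have hrhs : 8 / 100 * q ≤ Real.sqrt ((τ : ℝ) - 2 * m) := by
      apply Real.le_sqrt_of_sq_le
      nlinarith
    calc 16 * (|((kz β (ℓ + τ) - κ₁ : ℕ) : ℝ) - τ| + 2 * m)
        ≤ 16 * ((27 / 10000 * q + 1) + q / 1000) := by linarith
      _ ≤ 8 / 100 * q := by linarith
      _ ≤ _ := hrhs

end Pool.Agent.Clz
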