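import Pool.Agent.Lib.MP_5a39b1_nt.Clz.Spec3

/-!
MP_5a39b1_nt, module AdmEx: existence of admissible r. See the docstring of `StmtAdmEx` in `Spec3.lean` for the proof.
-/

set_option autoImplicit false

namespace Pool.Agent.Clz

open Finset

theorem stmtAdmEx : StmtAdmEx := by
  refine ⟨81, by norm_num, fun u hu => ?_⟩
  set x : ℝ := Real.sqrt (Real.sqrt u) with hx
  have hu0 : 0 ≤ u := by linarith
  have hx4 : x ^ 4 = u := by
    have h1 : x ^ 2 = Real.sqrt u := Real.sq_sqrt (Real.sqrt_nonneg u)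
    have h2 : Real.sqrt u ^ 2 = u := Real.sq_sqrt hu0
    calc x ^ 4 = (x ^ 2) ^ 2 := by ring
      _ = u := by rw [h1, h2]
  have hx0 : 0 ≤ x := Real.sqrt_nonneg _
  have hx3 : 3 ≤ x := by
    by_contra h
    push Not at h
    have : x ^ 4 < 3 ^ 4 := pow_lt_pow_left₀ h hx0 (by norm_num)
    rw [hx4] at this
    norm_num at this
    linarith
  refine ⟨⌈x⌉₊, ?_, fun u' h1 h2 => ?_⟩
  · have : 0 < ⌈x⌉₊ := Nat.ceil_pos.mpr (by linarith)
    omega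
  · have hr1 : x ≤ (⌈x⌉₊ : ℝ) := Nat.le_ceil x
    have hr2 : (⌈x⌉₊ : ℝ) < x + 1 := Nat.ceil_lt_add_one hx0
    have hr3 : (⌈x⌉₊ : ℝ) ≤ 4 / 3 * x := by linarith
    have h3 : x ^ 4 ≤ (⌈x⌉₊ : ℝ) ^ 4 := pow_le_pow_left₀ hx0 hr1 4
    have h4 : (⌈x⌉₊ : ℝ) ^ 4 ≤ (4 / 3 * x) ^ 4 := pow_le_pow_left₀ (by linarith) hr3 4
    have h5 : (4 / 3 * x) ^ 4 = 256 / 81 * u := by rw [mul_pow, hx4]; norm_num
    rw [h5] at h4
    rw [hx4] at h3
    exact ⟨by linarith, by linarith⟩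

end Pool.Agent.Clz
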