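import Pool.Agent.Lib.MP_5a39b1_nt.Clz.Spec1

/-!
MP_5a39b1_nt, module Attempt: one attempt costs a factor gam. See the docstring of `StmtAttempt` in `Spec1.lean` for the proof.
-/

set_option autoImplicit false

namespace Pool.Agent.Clz

open Finset

namespace Attemptaux

theorem qq_le_one : qq ≤ 1 := Real.cos_le_one _

/-- half of the mass of a symmetric binomial distribution -/
theorem half_mass (hB : StmtBinBasic) (e : ℕ) :
    (1 / 2 : ℝ) ≤ ∑ k ∈ range (e + 1), P (2 * e) k := by
  obtain ⟨hnn, -, -, -, hmass, hsym, -⟩ := hB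
  have h1 := hmass (2 * e)
  have h2 : 2 * e + 1 = (e + 1) + e := by omega
  rw [h2, Finset.sum_range_add] at h1
  have h3 : ∑ x ∈ range e, P (2 * e) ((e + 1 + x : ℕ) : ℤ) = ∑ x ∈ range e, P (2 * e) (x : ℤ) := by
    rw [← Finset.sum_range_reflect]
    refine Finset.sum_congr rfl (fun x hx => ?_)
    have hx' := Finset.mem_range.mp hx
    rw [← hsym (2 * e) (x : ℤ)]
    congr 1
    omega
  rw [h3] at h1
  have h4 : ∑ x ∈ range e, P (2 * e) (x : ℤ) ≤ ∑ x ∈ range (e + 1), P (2 * e) (x : ℤ) := by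
    rw [Finset.sum_range_succ]
    have := hnn (2 * e) (e : ℤ)
    linarith
  linarith

/-- the exit point `(m-k, i+e)` is white for `k ≤ e` -/
theorem exit_white (hT : StmtThBasic) (hE : StmtExitWhite) (h : Th) (m i k : ℕ) (hm : m ≤ h.M0)
    (hk : k ≤ dl h m i) : white h (m - k) (i + dl h m i) := by
  rcases Nat.eq_zero_or_pos (dl h m i) with h0 | h0
  · have hk0 : k = 0 := by omega
    subst hk0
    exact (hT h m i hm).1
  · refine hE h m i k hm h0 ?_
    calc 3 ^ k ≤ 4 ^ k := Nat.pow_le_pow_left (by norm_num) k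
      _ ≤ 4 ^ dl h m i := Nat.pow_le_pow_right (by norm_num) hk

open Classical in
/-- one step of the recursion -/
theorem one_step (h : Th) (τ m' i' : ℕ) (M : ℝ) (h0 : V h τ m' (i' + 1) ≤ M)
    (h1 : V h τ (m' - 1) (i' + 1) ≤ M) (h2 : V h τ (m' - 2) (i' + 1) ≤ M)
    (hnn : ∀ τ m i : ℕ, 0 ≤ V h τ m i) :
    V h (τ + 1) m' i' ≤ M ∧ (white h m' i' → V h (τ + 1) m' i' ≤ (1 - (1 - qq) / 2) * M) := by
  have hq := qq_le_one
  have hrec : V h (τ + 1) m' i' = (1 / 4) * V h τ m' (i' + 1)
      + (1 / 2) * (if white h m' i' then qq else 1) * V h τ (m' - 1) (i' + 1)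
      + (1 / 4) * V h τ (m' - 2) (i' + 1) := by
    rw [V]
  have hq0 : 0 ≤ qq := by
    refine Real.cos_nonneg_of_mem_Icc ⟨?_, ?_⟩
    · have := Real.pi_pos; linarith
    · have := Real.pi_pos; linarith
  have hnn1 := hnn τ (m' - 1) (i' + 1)
  constructor
  · rw [hrec]
    by_cases hw : white h m' i'
    · simp only [hw, if_true]
      have : qq * V h τ (m' - 1) (i' + 1) ≤ 1 * M := by
        apply mul_le_mul hq h1 hnn1 (by norm_num)
      nlinarith
    · simp only [hw, if_false]
      nlinarith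
  · intro hw
    rw [hrec]
    simp only [hw, if_true]
    have : qq * V h τ (m' - 1) (i' + 1) ≤ qq * M := mul_le_mul_of_nonneg_left h1 hq0
    nlinarith

end Attemptaux

open Attemptaux in
theorem stmtAttempt (hBinBasic : StmtBinBasic) (hVBasic : StmtVBasic) (hThBasic : StmtThBasic) (hExitWhite : StmtExitWhite) : StmtAttempt := by
  intro h τ m i M hm hM hV
  set e := dl h m i with he
  have hnn : ∀ τ m i : ℕ, 0 ≤ V h τ m i := fun τ m i => (hVBasic.1 h τ m i).1
  have hle : V h (e + (τ + 1)) m i ≤ Qop e (V h (τ + 1)) m i := hVBasic.2.2.2.2.2 h e (τ + 1) m i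
  have hrw : e + 1 + τ = e + (τ + 1) := by omega
  rw [hrw]
  refine hle.trans ?_
  have hstep : ∀ k ∈ range (2 * e + 1), V h (τ + 1) (m - k) (i + e) ≤ M ∧
      (white h (m - k) (i + e) → V h (τ + 1) (m - k) (i + e) ≤ (1 - (1 - qq) / 2) * M) := by
    intro k hk
    have hk' := Finset.mem_range.mp hk
    refine one_step h τ (m - k) (i + e) M ?_ ?_ ?_ hnn
    · have := hV k (by omega)
      simpa [Nat.add_assoc] using this
    · have := hV (k + 1) (by omega)
      have e1 : m - k - 1 = m - (k + 1) := by omega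
      rw [e1]
      simpa [Nat.add_assoc] using this
    · have := hV (k + 2) (by omega)
      have e1 : m - k - 2 = m - (k + 2) := by omega
      rw [e1]
      simpa [Nat.add_assoc] using this
  obtain ⟨hPnn, -, -, -, hmass, -⟩ := id hBinBasic
  have hhalf := half_mass hBinBasic e
  have hq := qq_le_one
  unfold Qop
  have hsplit : 2 * e + 1 = (e + 1) + e := by omega
  have hmass' := hmass (2 * e)
  rw [hsplit, Finset.sum_range_add] at hmass'
  rw [hsplit, Finset.sum_range_add]
  have hA : ∑ k ∈ range (e + 1), P (2 * e) k * V h (τ + 1) (m - k) (i + e)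
      ≤ (∑ k ∈ range (e + 1), P (2 * e) k) * ((1 - (1 - qq) / 2) * M) := by
    rw [Finset.sum_mul]
    refine Finset.sum_le_sum (fun k hk => ?_)
    have hk' := Finset.mem_range.mp hk
    refine mul_le_mul_of_nonneg_left ?_ (hPnn _ _)
    refine (hstep k (Finset.mem_range.mpr (by omega))).2 ?_
    exact exit_white hThBasic hExitWhite h m i k hm (by omega)
  have hB : ∑ k ∈ range e, P (2 * e) ((e + 1 + k : ℕ) : ℤ) * V h (τ + 1) (m - (e + 1 + k)) (i + e)
      ≤ (∑ k ∈ range e, P (2 * e) ((e + 1 + k : ℕ) : ℤ)) * M := by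
    rw [Finset.sum_mul]
    refine Finset.sum_le_sum (fun k hk => ?_)
    have hk' := Finset.mem_range.mp hk
    refine mul_le_mul_of_nonneg_left ?_ (hPnn _ _)
    exact (hstep (e + 1 + k) (Finset.mem_range.mpr (by omega))).1
  refine (add_le_add hA hB).trans ?_
  set S := ∑ k ∈ range (e + 1), P (2 * e) (k : ℤ) with hS
  set S' := ∑ k ∈ range e, P (2 * e) ((e + 1 + k : ℕ) : ℤ) with hS'
  have hS'' : S' = 1 - S := by linarith
  rw [hS'']
  unfold gam
  have hprod : 0 ≤ (1 - qq) * M := mul_nonneg (by linarith) hM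
  nlinarith

end Pool.Agent.Clz
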