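import Pool.Agent.Lib.MP_5a39b1_nt.Clz.Spec1

/-!
MP_5a39b1_nt, module BinDiff: sums of first and second differences of binomial weights. See the docstring of `StmtBinDiff` in `Spec1.lean` for the proof.
-/

set_option autoImplicit false

namespace Pool.Agent.Clz

open Finset

namespace BinDiffaux

/-- absorption -/
lemma absorb (h : StmtBinBasic) (n : ℕ) (k : ℤ) :
    2 * ((k : ℝ) + 1) * P (n + 1) (k + 1) = ((n : ℝ) + 1) * P n k := by
  obtain ⟨_, hs, _⟩ := h
  rcases lt_or_ge k (-1) with hk | hk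
  · rw [hs (n + 1) (k + 1) (Or.inl (by omega)), hs n k (Or.inl (by omega))]
    ring
  · rcases hk.lt_or_eq with hk' | hk'
    · have hk0 : 0 ≤ k := by omega
      obtain ⟨m, rfl⟩ := Int.eq_ofNat_of_zero_le hk0
      unfold P
      rw [if_pos (by positivity), if_pos (by positivity)]
      have h1 : ((m : ℤ) + 1).toNat = m + 1 := by omega
      have h2 : ((m : ℤ)).toNat = m := by omega
      rw [h1, h2]
      have h3 : ((n : ℝ) + 1) * (n.choose m : ℝ) = ((n + 1).choose (m + 1) : ℝ) * ((m : ℝ) + 1) := by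
        exact_mod_cast Nat.add_one_mul_choose_eq n m
      rw [mul_div_assoc', mul_div_assoc', h3, pow_succ]
      push_cast
      field_simp
    · rw [← hk', hs n (-1) (Or.inl (by omega))]
      push_cast
      ring

lemma absorb' (h : StmtBinBasic) (n : ℕ) (k : ℤ) :
    2 * ((n : ℝ) - k) * P (n + 1) (k + 1) = ((n : ℝ) + 1) * P n (k + 1) := by
  have h1 := absorb h n k
  obtain ⟨_, _, _, hp, _⟩ := h
  have h2 := hp n (k + 1)
  rw [add_sub_cancel_right] at h2
  linear_combination (-1) * h1 + 2 * ((n : ℝ) + 1) * h2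

lemma first (h : StmtBinBasic) (n : ℕ) (k : ℤ) :
    P n (k + 1) - P n k = 2 / ((n : ℝ) + 1) * (P (n + 1) (k + 1) * (-(2 * ((k : ℝ) + 1) - (n + 1)))) := by
  have h1 := absorb h n k
  have h2 := absorb' h n k
  have hn : (n : ℝ) + 1 ≠ 0 := by positivity
  rw [div_mul_eq_mul_div, eq_div_iff hn]
  linear_combination h1 - h2

lemma second (h : StmtBinBasic) (n : ℕ) (k : ℤ) :
    P n (k + 1) - 2 * P n k + P n (k - 1) = 4 / (((n : ℝ) + 1) * (n + 2)) *
      (P (n + 2) (k + 1) * ((2 * ((k : ℝ) + 1) - (n + 2)) ^ 2 - (n + 2))) := by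
  have a1 := absorb h n k
  have a2 := absorb' h n k
  have a3 := absorb h n (k - 1)
  have b1 := absorb h (n + 1) k
  have b2 := absorb' h (n + 1) k
  rw [sub_add_cancel] at a3
  push_cast at a3 b1 b2
  have hn : ((n : ℝ) + 1) * (n + 2) ≠ 0 := by positivity
  rw [div_mul_eq_mul_div, eq_div_iff hn]
  have c1 : ((n : ℝ) + 1) * (n + 2) * P n (k - 1) = 4 * k * (k + 1) * P (n + 2) (k + 1) := by
    linear_combination (-(n : ℝ) - 2) * a3 - (2 * (k : ℝ)) * b1
  have c2 : ((n : ℝ) + 1) * (n + 2) * P n k = 4 * (k + 1) * (n + 1 - k) * P (n + 2) (k + 1) := by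
    linear_combination (-(n : ℝ) - 2) * a1 - (2 * ((k : ℝ) + 1)) * b2
  have c3 : ((n : ℝ) + 1) * (n + 2) * P n (k + 1) = 4 * (n - k) * (n + 1 - k) * P (n + 2) (k + 1) := by
    linear_combination (-(n : ℝ) - 2) * a2 - (2 * ((n : ℝ) - k)) * b2
  linear_combination c3 - 2 * c2 + c1

lemma sum_le (h : StmtBinBasic) (n : ℕ) (s : Finset ℤ) (φ : ℤ → ℝ) (hφ : ∀ k, 0 ≤ φ k) :
    ∑ k ∈ s, P n (k + 1) * φ (k + 1) ≤ ∑ k ∈ range (n + 1), P n k * φ k := by
  obtain ⟨hnn, hs, _⟩ := h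
  have h1 : ∑ k ∈ s, P n (k + 1) * φ (k + 1) =
      ∑ k ∈ s.image (fun k => k + 1), P n k * φ k := by
    rw [Finset.sum_image]
    intro a _ b _ hab
    simpa using hab
  have h2 : ∑ k ∈ range (n + 1), P n k * φ k =
      ∑ k ∈ (range (n + 1)).image (fun k : ℕ => (k : ℤ)), P n k * φ k := by
    rw [Finset.sum_image]
    intro a _ b _ hab
    simpa using hab
  rw [h1, h2]
  refine le_trans (b := ∑ k ∈ (s.image (fun k => k + 1)).filter
      (fun k => k ∈ (range (n + 1)).image (fun k : ℕ => (k : ℤ))), P n k * φ k) (le_of_eq ?_) ?_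
  · symm
    apply Finset.sum_subset (Finset.filter_subset _ _)
    intro k hk hk'
    rw [hs n k, zero_mul]
    by_contra hcon
    push Not at hcon
    apply hk'
    rw [Finset.mem_filter]
    refine ⟨hk, ?_⟩
    rw [Finset.mem_image]
    refine ⟨k.toNat, ?_, ?_⟩
    · rw [Finset.mem_range]; omega
    · omega
  · apply Finset.sum_le_sum_of_subset_of_nonneg
    · intro k hk
      exact (Finset.mem_filter.1 hk).2
    · intro k _ _
      exact mul_nonneg (hnn n k) (hφ k)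

lemma part1 (h : StmtBinBasic) (n : ℕ) (s : Finset ℤ) :
    ∑ k ∈ s, |P n (k + 1) - P n k| ≤ 2 / Real.sqrt (n + 1) := by
  have hn : (0 : ℝ) < (n : ℝ) + 1 := by positivity
  set c := Real.sqrt ((n : ℝ) + 1) with hc
  have hcpos : 0 < c := Real.sqrt_pos.2 hn
  have hcsq : c ^ 2 = (n : ℝ) + 1 := Real.sq_sqrt hn.le
  have h1 : ∀ k : ℤ, |P n (k + 1) - P n k| =
      2 / ((n : ℝ) + 1) * (P (n + 1) (k + 1) * |2 * (((k + 1 : ℤ) : ℝ)) - (n + 1)|) := by
    intro k
    rw [first h n k, abs_mul, abs_mul, abs_neg, abs_of_nonneg (h.1 (n + 1) (k + 1)),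
      abs_of_pos (by positivity : (0 : ℝ) < 2 / ((n : ℝ) + 1))]
    push_cast
    rfl
  simp_rw [h1]
  rw [← Finset.mul_sum]
  have h2 := sum_le h (n + 1) s (fun k => |2 * (k : ℝ) - (n + 1)|) (fun k => abs_nonneg _)
  have h3 : ∑ k ∈ range (n + 1 + 1), P (n + 1) k * |2 * (((k : ℕ) : ℤ) : ℝ) - (n + 1)| ≤ c := by
    have hm := h.2.2.2.2.2.2.2.1 (n + 1)
    have ht := h.2.2.2.2.1 (n + 1)
    push_cast at hm
    calc ∑ k ∈ range (n + 1 + 1), P (n + 1) k * |2 * (((k : ℕ) : ℤ) : ℝ) - (n + 1)|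
        ≤ ∑ k ∈ range (n + 1 + 1), (1 / (2 * c) * (P (n + 1) k * (2 * (k : ℝ) - (n + 1)) ^ 2)
            + c / 2 * P (n + 1) k) := by
          apply Finset.sum_le_sum
          intro k _
          have h4 : |2 * (((k : ℕ) : ℤ) : ℝ) - (n + 1)| ≤
              1 / (2 * c) * (2 * (k : ℝ) - (n + 1)) ^ 2 + c / 2 := by
            set x := 2 * (k : ℝ) - (n + 1) with hx
            have hx' : 2 * (((k : ℕ) : ℤ) : ℝ) - (n + 1) = x := by rw [hx]; push_cast; ring
            rw [hx']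
            have h5 : 1 / (2 * c) * x ^ 2 + c / 2 - |x| = (|x| - c) ^ 2 / (2 * c) := by
              rw [← sq_abs x]
              field_simp
              ring
            have h6 : 0 ≤ (|x| - c) ^ 2 / (2 * c) := by positivity
            linarith
          calc P (n + 1) k * |2 * (((k : ℕ) : ℤ) : ℝ) - (n + 1)|
              ≤ P (n + 1) k * (1 / (2 * c) * (2 * (k : ℝ) - (n + 1)) ^ 2 + c / 2) :=
                mul_le_mul_of_nonneg_left h4 (h.1 _ _)
            _ = _ := by ring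
      _ = 1 / (2 * c) * ((n : ℝ) + 1) + c / 2 * 1 := by
          rw [Finset.sum_add_distrib, ← Finset.mul_sum, ← Finset.mul_sum, hm, ht]
      _ = c := by
          rw [← hcsq]
          field_simp
          ring
  calc 2 / ((n : ℝ) + 1) * ∑ k ∈ s, P (n + 1) (k + 1) * |2 * (((k + 1 : ℤ) : ℝ)) - (n + 1)|
      ≤ 2 / ((n : ℝ) + 1) * c := by
        apply mul_le_mul_of_nonneg_left (le_trans h2 h3) (by positivity)
    _ = 2 / c := by
        rw [← hcsq]
        field_simp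

lemma part2 (h : StmtBinBasic) (n : ℕ) (s : Finset ℤ) :
    ∑ k ∈ s, |P n (k + 1) - 2 * P n k + P n (k - 1)| ≤ 8 / ((n : ℝ) + 1) := by
  have hn : (0 : ℝ) < (n : ℝ) + 1 := by positivity
  have h1 : ∀ k : ℤ, |P n (k + 1) - 2 * P n k + P n (k - 1)| =
      4 / (((n : ℝ) + 1) * (n + 2)) *
      (P (n + 2) (k + 1) * |(2 * (((k + 1 : ℤ) : ℝ)) - (n + 2)) ^ 2 - (n + 2)|) := by
    intro k
    rw [second h n k, abs_mul, abs_mul, abs_of_nonneg (h.1 (n + 2) (k + 1)),
      abs_of_pos (by positivity : (0 : ℝ) < 4 / (((n : ℝ) + 1) * (n + 2)))]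
    push_cast
    rfl
  simp_rw [h1]
  rw [← Finset.mul_sum]
  have h2 := sum_le h (n + 2) s (fun k => |(2 * (k : ℝ) - (n + 2)) ^ 2 - (n + 2)|)
    (fun k => abs_nonneg _)
  have h3 : ∑ k ∈ range (n + 2 + 1), P (n + 2) k *
      |(2 * (((k : ℕ) : ℤ) : ℝ) - (n + 2)) ^ 2 - (n + 2)| ≤ 2 * ((n : ℝ) + 2) := by
    have hm := h.2.2.2.2.2.2.2.1 (n + 2)
    have ht := h.2.2.2.2.1 (n + 2)
    push_cast at hm
    calc ∑ k ∈ range (n + 2 + 1), P (n + 2) k *
            |(2 * (((k : ℕ) : ℤ) : ℝ) - (n + 2)) ^ 2 - (n + 2)|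
        ≤ ∑ k ∈ range (n + 2 + 1), (P (n + 2) k * (2 * (k : ℝ) - (n + 2)) ^ 2
            + ((n : ℝ) + 2) * P (n + 2) k) := by
          apply Finset.sum_le_sum
          intro k _
          have h4 : |(2 * (((k : ℕ) : ℤ) : ℝ) - (n + 2)) ^ 2 - (n + 2)| ≤
              (2 * (k : ℝ) - (n + 2)) ^ 2 + (n + 2) := by
            push_cast
            apply abs_le.2
            constructor
            · nlinarith [sq_nonneg (2 * (k : ℝ) - (n + 2))]
            · have : (0 : ℝ) ≤ (n : ℝ) + 2 := by positivity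
              linarith
          calc P (n + 2) k * |(2 * (((k : ℕ) : ℤ) : ℝ) - (n + 2)) ^ 2 - (n + 2)|
              ≤ P (n + 2) k * ((2 * (k : ℝ) - (n + 2)) ^ 2 + (n + 2)) :=
                mul_le_mul_of_nonneg_left h4 (h.1 _ _)
            _ = _ := by ring
      _ = ((n : ℝ) + 2) + ((n : ℝ) + 2) * 1 := by
          rw [Finset.sum_add_distrib, ← Finset.mul_sum, hm, ht]
      _ = 2 * ((n : ℝ) + 2) := by ring
  calc 4 / (((n : ℝ) + 1) * (n + 2)) *
        ∑ k ∈ s, P (n + 2) (k + 1) * |(2 * (((k + 1 : ℤ) : ℝ)) - (n + 2)) ^ 2 - (n + 2)|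
      ≤ 4 / (((n : ℝ) + 1) * (n + 2)) * (2 * ((n : ℝ) + 2)) := by
        apply mul_le_mul_of_nonneg_left (le_trans h2 h3) (by positivity)
    _ = 8 / ((n : ℝ) + 1) := by
        field_simp
        ring

lemma tele (f : ℤ → ℝ) (B : ℝ) (hB : ∀ s : Finset ℤ, ∑ k ∈ s, |f k - f (k - 1)| ≤ B)
    (h0 : ∀ k < -1, f k = 0) (k : ℤ) : |f k| ≤ B := by
  have hB0 : 0 ≤ B := by simpa using hB ∅
  rcases lt_or_ge k (-1) with hk | hk
  · rw [h0 k hk, abs_zero]; exact hB0
  · obtain ⟨m, hm⟩ : ∃ m : ℕ, k = (m : ℤ) - 1 := ⟨(k + 1).toNat, by omega⟩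
    subst hm
    have h1 := Finset.sum_range_sub (fun j : ℕ => f ((j : ℤ) - 2)) (m + 1)
    have h2 : f (((0 : ℕ) : ℤ) - 2) = 0 := h0 _ (by norm_num)
    have h3 : (((m + 1 : ℕ) : ℤ) - 2) = (m : ℤ) - 1 := by push_cast; ring
    simp only [h2, h3, sub_zero] at h1
    rw [← h1]
    refine le_trans (Finset.abs_sum_le_sum_abs _ _) ?_
    refine le_trans (le_of_eq ?_) (hB ((range (m + 1)).image (fun j : ℕ => (j : ℤ) - 1)))
    rw [Finset.sum_image]
    · apply Finset.sum_congr rfl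
      intro j _
      have e1 : (((j + 1 : ℕ) : ℤ) - 2) = (j : ℤ) - 1 := by push_cast; ring
      have e2 : ((j : ℤ) - 1 - 1) = (j : ℤ) - 2 := by ring
      rw [e1, e2]
    · intro a _ b _ hab
      simpa using hab

end BinDiffaux

open BinDiffaux in
theorem stmtBinDiff (hBinBasic : StmtBinBasic) : StmtBinDiff := by
  have h := hBinBasic
  refine ⟨part1 h, part2 h, fun n k => ?_, fun n k => ?_⟩
  · apply tele (fun k => P n (k + 1) - P n k) (8 / ((n : ℝ) + 1))
    · intro s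
      refine le_trans (le_of_eq ?_) (part2 h n s)
      apply Finset.sum_congr rfl
      intro k _
      congr 1
      simp only [sub_add_cancel]
      ring
    · intro k hk
      rw [h.2.1 n (k + 1) (Or.inl (by omega)), h.2.1 n k (Or.inl (by omega)), sub_zero]
  · refine le_trans (le_abs_self _) ?_
    apply tele (fun k => P n k) (2 / Real.sqrt ((n : ℝ) + 1))
    · intro s
      refine le_trans (le_of_eq ?_) (part1 h n (s.image (fun k => k - 1)))
      rw [Finset.sum_image]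
      · apply Finset.sum_congr rfl
        intro k _
        rw [sub_add_cancel]
      · intro a _ b _ hab
        simpa using hab
    · intro k hk
      exact h.2.1 n k (Or.inl (by omega))

end Pool.Agent.Clz
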