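import Pool.Agent.Lib.MP_5a39b1_nt.Clz.Spec1

/-!
MP_5a39b1_nt, module BinShift: shift, time shift, lower bound near the centre, Chebyshev. See the docstring of `StmtBinShift` in `Spec1.lean` for the proof.
-/

set_option autoImplicit false

namespace Pool.Agent.Clz

open Finset

namespace BinShiftaux

/-- A sum bound uniform in the finite set may be translated. -/
theorem sum_shift (φ : ℤ → ℝ) (B : ℝ) (h : ∀ s : Finset ℤ, ∑ k ∈ s, φ k ≤ B) (a : ℤ)
    (s : Finset ℤ) : ∑ k ∈ s, φ (k + a) ≤ B := by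
  have h1 := h (s.map (addRightEmbedding a))
  rw [Finset.sum_map] at h1
  exact h1

theorem shift_nat (n : ℕ) (hd : ∀ s : Finset ℤ, ∑ k ∈ s, |P n (k + 1) - P n k| ≤ 2 / Real.sqrt (n + 1))
    (j : ℕ) (s : Finset ℤ) :
    ∑ k ∈ s, |P n k - P n (k - j)| ≤ (j : ℝ) * (2 / Real.sqrt (n + 1)) := by
  induction j with
  | zero => simp
  | succ j ih =>
    have h1 : ∀ k : ℤ, |P n k - P n (k - (j + 1 : ℕ))| ≤
        |P n k - P n (k - j)| + |P n (k + (-j - 1) + 1) - P n (k + (-j - 1))| := by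
      intro k
      have e1 : k - ((j + 1 : ℕ) : ℤ) = k + (-j - 1) := by push_cast; ring
      have e2 : k + (-(j : ℤ) - 1) + 1 = k - j := by ring
      rw [e1, e2]
      exact abs_sub_le _ _ _
    calc ∑ k ∈ s, |P n k - P n (k - (j + 1 : ℕ))|
        ≤ ∑ k ∈ s, (|P n k - P n (k - j)| + |P n (k + (-j - 1) + 1) - P n (k + (-j - 1))|) :=
          Finset.sum_le_sum fun k _ => h1 k
      _ = ∑ k ∈ s, |P n k - P n (k - j)| +
          ∑ k ∈ s, |P n (k + (-j - 1) + 1) - P n (k + (-j - 1))| := Finset.sum_add_distrib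
      _ ≤ (j : ℝ) * (2 / Real.sqrt (n + 1)) + 2 / Real.sqrt (n + 1) :=
          add_le_add ih (sum_shift (fun k => |P n (k + 1) - P n k|) _ hd _ s)
      _ = ((j + 1 : ℕ) : ℝ) * (2 / Real.sqrt (n + 1)) := by push_cast; ring

theorem shift_int (n : ℕ) (hd : ∀ s : Finset ℤ, ∑ k ∈ s, |P n (k + 1) - P n k| ≤ 2 / Real.sqrt (n + 1))
    (j : ℤ) (s : Finset ℤ) :
    ∑ k ∈ s, |P n k - P n (k - j)| ≤ |(j : ℝ)| * (2 / Real.sqrt (n + 1)) := by
  obtain ⟨m, rfl | rfl⟩ := j.eq_nat_or_neg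
  · have h1 := shift_nat n hd m s
    simpa using h1
  · have h1 := sum_shift (fun k => |P n k - P n (k - m)|) ((m : ℝ) * (2 / Real.sqrt (n + 1)))
      (fun s => shift_nat n hd m s) m s
    have h2 : ∀ k : ℤ, |P n k - P n (k - -(m : ℤ))| = |P n (k + m) - P n (k + m - m)| := by
      intro k
      rw [sub_neg_eq_add, add_sub_cancel_right, abs_sub_comm]
    simp_rw [h2]
    simpa using h1

theorem point_nat (n : ℕ) (hd : ∀ k : ℤ, |P n (k + 1) - P n k| ≤ 8 / (n + 1)) (j : ℕ) (k : ℤ) :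
    |P n k - P n (k - j)| ≤ (j : ℝ) * (8 / (n + 1)) := by
  induction j with
  | zero => simp
  | succ j ih =>
    have e1 : k - ((j + 1 : ℕ) : ℤ) = k - j - 1 := by push_cast; ring
    have h1 := hd (k - j - 1)
    have e2 : k - (j : ℤ) - 1 + 1 = k - j := by ring
    rw [e2] at h1
    rw [e1]
    calc |P n k - P n (k - j - 1)| ≤ |P n k - P n (k - j)| + |P n (k - j) - P n (k - j - 1)| :=
          abs_sub_le _ _ _
      _ ≤ (j : ℝ) * (8 / (n + 1)) + 8 / (n + 1) := add_le_add ih h1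
      _ = ((j + 1 : ℕ) : ℝ) * (8 / (n + 1)) := by push_cast; ring

theorem point_int (n : ℕ) (hd : ∀ k : ℤ, |P n (k + 1) - P n k| ≤ 8 / (n + 1)) (j k : ℤ) :
    |P n k - P n (k - j)| ≤ |(j : ℝ)| * (8 / (n + 1)) := by
  obtain ⟨m, rfl | rfl⟩ := j.eq_nat_or_neg
  · have h1 := point_nat n hd m k
    simpa using h1
  · have h1 := point_nat n hd m (k + m)
    rw [add_sub_cancel_right, abs_sub_comm] at h1
    rw [sub_neg_eq_add]
    simpa using h1

theorem central (t : ℕ) (ht : 1 ≤ t) : 16 ^ t ≤ 4 * t * t.centralBinom ^ 2 := by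
  induction t, ht using Nat.le_induction with
  | base => simp [Nat.centralBinom]
  | succ t ht ih =>
    have h1 := Nat.succ_mul_centralBinom_succ t
    have h2 : (t + 1) * 16 ^ (t + 1) ≤ (t + 1) * (4 * (t + 1) * (t + 1).centralBinom ^ 2) := by
      calc (t + 1) * 16 ^ (t + 1) = 16 * (t + 1) * 16 ^ t := by ring
        _ ≤ 16 * (t + 1) * (4 * t * t.centralBinom ^ 2) := Nat.mul_le_mul_left _ ih
        _ = 4 * (4 * (4 * t * (t + 1)) * t.centralBinom ^ 2) := by ring
        _ ≤ 4 * (4 * (2 * t + 1) ^ 2 * t.centralBinom ^ 2) := by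
            apply Nat.mul_le_mul_left
            apply Nat.mul_le_mul_right
            apply Nat.mul_le_mul_left
            nlinarith
        _ = 4 * (2 * (2 * t + 1) * t.centralBinom) ^ 2 := by ring
        _ = 4 * ((t + 1) * (t + 1).centralBinom) ^ 2 := by rw [h1]
        _ = (t + 1) * (4 * (t + 1) * (t + 1).centralBinom ^ 2) := by ring
    exact Nat.le_of_mul_le_mul_left h2 (by omega)

theorem center_ge (t : ℕ) (ht : 1 ≤ t) : 1 / (2 * Real.sqrt t) ≤ P (2 * t) t := by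
  have h0 : P (2 * t) t = (t.centralBinom : ℝ) / 4 ^ t := by
    unfold P
    rw [if_pos (by positivity), Int.toNat_natCast, Nat.centralBinom, pow_mul]
    norm_num
  rw [h0]
  have hs : 0 < Real.sqrt t := Real.sqrt_pos.2 (by exact_mod_cast ht)
  rw [div_le_div_iff₀ (by positivity) (by positivity), one_mul]
  have h1 : ((16 : ℝ) ^ t) ≤ 4 * t * (t.centralBinom : ℝ) ^ 2 := by
    exact_mod_cast central t ht
  have h2 : ((4 : ℝ) ^ t) ^ 2 ≤ ((t.centralBinom : ℝ) * (2 * Real.sqrt t)) ^ 2 := by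
    rw [mul_pow, mul_pow, Real.sq_sqrt (by positivity)]
    calc ((4 : ℝ) ^ t) ^ 2 = 16 ^ t := by rw [← pow_mul, mul_comm, pow_mul]; norm_num
      _ ≤ 4 * t * (t.centralBinom : ℝ) ^ 2 := h1
      _ = (t.centralBinom : ℝ) ^ 2 * (2 ^ 2 * t) := by ring
  exact le_of_sq_le_sq h2 (by positivity) 

end BinShiftaux

open BinShiftaux in
theorem stmtBinShift (hBinBasic : StmtBinBasic) (hBinDiff : StmtBinDiff) : StmtBinShift := by
  obtain ⟨hnn, _, _, hpascal, _, _, _, hmom, _⟩ := hBinBasic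
  obtain ⟨hd1, hd2, hd3, _⟩ := hBinDiff
  have h2 : ∀ (n : ℕ) (j k : ℤ), |P n k - P n (k - j)| ≤ |(j : ℝ)| * (8 / (n + 1)) :=
    fun n j k => point_int n (hd3 n) j k
  refine ⟨fun n j s => shift_int n (hd1 n) j s, h2, ?_, ?_, ?_⟩
  · intro t τ s
    induction τ with
    | zero => simp
    | succ τ ih =>
      have hp : ∀ (n : ℕ) (k : ℤ), P (n + 2) (k + 1) - P n k =
          (1 / 4) * (P n (k + 1) - 2 * P n k + P n (k - 1)) := by
        intro n k
        rw [hpascal (n + 1), hpascal n (k + 1), add_sub_cancel_right, hpascal n k]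
        ring
      have h1 : ∀ k : ℤ, |P (2 * t) k - P (2 * (t + (τ + 1))) (k + (τ + 1 : ℕ))| ≤
          |P (2 * t) k - P (2 * (t + τ)) (k + τ)| +
            (1 / 4) * |P (2 * (t + τ)) (k + τ + 1) - 2 * P (2 * (t + τ)) (k + τ) +
              P (2 * (t + τ)) (k + τ - 1)| := by
        intro k
        have e1 : k + ((τ + 1 : ℕ) : ℤ) = k + τ + 1 := by push_cast; ring
        have e2 : 2 * (t + (τ + 1)) = 2 * (t + τ) + 2 := by ring
        rw [e1, e2]
        refine (abs_sub_le _ (P (2 * (t + τ)) (k + τ)) _).trans ?_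
        apply add_le_add le_rfl
        rw [abs_sub_comm, hp, abs_mul, abs_of_pos (by norm_num : (0 : ℝ) < 1 / 4)]
      have h3 : ∑ k ∈ s, |P (2 * (t + τ)) (k + τ + 1) - 2 * P (2 * (t + τ)) (k + τ) +
              P (2 * (t + τ)) (k + τ - 1)| ≤ 8 / ((2 * (t + τ) : ℕ) + 1) :=
        sum_shift (fun k => |P (2 * (t + τ)) (k + 1) - 2 * P (2 * (t + τ)) k +
              P (2 * (t + τ)) (k - 1)|) _ (hd2 (2 * (t + τ))) τ s
      calc ∑ k ∈ s, |P (2 * t) k - P (2 * (t + (τ + 1))) (k + (τ + 1 : ℕ))|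
          ≤ ∑ k ∈ s, (|P (2 * t) k - P (2 * (t + τ)) (k + τ)| +
            (1 / 4) * |P (2 * (t + τ)) (k + τ + 1) - 2 * P (2 * (t + τ)) (k + τ) +
              P (2 * (t + τ)) (k + τ - 1)|) := Finset.sum_le_sum fun k _ => h1 k
        _ = ∑ k ∈ s, |P (2 * t) k - P (2 * (t + τ)) (k + τ)| +
            (1 / 4) * ∑ k ∈ s, |P (2 * (t + τ)) (k + τ + 1) - 2 * P (2 * (t + τ)) (k + τ) +
              P (2 * (t + τ)) (k + τ - 1)| := by
            rw [Finset.sum_add_distrib, Finset.mul_sum]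
        _ ≤ 2 * τ / (2 * t + 1) + (1 / 4) * (8 / ((2 * (t + τ) : ℕ) + 1)) := by
            gcongr
        _ ≤ 2 * τ / (2 * t + 1) + 2 / (2 * t + 1) := by
            apply add_le_add le_rfl
            have h4 : (1 / 4 : ℝ) * (8 / ((2 * (t + τ) : ℕ) + 1)) =
                2 / ((2 * (t + τ) : ℕ) + 1) := by ring
            rw [h4]
            apply div_le_div_of_nonneg_left (by norm_num) (by positivity)
            push_cast
            nlinarith [(Nat.cast_nonneg τ : (0 : ℝ) ≤ τ)]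
        _ = 2 * ((τ + 1 : ℕ) : ℝ) / (2 * t + 1) := by push_cast; ring
  · intro t x ht hx
    have hs : 0 < Real.sqrt t := Real.sqrt_pos.2 (by exact_mod_cast ht)
    have hss : Real.sqrt t * Real.sqrt t = t := Real.mul_self_sqrt (by positivity)
    have h3 := h2 (2 * t) x (t + x)
    rw [add_sub_cancel_right] at h3
    have h4 := center_ge t ht
    have h5 : |(x : ℝ)| * (8 / (((2 * t : ℕ) : ℝ) + 1)) ≤ 1 / (4 * Real.sqrt t) := by
      have hx' : |(x : ℝ)| ≤ Real.sqrt t / 16 := by linarith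
      calc |(x : ℝ)| * (8 / (((2 * t : ℕ) : ℝ) + 1)) ≤
            Real.sqrt t / 16 * (8 / (((2 * t : ℕ) : ℝ) + 1)) := by gcongr
        _ ≤ 1 / (4 * Real.sqrt t) := by
            rw [div_mul_div_comm, div_le_div_iff₀ (by positivity) (by positivity)]
            push_cast
            nlinarith
    have h6 : 1 / (2 * Real.sqrt t) = 1 / (4 * Real.sqrt t) + 1 / (4 * Real.sqrt t) := by
      field_simp
      norm_num
    have h7 := (abs_le.1 (h3.trans h5)).1
    linarith
  · intro n x hx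
    have hx2 : 0 < x ^ 2 := by positivity
    rw [le_div_iff₀ hx2, Finset.sum_mul]
    calc ∑ k ∈ (range (n + 1)).filter (fun k : ℕ => x ≤ |2 * (k : ℝ) - n|), P n k * x ^ 2
        ≤ ∑ k ∈ (range (n + 1)).filter (fun k : ℕ => x ≤ |2 * (k : ℝ) - n|),
            P n k * (2 * (k : ℝ) - n) ^ 2 := by
          apply Finset.sum_le_sum
          intro k hk
          apply mul_le_mul_of_nonneg_left _ (hnn n k)
          rw [← sq_abs (2 * (k : ℝ) - n)]
          exact pow_le_pow_left₀ hx.le (Finset.mem_filter.1 hk).2 2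
      _ ≤ ∑ k ∈ range (n + 1), P n k * (2 * (k : ℝ) - n) ^ 2 := by
          apply Finset.sum_le_sum_of_subset_of_nonneg (Finset.filter_subset _ _)
          intro k _ _
          exact mul_nonneg (hnn n k) (sq_nonneg _)
      _ = n := hmom n

end Pool.Agent.Clz
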