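import Pool.Agent.Lib.MP_5a39b1_nt.Clz.Spec1

/-!
MP_5a39b1_nt, module Chain: Q attempts. See the docstring of `StmtChain` in `Spec1.lean` for the proof.
-/

set_option autoImplicit false

namespace Pool.Agent.Clz

open Finset

namespace Chainaux

lemma gam_nonneg : 0 ≤ gam := by
  unfold gam qq
  have h := Real.neg_one_le_cos (Real.pi / 10)
  linarith

end Chainaux

theorem stmtChain (hVBasic : StmtVBasic) (hAttempt : StmtAttempt) : StmtChain := by
  intro h σ Q m i τ hm hσ hτ
  have key : ∀ n q : ℕ, q + n = Q → ∀ h' ≤ ∑ j ∈ range q, σ j, ∀ s' ≤ 2 * h', ∀ t : ℕ,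
      ∑ j ∈ range Q, σ j ≤ t + ∑ j ∈ range q, σ j → V h t (m - s') (i + h') ≤ gam ^ n := by
    intro n
    induction n with
    | zero =>
      intro q _ h' _ s' _ t _
      rw [pow_zero]
      exact (hVBasic.1 h t (m - s') (i + h')).2
    | succ n ih =>
      intro q hq h' hh' s' hs' t ht
      have hlt := hσ q (by omega) h' hh' s' hs'
      have hsum : ∑ j ∈ range (q + 1), σ j = ∑ j ∈ range q, σ j + σ q := sum_range_succ _ _
      have hle : ∑ j ∈ range (q + 1), σ j ≤ ∑ j ∈ range Q, σ j :=
        sum_le_sum_of_subset (range_mono (by omega))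
      obtain ⟨t', rfl⟩ : ∃ t', t = dl h (m - s') (i + h') + 1 + t' :=
        ⟨t - (dl h (m - s') (i + h') + 1), by omega⟩
      have h1 := hAttempt h t' (m - s') (i + h') (gam ^ n) (by omega)
        (pow_nonneg Chainaux.gam_nonneg n) ?_
      · rw [pow_succ, mul_comm]
        exact h1
      · intro k hk
        have h2 := ih (q + 1) (by omega) (h' + (dl h (m - s') (i + h') + 1)) (by omega)
          (s' + k) (by omega) t' (by omega)
        rw [Nat.sub_sub, add_assoc i h']
        exact h2
  have h3 := key Q 0 (by omega) 0 (Nat.zero_le _) 0 (Nat.zero_le _) τ (by simpa using hτ)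
  simpa using h3

end Pool.Agent.Clz
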