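import Pool.Agent.Lib.MP_5a39b1_nt.Clz.Spec1

/-!
MP_5a39b1_nt, module Cross: after a long waiting time the next attempts are short. See the docstring of `StmtCross` in `Spec1.lean` for the proof.
-/

set_option autoImplicit false

namespace Pool.Agent.Clz

open Finset

namespace Crossaux

theorem gam_nonneg : 0 ≤ gam := by
  unfold gam qq
  have h1 := Real.neg_one_le_cos (Real.pi / 10)
  linarith

theorem ex_f (ε : ℝ) (hε : 0 < ε) : ∃ f : ℕ → ℕ, ∀ H : ℕ, 3 * H + 2 ≤ f H ∧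
    (4 * (H : ℝ) + 1) * (1 / ((f H : ℝ) - 1 - 3 * H)) ≤ ε / 2 := by
  refine ⟨fun H => 3 * H + 2 + ⌈(4 * (H : ℝ) + 1) * 2 / ε⌉₊, fun H => ⟨Nat.le_add_right _ _, ?_⟩⟩
  have h1 : (4 * (H : ℝ) + 1) * 2 / ε ≤ (⌈(4 * (H : ℝ) + 1) * 2 / ε⌉₊ : ℝ) := Nat.le_ceil _
  have h2 : 0 < (4 * (H : ℝ) + 1) * 2 / ε := by positivity
  push_cast
  generalize (⌈(4 * (H : ℝ) + 1) * 2 / ε⌉₊ : ℝ) = c at h1
  have h3 : 3 * (H : ℝ) + 2 + c - 1 - 3 * H = 1 + c := by ring
  rw [h3, mul_one_div, div_le_iff₀ (by linarith)]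
  rw [div_le_iff₀ hε] at h1
  nlinarith

theorem ex_y (ε : ℝ) (hε : 0 < ε) (H : ℕ) : ∃ y₀ : ℕ, ∀ e : ℕ, y₀ ≤ e → 1 ≤ e ∧ 16 * H ≤ e ∧
    (4 * (H : ℝ) + 1) * (2 / Real.sqrt (2 * e + 1)) + 32 / e ≤ ε / 2 := by
  have h1 : Filter.Tendsto (fun e : ℕ => 2 / Real.sqrt (2 * (e : ℝ) + 1)) Filter.atTop (nhds 0) := by
    apply Filter.Tendsto.div_atTop tendsto_const_nhds
    apply Real.tendsto_sqrt_atTop.comp
    apply Filter.tendsto_atTop_add_const_right
    exact Filter.Tendsto.const_mul_atTop (by norm_num) tendsto_natCast_atTop_atTop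
  have h2 : Filter.Tendsto (fun e : ℕ => (32 : ℝ) / e) Filter.atTop (nhds 0) :=
    Filter.Tendsto.div_atTop tendsto_const_nhds tendsto_natCast_atTop_atTop
  have h3 : Filter.Tendsto (fun e : ℕ => (4 * (H : ℝ) + 1) * (2 / Real.sqrt (2 * (e : ℝ) + 1))
      + 32 / e) Filter.atTop (nhds ((4 * (H : ℝ) + 1) * 0 + 0)) := (h1.const_mul _).add h2
  rw [mul_zero, add_zero] at h3
  have h4 := h3.eventually (ge_mem_nhds (show (0 : ℝ) < ε / 2 by positivity))
  obtain ⟨y, hy⟩ := Filter.eventually_atTop.1 h4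
  refine ⟨max y (16 * H + 1), fun e he => ⟨?_, ?_, hy e (le_trans (le_max_left _ _) he)⟩⟩
  · have := le_trans (le_max_right _ _) he; omega
  · have := le_trans (le_max_right _ _) he; omega

/-- sums of the scales -/
def Hs (f : ℕ → ℕ) : ℕ → ℕ
  | 0 => 0
  | q + 1 => Hs f q + f (Hs f q)

theorem sum_Hs (f : ℕ → ℕ) (q : ℕ) : ∑ j ∈ range q, f (Hs f j) = Hs f q := by
  induction q with
  | zero => simp [Hs]
  | succ q ih => rw [Finset.sum_range_succ, ih, Hs]

theorem Hs_mono (f : ℕ → ℕ) : Monotone (Hs f) := monotone_nat_of_le_succ fun q => by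
  rw [Hs]; omega

end Crossaux

open Crossaux

theorem stmtCross (hVBasic : StmtVBasic) (hBinBasic : StmtBinBasic) (hChain : StmtChain) (hBadProb : StmtBadProb) : StmtCross := by
  classical
  intro Q η hη
  have hε : 0 < η / (Q + 1) := by positivity
  obtain ⟨f, hf⟩ := ex_f _ hε
  obtain ⟨y₀, hy⟩ := ex_y _ hε (Hs f Q)
  refine ⟨Hs f Q, y₀, fun h m i τ hm hdl hτ => ?_⟩
  obtain ⟨hVr, -, -, -, -, hVQ⟩ := hVBasic
  obtain ⟨he1, he2, he3⟩ := hy _ hdl
  refine le_trans (hVQ h (dl h m i) τ m i) ?_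
  unfold Qop
  set e := dl h m i with hee
  have hP0 : ∀ (n : ℕ) (k : ℤ), 0 ≤ P n k := hBinBasic.1
  have hP1 := hBinBasic.2.2.2.2.1 (2 * e)
  -- the bad sets
  let B : ℕ → Finset ℕ := fun q => (range (2 * e + 1)).filter
    (fun k : ℕ => ∃ h' ≤ Hs f q, ∃ s' ≤ 2 * Hs f q, f (Hs f q) ≤ dl h (m - (k + s')) (i + e + h'))
  have hB : ∀ q, q < Q → ∑ k ∈ B q, P (2 * e) (k : ℤ) ≤ η / (Q + 1) := by
    intro q hq
    have hqQ : Hs f q ≤ Hs f Q := Hs_mono f hq.le
    have h1 := hBadProb h m i (Hs f q) (f (Hs f q)) hm he1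
      (le_trans (Nat.mul_le_mul_left 16 hqQ) he2) (hf _).1
    have h2 := (hf (Hs f q)).2
    have h3 : (Hs f q : ℝ) ≤ Hs f Q := by exact_mod_cast hqQ
    have h4 : 0 ≤ 2 / Real.sqrt (2 * (e : ℝ) + 1) := by positivity
    have h5 : (4 * (Hs f q : ℝ) + 1) * (2 / Real.sqrt (2 * (e : ℝ) + 1))
        ≤ (4 * (Hs f Q : ℝ) + 1) * (2 / Real.sqrt (2 * (e : ℝ) + 1)) :=
      mul_le_mul_of_nonneg_right (by linarith) h4
    have h6 : ∑ k ∈ B q, P (2 * e) (k : ℤ) ≤ (4 * (Hs f q : ℝ) + 1) *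
        (1 / ((f (Hs f q) : ℝ) - 1 - 3 * Hs f q) + 2 / Real.sqrt (2 * (e : ℝ) + 1)) + 32 / e := by
      convert h1 using 2
    rw [mul_add] at h6
    linarith
  have hg : 0 ≤ gam ^ Q := pow_nonneg gam_nonneg Q
  -- pointwise bound
  have key : ∀ k ∈ range (2 * e + 1), P (2 * e) (k : ℤ) * V h τ (m - k) (i + e) ≤
      P (2 * e) (k : ℤ) * gam ^ Q + ∑ q ∈ range Q, if k ∈ B q then P (2 * e) (k : ℤ) else 0 := by
    intro k hk
    have hPk := hP0 (2 * e) k
    have hs0 : ∀ q ∈ range Q, 0 ≤ if k ∈ B q then P (2 * e) (k : ℤ) else 0 := by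
      intro q _
      split_ifs
      · exact hPk
      · exact le_refl _
    by_cases hbad : ∃ q, q < Q ∧ k ∈ B q
    · obtain ⟨q, hq, hkq⟩ := hbad
      have h1 : P (2 * e) (k : ℤ) ≤ ∑ q ∈ range Q, if k ∈ B q then P (2 * e) (k : ℤ) else 0 := by
        refine le_trans ?_ (Finset.single_le_sum hs0 (Finset.mem_range.2 hq))
        rw [if_pos hkq]
      have h2 : P (2 * e) (k : ℤ) * V h τ (m - k) (i + e) ≤ P (2 * e) (k : ℤ) * 1 :=
        mul_le_mul_of_nonneg_left (hVr h τ (m - k) (i + e)).2 hPk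
      have h3 : 0 ≤ P (2 * e) (k : ℤ) * gam ^ Q := mul_nonneg hPk hg
      linarith
    · push Not at hbad
      have h1 : V h τ (m - k) (i + e) ≤ gam ^ Q := by
        apply hChain h (fun q => f (Hs f q)) Q (m - k) (i + e) τ (by omega) ?_ ?_
        · intro q hq h' hh' s' hs'
          simp only [sum_Hs] at hh' ⊢
          have h3 := hbad q hq
          by_contra hc
          push Not at hc
          apply h3
          simp only [B, Finset.mem_filter]
          refine ⟨hk, h', hh', s', by omega, ?_⟩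
          rw [← Nat.sub_sub]
          exact hc
        · simp only [sum_Hs]
          exact hτ
      have h2 : P (2 * e) (k : ℤ) * V h τ (m - k) (i + e) ≤ P (2 * e) (k : ℤ) * gam ^ Q :=
        mul_le_mul_of_nonneg_left h1 hPk
      have h3 := Finset.sum_nonneg hs0
      linarith
  refine le_trans (Finset.sum_le_sum key) ?_
  rw [Finset.sum_add_distrib, ← Finset.sum_mul, hP1, one_mul, Finset.sum_comm]
  have h7 : ∀ q ∈ range Q, (∑ k ∈ range (2 * e + 1), if k ∈ B q then P (2 * e) (k : ℤ) else 0)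
      ≤ η / (Q + 1) := by
    intro q hq
    refine le_trans (le_of_eq ?_) (hB q (Finset.mem_range.1 hq))
    rw [← Finset.sum_filter]
    congr 1
    ext k
    simp only [B, Finset.mem_filter]
    exact ⟨fun hx => hx.2, fun hx => ⟨hx.1, hx⟩⟩
  have h8 := Finset.sum_le_sum h7
  rw [Finset.sum_const, Finset.card_range, nsmul_eq_mul] at h8
  have h9 : (Q : ℝ) * (η / (Q + 1)) ≤ η := by
    rw [mul_div_assoc', div_le_iff₀ (by positivity)]
    nlinarith
  linarith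

end Pool.Agent.Clz
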