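import Pool.Agent.Lib.MP_5a39b1_nt.Clz.Spec1

/-!
MP_5a39b1_nt, module ExitWhite: the exit row is white (torsion points of order 4 of the circle). See the docstring of `StmtExitWhite` in `Spec1.lean` for the proof.
-/

set_option autoImplicit false

namespace Pool.Agent.Clz

open Finset

namespace ExitWhiteaux

/-- a lift of minimal absolute value -/
theorem exists_lift (z : UnitAddCircle) : ∃ z₀ : ℝ, (z₀ : UnitAddCircle) = z ∧ |z₀| = ‖z‖ := by
  obtain ⟨z₁, rfl⟩ := QuotientAddGroup.mk_surjective z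
  refine ⟨z₁ - round z₁, ?_, ?_⟩
  · change ((z₁ - (round z₁ : ℤ) : ℝ) : UnitAddCircle) = (z₁ : UnitAddCircle)
    rw [AddCircle.coe_sub, sub_eq_self, AddCircle.coe_eq_zero_iff]
    exact ⟨round z₁, by simp⟩
  · exact (UnitAddCircle.norm_eq (x := z₁)).symm

theorem norm_le_abs (x : ℝ) : ‖(x : UnitAddCircle)‖ ≤ |x| := by
  rw [UnitAddCircle.norm_eq]
  simpa using round_le x 0

/-- a nonzero point killed by 4 has norm at least 1/4 -/
theorem torsion_norm (z : UnitAddCircle) (h4 : (4 : ℕ) • z = 0) (hz : z ≠ 0) :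
    (1 / 4 : ℝ) ≤ ‖z‖ := by
  obtain ⟨z₀, hz₀, habs⟩ := exists_lift z
  rw [← habs]
  have h4' : ((4 * z₀ : ℝ) : UnitAddCircle) = 0 := by
    have : ((4 : ℕ) • z₀ : ℝ) = 4 * z₀ := by simp
    rw [← this, AddCircle.coe_nsmul, hz₀, h4]
  rw [AddCircle.coe_eq_zero_iff] at h4'
  obtain ⟨n, hn⟩ := h4'
  have hn' : (n : ℝ) = 4 * z₀ := by simpa using hn
  have hn0 : n ≠ 0 := by
    rintro rfl
    apply hz
    have : z₀ = 0 := by
      simp at hn'
      exact hn'
    rw [← hz₀, this]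
    rfl
  have h1 : (1 : ℝ) ≤ |(n : ℝ)| := by
    have := Int.one_le_abs hn0
    exact_mod_cast this
  rw [hn', abs_mul, abs_of_pos (by norm_num : (0 : ℝ) < 4)] at h1
  linarith

/-- iteration of `h3` -/
theorem pow_three (h : Th) (k n i : ℕ) : (3 ^ k : ℕ) • h.θ (n + k) i = h.θ n i := by
  induction k with
  | zero => simp
  | succ k ih =>
    rw [pow_succ, mul_smul, ← add_assoc, h.h3, ih]

end ExitWhiteaux

open ExitWhiteaux in
theorem stmtExitWhite (hThBasic : StmtThBasic) : StmtExitWhite := by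
  intro h m i k hm he hk
  obtain ⟨hw, hbl, -, -⟩ := hThBasic h m i hm
  rcases Nat.lt_or_ge k m with hkm | hkm
  swap
  · left
    omega
  right
  obtain ⟨e, hee⟩ : ∃ e, dl h m i = e + 1 := ⟨dl h m i - 1, by omega⟩
  rw [hee] at hw hk hbl ⊢
  -- the point `x`
  obtain ⟨-, -, hx⟩ := hbl e (Nat.lt_succ_self e)
  obtain ⟨-, h0, -⟩ := hbl 0 (Nat.succ_pos e)
  rw [add_zero] at h0
  have hxy : (4 : ℕ) • h.θ m (i + (e + 1)) = h.θ m (i + e) := by
    rw [← add_assoc]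
    exact h.h4 m (i + e) hm
  obtain ⟨x₀, hx₀, hxabs⟩ := exists_lift (h.θ m (i + e))
  set y := h.θ m (i + (e + 1)) with hy
  have hpos : (0 : ℝ) < 4 ^ e := by positivity
  have hxle : |x₀| * 4 ^ e ≤ 1 / 10 := by
    rw [hxabs, mul_comm, ← hx]
    exact h0
  have h4e : (1 : ℝ) ≤ 4 ^ e := one_le_pow₀ (by norm_num)
  have hx10 : |x₀| ≤ 1 / 10 := by
    nlinarith [abs_nonneg x₀]
  -- the torsion point
  have hy4 : (4 : ℕ) • (y - ((x₀ / 4 : ℝ) : UnitAddCircle)) = 0 := by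
    rw [smul_sub, hxy, ← AddCircle.coe_nsmul]
    have : ((4 : ℕ) • (x₀ / 4) : ℝ) = x₀ := by
      simp
      ring
    rw [this, hx₀, sub_self]
  have hy0 : y - ((x₀ / 4 : ℝ) : UnitAddCircle) ≠ 0 := by
    intro hc
    rw [sub_eq_zero] at hc
    have hle := norm_le_abs (x₀ / 4)
    rw [← hc, abs_div, abs_of_pos (by norm_num : (0 : ℝ) < 4)] at hle
    rcases hw with hw | hw
    · omega
    · rw [← hy] at hw
      linarith
  have hcop : Nat.Coprime (3 ^ k) 4 := by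
    apply Nat.Coprime.pow_left
    decide
  have hne : (3 ^ k : ℕ) • (y - ((x₀ / 4 : ℝ) : UnitAddCircle)) ≠ 0 := by
    intro hc
    apply hy0
    have h1 := addOrderOf_dvd_of_nsmul_eq_zero hc
    have h2 := addOrderOf_dvd_of_nsmul_eq_zero hy4
    have h3 := Nat.dvd_gcd h1 h2
    rw [hcop] at h3
    exact AddMonoid.addOrderOf_eq_one_iff.1 (Nat.dvd_one.1 h3)
  have h4z : (4 : ℕ) • ((3 ^ k : ℕ) • (y - ((x₀ / 4 : ℝ) : UnitAddCircle))) = 0 := by
    rw [← mul_smul, mul_comm, mul_smul, hy4, smul_zero]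
  have htor := torsion_norm _ h4z hne
  -- the exit point
  have hexit : h.θ (m - k) (i + (e + 1)) = (3 ^ k : ℕ) • y := by
    have := pow_three h k (m - k) (i + (e + 1))
    rw [Nat.sub_add_cancel (le_of_lt hkm)] at this
    exact this.symm
  have hdec : (3 ^ k : ℕ) • y = (3 ^ k : ℕ) • (y - ((x₀ / 4 : ℝ) : UnitAddCircle)) +
      ((3 ^ k * (x₀ / 4) : ℝ) : UnitAddCircle) := by
    have : ((3 ^ k : ℕ) • (x₀ / 4) : ℝ) = 3 ^ k * (x₀ / 4) := by
      rw [nsmul_eq_mul]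
      push_cast
      rfl
    rw [smul_sub, ← this, AddCircle.coe_nsmul, sub_add_cancel]
  have hsmall : ‖((3 ^ k * (x₀ / 4) : ℝ) : UnitAddCircle)‖ ≤ 1 / 10 := by
    refine (norm_le_abs _).trans ?_
    have hk' : (3 : ℝ) ^ k ≤ 4 * 4 ^ e := by
      have : ((3 ^ k : ℕ) : ℝ) ≤ ((4 ^ (e + 1) : ℕ) : ℝ) := by exact_mod_cast hk
      push_cast at this
      rw [pow_succ] at this
      linarith
    rw [abs_mul, abs_div, abs_of_pos (by norm_num : (0 : ℝ) < 4),
      abs_of_pos (by positivity : (0 : ℝ) < 3 ^ k)]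
    calc (3 : ℝ) ^ k * (|x₀| / 4) ≤ (4 * 4 ^ e) * (|x₀| / 4) := by
          apply mul_le_mul_of_nonneg_right hk'
          positivity
      _ = |x₀| * 4 ^ e := by ring
      _ ≤ 1 / 10 := hxle
  rw [hexit, hdec]
  have htri := norm_sub_norm_le ((3 ^ k : ℕ) • (y - ((x₀ / 4 : ℝ) : UnitAddCircle)))
    (-((3 ^ k * (x₀ / 4) : ℝ) : UnitAddCircle))
  rw [sub_neg_eq_add, norm_neg] at htri
  linarith

end Pool.Agent.Clz
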