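import Pool.Agent.Lib.MP_5a39b1_nt.Clz.Spec1

/-!
MP_5a39b1_nt, module FD: Fourier decay: construction of the Th. See the docstring of `StmtFD` in `Spec1.lean` for the proof.
-/

set_option autoImplicit false

namespace Pool.Agent.Clz.FDaux

open Finset

theorem not_dvd_u (M0 : ℕ) (u : ℤ) (hM : 1 ≤ M0) (hu : (3 : ℤ) ^ M0 ∣ 4 * u - 1) :
    ¬ (3 : ℤ) ∣ u := by
  intro h
  have h1 : (3 : ℤ) ∣ 4 * u - 1 := (dvd_pow_self (3 : ℤ) (by omega)).trans hu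
  omega

theorem low (m : ℕ) (a : ℤ) (hm : 1 ≤ m) (ha : ¬ (3 : ℤ) ∣ a) :
    (1 / 3 : ℝ) ^ m ≤ ‖(((a : ℝ) / 3 ^ m : ℝ) : UnitAddCircle)‖ := by
  rw [UnitAddCircle.norm_eq]
  set r : ℤ := round ((a : ℝ) / 3 ^ m) with hr
  have h3 : (0 : ℝ) < 3 ^ m := by positivity
  have h1 : (a : ℝ) / 3 ^ m - (r : ℝ) = ((a - 3 ^ m * r : ℤ) : ℝ) / 3 ^ m := by
    push_cast
    field_simp
  have h2 : a - 3 ^ m * r ≠ 0 := by
    intro h
    apply ha
    have h4 : a = 3 ^ m * r := by linarith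
    rw [h4]
    exact (dvd_pow_self (3 : ℤ) (by omega)).mul_right r
  have h5 : (1 : ℝ) ≤ |((a - 3 ^ m * r : ℤ) : ℝ)| := by
    have := Int.one_le_abs h2
    rw [← Int.cast_abs]
    exact_mod_cast this
  rw [h1, abs_div, abs_of_pos h3, one_div, inv_pow, ← one_div]
  exact div_le_div_of_nonneg_right h5 h3.le

theorem coe_int_eq_zero (a : ℤ) : (((a : ℤ) : ℝ) : UnitAddCircle) = 0 := by
  rw [AddCircle.coe_eq_zero_iff]
  exact ⟨a, by simp⟩

theorem four (M0 m i : ℕ) (ξ u : ℤ) (hm : m ≤ M0) (hu : (3 : ℤ) ^ M0 ∣ 4 * u - 1) :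
    (4 : ℕ) • (((ξ : ℝ) * u ^ (i + 1 + 1) / 3 ^ m : ℝ) : UnitAddCircle) =
      (((ξ : ℝ) * u ^ (i + 1) / 3 ^ m : ℝ) : UnitAddCircle) := by
  obtain ⟨q, hq⟩ := (pow_dvd_pow (3 : ℤ) hm).trans hu
  have h3 : (3 : ℝ) ^ m ≠ 0 := by positivity
  have hqR : 4 * (u : ℝ) - 1 = 3 ^ m * q := by exact_mod_cast hq
  have h4 : (4 : ℝ) * u = 1 + 3 ^ m * q := by linarith
  rw [← AddCircle.coe_nsmul, ← sub_eq_zero, ← AddCircle.coe_sub]
  have h5 : (4 : ℕ) • ((ξ : ℝ) * u ^ (i + 1 + 1) / 3 ^ m) - (ξ : ℝ) * u ^ (i + 1) / 3 ^ m =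
      ((ξ * u ^ (i + 1) * q : ℤ) : ℝ) := by
    rw [nsmul_eq_mul]
    push_cast
    have : (4 : ℝ) * ((ξ : ℝ) * u ^ (i + 1 + 1) / 3 ^ m) =
        (ξ : ℝ) * u ^ (i + 1) * (4 * u) / 3 ^ m := by ring
    rw [this, h4]
    field_simp
    ring
  rw [h5]
  exact coe_int_eq_zero _

end Pool.Agent.Clz.FDaux

namespace Pool.Agent.Clz

open Finset

theorem stmtFD (hVBasic : StmtVBasic) (hXPoly : StmtXPoly) (hFDSum : StmtFDSum) : StmtFD := by
  intro A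
  obtain ⟨C, hC, hX⟩ := hXPoly A
  refine ⟨C, hC, ?_⟩
  intro M0 n L ξ u w hn hnM hu hξ hw1 hw2 hw3
  have hM : 1 ≤ M0 := hn.trans hnM
  have hu3 : ¬ (3 : ℤ) ∣ u := FDaux.not_dvd_u M0 u hM hu
  have h3p : Prime (3 : ℤ) := Int.prime_three
  let h : Th :=
    { M0 := M0
      θ := fun m i => (((ξ : ℝ) * u ^ (i + 1) / 3 ^ m : ℝ) : UnitAddCircle)
      h3 := by
        intro m i
        rw [← AddCircle.coe_nsmul]
        congr 1
        rw [nsmul_eq_mul, pow_succ (3 : ℝ) m]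
        have : (3 : ℝ) ^ m ≠ 0 := by positivity
        push_cast
        field_simp
      h4 := fun m i hm => FDaux.four M0 m i ξ u hm hu
      hlow := by
        intro m i hm _
        have ha : ¬ (3 : ℤ) ∣ ξ * u ^ (i + 1) := by
          intro hd
          rcases h3p.dvd_or_dvd hd with h8 | h8
          · exact hξ h8
          · exact hu3 (h3p.dvd_of_dvd_pow h8)
        have := FDaux.low m (ξ * u ^ (i + 1)) hm ha
        push_cast at this
        exact this }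
  have h1 := hFDSum h ξ u hu (fun m i => rfl) L n 0 (max L (3 * n)) w hnM (le_max_left _ _)
    hw1 hw2 hw3
  have h2 := hX h n 0 (max L (3 * n)) hn hnM (le_max_right _ _)
  simp only [pow_zero, mul_one] at h1
  exact h1.trans h2

end Pool.Agent.Clz
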