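import Pool.Agent.Lib.MP_5a39b1_nt.Clz.Spec1

/-!
MP_5a39b1_nt, module FDSum: exponential sum over words bounded by X. See the docstring of `StmtFDSum` in `Spec1.lean` for the proof.
-/

set_option autoImplicit false

namespace Pool.Agent.Clz

open Finset

namespace FDSumaux

theorem Ew_congr {E : Type} [AddCommGroup E] [Module ℝ E] (n : ℕ) :
    ∀ (φ ψ : List (Fin 4) → E), (∀ g, g.length = n → φ g = ψ g) → Ew n φ = Ew n ψ := by
  induction n with
  | zero =>
      intro φ ψ h
      exact h [] rfl
  | succ n ih =>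
      intro φ ψ h
      simp only [Ew]
      congr 1
      apply Finset.sum_congr rfl
      intro c _
      apply ih
      intro g hg
      exact h (c :: g) (by simp [hg])

theorem Ew_norm_le (n : ℕ) (B : ℝ) :
    ∀ (φ : List (Fin 4) → ℂ), (∀ g, ‖φ g‖ ≤ B) → ‖Ew n φ‖ ≤ B := by
  induction n with
  | zero =>
      intro φ h
      exact h []
  | succ n ih =>
      intro φ h
      simp only [Ew]
      rw [norm_smul]
      have h1 : ‖∑ c : Fin 4, Ew n (fun g => φ (c :: g))‖ ≤ ∑ c : Fin 4, B :=
        norm_sum_le_of_le _ (fun c _ => ih _ (fun g => h (c :: g)))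
      simp only [Finset.sum_const, Finset.card_univ, Fintype.card_fin, nsmul_eq_mul] at h1
      have h2 : ‖(1 / 4 : ℝ)‖ = 1 / 4 := by norm_num
      rw [h2]
      push_cast at h1
      linarith

theorem Ew_mul_left (n : ℕ) (a : ℂ) :
    ∀ (φ : List (Fin 4) → ℂ), Ew n (fun g => a * φ g) = a * Ew n φ := by
  induction n with
  | zero =>
      intro φ
      rfl
  | succ n ih =>
      intro φ
      simp only [Ew]
      simp only [ih]
      rw [← Finset.mul_sum, mul_smul_comm]

theorem norm_ee (x : ℝ) : ‖ee x‖ = 1 := by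
  unfold ee
  have : (2 * (Real.pi : ℂ) * Complex.I * x) = ((2 * Real.pi * x : ℝ) : ℂ) * Complex.I := by
    push_cast
    ring
  rw [this, Complex.norm_exp_ofReal_mul_I]

theorem ee_add (x y : ℝ) : ee (x + y) = ee x * ee y := by
  unfold ee
  rw [← Complex.exp_add]
  congr 1
  push_cast
  ring

theorem ee_int (k : ℤ) : ee (k : ℝ) = 1 := by
  unfold ee
  rw [Complex.exp_eq_one_iff]
  exact ⟨k, by push_cast; ring⟩

theorem ee_zero : ee 0 = 1 := by
  have := ee_int 0
  simpa using this

/-- `|e(-x) + e(-2x)| = 2 |cos (pi x)|` -/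
theorem norm_two (x : ℝ) : ‖ee (-x) + ee (-(2 * x))‖ = 2 * |Real.cos (Real.pi * x)| := by
  have h1 : ee (-x) + ee (-(2 * x)) = ee (-(3 / 2 * x)) * (ee (x / 2) + ee (-(x / 2))) := by
    rw [mul_add, ← ee_add, ← ee_add]
    congr 2 <;> ring
  have h2 : ee (x / 2) + ee (-(x / 2)) = ((2 * Real.cos (Real.pi * x) : ℝ) : ℂ) := by
    unfold ee
    push_cast
    rw [Complex.two_cos]
    congr 2 <;> (push_cast; ring)
  rw [h1, h2, norm_mul, norm_ee, one_mul, Complex.norm_real, Real.norm_eq_abs, abs_mul]
  norm_num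

theorem abs_cos_le (x : ℝ) (hx : (1 / 10 : ℝ) < ‖((x : ℝ) : UnitAddCircle)‖) :
    |Real.cos (Real.pi * x)| ≤ qq := by
  rw [UnitAddCircle.norm_eq] at hx
  have hr := abs_sub_round x
  set d := |x - round x| with hd
  have h1 : |Real.cos (Real.pi * x)| = |Real.cos (Real.pi * (x - round x))| := by
    have : Real.pi * (x - round x) = Real.pi * x - (round x : ℤ) * Real.pi := by ring
    rw [this, Real.cos_sub_int_mul_pi, abs_mul, abs_zpow]
    simp
  have h2 : Real.cos (Real.pi * (x - round x)) = Real.cos (Real.pi * d) := by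
    rw [hd, ← abs_of_pos Real.pi_pos, ← abs_mul, abs_of_pos Real.pi_pos, Real.cos_abs]
  have h3 : 0 ≤ Real.cos (Real.pi * d) := by
    apply Real.cos_nonneg_of_neg_pi_div_two_le_of_le
    · have := Real.pi_pos
      nlinarith [abs_nonneg (x - round x)]
    · have := Real.pi_pos
      nlinarith
  rw [h1, h2, abs_of_nonneg h3]
  unfold qq
  apply Real.cos_le_cos_of_nonneg_of_le_pi
  · positivity
  · have := Real.pi_pos
    nlinarith
  · have := Real.pi_pos
    nlinarith

theorem qq_nonneg : 0 ≤ qq := by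
  unfold qq
  apply Real.cos_nonneg_of_neg_pi_div_two_le_of_le
  · have := Real.pi_pos
    linarith
  · have := Real.pi_pos
    linarith

theorem X_zero (h : Th) (T i : ℕ) : X h T 0 i = 1 := by
  cases T <;> simp [X]

/-- splitting of the exponential for the word `c :: g` -/
theorem ee_split (ξ u : ℤ) (M0 n i L : ℕ) (hu : (3 : ℤ) ^ M0 ∣ 4 * u - 1) (hn : n ≤ M0)
    (c : Fin 4) (g : List (Fin 4)) (hg : g.length = L) :
    ee (-((ξ : ℝ) * u ^ i * u ^ (L + 1) * FF (c :: g) / 3 ^ n)) =
      ee (-((ξ : ℝ) * u ^ (i + 1) * F1 c / 3 ^ n)) *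
        ee (-((ξ : ℝ) * u ^ (i + 1) * u ^ L * (3 ^ kap1 c * FF g) / 3 ^ n)) := by
  have h1 : (3 : ℤ) ^ n ∣ (4 * u) ^ L - 1 := by
    have h2 : (3 : ℤ) ^ n ∣ 4 * u - 1 := (pow_dvd_pow 3 hn).trans hu
    exact h2.trans (by simpa using sub_dvd_pow_sub_pow (4 * u) 1 L)
  obtain ⟨k, hk⟩ := h1
  have hk' : ((4 : ℝ) * u) ^ L = 1 + 3 ^ n * k := by
    have : (((4 * u) ^ L - 1 : ℤ) : ℝ) = ((3 ^ n * k : ℤ) : ℝ) := by rw [hk]
    push_cast at this
    linarith
  have h3 : -((ξ : ℝ) * u ^ i * u ^ (L + 1) * FF (c :: g) / 3 ^ n) =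
      -((ξ : ℝ) * u ^ (i + 1) * F1 c / 3 ^ n) +
        (-((ξ : ℝ) * u ^ (i + 1) * u ^ L * (3 ^ kap1 c * FF g) / 3 ^ n)) +
        ((-(ξ * u ^ (i + 1) * F1 c * k) : ℤ) : ℝ) := by
    simp only [FF, hg]
    push_cast
    have h4 : (u : ℝ) ^ L * 4 ^ L = 1 + 3 ^ n * k := by
      rw [← mul_pow, mul_comm (u : ℝ) 4, hk']
    have h5 : (3 : ℝ) ^ n ≠ 0 := by positivity
    field_simp
    linear_combination (-(ξ : ℝ) * u ^ i * u * F1 c) * h4
  rw [h3, ee_add, ee_int, mul_one, ee_add]

end FDSumaux

open FDSumaux in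
theorem stmtFDSum (hVBasic : StmtVBasic) : StmtFDSum := by
  intro h ξ u hu hθ L
  have hX0 : ∀ (τ m i : ℕ), 0 ≤ X h τ m i := fun τ m i => (hVBasic.2.1 h τ m i).1
  induction L with
  | zero =>
      intro n i T w hn hT hw1 hw2 hw3
      simp only [Ew]
      rcases Nat.eq_zero_or_pos n with h0 | h0
      · subst h0
        rw [X_zero, norm_mul, norm_ee, mul_one]
        exact hw1 []
      · rw [hw3 [] (by simpa [kap] using h0)]
        simp only [zero_mul, norm_zero]
        exact hX0 _ _ _
  | succ L ih =>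
      intro n i T w hn hT hw1 hw2 hw3
      obtain ⟨T', rfl⟩ : ∃ T', T = T' + 1 := ⟨T - 1, by omega⟩
      have hT' : L ≤ T' := by omega
      rcases n with _ | m
      · rw [X_zero]
        apply Ew_norm_le
        intro g
        rw [norm_mul, norm_ee, mul_one]
        exact hw1 g
      · -- the general bound for the inner sums
        have hinner : ∀ (c : Fin 4), kap1 c ≤ m + 1 →
            ‖Ew L (fun g => w (c :: g) *
              ee (-((ξ : ℝ) * u ^ (i + 1) * u ^ L * (3 ^ kap1 c * FF g) / 3 ^ (m + 1))))‖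
              ≤ X h T' (m + 1 - kap1 c) (i + 1) := by
          intro c hc
          have h1 := ih (m + 1 - kap1 c) (i + 1) T' (fun g => w (c :: g)) (by omega) hT'
            (fun g => hw1 _) (fun g g' hgg => hw2 _ _ (by simp [hgg]))
            (fun g hg => hw3 _ (by simp only [kap]; omega))
          have h2 : ∀ g : List (Fin 4),
              (ξ : ℝ) * u ^ (i + 1) * u ^ L * (3 ^ kap1 c * FF g) / 3 ^ (m + 1) =
                (ξ : ℝ) * u ^ (i + 1) * u ^ L * FF g / 3 ^ (m + 1 - kap1 c) := by
            intro g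
            have h3 : (3 : ℝ) ^ (m + 1) = 3 ^ kap1 c * 3 ^ (m + 1 - kap1 c) := by
              rw [← pow_add]
              congr 1
              omega
            rw [h3]
            have h4 : (3 : ℝ) ^ kap1 c ≠ 0 := by positivity
            have h5 : (3 : ℝ) ^ (m + 1 - kap1 c) ≠ 0 := by positivity
            field_simp
          simp only [h2]
          exact h1
        -- rewriting of the terms
        have hterm : ∀ c : Fin 4,
            Ew L (fun g => w (c :: g) *
              ee (-((ξ : ℝ) * u ^ i * u ^ (L + 1) * FF (c :: g) / 3 ^ (m + 1)))) =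
            ee (-((ξ : ℝ) * u ^ (i + 1) * F1 c / 3 ^ (m + 1))) *
              Ew L (fun g => w (c :: g) *
                ee (-((ξ : ℝ) * u ^ (i + 1) * u ^ L * (3 ^ kap1 c * FF g) / 3 ^ (m + 1)))) := by
          intro c
          rw [← Ew_mul_left]
          apply Ew_congr
          intro g hg
          rw [ee_split ξ u h.M0 (m + 1) i L hu hn c g hg]
          ring
        have hEw : Ew (L + 1) (fun g => w g *
            ee (-((ξ : ℝ) * u ^ i * u ^ (L + 1) * FF g / 3 ^ (m + 1)))) =
            (1 / 4 : ℝ) • ∑ c : Fin 4, (ee (-((ξ : ℝ) * u ^ (i + 1) * F1 c / 3 ^ (m + 1))) *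
              Ew L (fun g => w (c :: g) *
                ee (-((ξ : ℝ) * u ^ (i + 1) * u ^ L * (3 ^ kap1 c * FF g) / 3 ^ (m + 1))))) := by
          rw [Ew]
          congr 1
          exact Finset.sum_congr rfl (fun c _ => hterm c)
        rw [hEw, norm_smul]
        have hq : ‖(1 / 4 : ℝ)‖ = 1 / 4 := by norm_num
        rw [hq, Fin.sum_univ_four]
        set A : Fin 4 → ℂ := fun c => Ew L (fun g => w (c :: g) *
                ee (-((ξ : ℝ) * u ^ (i + 1) * u ^ L * (3 ^ kap1 c * FF g) / 3 ^ (m + 1)))) with hA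
        have hA0 : ‖A 0‖ ≤ X h T' (m + 1) (i + 1) := by
          have := hinner 0 (by simp [kap1])
          simpa [hA, kap1] using this
        have hA1 : ‖A 1‖ ≤ X h T' m (i + 1) := by
          have := hinner 1 (by simp [kap1])
          simpa [hA, kap1] using this
        have hA12 : A 2 = A 1 := by
          simp only [hA]
          apply Ew_congr
          intro g _
          have h1 : w ((2 : Fin 4) :: g) = w ((1 : Fin 4) :: g) := by
            apply hw2
            simp [kap1]
          rw [h1]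
          simp [kap1]
        have hA3 : ‖A 3‖ ≤ X h T' (m - 1) (i + 1) := by
          rcases m with _ | m
          · rw [Nat.zero_sub, X_zero]
            simp only [hA]
            apply Ew_norm_le
            intro g
            rw [norm_mul, norm_ee, mul_one]
            exact hw1 _
          · have := hinner 3 (by simp [kap1])
            simpa [hA, kap1] using this
        set x : ℝ := (ξ : ℝ) * u ^ (i + 1) / 3 ^ (m + 1) with hx
        have e0 : ee (-((ξ : ℝ) * u ^ (i + 1) * F1 0 / 3 ^ (m + 1))) = 1 := by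
          have : -((ξ : ℝ) * u ^ (i + 1) * F1 0 / 3 ^ (m + 1)) = 0 := by simp [F1]
          rw [this, ee_zero]
        have e1 : -((ξ : ℝ) * u ^ (i + 1) * F1 1 / 3 ^ (m + 1)) = -x := by
          rw [hx]
          simp [F1]
        have e2 : -((ξ : ℝ) * u ^ (i + 1) * F1 2 / 3 ^ (m + 1)) = -(2 * x) := by
          rw [hx]
          simp [F1]
          ring
        have hcos : ‖ee (-x) + ee (-(2 * x))‖ ≤
            2 * (if (1 / 10 : ℝ) < ‖h.θ (m + 1) i‖ then qq else 1) := by
          rw [norm_two]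
          split_ifs with hc
          · have : (1 / 10 : ℝ) < ‖((x : ℝ) : UnitAddCircle)‖ := by
              rw [hθ (m + 1) i] at hc
              exact hc
            have := abs_cos_le x this
            linarith
          · have := Real.abs_cos_le_one (Real.pi * x)
            linarith
        have hmid : ‖ee (-x) * A 1 + ee (-(2 * x)) * A 2‖ ≤
            2 * (if (1 / 10 : ℝ) < ‖h.θ (m + 1) i‖ then qq else 1) * X h T' m (i + 1) := by
          rw [hA12, ← add_mul, norm_mul]
          apply mul_le_mul hcos hA1 (norm_nonneg _)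
          split_ifs
          · have := qq_nonneg
            positivity
          · norm_num
        have hfin : ‖ee (-((ξ : ℝ) * u ^ (i + 1) * F1 0 / 3 ^ (m + 1))) * A 0 +
            ee (-((ξ : ℝ) * u ^ (i + 1) * F1 1 / 3 ^ (m + 1))) * A 1 +
            ee (-((ξ : ℝ) * u ^ (i + 1) * F1 2 / 3 ^ (m + 1))) * A 2 +
            ee (-((ξ : ℝ) * u ^ (i + 1) * F1 3 / 3 ^ (m + 1))) * A 3‖ ≤
            X h T' (m + 1) (i + 1) +
            2 * (if (1 / 10 : ℝ) < ‖h.θ (m + 1) i‖ then qq else 1) * X h T' m (i + 1) +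
            X h T' (m - 1) (i + 1) := by
          rw [e0, e1, e2, one_mul, add_assoc (A 0)]
          refine (norm_add_le _ _).trans (add_le_add ((norm_add_le _ _).trans
            (add_le_add hA0 hmid)) ?_)
          rw [norm_mul, norm_ee, one_mul]
          exact hA3
        calc (1 / 4 : ℝ) * _ ≤ (1 / 4 : ℝ) * (X h T' (m + 1) (i + 1) +
            2 * (if (1 / 10 : ℝ) < ‖h.θ (m + 1) i‖ then qq else 1) * X h T' m (i + 1) +
            X h T' (m - 1) (i + 1)) := mul_le_mul_of_nonneg_left hfin (by norm_num)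
          _ = X h (T' + 1) (m + 1) i := by
            simp only [X]
            ring

end Pool.Agent.Clz
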