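import Pool.Agent.Lib.MP_5a39b1_nt.Clz.Spec2

/-!
MP_5a39b1_nt, module HFfix: one level, fixed kap of the first s letters. See the docstring of `StmtHFfix` in `Spec2.lean` for the proof.
-/

set_option autoImplicit false

namespace Pool.Agent.Clz

open Finset

namespace HFfixaux

theorem exists_u (n : ℕ) : ∃ u : ℤ, (3 : ℤ) ^ n ∣ 4 * u - 1 := by
  have h : IsCoprime (4 : ℤ) (3 ^ n) := by
    apply IsCoprime.pow_right
    exact ⟨1, -1, by norm_num⟩
  obtain ⟨a, b, hab⟩ := h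
  exact ⟨a, -b, by linarith⟩

theorem not_dvd_u {n : ℕ} (hn : 1 ≤ n) {u : ℤ} (hu : (3 : ℤ) ^ n ∣ 4 * u - 1) : ¬ (3 : ℤ) ∣ u := by
  intro h
  have h1 : (3 : ℤ) ∣ 4 * u - 1 := (dvd_pow_self 3 (by omega)).trans hu
  omega

theorem ee_add (x y : ℝ) : ee (x + y) = ee x * ee y := by
  unfold ee
  rw [← Complex.exp_add]
  congr 1
  push_cast
  ring

theorem ee_int (m : ℤ) : ee (m : ℝ) = 1 := by
  unfold ee
  rw [Complex.exp_eq_one_iff]
  exact ⟨m, by push_cast; ring⟩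

theorem ee_congr {N : ℤ} (hN : N ≠ 0) {a b : ℤ} (h : N ∣ a - b) :
    ee ((a : ℝ) / N) = ee ((b : ℝ) / N) := by
  obtain ⟨c, hc⟩ := h
  have hN' : (N : ℝ) ≠ 0 := by exact_mod_cast hN
  have h1 : (a : ℝ) / N = (b : ℝ) / N + (c : ℤ) := by
    have h2 : (a : ℝ) = b + N * c := by exact_mod_cast (by linarith : a = b + N * c)
    rw [h2]
    field_simp
  rw [h1, ee_add, ee_int, mul_one]

theorem pow_sub_one_dvd {n : ℕ} {u : ℤ} (hu : (3 : ℤ) ^ n ∣ 4 * u - 1) (j : ℕ) :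
    (3 : ℤ) ^ n ∣ u ^ j * 4 ^ j - 1 := by
  have h := sub_dvd_pow_sub_pow (4 * u) 1 j
  rw [one_pow] at h
  have h2 : u ^ j * 4 ^ j - 1 = (4 * u) ^ j - 1 := by rw [mul_pow]; ring
  rw [h2]
  exact hu.trans h

theorem coprime_u {n : ℕ} (hn : 1 ≤ n) {u : ℤ} (hu : (3 : ℤ) ^ n ∣ 4 * u - 1) (i j : ℕ) :
    IsCoprime ((3 : ℤ) ^ i) (u ^ j) := by
  apply IsCoprime.pow
  have h3 : Prime (3 : ℤ) := Int.prime_three
  exact (Prime.coprime_iff_not_dvd h3).mpr (not_dvd_u hn hu)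

theorem dvd_u_mul {n : ℕ} (hn : 1 ≤ n) {u : ℤ} (hu : (3 : ℤ) ^ n ∣ 4 * u - 1) (i j : ℕ) (y : ℤ) :
    (3 : ℤ) ^ i ∣ u ^ j * y ↔ (3 : ℤ) ^ i ∣ y :=
  ⟨fun h => (coprime_u hn hu i j).dvd_of_dvd_mul_left h, fun h => Dvd.dvd.mul_left h _⟩

/-- the exponential sum of one word -/
theorem pt (hRam : StmtRam) {n L s k : ℕ} {u : ℤ} (hn : 1 ≤ n) (hkn : k < n) (hs : s ≤ L)
    (hu : (3 : ℤ) ^ n ∣ 4 * u - 1) (g₁ g₂ : List (Fin 4)) (h1 : g₁.length = s)
    (h2 : g₂.length = L - s) (hk : kap g₁ = k) (hge : n - k ≤ kap g₂) (z : ℤ) :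
    (((ker n (g₁ ++ g₂) z - ker (n - 1) (g₁ ++ g₂) z : ℝ)) : ℂ) =
      ∑ ξ ∈ (range (3 ^ n)).filter (fun ξ : ℕ => ¬ 3 ∣ ξ),
        ee (-((((ξ : ℤ) * u ^ s : ℤ) : ℝ) * u ^ (L - s) * FF g₂ / 3 ^ (n - k))) *
          ee (-((ξ : ℝ) * ((u ^ s * FF g₁ : ℤ) : ℝ) / ((3 ^ n : ℕ) : ℝ))) *
          ee ((ξ : ℝ) * (z : ℝ) / ((3 ^ n : ℕ) : ℝ)) := by
  have hkap : kap (g₁ ++ g₂) = k + kap g₂ := by rw [kap_append, hk]
  have hlen : (g₁ ++ g₂).length = L := by rw [List.length_append, h1, h2]; omega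
  have e1 : (((ker n (g₁ ++ g₂) z - ker (n - 1) (g₁ ++ g₂) z : ℝ)) : ℂ) =
      (if (3 : ℤ) ^ n ∣ u ^ L * (4 ^ L * z - FF (g₁ ++ g₂)) then (3 : ℂ) ^ n else 0) -
      (if (3 : ℤ) ^ (n - 1) ∣ u ^ L * (4 ^ L * z - FF (g₁ ++ g₂)) then (3 : ℂ) ^ (n - 1) else 0) := by
    unfold ker
    rw [min_eq_left (by omega : n ≤ kap (g₁ ++ g₂)), min_eq_left (by omega : n - 1 ≤ kap (g₁ ++ g₂)),
      hlen]
    simp only [dvd_u_mul hn hu]
    push_cast
    split_ifs <;> simp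
  rw [e1, ← hRam n _ hn]
  refine Finset.sum_congr rfl fun ξ _ => ?_
  have hN : ((3 : ℤ) ^ n) ≠ 0 := by positivity
  have hdvd : (3 : ℤ) ^ n ∣ (ξ : ℤ) * (u ^ L * (4 ^ L * z - FF (g₁ ++ g₂))) -
      (ξ : ℤ) * (z - (u ^ s * FF g₁ + 3 ^ k * (u ^ s * u ^ (L - s) * FF g₂))) := by
    have hL : u ^ L = u ^ s * u ^ (L - s) := by rw [← pow_add]; congr 1; omega
    have e2 : (ξ : ℤ) * (u ^ L * (4 ^ L * z - FF (g₁ ++ g₂))) -
      (ξ : ℤ) * (z - (u ^ s * FF g₁ + 3 ^ k * (u ^ s * u ^ (L - s) * FF g₂))) =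
      (u ^ L * 4 ^ L - 1) * ((ξ : ℤ) * z) -
        (u ^ (L - s) * 4 ^ (L - s) - 1) * ((ξ : ℤ) * u ^ s * FF g₁) := by
      rw [FF_append, hk, h2, hL]
      ring
    rw [e2]
    exact dvd_sub (Dvd.dvd.mul_right (pow_sub_one_dvd hu L) _)
      (Dvd.dvd.mul_right (pow_sub_one_dvd hu (L - s)) _)
  have e3 := ee_congr hN hdvd
  have e4 : (ξ : ℝ) * ((u ^ L * (4 ^ L * z - FF (g₁ ++ g₂)) : ℤ) : ℝ) / 3 ^ n =
      (((ξ : ℤ) * (u ^ L * (4 ^ L * z - FF (g₁ ++ g₂))) : ℤ) : ℝ) / (((3 : ℤ) ^ n : ℤ) : ℝ) := by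
    push_cast
    ring
  rw [e4, e3, ← ee_add, ← ee_add]
  congr 1
  have hpow : (3 : ℝ) ^ n = 3 ^ k * 3 ^ (n - k) := by rw [← pow_add]; congr 1; omega
  push_cast
  rw [hpow]
  field_simp
  ring

end HFfixaux

open HFfixaux

open Classical in
theorem stmtHFfix (hWords : StmtWords) (hRam : StmtRam) (hL2 : StmtL2) : StmtHFfix := by
  intro n L s t κ k C hn hkn hs htL hC0 hC
  obtain ⟨u, hu⟩ := exists_u n
  -- the weights
  set w : List (Fin 4) → ℂ := fun g =>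
    if n - k ≤ kap g ∧ (s < t → k + kap (g.take (t - s)) = κ) then 1 else 0 with hw
  have hw1 : ∀ g, ‖w g‖ ≤ 1 := by
    intro g
    simp only [hw]
    split_ifs <;> simp
  have hw2 : ∀ g g' : List (Fin 4), g.map kap1 = g'.map kap1 → w g = w g' := by
    intro g g' h
    have h1 := kap_congr h (t - s)
    have h2 : kap g = kap g' := by rw [kap_eq_sum, kap_eq_sum, h]
    simp only [hw, h1, h2]
  have hw3 : ∀ g, kap g < n - k → w g = 0 := by
    intro g h
    simp only [hw]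
    rw [if_neg]
    intro h'
    omega
  set S : Finset (List (Fin 4)) := (words s).filter
    (fun g => kap g = k ∧ FF g < 3 ^ n ∧ (t ≤ s → kap (g.take t) = κ)) with hS
  set B : ℕ → ℂ := fun ξ => if 3 ∣ ξ then 0 else
    Ew (L - s) (fun g => w g *
      ee (-((((ξ : ℤ) * u ^ s : ℤ) : ℝ) * u ^ (L - s) * FF g / 3 ^ (n - k)))) with hB
  have hBC : ∀ ξ, ‖B ξ‖ ≤ C := by
    intro ξ
    simp only [hB]
    split_ifs with h3
    · simpa using hC0
    · refine hC ((ξ : ℤ) * u ^ s) u w hu ?_ hw1 hw2 hw3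
      intro hdvd
      rcases Int.prime_three.dvd_or_dvd hdvd with h | h
      · exact h3 (by exact_mod_cast h)
      · exact not_dvd_u hn hu (Int.prime_three.dvd_of_dvd_pow h)
  have hdist : ∀ g ∈ S, ∀ g' ∈ S,
      ((3 ^ n : ℕ) : ℤ) ∣ u ^ s * FF g - u ^ s * FF g' → g = g' := by
    intro g hg g' hg' hd
    simp only [hS, mem_filter, mem_words] at hg hg'
    have hd' : (3 : ℤ) ^ n ∣ u ^ s * (FF g - FF g') := by
      rw [mul_sub]
      exact_mod_cast hd
    rw [dvd_u_mul hn hu] at hd'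
    have h1 := FF_nonneg g
    have h2 := FF_nonneg g'
    have hFF : FF g = FF g' := by
      have h3 : FF g - FF g' = 0 := by
        apply Int.eq_zero_of_abs_lt_dvd hd'
        rw [abs_lt]
        constructor
        · linarith [hg'.2.2.1]
        · linarith [hg.2.2.1]
      linarith
    exact hWords.2.2.2.2.2.1 g g' (by rw [hg.1, hg'.1]) (by rw [hg.2.1, hg'.2.1]) hFF
  have hmain := hL2 (3 ^ n) S (fun g => u ^ s * FF g) (fun _ => (1 / 4 ^ s : ℂ)) B C
    (Nat.one_le_pow n 3 (by norm_num)) hC0 hBC hdist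
  -- the pointwise identity
  have hpoint : ∀ z : ℤ, ((Ew L (fun g => if kap (g.take t) = κ ∧ kap (g.take s) = k ∧
      FF (g.take s) < 3 ^ n then ker n g z - ker (n - 1) g z else 0) : ℝ) : ℂ) =
      ∑ ξ ∈ range (3 ^ n), B ξ * (∑ g ∈ S, (1 / 4 ^ s : ℂ) *
        ee (-((ξ : ℝ) * ((u ^ s * FF g : ℤ) : ℝ) / ((3 ^ n : ℕ) : ℝ)))) *
          ee ((ξ : ℝ) * (z : ℝ) / ((3 ^ n : ℕ) : ℝ)) := by
    intro z
    have hLs : L = s + (L - s) := by omega
    -- left hand side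
    have hl : ((Ew L (fun g => if kap (g.take t) = κ ∧ kap (g.take s) = k ∧
      FF (g.take s) < 3 ^ n then ker n g z - ker (n - 1) g z else 0) : ℝ) : ℂ) =
      Ew s (fun g₁ => if (kap g₁ = k ∧ FF g₁ < 3 ^ n ∧ (t ≤ s → kap (g₁.take t) = κ)) then
        ∑ ξ ∈ (range (3 ^ n)).filter (fun ξ : ℕ => ¬ 3 ∣ ξ),
          B ξ * ee (-((ξ : ℝ) * ((u ^ s * FF g₁ : ℤ) : ℝ) / ((3 ^ n : ℕ) : ℝ))) *
          ee ((ξ : ℝ) * (z : ℝ) / ((3 ^ n : ℕ) : ℝ)) else 0) := by
      rw [← Ew_ofReal]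
      conv_lhs => rw [hLs, Ew_append]
      refine Ew_congr fun g₁ h1 => ?_
      by_cases hadm : (kap g₁ = k ∧ FF g₁ < 3 ^ n ∧ (t ≤ s → kap (g₁.take t) = κ))
      · rw [if_pos hadm]
        have h4 : ∀ ξ ∈ (range (3 ^ n)).filter (fun ξ : ℕ => ¬ 3 ∣ ξ),
            B ξ * ee (-((ξ : ℝ) * ((u ^ s * FF g₁ : ℤ) : ℝ) / ((3 ^ n : ℕ) : ℝ))) *
              ee ((ξ : ℝ) * (z : ℝ) / ((3 ^ n : ℕ) : ℝ)) =
            Ew (L - s) (fun g₂ => w g₂ *
              (ee (-((((ξ : ℤ) * u ^ s : ℤ) : ℝ) * u ^ (L - s) * FF g₂ / 3 ^ (n - k))) *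
              ee (-((ξ : ℝ) * ((u ^ s * FF g₁ : ℤ) : ℝ) / ((3 ^ n : ℕ) : ℝ))) *
              ee ((ξ : ℝ) * (z : ℝ) / ((3 ^ n : ℕ) : ℝ)))) := by
          intro ξ hξ
          simp only [mem_filter] at hξ
          simp only [hB]
          rw [if_neg hξ.2, mul_assoc, mul_comm, ← Ew_cmul]
          refine Ew_congr fun g₂ _ => ?_
          ring
        rw [Finset.sum_congr rfl h4, ← Ew_finset_sum]
        refine Ew_congr fun g₂ h2 => ?_
        rw [← Finset.mul_sum]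
        have htake : (g₁ ++ g₂).take s = g₁ := by
          rw [← h1]; exact List.take_left
        rw [htake]
        by_cases hts : t ≤ s
        · have ht1 : (g₁ ++ g₂).take t = g₁.take t := by
            rw [List.take_append_of_le_length (by omega)]
          rw [ht1, if_pos ⟨hadm.2.2 hts, hadm.1, hadm.2.1⟩]
          by_cases hkap : n - k ≤ kap g₂
          · have hw' : w g₂ = 1 := by
              simp only [hw]
              rw [if_pos ⟨hkap, fun h => by omega⟩]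
            rw [hw', one_mul, pt hRam hn hkn hs hu g₁ g₂ h1 h2 hadm.1 hkap z]
          · rw [hw3 g₂ (by omega), zero_mul]
            have hkn' : kap (g₁ ++ g₂) ≤ n - 1 := by rw [kap_append]; omega
            unfold ker
            rw [min_eq_right (by omega : kap (g₁ ++ g₂) ≤ n), min_eq_right hkn']
            simp
        · have ht1 : (g₁ ++ g₂).take t = g₁ ++ g₂.take (t - s) := by
            rw [List.take_append, List.take_of_length_le (by omega), h1]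
          rw [ht1, kap_append, hadm.1]
          by_cases hκ : k + kap (g₂.take (t - s)) = κ
          · rw [if_pos ⟨hκ, rfl, hadm.2.1⟩]
            by_cases hkap : n - k ≤ kap g₂
            · have hw' : w g₂ = 1 := by
                simp only [hw]
                rw [if_pos ⟨hkap, fun h => hκ⟩]
              rw [hw', one_mul, pt hRam hn hkn hs hu g₁ g₂ h1 h2 hadm.1 hkap z]
            · rw [hw3 g₂ (by omega), zero_mul]
              have hkn' : kap (g₁ ++ g₂) ≤ n - 1 := by rw [kap_append]; omega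
              unfold ker
              rw [min_eq_right (by omega : kap (g₁ ++ g₂) ≤ n), min_eq_right hkn']
              simp
          · rw [if_neg (fun h => hκ h.1)]
            have hw' : w g₂ = 0 := by
              simp only [hw]
              rw [if_neg (fun h => hκ (h.2 (by omega)))]
            rw [hw', zero_mul]
            simp
      · rw [if_neg hadm]
        have h5 : ∀ g₂ : List (Fin 4), g₂.length = L - s →
            (((if kap ((g₁ ++ g₂).take t) = κ ∧ kap ((g₁ ++ g₂).take s) = k ∧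
              FF ((g₁ ++ g₂).take s) < 3 ^ n then
              ker n (g₁ ++ g₂) z - ker (n - 1) (g₁ ++ g₂) z else 0 : ℝ)) : ℂ) = 0 := by
          intro g₂ h2
          have htake : (g₁ ++ g₂).take s = g₁ := by
            rw [← h1]; exact List.take_left
          rw [htake, if_neg]
          · simp
          · intro h
            apply hadm
            refine ⟨h.2.1, h.2.2, fun hts => ?_⟩
            rw [← List.take_append_of_le_length (by omega : t ≤ g₁.length) (l₂ := g₂)]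
            exact h.1
        rw [Ew_congr h5, Ew_zero']
    rw [hl, Ew_eq_sum, ← Finset.sum_filter, Finset.sum_comm, Finset.smul_sum]
    rw [Finset.sum_filter]
    refine Finset.sum_congr rfl fun ξ _ => ?_
    by_cases h3 : 3 ∣ ξ
    · have : B ξ = 0 := by
        simp only [hB]
        rw [if_pos h3]
      rw [this]
      simp
    · rw [if_pos h3, Finset.mul_sum, Finset.sum_mul, Finset.smul_sum]
      refine Finset.sum_congr rfl fun g _ => ?_
      rw [Complex.real_smul]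
      push_cast
      ring
  -- conclusion
  have hsum : avg n (fun z => |Ew L (fun g => if kap (g.take t) = κ ∧ kap (g.take s) = k ∧
      FF (g.take s) < 3 ^ n then ker n g z - ker (n - 1) g z else 0)|) =
      (∑ z ∈ range (3 ^ n), ‖∑ ξ ∈ range (3 ^ n), B ξ * (∑ g ∈ S, (1 / 4 ^ s : ℂ) *
        ee (-((ξ : ℝ) * ((u ^ s * FF g : ℤ) : ℝ) / ((3 ^ n : ℕ) : ℝ)))) *
          ee ((ξ : ℝ) * (z : ℝ) / ((3 ^ n : ℕ) : ℝ))‖) / ((3 ^ n : ℕ) : ℝ) := by
    unfold avg
    congr 1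
    · refine Finset.sum_congr rfl fun z _ => ?_
      have h := hpoint (z : ℤ)
      have h' : |Ew L (fun g => if kap (g.take t) = κ ∧ kap (g.take s) = k ∧
        FF (g.take s) < 3 ^ n then ker n g (z : ℤ) - ker (n - 1) g (z : ℤ) else 0)| =
        ‖((Ew L (fun g => if kap (g.take t) = κ ∧ kap (g.take s) = k ∧
        FF (g.take s) < 3 ^ n then ker n g (z : ℤ) - ker (n - 1) g (z : ℤ) else 0) : ℝ) : ℂ)‖ := by
        rw [Complex.norm_real, Real.norm_eq_abs]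
      beta_reduce
      rw [h', h]
      simp
    · push_cast
      rfl
  rw [hsum]
  refine hmain.trans ?_
  refine mul_le_mul_of_nonneg_left (Real.sqrt_le_sqrt ?_) hC0
  have hcard : (S.card : ℝ) ≤ 4 ^ s := by
    have h1 : S.card ≤ (words s).card := Finset.card_filter_le _ _
    rw [card_words] at h1
    exact_mod_cast h1
  have hnorm : ‖(1 / 4 ^ s : ℂ)‖ = 1 / 4 ^ s := by
    rw [norm_div, norm_one, norm_pow]
    norm_num
  rw [Finset.sum_const, hnorm, nsmul_eq_mul]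
  push_cast
  have h4 : (0 : ℝ) < 4 ^ s := by positivity
  calc (3 : ℝ) ^ n * ((S.card : ℝ) * (1 / 4 ^ s) ^ 2)
      ≤ 3 ^ n * (4 ^ s * (1 / 4 ^ s) ^ 2) := by gcongr
    _ = 3 ^ n / 4 ^ s := by field_simp

end Pool.Agent.Clz
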