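import Pool.Agent.Lib.MP_5a39b1_nt.Clz.Spec2

/-!
MP_5a39b1_nt, module HFstep: one level of fine scale mixing. See the docstring of `StmtHFstep` in `Spec2.lean` for the proof.
-/

set_option autoImplicit false

namespace Pool.Agent.Clz

open Finset

namespace HFstepaux

/-- the difference of two consecutive kernels -/
noncomputable def dk (n : ℕ) (g : List (Fin 4)) (z : ℤ) : ℝ := ker n g z - ker (n - 1) g z

theorem avg_abs_dk (hKerAvg : StmtKerAvg) (n : ℕ) (g : List (Fin 4)) :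
    avg n (fun z => |dk n g z|) ≤ 2 := by
  have h1 : avg n (fun z => |dk n g z|) ≤ avg n (fun z => ker n g z + ker (n - 1) g z) := by
    apply avg_mono
    intro z
    unfold dk
    have h2 := ker_nonneg n g z
    have h3 := ker_nonneg (n - 1) g z
    rw [abs_le]
    constructor <;> linarith
  have h4 : avg n (ker n g) = 1 := hKerAvg.1 n n g (min_le_left _ _)
  have h5 : avg n (ker (n - 1) g) = 1 :=
    hKerAvg.1 (n - 1) n g ((min_le_left _ _).trans (Nat.sub_le _ _))
  rw [avg_add n (fun z => ker n g z) (fun z => ker (n - 1) g z)] at h1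
  have h6 : avg n (fun z => ker n g z) = 1 := h4
  have h7 : avg n (fun z => ker (n - 1) g z) = 1 := h5
  rw [h6, h7] at h1
  linarith

theorem avg_abs_Ew_le (hKerAvg : StmtKerAvg) (n L : ℕ) (w : List (Fin 4) → ℝ)
    (hw : ∀ g, 0 ≤ w g) :
    avg n (fun z => |Ew L (fun g => w g * dk n g z)|) ≤ 2 * Ew L w := by
  have h1 : avg n (fun z => |Ew L (fun g => w g * dk n g z)|) ≤
      avg n (fun z => Ew L (fun g => w g * |dk n g z|)) := by
    apply avg_mono
    intro z
    refine (abs_Ew_le _ _).trans (le_of_eq ?_)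
    congr 1
    funext g
    rw [abs_mul, abs_of_nonneg (hw g)]
  have h2 : avg n (fun z => Ew L (fun g => w g * |dk n g z|)) =
      Ew L (fun g => avg n (fun z => w g * |dk n g z|)) :=
    avg_Ew n L (fun g z => w g * |dk n g z|)
  have h3 : Ew L (fun g => avg n (fun z => w g * |dk n g z|)) ≤ Ew L (fun g => 2 * w g) := by
    apply Ew_mono
    intro g _
    rw [avg_mul]
    have := avg_abs_dk hKerAvg n g
    nlinarith [hw g]
  rw [Ew_mul] at h3
  linarith

theorem Ew_take (s L : ℕ) (hs : s ≤ L) (f : List (Fin 4) → ℝ) :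
    Ew L (fun g => f (g.take s)) = Ew s f := by
  obtain ⟨d, rfl⟩ := Nat.exists_eq_add_of_le hs
  rw [Ew_append]
  apply Ew_congr
  intro g hg
  have : ∀ g' : List (Fin 4), f ((g ++ g').take s) = f g := by
    intro g'
    rw [List.take_left' hg]
  simp only [this]
  exact Ew_const d (f g)

theorem pow_bound (ρ : ℝ) (h0 : 0 < ρ) (h1 : ρ < 1) (a : ℕ) :
    ∃ B : ℝ, 0 < B ∧ ∀ n : ℕ, (n : ℝ) ^ a * ρ ^ n ≤ B := by
  have h := tendsto_pow_const_mul_const_pow_of_abs_lt_one a (r := ρ)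
    (by rw [abs_of_pos h0]; exact h1)
  obtain ⟨B, hB⟩ := h.bddAbove_range
  refine ⟨max B 1, lt_of_lt_of_le one_pos (le_max_right _ _), fun n => ?_⟩
  exact (hB ⟨n, rfl⟩).trans (le_max_left _ _)

theorem exists_n0 (a : ℕ) : ∃ n0 : ℕ, ∀ n : ℕ, n0 ≤ n → (n : ℝ) ^ (2 * a) ≤ 3 ^ n := by
  have h := tendsto_pow_const_mul_const_pow_of_abs_lt_one (2 * a) (r := (1 / 3 : ℝ))
    (by rw [abs_of_pos (by norm_num)]; norm_num)
  have h2 := h.eventually (gt_mem_nhds (zero_lt_one))
  obtain ⟨n0, hn0⟩ := Filter.eventually_atTop.1 h2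
  refine ⟨n0, fun n hn => ?_⟩
  have h3 := hn0 n hn
  rw [one_div, inv_pow, ← div_eq_mul_inv, div_lt_one (by positivity)] at h3
  exact h3.le

/-- largest `s` with `4^s q ≤ 3^n` -/
theorem exists_s (n : ℕ) (q : ℝ) (hq : 1 ≤ q) (h : q ≤ 3 ^ n) :
    ∃ s : ℕ, (4 : ℝ) ^ s * q ≤ 3 ^ n ∧ (3 : ℝ) ^ n < 4 ^ (s + 1) * q := by
  have hex : ∃ s : ℕ, (3 : ℝ) ^ n < 4 ^ (s + 1) * q := by
    refine ⟨n, ?_⟩
    have h1 : (3 : ℝ) ^ n ≤ 4 ^ n := pow_le_pow_left₀ (by norm_num) (by norm_num) n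
    have h2 : (4 : ℝ) ^ n < 4 ^ (n + 1) := by
      rw [pow_succ]
      have : (0 : ℝ) < 4 ^ n := by positivity
      linarith
    have h3 : (4 : ℝ) ^ (n + 1) ≤ 4 ^ (n + 1) * q := le_mul_of_one_le_right (by positivity) hq
    linarith
  classical
  refine ⟨Nat.find hex, ?_, Nat.find_spec hex⟩
  rcases Nat.eq_zero_or_pos (Nat.find hex) with h0 | h0
  · rw [h0]
    simpa using h
  · have h1 := Nat.find_min hex (Nat.sub_lt h0 one_pos)
    rwa [not_lt, show Nat.find hex - 1 + 1 = Nat.find hex by omega] at h1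

theorem Ddm_sub (n t L κ : ℕ) (z : ℤ) :
    Ddm n t L κ z - Ddm (n - 1) t L κ z =
      Ew L (fun g => (if kap (g.take t) = κ then 1 else 0) * dk n g z) := by
  unfold Ddm
  rw [← Ew_sub]
  congr 1
  funext g
  unfold dk
  split_ifs <;> simp

/-- the weight of the words with many threes -/
theorem tail_le (hKapLaw : StmtKapLaw) {C ρ : ℝ}
    (hT : ∀ n s : ℕ, 4 ^ s ≤ 3 ^ n →
      ∑ k ∈ (range (2 * s + 1)).filter (fun k : ℕ => 17 * n < 20 * k), P (2 * s) k ≤ C * ρ ^ n)
    (n s : ℕ) (h : 4 ^ s ≤ 3 ^ n) :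
    Ew s (fun g => if 17 * n < 20 * kap g then (1 : ℝ) else 0) ≤ C * ρ ^ n := by
  have h1 := hKapLaw s (fun k => if 17 * n < 20 * k then (1 : ℝ) else 0)
  rw [h1]
  refine le_trans (le_of_eq ?_) (hT n s h)
  rw [Finset.sum_filter]
  apply Finset.sum_congr rfl
  intro k _
  split_ifs <;> simp

/-- Markov for the square root of `RR` -/
theorem markov_le (hRMoment : StmtRMoment) (n s : ℕ) (x : ℝ) (hx : 0 < x)
    (h : (4 : ℝ) ^ s * x ^ 2 ≤ 3 ^ n) :
    Ew s (fun g => if ¬ FF g < 3 ^ n then (1 : ℝ) else 0) ≤ 10 / x := by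
  have h1 : Ew s (fun g => if ¬ FF g < 3 ^ n then (1 : ℝ) else 0) ≤
      Ew s (fun g => (1 / x) * Real.sqrt (RR g)) := by
    apply Ew_mono
    intro g hg
    by_cases hc : FF g < 3 ^ n
    · simp only [hc, not_true_eq_false, if_false]
      positivity
    · simp only [hc, not_false_eq_true, if_true]
      have h2 : x ^ 2 ≤ RR g := by
        unfold RR
        rw [hg, le_div_iff₀ (by positivity)]
        have h3 : ((3 ^ n : ℤ) : ℝ) ≤ (FF g : ℝ) := by exact_mod_cast not_lt.1 hc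
        push_cast at h3
        linarith
      have h4 : x ≤ Real.sqrt (RR g) := Real.le_sqrt_of_sq_le h2
      rw [one_div, inv_mul_eq_div, le_div_iff₀ hx]
      linarith
  rw [Ew_mul] at h1
  have h5 := hRMoment.1 s
  calc _ ≤ 1 / x * Ew s (fun g => Real.sqrt (RR g)) := h1
    _ ≤ 1 / x * 10 := mul_le_mul_of_nonneg_left h5 (by positivity)
    _ = 10 / x := by ring

open Classical in
/-- the good part: words whose first `s` letters have `kap = k` and `FF < 3^n` -/
noncomputable def Gk (n L s t κ k : ℕ) (z : ℤ) : ℝ :=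
  Ew L (fun g => if kap (g.take t) = κ ∧ kap (g.take s) = k ∧ FF (g.take s) < 3 ^ n
        then ker n g z - ker (n - 1) g z else 0)

theorem good_le (hHFfix : StmtHFfix) (A : ℕ) (CA : ℝ) (hCA : 0 < CA)
    (hFDA : ∀ (M0 n L : ℕ) (ξ u : ℤ) (w : List (Fin 4) → ℂ), 1 ≤ n → n ≤ M0 →
    (3 : ℤ) ^ M0 ∣ 4 * u - 1 → ¬ (3 : ℤ) ∣ ξ → (∀ g, ‖w g‖ ≤ 1) →
    (∀ g g' : List (Fin 4), g.map kap1 = g'.map kap1 → w g = w g') →
    (∀ g, kap g < n → w g = 0) →
    ‖Ew L (fun g => w g * ee (-((ξ : ℝ) * u ^ L * FF g / 3 ^ n)))‖ ≤ CA / (n : ℝ) ^ A)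
    (n L s t κ k : ℕ) (hn : 1 ≤ n) (hk : 20 * k ≤ 17 * n) (hs : s ≤ L) (ht : t ≤ L) :
    avg n (fun z => |Gk n L s t κ k z|) ≤
      CA * (20 / 3) ^ A / (n : ℝ) ^ A * Real.sqrt (3 ^ n / 4 ^ s) := by
  have hkn : k < n := by omega
  have h1 := hHFfix n L s t κ k (CA / ((n - k : ℕ) : ℝ) ^ A) hn hkn hs ht (by positivity)
    (fun ξ u w h1 h2 h3 h4 h5 => hFDA n (n - k) (L - s) ξ u w (by omega) (by omega) h1 h2 h3 h4 h5)
  refine h1.trans (mul_le_mul_of_nonneg_right ?_ (Real.sqrt_nonneg _))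
  have hn0 : (0 : ℝ) < n := by exact_mod_cast hn
  have h2 : (3 / 20 : ℝ) * n ≤ ((n - k : ℕ) : ℝ) := by
    rw [Nat.cast_sub hkn.le]
    have : (20 : ℝ) * k ≤ 17 * n := by exact_mod_cast hk
    linarith
  have h3 : ((3 / 20 : ℝ) * n) ^ A ≤ ((n - k : ℕ) : ℝ) ^ A :=
    pow_le_pow_left₀ (by positivity) h2 A
  calc CA / ((n - k : ℕ) : ℝ) ^ A ≤ CA / ((3 / 20 : ℝ) * n) ^ A :=
        div_le_div_of_nonneg_left hCA.le (by positivity) h3
    _ = CA * (20 / 3) ^ A / (n : ℝ) ^ A := by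
        rw [mul_pow, div_pow, div_pow]
        field_simp

open Classical in
theorem decomp (n L s t κ : ℕ) (z : ℤ) :
    Ddm n t L κ z - Ddm (n - 1) t L κ z =
      ∑ k ∈ (range (n + 1)).filter (fun k : ℕ => 20 * k ≤ 17 * n), Gk n L s t κ k z +
      Ew L (fun g => (if kap (g.take t) = κ ∧
        ¬ (20 * kap (g.take s) ≤ 17 * n ∧ FF (g.take s) < 3 ^ n) then (1 : ℝ) else 0) *
          dk n g z) := by
  rw [Ddm_sub]
  unfold Gk
  rw [← Ew_finset_sum, ← Ew_add]
  congr 1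
  funext g
  unfold dk
  by_cases h1 : kap (g.take t) = κ
  · by_cases h2 : 20 * kap (g.take s) ≤ 17 * n
    · by_cases h3 : FF (g.take s) < 3 ^ n
      · rw [Finset.sum_eq_single (kap (g.take s))]
        · simp [h1, h2, h3]
        · intro b _ hb
          rw [if_neg]
          rintro ⟨_, h4, _⟩
          exact hb h4.symm
        · intro hb
          exfalso
          apply hb
          rw [Finset.mem_filter, Finset.mem_range]
          exact ⟨by omega, h2⟩
      · rw [Finset.sum_eq_zero]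
        · simp [h1, h3]
        · intro b _
          rw [if_neg]
          rintro ⟨_, _, h4⟩
          exact h3 h4
    · rw [Finset.sum_eq_zero]
      · simp [h1, h2]
      · intro b hb
        rw [if_neg]
        rintro ⟨_, h4, _⟩
        rw [Finset.mem_filter] at hb
        rw [h4] at h2
        exact h2 hb.2
  · rw [Finset.sum_eq_zero]
    · simp [h1]
    · intro b _
      rw [if_neg]
      rintro ⟨h4, _⟩
      exact h1 h4

open Classical in
theorem case_big (hKapLaw : StmtKapLaw) (hRMoment : StmtRMoment) (hKerAvg : StmtKerAvg)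
    {C ρ : ℝ}
    (hT : ∀ n s : ℕ, 4 ^ s ≤ 3 ^ n →
      ∑ k ∈ (range (2 * s + 1)).filter (fun k : ℕ => 17 * n < 20 * k), P (2 * s) k ≤ C * ρ ^ n)
    (n L s t κ : ℕ) (hs : s ≤ L) (x : ℝ) (hx : 0 < x) (h4 : 4 ^ s ≤ 3 ^ n)
    (h : (4 : ℝ) ^ s * x ^ 2 ≤ 3 ^ n) (G : ℝ)
    (hG : ∀ k, 20 * k ≤ 17 * n → avg n (fun z => |Gk n L s t κ k z|) ≤ G) (hG0 : 0 ≤ G) :
    avg n (fun z => |Ddm n t L κ z - Ddm (n - 1) t L κ z|) ≤
      (n + 1) * G + 2 * (C * ρ ^ n + 10 / x) := by
  have h1 : avg n (fun z => |Ddm n t L κ z - Ddm (n - 1) t L κ z|) ≤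
      avg n (fun z => (∑ k ∈ (range (n + 1)).filter (fun k : ℕ => 20 * k ≤ 17 * n),
        |Gk n L s t κ k z|) +
      |Ew L (fun g => (if kap (g.take t) = κ ∧
        ¬ (20 * kap (g.take s) ≤ 17 * n ∧ FF (g.take s) < 3 ^ n) then (1 : ℝ) else 0) *
          dk n g z)|) := by
    apply avg_mono
    intro z
    rw [decomp n L s t κ z]
    exact (abs_add_le _ _).trans (add_le_add (Finset.abs_sum_le_sum_abs _ _) le_rfl)
  rw [avg_add, avg_finset_sum] at h1
  have h2 : ∑ k ∈ (range (n + 1)).filter (fun k : ℕ => 20 * k ≤ 17 * n),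
      avg n (fun z => |Gk n L s t κ k z|) ≤ (n + 1) * G := by
    calc _ ≤ ∑ k ∈ (range (n + 1)).filter (fun k : ℕ => 20 * k ≤ 17 * n), G :=
          Finset.sum_le_sum (fun k hk => hG k (Finset.mem_filter.1 hk).2)
      _ ≤ ∑ k ∈ range (n + 1), G :=
          Finset.sum_le_sum_of_subset_of_nonneg (Finset.filter_subset _ _) (fun _ _ _ => hG0)
      _ = (n + 1) * G := by
          rw [Finset.sum_const, Finset.card_range, nsmul_eq_mul]
          push_cast
          ring
  have h3 := avg_abs_Ew_le hKerAvg n L (fun g => if kap (g.take t) = κ ∧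
        ¬ (20 * kap (g.take s) ≤ 17 * n ∧ FF (g.take s) < 3 ^ n) then (1 : ℝ) else 0)
        (fun g => by split_ifs <;> norm_num)
  have h5 : Ew L (fun g => if kap (g.take t) = κ ∧
        ¬ (20 * kap (g.take s) ≤ 17 * n ∧ FF (g.take s) < 3 ^ n) then (1 : ℝ) else 0) ≤
      Ew L (fun g => (if 17 * n < 20 * kap (g.take s) then (1 : ℝ) else 0) +
        (if ¬ FF (g.take s) < 3 ^ n then (1 : ℝ) else 0)) := by
    apply Ew_mono
    intro g _
    by_cases h6 : 20 * kap (g.take s) ≤ 17 * n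
    · by_cases h7 : FF (g.take s) < 3 ^ n
      · simp only [h6, h7, not_true_eq_false, and_false, if_false, and_self]
        split_ifs <;> norm_num
      · simp only [h7, not_false_eq_true, and_false, and_true, if_true]
        split_ifs <;> norm_num
    · have h8 : 17 * n < 20 * kap (g.take s) := not_le.1 h6
      simp only [h8, if_true]
      split_ifs <;> norm_num
  rw [Ew_add] at h5
  have h6 := Ew_take s L hs (fun g => if 17 * n < 20 * kap g then (1 : ℝ) else 0)
  have h7 := Ew_take s L hs (fun g => if ¬ FF g < 3 ^ n then (1 : ℝ) else 0)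
  have h8 := tail_le hKapLaw hT n s h4
  have h9 := markov_le hRMoment n s x hx h
  rw [h6, h7] at h5
  have h10 := h5.trans (add_le_add h8 h9)
  calc _ ≤ _ := h1
    _ ≤ (n + 1) * G + 2 * (C * ρ ^ n + 10 / x) := by
        refine add_le_add h2 (h3.trans ?_)
        exact mul_le_mul_of_nonneg_left h10 (by norm_num)

theorem case_small (hKapLaw : StmtKapLaw) (hKerAvg : StmtKerAvg) {C ρ : ℝ}
    (hT : ∀ n s : ℕ, 4 ^ s ≤ 3 ^ n →
      ∑ k ∈ (range (2 * s + 1)).filter (fun k : ℕ => 17 * n < 20 * k), P (2 * s) k ≤ C * ρ ^ n)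
    (n L t κ : ℕ) (hn : 1 ≤ n) (h4 : 4 ^ L ≤ 3 ^ n) :
    avg n (fun z => |Ddm n t L κ z - Ddm (n - 1) t L κ z|) ≤ 2 * (C * ρ ^ n) := by
  have h1 : ∀ z, Ddm n t L κ z - Ddm (n - 1) t L κ z =
      Ew L (fun g => (if kap (g.take t) = κ then (if n ≤ kap g then (1 : ℝ) else 0) else 0) *
        dk n g z) := by
    intro z
    rw [Ddm_sub]
    congr 1
    funext g
    by_cases h2 : kap (g.take t) = κ
    · by_cases h3 : n ≤ kap g
      · simp [h2, h3]
      · have h5 : dk n g z = 0 := by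
          unfold dk ker
          have h6 : min n (kap g) = kap g := min_eq_right (by omega)
          have h7 : min (n - 1) (kap g) = kap g := min_eq_right (by omega)
          rw [h6, h7]
          exact sub_self _
        rw [h5]
        simp
    · simp [h2]
  simp only [h1]
  have h3 := avg_abs_Ew_le hKerAvg n L
    (fun g => if kap (g.take t) = κ then (if n ≤ kap g then (1 : ℝ) else 0) else 0)
    (fun g => by split_ifs <;> norm_num)
  refine h3.trans (mul_le_mul_of_nonneg_left ?_ (by norm_num))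
  refine le_trans (Ew_mono ?_) (tail_le hKapLaw hT n L h4)
  intro g _
  by_cases h5 : n ≤ kap g
  · have h6 : 17 * n < 20 * kap g := by omega
    simp only [h5, h6, if_true]
    split_ifs <;> norm_num
  · simp only [h5, if_false]
    split_ifs <;> norm_num

theorem trivial_le (hKerAvg : StmtKerAvg) (n L t κ : ℕ) :
    avg n (fun z => |Ddm n t L κ z - Ddm (n - 1) t L κ z|) ≤ 2 := by
  simp only [Ddm_sub]
  have h3 := avg_abs_Ew_le hKerAvg n L (fun g => if kap (g.take t) = κ then (1 : ℝ) else 0)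
    (fun g => by split_ifs <;> norm_num)
  refine h3.trans ?_
  have h4 : Ew L (fun g => if kap (g.take t) = κ then (1 : ℝ) else 0) ≤ 1 := by
    apply Ew_le_const
    intro g _
    split_ifs <;> norm_num
  linarith

end HFstepaux

open HFstepaux in
theorem stmtHFstep (hBinBasic : StmtBinBasic) (hKapLaw : StmtKapLaw) (hRMoment : StmtRMoment) (hKerAvg : StmtKerAvg) (hHFfix : StmtHFfix) (hTails2 : StmtTails2) (hFD : StmtFD) : StmtHFstep := by
  intro a
  obtain ⟨C, ρ, hC, hρ0, hρ1, hT⟩ := hTails2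
  obtain ⟨B, hB0, hB⟩ := pow_bound ρ hρ0 hρ1 a
  obtain ⟨n0, hn0⟩ := exists_n0 a
  obtain ⟨CA, hCA, hFDA⟩ := hFD (2 * a + 1)
  set D : ℝ := CA * (20 / 3) ^ (2 * a + 1) with hD
  have hD0 : 0 < D := by positivity
  refine ⟨2 * (n0 : ℝ) ^ a + 2 * (C * B) + 20 + 4 * D, by positivity, ?_⟩
  intro n L t κ hn ht
  have hnr : (1 : ℝ) ≤ n := by exact_mod_cast hn
  have hna : (0 : ℝ) < (n : ℝ) ^ a := by positivity
  rw [le_div_iff₀ hna]
  have hpos1 : 0 ≤ 2 * (n0 : ℝ) ^ a := by positivity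
  have hpos2 : 0 ≤ 2 * (C * B) := by positivity
  rcases lt_or_ge n n0 with hlt | hge
  · have h1 := trivial_le hKerAvg n L t κ
    have h2 : (n : ℝ) ^ a ≤ (n0 : ℝ) ^ a :=
      pow_le_pow_left₀ (by positivity) (by exact_mod_cast hlt.le) a
    calc _ ≤ 2 * (n : ℝ) ^ a := mul_le_mul_of_nonneg_right h1 hna.le
      _ ≤ 2 * (n0 : ℝ) ^ a := by linarith
      _ ≤ _ := by linarith
  · have hq1 : (1 : ℝ) ≤ (n : ℝ) ^ (2 * a) := one_le_pow₀ hnr
    obtain ⟨s, hs1, hs2⟩ := exists_s n ((n : ℝ) ^ (2 * a)) hq1 (hn0 n hge)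
    have hρn : 2 * (C * ρ ^ n) * (n : ℝ) ^ a ≤ 2 * (C * B) := by
      have := hB n
      have h3 : C * ((n : ℝ) ^ a * ρ ^ n) ≤ C * B := mul_le_mul_of_nonneg_left this hC.le
      nlinarith
    have h4s : 4 ^ s ≤ 3 ^ n := by
      have : (4 : ℝ) ^ s ≤ 3 ^ n :=
        le_trans (le_mul_of_one_le_right (by positivity) hq1) hs1
      exact_mod_cast this
    rcases lt_or_ge L s with hLs | hLs
    · have h4L : 4 ^ L ≤ 3 ^ n := (Nat.pow_le_pow_right (by norm_num) hLs.le).trans h4s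
      have h1 := case_small hKapLaw hKerAvg hT n L t κ hn h4L
      calc _ ≤ 2 * (C * ρ ^ n) * (n : ℝ) ^ a := mul_le_mul_of_nonneg_right h1 hna.le
        _ ≤ _ := by linarith
    · have hsq : Real.sqrt (3 ^ n / 4 ^ s) ≤ 2 * (n : ℝ) ^ a := by
        apply Real.sqrt_le_iff.2
        refine ⟨by positivity, ?_⟩
        rw [div_le_iff₀ (by positivity)]
        have h5 : (4 : ℝ) ^ (s + 1) * (n : ℝ) ^ (2 * a) = (2 * (n : ℝ) ^ a) ^ 2 * 4 ^ s := by
          rw [mul_pow, ← pow_mul, mul_comm a 2]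
          ring
        linarith
      have hG : ∀ k, 20 * k ≤ 17 * n → avg n (fun z => |Gk n L s t κ k z|) ≤
          2 * D / (n : ℝ) ^ (a + 1) := by
        intro k hk
        have h1 := good_le hHFfix (2 * a + 1) CA hCA hFDA n L s t κ k hn hk hLs ht
        refine h1.trans ?_
        rw [← hD]
        calc D / (n : ℝ) ^ (2 * a + 1) * Real.sqrt (3 ^ n / 4 ^ s)
            ≤ D / (n : ℝ) ^ (2 * a + 1) * (2 * (n : ℝ) ^ a) :=
              mul_le_mul_of_nonneg_left hsq (by positivity)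
          _ = 2 * D / (n : ℝ) ^ (a + 1) := by
              have : (n : ℝ) ^ (2 * a + 1) = (n : ℝ) ^ (a + 1) * (n : ℝ) ^ a := by
                rw [← pow_add]
                congr 1
                ring
              rw [this]
              have h6 : (n : ℝ) ^ (a + 1) ≠ 0 := by positivity
              field_simp
      have h1 := case_big hKapLaw hRMoment hKerAvg hT n L s t κ hLs ((n : ℝ) ^ a) hna h4s
        (by rw [← pow_mul, mul_comm a 2]; exact hs1) (2 * D / (n : ℝ) ^ (a + 1)) hG (by positivity)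
      calc _ ≤ (((n : ℝ) + 1) * (2 * D / (n : ℝ) ^ (a + 1)) + 2 * (C * ρ ^ n + 10 / (n : ℝ) ^ a)) *
            (n : ℝ) ^ a := mul_le_mul_of_nonneg_right h1 hna.le
        _ = ((n : ℝ) + 1) / n * (2 * D) + 2 * (C * ρ ^ n) * (n : ℝ) ^ a + 20 := by
            rw [pow_succ]
            field_simp
            ring
        _ ≤ 2 * (2 * D) + 2 * (C * B) + 20 := by
            have h7 : ((n : ℝ) + 1) / n ≤ 2 := by
              rw [div_le_iff₀ (by linarith)]
              linarith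
            have h8 : ((n : ℝ) + 1) / n * (2 * D) ≤ 2 * (2 * D) :=
              mul_le_mul_of_nonneg_right h7 (by positivity)
            linarith
        _ ≤ _ := by linarith

end Pool.Agent.Clz
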