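import Pool.Agent.Lib.MP_5a39b1_nt.Clz.Spec2

/-!
MP_5a39b1_nt, module HFsum: fine scale mixing (telescoping). See the docstring of `StmtHFsum` in `Spec2.lean` for the proof.
-/

set_option autoImplicit false

namespace Pool.Agent.Clz

open Finset

namespace HFsumaux

theorem Dd_eq_Ddm (M t L κ : ℕ) (h : 2 * L ≤ M) : Dd t L κ = Ddm M t L κ := by
  funext z
  unfold Dd Ddm
  refine Ew_congr fun g hg => ?_
  have := kap_le g
  rw [kerF_eq_ker g M (by omega)]

theorem Ddm_periodic (m t L κ N : ℕ) (h : m ≤ N) (z : ℤ) :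
    Ddm m t L κ (z + 3 ^ N) = Ddm m t L κ z := by
  unfold Ddm
  refine Ew_congr fun g _ => ?_
  rw [ker_periodic m g N (le_trans (min_le_left _ _) h) z]

theorem avg_abs_triangle (N : ℕ) (f g h : ℤ → ℝ) :
    avg N (fun z => |f z - h z|) ≤ avg N (fun z => |f z - g z|) + avg N (fun z => |g z - h z|) := by
  rw [← avg_add]
  exact avg_mono fun z => abs_sub_le (f z) (g z) (h z)

theorem tele (a : ℕ) (C : ℝ) (hC : 0 < C)
    (hstep : ∀ (n L t κ : ℕ), 1 ≤ n → t ≤ L →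
      avg n (fun z => |Ddm n t L κ z - Ddm (n - 1) t L κ z|) ≤ C / (n : ℝ) ^ (a + 2))
    (m L t κ N : ℕ) (hm : 1 ≤ m) (ht : t ≤ L) (d : ℕ) (hd : m + d ≤ N) :
    avg N (fun z => |Ddm (m + d) t L κ z - Ddm m t L κ z|)
      ≤ C / (m : ℝ) ^ a * (1 / (m : ℝ) - 1 / ((m : ℝ) + d)) := by
  induction d with
  | zero => simp [avg_const]
  | succ d ih =>
    have ih' := ih (by omega)
    refine (avg_abs_triangle N _ (Ddm (m + d) t L κ) _).trans ?_
    have h1 : avg N (fun z => |Ddm (m + (d + 1)) t L κ z - Ddm (m + d) t L κ z|)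
        = avg (m + d + 1) (fun z => |Ddm (m + d + 1) t L κ z - Ddm (m + d + 1 - 1) t L κ z|) := by
      rw [← add_assoc, Nat.add_sub_cancel]
      refine avg_of_periodic (by omega) _ fun z => ?_
      rw [Ddm_periodic _ _ _ _ _ le_rfl, Ddm_periodic _ _ _ _ _ (by omega)]
    have h2 := hstep (m + d + 1) L t κ (by omega) ht
    rw [h1]
    have hm0 : (0 : ℝ) < m := by exact_mod_cast hm
    have hx : (m : ℝ) ≤ (m : ℝ) + d + 1 := by
      have : (0 : ℝ) ≤ (d : ℝ) := Nat.cast_nonneg d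
      linarith
    have hmd : (0 : ℝ) < (m : ℝ) + d := by
      have : (0 : ℝ) ≤ (d : ℝ) := Nat.cast_nonneg d
      linarith
    have h3 : C / ((m + d + 1 : ℕ) : ℝ) ^ (a + 2)
        ≤ C / (m : ℝ) ^ a * (1 / ((m : ℝ) + d) - 1 / ((m : ℝ) + d + 1)) := by
      have e : (1 / ((m : ℝ) + d) - 1 / ((m : ℝ) + d + 1)) = 1 / (((m : ℝ) + d) * ((m : ℝ) + d + 1)) := by
        field_simp
        ring
      rw [e, div_mul_div_comm, mul_one]
      push_cast
      refine div_le_div_of_nonneg_left hC.le (by positivity) ?_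
      rw [pow_add]
      have q1 : (m : ℝ) ^ a ≤ ((m : ℝ) + d + 1) ^ a := pow_le_pow_left₀ hm0.le hx a
      have q2 : ((m : ℝ) + d) * ((m : ℝ) + d + 1) ≤ ((m : ℝ) + d + 1) ^ 2 := by
        rw [sq]
        exact mul_le_mul_of_nonneg_right (by linarith) (by linarith)
      exact mul_le_mul q1 q2 (by positivity) (by positivity)
    calc avg (m + d + 1) (fun z => |Ddm (m + d + 1) t L κ z - Ddm (m + d + 1 - 1) t L κ z|)
          + avg N (fun z => |Ddm (m + d) t L κ z - Ddm m t L κ z|)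
        ≤ C / (m : ℝ) ^ a * (1 / ((m : ℝ) + d) - 1 / ((m : ℝ) + d + 1))
          + C / (m : ℝ) ^ a * (1 / (m : ℝ) - 1 / ((m : ℝ) + d)) := add_le_add (h2.trans h3) ih'
      _ = C / (m : ℝ) ^ a * (1 / (m : ℝ) - 1 / ((m : ℝ) + ((d + 1 : ℕ) : ℝ))) := by
        push_cast
        ring

end HFsumaux

open HFsumaux in
theorem stmtHFsum (hHFstep : StmtHFstep) : StmtHFsum := by
  intro a
  obtain ⟨C, hC, hstep⟩ := hHFstep (a + 2)
  refine ⟨C, hC, ?_⟩
  intro m L t κ N hm ht hN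
  have hm0 : (0 : ℝ) < m := by exact_mod_cast hm
  by_cases h : 2 * L ≤ m
  · rw [Dd_eq_Ddm m t L κ h]
    simp only [sub_self, abs_zero, avg_const]
    positivity
  · push Not at h
    obtain ⟨d, hd⟩ := Nat.exists_eq_add_of_le h.le
    rw [Dd_eq_Ddm (2 * L) t L κ le_rfl, hd]
    refine (tele a C hC hstep m L t κ N hm ht d (by omega)).trans ?_
    have h1 : (1 / (m : ℝ) - 1 / ((m : ℝ) + d)) ≤ 1 := by
      have q1 : 1 / (m : ℝ) ≤ 1 := by
        rw [div_le_one hm0]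
        exact_mod_cast hm
      have q2 : 0 ≤ 1 / ((m : ℝ) + d) := by positivity
      linarith
    calc C / (m : ℝ) ^ a * (1 / (m : ℝ) - 1 / ((m : ℝ) + d)) ≤ C / (m : ℝ) ^ a * 1 :=
          mul_le_mul_of_nonneg_left h1 (by positivity)
      _ = C / (m : ℝ) ^ a := mul_one _

end Pool.Agent.Clz
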