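import Pool.Agent.Lib.MP_5a39b1_nt.Clz.Spec2

/-!
MP_5a39b1_nt, module KapLaw: law of the number of threes of a random word. See the docstring of `StmtKapLaw` in `Spec2.lean` for the proof.
-/

set_option autoImplicit false

namespace Pool.Agent.Clz

open Finset

namespace KapLawaux

theorem sum_P_shift (hv : ∀ (n : ℕ) (k : ℤ), (k < 0 ∨ (n : ℤ) < k) → P n k = 0)
    (N j : ℕ) (hj : j ≤ 2) (f : ℕ → ℝ) :
    ∑ k ∈ range (N + 3), P N ((k : ℤ) - j) * f k = ∑ k ∈ range (N + 1), P N k * f (j + k) := by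
  have h1 : ∑ k ∈ range (N + 3), P N ((k : ℤ) - j) * f k
      = ∑ k ∈ range (j + (N + 1)), P N ((k : ℤ) - j) * f k := by
    symm
    apply Finset.sum_subset
    · intro k hk
      simp only [Finset.mem_range] at hk ⊢
      omega
    · intro k hk hk'
      simp only [Finset.mem_range] at hk hk'
      rw [hv N _ (Or.inr (by omega)), zero_mul]
  rw [h1, Finset.sum_range_add]
  have h2 : ∑ k ∈ range j, P N ((k : ℤ) - j) * f k = 0 := by
    apply Finset.sum_eq_zero
    intro k hk
    simp only [Finset.mem_range] at hk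
    rw [hv N _ (Or.inl (by omega)), zero_mul]
  rw [h2, zero_add]
  refine Finset.sum_congr rfl fun k _ => ?_
  congr 2
  push_cast
  ring

end KapLawaux

open KapLawaux in
theorem stmtKapLaw (hBinBasic : StmtBinBasic) : StmtKapLaw := by
  obtain ⟨_, hv, h0, hP, _⟩ := hBinBasic
  intro n
  induction n with
  | zero =>
    intro f
    have h00 : P 0 0 = 1 := by rw [h0]; simp
    simp [h00]
  | succ n ih =>
    intro f
    rw [Ew_succ]
    have h1 : ∀ c : Fin 4, Ew n (fun g => f (kap (c :: g)))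
        = ∑ k ∈ range (2 * n + 1), P (2 * n) k * f (kap1 c + k) := by
      intro c
      exact ih (fun k => f (kap1 c + k))
    simp only [h1]
    have h2 : ∀ k : ℕ, P (2 * (n + 1)) k = (1 / 4) * P (2 * n) ((k : ℤ) - (0 : ℕ))
        + (1 / 2) * P (2 * n) ((k : ℤ) - (1 : ℕ)) + (1 / 4) * P (2 * n) ((k : ℤ) - (2 : ℕ)) := by
      intro k
      rw [show 2 * (n + 1) = (2 * n + 1) + 1 by ring, hP, hP, hP]
      have e1 : ((k : ℤ) - 1 - 1) = (k : ℤ) - (2 : ℕ) := by push_cast; ring
      rw [e1]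
      push_cast
      rw [sub_zero]
      ring
    have h3 : ∑ k ∈ range (2 * (n + 1) + 1), P (2 * (n + 1)) k * f k
        = (1 / 4) * ∑ k ∈ range (2 * n + 3), P (2 * n) ((k : ℤ) - (0 : ℕ)) * f k
        + (1 / 2) * ∑ k ∈ range (2 * n + 3), P (2 * n) ((k : ℤ) - (1 : ℕ)) * f k
        + (1 / 4) * ∑ k ∈ range (2 * n + 3), P (2 * n) ((k : ℤ) - (2 : ℕ)) * f k := by
      rw [show 2 * (n + 1) + 1 = 2 * n + 3 by ring]
      rw [Finset.mul_sum, Finset.mul_sum, Finset.mul_sum, ← Finset.sum_add_distrib,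
        ← Finset.sum_add_distrib]
      refine Finset.sum_congr rfl fun k _ => ?_
      rw [h2 k]
      ring
    rw [h3, sum_P_shift hv _ 0 (by norm_num), sum_P_shift hv _ 1 (by norm_num),
      sum_P_shift hv _ 2 (by norm_num)]
    simp only [Fin.sum_univ_four, smul_eq_mul, kap1, Matrix.cons_val_zero, Matrix.cons_val_one,
      Matrix.cons_val]
    ring

end Pool.Agent.Clz
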