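import Pool.Agent.Lib.MP_5a39b1_nt.Clz.Spec2

/-!
MP_5a39b1_nt, module L2: Cauchy-Schwarz and Parseval on Z/N. See the docstring of `StmtL2` in `Spec2.lean` for the proof.
-/

set_option autoImplicit false

namespace Pool.Agent.Clz

open Finset

namespace L2aux

theorem ee_add (x y : ℝ) : ee (x + y) = ee x * ee y := by
  unfold ee
  rw [← Complex.exp_add]
  congr 1
  push_cast
  ring

theorem norm_ee (x : ℝ) : ‖ee x‖ = 1 := by
  unfold ee
  have h : (2 * Real.pi * Complex.I * x : ℂ) = ((2 * Real.pi * x : ℝ) : ℂ) * Complex.I := by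
    push_cast
    ring
  rw [h]
  exact Complex.norm_exp_ofReal_mul_I _

theorem conj_ee (x : ℝ) : (starRingEnd ℂ) (ee x) = ee (-x) := by
  unfold ee
  rw [← Complex.exp_conj]
  congr 1
  rw [map_mul, map_mul, map_mul, Complex.conj_ofReal, Complex.conj_ofReal, Complex.conj_I,
    map_ofNat]
  push_cast
  ring

theorem ee_int (m : ℤ) : ee (m : ℝ) = 1 := by
  unfold ee
  rw [Complex.exp_eq_one_iff]
  exact ⟨m, by
    push_cast
    ring⟩

theorem ee_eq_one {x : ℝ} (h : ee x = 1) : ∃ m : ℤ, x = m := by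
  unfold ee at h
  rw [Complex.exp_eq_one_iff] at h
  obtain ⟨m, hm⟩ := h
  refine ⟨m, ?_⟩
  have h2 : (2 * Real.pi * Complex.I : ℂ) ≠ 0 := Complex.two_pi_I_ne_zero
  have h3 : (2 * Real.pi * Complex.I : ℂ) * (x : ℂ) = (2 * Real.pi * Complex.I) * (m : ℂ) := by
    rw [hm]
    ring
  have h4 := mul_left_cancel₀ h2 h3
  exact_mod_cast h4

theorem ee_nat_mul (n : ℕ) (x : ℝ) : ee (n * x) = ee x ^ n := by
  unfold ee
  rw [← Complex.exp_nat_mul]
  congr 1
  push_cast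
  ring

/-- orthogonality of the characters -/
theorem sum_ee {N : ℕ} (hN : 1 ≤ N) (m : ℤ) :
    ∑ z ∈ range N, ee ((z : ℝ) * (m / N)) = if (N : ℤ) ∣ m then (N : ℂ) else 0 := by
  have hN0 : (N : ℝ) ≠ 0 := by
    have : (0 : ℝ) < N := by exact_mod_cast hN
    exact this.ne'
  simp only [ee_nat_mul]
  split_ifs with h
  · obtain ⟨l, rfl⟩ := h
    have h1 : ((((N : ℤ) * l : ℤ) : ℝ) / N) = (l : ℝ) := by
      push_cast
      field_simp
    rw [h1, ee_int]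
    simp
  · have h1 : ee ((m : ℝ) / N) ≠ 1 := by
      intro h2
      obtain ⟨l, hl⟩ := ee_eq_one h2
      rw [div_eq_iff hN0] at hl
      apply h
      refine ⟨l, ?_⟩
      have : (m : ℝ) = ((N * l : ℤ) : ℝ) := by
        rw [hl]
        push_cast
        ring
      exact_mod_cast this
    have h2 := geom_sum_eq h1 N
    rw [h2, ← ee_nat_mul]
    have h3 : (N : ℝ) * ((m : ℝ) / N) = (m : ℝ) := by field_simp
    rw [h3, ee_int, sub_self, zero_div]

/-- Parseval -/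
theorem parseval {ι : Type*} {N : ℕ} (hN : 1 ≤ N) (s : Finset ι) (w : ι → ℤ) (c : ι → ℂ)
    (hw : ∀ i ∈ s, ∀ j ∈ s, (N : ℤ) ∣ w i - w j → i = j) :
    ∑ z ∈ range N, ‖∑ i ∈ s, c i * ee ((z : ℝ) * (w i / N))‖ ^ 2 = N * ∑ i ∈ s, ‖c i‖ ^ 2 := by
  classical
  have h1 : ∀ z : ℕ, ((‖∑ i ∈ s, c i * ee ((z : ℝ) * (w i / N))‖ ^ 2 : ℝ) : ℂ) =
      ∑ i ∈ s, ∑ j ∈ s, c i * (starRingEnd ℂ) (c j) *
        ee ((z : ℝ) * (((w i - w j : ℤ) : ℝ) / N)) := by
    intro z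
    have h2 := Complex.mul_conj (∑ i ∈ s, c i * ee ((z : ℝ) * (w i / N)))
    rw [Complex.normSq_eq_norm_sq] at h2
    rw [← h2, map_sum, Finset.sum_mul_sum]
    refine Finset.sum_congr rfl fun i _ => Finset.sum_congr rfl fun j _ => ?_
    rw [map_mul, conj_ee]
    have h3 : (z : ℝ) * (((w i - w j : ℤ) : ℝ) / N) =
        (z : ℝ) * (w i / N) + -((z : ℝ) * (w j / N)) := by
      push_cast
      ring
    rw [h3, ee_add]
    ring
  have h2 : ((∑ z ∈ range N, ‖∑ i ∈ s, c i * ee ((z : ℝ) * (w i / N))‖ ^ 2 : ℝ) : ℂ) =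
      ((N * ∑ i ∈ s, ‖c i‖ ^ 2 : ℝ) : ℂ) := by
    rw [Complex.ofReal_sum]
    simp only [h1]
    rw [Finset.sum_comm, Complex.ofReal_mul, Complex.ofReal_sum, Complex.ofReal_natCast,
      Finset.mul_sum]
    refine Finset.sum_congr rfl fun i hi => ?_
    rw [Finset.sum_comm]
    have h3 : ∀ j ∈ s, ∑ z ∈ range N, c i * (starRingEnd ℂ) (c j) *
        ee ((z : ℝ) * (((w i - w j : ℤ) : ℝ) / N)) =
        if j = i then (N : ℂ) * (c i * (starRingEnd ℂ) (c i)) else 0 := by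
      intro j hj
      rw [← Finset.mul_sum, sum_ee hN]
      by_cases h4 : j = i
      · subst h4
        simp
        ring
      · rw [if_neg h4, if_neg]
        · rw [mul_zero]
        · intro h5
          exact h4 (hw i hi j hj h5).symm
    rw [Finset.sum_congr rfl h3, Finset.sum_ite_eq', if_pos hi, Complex.mul_conj,
      Complex.normSq_eq_norm_sq]
  exact_mod_cast h2

end L2aux

open L2aux in
theorem stmtL2 : StmtL2 := by
  intro N s y c B β hN hβ hB hy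
  have hN0 : (0 : ℝ) < N := by exact_mod_cast hN
  obtain ⟨A, hA⟩ : ∃ A : ℕ → ℂ, A = fun ξ : ℕ => ∑ g ∈ s, c g * ee (-((ξ : ℝ) * y g / N)) :=
    ⟨_, rfl⟩
  have h1 : ∑ ξ ∈ range N, ‖A ξ‖ ^ 2 = N * ∑ g ∈ s, ‖c g‖ ^ 2 := by
    rw [← parseval hN s (fun g => -y g) c (fun g hg g' hg' h => hy g hg g' hg' (by
      rw [← dvd_neg]
      have h' : -(y g - y g') = -y g - -y g' := by ring
      rw [h']
      exact h))]
    refine Finset.sum_congr rfl fun ξ _ => ?_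
    rw [hA]
    simp only []
    congr 3
    funext g
    congr 2
    push_cast
    ring
  have h2 : ∑ z ∈ range N, ‖∑ ξ ∈ range N, B ξ * A ξ * ee ((ξ : ℝ) * z / N)‖ ^ 2 =
      N * ∑ ξ ∈ range N, ‖B ξ * A ξ‖ ^ 2 := by
    rw [← parseval hN (range N) (fun ξ => (ξ : ℤ)) (fun ξ => B ξ * A ξ)
      (fun ξ hξ ξ' hξ' h => by
        have h3 := Finset.mem_range.1 hξ
        have h4 := Finset.mem_range.1 hξ'
        have h5 : ((ξ : ℤ) - ξ') = 0 := by
          apply Int.eq_zero_of_abs_lt_dvd h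
          rw [abs_lt]
          constructor <;> omega
        omega)]
    refine Finset.sum_congr rfl fun z _ => ?_
    congr 3
    funext ξ
    congr 2
    push_cast
    ring
  have h3 : ∑ ξ ∈ range N, ‖B ξ * A ξ‖ ^ 2 ≤ β ^ 2 * (N * ∑ g ∈ s, ‖c g‖ ^ 2) := by
    rw [← h1, Finset.mul_sum]
    refine Finset.sum_le_sum fun ξ _ => ?_
    rw [norm_mul, mul_pow]
    exact mul_le_mul_of_nonneg_right (pow_le_pow_left₀ (norm_nonneg _) (hB ξ) 2) (by positivity)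
  have h4 : (∑ z ∈ range N, ‖∑ ξ ∈ range N, B ξ * A ξ * ee ((ξ : ℝ) * z / N)‖) ^ 2 ≤
      N * ∑ z ∈ range N, ‖∑ ξ ∈ range N, B ξ * A ξ * ee ((ξ : ℝ) * z / N)‖ ^ 2 := by
    have h5 := sq_sum_le_card_mul_sum_sq (s := range N)
      (f := fun z : ℕ => ‖∑ ξ ∈ range N, B ξ * A ξ * ee ((ξ : ℝ) * z / N)‖)
    rw [Finset.card_range] at h5
    exact h5
  have h5 : (∑ z ∈ range N, ‖∑ ξ ∈ range N, B ξ * A ξ * ee ((ξ : ℝ) * z / N)‖) ^ 2 ≤
      (N * (β * Real.sqrt (N * ∑ g ∈ s, ‖c g‖ ^ 2))) ^ 2 := by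
    refine h4.trans ?_
    rw [h2, mul_pow, mul_pow, Real.sq_sqrt (by positivity)]
    calc (N : ℝ) * (N * ∑ ξ ∈ range N, ‖B ξ * A ξ‖ ^ 2) ≤
          N * (N * (β ^ 2 * (N * ∑ g ∈ s, ‖c g‖ ^ 2))) := by gcongr
      _ = _ := by ring
  have h6 := abs_le_of_sq_le_sq h5 (by positivity)
  rw [div_le_iff₀ hN0]
  have h7 := (le_abs_self _).trans h6
  rw [hA] at h7
  linarith

end Pool.Agent.Clz
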