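import Pool.Agent.Lib.MP_5a39b1_nt.Clz.Spec1

/-!
MP_5a39b1_nt, module LemS: two columns with long waiting times are close or far apart. See the docstring of `StmtLemS` in `Spec1.lean` for the proof.
-/

set_option autoImplicit false

namespace Pool.Agent.Clz

open Finset

namespace LemSaux

theorem lift (x : UnitAddCircle) : ∃ x₀ : ℝ, (x₀ : UnitAddCircle) = x ∧ |x₀| = ‖x‖ := by
  induction x using QuotientAddGroup.induction_on with
  | H a =>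
    refine ⟨a - round a, ?_, ?_⟩
    · have h1 : (((round a : ℤ) : ℝ) : UnitAddCircle) = 0 := by
        rw [AddCircle.coe_eq_zero_iff]
        exact ⟨round a, by simp⟩
      rw [AddCircle.coe_sub, h1, sub_zero]
    · exact (UnitAddCircle.norm_eq).symm

/-- a multiple of `x` which is small and not wrapped around -/
theorem norm_mul_eq (x : UnitAddCircle) (n : ℕ) (h1 : (n : ℝ) * ‖x‖ < 9 / 10)
    (h2 : ‖n • x‖ ≤ 1 / 10) : ‖n • x‖ = n * ‖x‖ := by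
  obtain ⟨x₀, hx, hn⟩ := lift x
  have h3 : n • x = (((n : ℝ) * x₀ : ℝ) : UnitAddCircle) := by
    rw [← hx, ← nsmul_eq_mul, AddCircle.coe_nsmul]
  rw [h3, UnitAddCircle.norm_eq] at h2 ⊢
  rw [← hn] at h1 ⊢
  have h4 : |(n : ℝ) * x₀| < 9 / 10 := by
    rw [abs_mul, Nat.abs_cast]; exact h1
  have h5 : |((round ((n : ℝ) * x₀) : ℤ) : ℝ)| < 1 := by
    have := abs_sub_abs_le_abs_sub ((round ((n : ℝ) * x₀) : ℤ) : ℝ) ((n : ℝ) * x₀)
    rw [abs_sub_comm] at this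
    linarith
  have h6 : round ((n : ℝ) * x₀) = 0 := by
    have h7 : |round ((n : ℝ) * x₀)| < 1 := by exact_mod_cast h5
    exact Int.abs_lt_one_iff.1 h7
  rw [h6, Int.cast_zero, sub_zero, abs_mul, Nat.abs_cast]

theorem three_pow (h : Th) (m r g : ℕ) : (3 ^ g : ℕ) • h.θ (m + g) r = h.θ m r := by
  induction g with
  | zero => simp
  | succ g ih =>
    rw [pow_succ, mul_nsmul', ← add_assoc, h.h3, ih]

theorem four_pow (h : Th) (m r t : ℕ) (hm : m ≤ h.M0) :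
    (4 ^ t : ℕ) • h.θ m (r + t) = h.θ m r := by
  induction t with
  | zero => simp
  | succ t ih =>
    rw [pow_succ, mul_nsmul', ← add_assoc, h.h4 _ _ hm, ih]

/-- a column with a long waiting time -/
theorem column (hThBasic : StmtThBasic) (h : Th) (m r s σ : ℕ) (hm : m ≤ h.M0)
    (hs : s + 1 ≤ σ) (hσ : σ ≤ dl h m r) :
    m ≠ 0 ∧ ‖h.θ m (r + s)‖ ≤ 1 / 10 ∧ 4 ^ s * ‖h.θ m (r + s)‖ ≤ 1 / 10 := by
  obtain ⟨-, h2, -⟩ := hThBasic h m r hm
  obtain ⟨h3, h4, h5⟩ := h2 s (by omega)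
  obtain ⟨h6, h7, h8⟩ := h2 0 (by omega)
  refine ⟨?_, h4, ?_⟩
  · intro h0
    exact h3 (Or.inl h0)
  · rw [← h5]
    simpa using h7

end LemSaux

theorem stmtLemS (hThBasic : StmtThBasic) (hExitWhite : StmtExitWhite) : StmtLemS := by
  intro h m i k₁ k₂ h₁ h₂ H σ hm he hk hk2 hh1 hh2 hH hs1 hs2
  set e := dl h m i with hedef
  have hm1 : m - k₁ ≤ h.M0 := (Nat.sub_le _ _).trans hm
  have hm2 : m - k₂ ≤ h.M0 := (Nat.sub_le _ _).trans hm
  obtain ⟨a1, b1, c1⟩ := LemSaux.column hThBasic h (m - k₁) (i + e + h₁) (σ - 1 - h₁) σ hm1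
    (by omega) hs1
  obtain ⟨a2, b2, c2⟩ := LemSaux.column hThBasic h (m - k₂) (i + e + h₂) (σ - 1 - h₂) σ hm2
    (by omega) hs2
  rw [show i + e + h₁ + (σ - 1 - h₁) = i + e + (σ - 1) by omega] at b1 c1
  rw [show i + e + h₂ + (σ - 1 - h₂) = i + e + (σ - 1) by omega] at b2 c2
  obtain ⟨g, hg⟩ : ∃ g, k₂ = k₁ + g := ⟨k₂ - k₁, by omega⟩
  have hgg : k₂ - k₁ = g := by omega
  rw [hgg]
  have hcol : m - k₁ = m - k₂ + g := by omega
  have hz : (3 ^ g : ℕ) • h.θ (m - k₁) (i + e + (σ - 1)) = h.θ (m - k₂) (i + e + (σ - 1)) := by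
    rw [hcol]
    exact LemSaux.three_pow h _ _ _
  set x := h.θ (m - k₁) (i + e + (σ - 1)) with hx
  set z := h.θ (m - k₂) (i + e + (σ - 1)) with hzdef
  have hpow : ∀ t : ℕ, t ≤ H → (4 : ℝ) ^ (σ - 1 - H) ≤ 4 ^ (σ - 1 - t) := by
    intro t ht
    exact pow_le_pow_right₀ (by norm_num) (by omega)
  have c1' : (4 : ℝ) ^ (σ - 1 - H) * ‖x‖ ≤ 1 / 10 :=
    (mul_le_mul_of_nonneg_right (hpow h₁ hh1) (norm_nonneg _)).trans c1
  have c2' : (4 : ℝ) ^ (σ - 1 - H) * ‖z‖ ≤ 1 / 10 :=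
    (mul_le_mul_of_nonneg_right (hpow h₂ hh2) (norm_nonneg _)).trans c2
  by_cases hcase : ((3 ^ g : ℕ) : ℝ) * ‖x‖ < 9 / 10
  · left
    have hn := LemSaux.norm_mul_eq x (3 ^ g) hcase (by rw [hz]; exact b2)
    rw [hz] at hn
    have hw := hExitWhite h m i k₁ hm he ((Nat.pow_le_pow_right (by norm_num) hk).trans hk2)
    have hw' : (1 / 10 : ℝ) < ‖h.θ (m - k₁) (i + e)‖ := by
      rcases hw with h0 | h0
      · exact absurd h0 a1
      · exact h0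
    have h4 := LemSaux.four_pow h (m - k₁) (i + e) (σ - 1) hm1
    rw [← h4] at hw'
    have h5 : ‖(4 ^ (σ - 1) : ℕ) • x‖ ≤ (4 : ℝ) ^ (σ - 1) * ‖x‖ := by
      have := norm_nsmul_le (n := 4 ^ (σ - 1)) (a := x)
      push_cast at this
      exact this
    have h6 : (1 / 10 : ℝ) < (4 : ℝ) ^ (σ - 1) * ‖x‖ := lt_of_lt_of_le hw' h5
    have h7 : (4 : ℝ) ^ (σ - 1) = 4 ^ (σ - 1 - H) * 4 ^ H := by
      rw [← pow_add]; congr 1; omega
    have hx0 : 0 < ‖x‖ := by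
      by_contra h0
      have : ‖x‖ = 0 := le_antisymm (not_lt.1 h0) (norm_nonneg _)
      rw [this, mul_zero] at h6
      linarith
    have h8 : ((3 ^ g : ℕ) : ℝ) < 4 ^ H := by
      have hp : (0 : ℝ) < 4 ^ (σ - 1 - H) := by positivity
      have h9 : (4 : ℝ) ^ (σ - 1 - H) * (((3 ^ g : ℕ) : ℝ) * ‖x‖) <
          4 ^ (σ - 1 - H) * (4 ^ H * ‖x‖) := by
        rw [← hn]
        calc (4 : ℝ) ^ (σ - 1 - H) * ‖z‖ ≤ 1 / 10 := c2'
          _ < (4 : ℝ) ^ (σ - 1) * ‖x‖ := h6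
          _ = 4 ^ (σ - 1 - H) * (4 ^ H * ‖x‖) := by rw [h7]; ring
      have h10 := lt_of_mul_lt_mul_left h9 hp.le
      exact lt_of_mul_lt_mul_right h10 hx0.le
    have h11 : 3 ^ g < 4 ^ H := by exact_mod_cast h8
    have h12 : (4 : ℕ) ^ H ≤ 3 ^ (2 * H) := by
      rw [pow_mul]
      exact Nat.pow_le_pow_left (by norm_num) H
    have h13 : 3 ^ g < 3 ^ (2 * H) := lt_of_lt_of_le h11 h12
    exact ((Nat.pow_lt_pow_iff_right (by norm_num)).1 h13).le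
  · right
    by_contra hcon
    have hlt : g ≤ σ - 1 - H := by omega
    have h1 : (3 : ℝ) ^ g ≤ 4 ^ (σ - 1 - H) := by
      calc (3 : ℝ) ^ g ≤ 4 ^ g := pow_le_pow_left₀ (by norm_num) (by norm_num) g
        _ ≤ 4 ^ (σ - 1 - H) := pow_le_pow_right₀ (by norm_num) hlt
    have h2 : (3 : ℝ) ^ g * ‖x‖ ≤ 1 / 10 :=
      (mul_le_mul_of_nonneg_right h1 (norm_nonneg _)).trans c1'
    push_cast at hcase
    linarith

end Pool.Agent.Clz
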