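import Pool.Agent.Lib.MP_5a39b1_nt.Clz.Spec2

/-!
MP_5a39b1_nt, module RMoment: square root moment of RR. See the docstring of `StmtRMoment` in `Spec2.lean` for the proof.
-/

set_option autoImplicit false

namespace Pool.Agent.Clz

open Finset

namespace RMomentaux

theorem RR_cons (c : Fin 4) (g : List (Fin 4)) :
    RR (c :: g) = ((F1 c : ℝ) + 3 ^ kap1 c * RR g) / 4 := by
  unfold RR
  simp only [FF_cons, List.length_cons]
  push_cast
  have h4 : (4 : ℝ) ^ g.length ≠ 0 := by positivity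
  rw [pow_succ]
  field_simp

theorem RR_nonneg (g : List (Fin 4)) : 0 ≤ RR g := by
  unfold RR
  have h := FF_nonneg g
  have : (0 : ℝ) ≤ (FF g : ℝ) := by exact_mod_cast h
  positivity

theorem RR_nil : RR [] = 0 := by simp [RR]

theorem RR_bound (g : List (Fin 4)) : RR g + 1 ≤ (9 / 4 : ℝ) ^ g.length := by
  induction g with
  | nil => simp [RR_nil]
  | cons c g ih =>
    rw [RR_cons, List.length_cons, pow_succ]
    have h0 := RR_nonneg g
    have key : ((F1 c : ℝ) + 3 ^ kap1 c * RR g) / 4 + 1 ≤ (RR g + 1) * (9 / 4) := by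
      fin_cases c <;> simp [F1, kap1] <;> nlinarith
    nlinarith

theorem sqrt_num :
    Real.sqrt 2 ≤ 1.4143 ∧ Real.sqrt 5 ≤ 2.2361 ∧ Real.sqrt 3 ≤ 1.7321 := by
  refine ⟨?_, ?_, ?_⟩ <;> rw [Real.sqrt_le_left (by norm_num)] <;> norm_num

theorem step0 (x : ℝ) (_hx : 0 ≤ x) :
    Real.sqrt ((0 + 1 * x) / 4) = (1 / 2) * Real.sqrt x := by
  rw [show (0 + 1 * x) / 4 = (1 / 2) ^ 2 * x by ring, Real.sqrt_mul (by norm_num),
    Real.sqrt_sq (by norm_num)]

theorem stepg (a b x : ℝ) (ha : 0 ≤ a) (hb : 0 ≤ b) (hx : 0 ≤ x) :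
    Real.sqrt ((a + b * x) / 4) ≤ (1 / 2) * (Real.sqrt a + Real.sqrt b * Real.sqrt x) := by
  rw [show (a + b * x) / 4 = (1 / 2) ^ 2 * (a + b * x) by ring, Real.sqrt_mul (by norm_num),
    Real.sqrt_sq (by norm_num), ← Real.sqrt_mul hb]
  have : Real.sqrt (a + b * x) ≤ Real.sqrt a + Real.sqrt (b * x) := by
    rw [Real.sqrt_le_left (by positivity)]
    have h1 := Real.sq_sqrt ha
    have h2 := Real.sq_sqrt (mul_nonneg hb hx)
    have h3 := mul_nonneg (Real.sqrt_nonneg a) (Real.sqrt_nonneg (b * x))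
    nlinarith
  linarith

theorem main (t : ℕ) : Ew t (fun g => Real.sqrt (RR g)) ≤ 10 := by
  induction t with
  | zero => simp [RR_nil]
  | succ t ih =>
    rw [Ew_succ]
    have hE0 : 0 ≤ Ew t (fun g => Real.sqrt (RR g)) := Ew_nonneg fun g _ => Real.sqrt_nonneg _
    set E := Ew t (fun g => Real.sqrt (RR g)) with hE
    obtain ⟨h2, h5, h3⟩ := sqrt_num
    have hc : ∀ c : Fin 4, Ew t (fun g => Real.sqrt (RR (c :: g))) ≤
        (1 / 2) * (Real.sqrt (F1 c : ℝ) + Real.sqrt (3 ^ kap1 c) * E) := by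
      intro c
      have h1 : Ew t (fun g => Real.sqrt (RR (c :: g))) ≤
          Ew t (fun g => (1 / 2) * (Real.sqrt (F1 c : ℝ) + Real.sqrt (3 ^ kap1 c) * Real.sqrt (RR g))) := by
        refine Ew_mono fun g _ => ?_
        rw [RR_cons]
        exact stepg _ _ _ (by exact_mod_cast F1_nonneg c) (by positivity) (RR_nonneg g)
      rw [Ew_mul, Ew_add, Ew_const, Ew_mul] at h1
      exact h1
    have h9 : Real.sqrt (3 ^ 2 : ℝ) = 3 := Real.sqrt_sq (by norm_num)
    have e0 := hc 0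
    have e1 := hc 1
    have e2 := hc 2
    have e3 := hc 3
    simp only [F1, kap1, Matrix.cons_val_zero, Matrix.cons_val_one, Matrix.cons_val] at e0 e1 e2 e3
    rw [h9] at e3
    norm_num at e0 e1 e2 e3
    simp only [Fin.sum_univ_four, smul_eq_mul]
    have hm : Real.sqrt 3 * E ≤ 1.7321 * E := mul_le_mul_of_nonneg_right h3 hE0
    nlinarith

end RMomentaux

theorem stmtRMoment : StmtRMoment := by
  refine ⟨RMomentaux.main, fun g => ⟨RMomentaux.RR_nonneg g, ?_⟩⟩
  have := RMomentaux.RR_bound g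
  linarith

end Pool.Agent.Clz
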