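import Pool.Agent.Lib.MP_5a39b1_nt.Clz.Spec2

/-!
MP_5a39b1_nt, module Ram: Ramanujan sum expansion. See the docstring of `StmtRam` in `Spec2.lean` for the proof.
-/

set_option autoImplicit false

namespace Pool.Agent.Clz

open Finset

namespace Ramaux

theorem geo (N : ℕ) (hN : 0 < N) (y : ℤ) :
    ∑ ξ ∈ range N, ee ((ξ : ℝ) * y / N) = if (N : ℤ) ∣ y then (N : ℂ) else 0 := by
  set ζ : ℂ := ee ((y : ℝ) / N) with hζ
  have hNr : (N : ℝ) ≠ 0 := by positivity
  have hNc : (N : ℂ) ≠ 0 := by exact_mod_cast hNr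
  have hpow : ∀ ξ : ℕ, ee ((ξ : ℝ) * y / N) = ζ ^ ξ := by
    intro ξ
    rw [hζ]
    unfold ee
    rw [← Complex.exp_nat_mul]
    congr 1
    push_cast
    ring
  have hN1 : ζ ^ N = 1 := by
    rw [hζ]
    unfold ee
    rw [← Complex.exp_nat_mul, Complex.exp_eq_one_iff]
    refine ⟨y, ?_⟩
    push_cast
    field_simp
  simp only [hpow]
  by_cases h : (N : ℤ) ∣ y
  · rw [if_pos h]
    obtain ⟨q, hq⟩ := h
    have h1 : ζ = 1 := by
      rw [hζ]
      unfold ee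
      rw [Complex.exp_eq_one_iff]
      refine ⟨q, ?_⟩
      rw [hq]
      push_cast
      field_simp
    rw [h1]
    simp
  · rw [if_neg h]
    have h1 : ζ ≠ 1 := by
      intro h1
      apply h
      rw [hζ] at h1
      unfold ee at h1
      rw [Complex.exp_eq_one_iff] at h1
      obtain ⟨q, hq⟩ := h1
      refine ⟨q, ?_⟩
      have h2 : (2 * (Real.pi : ℂ) * Complex.I) ≠ 0 := Complex.two_pi_I_ne_zero
      have h3 : (((y : ℝ) / N : ℝ) : ℂ) = q := by
        have h4 : (2 * (Real.pi : ℂ) * Complex.I) * (((y : ℝ) / N : ℝ) : ℂ) =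
            (2 * (Real.pi : ℂ) * Complex.I) * q := by
          rw [hq]
          ring
        exact mul_left_cancel₀ h2 h4
      have h5 : ((y : ℝ) / N : ℝ) = q := by exact_mod_cast h3
      have h6 : (y : ℝ) = N * q := by
        field_simp at h5
        linarith
      exact_mod_cast h6
    have h2 := geom_sum_eq h1 N
    rw [h2, hN1]
    simp

end Ramaux

open Ramaux

theorem stmtRam : StmtRam := by
  intro n y hn
  obtain ⟨m, rfl⟩ : ∃ m, n = m + 1 := ⟨n - 1, by omega⟩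
  have h1 := geo (3 ^ (m + 1)) (by positivity) y
  have h2 := geo (3 ^ m) (by positivity) y
  rw [← Finset.sum_filter_add_sum_filter_not (range (3 ^ (m + 1))) (fun ξ : ℕ => ¬ 3 ∣ ξ)] at h1
  have h3 : ∑ ξ ∈ (range (3 ^ (m + 1))).filter (fun ξ : ℕ => ¬ ¬ 3 ∣ ξ),
      ee ((ξ : ℝ) * y / ((3 ^ (m + 1) : ℕ) : ℝ)) =
      ∑ ξ ∈ range (3 ^ m), ee ((ξ : ℝ) * y / ((3 ^ m : ℕ) : ℝ)) := by
    symm
    refine Finset.sum_bij (fun ξ _ => 3 * ξ) ?_ ?_ ?_ ?_
    · intro ξ hξ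
      rw [mem_range] at hξ
      rw [mem_filter, mem_range, not_not]
      refine ⟨?_, Dvd.intro _ rfl⟩
      rw [pow_succ]
      omega
    · intro a _ b _ hab
      omega
    · intro ξ hξ
      rw [mem_filter, mem_range, not_not] at hξ
      obtain ⟨hlt, η, rfl⟩ := hξ
      refine ⟨η, ?_, rfl⟩
      rw [mem_range]
      rw [pow_succ] at hlt
      omega
    · intro ξ _
      congr 1
      push_cast
      rw [pow_succ]
      field_simp
  rw [h3, h2] at h1
  have h4 : ∑ ξ ∈ (range (3 ^ (m + 1))).filter (fun ξ : ℕ => ¬ 3 ∣ ξ),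
      ee ((ξ : ℝ) * y / 3 ^ (m + 1)) =
      ∑ ξ ∈ (range (3 ^ (m + 1))).filter (fun ξ : ℕ => ¬ 3 ∣ ξ),
      ee ((ξ : ℝ) * y / ((3 ^ (m + 1) : ℕ) : ℝ)) := by
    refine Finset.sum_congr rfl fun ξ _ => ?_
    push_cast
    rfl
  rw [h4, eq_sub_iff_add_eq]
  rw [show m + 1 - 1 = m by omega]
  push_cast at h1 ⊢
  exact h1

end Pool.Agent.Clz
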