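import Pool.Agent.Lib.MP_5a39b1_nt.Clz.Spec1

/-!
MP_5a39b1_nt, module Scale: scale lemma: V small after 0.8 m steps. See the docstring of `StmtScale` in `Spec1.lean` for the proof.
-/

set_option autoImplicit false

namespace Pool.Agent.Clz

open Finset

namespace Scaleaux

lemma qq_lt : qq < 1 := by
  unfold qq
  rw [← Real.cos_zero]
  apply Real.cos_lt_cos_of_nonneg_of_le_pi_div_two le_rfl
  · have := Real.pi_pos; linarith
  · have := Real.pi_pos; positivity

lemma qq_pos : 0 < qq := by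
  unfold qq
  apply Real.cos_pos_of_mem_Ioo
  constructor <;> have := Real.pi_pos <;> linarith

lemma gam_lt : gam < 1 := by
  unfold gam; have := qq_lt; linarith

lemma gam_pos : 0 < gam := by
  unfold gam; have := qq_pos; linarith

lemma e_le (e m : ℕ) (he : 4 ^ e ≤ 4 * 3 ^ m) : e ≤ 159 * m / 200 + 1 := by
  rcases Nat.eq_zero_or_pos e with h | h
  · omega
  obtain ⟨k, rfl⟩ : ∃ k, e = k + 1 := ⟨e - 1, by omega⟩
  have h1 : 4 ^ k ≤ 3 ^ m := by
    rw [pow_succ] at he
    omega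
  have h2 : 4 ^ (200 * k) ≤ 4 ^ (159 * m) := by
    calc 4 ^ (200 * k) = (4 ^ k) ^ 200 := by rw [← pow_mul, mul_comm]
      _ ≤ (3 ^ m) ^ 200 := Nat.pow_le_pow_left h1 _
      _ = (3 ^ 200) ^ m := by rw [← pow_mul, ← pow_mul, mul_comm]
      _ ≤ (4 ^ 159) ^ m := Nat.pow_le_pow_left (by norm_num) _
      _ = 4 ^ (159 * m) := by rw [← pow_mul]
  have h3 : 200 * k ≤ 159 * m := (Nat.pow_le_pow_iff_right (by norm_num)).1 h2
  omega

end Scaleaux

open Scaleaux in
theorem stmtScale (hVBasic : StmtVBasic) (hThBasic : StmtThBasic) (hAttempt : StmtAttempt) (hCross : StmtCross) : StmtScale := by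
  intro δ hδ
  obtain ⟨Q, hQ⟩ := exists_pow_lt_of_lt_one (half_pos hδ) gam_lt
  obtain ⟨τ₀, y₀, hC⟩ := hCross Q (δ / 2) (half_pos hδ)
  refine ⟨200 * (Q * (y₀ + 1) + 1 + τ₀), fun h m i τ hm hM hτ => ?_⟩
  have hg0 := gam_pos
  have hg1 := gam_lt
  have hR : 0 ≤ gam ^ Q + δ / 2 := by positivity
  have hdl : ∀ m' ≤ m, ∀ i', dl h m' i' ≤ 159 * m / 200 + 1 := by
    intro m' hm' i'
    apply e_le
    have := (hThBasic h m' i' (hm'.trans hM)).2.2.1
    refine this.trans ?_
    exact Nat.mul_le_mul_left _ (Nat.pow_le_pow_right (by norm_num) hm')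
  have claim : ∀ a : ℕ, ∀ m' ≤ m, ∀ i' τ', a * (y₀ + 1) + (159 * m / 200 + 1) + τ₀ ≤ τ' →
      V h τ' m' i' ≤ max (gam ^ a) (gam ^ Q + δ / 2) := by
    intro a
    induction a with
    | zero =>
      intro m' _ i' τ' _
      rw [pow_zero]
      exact (hVBasic.1 h τ' m' i').2.trans (le_max_left _ _)
    | succ a ih =>
      intro m' hm' i' τ' hτ'
      have hd := hdl m' hm' i'
      have e1 : (a + 1) * (y₀ + 1) = a * (y₀ + 1) + (y₀ + 1) := by ring
      rw [e1] at hτ'
      by_cases hy : dl h m' i' < y₀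
      · obtain ⟨t, rfl⟩ : ∃ t, τ' = dl h m' i' + 1 + t := ⟨τ' - (dl h m' i' + 1), by omega⟩
        have h3 : V h (dl h m' i' + 1 + t) m' i' ≤ gam * max (gam ^ a) (gam ^ Q + δ / 2) := by
          refine hAttempt h t m' i' _ (hm'.trans hM) (le_max_of_le_right hR) (fun k _ => ?_)
          exact ih (m' - k) ((Nat.sub_le _ _).trans hm') _ _ (by omega)
        refine h3.trans ?_
        rw [mul_max_of_nonneg _ _ hg0.le, pow_succ, mul_comm gam (gam ^ a)]
        apply max_le_max le_rfl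
        exact mul_le_of_le_one_left hR hg1.le
      · push Not at hy
        obtain ⟨t, rfl⟩ : ∃ t, τ' = dl h m' i' + t := ⟨τ' - dl h m' i', by omega⟩
        refine (hC h m' i' t (hm'.trans hM) hy (by omega)).trans (le_max_right _ _)
  have h4 := claim Q m le_rfl i τ (by omega)
  refine h4.trans (max_le ?_ ?_)
  · linarith
  · linarith

end Pool.Agent.Clz
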