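import Pool.Agent.Lib.MP_5a39b1_nt.Clz.Spec1

/-!
MP_5a39b1_nt, module Sparse: binomial weight of a sparse set. See the docstring of `StmtSparse` in `Spec1.lean` for the proof.
-/

set_option autoImplicit false

namespace Pool.Agent.Clz

open Finset

namespace Sparseaux

theorem sum_le_one (hB : StmtBinBasic) (n : ℕ) (s : Finset ℤ) : ∑ x ∈ s, P n x ≤ 1 := by
  obtain ⟨h0, h1, -, -, h4, -⟩ := hB
  rw [← h4 n]
  have e1 : ∑ k ∈ range (n + 1), P n k = ∑ x ∈ (range (n + 1)).image (fun k : ℕ => (k : ℤ)),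
      P n x := by
    rw [sum_image]
    intro a _ b _ h
    exact Nat.cast_injective h
  rw [e1]
  have e2 : ∑ x ∈ s, P n x = ∑ x ∈ s.filter (fun x => x ∈ (range (n + 1)).image
      (fun k : ℕ => (k : ℤ))), P n x := by
    rw [sum_filter_of_ne]
    intro x _ hx
    by_contra hcon
    apply hx
    apply h1
    by_contra h2
    push Not at h2
    apply hcon
    rw [mem_image]
    exact ⟨x.toNat, by rw [mem_range]; omega, by omega⟩
  rw [e2]
  apply sum_le_sum_of_subset_of_nonneg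
  · intro x hx
    exact (mem_filter.1 hx).2
  · intro x _ _
    exact h0 n x

theorem tele (n : ℕ) (k : ℤ) (i : ℕ) : P n k ≤ P n (k + i) +
    ∑ j ∈ range i, |P n (k + j + 1) - P n (k + j)| := by
  induction i with
  | zero => simp
  | succ i ih =>
    rw [sum_range_succ]
    have h1 : (k + ((i + 1 : ℕ) : ℤ)) = k + i + 1 := by push_cast; ring
    rw [h1]
    have h2 := neg_abs_le (P n (k + i + 1) - P n (k + i))
    linarith

theorem one_point (hB : StmtBinBasic) (n G : ℕ) (hG : 1 ≤ G) (k : ℤ) :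
    P n k ≤ (1 / (G : ℝ)) * ∑ i ∈ range G, P n (k + i) +
      ∑ i ∈ range G, |P n (k + i + 1) - P n (k + i)| := by
  have hG' : (0 : ℝ) < G := by exact_mod_cast hG
  set D := ∑ i ∈ range G, |P n (k + i + 1) - P n (k + i)| with hD
  have h1 : ∀ i ∈ range G, P n k ≤ P n (k + i) + D := by
    intro i hi
    have h2 : ∑ j ∈ range i, |P n (k + j + 1) - P n (k + j)| ≤ D := by
      apply sum_le_sum_of_subset_of_nonneg
      · intro j hj
        rw [mem_range] at hi hj ⊢
        omega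
      · intro j _ _
        exact abs_nonneg _
    have h3 := tele n k i
    linarith
  have h2 := sum_le_sum h1
  rw [sum_const, card_range, sum_add_distrib, sum_const, card_range, nsmul_eq_mul,
    nsmul_eq_mul] at h2
  have h3 : (G : ℝ) * (P n k - D) ≤ ∑ i ∈ range G, P n (k + i) := by linarith
  have h4 : P n k - D ≤ (1 / (G : ℝ)) * ∑ i ∈ range G, P n (k + i) := by
    rw [one_div, ← div_eq_inv_mul, le_div_iff₀ hG', mul_comm]
    exact h3
  linarith

theorem class_bound (hB : StmtBinBasic) (hD : StmtBinDiff) (n G : ℕ) (hG : 1 ≤ G)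
    (B : Finset ℤ) (hsep : ∀ k ∈ B, ∀ k' ∈ B, k < k' → (G : ℤ) ≤ k' - k) :
    ∑ k ∈ B, P n k ≤ 1 / (G : ℝ) + 2 / Real.sqrt (n + 1) := by
  have hG' : (0 : ℝ) < G := by exact_mod_cast hG
  have hinj : Set.InjOn (fun x : ℤ × ℕ => x.1 + (x.2 : ℤ)) (B ×ˢ range G : Finset (ℤ × ℕ)) := by
    rintro ⟨k, i⟩ hx ⟨k', i'⟩ hx' h
    have hx1 : (k, i) ∈ B ×ˢ range G := hx
    have hx1' : (k', i') ∈ B ×ˢ range G := hx'
    rw [mem_product, mem_range] at hx1 hx1'
    obtain ⟨a1, a2⟩ := hx1
    obtain ⟨b1, b2⟩ := hx1'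
    have h' : k + (i : ℤ) = k' + (i' : ℤ) := h
    rcases lt_trichotomy k k' with hlt | heq | hgt
    · have := hsep k a1 k' b1 hlt
      simp only at a2 b2
      omega
    · subst heq
      have : i = i' := by omega
      rw [this]
    · have := hsep k' b1 k a1 hgt
      simp only at a2 b2
      omega
  set U := (B ×ˢ range G).image (fun x : ℤ × ℕ => x.1 + (x.2 : ℤ)) with hU
  have e1 : ∀ F : ℤ → ℝ, ∑ k ∈ B, ∑ i ∈ range G, F (k + i) = ∑ x ∈ U, F x := by
    intro F
    rw [hU, sum_image hinj, sum_product]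
  calc ∑ k ∈ B, P n k
      ≤ ∑ k ∈ B, ((1 / (G : ℝ)) * ∑ i ∈ range G, P n (k + i) +
        ∑ i ∈ range G, |P n (k + i + 1) - P n (k + i)|) :=
        sum_le_sum fun k _ => one_point hB n G hG k
    _ = (1 / (G : ℝ)) * ∑ x ∈ U, P n x + ∑ x ∈ U, |P n (x + 1) - P n x| := by
        rw [sum_add_distrib, ← mul_sum, e1 (fun x => P n x),
          e1 (fun x => |P n (x + 1) - P n x|)]
    _ ≤ (1 / (G : ℝ)) * 1 + 2 / Real.sqrt (n + 1) := by
        apply add_le_add
        · exact mul_le_mul_of_nonneg_left (sum_le_one hB n U) (by positivity)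
        · exact hD.1 n U
    _ = 1 / (G : ℝ) + 2 / Real.sqrt (n + 1) := by rw [mul_one]

end Sparseaux

open Sparseaux in
theorem stmtSparse (hBinBasic : StmtBinBasic) (hBinDiff : StmtBinDiff) : StmtSparse := by
  intro n w G B hw hG hsep
  have hw' : (0 : ℤ) < w := by exact_mod_cast hw
  have h1 : ∑ k ∈ B, P n k = ∑ r ∈ range w, ∑ k ∈ B.filter (fun k : ℤ => (k % (w : ℤ)).toNat = r),
      P n k := by
    rw [← sum_fiberwise_of_maps_to (s := B) (t := range w) (g := fun k : ℤ => (k % (w : ℤ)).toNat)]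
    intro k _
    rw [mem_range]
    have h2 := Int.emod_lt_of_pos k hw'
    have h3 := Int.emod_nonneg k hw'.ne'
    omega
  rw [h1]
  have h2 : ∀ r ∈ range w, ∑ k ∈ B.filter (fun k : ℤ => (k % (w : ℤ)).toNat = r), P n k ≤
      1 / (G : ℝ) + 2 / Real.sqrt (n + 1) := by
    intro r _
    apply class_bound hBinBasic hBinDiff n G hG
    intro k hk k' hk' hlt
    rw [mem_filter] at hk hk'
    rcases hsep k hk.1 k' hk'.1 hlt with h | h
    · exfalso
      have h3 := Int.emod_nonneg k hw'.ne'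
      have h4 := Int.emod_nonneg k' hw'.ne'
      have h5 : k % (w : ℤ) = k' % (w : ℤ) := by omega
      have h6 : (w : ℤ) ∣ k' - k := Int.ModEq.dvd h5
      have h7 := Int.le_of_dvd (by omega) h6
      omega
    · exact h
  calc ∑ r ∈ range w, ∑ k ∈ B.filter (fun k : ℤ => (k % (w : ℤ)).toNat = r), P n k
      ≤ ∑ r ∈ range w, (1 / (G : ℝ) + 2 / Real.sqrt (n + 1)) := sum_le_sum h2
    _ = w * (1 / (G : ℝ) + 2 / Real.sqrt (n + 1)) := by
        rw [sum_const, card_range, nsmul_eq_mul]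

end Pool.Agent.Clz
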