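import Pool.Agent.Lib.MP_5a39b1_nt.Clz.Spec1

/-!
MP_5a39b1_nt, module Tails: exponential tails by Markov with z^k. See the docstring of `StmtTails` in `Spec1.lean` for the proof.
-/

set_option autoImplicit false

namespace Pool.Agent.Clz

open Finset

namespace Tailsaux

theorem markov (hB : StmtBinBasic) (n : ℕ) (z y : ℝ) (hz : 0 < z) (hy : 0 ≤ y)
    (s : Finset ℕ) (hs : s ⊆ range (n + 1)) (h : ∀ k ∈ s, 1 ≤ z ^ k * y) :
    ∑ k ∈ s, P n k ≤ ((1 + z) / 2) ^ n * y := by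
  obtain ⟨h0, -, -, -, -, -, -, -, h9⟩ := hB
  rw [← h9 n z, sum_mul]
  calc ∑ k ∈ s, P n k ≤ ∑ k ∈ s, P n k * z ^ k * y := by
        apply sum_le_sum
        intro k hk
        have h1 := mul_le_mul_of_nonneg_left (h k hk) (h0 n k)
        rw [mul_one, ← mul_assoc] at h1
        exact h1
    _ ≤ ∑ k ∈ range (n + 1), P n k * z ^ k * y := by
        apply sum_le_sum_of_subset_of_nonneg hs
        intro k _ _
        have := h0 n k
        positivity

theorem upper (hB : StmtBinBasic) (m τ : ℕ) (h2 : 5 * τ ≤ 4 * m + 5) :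
    ∑ k ∈ (range (2 * τ + 1)).filter (fun k : ℕ => 9 * m < 10 * k), P (2 * τ) k ≤
      (23 / 20) ^ 2 * (99 / 100 : ℝ) ^ m := by
  set k0 := 9 * m / 10 + 1 with hk0
  have h1 := markov hB (2 * τ) (13 / 10) ((10 / 13) ^ k0) (by norm_num) (by positivity)
    ((range (2 * τ + 1)).filter (fun k : ℕ => 9 * m < 10 * k)) (filter_subset _ _) (by
      intro k hk
      rw [mem_filter] at hk
      have hk1 : k0 ≤ k := by omega
      obtain ⟨j, rfl⟩ := Nat.exists_eq_add_of_le hk1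
      rw [pow_add, mul_right_comm, ← mul_pow]
      norm_num
      exact one_le_pow₀ (by norm_num))
  refine h1.trans ?_
  have h3 : (1 + 13 / 10 : ℝ) / 2 = 23 / 20 := by norm_num
  rw [h3]
  rw [← pow_le_pow_iff_left₀ (by positivity) (by positivity) (show (10 : ℕ) ≠ 0 by norm_num)]
  have h4 : ((23 / 20 : ℝ) ^ (2 * τ)) ^ 10 ≤ (23 / 20) ^ (16 * m + 20) := by
    rw [← pow_mul]
    exact pow_le_pow_right₀ (by norm_num) (by omega)
  have h5 : ((10 / 13 : ℝ) ^ k0) ^ 10 ≤ (10 / 13) ^ (9 * m) := by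
    rw [← pow_mul]
    exact pow_le_pow_of_le_one (by norm_num) (by norm_num) (by omega)
  calc ((23 / 20 : ℝ) ^ (2 * τ) * (10 / 13) ^ k0) ^ 10
      = ((23 / 20 : ℝ) ^ (2 * τ)) ^ 10 * ((10 / 13) ^ k0) ^ 10 := by rw [mul_pow]
    _ ≤ (23 / 20) ^ (16 * m + 20) * (10 / 13) ^ (9 * m) := by gcongr
    _ = (23 / 20) ^ 20 * (((23 / 20) ^ 16 * (10 / 13) ^ 9) ^ m) := by
        rw [pow_add, pow_mul, pow_mul, mul_pow]
        ring
    _ ≤ (23 / 20) ^ 20 * (((99 / 100 : ℝ) ^ 10) ^ m) := by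
        apply mul_le_mul_of_nonneg_left _ (by positivity)
        apply pow_le_pow_left₀ (by positivity)
        norm_num
    _ = ((23 / 20) ^ 2 * (99 / 100 : ℝ) ^ m) ^ 10 := by
        rw [mul_pow, ← pow_mul, ← pow_mul, ← pow_mul, mul_comm 10 m]

theorem lower (hB : StmtBinBasic) (m τ : ℕ) (h1 : 4 * m ≤ 5 * τ) :
    ∑ k ∈ (range (2 * τ + 1)).filter (fun k : ℕ => 10 * k < 3 * m), P (2 * τ) k ≤
      (99 / 100 : ℝ) ^ m := by
  set k1 := 3 * m / 10 with hk1
  have h2 := markov hB (2 * τ) (3 / 10) ((10 / 3) ^ k1) (by norm_num) (by positivity)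
    ((range (2 * τ + 1)).filter (fun k : ℕ => 10 * k < 3 * m)) (filter_subset _ _) (by
      intro k hk
      rw [mem_filter] at hk
      have hk2 : k ≤ k1 := by omega
      obtain ⟨j, hj⟩ := Nat.exists_eq_add_of_le hk2
      rw [hj, pow_add, ← mul_assoc, ← mul_pow]
      norm_num
      exact one_le_pow₀ (by norm_num))
  refine h2.trans ?_
  have h3 : (1 + 3 / 10 : ℝ) / 2 = 13 / 20 := by norm_num
  rw [h3]
  rw [← pow_le_pow_iff_left₀ (by positivity) (by positivity) (show (10 : ℕ) ≠ 0 by norm_num)]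
  have h4 : ((13 / 20 : ℝ) ^ (2 * τ)) ^ 10 ≤ (13 / 20) ^ (16 * m) := by
    rw [← pow_mul]
    exact pow_le_pow_of_le_one (by norm_num) (by norm_num) (by omega)
  have h5 : ((10 / 3 : ℝ) ^ k1) ^ 10 ≤ (10 / 3) ^ (3 * m) := by
    rw [← pow_mul]
    exact pow_le_pow_right₀ (by norm_num) (by omega)
  calc ((13 / 20 : ℝ) ^ (2 * τ) * (10 / 3) ^ k1) ^ 10
      = ((13 / 20 : ℝ) ^ (2 * τ)) ^ 10 * ((10 / 3) ^ k1) ^ 10 := by rw [mul_pow]
    _ ≤ (13 / 20) ^ (16 * m) * (10 / 3) ^ (3 * m) := by gcongr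
    _ = (((13 / 20) ^ 16 * (10 / 3) ^ 3) ^ m) := by
        rw [pow_mul, pow_mul, mul_pow]
    _ ≤ (((99 / 100 : ℝ) ^ 10) ^ m) := by
        apply pow_le_pow_left₀ (by positivity)
        norm_num
    _ = ((99 / 100 : ℝ) ^ m) ^ 10 := by
        rw [← pow_mul, ← pow_mul, mul_comm 10 m]

end Tailsaux

open Tailsaux in
theorem stmtTails (hBinBasic : StmtBinBasic) : StmtTails := by
  refine ⟨(23 / 20) ^ 2 + 1, 99 / 100, by norm_num, by norm_num, ?_⟩
  intro m τ h1 h2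
  have h3 := upper hBinBasic m τ h2
  have h4 := lower hBinBasic m τ h1
  have h0 := hBinBasic.1
  have h5 : ∑ k ∈ (range (2 * τ + 1)).filter
      (fun k : ℕ => ¬ (m ≤ 10 * (m - k) ∧ 10 * (m - k) ≤ 7 * m)), P (2 * τ) k ≤
      ∑ k ∈ (range (2 * τ + 1)).filter (fun k : ℕ => 9 * m < 10 * k), P (2 * τ) k +
      ∑ k ∈ (range (2 * τ + 1)).filter (fun k : ℕ => 10 * k < 3 * m), P (2 * τ) k := by
    refine le_trans (sum_le_sum_of_subset_of_nonneg (t := (range (2 * τ + 1)).filter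
      (fun k : ℕ => 9 * m < 10 * k) ∪ (range (2 * τ + 1)).filter (fun k : ℕ => 10 * k < 3 * m))
      ?_ (fun k _ _ => h0 _ _)) ?_
    · intro k hk
      rw [mem_filter] at hk
      rw [mem_union, mem_filter, mem_filter]
      have hk2 := hk.2
      by_cases h6 : 9 * m < 10 * k
      · exact Or.inl ⟨hk.1, h6⟩
      · refine Or.inr ⟨hk.1, ?_⟩
        by_contra h7
        apply hk2
        omega
    · rw [← sum_union_inter]
      have h6 : 0 ≤ ∑ k ∈ (range (2 * τ + 1)).filter (fun k : ℕ => 9 * m < 10 * k) ∩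
          (range (2 * τ + 1)).filter (fun k : ℕ => 10 * k < 3 * m), P (2 * τ) k :=
        sum_nonneg fun k _ => h0 _ _
      linarith
  rw [add_mul, one_mul]
  linarith

end Pool.Agent.Clz
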