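import Pool.Agent.Lib.MP_5a39b1_nt.Clz.Spec2

/-!
MP_5a39b1_nt, module Tails2: exponential tail. See the docstring of `StmtTails2` in `Spec2.lean` for the proof.
-/

set_option autoImplicit false

namespace Pool.Agent.Clz

open Finset

namespace Tails2aux

lemma exp_le {n s : ℕ} (h : 4 ^ s ≤ 3 ^ n) : 200 * s ≤ 159 * n := by
  have h1 : (4 : ℕ) ^ (200 * s) ≤ 4 ^ (159 * n) := by
    calc (4 : ℕ) ^ (200 * s) = (4 ^ s) ^ 200 := by rw [← pow_mul, mul_comm]
      _ ≤ (3 ^ n) ^ 200 := Nat.pow_le_pow_left h 200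
      _ = (3 ^ 200) ^ n := by rw [← pow_mul, ← pow_mul, mul_comm]
      _ ≤ (4 ^ 159) ^ n := Nat.pow_le_pow_left (by norm_num) n
      _ = 4 ^ (159 * n) := by rw [← pow_mul]
  exact (Nat.pow_le_pow_iff_right (by norm_num)).1 h1

lemma numeric : ((21 : ℝ) / 20) ^ 159 ≤ ((998 : ℝ) / 1000) ^ 100 * ((11 : ℝ) / 10) ^ 85 := by
  norm_num

end Tails2aux

theorem stmtTails2 (hBinBasic : StmtBinBasic) : StmtTails2 := by
  obtain ⟨hP0, -, -, -, -, -, -, -, hgen⟩ := hBinBasic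
  refine ⟨1, 998 / 1000, one_pos, by norm_num, by norm_num, fun n s hs => ?_⟩
  rw [one_mul]
  have h200 := Tails2aux.exp_le hs
  set w : ℝ := ((11 : ℝ) / 10) ^ ((1 : ℝ) / 20) with hw
  have hw20 : w ^ 20 = 11 / 10 := by
    rw [hw, ← Real.rpow_natCast, ← Real.rpow_mul (by norm_num)]
    norm_num
  have hw0 : 0 < w := Real.rpow_pos_of_pos (by norm_num) _
  have hw1 : 1 ≤ w := Real.one_le_rpow (by norm_num) (by norm_num)
  set S := ∑ k ∈ (range (2 * s + 1)).filter (fun k : ℕ => 17 * n < 20 * k), P (2 * s) k with hS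
  have hS0 : 0 ≤ S := Finset.sum_nonneg (fun k _ => hP0 _ _)
  have h1 : w ^ (17 * n) * S ≤ ((21 : ℝ) / 20) ^ (2 * s) := by
    rw [hS, Finset.mul_sum]
    have h2 : ∑ k ∈ range (2 * s + 1), P (2 * s) k * ((11 : ℝ) / 10) ^ k =
        ((21 : ℝ) / 20) ^ (2 * s) := by
      rw [hgen (2 * s) (11 / 10)]
      norm_num
    rw [← h2]
    calc ∑ k ∈ (range (2 * s + 1)).filter (fun k : ℕ => 17 * n < 20 * k),
          w ^ (17 * n) * P (2 * s) k
        ≤ ∑ k ∈ (range (2 * s + 1)).filter (fun k : ℕ => 17 * n < 20 * k),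
          P (2 * s) k * ((11 : ℝ) / 10) ^ k := by
          refine Finset.sum_le_sum (fun k hk => ?_)
          rw [mul_comm]
          refine mul_le_mul_of_nonneg_left ?_ (hP0 _ _)
          rw [← hw20, ← pow_mul]
          exact pow_le_pow_right₀ hw1 (Finset.mem_filter.1 hk).2.le
      _ ≤ _ := by
          refine Finset.sum_le_sum_of_subset_of_nonneg (Finset.filter_subset _ _) (fun k _ _ => ?_)
          exact mul_nonneg (hP0 _ _) (by positivity)
  have h3 : (w ^ (17 * n) * S) ^ 100 ≤ (((21 : ℝ) / 20) ^ 159) ^ n := by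
    calc (w ^ (17 * n) * S) ^ 100 ≤ (((21 : ℝ) / 20) ^ (2 * s)) ^ 100 :=
          pow_le_pow_left₀ (by positivity) h1 100
      _ = ((21 : ℝ) / 20) ^ (200 * s) := by rw [← pow_mul]; congr 1; ring
      _ ≤ ((21 : ℝ) / 20) ^ (159 * n) := pow_le_pow_right₀ (by norm_num) h200
      _ = (((21 : ℝ) / 20) ^ 159) ^ n := by rw [← pow_mul]
  have h4 : (w ^ (17 * n)) ^ 100 = (((11 : ℝ) / 10) ^ 85) ^ n := by
    rw [← hw20, ← pow_mul, ← pow_mul, ← pow_mul]
    congr 1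
    ring
  have h5 : (((21 : ℝ) / 20) ^ 159) ^ n ≤
      (((998 : ℝ) / 1000) ^ n) ^ 100 * (((11 : ℝ) / 10) ^ 85) ^ n := by
    calc (((21 : ℝ) / 20) ^ 159) ^ n ≤ (((998 : ℝ) / 1000) ^ 100 * ((11 : ℝ) / 10) ^ 85) ^ n :=
          pow_le_pow_left₀ (by positivity) Tails2aux.numeric n
      _ = _ := by rw [mul_pow, ← pow_mul, pow_right_comm]; try ring
  have h6 : S ^ 100 ≤ (((998 : ℝ) / 1000) ^ n) ^ 100 := by
    have hpos : 0 < (((11 : ℝ) / 10) ^ 85) ^ n := by positivity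
    have h7 : (((11 : ℝ) / 10) ^ 85) ^ n * S ^ 100 ≤
        (((11 : ℝ) / 10) ^ 85) ^ n * (((998 : ℝ) / 1000) ^ n) ^ 100 := by
      rw [← h4, ← mul_pow, h4]
      refine h3.trans (h5.trans (le_of_eq (mul_comm _ _)))
    exact le_of_mul_le_mul_left h7 hpos
  exact (pow_le_pow_iff_left₀ hS0 (by positivity) (by norm_num)).1 h6

end Pool.Agent.Clz
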