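import Pool.Agent.Lib.MP_5a39b1_nt.Clz.Spec1

/-!
MP_5a39b1_nt, module ThBasic: waiting times in the abstract walk on UnitAddCircle. See the docstring of `StmtThBasic` in `Spec1.lean` for the proof.
-/

set_option autoImplicit false

namespace Pool.Agent.Clz

open Finset

namespace ThBasicaux

theorem lift (y : UnitAddCircle) : ∃ x : ℝ, (x : UnitAddCircle) = y ∧ |x| = ‖y‖ := by
  obtain ⟨x', rfl⟩ := QuotientAddGroup.mk_surjective y
  refine ⟨x' - round x', ?_, ?_⟩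
  · have h0 : (((round x' : ℤ) : ℝ) : UnitAddCircle) = 0 := by
      rw [AddCircle.coe_eq_zero_iff]
      exact ⟨round x', by simp⟩
    rw [AddCircle.coe_sub, h0, sub_zero]
  · exact (UnitAddCircle.norm_eq).symm

theorem norm4 (y : UnitAddCircle) (hy : ‖y‖ ≤ 1 / 8) : ‖(4 : ℕ) • y‖ = 4 * ‖y‖ := by
  obtain ⟨x, hx, hn⟩ := lift y
  have h1 : (4 : ℕ) • y = ((4 * x : ℝ) : UnitAddCircle) := by
    rw [← hx, ← AddCircle.coe_nsmul]
    simp
  have h2 : ‖((4 * x : ℝ) : UnitAddCircle)‖ = |4 * x| := by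
    rw [AddCircle.norm_coe_eq_abs_iff (1 : ℝ) one_ne_zero, abs_mul, hn]
    norm_num
    linarith
  rw [h1, h2, abs_mul, hn]
  norm_num

theorem black {h : Th} {m i : ℕ} (hb : ¬ white h m i) : 1 ≤ m ∧ ‖h.θ m i‖ ≤ 1 / 10 := by
  unfold white at hb
  push Not at hb
  exact ⟨Nat.one_le_iff_ne_zero.2 hb.1, hb.2⟩

theorem chain (h : Th) (m i : ℕ) (hm : m ≤ h.M0) (j : ℕ)
    (hb : ∀ l ≤ j, ¬ white h m (i + l)) : ‖h.θ m i‖ = 4 ^ j * ‖h.θ m (i + j)‖ := by
  induction j with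
  | zero => simp
  | succ j ih =>
    rw [ih (fun l hl => hb l (by omega))]
    have h1 := (black (hb (j + 1) le_rfl)).2
    have h2 := norm4 (h.θ m (i + (j + 1))) (by linarith)
    have h3 : (4 : ℕ) • h.θ m (i + (j + 1)) = h.θ m (i + j) := h.h4 m (i + j) hm
    rw [h3] at h2
    rw [h2]
    ring

theorem low (h : Th) (m i : ℕ) (hm : m ≤ h.M0) (j : ℕ)
    (hb : ∀ l ≤ j, ¬ white h m (i + l)) : (4 : ℝ) ^ j * 10 ≤ 3 ^ m := by
  have h1 := chain h m i hm j hb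
  have h2 := black (hb 0 (Nat.zero_le _))
  rw [add_zero] at h2
  have h3 := h.hlow m (i + j) h2.1 hm
  have h4 : (0 : ℝ) < 3 ^ m := by positivity
  have h5 : (0 : ℝ) < 4 ^ j := by positivity
  have h6 : (4 : ℝ) ^ j * (1 / 3) ^ m ≤ 1 / 10 := by
    calc (4 : ℝ) ^ j * (1 / 3) ^ m ≤ 4 ^ j * ‖h.θ m (i + j)‖ :=
          mul_le_mul_of_nonneg_left h3 h5.le
      _ = ‖h.θ m i‖ := h1.symm
      _ ≤ 1 / 10 := h2.2
  have h7 := mul_le_mul_of_nonneg_right h6 h4.le
  have h8 : (4 : ℝ) ^ j * (1 / 3) ^ m * 3 ^ m = 4 ^ j := by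
    rw [mul_assoc, ← mul_pow]
    norm_num
  rw [h8] at h7
  linarith

theorem ex (h : Th) (m i : ℕ) (hm : m ≤ h.M0) : ∃ j, white h m (i + j) := by
  by_contra hcon
  push Not at hcon
  have h1 := low h m i hm m (fun l _ => hcon l)
  have h2 : (3 : ℝ) ^ m ≤ 4 ^ m := pow_le_pow_left₀ (by norm_num) (by norm_num) m
  have h3 : (0 : ℝ) < 4 ^ m := by positivity
  linarith

end ThBasicaux

open ThBasicaux in
theorem stmtThBasic : StmtThBasic := by
  intro h m i hm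
  have hne : {j : ℕ | white h m (i + j)}.Nonempty := ex h m i hm
  have hw : white h m (i + dl h m i) := Nat.sInf_mem hne
  have hb : ∀ j < dl h m i, ¬ white h m (i + j) := fun j hj => Nat.notMem_of_lt_sInf hj
  have h4 : 1 ≤ dl h m i → 4 ^ dl h m i ≤ 3 ^ m := by
    intro h1
    obtain ⟨j, hj⟩ : ∃ j, dl h m i = j + 1 := ⟨dl h m i - 1, by omega⟩
    have h2 := low h m i hm j (fun l hl => hb l (by omega))
    rw [hj]
    have h3 : (4 : ℝ) ^ (j + 1) ≤ 3 ^ m := by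
      rw [pow_succ]
      have : (0 : ℝ) < 4 ^ j := by positivity
      linarith
    exact_mod_cast h3
  refine ⟨hw, ?_, ?_, h4⟩
  · intro j hj
    exact ⟨hb j hj, (black (hb j hj)).2, chain h m i hm j (fun l hl => hb l (by omega))⟩
  · rcases Nat.eq_zero_or_pos (dl h m i) with h0 | h0
    · rw [h0]
      have : 1 ≤ 3 ^ m := Nat.one_le_pow _ _ (by norm_num)
      omega
    · have := h4 h0
      omega

end Pool.Agent.Clz
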