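import Pool.Agent.Lib.MP_5a39b1_nt.Clz.Spec1

/-!
MP_5a39b1_nt, module VBasic: elementary properties of V, X, Qop. See the docstring of `StmtVBasic` in `Spec1.lean` for the proof.
-/

set_option autoImplicit false

namespace Pool.Agent.Clz

open Finset

namespace VBasicaux

theorem qq_nonneg : 0 ≤ qq := by
  refine Real.cos_nonneg_of_neg_pi_div_two_le_of_le ?_ ?_ <;> linarith [Real.pi_pos]

theorem qq_le_one : qq ≤ 1 := Real.cos_le_one _

theorem ite_bd (p : Prop) [Decidable p] :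
    0 ≤ (if p then qq else 1) ∧ (if p then qq else (1 : ℝ)) ≤ 1 := by
  split_ifs
  · exact ⟨qq_nonneg, qq_le_one⟩
  · exact ⟨zero_le_one, le_refl _⟩

open Classical in
theorem V_succ (h : Th) (τ m i : ℕ) : V h (τ + 1) m i = (1 / 4) * V h τ m (i + 1)
      + (1 / 2) * (if white h m i then qq else 1) * V h τ (m - 1) (i + 1)
      + (1 / 4) * V h τ (m - 2) (i + 1) := rfl

theorem X_zero (h : Th) (m i : ℕ) : X h 0 m i = 1 := by
  cases m <;> rfl

theorem X_col (h : Th) (τ i : ℕ) : X h τ 0 i = 1 := by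
  cases τ <;> rfl

open Classical in
theorem X_succ (h : Th) (τ m i : ℕ) : X h (τ + 1) (m + 1) i = (1 / 4) * X h τ (m + 1) (i + 1)
      + (1 / 2) * (if (1 / 10 : ℝ) < ‖h.θ (m + 1) i‖ then qq else 1) * X h τ m (i + 1)
      + (1 / 4) * X h τ (m - 1) (i + 1) := rfl

/-- convexity: the combination lies in `[0, 1]` -/
theorem comb_bd {w x y z : ℝ} (hw : 0 ≤ w ∧ w ≤ 1) (hx : 0 ≤ x ∧ x ≤ 1) (hy : 0 ≤ y ∧ y ≤ 1)
    (hz : 0 ≤ z ∧ z ≤ 1) :
    0 ≤ (1 / 4) * x + (1 / 2) * w * y + (1 / 4) * z ∧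
      (1 / 4) * x + (1 / 2) * w * y + (1 / 4) * z ≤ 1 := by
  have h1 : 0 ≤ w * y := mul_nonneg hw.1 hy.1
  have h2 : w * y ≤ 1 := by
    calc w * y ≤ 1 * 1 := mul_le_mul hw.2 hy.2 hy.1 zero_le_one
      _ = 1 := one_mul _
  constructor
  · nlinarith [hx.1, hz.1]
  · nlinarith [hx.2, hz.2]

theorem comb_mono {w x y z x' y' z' : ℝ} (hw : 0 ≤ w) (hx : x ≤ x') (hy : y ≤ y')
    (hz : z ≤ z') :
    (1 / 4) * x + (1 / 2) * w * y + (1 / 4) * z ≤
      (1 / 4) * x' + (1 / 2) * w * y' + (1 / 4) * z' := by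
  have h1 : w * y ≤ w * y' := mul_le_mul_of_nonneg_left hy hw
  nlinarith

theorem V_bd (h : Th) (τ : ℕ) : ∀ m i : ℕ, 0 ≤ V h τ m i ∧ V h τ m i ≤ 1 := by
  classical
  induction τ with
  | zero => intro m i; exact ⟨zero_le_one, le_refl _⟩
  | succ τ ih =>
    intro m i
    rw [V_succ]
    exact comb_bd (ite_bd _) (ih _ _) (ih _ _) (ih _ _)

theorem X_bd (h : Th) (τ : ℕ) : ∀ m i : ℕ, 0 ≤ X h τ m i ∧ X h τ m i ≤ 1 := by
  classical
  induction τ with
  | zero => intro m i; rw [X_zero]; exact ⟨zero_le_one, le_refl _⟩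
  | succ τ ih =>
    intro m i
    cases m with
    | zero => rw [X_col]; exact ⟨zero_le_one, le_refl _⟩
    | succ m =>
      rw [X_succ]
      exact comb_bd (ite_bd _) (ih _ _) (ih _ _) (ih _ _)

theorem V_step (h : Th) (τ : ℕ) : ∀ m i : ℕ, V h (τ + 1) m i ≤ V h τ m i := by
  classical
  induction τ with
  | zero => intro m i; exact (V_bd h 1 m i).2
  | succ τ ih =>
    intro m i
    rw [V_succ h (τ + 1) m i, V_succ h τ m i]
    exact comb_mono (ite_bd _).1 (ih _ _) (ih _ _) (ih _ _)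

theorem X_step (h : Th) (τ : ℕ) : ∀ m i : ℕ, X h (τ + 1) m i ≤ X h τ m i := by
  classical
  induction τ with
  | zero => intro m i; rw [X_zero]; exact (X_bd h 1 m i).2
  | succ τ ih =>
    intro m i
    cases m with
    | zero => rw [X_col, X_col]
    | succ m =>
      rw [X_succ h (τ + 1) m i, X_succ h τ m i]
      exact comb_mono (ite_bd _).1 (ih _ _) (ih _ _) (ih _ _)

theorem V_anti (h : Th) (m i : ℕ) : Antitone (fun τ => V h τ m i) :=
  antitone_nat_of_succ_le fun τ => V_step h τ m i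

theorem X_anti (h : Th) (m i : ℕ) : Antitone (fun τ => X h τ m i) :=
  antitone_nat_of_succ_le fun τ => X_step h τ m i

theorem pascal2 (hB : StmtBinBasic) (n : ℕ) (k : ℤ) :
    P (n + 2) k = (1 / 4) * P n k + (1 / 2) * P n (k - 1) + (1 / 4) * P n (k - 2) := by
  obtain ⟨-, -, -, hP, -⟩ := hB
  rw [hP (n + 1) k, hP n k, hP n (k - 1)]
  have e : k - 1 - 1 = k - 2 := by ring
  rw [e]
  ring

theorem Qop_succ (hB : StmtBinBasic) (f : ℕ → ℕ → ℝ) (e m i : ℕ) : Qop (e + 1) f m i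
      = (1 / 4) * Qop e f m (i + 1) + (1 / 2) * Qop e f (m - 1) (i + 1)
        + (1 / 4) * Qop e f (m - 2) (i + 1) := by
  have hsupp : ∀ (k : ℤ), (k < 0 ∨ ((2 * e : ℕ) : ℤ) < k) → P (2 * e) k = 0 :=
    hB.2.1 (2 * e)
  have e1 : Qop (e + 1) f m i = ∑ k ∈ range (2 * e + 3),
      ((1 / 4) * P (2 * e) (k : ℤ) + (1 / 2) * P (2 * e) ((k : ℤ) - 1)
        + (1 / 4) * P (2 * e) ((k : ℤ) - 2)) * f (m - k) (i + (e + 1)) := by
    unfold Qop
    refine Finset.sum_congr (by rw [show 2 * (e + 1) + 1 = 2 * e + 3 by ring]) fun k _ => ?_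
    rw [show 2 * (e + 1) = 2 * e + 2 by ring, pascal2 hB]
  have ei : i + (e + 1) = i + 1 + e := by ring
  have s0 : ∑ k ∈ range (2 * e + 3), P (2 * e) (k : ℤ) * f (m - k) (i + 1 + e)
      = Qop e f m (i + 1) := by
    unfold Qop
    rw [Finset.sum_range_succ, Finset.sum_range_succ]
    rw [hsupp ((2 * e + 1 : ℕ) : ℤ) (Or.inr (by push_cast; linarith)),
      hsupp ((2 * e + 2 : ℕ) : ℤ) (Or.inr (by push_cast; linarith))]
    ring
  have s1 : ∑ k ∈ range (2 * e + 3), P (2 * e) ((k : ℤ) - 1) * f (m - k) (i + 1 + e)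
      = Qop e f (m - 1) (i + 1) := by
    unfold Qop
    rw [Finset.sum_range_succ', Finset.sum_range_succ]
    rw [hsupp (((2 * e + 1 + 1 : ℕ) : ℤ) - 1) (Or.inr (by push_cast; linarith)),
      hsupp (((0 : ℕ) : ℤ) - 1) (Or.inl (by norm_num))]
    rw [zero_mul, zero_mul, add_zero, add_zero]
    refine Finset.sum_congr rfl fun k _ => ?_
    have ek : (((k + 1 : ℕ) : ℤ)) - 1 = (k : ℤ) := by push_cast; ring
    have em : m - (k + 1) = m - 1 - k := by omega
    rw [ek, em]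
  have s2 : ∑ k ∈ range (2 * e + 3), P (2 * e) ((k : ℤ) - 2) * f (m - k) (i + 1 + e)
      = Qop e f (m - 2) (i + 1) := by
    unfold Qop
    rw [Finset.sum_range_succ', Finset.sum_range_succ']
    rw [hsupp (((0 : ℕ) : ℤ) - 2) (Or.inl (by norm_num)),
      hsupp (((0 + 1 : ℕ) : ℤ) - 2) (Or.inl (by norm_num))]
    rw [zero_mul, zero_mul, add_zero, add_zero]
    refine Finset.sum_congr rfl fun k _ => ?_
    have ek : (((k + 1 + 1 : ℕ) : ℤ)) - 2 = (k : ℤ) := by push_cast; ring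
    have em : m - (k + 1 + 1) = m - 2 - k := by omega
    rw [ek, em]
  rw [e1, ei, ← s0, ← s1, ← s2, Finset.mul_sum, Finset.mul_sum, Finset.mul_sum,
    ← Finset.sum_add_distrib, ← Finset.sum_add_distrib]
  refine Finset.sum_congr rfl fun k _ => ?_
  ring

theorem Qop_zero (hB : StmtBinBasic) (f : ℕ → ℕ → ℝ) (m i : ℕ) : Qop 0 f m i = f m i := by
  have h0 : P 0 (0 : ℤ) = 1 := by
    have := hB.2.2.1 0
    rwa [if_pos rfl] at this
  unfold Qop
  simp [h0]

theorem V_le_Qop (hB : StmtBinBasic) (h : Th) (τ e : ℕ) :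
    ∀ m i : ℕ, V h (e + τ) m i ≤ Qop e (V h τ) m i := by
  classical
  induction e with
  | zero =>
    intro m i
    rw [Nat.zero_add, Qop_zero hB]
  | succ e ih =>
    intro m i
    rw [show e + 1 + τ = (e + τ) + 1 by ring, V_succ, Qop_succ hB]
    have h1 := ih m (i + 1)
    have h2 := ih (m - 1) (i + 1)
    have h3 := ih (m - 2) (i + 1)
    have hw := ite_bd (white h m i)
    have h4 := (V_bd h (e + τ) (m - 1) (i + 1)).1
    have h5 : (if white h m i then qq else 1) * V h (e + τ) (m - 1) (i + 1)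
        ≤ V h (e + τ) (m - 1) (i + 1) := by
      calc (if white h m i then qq else 1) * V h (e + τ) (m - 1) (i + 1)
          ≤ 1 * V h (e + τ) (m - 1) (i + 1) := mul_le_mul_of_nonneg_right hw.2 h4
        _ = _ := one_mul _
    rw [mul_assoc]
    linarith

end VBasicaux

theorem stmtVBasic (hBinBasic : StmtBinBasic) : StmtVBasic := by
  refine ⟨fun h τ m i => VBasicaux.V_bd h τ m i, fun h τ m i => VBasicaux.X_bd h τ m i,
    fun h τ τ' m i hle => VBasicaux.V_anti h m i hle,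
    fun h τ τ' m i hle => VBasicaux.X_anti h m i hle,
    fun f e m i => VBasicaux.Qop_succ hBinBasic f e m i,
    fun h e τ m i => VBasicaux.V_le_Qop hBinBasic h τ e m i⟩

end Pool.Agent.Clz
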