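import Pool.Agent.Lib.MP_5a39b1_nt.Clz.Spec2

/-!
MP_5a39b1_nt, module Words: words and preimages: composition, surjectivity, uniqueness. See the docstring of `StmtWords` in `Spec2.lean` for the proof.
-/

set_option autoImplicit false

namespace Pool.Agent.Clz

open Finset

namespace Wordsaux

theorem copr (n k : ℕ) : IsCoprime ((3 : ℤ) ^ k) ((4 : ℤ) ^ n) :=
  IsCoprime.pow (by norm_num)

theorem comp (g g' : List (Fin 4)) (M : ℤ) :
    4 ^ (g ++ g').length * M - FF (g ++ g') =
      4 ^ g'.length * (4 ^ g.length * M - FF g) - 3 ^ kap g * FF g' := by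
  rw [List.length_append, FF_append, pow_add]
  ring

theorem valid_left {g g' : List (Fin 4)} {M : ℤ} (h : valid (g ++ g') M) : valid g M := by
  unfold valid at *
  rw [comp, kap_append, pow_add] at h
  have h1 : (3 : ℤ) ^ kap g ∣ 4 ^ g'.length * (4 ^ g.length * M - FF g) - 3 ^ kap g * FF g' :=
    (Dvd.intro _ rfl).trans h
  have h2 : (3 : ℤ) ^ kap g ∣ 4 ^ g'.length * (4 ^ g.length * M - FF g) := by
    have := dvd_add h1 (Dvd.intro (FF g') rfl : (3 : ℤ) ^ kap g ∣ 3 ^ kap g * FF g')
    rwa [sub_add_cancel] at this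
  exact (copr g'.length (kap g)).dvd_of_dvd_mul_left h2

theorem nz_spec {g : List (Fin 4)} {M : ℤ} (h : valid g M) :
    4 ^ g.length * M - FF g = 3 ^ kap g * Nz g M := by
  unfold Nz
  rw [Int.mul_ediv_cancel' h]

theorem comp2 {g : List (Fin 4)} (g' : List (Fin 4)) {M : ℤ} (h : valid g M) :
    4 ^ (g ++ g').length * M - FF (g ++ g') =
      3 ^ kap g * (4 ^ g'.length * Nz g M - FF g') := by
  rw [comp, nz_spec h]
  ring

theorem valid_append (g g' : List (Fin 4)) (M : ℤ) :
    valid (g ++ g') M ↔ (valid g M ∧ valid g' (Nz g M)) := by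
  have h3 : (3 : ℤ) ^ kap g ≠ 0 := by positivity
  constructor
  · intro h
    have h1 := valid_left h
    refine ⟨h1, ?_⟩
    unfold valid at h
    rw [comp2 g' h1, kap_append, pow_add] at h
    exact (mul_dvd_mul_iff_left h3).mp h
  · rintro ⟨h1, h2⟩
    unfold valid
    rw [comp2 g' h1, kap_append, pow_add]
    exact (mul_dvd_mul_iff_left h3).mpr h2

theorem nz_append (g g' : List (Fin 4)) (M : ℤ) (h : valid g M) :
    Nz (g ++ g') M = Nz g' (Nz g M) := by
  conv_lhs => unfold Nz
  rw [comp2 g' h, kap_append, pow_add]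
  rw [Int.mul_ediv_mul_of_pos _ _ (by positivity : (0 : ℤ) < 3 ^ kap g)]
  rfl

theorem eq_one (c : Fin 4) {M N : ℤ} (h : valid [c] M) (hN : Nz [c] M = N) :
    3 ^ kap1 c * N = 4 * M - F1 c := by
  have := nz_spec h
  rw [hN] at this
  simp only [List.length_singleton, pow_one, FF_cons, List.length_nil, pow_zero, one_mul,
    FF_nil, mul_zero, add_zero, kap_cons, kap_nil] at this
  exact this.symm

theorem of_eq_one (c : Fin 4) {M N : ℤ} (h : 3 ^ kap1 c * N = 4 * M - F1 c) :
    valid [c] M ∧ Nz [c] M = N := by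
  have h1 : 4 ^ ([c] : List (Fin 4)).length * M - FF [c] = 3 ^ kap [c] * N := by
    simp only [List.length_singleton, pow_one, FF_cons, List.length_nil, pow_zero, one_mul,
      FF_nil, mul_zero, add_zero, kap_cons, kap_nil]
    exact h.symm
  refine ⟨?_, ?_⟩
  · unfold valid
    rw [h1]
    exact Dvd.intro _ rfl
  · unfold Nz
    rw [h1]
    exact Int.mul_ediv_cancel_left _ (by positivity)

theorem T2_one (c : Fin 4) {M N : ℤ} (h : 3 ^ kap1 c * N = 4 * M - F1 c) : T (T N) = M := by
  unfold T
  fin_cases c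
  · simp [kap1, F1] at h
    split_ifs <;> omega
  · simp [kap1, F1] at h
    split_ifs <;> omega
  · simp [kap1, F1] at h
    split_ifs <;> omega
  · simp [kap1, F1] at h
    split_ifs <;> omega

theorem surj_one (N : ℤ) : ∃ c : Fin 4, 3 ^ kap1 c * N = 4 * T (T N) - F1 c := by
  unfold T
  by_cases h1 : N % 2 = 0
  · by_cases h2 : N / 2 % 2 = 0
    · refine ⟨0, ?_⟩
      rw [if_pos h1, if_pos h2]
      simp [kap1, F1]
      omega
    · refine ⟨2, ?_⟩
      rw [if_pos h1, if_neg h2]
      simp [kap1, F1]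
      omega
  · by_cases h2 : (3 * N + 1) / 2 % 2 = 0
    · refine ⟨1, ?_⟩
      rw [if_neg h1, if_pos h2]
      simp [kap1, F1]
      omega
    · refine ⟨3, ?_⟩
      rw [if_neg h1, if_neg h2]
      simp [kap1, F1]
      omega

theorem uniq_one (c c' : Fin 4) {M M' N : ℤ} (h : 3 ^ kap1 c * N = 4 * M - F1 c)
    (h' : 3 ^ kap1 c' * N = 4 * M' - F1 c') : c = c' := by
  fin_cases c <;> fin_cases c' <;> first | rfl | (simp [kap1, F1] at h h'; omega)

theorem iter (g : List (Fin 4)) : ∀ M : ℤ, valid g M → T^[2 * g.length] (Nz g M) = M := by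
  induction g with
  | nil =>
    intro M _
    simp [Nz]
  | cons c g ih =>
    intro M hM
    have h0 : c :: g = [c] ++ g := rfl
    rw [h0] at hM ⊢
    obtain ⟨h1, h2⟩ := (valid_append [c] g M).mp hM
    rw [nz_append [c] g M h1]
    have h3 := ih _ h2
    have h4 : 2 * ([c] ++ g).length = 2 + 2 * g.length := by
      rw [List.length_append, List.length_singleton]
      ring
    rw [h4, Function.iterate_add_apply, h3]
    exact T2_one c (eq_one c h1 rfl)

theorem surj (t : ℕ) : ∀ N : ℤ, ∃ g : List (Fin 4), g.length = t ∧ valid g (T^[2 * t] N) ∧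
    Nz g (T^[2 * t] N) = N := by
  induction t with
  | zero =>
    intro N
    exact ⟨[], rfl, by simp [valid], by simp [Nz]⟩
  | succ t ih =>
    intro N
    obtain ⟨c, hc⟩ := surj_one N
    obtain ⟨h1, h2⟩ := of_eq_one c hc
    obtain ⟨g, hg, hg1, hg2⟩ := ih (T (T N))
    have h3 : T^[2 * (t + 1)] N = T^[2 * t] (T (T N)) := by
      rw [show 2 * (t + 1) = 2 * t + 2 by ring, Function.iterate_add_apply]
      rfl
    refine ⟨g ++ [c], by simp [hg], ?_, ?_⟩
    · rw [h3, valid_append]
      exact ⟨hg1, by rw [hg2]; exact h1⟩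
    · rw [h3, nz_append _ _ _ hg1, hg2, h2]

theorem uniq (g : List (Fin 4)) : ∀ (g' : List (Fin 4)) (M M' : ℤ), g.length = g'.length →
    valid g M → valid g' M' → Nz g M = Nz g' M' → g = g' := by
  induction g using List.reverseRecOn with
  | nil =>
    intro g' M M' hl _ _ _
    exact (List.length_eq_zero_iff.mp hl.symm).symm
  | append_singleton h c ih =>
    intro g' M M' hl hv hv' hN
    rcases List.eq_nil_or_concat' g' with rfl | ⟨h', c', rfl⟩
    · simp at hl
    · obtain ⟨h1, h2⟩ := (valid_append h [c] M).mp hv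
      obtain ⟨h1', h2'⟩ := (valid_append h' [c'] M').mp hv'
      rw [nz_append _ _ _ h1, nz_append _ _ _ h1'] at hN
      have e1 := eq_one c h2 hN
      have e2 := eq_one c' h2' rfl
      have hcc := uniq_one c c' e1 e2
      subst hcc
      have hA : Nz h M = Nz h' M' := by
        have : 4 * Nz h M - F1 c = 4 * Nz h' M' - F1 c := e1.symm.trans e2
        omega
      have hll : h.length = h'.length := by
        simpa using hl
      rw [ih h' M M' hll h1 h1' hA]

theorem exists_valid (g : List (Fin 4)) : ∃ M : ℤ, valid g M := by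
  obtain ⟨a, b, hab⟩ := copr g.length (kap g)
  refine ⟨b * FF g, ?_⟩
  unfold valid
  refine ⟨-a * FF g, ?_⟩
  linear_combination (FF g) * hab

end Wordsaux

open Wordsaux

theorem stmtWords : StmtWords := by
  refine ⟨iter, valid_append, nz_append, surj, ?_, ?_, ?_, ?_⟩
  · intro g g' M M' hl hv hv' hN
    have h1 := uniq g g' M M' hl hv hv' hN
    refine ⟨h1, ?_⟩
    subst h1
    rw [← iter g M hv, hN, iter g M' hv']
  · intro g g' hl hk hF
    obtain ⟨M, hM⟩ := exists_valid g
    have hM' : valid g' M := by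
      unfold valid at hM ⊢
      rw [← hl, ← hk, ← hF]
      exact hM
    refine uniq g g' M M hl hM hM' ?_
    unfold Nz
    rw [hl, hk, hF]
  · intro g g' z hv
    have hiff := valid_append g g' z
    unfold kerF
    by_cases h : valid g' (Nz g z)
    · have h2 : valid (g ++ g') z := hiff.mpr ⟨hv, h⟩
      unfold valid at h h2
      rw [if_pos h, if_pos h2, kap_append, pow_add]
    · have h2 : ¬ valid (g ++ g') z := fun h3 => h (hiff.mp h3).2
      unfold valid at h h2
      rw [if_neg h, if_neg h2, mul_zero]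
  · intro g g' z hv
    have h2 : ¬ valid (g ++ g') z := fun h3 => hv (valid_left h3)
    unfold kerF
    unfold valid at h2
    rw [if_neg h2]

end Pool.Agent.Clz
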