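import Pool.Agent.Lib.MP_5a39b1_nt.Clz.Spec1

/-!
MP_5a39b1_nt, module XPoly: polynomial decay of X by strong induction. See the docstring of `StmtXPoly` in `Spec1.lean` for the proof.
-/

set_option autoImplicit false

namespace Pool.Agent.Clz

open Finset

namespace XPolyaux

theorem bounded (A : ℕ) {ρ : ℝ} (h0 : 0 < ρ) (h1 : ρ < 1) :
    ∃ K : ℝ, 0 ≤ K ∧ ∀ m : ℕ, (m : ℝ) ^ A * ρ ^ m ≤ K := by
  have ht := tendsto_pow_const_mul_const_pow_of_lt_one A h0.le h1
  obtain ⟨K, hK⟩ := ht.bddAbove_range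
  refine ⟨K, ?_, fun m => hK ⟨m, rfl⟩⟩
  have h2 : (0 : ℝ) ≤ ((0 : ℕ) : ℝ) ^ A * ρ ^ 0 := by positivity
  exact h2.trans (hK ⟨0, rfl⟩)

end XPolyaux

theorem stmtXPoly (hVBasic : StmtVBasic) (hScale : StmtScale) (hXStep : StmtXStep) (hTails : StmtTails) : StmtXPoly := by
  intro A
  obtain ⟨m₁, hm₁⟩ := hScale (1 / (4 * 10 ^ A)) (by positivity)
  obtain ⟨C1, ρ, hρ0, hρ1, hT⟩ := hTails
  obtain ⟨K, hK0, hK⟩ := XPolyaux.bounded A hρ0 hρ1
  set m2 : ℕ := max m₁ 10 with hm2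
  set C : ℝ := (m2 : ℝ) ^ A + 2 * |C1| * K + 1 with hC
  have hCK : 0 ≤ 2 * |C1| * K := by positivity
  have hm2A : 0 ≤ (m2 : ℝ) ^ A := by positivity
  have hCpos : 0 < C := by linarith
  refine ⟨C, hCpos, ?_⟩
  intro h m
  induction m using Nat.strong_induction_on with
  | _ m ih =>
  intro i T hm hM hmT
  have hmpos : (0 : ℝ) < m := by exact_mod_cast hm
  have hmA : (0 : ℝ) < (m : ℝ) ^ A := by positivity
  by_cases hsmall : m < m2
  · have h1 : X h T m i ≤ 1 := (hVBasic.2.1 h T m i).2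
    refine h1.trans ?_
    rw [le_div_iff₀ hmA, one_mul]
    have h2 : (m : ℝ) ^ A ≤ (m2 : ℝ) ^ A := by
      apply pow_le_pow_left₀ hmpos.le
      exact_mod_cast hsmall.le
    linarith
  · push Not at hsmall
    have hmm₁ : m₁ ≤ m := (le_max_left _ _).trans hsmall
    have hm10 : 10 ≤ m := (le_max_right _ _).trans hsmall
    obtain ⟨τ, hτ1, hτ2⟩ : ∃ τ : ℕ, 4 * m ≤ 5 * τ ∧ 5 * τ ≤ 4 * m + 4 :=
      ⟨(4 * m + 4) / 5, by omega, by omega⟩
    obtain ⟨T', hT'⟩ : ∃ T', T = τ + T' := ⟨T - τ, by omega⟩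
    set B : ℝ := C * 10 ^ A / (m : ℝ) ^ A with hB
    have hB0 : 0 ≤ B := by positivity
    have hstep := hXStep h ((m + 9) / 10) (7 * m / 10) T' B (by omega) hB0 ?_ τ m i
    · have hV := hm₁ h m i τ hmm₁ hM hτ1
      have hTl := hT m τ hτ1 (by omega)
      have hfil : (range (2 * τ + 1)).filter
          (fun k : ℕ => ¬ ((m + 9) / 10 ≤ m - k ∧ m - k ≤ 7 * m / 10)) =
          (range (2 * τ + 1)).filter
          (fun k : ℕ => ¬ (m ≤ 10 * (m - k) ∧ 10 * (m - k) ≤ 7 * m)) := by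
        refine Finset.filter_congr fun k _ => ?_
        apply not_congr
        constructor
        · rintro ⟨h1, h2⟩
          constructor <;> omega
        · rintro ⟨h1, h2⟩
          constructor <;> omega
      have e0 : ∑ k ∈ (range (2 * τ + 1)).filter
          (fun k : ℕ => ¬ ((m + 9) / 10 ≤ m - k ∧ m - k ≤ 7 * m / 10)), P (2 * τ) k =
          ∑ k ∈ (range (2 * τ + 1)).filter
          (fun k : ℕ => ¬ (m ≤ 10 * (m - k) ∧ 10 * (m - k) ≤ 7 * m)), P (2 * τ) k :=
        Finset.sum_congr hfil fun _ _ => rfl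
      have h1 : B * V h τ m i ≤ (C / 4) / (m : ℝ) ^ A := by
        calc B * V h τ m i ≤ B * (1 / (4 * 10 ^ A)) := mul_le_mul_of_nonneg_left hV hB0
          _ = (C / 4) / (m : ℝ) ^ A := by
            rw [hB]
            field_simp
      have h2 : C1 * ρ ^ m ≤ (C / 2) / (m : ℝ) ^ A := by
        have h3 : C1 * ρ ^ m ≤ |C1| * ρ ^ m :=
          mul_le_mul_of_nonneg_right (le_abs_self _) (by positivity)
        refine h3.trans ?_
        rw [le_div_iff₀ hmA]
        have h4 := hK m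
        have h5 : |C1| * ((m : ℝ) ^ A * ρ ^ m) ≤ |C1| * K :=
          mul_le_mul_of_nonneg_left h4 (abs_nonneg _)
        have h6 : |C1| * ρ ^ m * (m : ℝ) ^ A = |C1| * ((m : ℝ) ^ A * ρ ^ m) := by ring
        rw [h6]
        linarith
      rw [hT']
      calc X h (τ + T') m i ≤ _ := hstep
        _ ≤ (C / 4) / (m : ℝ) ^ A + (C / 2) / (m : ℝ) ^ A :=
          add_le_add h1 ((le_of_eq e0).trans (hTl.trans h2))
        _ ≤ C / (m : ℝ) ^ A := by
          rw [← add_div]
          apply div_le_div_of_nonneg_right _ hmA.le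
          linarith
    · intro m' i' hlo hhi
      have hm'1 : 1 ≤ m' := by omega
      have hlt : m' < m := by omega
      have h1 := ih m' hlt i' T' hm'1 (by omega) (by omega)
      refine h1.trans ?_
      have hm'pos : (0 : ℝ) < m' := by exact_mod_cast hm'1
      have h10 : (m : ℝ) ≤ 10 * m' := by
        have : m ≤ 10 * m' := by omega
        exact_mod_cast this
      have h11 : (m : ℝ) ^ A ≤ 10 ^ A * (m' : ℝ) ^ A := by
        rw [← mul_pow]
        exact pow_le_pow_left₀ hmpos.le h10 A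
      rw [hB, div_le_div_iff₀ (by positivity) hmA]
      calc C * (m : ℝ) ^ A ≤ C * (10 ^ A * (m' : ℝ) ^ A) :=
            mul_le_mul_of_nonneg_left h11 hCpos.le
        _ = C * 10 ^ A * (m' : ℝ) ^ A := by ring

end Pool.Agent.Clz
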