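import Pool.Agent.Lib.MP_5a39b1_nt.Clz.Spec1

/-!
MP_5a39b1_nt, module XStep: stage inequality for X. See the docstring of `StmtXStep` in `Spec1.lean` for the proof.
-/

set_option autoImplicit false

namespace Pool.Agent.Clz

open Finset

namespace XStepaux

/-- indicator of the complement of `[lo, hi]` -/
noncomputable def bad (lo hi : ℕ) (m _i : ℕ) : ℝ := if ¬ (lo ≤ m ∧ m ≤ hi) then 1 else 0

theorem tail_eq (lo hi τ m i : ℕ) :
    ∑ k ∈ (range (2 * τ + 1)).filter (fun k : ℕ => ¬ (lo ≤ m - k ∧ m - k ≤ hi)), P (2 * τ) k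
      = Qop τ (bad lo hi) m i := by
  unfold Qop bad
  rw [Finset.sum_filter]
  refine Finset.sum_congr rfl fun k _ => ?_
  split_ifs <;> simp

theorem qq_nonneg : 0 ≤ qq := by
  unfold qq
  apply Real.cos_nonneg_of_neg_pi_div_two_le_of_le
  · linarith [Real.pi_pos]
  · linarith [Real.pi_pos]

theorem qq_le_one : qq ≤ 1 := Real.cos_le_one _

theorem tail_nonneg (hBinBasic : StmtBinBasic) (lo hi τ m i : ℕ) :
    0 ≤ Qop τ (bad lo hi) m i := by
  unfold Qop
  refine Finset.sum_nonneg fun k _ => mul_nonneg (hBinBasic.1 _ _) ?_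
  unfold bad
  split_ifs <;> norm_num

theorem tail_zero (hBinBasic : StmtBinBasic) (lo hi τ i : ℕ) (hlo : 1 ≤ lo) :
    Qop τ (bad lo hi) 0 i = 1 := by
  unfold Qop bad
  have h5 := hBinBasic.2.2.2.2.1 (2 * τ)
  refine Eq.trans ?_ h5
  refine Finset.sum_congr rfl fun k _ => ?_
  rw [if_pos (by omega)]
  simp

end XStepaux

open XStepaux in
open Classical in
theorem stmtXStep (hBinBasic : StmtBinBasic) (hVBasic : StmtVBasic) : StmtXStep := by
  intro h lo hi T' B hlo hB hX τ
  obtain ⟨hV, hXb, -, -, hQ, -⟩ := hVBasic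
  induction τ with
  | zero =>
    intro m i
    rw [tail_eq lo hi 0 m i]
    have h1 : Qop 0 (bad lo hi) m i = bad lo hi m i := by
      have h5 := hBinBasic.2.2.1 0
      simp [Qop] at h5 ⊢
      simp [h5]
    rw [h1]
    have h2 : V h 0 m i = 1 := rfl
    rw [h2]
    unfold bad
    by_cases hm : lo ≤ m ∧ m ≤ hi
    · rw [if_neg (by simpa using hm)]
      have := hX m i hm.1 hm.2
      simpa using this
    · rw [if_pos hm]
      have := (hXb h (0 + T') m i).2
      linarith
  | succ τ ih =>
    intro m i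
    rw [tail_eq lo hi (τ + 1) m i]
    rcases m with _ | m
    · rw [tail_zero hBinBasic lo hi (τ + 1) i hlo]
      have h1 := (hXb h (τ + 1 + T') 0 i).2
      have h2 := mul_nonneg hB (hV h (τ + 1) 0 i).1
      linarith
    · have e1 : τ + 1 + T' = (τ + T') + 1 := by ring
      rw [e1, hQ]
      have i1 := ih (m + 1) (i + 1)
      have i2 := ih m (i + 1)
      have i3 := ih (m - 1) (i + 1)
      rw [tail_eq lo hi τ _ (i + 1)] at i1 i2 i3
      have t2 := tail_nonneg hBinBasic lo hi τ m (i + 1)
      have eX : X h (τ + T' + 1) (m + 1) i = (1 / 4) * X h (τ + T') (m + 1) (i + 1)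
          + (1 / 2) * (if (1 / 10 : ℝ) < ‖h.θ (m + 1) i‖ then qq else 1) * X h (τ + T') m (i + 1)
          + (1 / 4) * X h (τ + T') (m - 1) (i + 1) := rfl
      have eV : V h (τ + 1) (m + 1) i = (1 / 4) * V h τ (m + 1) (i + 1)
          + (1 / 2) * (if white h (m + 1) i then qq else 1) * V h τ m (i + 1)
          + (1 / 4) * V h τ (m - 1) (i + 1) := rfl
      have ec : (if white h (m + 1) i then qq else 1)
          = (if (1 / 10 : ℝ) < ‖h.θ (m + 1) i‖ then qq else 1) := by
        unfold white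
        by_cases hw : (1 / 10 : ℝ) < ‖h.θ (m + 1) i‖
        · rw [if_pos hw, if_pos (Or.inr hw)]
        · rw [if_neg hw, if_neg (by simpa using hw)]
      rw [eX, eV, ec]
      set c : ℝ := (if (1 / 10 : ℝ) < ‖h.θ (m + 1) i‖ then qq else 1) with hc
      have c0 : 0 ≤ c := by
        rw [hc]; split_ifs
        · exact qq_nonneg
        · norm_num
      have c1 : c ≤ 1 := by
        rw [hc]; split_ifs
        · exact qq_le_one
        · norm_num
      have em1 : m + 1 - 1 = m := by omega
      have em2 : m + 1 - 2 = m - 1 := by omega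
      rw [em1, em2]
      have j2 : c * X h (τ + T') m (i + 1) ≤ B * (c * V h τ m (i + 1))
          + Qop τ (bad lo hi) m (i + 1) := by
        have := mul_le_mul_of_nonneg_left i2 c0
        nlinarith [mul_le_mul_of_nonneg_right c1 t2]
      nlinarith [i1, i3, j2]

end Pool.Agent.Clz
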