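import Pool.Agent.Lib.MP_5a39b1_nt.Clz.BinBasic
import Pool.Agent.Lib.MP_5a39b1_nt.Clz.BinDiff
import Pool.Agent.Lib.MP_5a39b1_nt.Clz.BinShift
import Pool.Agent.Lib.MP_5a39b1_nt.Clz.Sparse
import Pool.Agent.Lib.MP_5a39b1_nt.Clz.ThBasic
import Pool.Agent.Lib.MP_5a39b1_nt.Clz.ExitWhite
import Pool.Agent.Lib.MP_5a39b1_nt.Clz.LemS
import Pool.Agent.Lib.MP_5a39b1_nt.Clz.VBasic
import Pool.Agent.Lib.MP_5a39b1_nt.Clz.Attempt
import Pool.Agent.Lib.MP_5a39b1_nt.Clz.Chain
import Pool.Agent.Lib.MP_5a39b1_nt.Clz.BadProb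
import Pool.Agent.Lib.MP_5a39b1_nt.Clz.Cross
import Pool.Agent.Lib.MP_5a39b1_nt.Clz.Scale
import Pool.Agent.Lib.MP_5a39b1_nt.Clz.XStep
import Pool.Agent.Lib.MP_5a39b1_nt.Clz.Tails
import Pool.Agent.Lib.MP_5a39b1_nt.Clz.XPoly
import Pool.Agent.Lib.MP_5a39b1_nt.Clz.FDSum
import Pool.Agent.Lib.MP_5a39b1_nt.Clz.FD
import Pool.Agent.Lib.MP_5a39b1_nt.Clz.KapLaw
import Pool.Agent.Lib.MP_5a39b1_nt.Clz.Words
import Pool.Agent.Lib.MP_5a39b1_nt.Clz.RMoment
import Pool.Agent.Lib.MP_5a39b1_nt.Clz.KerAvg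
import Pool.Agent.Lib.MP_5a39b1_nt.Clz.Ram
import Pool.Agent.Lib.MP_5a39b1_nt.Clz.L2
import Pool.Agent.Lib.MP_5a39b1_nt.Clz.HFfix
import Pool.Agent.Lib.MP_5a39b1_nt.Clz.Tails2
import Pool.Agent.Lib.MP_5a39b1_nt.Clz.HFstep
import Pool.Agent.Lib.MP_5a39b1_nt.Clz.HFsum

/-!
MP_5a39b1_nt, assembly, part 1: Fourier decay and fine scale mixing.
-/

set_option autoImplicit false

namespace Pool.Agent.Clz

namespace Asm

theorem binBasic : StmtBinBasic := stmtBinBasic 
theorem binDiff : StmtBinDiff := stmtBinDiff binBasic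
theorem binShift : StmtBinShift := stmtBinShift binBasic binDiff
theorem sparse : StmtSparse := stmtSparse binBasic binDiff
theorem thBasic : StmtThBasic := stmtThBasic 
theorem exitWhite : StmtExitWhite := stmtExitWhite thBasic
theorem lemS : StmtLemS := stmtLemS thBasic exitWhite
theorem vBasic : StmtVBasic := stmtVBasic binBasic
theorem attempt : StmtAttempt := stmtAttempt binBasic vBasic thBasic exitWhite
theorem chain : StmtChain := stmtChain vBasic attempt
theorem badProb : StmtBadProb := stmtBadProb binBasic binDiff binShift sparse lemS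
theorem cross : StmtCross := stmtCross vBasic binBasic chain badProb
theorem scale : StmtScale := stmtScale vBasic thBasic attempt cross
theorem xStep : StmtXStep := stmtXStep binBasic vBasic
theorem tails : StmtTails := stmtTails binBasic
theorem xPoly : StmtXPoly := stmtXPoly vBasic scale xStep tails
theorem fDSum : StmtFDSum := stmtFDSum vBasic
theorem fD : StmtFD := stmtFD vBasic xPoly fDSum
theorem kapLaw : StmtKapLaw := stmtKapLaw binBasic
theorem words : StmtWords := stmtWords 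
theorem rMoment : StmtRMoment := stmtRMoment 
theorem kerAvg : StmtKerAvg := stmtKerAvg 
theorem ram : StmtRam := stmtRam 
theorem l2 : StmtL2 := stmtL2 
theorem hFfix : StmtHFfix := stmtHFfix words ram l2
theorem tails2 : StmtTails2 := stmtTails2 binBasic
theorem hFstep : StmtHFstep := stmtHFstep binBasic kapLaw rMoment kerAvg hFfix tails2 fD
theorem hFsum : StmtHFsum := stmtHFsum hFstep

end Asm

end Pool.Agent.Clz
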