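import Pool.Agent.Lib.MP_5a39b1_nt.Clz.Spec4

/-!
MP_5a39b1_nt, module BadMass: the exceptional set has small mass. See the docstring of `StmtBadMass` in `Spec4.lean` for the proof.
-/

set_option autoImplicit false

namespace Pool.Agent.Clz

open Finset Filter Topology

namespace BadMassaux

theorem log3_pos : 0 < Real.log 3 := Real.log_pos (by norm_num)

theorem rpow_lg {a : ℝ} (ha : 0 < a) : (3 : ℝ) ^ lg a = a := by
  unfold lg
  rw [Real.rpow_def_of_pos (by norm_num), mul_div_cancel₀ _ log3_pos.ne', Real.exp_log ha]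

theorem lg_tendsto : Tendsto lg atTop atTop := by
  unfold lg
  exact Real.tendsto_log_atTop.atTop_div_const log3_pos

theorem q4_tendsto : Tendsto q4 atTop atTop := by
  unfold q4
  exact Real.tendsto_sqrt_atTop.comp Real.tendsto_sqrt_atTop

theorem q4_pos {u : ℝ} (hu : 0 < u) : 0 < q4 u := by
  unfold q4
  exact Real.sqrt_pos.2 (Real.sqrt_pos.2 hu)

theorem fr_zero (z : ℤ) : fr 0 z = 1 := by
  unfold fr kerF
  simp

theorem ind_of_mem {S : Set ℤ} {N : ℤ} (h : N ∈ S) : ind S N = 1 := by unfold ind; rw [if_pos h]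

theorem ind_of_notMem {S : Set ℤ} {N : ℤ} (h : N ∉ S) : ind S N = 0 := by unfold ind; rw [if_neg h]

/-- the weight of the integers prime to 3 with a small density -/
noncomputable def pw (r : ℕ) (δ : ℝ) (z : ℤ) : ℝ := by
  classical exact if ¬ (3 : ℤ) ∣ z ∧ fr r z < δ then 1 else 0

theorem pw_nonneg (r : ℕ) (δ : ℝ) (z : ℤ) : 0 ≤ pw r δ z := by
  unfold pw; split_ifs <;> norm_num

theorem pw_periodic (r : ℕ) (hr : 1 ≤ r) (δ : ℝ) (z : ℤ) : pw r δ (z + 3 ^ (2 * r)) = pw r δ z := by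
  unfold pw
  rw [fr_periodic r (2 * r) le_rfl]
  have h : (3 : ℤ) ∣ z + 3 ^ (2 * r) ↔ (3 : ℤ) ∣ z :=
    dvd_add_left (dvd_pow_self 3 (by omega))
  simp only [h]

/-- `δ (ind Z - pw) ≤ fr r * ind Z` for `Z` a set of integers prime to 3 -/
theorem lower (Z : Set ℤ) (hZ : ∀ z ∈ Z, ¬ (3 : ℤ) ∣ z) (r : ℕ) (δ : ℝ) (hδ : 0 < δ) (z : ℤ) :
    δ * ind Z z ≤ fr r z * ind Z z + δ * pw r δ z := by
  by_cases hz : z ∈ Z
  · rw [ind_of_mem hz, mul_one, mul_one]
    by_cases h : fr r z < δ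
    · have : pw r δ z = 1 := by unfold pw; rw [if_pos ⟨hZ z hz, h⟩]
      rw [this]
      linarith [fr_nonneg r z]
    · have := pw_nonneg r δ z
      push Not at h
      nlinarith
  · rw [ind_of_notMem hz, mul_zero, mul_zero, zero_add]
    exact mul_nonneg hδ.le (pw_nonneg r δ z)

theorem r_bound {v : ℝ} {r : ℕ} (hv : 7 ≤ v) (h : (r : ℝ) ^ 4 ≤ 16 * v) : 2 * (r : ℝ) ≤ v := by
  by_contra hlt
  push Not at hlt
  have h1 : v ^ 4 < (2 * (r : ℝ)) ^ 4 := pow_lt_pow_left₀ hlt (by linarith) (by norm_num)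
  have h2 : v ^ 4 < 256 * v := by
    have : (2 * (r : ℝ)) ^ 4 = 16 * (r : ℝ) ^ 4 := by ring
    linarith
  have h3 : (343 : ℝ) ≤ v ^ 3 := by
    have : (7 : ℝ) ^ 3 ≤ v ^ 3 := pow_le_pow_left₀ (by norm_num) hv 3
    linarith
  have h4 : 343 * v ≤ v ^ 4 := by
    have : v ^ 4 = v ^ 3 * v := by ring
    rw [this]
    exact mul_le_mul_of_nonneg_right h3 (by linarith)
  linarith

/-- subadditivity of the mass of a union of trees -/
theorem mass_union_le (s : ℤ) (B : Finset ℤ) (a b : ℝ) :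
    mass s (ind (⋃ x ∈ B, tree x)) a b ≤ ∑ x ∈ B, mass s (ind (tree x)) a b := by
  have h1 : ∀ N : ℤ, ind (⋃ x ∈ B, tree x) N ≤ ∑ x ∈ B, ind (tree x) N := by
    intro N
    by_cases h : N ∈ (⋃ x ∈ B, tree x)
    · rw [ind_of_mem h]
      simp only [Set.mem_iUnion, exists_prop] at h
      obtain ⟨x, hx, hN⟩ := h
      calc (1 : ℝ) = ind (tree x) N := (ind_of_mem hN).symm
        _ ≤ ∑ x ∈ B, ind (tree x) N :=
          Finset.single_le_sum (f := fun x => ind (tree x) N) (fun i _ => ind_nonneg _ _) hx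
    · rw [ind_of_notMem h]
      exact Finset.sum_nonneg fun i _ => ind_nonneg _ _
  calc mass s (ind (⋃ x ∈ B, tree x)) a b ≤ mass s (fun N => ∑ x ∈ B, ind (tree x) N) a b :=
        mass_mono fun N _ => h1 N
    _ = ∑ x ∈ B, mass s (ind (tree x)) a b := by
        unfold mass
        rw [Finset.sum_comm]
        refine Finset.sum_congr rfl fun N _ => ?_
        rw [Finset.sum_div]

end BadMassaux

open BadMassaux

theorem stmtBadMass (hMassPer : StmtMassPer) (hAdmEx : StmtAdmEx) (hFrSmall : StmtFrSmall) (hTree : StmtTree) (hDensTree : StmtDensTree) (hSpread : StmtSpread) (hUp : StmtUp) : StmtBadMass := by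
  classical
  intro η hη
  obtain ⟨δ, r₁, hδ, hFr⟩ := hFrSmall (η / 6) (by linarith)
  obtain ⟨c, v₁, hc, hv₁, hSp⟩ := hSpread (δ * (η / 2)) (by positivity)
  obtain ⟨C, v₂, hC, hv₂, hU⟩ := hUp
  obtain ⟨u₀, hu₀, hAd⟩ := hAdmEx
  set c₀ : ℝ := min c 3 with hc₀
  have hc₀pos : 0 < c₀ := lt_min hc (by norm_num)
  have hc₀3 : c₀ ≤ 3 := min_le_right _ _
  have hc₀c : c₀ ≤ c := min_le_left _ _
  obtain ⟨V, hV⟩ := (q4_tendsto.eventually (eventually_ge_atTop (2 * C / c₀))).exists_forall_of_atTop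
  refine ⟨max (max (max v₁ v₂) (max u₀ V)) (max 7 (16 * (r₁ : ℝ) ^ 4 + 1)), ?_, ?_⟩
  · exact le_trans (by norm_num) ((le_max_left (7 : ℝ) _).trans (le_max_right _ _))
  intro s a hs ha hUa
  set v := lg a with hv
  have hvv₁ : v₁ ≤ v := ((le_max_left _ _).trans ((le_max_left _ _).trans (le_max_left _ _))).trans hUa
  have hvv₂ : v₂ ≤ v := ((le_max_right _ _).trans ((le_max_left _ _).trans (le_max_left _ _))).trans hUa
  have hvu₀ : u₀ ≤ v := ((le_max_left _ _).trans ((le_max_right _ _).trans (le_max_left _ _))).trans hUa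
  have hvV : V ≤ v := ((le_max_right _ _).trans ((le_max_right _ _).trans (le_max_left _ _))).trans hUa
  have hv7 : 7 ≤ v := ((le_max_left _ _).trans (le_max_right _ _)).trans hUa
  have hvr : 16 * (r₁ : ℝ) ^ 4 + 1 ≤ v := ((le_max_right _ _).trans (le_max_right _ _)).trans hUa
  obtain ⟨r₀, hr₀1, hr₀⟩ := hAd v hvu₀
  have hAdm : Adm v r₀ := hr₀ v (by linarith) (by linarith)
  have hr₀r₁ : r₁ ≤ r₀ := by
    by_contra hlt
    push Not at hlt
    have h1 : (r₀ : ℝ) ≤ r₁ := by exact_mod_cast hlt.le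
    have h2 : (r₀ : ℝ) ^ 4 ≤ (r₁ : ℝ) ^ 4 := pow_le_pow_left₀ (Nat.cast_nonneg _) h1 4
    have h3 := hAdm.1
    linarith
  have h2r₀ : 2 * (r₀ : ℝ) ≤ v := r_bound hv7 hAdm.2
  have h9 : (3 : ℝ) ^ (2 * r₀) ≤ a := by
    rw [← rpow_lg ha, ← Real.rpow_natCast]
    apply Real.rpow_le_rpow_of_exponent_le (by norm_num)
    push_cast
    exact h2r₀
  set Z : Set ℤ := {z : ℤ | ¬ (3 : ℤ) ∣ z ∧ ¬ Q1at z} with hZdef
  by_contra hlt
  push Not at hlt
  -- the mass of the integers with small density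
  have hpw : mass s (pw r₀ δ) a (3 * a) ≤ η / 2 := by
    have h1 := hMassPer.2 s (2 * r₀) (pw r₀ δ) a (3 * a) hs (pw_nonneg r₀ δ)
      (pw_periodic r₀ hr₀1 δ) h9 le_rfl
    have h2 := hFr r₀ (2 * r₀) hr₀r₁ le_rfl
    have h3 : avg (2 * r₀) (pw r₀ δ) ≤ η / 6 := by
      refine le_trans (le_of_eq ?_) h2
      congr 1
    linarith
  -- the finite set
  set B : Finset ℤ := (W s a (3 * a)).filter (fun z => z ∈ Z) with hBdef
  have hindB : ∀ N ∈ W s a (3 * a), ind (↑B : Set ℤ) N = ind Z N := by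
    intro N hN
    by_cases h : N ∈ Z
    · rw [ind_of_mem h, ind_of_mem]
      rw [hBdef]
      simp only [Finset.coe_filter, Set.mem_ofPred_eq]
      exact ⟨hN, h⟩
    · rw [ind_of_notMem h, ind_of_notMem]
      rw [hBdef]
      simp only [Finset.coe_filter, Set.mem_ofPred_eq]
      exact fun h2 => h h2.2
  have hβ : δ * (η / 2) ≤ mass s (fun M => fr r₀ M * ind (↑B : Set ℤ) M) a (3 * a) := by
    have h1 : mass s (fun M => fr r₀ M * ind (↑B : Set ℤ) M) a (3 * a)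
        = mass s (fun M => fr r₀ M * ind Z M) a (3 * a) :=
      mass_congr fun N hN => by rw [hindB N hN]
    rw [h1]
    have h2 : mass s (fun M => δ * ind Z M) a (3 * a)
        ≤ mass s (fun M => fr r₀ M * ind Z M + δ * pw r₀ δ M) a (3 * a) :=
      mass_mono fun N _ => lower Z (fun z hz => hz.1) r₀ δ hδ N
    rw [mass_fadd s (fun M => fr r₀ M * ind Z M) (fun M => δ * pw r₀ δ M), mass_smul, mass_smul] at h2
    have h3 : δ * η < δ * mass s (ind Z) a (3 * a) := mul_lt_mul_of_pos_left hlt hδ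
    have h4 : δ * mass s (pw r₀ δ) a (3 * a) ≤ δ * (η / 2) := mul_le_mul_of_nonneg_left hpw hδ.le
    have h5 : mass s (fun M => ind Z M) a (3 * a) = mass s (ind Z) a (3 * a) := rfl
    have h6 : mass s (fun M => pw r₀ δ M) a (3 * a) = mass s (pw r₀ δ) a (3 * a) := rfl
    linarith
  set S : Set ℤ := ⋃ x ∈ B, tree x with hSdef
  have hBW : ∀ x ∈ B, x ∈ W s a (3 * a) ∧ x ∈ Z := fun x hx => by
    rw [hBdef, Finset.mem_filter] at hx; exact hx
  have hPre : Pre S := by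
    refine (hTree.1 B (3 * a) fun x hx => ?_).2
    exact (mem_W' hs ha (hBW x hx).1).2.le
  have hBS : (↑B : Set ℤ) ⊆ S := by
    intro x hx
    rw [hSdef]
    simp only [Set.mem_iUnion, exists_prop]
    exact ⟨x, Finset.mem_coe.1 hx, 0, rfl⟩
  have hB0 : ∀ x ∈ B, x ≠ 0 := by
    intro x hx h0
    have := (mem_W' hs ha (hBW x hx).1).1
    rw [h0] at this
    simp at this
    linarith
  -- spreading and propagation
  have hspread : ∀ (a' : ℝ) (r' : ℕ), 0 < a' → 1.05 * v ≤ lg a' → lg a' ≤ 1.15 * v → (r' = 0 ∨ Adm (lg a') r') →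
      c₀ ≤ mass s (fun M => fr r' M * ind S M) a' (3 * a') := by
    intro a' r' ha' h1 h2 h3
    exact hc₀c.trans (hSp S ↑B s a a' r₀ r' hs hPre hBS ha hvv₁ ha' h1 h2 hr₀ h3 hβ)
  have hup := hU S s v c₀ hs hPre hvv₂ hc₀pos.le hc₀3 hspread
  have hq : C / q4 v ≤ c₀ / 2 := by
    have h1 := hV v hvV
    have h2 := q4_pos (u := v) (by linarith)
    rw [div_le_iff₀ h2]
    rw [div_le_iff₀ hc₀pos] at h1
    linarith
  have hlow : ∀ a' : ℝ, 0 < a' → 1.05 * v ≤ lg a' → c₀ / 2 ≤ mass s (ind S) a' (3 * a') := by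
    intro a' ha' h1
    have h2 := hup a' 0 ha' h1 (Or.inl rfl)
    have h3 : mass s (fun M => fr 0 M * ind S M) a' (3 * a') = mass s (ind S) a' (3 * a') :=
      mass_congr fun N _ => by rw [fr_zero, one_mul]
    linarith
  -- the masses tend to zero
  have hlim : Tendsto (fun x : ℝ => ∑ b ∈ B, mass s (ind (tree b)) x (3 * x)) atTop (𝓝 0) := by
    have : Tendsto (fun x : ℝ => ∑ b ∈ B, mass s (ind (tree b)) x (3 * x)) atTop (𝓝 (∑ b ∈ B, (0 : ℝ))) := by
      refine tendsto_finsetSum B fun b hb => ?_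
      exact (hDensTree b (hB0 b hb)).2 (hBW b hb).2.2 s hs
    simpa using this
  have hev := (hlim.eventually (gt_mem_nhds (show (0 : ℝ) < c₀ / 2 by linarith))).and
    ((lg_tendsto.eventually (eventually_ge_atTop (1.05 * v))).and (eventually_gt_atTop (0 : ℝ)))
  obtain ⟨x, hx1, hx2, hx3⟩ := hev.exists
  have h1 := hlow x hx3 hx2
  have h2 := mass_union_le s B x (3 * x)
  linarith

end Pool.Agent.Clz
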