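import Pool.Agent.Lib.MP_5a39b1_nt.Clz.Spec3

/-!
MP_5a39b1_nt, module ConvRate: convergence of window masses with a rate. See the docstring of `StmtConvRate` in `Spec3.lean` for the proof.
-/

set_option autoImplicit false

namespace Pool.Agent.Clz

open Finset Filter Topology

namespace ConvRateaux

theorem log3_pos : 0 < Real.log 3 := Real.log_pos (by norm_num)

theorem lg_rpow (u : ℝ) : lg ((3 : ℝ) ^ u) = u := by
  unfold lg
  rw [Real.log_rpow (by norm_num)]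
  field_simp [log3_pos.ne']

theorem rpow_lg {a : ℝ} (ha : 0 < a) : (3 : ℝ) ^ lg a = a := by
  unfold lg
  rw [Real.rpow_def_of_pos (by norm_num), mul_div_cancel₀ _ log3_pos.ne', Real.exp_log ha]

theorem lg4_low : (1.26 : ℝ) ≤ lg 4 := by
  unfold lg
  rw [le_div_iff₀ log3_pos]
  have h : (3 : ℝ) ^ 126 ≤ 4 ^ 100 := by norm_num
  have h2 := Real.log_le_log (by positivity) h
  rw [Real.log_pow, Real.log_pow] at h2
  push_cast at h2
  linarith

theorem lg4_up : lg 4 ≤ (1.27 : ℝ) := by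
  unfold lg
  rw [div_le_iff₀ log3_pos]
  have h : (4 : ℝ) ^ 100 ≤ 3 ^ 127 := by norm_num
  have h2 := Real.log_le_log (by positivity) h
  rw [Real.log_pow, Real.log_pow] at h2
  push_cast at h2
  linarith

theorem q4_pos {u : ℝ} (hu : 0 < u) : 0 < q4 u := by
  unfold q4
  exact Real.sqrt_pos.2 (Real.sqrt_pos.2 hu)

theorem q4_mono {u v : ℝ} (h : u ≤ v) : q4 u ≤ q4 v := by
  unfold q4
  exact Real.sqrt_le_sqrt (Real.sqrt_le_sqrt h)

theorem q4_mul {c u : ℝ} (hc : 0 ≤ c) : q4 (c ^ 4 * u) = c * q4 u := by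
  unfold q4
  have h1 : c ^ 4 * u = (c ^ 2) ^ 2 * u := by ring
  rw [h1, Real.sqrt_mul (by positivity), Real.sqrt_sq (by positivity),
    Real.sqrt_mul (by positivity), Real.sqrt_sq hc]

theorem q4_le_sqrt {u : ℝ} (hu : 1 ≤ u) : q4 u ≤ Real.sqrt u := by
  unfold q4
  have h1 : 1 ≤ Real.sqrt u := Real.one_le_sqrt.2 hu
  have h2 : Real.sqrt (Real.sqrt u) ≤ Real.sqrt (Real.sqrt u ^ 2) := by
    apply Real.sqrt_le_sqrt
    nlinarith
  rw [Real.sqrt_sq (Real.sqrt_nonneg _)] at h2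
  exact h2

theorem one_le_q4 {u : ℝ} (hu : 1 ≤ u) : 1 ≤ q4 u := by
  unfold q4
  exact Real.one_le_sqrt.2 (Real.one_le_sqrt.2 hu)

/-- the mass of the window starting at `3^u` -/
noncomputable def G (s : ℤ) (S : Set ℤ) (u : ℝ) : ℝ := mass s (ind S) ((3 : ℝ) ^ u) (3 * (3 : ℝ) ^ u)

theorem G_nonneg (s : ℤ) (S : Set ℤ) (u : ℝ) : 0 ≤ G s S u := mass_nonneg (ind_nonneg S)

theorem G_le (hMassPer : StmtMassPer) {s : ℤ} (hs : s = 1 ∨ s = -1) (S : Set ℤ) {u : ℝ} (hu : 0 ≤ u) :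
    G s S u ≤ 3 := by
  have h1 := hMassPer.2 s 0 (fun _ => 1) ((3 : ℝ) ^ u) (3 * (3 : ℝ) ^ u) hs (fun _ => zero_le_one)
    (fun _ => rfl) (by rw [pow_zero]; exact Real.one_le_rpow (by norm_num) hu) le_rfl
  have h2 : avg 0 (fun _ => (1 : ℝ)) = 1 := by unfold avg; simp
  rw [h2] at h1
  have h3 : G s S u ≤ mass s (fun _ => 1) ((3 : ℝ) ^ u) (3 * (3 : ℝ) ^ u) :=
    mass_mono fun N _ => ind_le_one S N
  linarith

/-- the point `a_κ` -/
theorem shift_point (u : ℝ) (t κ : ℕ) :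
    (3 : ℝ) ^ u * 3 ^ κ / 4 ^ t = (3 : ℝ) ^ ((u - (lg 4 - 1) * t) + ((κ : ℝ) - t)) := by
  have h4 : (4 : ℝ) ^ t = (3 : ℝ) ^ (lg 4 * t) := by
    rw [Real.rpow_mul (by norm_num), rpow_lg (by norm_num), Real.rpow_natCast]
  rw [h4, ← Real.rpow_natCast 3 κ, ← Real.rpow_add (by norm_num), ← Real.rpow_sub (by norm_num)]
  congr 1
  ring

theorem q4_half {u w : ℝ} (hu : 0 < u) (h : u / 2 ≤ w) : 1 / q4 w ≤ 2 / q4 u := by
  have h1 : (1 / 2 : ℝ) * q4 u ≤ q4 w := by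
    rw [← q4_mul (by norm_num)]
    apply q4_mono
    norm_num
    linarith
  have h2 := q4_pos hu
  rw [div_le_div_iff₀ (by linarith) h2]
  linarith

theorem point_bound (G : ℝ → ℝ) (C2 B : ℝ) (hC2 : 0 < C2) (hB : 1 ≤ B)
    (hG : ∀ u, 0 ≤ u → 0 ≤ G u ∧ G u ≤ 3)
    (hSlow : ∀ u x : ℝ, B ≤ u → 0 ≤ x → 50 * x ≤ u → |G (u + x) - G u| ≤ C2 * (x / u + 1 / q4 u))
    (u v d : ℝ) (hu : 2 * B ≤ u) (hv : 0.865 * u ≤ v) (hvd : 0 ≤ v + d) :
    |G (v + d) - G v| ≤ (C2 / (Real.sqrt u * u) + 10800 / u ^ 2) * d ^ 2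
      + C2 * (1 / Real.sqrt u + 2 / q4 u) := by
  have hu0 : 0 < u := by linarith
  have hr : 0 < Real.sqrt u := Real.sqrt_pos.2 hu0
  have hrr : Real.sqrt u * Real.sqrt u = u := Real.mul_self_sqrt hu0.le
  have hq := q4_pos hu0
  have hv0 : 0 ≤ v := by linarith
  rcases le_or_gt |d| (u / 60) with hd | hd
  · -- small shift
    have key : ∀ w : ℝ, u / 2 ≤ w → C2 * (|d| / w + 1 / q4 w) ≤
        (C2 / (Real.sqrt u * u) + 10800 / u ^ 2) * d ^ 2 + C2 * (1 / Real.sqrt u + 2 / q4 u) := by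
      intro w hw
      have h1 : |d| / w ≤ 2 * |d| / u := by
        rw [div_le_div_iff₀ (by linarith) hu0]
        nlinarith [abs_nonneg d]
      have h2 := q4_half hu0 hw
      have h3 : 2 * |d| / u ≤ d ^ 2 / (Real.sqrt u * u) + 1 / Real.sqrt u := by
        have h4 : 2 * |d| * Real.sqrt u ≤ d ^ 2 + u := by
          have := sq_nonneg (|d| - Real.sqrt u)
          have h5 : |d| ^ 2 = d ^ 2 := sq_abs d
          nlinarith
        rw [div_add_div _ _ (by positivity) (by positivity), div_le_div_iff₀ hu0 (by positivity)]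
        have h6 : 2 * |d| * (Real.sqrt u * u * Real.sqrt u) = (2 * |d| * Real.sqrt u) * (u * Real.sqrt u) := by ring
        have h7 : (d ^ 2 * Real.sqrt u + Real.sqrt u * u * 1) * u = (d ^ 2 + u) * (u * Real.sqrt u) := by ring
        rw [h6, h7]
        exact mul_le_mul_of_nonneg_right h4 (by positivity)
      have h8 : C2 * (|d| / w + 1 / q4 w) ≤ C2 * ((d ^ 2 / (Real.sqrt u * u) + 1 / Real.sqrt u) + 2 / q4 u) := by
        apply mul_le_mul_of_nonneg_left _ hC2.le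
        linarith
      have h9 : 0 ≤ 10800 / u ^ 2 * d ^ 2 := by positivity
      have h10 : C2 * ((d ^ 2 / (Real.sqrt u * u) + 1 / Real.sqrt u) + 2 / q4 u)
          = C2 / (Real.sqrt u * u) * d ^ 2 + C2 * (1 / Real.sqrt u + 2 / q4 u) := by ring
      calc C2 * (|d| / w + 1 / q4 w) ≤ _ := h8
        _ = _ := h10
        _ ≤ _ := by rw [add_mul]; linarith
    have hd' := abs_le.1 hd
    rcases le_or_gt 0 d with h0 | h0
    · have h1 := hSlow v d (by linarith) h0 (by linarith)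
      have h2 := key v (by linarith)
      rw [abs_of_nonneg h0] at h2
      exact h1.trans h2
    · have h1 := hSlow (v + d) (-d) (by linarith) (by linarith) (by linarith)
      have h2 := key (v + d) (by linarith)
      rw [abs_of_neg h0] at h2
      have h3 : v + d + -d = v := by ring
      rw [h3, abs_sub_comm] at h1
      exact h1.trans h2
  · -- large shift
    have h1 : |G (v + d) - G v| ≤ 3 := by
      have h2 := hG _ hvd
      have h3 := hG _ hv0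
      rw [abs_le]; constructor <;> linarith [h2.1, h2.2, h3.1, h3.2]
    have h4 : (3 : ℝ) ≤ 10800 / u ^ 2 * d ^ 2 := by
      rw [div_mul_eq_mul_div, le_div_iff₀ (by positivity)]
      have h5 : u ^ 2 ≤ (60 * |d|) ^ 2 := by
        apply pow_le_pow_left₀ hu0.le
        linarith
      rw [mul_pow, sq_abs] at h5
      linarith
    have h6 : 0 ≤ C2 / (Real.sqrt u * u) * d ^ 2 := by positivity
    have h7 : 0 ≤ C2 * (1 / Real.sqrt u + 2 / q4 u) := by positivity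
    rw [add_mul]
    linarith

theorem step1 (hBinBasic : StmtBinBasic) (G : ℝ → ℝ) (c C1 C2 B : ℝ) (hC1 : 0 < C1) (hC2 : 0 < C2) (hB : 1 ≤ B)
    (hc : c ≤ 0.27)
    (hG : ∀ u, 0 ≤ u → 0 ≤ G u ∧ G u ≤ 3)
    (hRel : ∀ (u : ℝ) (t : ℕ), B ≤ u → u ≤ 20 * t → 2 * (t : ℝ) ≤ u →
      |G u - ∑ κ ∈ range (2 * t + 1), P (2 * t) κ * G ((u - c * t) + ((κ : ℝ) - t))| ≤ C1 / q4 u)
    (hSlow : ∀ u x : ℝ, B ≤ u → 0 ≤ x → 50 * x ≤ u → |G (u + x) - G u| ≤ C2 * (x / u + 1 / q4 u))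
    (u : ℝ) (t : ℕ) (hu : 2 * B ≤ u) (ht1 : u ≤ 20 * t) (ht2 : 2 * (t : ℝ) ≤ u) :
    |G u - G (u - c * t)| ≤ (C1 + 4 * C2 + 2700) / q4 u := by
  have hu0 : 0 < u := by linarith
  have hu1 : 1 ≤ u := by linarith
  have hr : 0 < Real.sqrt u := Real.sqrt_pos.2 hu0
  have hrr : Real.sqrt u * Real.sqrt u = u := Real.mul_self_sqrt hu0.le
  have hq := q4_pos hu0
  have hqr := q4_le_sqrt hu1
  have hr1 : 1 ≤ Real.sqrt u := Real.one_le_sqrt.2 hu1
  have hru : Real.sqrt u ≤ u := by nlinarith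
  have ht0 : (0 : ℝ) ≤ t := Nat.cast_nonneg t
  set v := u - c * t with hv
  have hv1 : 0.865 * u ≤ v := by rw [hv]; nlinarith
  set α := C2 / (Real.sqrt u * u) + 10800 / u ^ 2 with hα
  set β := C2 * (1 / Real.sqrt u + 2 / q4 u) with hβ
  obtain ⟨b0, -, -, -, b5, -, -, b8, -⟩ := hBinBasic
  have hpt : ∀ κ ∈ range (2 * t + 1), |G (v + ((κ : ℝ) - t)) - G v| ≤ α * ((κ : ℝ) - t) ^ 2 + β := by
    intro κ hκ
    refine point_bound G C2 B hC2 hB hG hSlow u v ((κ : ℝ) - t) hu hv1 ?_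
    have : (0 : ℝ) ≤ κ := Nat.cast_nonneg κ
    linarith
  have hs1 : ∑ κ ∈ range (2 * t + 1), P (2 * t) κ = 1 := b5 (2 * t)
  have hs2 : ∑ κ ∈ range (2 * t + 1), P (2 * t) κ * ((κ : ℝ) - t) ^ 2 = t / 2 := by
    have h1 := b8 (2 * t)
    have h2 : ∑ k ∈ range (2 * t + 1), P (2 * t) k * (2 * (k : ℝ) - ((2 * t : ℕ) : ℝ)) ^ 2
        = 4 * ∑ κ ∈ range (2 * t + 1), P (2 * t) κ * ((κ : ℝ) - t) ^ 2 := by
      rw [mul_sum]
      refine sum_congr rfl fun κ _ => ?_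
      push_cast
      ring
    rw [h2] at h1
    push_cast at h1
    linarith
  have hdiff : |∑ κ ∈ range (2 * t + 1), P (2 * t) κ * G (v + ((κ : ℝ) - t)) - G v| ≤ α * (t / 2) + β := by
    have h1 : ∑ κ ∈ range (2 * t + 1), P (2 * t) κ * G (v + ((κ : ℝ) - t)) - G v
        = ∑ κ ∈ range (2 * t + 1), P (2 * t) κ * (G (v + ((κ : ℝ) - t)) - G v) := by
      have h2 : G v = ∑ κ ∈ range (2 * t + 1), P (2 * t) κ * G v := by
        rw [← sum_mul, hs1, one_mul]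
      conv_lhs => rw [h2]
      rw [← sum_sub_distrib]
      refine sum_congr rfl fun κ _ => by ring
    rw [h1]
    calc |∑ κ ∈ range (2 * t + 1), P (2 * t) κ * (G (v + ((κ : ℝ) - t)) - G v)|
        ≤ ∑ κ ∈ range (2 * t + 1), |P (2 * t) κ * (G (v + ((κ : ℝ) - t)) - G v)| := abs_sum_le_sum_abs _ _
      _ ≤ ∑ κ ∈ range (2 * t + 1), (α * (P (2 * t) κ * ((κ : ℝ) - t) ^ 2) + P (2 * t) κ * β) := by
          refine sum_le_sum fun κ hκ => ?_
          rw [abs_mul, abs_of_nonneg (b0 _ _)]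
          have := mul_le_mul_of_nonneg_left (hpt κ hκ) (b0 (2 * t) κ)
          linarith
      _ = α * (t / 2) + β := by
          rw [sum_add_distrib, ← mul_sum, ← sum_mul, hs1, hs2, one_mul]
  have hα0 : 0 ≤ α := by rw [hα]; positivity
  have hfin : α * (t / 2) + β ≤ (4 * C2 + 2700) / q4 u := by
    have h1 : α * (t / 2) ≤ α * (u / 4) := mul_le_mul_of_nonneg_left (by linarith) hα0
    have h2 : α * (u / 4) = C2 / 4 * (1 / Real.sqrt u) + 2700 * (1 / u) := by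
      rw [hα]; field_simp; ring
    have h3 : 1 / Real.sqrt u ≤ 1 / q4 u := one_div_le_one_div_of_le hq hqr
    have h4 : 1 / u ≤ 1 / q4 u := one_div_le_one_div_of_le hq (hqr.trans hru)
    have h5 : 0 < 1 / q4 u := by positivity
    have h6 : (4 * C2 + 2700) / q4 u = (4 * C2 + 2700) * (1 / q4 u) := by ring
    have h7 : β = C2 * (1 / Real.sqrt u) + 2 * C2 * (1 / q4 u) := by rw [hβ]; ring
    rw [h6, h7]
    have h8 : C2 * (1 / Real.sqrt u) ≤ C2 * (1 / q4 u) := mul_le_mul_of_nonneg_left h3 hC2.le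
    nlinarith
  have h1 := hRel u t (by linarith) ht1 ht2
  have h2 : |G u - G v| ≤ C1 / q4 u + (4 * C2 + 2700) / q4 u := by
    have h3 := abs_sub_le (G u) (∑ κ ∈ range (2 * t + 1), P (2 * t) κ * G (v + ((κ : ℝ) - t))) (G v)
    linarith
  calc |G u - G v| ≤ _ := h2
    _ = _ := by ring

theorem step2 (G : ℝ → ℝ) (c C2 C3 B : ℝ) (hC2 : 0 < C2) (hC3 : 0 < C3) (hB : 1 ≤ B)
    (hc1 : 0.26 ≤ c) (hc : c ≤ 0.27)
    (hSlow : ∀ u x : ℝ, B ≤ u → 0 ≤ x → 50 * x ≤ u → |G (u + x) - G u| ≤ C2 * (x / u + 1 / q4 u))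
    (h1 : ∀ (u : ℝ) (t : ℕ), 2 * B ≤ u → u ≤ 20 * t → 2 * (t : ℝ) ≤ u →
      |G u - G (u - c * t)| ≤ C3 / q4 u)
    (u v : ℝ) (hu : 40 * B ≤ u) (hv1 : 0.9 * u ≤ v) (hv2 : v ≤ 0.95 * u) :
    |G u - G v| ≤ (C3 + 4 * C2) / q4 u := by
  have hu0 : 0 < u := by linarith
  have hu1 : 1 ≤ u := by linarith
  have hq := q4_pos hu0
  have hc0 : 0 < c := by linarith
  obtain ⟨t, ht⟩ : ∃ t : ℕ, t = ⌊(u - v) / c⌋₊ := ⟨_, rfl⟩
  have hx0 : 0 ≤ (u - v) / c := div_nonneg (by linarith) hc0.le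
  have ht1 : (t : ℝ) ≤ (u - v) / c := by rw [ht]; exact Nat.floor_le hx0
  have ht2 : (u - v) / c < t + 1 := by rw [ht]; exact Nat.lt_floor_add_one _
  rw [le_div_iff₀ hc0] at ht1
  rw [div_lt_iff₀ hc0] at ht2
  have ht0 : (0 : ℝ) ≤ t := Nat.cast_nonneg t
  have hA : u ≤ 20 * t := by nlinarith
  have hB' : 2 * (t : ℝ) ≤ u := by nlinarith
  have h2 := h1 u t (by linarith) hA hB'
  have hx : 0 ≤ u - c * t - v := by linarith
  have hx2 : u - c * t - v ≤ 1 := by linarith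
  have h3 := hSlow v (u - c * t - v) (by linarith) hx (by linarith)
  have h4 : v + (u - c * t - v) = u - c * t := by ring
  rw [h4] at h3
  have h5 : 1 / q4 v ≤ 2 / q4 u := q4_half hu0 (by linarith)
  have h6 : (u - c * t - v) / v ≤ 2 / q4 u := by
    have h7 : q4 u ≤ u := by
      have := q4_le_sqrt hu1
      have h8 : Real.sqrt u ≤ u := by
        have h9 : 1 ≤ Real.sqrt u := Real.one_le_sqrt.2 hu1
        nlinarith [Real.mul_self_sqrt hu0.le]
      linarith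
    rw [div_le_div_iff₀ (by linarith) hq]
    nlinarith
  have h7 : C2 * ((u - c * t - v) / v + 1 / q4 v) ≤ C2 * (2 / q4 u + 2 / q4 u) :=
    mul_le_mul_of_nonneg_left (by linarith) hC2.le
  have h8 := abs_sub_le (G u) (G (u - c * t)) (G v)
  calc |G u - G v| ≤ C3 / q4 u + C2 * (2 / q4 u + 2 / q4 u) := by linarith
    _ = _ := by ring

theorem step3 (G : ℝ → ℝ) (C4 B : ℝ) (hC4 : 0 < C4) (hB : 1 ≤ B)
    (h2 : ∀ u v : ℝ, 40 * B ≤ u → 0.9 * u ≤ v → v ≤ 0.95 * u → |G u - G v| ≤ C4 / q4 u)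
    (u w : ℝ) (hu : 40 * B ≤ u) (hw1 : u ≤ w) (hw2 : w ≤ 1.05 * u) :
    |G u - G w| ≤ 2 * C4 / q4 u := by
  have hu0 : 0 < u := by linarith
  have hq := q4_pos hu0
  have hz : 0.9 * (u / 0.9) = u := by ring
  have ha := h2 (u / 0.9) u (by linarith) (by linarith) (by linarith)
  have hb := h2 (u / 0.9) w (by linarith) (by linarith) (by linarith)
  have hq2 : q4 u ≤ q4 (u / 0.9) := q4_mono (by linarith)
  have h3 : C4 / q4 (u / 0.9) ≤ C4 / q4 u := div_le_div_of_nonneg_left hC4.le hq hq2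
  have h4 := abs_sub_le (G u) (G (u / 0.9)) (G w)
  rw [abs_sub_comm] at ha
  calc |G u - G w| ≤ C4 / q4 u + C4 / q4 u := by linarith
    _ = _ := by ring

theorem step4 (G : ℝ → ℝ) (C5 B : ℝ) (hC5 : 0 < C5) (hB : 1 ≤ B)
    (h3 : ∀ u w : ℝ, 40 * B ≤ u → u ≤ w → w ≤ 1.05 * u → |G u - G w| ≤ C5 / q4 u) (n : ℕ) :
    ∀ u w : ℝ, 40 * B ≤ u → u ≤ w → w ≤ 1.05 ^ n * u → |G u - G w| ≤ 100 * C5 / q4 u := by
  induction n with
  | zero =>
    intro u w hu h1 h2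
    have hu0 : 0 < u := by linarith
    have hq := q4_pos hu0
    have : w = u := by linarith
    rw [this, sub_self, abs_zero]
    positivity
  | succ n ih =>
    intro u w hu h1 h2
    have hu0 : 0 < u := by linarith
    have hq := q4_pos hu0
    rcases le_or_gt w (1.05 * u) with h | h
    · have h4 := h3 u w hu h1 h
      have h5 : C5 / q4 u ≤ 100 * C5 / q4 u := by
        apply div_le_div_of_nonneg_right _ hq.le
        linarith
      linarith
    · have h4 := h3 u (1.05 * u) hu (by linarith) le_rfl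
      have h5 := ih (1.05 * u) w (by linarith) h.le (by rw [pow_succ] at h2; linarith)
      have h6 : 1.012 * q4 u ≤ q4 (1.05 * u) := by
        rw [← q4_mul (by norm_num)]
        apply q4_mono
        norm_num
        linarith
      have h7 : 100 * C5 / q4 (1.05 * u) ≤ 99 * C5 / q4 u := by
        rw [div_le_div_iff₀ (by linarith) hq]
        have : 99 * C5 * (1.012 * q4 u) ≤ 99 * C5 * q4 (1.05 * u) :=
          mul_le_mul_of_nonneg_left h6 (by linarith)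
        have h8 : 0 < C5 * q4 u := by positivity
        nlinarith
      have h8 := abs_sub_le (G u) (G (1.05 * u)) (G w)
      calc |G u - G w| ≤ C5 / q4 u + 99 * C5 / q4 u := by linarith
        _ = _ := by ring

theorem step5 (G : ℝ → ℝ) (C5 B : ℝ) (hC5 : 0 < C5) (hB : 1 ≤ B)
    (h3 : ∀ u w : ℝ, 40 * B ≤ u → u ≤ w → w ≤ 1.05 * u → |G u - G w| ≤ C5 / q4 u)
    (u w : ℝ) (hu : 40 * B ≤ u) (hw : u ≤ w) : |G u - G w| ≤ 100 * C5 / q4 u := by
  have hu0 : 0 < u := by linarith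
  obtain ⟨n, hn⟩ := pow_unbounded_of_one_lt (w / u) (by norm_num : (1 : ℝ) < 1.05)
  rw [div_lt_iff₀ hu0] at hn
  exact step4 G C5 B hC5 hB h3 n u w hu hw hn.le

theorem q4_tendsto : Tendsto q4 atTop atTop := by
  unfold q4
  exact Real.tendsto_sqrt_atTop.comp Real.tendsto_sqrt_atTop

theorem step6 (G : ℝ → ℝ) (K U : ℝ) (hK : 0 < K) (hU : 1 ≤ U) (hG : ∀ u, 0 ≤ G u)
    (h5 : ∀ u w : ℝ, U ≤ u → u ≤ w → |G u - G w| ≤ K / q4 u) :
    ∃ ℓ : ℝ, 0 ≤ ℓ ∧ ∀ u : ℝ, U ≤ u → |G u - ℓ| ≤ K / q4 u := by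
  have hc : CauchySeq G := by
    rw [Metric.cauchySeq_iff']
    intro ε hε
    obtain ⟨N, hN⟩ := ((q4_tendsto.eventually (eventually_gt_atTop (K / ε))).and
      (eventually_ge_atTop U)).exists
    refine ⟨N, fun n hn => ?_⟩
    have hN0 : 0 < N := by linarith [hN.2]
    have hq := q4_pos hN0
    rw [Real.dist_eq, abs_sub_comm]
    refine (h5 N n hN.2 hn).trans_lt ?_
    rw [div_lt_iff₀ hq]
    have h1 := hN.1
    rw [div_lt_iff₀ hε] at h1
    linarith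
  obtain ⟨ℓ, hℓ⟩ := cauchySeq_tendsto_of_complete hc
  refine ⟨ℓ, ge_of_tendsto' hℓ hG, fun u hu => ?_⟩
  have h1 : Tendsto (fun w => |G u - G w|) atTop (𝓝 |G u - ℓ|) := (tendsto_const_nhds.sub hℓ).abs
  exact le_of_tendsto h1 ((eventually_ge_atTop u).mono fun w hw => h5 u w hu hw)

end ConvRateaux

open ConvRateaux

theorem stmtConvRate (hBinBasic : StmtBinBasic) (hBinShift : StmtBinShift) (hMassPer : StmtMassPer) (hRel2 : StmtRel2) (hSlowVar : StmtSlowVar) : StmtConvRate := by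
  obtain ⟨C1, u1, hC1, hu1, hR⟩ := hRel2
  obtain ⟨C2, u2, hC2, hu2, hS⟩ := hSlowVar
  have hlow := lg4_low
  have hup := lg4_up
  refine ⟨100 * (2 * ((C1 + 4 * C2 + 2700) + 4 * C2)), by positivity, ?_⟩
  intro S A0 s hs hInv hA0
  -- threshold
  set B : ℝ := max (max u1 u2) (max 1 (80 * lg A0)) with hB
  have hBu1 : u1 ≤ B := (le_max_left _ _).trans (le_max_left _ _)
  have hBu2 : u2 ≤ B := (le_max_right _ _).trans (le_max_left _ _)
  have hB1 : 1 ≤ B := (le_max_left _ _).trans (le_max_right _ _)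
  have hBA : 80 * lg A0 ≤ B := (le_max_right _ _).trans (le_max_right _ _)
  have hG : ∀ u, 0 ≤ u → 0 ≤ G s S u ∧ G s S u ≤ 3 := fun u hu =>
    ⟨G_nonneg s S u, G_le hMassPer hs S hu⟩
  have hpos : ∀ u : ℝ, (0 : ℝ) < 3 ^ u := fun u => Real.rpow_pos_of_pos (by norm_num) u
  have hRel : ∀ (u : ℝ) (t : ℕ), B ≤ u → u ≤ 20 * t → 2 * (t : ℝ) ≤ u →
      |G s S u - ∑ κ ∈ range (2 * t + 1), P (2 * t) κ * G s S ((u - (lg 4 - 1) * t) + ((κ : ℝ) - t))|
        ≤ C1 / q4 u := by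
    intro u t hu h1 h2
    have h := hR S A0 s t ((3 : ℝ) ^ u) (3 * (3 : ℝ) ^ u) hs hInv hA0 (by rw [lg_rpow]; linarith) (hpos u)
      (by rw [lg_rpow]; linarith) (by linarith [hpos u]) le_rfl (by rw [lg_rpow]; exact h1)
      (by rw [lg_rpow]; exact h2)
    rw [lg_rpow] at h
    have h3 : ∑ κ ∈ range (2 * t + 1), P (2 * t) κ * G s S ((u - (lg 4 - 1) * t) + ((κ : ℝ) - t))
        = ∑ κ ∈ range (2 * t + 1), P (2 * t) κ *
          mass s (ind S) ((3 : ℝ) ^ u * 3 ^ κ / 4 ^ t) (3 * (3 : ℝ) ^ u * 3 ^ κ / 4 ^ t) := by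
      refine sum_congr rfl fun κ _ => ?_
      unfold G
      rw [← shift_point]
      congr 2
      ring
    rw [h3]
    exact h
  have hSlow : ∀ u x : ℝ, B ≤ u → 0 ≤ x → 50 * x ≤ u →
      |G s S (u + x) - G s S u| ≤ C2 * (x / u + 1 / q4 u) := by
    intro u x hu hx hx2
    have hA : 40 * lg A0 ≤ u := by
      have : 0 ≤ lg A0 := div_nonneg (Real.log_nonneg hA0) log3_pos.le
      linarith
    have h := hS S A0 s ((3 : ℝ) ^ u) x hs hInv hA0 (by rw [lg_rpow]; exact hA) (hpos u)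
      (by rw [lg_rpow]; linarith) hx (by rw [lg_rpow]; exact hx2)
    rw [lg_rpow] at h
    unfold G
    rw [Real.rpow_add (by norm_num)]
    exact h
  have h1 := step1 hBinBasic (G s S) (lg 4 - 1) C1 C2 B hC1 hC2 hB1 (by linarith) hG hRel hSlow
  have h2 := step2 (G s S) (lg 4 - 1) C2 (C1 + 4 * C2 + 2700) B hC2 (by positivity) hB1 (by linarith)
    (by linarith) hSlow h1
  have h3 := step3 (G s S) ((C1 + 4 * C2 + 2700) + 4 * C2) B (by positivity) hB1 h2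
  have h5 := step5 (G s S) (2 * ((C1 + 4 * C2 + 2700) + 4 * C2)) B (by positivity) hB1 h3
  obtain ⟨ℓ, hℓ, h6⟩ := step6 (G s S) (100 * (2 * ((C1 + 4 * C2 + 2700) + 4 * C2))) (40 * B)
    (by positivity) (by linarith) (G_nonneg s S) h5
  refine ⟨ℓ, 40 * B, hℓ, by linarith, fun a ha hU => ?_⟩
  have h7 := h6 (lg a) hU
  unfold G at h7
  rw [rpow_lg ha] at h7
  exact h7

end Pool.Agent.Clz
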