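import Pool.Agent.Lib.MP_5a39b1_nt.Clz.Spec3

/-!
MP_5a39b1_nt, module Count: from windows to natural density. See the docstring of `StmtCount` in `Spec3.lean` for the proof.
-/

set_option autoImplicit false

namespace Pool.Agent.Clz

open Finset Filter Topology

namespace Countaux

/-- iteration of a one step inequality -/
theorem iter_le {r : ℝ → ℝ} {c X0 M : ℝ} (hc : 1 < c) (hX0 : 1 ≤ X0)
    (hr : ∀ X, 1 ≤ X → r X ≤ 1) (h : ∀ X, X0 ≤ X → r (c * X) ≤ r X / c + M) {δ : ℝ} (hδ : 0 < δ) :
    ∃ X1, ∀ X, X1 ≤ X → r X ≤ M * c / (c - 1) + δ := by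
  set R : ℝ := M * c / (c - 1) with hR
  have hc1 : 0 < c - 1 := by linarith
  have hRe : R = R / c + M := by
    rw [hR]; field_simp; ring
  have hind : ∀ J : ℕ, ∀ X, c ^ J * X0 ≤ X → r X - R ≤ (1 + |R|) / c ^ J := by
    intro J
    induction J with
    | zero =>
      intro X hX
      have h1 : r X ≤ 1 := hr X (by simp at hX; linarith)
      have h2 := neg_abs_le R
      simp only [pow_zero, div_one]
      linarith
    | succ J ih =>
      intro X hX
      have hcX : c ^ J * X0 ≤ X / c := by
        rw [le_div_iff₀ (by linarith)]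
        calc c ^ J * X0 * c = c ^ (J + 1) * X0 := by ring
          _ ≤ X := hX
      have h1 := ih (X / c) hcX
      have h0 : X0 ≤ X / c := by
        refine le_trans ?_ hcX
        have : (1 : ℝ) ≤ c ^ J := one_le_pow₀ hc.le
        nlinarith
      have h2 := h (X / c) h0
      have h3 : c * (X / c) = X := by field_simp
      rw [h3] at h2
      have h4 : r X - R ≤ (r (X / c) - R) / c := by
        have : (r (X / c) - R) / c = r (X / c) / c - R / c := by ring
        rw [this]; linarith
      calc r X - R ≤ (r (X / c) - R) / c := h4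
        _ ≤ ((1 + |R|) / c ^ J) / c := div_le_div_of_nonneg_right h1 (by linarith)
        _ = (1 + |R|) / c ^ (J + 1) := by rw [pow_succ, div_div]
  have hlim : Tendsto (fun J : ℕ => (1 + |R|) / c ^ J) atTop (𝓝 0) := by
    have h1 : Tendsto (fun J : ℕ => c ^ J) atTop atTop := tendsto_pow_atTop_atTop_of_one_lt hc
    exact h1.const_div_atTop _
  obtain ⟨J, hJ⟩ := ((tendsto_order.1 hlim).2 δ hδ).exists
  exact ⟨c ^ J * X0, fun X hX => by linarith [hind J X hX]⟩

theorem tendsto_k : Tendsto (fun k : ℕ => (k : ℝ) * ((3 : ℝ) ^ (1 / (k : ℝ)) - 1)) atTop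
    (𝓝 (Real.log 3)) := by
  have h1 : HasDerivAt (fun t : ℝ => (3 : ℝ) ^ t) (Real.log 3) 0 := by
    have := (hasDerivAt_id (0 : ℝ)).const_rpow (by norm_num : (0 : ℝ) < 3)
    simpa using this
  have h2 := hasDerivAt_iff_tendsto_slope_zero.1 h1
  have h3 : Tendsto (fun k : ℕ => 1 / (k : ℝ)) atTop (𝓝[≠] 0) := by
    rw [tendsto_nhdsWithin_iff]
    refine ⟨tendsto_one_div_atTop_nhds_zero_nat, ?_⟩
    filter_upwards [eventually_ge_atTop 1] with k hk
    have : (0 : ℝ) < k := by exact_mod_cast hk
    have : (0 : ℝ) < 1 / k := by positivity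
    exact this.ne'
  have h4 := h2.comp h3
  refine h4.congr fun k => ?_
  simp

theorem tendsto_c : Tendsto (fun k : ℕ => (3 : ℝ) ^ (1 / (k : ℝ))) atTop (𝓝 1) := by
  have h1 : Tendsto (fun k : ℕ => 1 / (k : ℝ)) atTop (𝓝 0) := tendsto_one_div_atTop_nhds_zero_nat
  have h2 : Tendsto (fun t : ℝ => (3 : ℝ) ^ t) (𝓝 0) (𝓝 ((3 : ℝ) ^ (0 : ℝ))) :=
    (Real.continuous_const_rpow (by norm_num)).tendsto 0
  rw [Real.rpow_zero] at h2
  exact h2.comp h1

open Classical in
theorem card_eq (S : Set ℤ) (s : ℤ) (X : ℝ) :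
    (((W s 1 X).filter (fun N => N ∈ S)).card : ℝ) = ∑ N ∈ W s 1 X, ind S N := by
  rw [Finset.card_filter]
  push_cast
  exact Finset.sum_congr rfl fun N _ => rfl

open Classical in
theorem card_le {s : ℤ} (hs : s = 1 ∨ s = -1) {X : ℝ} (hX : 1 ≤ X) :
    ((W s 1 X).card : ℝ) ≤ X := by
  have h1 : (W s 1 X).card ≤ (Finset.Icc 1 ⌊X⌋₊).card := by
    apply Finset.card_le_card_of_injOn (fun N => (s * N).toNat)
    · intro N hN
      have hN' := (mem_W hs one_pos).1 hN
      have h2 : (1 : ℤ) ≤ s * N := by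
        have := hN'.1
        exact_mod_cast this
      simp only [Finset.coe_Icc, Set.mem_Icc]
      constructor
      · omega
      · rw [Nat.le_floor_iff (by linarith)]
        have h3 : (((s * N).toNat : ℕ) : ℝ) = ((s * N : ℤ) : ℝ) := by
          have : (((s * N).toNat : ℕ) : ℤ) = s * N := Int.toNat_of_nonneg (by omega)
          exact_mod_cast congrArg (fun z : ℤ => (z : ℝ)) this
        rw [h3]
        exact hN'.2.le
    · intro N hN M hM hNM
      have hN' := (mem_W hs one_pos).1 hN
      have hM' := (mem_W hs one_pos).1 hM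
      have h2 : (1 : ℤ) ≤ s * N := by
        have := hN'.1
        exact_mod_cast this
      have h3 : (1 : ℤ) ≤ s * M := by
        have := hM'.1
        exact_mod_cast this
      simp only at hNM
      have h4 : s * N = s * M := by omega
      rcases hs with rfl | rfl <;> omega
  have h2 : ((W s 1 X).card : ℝ) ≤ ((⌊X⌋₊ : ℕ) : ℝ) := by
    have : (W s 1 X).card ≤ ⌊X⌋₊ := by simpa using h1
    exact_mod_cast this
  exact h2.trans (Nat.floor_le (by linarith))

end Countaux

open Countaux

open Classical in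
theorem stmtCount : StmtCount := by
  intro S s ℓ hs hw
  set r : ℝ → ℝ := fun X => (((W s 1 X).filter (fun N => N ∈ S)).card : ℝ) / X with hr
  have hr0 : ∀ X, 1 ≤ X → 0 ≤ r X := fun X hX => by simp only [hr]; positivity
  have hr1 : ∀ X, 1 ≤ X → r X ≤ 1 := by
    intro X hX
    simp only [hr]
    rw [div_le_one (by linarith)]
    refine le_trans ?_ (card_le hs hX)
    exact_mod_cast Finset.card_filter_le _ _
  have hstep : ∀ (c X : ℝ), 1 < c → 1 ≤ X →
      r (c * X) ≤ r X / c + mass s (ind S) X (c * X) ∧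
      r X / c + mass s (ind S) X (c * X) / c ≤ r (c * X) := by
    intro c X hc hX
    have hX0 : 0 < X := by linarith
    have hcX : X ≤ c * X := by nlinarith
    simp only [hr, card_eq]
    rw [← W_union hs one_pos hX hcX, Finset.sum_union (W_disjoint hs one_pos hX0 le_rfl)]
    have h1 : ∑ N ∈ W s X (c * X), ind S N ≤ c * X * mass s (ind S) X (c * X) := by
      unfold mass
      rw [Finset.mul_sum]
      refine Finset.sum_le_sum fun N hN => ?_
      have h2 := mem_W' hs hX0 hN
      have h3 : 0 < |(N : ℝ)| := lt_of_lt_of_le hX0 h2.1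
      rw [mul_div_assoc', le_div_iff₀ h3, mul_comm (c * X)]
      exact mul_le_mul_of_nonneg_left h2.2.le (ind_nonneg S N)
    have h1' : X * mass s (ind S) X (c * X) ≤ ∑ N ∈ W s X (c * X), ind S N := by
      unfold mass
      rw [Finset.mul_sum]
      refine Finset.sum_le_sum fun N hN => ?_
      have h2 := mem_W' hs hX0 hN
      have h3 : 0 < |(N : ℝ)| := lt_of_lt_of_le hX0 h2.1
      rw [mul_div_assoc', div_le_iff₀ h3, mul_comm X]
      exact mul_le_mul_of_nonneg_left h2.1 (ind_nonneg S N)
    set A := ∑ N ∈ W s 1 X, ind S N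
    set D := ∑ N ∈ W s X (c * X), ind S N
    set m := mass s (ind S) X (c * X)
    have hc0 : 0 < c := by linarith
    constructor
    · rw [div_le_iff₀ (by positivity)]
      have : (A / X / c + m) * (c * X) = A + c * X * m := by field_simp
      rw [this]; linarith
    · rw [le_div_iff₀ (by positivity)]
      have : (A / X / c + m / c) * (c * X) = A + X * m := by field_simp
      rw [this]; linarith
  have hlog : 0 < Real.log 3 := Real.log_pos (by norm_num)
  -- the two limits
  have hup : Tendsto (fun k : ℕ => ℓ / k * (3 : ℝ) ^ (1 / (k : ℝ)) / ((3 : ℝ) ^ (1 / (k : ℝ)) - 1))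
      atTop (𝓝 (ℓ / Real.log 3)) := by
    have h1 := (tendsto_const_nhds (x := ℓ)).mul tendsto_c |>.div tendsto_k hlog.ne'
    rw [mul_one] at h1
    refine h1.congr' ?_
    filter_upwards [eventually_ge_atTop 1] with k hk
    simp only [Pi.div_apply]
    rw [div_mul_eq_mul_div, div_div]
  have hlo : Tendsto (fun k : ℕ => ℓ / k / ((3 : ℝ) ^ (1 / (k : ℝ)) - 1))
      atTop (𝓝 (ℓ / Real.log 3)) := by
    have h1 := (tendsto_const_nhds (x := ℓ)).div tendsto_k hlog.ne'
    refine h1.congr' ?_
    filter_upwards [eventually_ge_atTop 1] with k hk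
    simp only [Pi.div_apply]
    rw [div_div]
  rw [Metric.tendsto_atTop]
  intro ε hε
  have e3 : 0 < ε / 3 := by positivity
  obtain ⟨k, ⟨hk1, hku⟩, hkl⟩ := (((eventually_ge_atTop (1 : ℕ)).and
    ((tendsto_order.1 hup).2 (ℓ / Real.log 3 + ε / 3) (by linarith))).and
    ((tendsto_order.1 hlo).1 (ℓ / Real.log 3 - ε / 3) (by linarith))).exists
  have hk0 : (0 : ℝ) < k := by exact_mod_cast hk1
  set c : ℝ := (3 : ℝ) ^ (1 / (k : ℝ)) with hcdef
  have hc : 1 < c := Real.one_lt_rpow (by norm_num) (by positivity)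
  have hc1 : 0 < c - 1 := by linarith
  set η : ℝ := ε / 6 * (c - 1) / c with hη
  have hη0 : 0 < η := by positivity
  have hw' := Metric.tendsto_atTop.1 (hw k hk1) η hη0
  obtain ⟨X0, hX0⟩ := hw'
  have hX0' : ∀ X, max X0 1 ≤ X → |mass s (ind S) X (c * X) - ℓ / k| < η := by
    intro X hX
    have := hX0 X (le_trans (le_max_left _ _) hX)
    rwa [Real.dist_eq] at this
  obtain ⟨X1, hX1⟩ := iter_le (r := r) (c := c) (X0 := max X0 1) (M := ℓ / k + η) hc
    (le_max_right _ _) hr1 (by
      intro X hX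
      have h1 := (hstep c X hc (le_trans (le_max_right _ _) hX)).1
      have h2 := abs_lt.1 (hX0' X hX)
      linarith) (δ := ε / 6) (by positivity)
  obtain ⟨X2, hX2⟩ := iter_le (r := fun X => - r X) (c := c) (X0 := max X0 1)
    (M := -((ℓ / k - η) / c)) hc
    (le_max_right _ _) (fun X hX => by have := hr0 X hX; linarith) (by
      intro X hX
      have h1 := (hstep c X hc (le_trans (le_max_right _ _) hX)).2
      have h2 := abs_lt.1 (hX0' X hX)
      have h3 : (ℓ / k - η) / c ≤ mass s (ind S) X (c * X) / c :=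
        div_le_div_of_nonneg_right (by linarith) (by linarith)
      have h4 : - r X / c = - (r X / c) := neg_div _ _
      rw [h4]
      linarith) (δ := ε / 6) (by positivity)
  refine ⟨max X1 X2, fun X hX => ?_⟩
  have h1 := hX1 X (le_trans (le_max_left _ _) hX)
  have h2 := hX2 X (le_trans (le_max_right _ _) hX)
  have h3 : (ℓ / k + η) * c / (c - 1) = ℓ / k * c / (c - 1) + ε / 6 := by
    rw [hη]; field_simp
  have h4 : -((ℓ / k - η) / c) * c / (c - 1) = -(ℓ / k / (c - 1)) + ε / 6 / c := by
    rw [hη]; field_simp; ring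
  have h5 : ε / 6 / c ≤ ε / 6 := div_le_self (by positivity) hc.le
  rw [h3] at h1
  rw [h4] at h2
  rw [Real.dist_eq, abs_lt]
  constructor <;> linarith

end Pool.Agent.Clz
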