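import Pool.Agent.Lib.MP_5a39b1_nt.Clz.Spec4

/-!
MP_5a39b1_nt, module DensTree: natural density of a tree exists. See the docstring of `StmtDensTree` in `Spec4.lean` for the proof.
-/

set_option autoImplicit false

namespace Pool.Agent.Clz

open Finset Filter Topology

namespace DensTreeaux

theorem lg_tendsto : Tendsto lg atTop atTop := by
  unfold lg
  exact Real.tendsto_log_atTop.atTop_div_const (Real.log_pos (by norm_num))

theorem q4_lg_tendsto : Tendsto (fun x : ℝ => q4 (lg x)) atTop atTop := by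
  unfold q4
  exact Real.tendsto_sqrt_atTop.comp (Real.tendsto_sqrt_atTop.comp lg_tendsto)

theorem union_single (a : ℤ) : (⋃ b ∈ ({a} : Finset ℤ), tree b) = tree a := by
  simp

theorem inv_tree (hTree : StmtTree) (a : ℤ) (A0 : ℝ) (h : |(a : ℝ)| ≤ A0) : Inv (tree a) A0 := by
  have := (hTree.1 {a} A0 (by simpa using h)).1
  rwa [union_single] at this

theorem mass_conv (hTree : StmtTree) (hConvRate : StmtConvRate) (a : ℤ) (s : ℤ)
    (hs : s = 1 ∨ s = -1) :
    ∃ ℓ : ℝ, 0 ≤ ℓ ∧ Tendsto (fun x : ℝ => mass s (ind (tree a)) x (3 * x)) atTop (𝓝 ℓ) := by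
  obtain ⟨C, hC, h⟩ := hConvRate
  obtain ⟨ℓ, U, hℓ, hU, hb⟩ := h (tree a) (max 1 |(a : ℝ)|) s hs
    (inv_tree hTree a _ (le_max_right _ _)) (le_max_left _ _)
  refine ⟨ℓ, hℓ, ?_⟩
  rw [tendsto_iff_norm_sub_tendsto_zero]
  have h0 : Tendsto (fun x : ℝ => C / q4 (lg x)) atTop (𝓝 0) :=
    tendsto_const_nhds.div_atTop q4_lg_tendsto
  refine squeeze_zero' (Eventually.of_forall fun x => norm_nonneg _) ?_ h0
  filter_upwards [lg_tendsto.eventually_ge_atTop U, eventually_gt_atTop 0] with x hx hx0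
  rw [Real.norm_eq_abs]
  exact hb x hx0 hx

open Classical in
theorem cnt_eq (hTree : StmtTree) (a : ℤ) (ha : a ≠ 0) (N : ℕ) :
    cnt a N = ((W 1 1 ((N : ℝ) + 1)).filter (fun n => n ∈ tree a)).card +
      ((W (-1) 1 ((N : ℝ) + 1)).filter (fun n => n ∈ tree a)).card := by
  have h1 : (1 : ℤ) = 1 ∨ (1 : ℤ) = -1 := Or.inl rfl
  have h2 : (-1 : ℤ) = 1 ∨ (-1 : ℤ) = -1 := Or.inr rfl
  have hd : Disjoint ((W 1 1 ((N : ℝ) + 1)).filter (fun n => n ∈ tree a))
      ((W (-1) 1 ((N : ℝ) + 1)).filter (fun n => n ∈ tree a)) := by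
    rw [Finset.disjoint_left]
    intro n hn1 hn2
    rw [Finset.mem_filter] at hn1 hn2
    have e1 := ((mem_W h1 one_pos).1 hn1.1).1
    have e2 := ((mem_W h2 one_pos).1 hn2.1).1
    push_cast at e1 e2
    linarith
  rw [← Finset.card_union_of_disjoint hd]
  unfold cnt
  rw [← Set.ncard_coe_finset]
  congr 1
  ext n
  simp only [Set.mem_ofPred_eq, Finset.coe_union, Finset.coe_filter, Set.mem_union]
  rw [mem_W h1 one_pos, mem_W h2 one_pos]
  constructor
  · rintro ⟨hn, hk⟩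
    have hnt : n ∈ tree a := hk
    have hn0 : n ≠ 0 := by
      rintro rfl
      exact hTree.2.2 a ha hnt
    rcases lt_or_gt_of_ne hn0 with h | h
    · right
      refine ⟨⟨?_, ?_⟩, hnt⟩
      · have : (1 : ℤ) ≤ -1 * n := by omega
        exact_mod_cast this
      · have : -1 * n < (N : ℤ) + 1 := by
          have := (abs_le.1 hn).1
          omega
        exact_mod_cast this
    · left
      refine ⟨⟨?_, ?_⟩, hnt⟩
      · have : (1 : ℤ) ≤ 1 * n := by omega
        exact_mod_cast this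
      · have : 1 * n < (N : ℤ) + 1 := by
          have := (abs_le.1 hn).2
          omega
        exact_mod_cast this
  · rintro (⟨⟨e1, e2⟩, hnt⟩ | ⟨⟨e1, e2⟩, hnt⟩)
    · refine ⟨?_, hnt⟩
      have e1' : (1 : ℤ) ≤ 1 * n := by exact_mod_cast e1
      have e2' : 1 * n < (N : ℤ) + 1 := by exact_mod_cast e2
      rw [abs_le]
      omega
    · refine ⟨?_, hnt⟩
      have e1' : (1 : ℤ) ≤ -1 * n := by exact_mod_cast e1
      have e2' : -1 * n < (N : ℤ) + 1 := by exact_mod_cast e2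
      rw [abs_le]
      omega

open Classical in
theorem count_conv (hTree : StmtTree) (hWinConv : StmtWinConv) (hCount : StmtCount) (a : ℤ) (s : ℤ)
    (hs : s = 1 ∨ s = -1) (ℓ : ℝ)
    (h : Tendsto (fun x : ℝ => mass s (ind (tree a)) x (3 * x)) atTop (𝓝 ℓ)) :
    Tendsto (fun N : ℕ => (((W s 1 ((N : ℝ) + 1)).filter (fun n => n ∈ tree a)).card : ℝ) /
      ((N : ℝ) + 1)) atTop (𝓝 (ℓ / Real.log 3)) := by
  have h1 := hCount (tree a) s ℓ hs fun k hk =>
    hWinConv (tree a) (max 1 |(a : ℝ)|) s ℓ k hs (inv_tree hTree a _ (le_max_right _ _))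
      (le_max_left _ _) hk h
  have h2 : Tendsto (fun N : ℕ => (N : ℝ) + 1) atTop atTop :=
    tendsto_natCast_atTop_atTop.atTop_add tendsto_const_nhds
  exact h1.comp h2

theorem main (hTree : StmtTree) (hConvRate : StmtConvRate) (hWinConv : StmtWinConv)
    (hCount : StmtCount) (a : ℤ) (ha : a ≠ 0) : ∃ ℓ₁ ℓ₂ : ℝ, 0 ≤ ℓ₁ ∧ 0 ≤ ℓ₂ ∧
      Tendsto (fun x : ℝ => mass 1 (ind (tree a)) x (3 * x)) atTop (𝓝 ℓ₁) ∧
      Tendsto (fun x : ℝ => mass (-1) (ind (tree a)) x (3 * x)) atTop (𝓝 ℓ₂) ∧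
      Tendsto (fun N : ℕ => (cnt a N : ℝ) / N) atTop (𝓝 ((ℓ₁ + ℓ₂) / Real.log 3)) := by
  classical
  obtain ⟨ℓ₁, h10, h1⟩ := mass_conv hTree hConvRate a 1 (Or.inl rfl)
  obtain ⟨ℓ₂, h20, h2⟩ := mass_conv hTree hConvRate a (-1) (Or.inr rfl)
  refine ⟨ℓ₁, ℓ₂, h10, h20, h1, h2, ?_⟩
  have c1 := count_conv hTree hWinConv hCount a 1 (Or.inl rfl) ℓ₁ h1
  have c2 := count_conv hTree hWinConv hCount a (-1) (Or.inr rfl) ℓ₂ h2
  have hr : Tendsto (fun N : ℕ => ((N : ℝ) + 1) / N) atTop (𝓝 1) := by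
    have e : Tendsto (fun N : ℕ => 1 + 1 / (N : ℝ)) atTop (𝓝 (1 + 0)) :=
      tendsto_const_nhds.add tendsto_one_div_atTop_nhds_zero_nat
    rw [add_zero] at e
    refine e.congr' ?_
    filter_upwards [eventually_gt_atTop 0] with N hN
    have : (N : ℝ) ≠ 0 := by positivity
    field_simp
  have c := (c1.add c2).mul hr
  rw [mul_one, ← add_div] at c
  refine c.congr' ?_
  filter_upwards [eventually_gt_atTop 0] with N hN
  have hN' : (N : ℝ) ≠ 0 := by positivity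
  have hN1 : (N : ℝ) + 1 ≠ 0 := by positivity
  rw [cnt_eq hTree a ha N]
  push_cast
  field_simp

end DensTreeaux

theorem stmtDensTree (hTree : StmtTree) (hConvRate : StmtConvRate) (hWinConv : StmtWinConv) (hCount : StmtCount) : StmtDensTree := by
  intro a ha
  obtain ⟨ℓ₁, ℓ₂, h10, h20, h1, h2, hd⟩ :=
    DensTreeaux.main hTree hConvRate hWinConv hCount a ha
  have hlog : 0 < Real.log 3 := Real.log_pos (by norm_num)
  refine ⟨⟨_, by positivity, hd⟩, ?_⟩
  intro hQ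
  have hzero : ℓ₁ + ℓ₂ ≤ 0 := by
    by_contra hcon
    rw [not_le] at hcon
    apply hQ
    have hdpos : 0 < (ℓ₁ + ℓ₂) / Real.log 3 := by positivity
    have hev := (tendsto_order.1 hd).1 _ (half_lt_self hdpos)
    obtain ⟨N₀, hN₀⟩ := eventually_atTop.1 hev
    refine ⟨(ℓ₁ + ℓ₂) / Real.log 3 / 2, by positivity, N₀ + 1, fun N hN => ?_⟩
    have h3 := hN₀ N (by omega)
    have hNpos : (0 : ℝ) < N := by
      have : 0 < N := by omega
      exact_mod_cast this
    rwa [lt_div_iff₀ hNpos] at h3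
  have e1 : ℓ₁ = 0 := by linarith
  have e2 : ℓ₂ = 0 := by linarith
  rw [e1] at h1
  rw [e2] at h2
  rintro s (rfl | rfl)
  · exact h1
  · exact h2

end Pool.Agent.Clz
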