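import Pool.Agent.Lib.MP_5a39b1_nt.Clz.Spec2

/-!
MP_5a39b1_nt, module FrSmall: the density is positive on most units. See the docstring of `StmtFrSmall` in `Spec2.lean` for the proof.
-/

set_option autoImplicit false

namespace Pool.Agent.Clz

open Finset

namespace FrSmallaux

/-! ### One letter recursion -/

theorem fr_succ (hWords : StmtWords) (s : ℕ) (z : ℤ) :
    fr (s + 1) z = (1 / 4) * ∑ c : Fin 4, kerF [c] z * fr s (Nz [c] z) := by
  obtain ⟨-, -, -, -, -, -, h7, h8⟩ := hWords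
  unfold fr
  rw [Ew_succ, smul_eq_mul]
  congr 1
  refine Finset.sum_congr rfl fun c _ => ?_
  by_cases hv : valid [c] z
  · have hk : kerF [c] z = 3 ^ kap [c] := by
      unfold kerF
      exact if_pos hv
    rw [hk, ← Ew_mul]
    exact Ew_congr fun g _ => h7 [c] g z hv
  · have hk : kerF [c] z = 0 := by
      unfold kerF
      exact if_neg hv
    rw [hk, zero_mul, ← Ew_zero' (E := ℝ) s]
    exact Ew_congr fun g _ => h8 [c] g z hv

theorem Nz_zero (z : ℤ) : Nz [0] z = 4 * z := by
  simp [Nz, F1, kap1]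

theorem kerF_zero (z : ℤ) : kerF [0] z = 1 := by
  simp [kerF, F1, kap1]

theorem fr_four_mul (hWords : StmtWords) (s : ℕ) (z : ℤ) : fr s (4 * z) ≤ 4 * fr (s + 1) z := by
  rw [fr_succ hWords, Fin.sum_univ_four, Nz_zero, kerF_zero]
  have h1 := mul_nonneg (kerF_nonneg [1] z) (fr_nonneg s (Nz [1] z))
  have h2 := mul_nonneg (kerF_nonneg [2] z) (fr_nonneg s (Nz [2] z))
  have h3 := mul_nonneg (kerF_nonneg [3] z) (fr_nonneg s (Nz [3] z))
  linarith

theorem fr_four_pow (hWords : StmtWords) (k r : ℕ) (z : ℤ) :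
    fr r (4 ^ k * z) ≤ 4 ^ k * fr (r + k) z := by
  induction k generalizing r with
  | zero => simp
  | succ k ih =>
    have h1 := fr_four_mul hWords r (4 ^ k * z)
    have h2 := ih (r + 1)
    rw [show (4 : ℤ) ^ (k + 1) * z = 4 * (4 ^ k * z) by ring,
      show r + (k + 1) = r + 1 + k by ring]
    calc fr r (4 * (4 ^ k * z)) ≤ 4 * fr (r + 1) (4 ^ k * z) := h1
      _ ≤ 4 * (4 ^ k * fr (r + 1 + k) z) := by linarith
      _ = 4 ^ (k + 1) * fr (r + 1 + k) z := by ring

/-! ### Averages over the classes modulo 3 -/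

theorem per_if (s N : ℕ) (j : ℤ) (h1 : 1 ≤ N) (h2 : 2 * s ≤ N) (z : ℤ) :
    (if (z + 3 ^ N) % 3 = j then fr s (z + 3 ^ N) else 0) = (if z % 3 = j then fr s z else 0) := by
  have e : (z + 3 ^ N) % 3 = z % 3 := by
    obtain ⟨d, rfl⟩ := Nat.exists_eq_add_of_le h1
    rw [pow_add, pow_one]
    simp [Int.add_mul_emod_self_left]
  rw [e, fr_periodic s N h2]

theorem valid_iff (c : Fin 4) (hc : kap1 c = 1) (z : ℤ) :
    valid [c] z ↔ z % 3 = F1 c := by
  have h : c = 1 ∨ c = 2 := by
    revert hc; fin_cases c <;> simp [kap1]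
  rcases h with rfl | rfl
  · simp only [valid, kap_cons, kap_nil, FF_cons, FF_nil, kap1, F1, List.length_cons,
      List.length_nil]
    simp
    omega
  · simp only [valid, kap_cons, kap_nil, FF_cons, FF_nil, kap1, F1, List.length_cons,
      List.length_nil]
    simp
    omega

theorem F1_eq (c : Fin 4) (hc : kap1 c = 1) : F1 c = 1 ∨ F1 c = 2 := by
  have h : c = 1 ∨ c = 2 := by
    revert hc; fin_cases c <;> simp [kap1]
  rcases h with rfl | rfl
  · left; simp [F1]
  · right; simp [F1]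

theorem base_avg (j : ℤ) (hj : j = 1 ∨ j = 2) (N : ℕ) (hN : 1 ≤ N) :
    avg N (fun z => if z % 3 = j then (1 : ℝ) else 0) = 1 / 3 := by
  rw [avg_of_periodic hN]
  · unfold avg
    rcases hj with rfl | rfl
    · rw [pow_one]
      simp only [Finset.sum_range_succ, Finset.sum_range_zero]
      norm_num
    · rw [pow_one]
      simp only [Finset.sum_range_succ, Finset.sum_range_zero]
      norm_num
  · intro z
    have : (z + 3 ^ 1) % 3 = z % 3 := by omega
    rw [this]

theorem Q_lower (hWords : StmtWords) (hKerAvg : StmtKerAvg) (c : Fin 4) (hc : kap1 c = 1)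
    (s : ℕ) : ∀ N, 1 ≤ N → 2 * s ≤ N →
      1 / 3 ≤ avg N (fun z => if z % 3 = F1 c then fr s z else 0) := by
  induction s with
  | zero =>
    intro N hN _
    rw [← base_avg (F1 c) (F1_eq c hc) N hN]
    apply le_of_eq
    congr 1
    funext z
    have : fr 0 z = 1 := by simp [fr, kerF]
    rw [this]
  | succ s ih =>
    intro N hN hs
    set N0 := max (2 * s) 1 with hN0
    have h1 : 1 ≤ N0 := le_max_right _ _
    have h2 : 2 * s ≤ N0 := le_max_left _ _
    have h3 : 1 + N0 ≤ N := by omega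
    have hφ : ∀ z : ℤ, (fun w : ℤ => if w % 3 = F1 c then fr s w else 0) (z + 3 ^ N0) =
        (fun w : ℤ => if w % 3 = F1 c then fr s w else 0) z := fun z =>
      per_if s N0 (F1 c) h1 h2 z
    have e0 := hKerAvg.2.2 [0] N0 N (fun w : ℤ => if w % 3 = F1 c then fr s w else 0) hφ
      (by simp [kap1]; omega)
    have e1 := hKerAvg.2.2 [c] N0 N (fr s) (fun z => fr_periodic s N0 h2 z)
      (by simp [hc]; omega)
    have e2 := hKerAvg.2.1 N0 s h2
    have e3 := ih N0 h1 h2
    have key : ∀ z : ℤ, (1 / 4) * (kerF [0] z * (fun w : ℤ => if w % 3 = F1 c then fr s w else 0)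
          (Nz [0] z) + kerF [c] z * fr s (Nz [c] z))
        ≤ (if z % 3 = F1 c then fr (s + 1) z else 0) := by
      intro z
      by_cases hz : z % 3 = F1 c
      · rw [if_pos hz, fr_succ hWords]
        have h4 : (Nz [0] z) % 3 = F1 c := by rw [Nz_zero]; omega
        simp only [h4, if_true]
        have hne : c ≠ 0 := by rintro rfl; simp [kap1] at hc
        have hsum : kerF [0] z * fr s (Nz [0] z) + kerF [c] z * fr s (Nz [c] z)
            ≤ ∑ d : Fin 4, kerF [d] z * fr s (Nz [d] z) := by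
          have := Finset.sum_le_sum_of_subset_of_nonneg
            (f := fun d : Fin 4 => kerF [d] z * fr s (Nz [d] z))
            (Finset.subset_univ ({0, c} : Finset (Fin 4)))
            (fun d _ _ => mul_nonneg (kerF_nonneg [d] z) (fr_nonneg s (Nz [d] z)))
          rwa [Finset.sum_pair (Ne.symm hne)] at this
        linarith
      · rw [if_neg hz]
        have h4 : ¬ (Nz [0] z) % 3 = F1 c := by rw [Nz_zero]; omega
        have h5 : kerF [c] z = 0 := by
          unfold kerF
          exact if_neg fun hv => hz ((valid_iff c hc z).mp hv)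
        simp only [h4, if_false, h5]
        simp
    have h6 := avg_mono (N := N) key
    rw [avg_mul, avg_add, e0, e1, e2] at h6
    linarith

/-! ### Powers of 4 run over a class modulo 3 -/

theorem periodic_emod (φ : ℤ → ℝ) (m : ℤ) (h : ∀ z, φ (z + m) = φ z) (z : ℤ) :
    φ (z % m) = φ z := by
  have hp : Function.Periodic φ m := h
  have h1 : z % m = z - (z / m) * m := by
    have := Int.emod_add_mul_ediv z m
    linarith [mul_comm m (z / m)]
  rw [h1]
  have := hp.sub_zsmul_eq (z / m) (x := z)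
  simpa [zsmul_eq_mul] using this

theorem dvd_of_pow_four (M n : ℕ) (hM : 1 ≤ M) (hn : n ≠ 0) (h : (3 : ℤ) ^ M ∣ 4 ^ n - 1) :
    3 ^ (M - 1) ∣ n := by
  haveI : Fact (Nat.Prime 3) := ⟨Nat.prime_three⟩
  have h1 : 3 ^ M ∣ 4 ^ n - 1 ^ n := by
    have h2 : ((3 ^ M : ℕ) : ℤ) ∣ ((4 ^ n - 1 ^ n : ℕ) : ℤ) := by
      rw [Nat.cast_sub (by rw [one_pow]; exact Nat.one_le_pow _ _ (by norm_num))]
      push_cast
      simpa using h
    exact_mod_cast h2
  have h3 : padicValNat 3 (4 ^ n - 1 ^ n) = padicValNat 3 (4 - 1) + padicValNat 3 n :=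
    padicValNat.pow_sub_pow (by decide) (by norm_num) (by norm_num) (by norm_num) hn
  have hne : 4 ^ n - 1 ^ n ≠ 0 := by
    rw [one_pow]
    have : 4 ^ 1 ≤ 4 ^ n := Nat.pow_le_pow_right (by norm_num) (Nat.one_le_iff_ne_zero.mpr hn)
    omega
  have h4 : M ≤ padicValNat 3 (4 ^ n - 1 ^ n) :=
    (padicValNat_dvd_iff_le hne).mp h1
  rw [h3] at h4
  have h5 : padicValNat 3 (4 - 1) = 1 := by
    have : (4 - 1 : ℕ) = 3 := rfl
    rw [this]
    exact padicValNat_self
  rw [h5] at h4
  exact (padicValNat_dvd_iff_le hn).mpr (by omega)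

theorem sum_pow_four (M : ℕ) (hM : 1 ≤ M) (φ : ℤ → ℝ) (hφ : ∀ z, φ (z + 3 ^ M) = φ z) (z : ℤ)
    (hz : ¬ (3 : ℤ) ∣ z) :
    ∑ k ∈ range (3 ^ (M - 1)), φ (4 ^ k * z) =
      ∑ w ∈ range (3 ^ M), (if (w : ℤ) % 3 = z % 3 then φ w else 0) := by
  classical
  rw [← Finset.sum_filter]
  set F := (range (3 ^ M)).filter (fun w : ℕ => (w : ℤ) % 3 = z % 3) with hF
  have h3pos : (0 : ℤ) < 3 ^ M := by positivity
  have h3dvd : (3 : ℤ) ∣ 3 ^ M := dvd_pow_self 3 (by omega)
  set i : ℕ → ℕ := fun k => ((4 ^ k * z) % 3 ^ M).toNat with hi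
  have hicast : ∀ k, ((i k : ℕ) : ℤ) = (4 ^ k * z) % 3 ^ M := fun k =>
    Int.toNat_of_nonneg (Int.emod_nonneg _ h3pos.ne')
  have hinj : Set.InjOn i (range (3 ^ (M - 1)) : Finset ℕ) := by
    have main : ∀ k l : ℕ, k ≤ l → l < 3 ^ (M - 1) → i k = i l → k = l := by
      intro k l hkl hl h
      by_contra hne
      have h1 : (4 ^ k * z) % 3 ^ M = (4 ^ l * z) % 3 ^ M := by
        rw [← hicast, ← hicast, h]
      have h2 : (3 : ℤ) ^ M ∣ 4 ^ l * z - 4 ^ k * z := Int.ModEq.dvd h1
      have h3 : (4 : ℤ) ^ l * z - 4 ^ k * z = (4 ^ (l - k) - 1) * (4 ^ k * z) := by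
        have : (4 : ℤ) ^ l = 4 ^ (l - k) * 4 ^ k := by
          rw [← pow_add]; congr 1; omega
        rw [this]; ring
      rw [h3] at h2
      have hcop : IsCoprime ((3 : ℤ) ^ M) (4 ^ k * z) := by
        apply IsCoprime.pow_left
        apply IsCoprime.mul_right
        · exact IsCoprime.pow_right (by norm_num)
        · exact (Int.prime_three.coprime_iff_not_dvd).mpr hz
      have h4 : (3 : ℤ) ^ M ∣ 4 ^ (l - k) - 1 := hcop.dvd_of_dvd_mul_right h2
      have h5 := dvd_of_pow_four M (l - k) hM (by omega) h4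
      have h6 := Nat.le_of_dvd (by omega) h5
      omega
    intro k hk l hl h
    simp only [Finset.coe_range, Set.mem_Iio] at hk hl
    rcases le_total k l with hkl | hkl
    · exact main k l hkl hl h
    · exact (main l k hkl hk h.symm).symm
  have hsub : (range (3 ^ (M - 1))).image i ⊆ F := by
    intro w hw
    rw [Finset.mem_image] at hw
    obtain ⟨k, -, rfl⟩ := hw
    rw [hF, Finset.mem_filter, Finset.mem_range]
    constructor
    · have : ((i k : ℕ) : ℤ) < 3 ^ M := by
        rw [hicast]; exact Int.emod_lt_of_pos _ h3pos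
      exact_mod_cast this
    · rw [hicast, Int.emod_emod_of_dvd _ h3dvd]
      have : (4 : ℤ) ^ k % 3 = 1 := by
        have h4 : (4 : ℤ) ≡ 1 [ZMOD 3] := by decide
        have h5 := h4.pow k
        rw [one_pow] at h5
        exact h5
      rw [Int.mul_emod, this]
      simp
  have hcard : F.card ≤ ((range (3 ^ (M - 1))).image i).card := by
    rw [Finset.card_image_of_injOn hinj, Finset.card_range]
    have h1 : ((F.card : ℕ) : ℝ) = (3 : ℝ) ^ (M - 1) := by
      have h2 := sum_range_periodic (fun w : ℤ => if w % 3 = z % 3 then (1 : ℝ) else 0) 3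
        (fun w => by
          have : (w + (3 : ℕ)) % 3 = w % 3 := by push_cast; omega
          rw [this]) (3 ^ (M - 1))
      have h3 : 3 ^ (M - 1) * 3 = 3 ^ M := by
        rw [← pow_succ]; congr 1; omega
      rw [h3] at h2
      have h4 : ∑ w ∈ range 3, (if ((w : ℕ) : ℤ) % 3 = z % 3 then (1 : ℝ) else 0) = 1 := by
        have h5 : z % 3 = 0 ∨ z % 3 = 1 ∨ z % 3 = 2 := by omega
        rcases h5 with h5 | h5 | h5 <;> rw [h5] <;>
          simp only [Finset.sum_range_succ, Finset.sum_range_zero] <;> norm_num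
      rw [h4] at h2
      rw [hF, Finset.card_filter]
      push_cast
      rw [mul_one] at h2
      push_cast at h2
      exact h2
    have h2 : F.card = 3 ^ (M - 1) := by exact_mod_cast h1
    exact h2.le
  have himg := Finset.eq_of_subset_of_card_le hsub hcard
  rw [← himg, Finset.sum_image hinj]
  refine Finset.sum_congr rfl fun k _ => ?_
  rw [hicast, periodic_emod φ _ hφ]

theorem avg_four_pow (hKerAvg : StmtKerAvg) (N k : ℕ) :
    ∀ φ : ℤ → ℝ, (∀ z, φ (z + 3 ^ N) = φ z) → avg N (fun z => φ (4 ^ k * z)) = avg N φ := by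
  induction k with
  | zero => intro φ _; simp
  | succ k ih =>
    intro φ hφ
    have hφ' : ∀ z, (fun w => φ (4 * w)) (z + 3 ^ N) = (fun w => φ (4 * w)) z := by
      intro z
      show φ (4 * (z + 3 ^ N)) = φ (4 * z)
      rw [show 4 * (z + 3 ^ N) = 4 * z + 3 ^ N + 3 ^ N + 3 ^ N + 3 ^ N by ring, hφ, hφ, hφ, hφ]
    have h1 := ih (fun w => φ (4 * w)) hφ'
    have h2 := hKerAvg.2.2 [0] N N φ hφ (by simp [kap1])
    have h3 : avg N (fun z => kerF [0] z * φ (Nz [0] z)) = avg N (fun z => φ (4 * z)) := by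
      congr 1; funext z; rw [kerF_zero, Nz_zero, one_mul]
    rw [h3] at h2
    rw [← h2, ← h1]
    congr 1
    funext z
    show φ (4 ^ (k + 1) * z) = φ (4 * (4 ^ k * z))
    congr 1
    ring

end FrSmallaux

open FrSmallaux

theorem stmtFrSmall (hKapLaw : StmtKapLaw) (hWords : StmtWords) (hKerAvg : StmtKerAvg) (hFrTail : StmtFrTail) : StmtFrSmall := by
  have _ := hKapLaw
  intro η hη
  obtain ⟨C, hC, hCb⟩ := hFrTail.2
  obtain ⟨s0, hs0⟩ := exists_nat_gt (2 * C / η)
  set s := s0 + 1 with hs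
  have hs1 : 1 ≤ s := by omega
  have hspos : (0 : ℝ) < (s : ℝ) := by exact_mod_cast hs1
  have hCs : C / (s : ℝ) ≤ η / 2 := by
    have h1 : 2 * C / η < (s : ℝ) := by
      have : (s : ℝ) = s0 + 1 := by rw [hs]; push_cast; ring
      linarith
    rw [div_lt_iff₀ hη] at h1
    rw [div_le_iff₀ hspos]
    linarith
  set K := 3 ^ (2 * s - 1) with hK
  have hKpos : 0 < K := by positivity
  have hKr : (0 : ℝ) < (K : ℝ) := by exact_mod_cast hKpos
  refine ⟨1 / (2 * 4 ^ K), s + K, by positivity, ?_⟩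
  intro r N hr hN
  -- lower bound of the mean over the powers of 4
  have hmean : ∀ z : ℤ, ¬ (3 : ℤ) ∣ z → (K : ℝ) ≤ ∑ k ∈ range K, fr s (4 ^ k * z) := by
    intro z hz
    have h1 := sum_pow_four (2 * s) (by omega) (fr s) (fun w => fr_periodic s (2 * s) le_rfl w) z hz
    rw [hK, h1]
    obtain ⟨c, hc, hcz⟩ : ∃ c : Fin 4, kap1 c = 1 ∧ z % 3 = F1 c := by
      have h5 : z % 3 = 1 ∨ z % 3 = 2 := by omega
      rcases h5 with h5 | h5
      · exact ⟨1, by simp [kap1], by simp [F1, h5]⟩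
      · exact ⟨2, by simp [kap1], by simp [F1, h5]⟩
    have h2 := Q_lower hWords hKerAvg c hc s (2 * s) (by omega) le_rfl
    unfold avg at h2
    rw [le_div_iff₀ (by positivity)] at h2
    rw [hcz]
    have h3 : (1 / 3 : ℝ) * 3 ^ (2 * s) = ((3 ^ (2 * s - 1) : ℕ) : ℝ) := by
      have : (3 : ℝ) ^ (2 * s) = 3 ^ (2 * s - 1) * 3 := by
        rw [← pow_succ, show 2 * s - 1 + 1 = 2 * s by omega]
      rw [this]; push_cast; ring
    rw [h3] at h2
    exact h2
  -- pointwise bound
  have hpt : ∀ z : ℤ, (if ¬ (3 : ℤ) ∣ z ∧ fr r z < 1 / (2 * 4 ^ K) then (1 : ℝ) else 0)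
      ≤ (2 / (K : ℝ)) * ∑ k ∈ range K,
        (fun w => |fr (r - k) w - fr s w|) (4 ^ k * z) := by
    intro z
    split_ifs with hc
    · have h1 := hmean z hc.1
      have h2 : ∀ k ∈ range K, fr s (4 ^ k * z) ≤
          1 / 2 + (fun w => |fr (r - k) w - fr s w|) (4 ^ k * z) := by
        intro k hk
        rw [Finset.mem_range] at hk
        have h3 := fr_four_pow hWords k (r - k) z
        rw [show r - k + k = r by omega] at h3
        have h4 : (4 : ℝ) ^ k * fr r z ≤ 1 / 2 := by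
          have h5 : (4 : ℝ) ^ k ≤ 4 ^ K := pow_le_pow_right₀ (by norm_num) hk.le
          have h6 := fr_nonneg r z
          calc (4 : ℝ) ^ k * fr r z ≤ 4 ^ K * fr r z := by gcongr
            _ ≤ 4 ^ K * (1 / (2 * 4 ^ K)) := by
              have := hc.2.le
              gcongr
            _ = 1 / 2 := by field_simp
        have h7 : fr s (4 ^ k * z) - fr (r - k) (4 ^ k * z)
            ≤ |fr (r - k) (4 ^ k * z) - fr s (4 ^ k * z)| := by
          rw [abs_sub_comm]; exact le_abs_self _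
        show fr s (4 ^ k * z) ≤ 1 / 2 + |fr (r - k) (4 ^ k * z) - fr s (4 ^ k * z)|
        linarith
      have h3 := Finset.sum_le_sum h2
      rw [Finset.sum_add_distrib, Finset.sum_const, Finset.card_range, nsmul_eq_mul] at h3
      have h4 : (K : ℝ) / 2 ≤ ∑ k ∈ range K, (fun w => |fr (r - k) w - fr s w|) (4 ^ k * z) := by
        linarith
      calc (1 : ℝ) = (2 / (K : ℝ)) * (K / 2) := by field_simp
        _ ≤ _ := by gcongr
    · apply mul_nonneg (by positivity)
      exact Finset.sum_nonneg fun k _ => abs_nonneg _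
  refine (avg_mono hpt).trans ?_
  rw [avg_mul, avg_finset_sum]
  have hterm : ∀ k ∈ range K, avg N (fun z => (fun w => |fr (r - k) w - fr s w|) (4 ^ k * z))
      ≤ η / 2 := by
    intro k hk
    rw [Finset.mem_range] at hk
    rw [avg_four_pow hKerAvg N k (fun w => |fr (r - k) w - fr s w|)]
    · exact (hCb s (r - k) N hs1 (by omega) (by omega)).trans hCs
    · intro z
      show |fr (r - k) (z + 3 ^ N) - fr s (z + 3 ^ N)| = |fr (r - k) z - fr s z|
      rw [fr_periodic (r - k) N (by omega), fr_periodic s N (by omega)]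
  have hsum := Finset.sum_le_sum hterm
  rw [Finset.sum_const, Finset.card_range, nsmul_eq_mul] at hsum
  calc (2 / (K : ℝ)) * ∑ k ∈ range K, avg N (fun z => (fun w => |fr (r - k) w - fr s w|) (4 ^ k * z))
      ≤ (2 / (K : ℝ)) * (K * (η / 2)) := by gcongr
    _ = η := by field_simp

end Pool.Agent.Clz
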