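import Pool.Agent.Lib.MP_5a39b1_nt.Clz.Spec2

/-!
MP_5a39b1_nt, module FrTail: the densities fr r are Cauchy in L1. See the docstring of `StmtFrTail` in `Spec2.lean` for the proof.
-/

set_option autoImplicit false

namespace Pool.Agent.Clz.FrTailaux

open Finset

theorem part1 (hHFsum : StmtHFsum) (a : ℕ) : ∃ C : ℝ, 0 < C ∧ ∀ (m r N : ℕ), 1 ≤ m → 2 * r ≤ N →
    avg N (fun z => |fr r z - frm m r z|) ≤ C / (m : ℝ) ^ a := by
  obtain ⟨C, hC, h⟩ := hHFsum a
  refine ⟨C, hC, fun m r N hm hr => ?_⟩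
  have h1 := h m r 0 0 N hm (Nat.zero_le r) hr
  have h2 : (fun z => |Dd 0 r 0 z - Ddm m 0 r 0 z|) = fun z => |fr r z - frm m r z| := by
    funext z
    simp [Dd, Ddm, fr, frm]
  rw [h2] at h1
  exact h1

/-- if the first piece has many threes then the kernel only depends on it -/
theorem ker_append (m : ℕ) (g g' : List (Fin 4)) (h : m ≤ kap g) (z : ℤ) :
    ker m (g ++ g') z = ker m g z := by
  have h1 : min m (kap g) = m := min_eq_left h
  have h2 : min m (kap (g ++ g')) = m := by
    rw [kap_append]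
    exact min_eq_left (by omega)
  unfold ker
  rw [h1, h2]
  have hcop : IsCoprime ((3 : ℤ) ^ m) ((4 : ℤ) ^ g'.length) := by
    apply IsCoprime.pow
    exact ⟨-1, 1, by norm_num⟩
  have h3 : (3 : ℤ) ^ m ∣ 4 ^ (g ++ g').length * z - FF (g ++ g') ↔
      (3 : ℤ) ^ m ∣ 4 ^ g.length * z - FF g := by
    rw [List.length_append, FF_append]
    have e : 4 ^ (g.length + g'.length) * z - (4 ^ g'.length * FF g + 3 ^ kap g * FF g') =
        4 ^ g'.length * (4 ^ g.length * z - FF g) - 3 ^ kap g * FF g' := by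
      rw [pow_add]; ring
    rw [e]
    have hd : (3 : ℤ) ^ m ∣ 3 ^ kap g * FF g' := Dvd.dvd.mul_right (pow_dvd_pow 3 h) _
    rw [dvd_sub_left hd]
    constructor
    · intro h
      exact hcop.dvd_of_dvd_mul_left h
    · intro h
      exact Dvd.dvd.mul_left h _
  simp only [h3]

theorem mid (hBinShift : StmtBinShift) (hBinBasic : StmtBinBasic) (hKapLaw : StmtKapLaw)
    (hKerAvg : StmtKerAvg)
    (s d N : ℕ) (hs : 1 ≤ s) (hN : 2 * (s + d) ≤ N) :
    avg N (fun z => |frm ((s + 1) / 2) (s + d) z - frm ((s + 1) / 2) s z|) ≤ 4 / (s : ℝ) := by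
  set m : ℕ := (s + 1) / 2 with hm
  have hmN : m ≤ N := by omega
  have hpt : ∀ z, |frm m (s + d) z - frm m s z| ≤
      Ew s (fun g => Ew d (fun g' => if kap g < m then ker m (g ++ g') z + ker m g z else 0)) := by
    intro z
    unfold frm
    rw [Ew_append]
    have e : Ew s (fun g => ker m g z) = Ew s (fun g => Ew d (fun _ => ker m g z)) := by
      apply Ew_congr
      intro g _
      rw [Ew_const]
    rw [e, ← Ew_sub]
    refine (abs_Ew_le _ _).trans (Ew_mono fun g _ => ?_)
    rw [← Ew_sub]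
    refine (abs_Ew_le _ _).trans (Ew_mono fun g' _ => ?_)
    by_cases h : kap g < m
    · rw [if_pos h]
      have h1 := ker_nonneg m (g ++ g') z
      have h2 := ker_nonneg m g z
      rw [abs_le]
      constructor <;> linarith
    · rw [if_neg h, ker_append m g g' (not_lt.1 h), sub_self, abs_zero]
  have h1 : avg N (fun z => |frm m (s + d) z - frm m s z|) ≤
      avg N (fun z => Ew s (fun g => Ew d
        (fun g' => if kap g < m then ker m (g ++ g') z + ker m g z else 0))) := avg_mono hpt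
  have h2 : avg N (fun z => Ew s (fun g => Ew d
        (fun g' => if kap g < m then ker m (g ++ g') z + ker m g z else 0))) =
      Ew s (fun g => 2 * (if kap g < m then 1 else 0)) := by
    rw [avg_Ew N s (fun g z => Ew d
        (fun g' => if kap g < m then ker m (g ++ g') z + ker m g z else 0))]
    apply Ew_congr
    intro g _
    rw [avg_Ew N d (fun g' z => if kap g < m then ker m (g ++ g') z + ker m g z else 0)]
    rw [← Ew_const d (2 * (if kap g < m then (1 : ℝ) else 0))]
    apply Ew_congr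
    intro g' _
    by_cases h : kap g < m
    · simp only [if_pos h]
      rw [avg_add, hKerAvg.1 m N (g ++ g') ((min_le_left _ _).trans hmN),
        hKerAvg.1 m N g ((min_le_left _ _).trans hmN)]
      norm_num
    · simp only [if_neg h]
      rw [avg_const]
      norm_num
  have h3 : Ew s (fun g => 2 * (if kap g < m then (1 : ℝ) else 0)) =
      2 * ∑ k ∈ range (2 * s + 1), P (2 * s) k * (if k < m then (1 : ℝ) else 0) := by
    rw [Ew_mul]
    congr 1
    exact hKapLaw s (fun k => if k < m then (1 : ℝ) else 0)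
  have hs' : (0 : ℝ) < s := by exact_mod_cast hs
  have h4 : ∑ k ∈ range (2 * s + 1), P (2 * s) k * (if k < m then (1 : ℝ) else 0) ≤ 2 / (s : ℝ) := by
    have hch := hBinShift.2.2.2.2 (2 * s) (s : ℝ) hs'
    have e1 : ((2 * s : ℕ) : ℝ) / (s : ℝ) ^ 2 = 2 / s := by
      push_cast
      field_simp
    rw [e1] at hch
    refine le_trans ?_ hch
    rw [Finset.sum_filter]
    apply Finset.sum_le_sum
    intro k hk
    have hP := hBinBasic.1 (2 * s) (k : ℤ)
    by_cases h : k < m
    · have h5 : (s : ℝ) ≤ |2 * (k : ℝ) - ((2 * s : ℕ) : ℝ)| := by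
        have h6 : 2 * k + 1 ≤ s := by omega
        have h7 : (2 : ℝ) * k + 1 ≤ s := by exact_mod_cast h6
        rw [abs_of_nonpos]
        · push_cast; linarith
        · push_cast; linarith
      rw [if_pos h, if_pos h5, mul_one]
    · rw [if_neg h, mul_zero]
      split_ifs
      · exact hP
      · exact le_rfl
  calc avg N (fun z => |frm m (s + d) z - frm m s z|)
      ≤ 2 * ∑ k ∈ range (2 * s + 1), P (2 * s) k * (if k < m then (1 : ℝ) else 0) := by
        rw [← h3, ← h2]; exact h1
    _ ≤ 2 * (2 / (s : ℝ)) := by linarith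
    _ = 4 / (s : ℝ) := by ring

end Pool.Agent.Clz.FrTailaux

namespace Pool.Agent.Clz

open Finset

theorem stmtFrTail (hBinBasic : StmtBinBasic) (hBinShift : StmtBinShift) (hKapLaw : StmtKapLaw) (hKerAvg : StmtKerAvg) (hHFsum : StmtHFsum) : StmtFrTail := by
  refine ⟨fun a => FrTailaux.part1 hHFsum a, ?_⟩
  obtain ⟨C, hC, h⟩ := FrTailaux.part1 hHFsum 1
  refine ⟨4 * C + 4, by positivity, fun s r N hs hsr hN => ?_⟩
  obtain ⟨d, rfl⟩ := Nat.exists_eq_add_of_le hsr
  have hs' : (0 : ℝ) < s := by exact_mod_cast hs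
  have hm1 : 1 ≤ (s + 1) / 2 := by omega
  have hm2 : (s : ℝ) / 2 ≤ (((s + 1) / 2 : ℕ) : ℝ) := by
    have : s ≤ 2 * ((s + 1) / 2) := by omega
    have h' : (s : ℝ) ≤ 2 * (((s + 1) / 2 : ℕ) : ℝ) := by exact_mod_cast this
    linarith
  have hCm : C / (((s + 1) / 2 : ℕ) : ℝ) ^ 1 ≤ 2 * C / s := by
    rw [pow_one, div_le_div_iff₀ (by linarith) hs']
    nlinarith
  have hA := (h ((s + 1) / 2) (s + d) N hm1 hN).trans hCm
  have hB := (h ((s + 1) / 2) s N hm1 (by omega)).trans hCm
  have hM := FrTailaux.mid hBinShift hBinBasic hKapLaw hKerAvg s d N hs hN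
  have htri : avg N (fun z => |fr (s + d) z - fr s z|) ≤
      avg N (fun z => (|fr (s + d) z - frm ((s + 1) / 2) (s + d) z| +
        |frm ((s + 1) / 2) (s + d) z - frm ((s + 1) / 2) s z|) +
        |fr s z - frm ((s + 1) / 2) s z|) := by
    apply avg_mono
    intro z
    have h1 := abs_sub_le (fr (s + d) z) (frm ((s + 1) / 2) (s + d) z) (fr s z)
    have h2 := abs_sub_le (frm ((s + 1) / 2) (s + d) z) (frm ((s + 1) / 2) s z) (fr s z)
    rw [abs_sub_comm (frm ((s + 1) / 2) s z) (fr s z)] at h2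
    linarith
  rw [avg_add, avg_add] at htri
  refine htri.trans ?_
  have e : (4 * C + 4) / (s : ℝ) = 2 * C / s + 4 / s + 2 * C / s := by ring
  rw [e]
  linarith

end Pool.Agent.Clz
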