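import Pool.Agent.Lib.MP_5a39b1_nt.Clz.Spec3

/-!
MP_5a39b1_nt, module Growth: orbits decrease at most by a factor 2 per step and keep their sign. See the docstring of `StmtGrowth` in `Spec3.lean` for the proof.
-/

set_option autoImplicit false

namespace Pool.Agent.Clz

open Finset

namespace Growthaux

theorem abs_le (N : ℤ) : |N| ≤ 2 * |T N| := by
  unfold T
  split_ifs with h
  · rcases abs_cases N with ⟨h1, _⟩ | ⟨h1, _⟩ <;>
      rcases abs_cases (N / 2) with ⟨h2, _⟩ | ⟨h2, _⟩ <;> rw [h1, h2] <;> omega
  · rcases abs_cases N with ⟨h1, _⟩ | ⟨h1, _⟩ <;>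
      rcases abs_cases ((3 * N + 1) / 2) with ⟨h2, _⟩ | ⟨h2, _⟩ <;> rw [h1, h2] <;> omega

theorem abs_le_iter (j : ℕ) : ∀ N : ℤ, |N| ≤ 2 ^ j * |T^[j] N| := by
  induction j with
  | zero => intro N; simp
  | succ j ih =>
    intro N
    rw [Function.iterate_succ_apply]
    have h1 := abs_le N
    have h2 := ih (T N)
    calc |N| ≤ 2 * |T N| := h1
      _ ≤ 2 * (2 ^ j * |T^[j] (T N)|) := by linarith
      _ = 2 ^ (j + 1) * |T^[j] (T N)| := by ring

theorem pos_T {N : ℤ} (h : 0 < N) : 0 < T N := by
  unfold T
  split_ifs <;> omega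

theorem neg_T {N : ℤ} (h : N < 0) : T N < 0 := by
  unfold T
  split_ifs <;> omega

end Growthaux

theorem stmtGrowth : StmtGrowth := by
  refine ⟨fun N j => ?_, ?_⟩
  · have h := Growthaux.abs_le_iter j N
    have h' : ((|N| : ℤ) : ℝ) ≤ ((2 ^ j * |T^[j] N| : ℤ) : ℝ) := Int.cast_le.2 h
    push_cast at h'
    exact h'
  · intro s N j hs hN
    rcases hs with rfl | rfl
    · rw [one_mul] at hN ⊢
      induction j generalizing N with
      | zero => exact hN
      | succ j ih =>
        rw [Function.iterate_succ_apply]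
        exact ih (T N) (Growthaux.pos_T hN)
    · have hN' : N < 0 := by omega
      have key : ∀ (j : ℕ) (N : ℤ), N < 0 → T^[j] N < 0 := by
        intro j
        induction j with
        | zero => intro N h; exact h
        | succ j ih =>
          intro N h
          rw [Function.iterate_succ_apply]
          exact ih (T N) (Growthaux.neg_T h)
      have := key j N hN'
      omega

end Pool.Agent.Clz
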