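import Pool.Agent.Lib.MP_5a39b1_nt.Clz.Spec3

/-!
MP_5a39b1_nt, module InvIter: invariance along iterates. See the docstring of `StmtInvIter` in `Spec3.lean` for the proof.
-/

set_option autoImplicit false

namespace Pool.Agent.Clz

open Finset

namespace InvIteraux

/-- If `A0 * 4^t < |N|` and `j ≤ 2t` then `A0 < |T^[j] N|`. -/
theorem big (hGrowth : StmtGrowth) (A0 : ℝ) (t j : ℕ) (N : ℤ) (hj : j ≤ 2 * t)
    (h : A0 * 4 ^ t < |(N : ℝ)|) : A0 < |((T^[j] N : ℤ) : ℝ)| := by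
  by_contra hcon
  have hcon' : |((T^[j] N : ℤ) : ℝ)| ≤ A0 := not_lt.mp hcon
  have hnn : 0 ≤ A0 := le_trans (abs_nonneg _) hcon'
  have h1 := hGrowth.1 N j
  have h2 : (2 : ℝ) ^ j ≤ 4 ^ t := by
    have : (4 : ℝ) ^ t = 2 ^ (2 * t) := by
      rw [pow_mul]; norm_num
    rw [this]
    exact pow_le_pow_right₀ (by norm_num) hj
  have h3 : (2 : ℝ) ^ j * |((T^[j] N : ℤ) : ℝ)| ≤ 4 ^ t * A0 :=
    mul_le_mul h2 hcon' (abs_nonneg _) (by positivity)
  have h4 : |(N : ℝ)| ≤ A0 * 4 ^ t := by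
    calc |(N : ℝ)| ≤ 2 ^ j * |((T^[j] N : ℤ) : ℝ)| := h1
      _ ≤ 4 ^ t * A0 := h3
      _ = A0 * 4 ^ t := mul_comm _ _
  exact absurd h (not_lt.mpr h4)

/-- The invariance for all `j ≤ 2t`. -/
theorem inv_iter (hGrowth : StmtGrowth) (S : Set ℤ) (A0 : ℝ) (t : ℕ) (N : ℤ) (hS : Inv S A0)
    (h : A0 * 4 ^ t < |(N : ℝ)|) : ∀ j : ℕ, j ≤ 2 * t → (T^[j] N ∈ S ↔ N ∈ S) := by
  intro j
  induction j with
  | zero => intro _; simp
  | succ j ih =>
    intro hj
    have h1 := ih (by omega)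
    have h2 := big hGrowth A0 t j N (by omega) h
    rw [Function.iterate_succ_apply']
    exact (hS _ h2).trans h1

/-- Backward invariance. -/
theorem pre_iter (S : Set ℤ) (hS : Pre S) : ∀ (j : ℕ) (N : ℤ), T^[j] N ∈ S → N ∈ S := by
  intro j
  induction j with
  | zero => intro N h; simpa using h
  | succ j ih =>
    intro N h
    rw [Function.iterate_succ_apply'] at h
    exact ih N (hS _ h)

end InvIteraux

theorem stmtInvIter (hGrowth : StmtGrowth) : StmtInvIter := by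
  refine ⟨?_, ?_⟩
  · intro S A0 t N hS h
    exact InvIteraux.inv_iter hGrowth S A0 t N hS h (2 * t) le_rfl
  · intro S j N hS h
    exact InvIteraux.pre_iter S hS j N h

end Pool.Agent.Clz
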