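import Pool.Agent.Lib.MP_5a39b1_nt.Clz.Spec2

/-!
MP_5a39b1_nt, module MLpt: pointwise local mixing. See the docstring of `StmtMLpt` in `Spec2.lean` for the proof.
-/

set_option autoImplicit false

namespace Pool.Agent.Clz

open Finset

namespace MLptaux

theorem avg_tri (N : ℕ) (f g h : ℤ → ℝ) :
    avg N (fun z => |f z - h z|) ≤ avg N (fun z => |f z - g z|) + avg N (fun z => |g z - h z|) := by
  rw [← avg_add]
  exact avg_mono fun z => abs_sub_le _ _ _

theorem avg_abs_Ew (N n : ℕ) (φ : List (Fin 4) → ℤ → ℝ) :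
    avg N (fun z => |Ew n (fun g => φ g z)|) ≤ Ew n (fun g => avg N (fun z => |φ g z|)) := by
  rw [← avg_Ew]
  exact avg_mono fun z => abs_Ew_le n (fun g => φ g z)

theorem ker_append (m : ℕ) (g g' : List (Fin 4)) (h : m ≤ kap g) (z : ℤ) :
    ker m (g ++ g') z = ker m g z := by
  unfold ker
  have h1 : min m (kap (g ++ g')) = m := by
    rw [kap_append]
    omega
  have h2 : min m (kap g) = m := by omega
  rw [h1, h2]
  have e : (4 : ℤ) ^ (g ++ g').length * z - FF (g ++ g') =
      4 ^ g'.length * (4 ^ g.length * z - FF g) - 3 ^ kap g * FF g' := by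
    rw [FF_append, List.length_append, pow_add]
    ring
  have hiff : (3 : ℤ) ^ m ∣ 4 ^ (g ++ g').length * z - FF (g ++ g') ↔
      (3 : ℤ) ^ m ∣ 4 ^ g.length * z - FF g := by
    rw [e]
    have h3 : (3 : ℤ) ^ m ∣ 3 ^ kap g * FF g' := Dvd.dvd.mul_right (pow_dvd_pow 3 h) _
    rw [dvd_sub_left h3]
    have hco : IsCoprime ((3 : ℤ) ^ m) ((4 : ℤ) ^ g'.length) := by
      apply IsCoprime.pow
      exact ⟨-1, 1, by norm_num⟩
    constructor
    · intro h4
      exact hco.dvd_of_dvd_mul_left h4
    · intro h4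
      exact Dvd.dvd.mul_left h4 _
  simp only [hiff]

theorem prob (hBinBasic : StmtBinBasic) (hKapLaw : StmtKapLaw) (a b k₀ κ : ℕ) :
    Ew (a + b) (fun g' => if k₀ + kap (g'.take a) = κ then (1 : ℝ) else 0) =
      P (2 * a) ((κ : ℤ) - k₀) := by
  obtain ⟨hnn, hsupp, _⟩ := hBinBasic
  rw [Ew_append]
  have h1 : Ew a (fun g => Ew b (fun g' =>
      if k₀ + kap ((g ++ g').take a) = κ then (1 : ℝ) else 0)) =
      Ew a (fun g => if k₀ + kap g = κ then (1 : ℝ) else 0) := by
    refine Ew_congr fun g hg => ?_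
    have h2 : ∀ g' : List (Fin 4), (g ++ g').take a = g := by
      intro g'
      rw [← hg, List.take_left]
    simp only [h2]
    exact Ew_const _ _
  rw [h1, hKapLaw a (fun k => if k₀ + k = κ then (1 : ℝ) else 0)]
  by_cases hκ : κ < k₀
  · rw [hsupp _ _ (Or.inl (by omega))]
    refine Finset.sum_eq_zero fun k _ => ?_
    rw [if_neg (by omega), mul_zero]
  · push Not at hκ
    obtain ⟨j, rfl⟩ := Nat.exists_eq_add_of_le hκ
    have e : (((k₀ + j : ℕ) : ℤ) - k₀) = (j : ℤ) := by push_cast; ring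
    rw [e]
    by_cases hj : j ≤ 2 * a
    · rw [Finset.sum_eq_single j]
      · rw [if_pos rfl, mul_one]
      · intro k _ hk
        rw [if_neg (by omega), mul_zero]
      · intro h
        exact absurd (Finset.mem_range.2 (by omega)) h
    · rw [hsupp _ _ (Or.inr (by push_cast; omega))]
      refine Finset.sum_eq_zero fun k hk => ?_
      have := Finset.mem_range.1 hk
      rw [if_neg (by omega), mul_zero]

theorem low_prob (hBinBasic : StmtBinBasic) (hBinShift : StmtBinShift) (hKapLaw : StmtKapLaw)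
    (r m : ℕ) (hr : 1 ≤ r) (hm : 2 * m ≤ r + 1) :
    Ew r (fun g => if kap g < m then (1 : ℝ) else 0) ≤ 2 / r := by
  obtain ⟨hnn, hsupp, _⟩ := hBinBasic
  obtain ⟨_, _, _, _, hcheb⟩ := hBinShift
  rw [hKapLaw r (fun k => if k < m then (1 : ℝ) else 0)]
  have hr' : (0 : ℝ) < r := by exact_mod_cast hr
  have h1 := hcheb (2 * r) r hr'
  have h2 : (((2 * r : ℕ) : ℝ)) / (r : ℝ) ^ 2 = 2 / r := by
    push_cast
    field_simp
  rw [h2] at h1
  refine le_trans ?_ h1
  rw [Finset.sum_filter]
  refine Finset.sum_le_sum fun k _ => ?_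
  by_cases hk : k < m
  · rw [if_pos hk, mul_one, if_pos]
    have h3 : 2 * k + 1 ≤ r := by omega
    have h4 : (2 : ℝ) * k + 1 ≤ r := by exact_mod_cast h3
    rw [abs_of_nonpos]
    · push_cast
      linarith
    · push_cast
      linarith
  · rw [if_neg hk, mul_zero]
    split_ifs
    · exact hnn _ _
    · exact le_rfl

theorem diff_bound (hBinBasic : StmtBinBasic) (hBinShift : StmtBinShift) (r t κ k₀ : ℕ)
    (hr : 1 ≤ r) (ht : 2 * r ≤ t) (hk : k₀ ≤ 2 * r) :
    |P (2 * (t - r)) ((κ : ℤ) - k₀) - P (2 * t) κ| ≤ 16 * ((r : ℝ) / t) := by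
  obtain ⟨hnn, hsupp, _, _, hmass, _, hvand, _⟩ := hBinBasic
  obtain ⟨_, hshift, _⟩ := hBinShift
  have e0 : 2 * t = 2 * r + 2 * (t - r) := by omega
  have hv : P (2 * t) κ = ∑ j ∈ range (2 * r + 1), P (2 * r) j * P (2 * (t - r)) ((κ : ℤ) - j) := by
    rw [e0]
    exact hvand _ _ _
  have hone : P (2 * (t - r)) ((κ : ℤ) - k₀) =
      ∑ j ∈ range (2 * r + 1), P (2 * r) j * P (2 * (t - r)) ((κ : ℤ) - k₀) := by
    rw [← Finset.sum_mul]
    have := hmass (2 * r)
    push_cast at this ⊢
    rw [this, one_mul]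
  have hsub : P (2 * (t - r)) ((κ : ℤ) - k₀) - P (2 * t) κ =
      ∑ j ∈ range (2 * r + 1), P (2 * r) j *
        (P (2 * (t - r)) ((κ : ℤ) - k₀) - P (2 * (t - r)) ((κ : ℤ) - j)) := by
    conv_lhs => rw [hone, hv]
    rw [← Finset.sum_sub_distrib]
    refine Finset.sum_congr rfl fun j _ => ?_
    ring
  have htpos : (0 : ℝ) < t := by
    have : 0 < t := by omega
    exact_mod_cast this
  rw [hsub]
  refine (Finset.abs_sum_le_sum_abs _ _).trans ?_
  have hterm : ∀ j ∈ range (2 * r + 1), |P (2 * r) j *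
      (P (2 * (t - r)) ((κ : ℤ) - k₀) - P (2 * (t - r)) ((κ : ℤ) - j))| ≤
      P (2 * r) j * (16 * ((r : ℝ) / t)) := by
    intro j hj
    have hj' := Finset.mem_range.1 hj
    rw [abs_mul, abs_of_nonneg (hnn _ _)]
    apply mul_le_mul_of_nonneg_left _ (hnn _ _)
    have h1 := hshift (2 * (t - r)) ((j : ℤ) - k₀) ((κ : ℤ) - k₀)
    have e1 : ((κ : ℤ) - k₀ - ((j : ℤ) - k₀)) = (κ : ℤ) - j := by ring
    rw [e1] at h1
    refine h1.trans ?_
    have h2 : |(((j : ℤ) - k₀ : ℤ) : ℝ)| ≤ 2 * r := by
      push_cast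
      rw [abs_le]
      have a1 : (j : ℝ) ≤ 2 * r := by
        have : j ≤ 2 * r := by omega
        exact_mod_cast this
      have a2 : (k₀ : ℝ) ≤ 2 * r := by exact_mod_cast hk
      have a3 : (0 : ℝ) ≤ j := by positivity
      have a4 : (0 : ℝ) ≤ k₀ := by positivity
      constructor <;> linarith
    have h3 : (8 : ℝ) / (((2 * (t - r) : ℕ) : ℝ) + 1) ≤ 8 / t := by
      apply div_le_div_of_nonneg_left (by norm_num) htpos
      have : t ≤ 2 * (t - r) + 1 := by omega
      have h5 : (t : ℝ) ≤ ((2 * (t - r) + 1 : ℕ) : ℝ) := by exact_mod_cast this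
      rw [Nat.cast_add, Nat.cast_one] at h5
      exact h5
    calc |(((j : ℤ) - k₀ : ℤ) : ℝ)| * ((8 : ℝ) / (((2 * (t - r) : ℕ) : ℝ) + 1))
        ≤ (2 * r) * (8 / t) := by
          apply mul_le_mul h2 h3 (by positivity) (by positivity)
      _ = 16 * ((r : ℝ) / t) := by ring
  refine (Finset.sum_le_sum hterm).trans ?_
  rw [← Finset.sum_mul]
  have := hmass (2 * r)
  push_cast at this ⊢
  rw [this, one_mul]

end MLptaux

open MLptaux in
theorem stmtMLpt (hBinBasic : StmtBinBasic) (hBinDiff : StmtBinDiff) (hBinShift : StmtBinShift) (hKapLaw : StmtKapLaw) (hKerAvg : StmtKerAvg) (hHFsum : StmtHFsum) (hFrTail : StmtFrTail) : StmtMLpt := by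
  obtain ⟨C8, hC8, hHF⟩ := hHFsum 8
  obtain ⟨C9, hC9, hFr⟩ := hFrTail.1 8
  have hnn := hBinBasic.1
  have hsup := hBinDiff.2.2.2
  have hkav := hKerAvg.1
  refine ⟨16 + 256 * C8 + 512 * C9, by positivity, ?_⟩
  intro t L κ r N hr ht htL hN
  obtain ⟨m, hm1, hm2, hm3⟩ : ∃ m : ℕ, 1 ≤ m ∧ 2 * m ≤ r + 1 ∧ r ≤ 2 * m :=
    ⟨(r + 1) / 2, by omega, by omega, by omega⟩
  have hrpos : (0 : ℝ) < r := by exact_mod_cast hr
  have htpos : (0 : ℝ) < t := by
    have : 0 < t := by omega
    exact_mod_cast this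
  have hmpos : (0 : ℝ) < m := by exact_mod_cast hm1
  have hpow : (1 : ℝ) / (m : ℝ) ^ 8 ≤ 256 * (1 / (r : ℝ) ^ 8) := by
    have h1 : (r : ℝ) ≤ 2 * m := by exact_mod_cast hm3
    have h2 : (r : ℝ) ^ 8 ≤ (2 * m) ^ 8 := pow_le_pow_left₀ hrpos.le h1 8
    rw [mul_one_div, div_le_div_iff₀ (by positivity) (by positivity)]
    rw [mul_pow] at h2
    linarith
  -- the functions
  set A : ℤ → ℝ := fun z => Ddm m t L κ z with hA
  set B : ℤ → ℝ := fun z => Ew r (fun g => ker m g z * P (2 * (t - r)) ((κ : ℤ) - kap g)) with hB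
  set D : ℤ → ℝ := fun z => P (2 * t) κ * frm m r z with hD
  have hi : avg N (fun z => |Dd t L κ z - A z|) ≤ C8 * (256 * (1 / (r : ℝ) ^ 8)) := by
    refine (hHF m L t κ N hm1 htL (by omega)).trans ?_
    rw [div_eq_mul_one_div]
    exact mul_le_mul_of_nonneg_left hpow hC8.le
  have hiv : avg N (fun z => |D z - P (2 * t) κ * fr r z|) ≤ 2 * (C9 * (256 * (1 / (r : ℝ) ^ 8))) := by
    have h1 : ∀ z, |D z - P (2 * t) κ * fr r z| = P (2 * t) κ * |fr r z - frm m r z| := by
      intro z
      rw [hD]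
      simp only
      rw [← mul_sub, abs_mul, abs_of_nonneg (hnn _ _), abs_sub_comm]
    simp only [h1]
    rw [avg_mul]
    have h2 : P (2 * t) κ ≤ 2 := by
      refine (hsup (2 * t) κ).trans ?_
      rw [div_le_iff₀ (by positivity)]
      have : (1 : ℝ) ≤ Real.sqrt (((2 * t : ℕ) : ℝ) + 1) := by
        rw [Real.one_le_sqrt]
        have : (0 : ℝ) ≤ ((2 * t : ℕ) : ℝ) := by positivity
        linarith
      linarith
    have h3 : avg N (fun z => |fr r z - frm m r z|) ≤ C9 * (256 * (1 / (r : ℝ) ^ 8)) := by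
      refine (hFr m r N hm1 (by omega)).trans ?_
      rw [div_eq_mul_one_div]
      exact mul_le_mul_of_nonneg_left hpow hC9.le
    exact mul_le_mul h2 h3 (avg_nonneg fun z => abs_nonneg _) (by norm_num)
  have hiii : avg N (fun z => |B z - D z|) ≤ 16 * ((r : ℝ) / t) := by
    have h1 : ∀ z, B z - D z = Ew r (fun g => ker m g z *
        (P (2 * (t - r)) ((κ : ℤ) - kap g) - P (2 * t) κ)) := by
      intro z
      rw [hB, hD]
      simp only
      unfold frm
      rw [← Ew_mul, ← Ew_sub]
      refine Ew_congr fun g _ => ?_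
      ring
    simp only [h1]
    refine (avg_abs_Ew N r _).trans ?_
    refine Ew_le_const fun g hg => ?_
    have h2 : ∀ z, |ker m g z * (P (2 * (t - r)) ((κ : ℤ) - kap g) - P (2 * t) κ)| =
        |P (2 * (t - r)) ((κ : ℤ) - kap g) - P (2 * t) κ| * ker m g z := by
      intro z
      rw [abs_mul, abs_of_nonneg (ker_nonneg m g z), mul_comm]
    simp only [h2]
    have hkg := kap_le g
    rw [avg_mul, hkav m N g (by omega), mul_one]
    exact diff_bound hBinBasic hBinShift r t κ (kap g) hr ht (by omega)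
  have hii : avg N (fun z => |A z - B z|) ≤ 8 * (1 / (r * Real.sqrt t)) := by
    obtain ⟨b, rfl⟩ : ∃ b, L = r + ((t - r) + b) := ⟨L - t, by omega⟩
    have hAz : ∀ z, A z = Ew r (fun g => Ew ((t - r) + b) (fun g' =>
        if kap g + kap (g'.take (t - r)) = κ then ker m (g ++ g') z else 0)) := by
      intro z
      rw [hA]
      simp only
      unfold Ddm
      rw [Ew_append]
      refine Ew_congr fun g hg => Ew_congr fun g' _ => ?_
      have h2 : (g ++ g').take t = g ++ g'.take (t - r) := by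
        rw [List.take_append, hg, List.take_of_length_le (by omega)]
      rw [h2, kap_append]
    have h1 : ∀ z, A z - B z = Ew r (fun g => Ew ((t - r) + b) (fun g' =>
        if kap g + kap (g'.take (t - r)) = κ then ker m (g ++ g') z else 0) -
        ker m g z * P (2 * (t - r)) ((κ : ℤ) - kap g)) := by
      intro z
      rw [hAz, hB]
      simp only
      rw [← Ew_sub]
    simp only [h1]
    refine (avg_abs_Ew N r _).trans ?_
    have h3 : ∀ g : List (Fin 4), g.length = r →
        avg N (fun z => |Ew ((t - r) + b) (fun g' =>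
          if kap g + kap (g'.take (t - r)) = κ then ker m (g ++ g') z else 0) -
          ker m g z * P (2 * (t - r)) ((κ : ℤ) - kap g)|) ≤
        (4 / Real.sqrt t) * (if kap g < m then (1 : ℝ) else 0) := by
      intro g hg
      have hkg := kap_le g
      by_cases hk : kap g < m
      · rw [if_pos hk, mul_one]
        have h4 : ∀ z, |Ew ((t - r) + b) (fun g' =>
            if kap g + kap (g'.take (t - r)) = κ then ker m (g ++ g') z else 0) -
            ker m g z * P (2 * (t - r)) ((κ : ℤ) - kap g)| ≤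
            Ew ((t - r) + b) (fun g' =>
              if kap g + kap (g'.take (t - r)) = κ then ker m (g ++ g') z else 0) +
            P (2 * (t - r)) ((κ : ℤ) - kap g) * ker m g z := by
          intro z
          have h5 : 0 ≤ Ew ((t - r) + b) (fun g' =>
              if kap g + kap (g'.take (t - r)) = κ then ker m (g ++ g') z else 0) :=
            Ew_nonneg fun g' _ => by
              split_ifs
              · exact ker_nonneg _ _ _
              · exact le_rfl
          have h6 : 0 ≤ ker m g z * P (2 * (t - r)) ((κ : ℤ) - kap g) :=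
            mul_nonneg (ker_nonneg _ _ _) (hnn _ _)
          rw [mul_comm (P (2 * (t - r)) ((κ : ℤ) - kap g))]
          rw [abs_le]
          constructor <;> linarith
        refine (avg_mono h4).trans ?_
        rw [avg_add, avg_mul, avg_Ew, hkav m N g (by omega), mul_one]
        have h7 : Ew ((t - r) + b) (fun g' => avg N (fun z =>
            if kap g + kap (g'.take (t - r)) = κ then ker m (g ++ g') z else 0)) =
            P (2 * (t - r)) ((κ : ℤ) - kap g) := by
          rw [← prob hBinBasic hKapLaw (t - r) b (kap g) κ]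
          refine Ew_congr fun g' hg' => ?_
          by_cases hc : kap g + kap (g'.take (t - r)) = κ
          · simp only [if_pos hc]
            apply hkav m N (g ++ g')
            have := kap_le (g ++ g')
            rw [List.length_append] at this
            omega
          · simp only [if_neg hc]
            exact avg_const N 0
        rw [h7]
        have h8 := hsup (2 * (t - r)) ((κ : ℤ) - kap g)
        have h9 : 2 / Real.sqrt (((2 * (t - r) : ℕ) : ℝ) + 1) ≤ 2 / Real.sqrt t := by
          apply div_le_div_of_nonneg_left (by norm_num) (Real.sqrt_pos.2 htpos)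
          apply Real.sqrt_le_sqrt
          have : t ≤ 2 * (t - r) + 1 := by omega
          have h5 : (t : ℝ) ≤ ((2 * (t - r) + 1 : ℕ) : ℝ) := by exact_mod_cast this
          rw [Nat.cast_add, Nat.cast_one] at h5
          exact h5
        have h10 : (4 : ℝ) / Real.sqrt t = 2 / Real.sqrt t + 2 / Real.sqrt t := by ring
        rw [h10]
        exact add_le_add (h8.trans h9) (h8.trans h9)
      · rw [if_neg hk, mul_zero]
        push Not at hk
        have h4 : ∀ z, |Ew ((t - r) + b) (fun g' =>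
            if kap g + kap (g'.take (t - r)) = κ then ker m (g ++ g') z else 0) -
            ker m g z * P (2 * (t - r)) ((κ : ℤ) - kap g)| = 0 := by
          intro z
          rw [abs_eq_zero, sub_eq_zero, ← prob hBinBasic hKapLaw (t - r) b (kap g) κ, ← Ew_mul]
          refine Ew_congr fun g' _ => ?_
          rw [ker_append m g g' hk z]
          split_ifs <;> simp
        simp only [h4]
        exact (avg_const N 0).le
    refine (Ew_mono h3).trans ?_
    rw [Ew_mul]
    have h5 := low_prob hBinBasic hBinShift hKapLaw r m hr hm2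
    have hs : 0 < Real.sqrt t := Real.sqrt_pos.2 htpos
    calc (4 / Real.sqrt t) * Ew r (fun g => if kap g < m then (1 : ℝ) else 0)
        ≤ (4 / Real.sqrt t) * (2 / r) := mul_le_mul_of_nonneg_left h5 (by positivity)
      _ = 8 * (1 / (r * Real.sqrt t)) := by
        field_simp
        norm_num
  have htri : avg N (fun z => |Dd t L κ z - P (2 * t) κ * fr r z|) ≤
      avg N (fun z => |Dd t L κ z - A z|) + (avg N (fun z => |A z - B z|) +
        (avg N (fun z => |B z - D z|) + avg N (fun z => |D z - P (2 * t) κ * fr r z|))) := by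
    refine (avg_tri N _ A _).trans ?_
    gcongr
    refine (avg_tri N _ B _).trans ?_
    gcongr
    exact avg_tri N _ D _
  refine htri.trans ?_
  have p1 : 0 ≤ (r : ℝ) / t := by positivity
  have p2 : 0 ≤ 1 / (r * Real.sqrt t) := by positivity
  have p3 : 0 ≤ 1 / (r : ℝ) ^ 8 := by positivity
  have q1 : 0 ≤ C8 * ((r : ℝ) / t) := by positivity
  have q2 : 0 ≤ C9 * ((r : ℝ) / t) := by positivity
  have q3 : 0 ≤ C8 * (1 / (r * Real.sqrt t)) := by positivity
  have q4 : 0 ≤ C9 * (1 / (r * Real.sqrt t)) := by positivity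
  nlinarith

end Pool.Agent.Clz
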