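import Pool.Agent.Lib.MP_5a39b1_nt.Clz.Spec2

/-!
MP_5a39b1_nt, module MLsum: summed local mixing. See the docstring of `StmtMLsum` in `Spec2.lean` for the proof.
-/

set_option autoImplicit false

namespace Pool.Agent.Clz

open Finset

namespace MLsumaux

theorem ker_append (m : ℕ) (g₀ g' : List (Fin 4)) (z : ℤ) (h : m ≤ kap g₀) :
    ker m (g₀ ++ g') z = ker m g₀ z := by
  unfold ker
  rw [kap_append, min_eq_left h, min_eq_left (h.trans (Nat.le_add_right _ _)), FF_append,
    List.length_append]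
  have e : (4 : ℤ) ^ (g₀.length + g'.length) * z - (4 ^ g'.length * FF g₀ + 3 ^ kap g₀ * FF g')
      = 4 ^ g'.length * (4 ^ g₀.length * z - FF g₀) - 3 ^ kap g₀ * FF g' := by
    rw [pow_add]; ring
  have hco : IsCoprime ((3 : ℤ) ^ m) (4 ^ g'.length) :=
    IsCoprime.pow ⟨-1, 1, by norm_num⟩
  have key : (3 : ℤ) ^ m ∣ 4 ^ (g₀.length + g'.length) * z - (4 ^ g'.length * FF g₀ + 3 ^ kap g₀ * FF g')
      ↔ (3 : ℤ) ^ m ∣ 4 ^ g₀.length * z - FF g₀ := by
    rw [e]
    constructor
    · intro h1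
      have h2 : (3 : ℤ) ^ m ∣ 3 ^ kap g₀ * FF g' := Dvd.dvd.mul_right (pow_dvd_pow 3 h) _
      have h3 := (dvd_sub_left h2).mp h1
      exact hco.dvd_of_dvd_mul_left h3
    · intro h1
      exact dvd_sub (Dvd.dvd.mul_left h1 _) (Dvd.dvd.mul_right (pow_dvd_pow 3 h) _)
  simp only [key]

/-- the total mass on any finite set is at most one -/
theorem sum_P_le_one (hB : StmtBinBasic) (n : ℕ) (s : Finset ℤ) : ∑ k ∈ s, P n k ≤ 1 := by
  obtain ⟨hnn, hsupp, -, -, hmass, -⟩ := hB
  classical
  rw [← hmass n]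
  have h1 : ∑ k ∈ s, P n k = ∑ k ∈ s.filter (fun k => P n k ≠ 0), P n k :=
    (Finset.sum_filter_ne_zero s).symm
  have h2 : ∑ k ∈ range (n + 1), P n (k : ℤ)
      = ∑ k ∈ (range (n + 1)).image (fun k : ℕ => (k : ℤ)), P n k := by
    rw [Finset.sum_image]
    intro a _ b _ hab
    simp only at hab
    omega
  rw [h1, h2]
  refine Finset.sum_le_sum_of_subset_of_nonneg ?_ (fun k _ _ => hnn n k)
  intro k hk
  rw [Finset.mem_filter] at hk
  have h3 : ¬ (k < 0 ∨ (n : ℤ) < k) := fun h => hk.2 (hsupp n k h)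
  push Not at h3
  rw [Finset.mem_image]
  exact ⟨k.toNat, Finset.mem_range.mpr (by omega), by omega⟩

theorem sum_P_shift_le (hB : StmtBinBasic) (n K k₀ : ℕ) :
    ∑ κ ∈ range K, P n ((κ : ℤ) - k₀) ≤ 1 := by
  classical
  have h1 : ∑ κ ∈ range K, P n ((κ : ℤ) - k₀)
      = ∑ k ∈ (range K).image (fun κ : ℕ => (κ : ℤ) - k₀), P n k := by
    rw [Finset.sum_image]
    intro a _ b _ hab
    simp only at hab
    omega
  rw [h1]
  exact sum_P_le_one hB n _

theorem sum_P_ite (hB : StmtBinBasic) (n k₀ κ : ℕ) :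
    ∑ k ∈ range (n + 1), P n k * (if k₀ + k = κ then (1 : ℝ) else 0) = P n ((κ : ℤ) - k₀) := by
  obtain ⟨-, hsupp, -⟩ := hB
  by_cases h : k₀ ≤ κ ∧ κ ≤ k₀ + n
  · rw [Finset.sum_eq_single (κ - k₀)]
    · rw [if_pos (by omega), mul_one]
      congr 1
      omega
    · intro b _ hb
      rw [if_neg (by omega), mul_zero]
    · intro hb
      exfalso
      exact hb (Finset.mem_range.mpr (by omega))
  · have h1 : (κ : ℤ) - k₀ < 0 ∨ (n : ℤ) < (κ : ℤ) - k₀ := by omega
    rw [hsupp n _ h1]
    refine Finset.sum_eq_zero (fun k hk => ?_)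
    have := Finset.mem_range.mp hk
    rw [if_neg (by omega), mul_zero]

theorem Ew_take {E : Type} [AddCommGroup E] [Module ℝ E] (n n' : ℕ) (f : List (Fin 4) → E) :
    Ew (n + n') (fun g => f (g.take n)) = Ew n f := by
  rw [Ew_append]
  refine Ew_congr (fun g hg => ?_)
  have : ∀ g' : List (Fin 4), (g ++ g').take n = g := by
    intro g'
    rw [← hg]
    exact List.take_left
  simp only [this]
  exact Ew_const _ _

theorem sum_avg_abs_Ew_le (s : Finset ℕ) (N n : ℕ) (φ : ℕ → List (Fin 4) → ℤ → ℝ)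
    (B : List (Fin 4) → ℝ)
    (hB : ∀ g, g.length = n → ∑ κ ∈ s, avg N (fun z => |φ κ g z|) ≤ B g) :
    ∑ κ ∈ s, avg N (fun z => |Ew n (fun g => φ κ g z)|) ≤ Ew n B := by
  calc ∑ κ ∈ s, avg N (fun z => |Ew n (fun g => φ κ g z)|)
      ≤ ∑ κ ∈ s, Ew n (fun g => avg N (fun z => |φ κ g z|)) := by
        refine Finset.sum_le_sum (fun κ _ => ?_)
        rw [← avg_Ew N n (fun g z => |φ κ g z|)]
        exact avg_mono (fun z => abs_Ew_le _ _)
    _ = Ew n (fun g => ∑ κ ∈ s, avg N (fun z => |φ κ g z|)) := by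
        rw [Ew_finset_sum]
    _ ≤ Ew n B := Ew_mono hB

end MLsumaux

open MLsumaux in
theorem stmtMLsum (hBinBasic : StmtBinBasic) (hBinDiff : StmtBinDiff) (hBinShift : StmtBinShift) (hKapLaw : StmtKapLaw) (hKerAvg : StmtKerAvg) (hHFsum : StmtHFsum) (hFrTail : StmtFrTail) : StmtMLsum := by
  classical
  obtain ⟨C₁, hC₁, hHF⟩ := hHFsum 8
  obtain ⟨C₂, hC₂, hFr⟩ := hFrTail.1 8
  refine ⟨768 * C₁ + 256 * C₂ + 4, by positivity, ?_⟩
  intro t L r N hr hrt htL hN
  have hPnn : ∀ (n : ℕ) (k : ℤ), 0 ≤ P n k := hBinBasic.1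
  set m : ℕ := (r + 1) / 2 with hm
  have hm1 : 1 ≤ m := by omega
  have hm2 : r ≤ 2 * m := by omega
  have hrR : (1 : ℝ) ≤ r := by exact_mod_cast hr
  have hrpos : (0 : ℝ) < r := by linarith
  have htR : (1 : ℝ) ≤ t := by
    have : 1 ≤ t := by omega
    exact_mod_cast this
  have htpos : (0 : ℝ) < t := by linarith
  have hmpos : (0 : ℝ) < m := by exact_mod_cast hm1
  have hmr : 1 / (m : ℝ) ^ 8 ≤ 256 / (r : ℝ) ^ 8 := by
    rw [div_le_div_iff₀ (by positivity) (by positivity)]
    have h1 : (r : ℝ) ≤ 2 * m := by exact_mod_cast hm2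
    have h2 : (r : ℝ) ^ 8 ≤ (2 * m) ^ 8 := pow_le_pow_left₀ hrpos.le h1 8
    calc 1 * (r : ℝ) ^ 8 = (r : ℝ) ^ 8 := one_mul _
      _ ≤ (2 * m) ^ 8 := h2
      _ = 256 * (m : ℝ) ^ 8 := by ring
  -- the intermediate functions
  set A : ℕ → ℤ → ℝ := fun κ z =>
    Ew r (fun g₀ => ker m g₀ z * P (2 * (t - r)) ((κ : ℤ) - kap g₀)) with hA
  -- (i)
  have h_i : ∑ κ ∈ range (2 * t + 1), avg N (fun z => |Dd t L κ z - Ddm m t L κ z|)
      ≤ 768 * C₁ * ((t : ℝ) / r ^ 8) := by
    calc ∑ κ ∈ range (2 * t + 1), avg N (fun z => |Dd t L κ z - Ddm m t L κ z|)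
        ≤ ∑ κ ∈ range (2 * t + 1), C₁ / (m : ℝ) ^ 8 :=
          Finset.sum_le_sum (fun κ _ => hHF m L t κ N hm1 htL (by omega))
      _ = (2 * t + 1) * (C₁ * (1 / (m : ℝ) ^ 8)) := by
          rw [Finset.sum_const, Finset.card_range, nsmul_eq_mul]
          push_cast
          ring
      _ ≤ (3 * t) * (C₁ * (256 / (r : ℝ) ^ 8)) := by
          refine mul_le_mul (by linarith) (mul_le_mul_of_nonneg_left hmr hC₁.le) (by positivity)
            (by positivity)
      _ = 768 * C₁ * ((t : ℝ) / r ^ 8) := by ring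
  -- (ii)
  have hkerN : ∀ g : List (Fin 4), g.length ≤ L → avg N (ker m g) = 1 := by
    intro g hg
    refine hKerAvg.1 m N g ?_
    have := kap_le g
    exact (min_le_right _ _).trans (by omega)
  have hDdm : ∀ (κ : ℕ) (z : ℤ), Ddm m t L κ z
      = Ew r (fun g₀ => Ew (L - r) (fun g' =>
          if kap ((g₀ ++ g').take t) = κ then ker m (g₀ ++ g') z else 0)) := by
    intro κ z
    have hL : L = r + (L - r) := by omega
    unfold Ddm
    conv_lhs => rw [hL]
    rw [Ew_append]
  have h_ii : ∑ κ ∈ range (2 * t + 1), avg N (fun z => |Ddm m t L κ z - A κ z|)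
      ≤ 4 * (1 / (r : ℝ)) := by
    have hrw : ∀ (κ : ℕ) (z : ℤ), Ddm m t L κ z - A κ z
        = Ew r (fun g₀ => Ew (L - r) (fun g' =>
          if kap ((g₀ ++ g').take t) = κ then ker m (g₀ ++ g') z else 0)
          - ker m g₀ z * P (2 * (t - r)) ((κ : ℤ) - kap g₀)) := by
      intro κ z
      rw [hDdm, hA, Ew_sub]
    simp only [hrw]
    refine (sum_avg_abs_Ew_le (range (2 * t + 1)) N r
      (fun κ g₀ z => Ew (L - r) (fun g' =>
          if kap ((g₀ ++ g').take t) = κ then ker m (g₀ ++ g') z else 0)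
          - ker m g₀ z * P (2 * (t - r)) ((κ : ℤ) - kap g₀))
      (fun g₀ => if kap g₀ < m then (2 : ℝ) else 0) ?_).trans ?_
    · intro g₀ hg₀
      by_cases hk : kap g₀ < m
      · simp only [hk, if_true]
        have hb : ∀ κ ∈ range (2 * t + 1), avg N (fun z => |Ew (L - r) (fun g' =>
            if kap ((g₀ ++ g').take t) = κ then ker m (g₀ ++ g') z else 0)
            - ker m g₀ z * P (2 * (t - r)) ((κ : ℤ) - kap g₀)|)
            ≤ avg N (fun z => Ew (L - r) (fun g' =>
              if kap ((g₀ ++ g').take t) = κ then ker m (g₀ ++ g') z else 0))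
              + P (2 * (t - r)) ((κ : ℤ) - kap g₀) := by
          intro κ _
          have h1 : avg N (fun z => P (2 * (t - r)) ((κ : ℤ) - kap g₀) * ker m g₀ z)
              = P (2 * (t - r)) ((κ : ℤ) - kap g₀) := by
            rw [avg_mul, hkerN g₀ (by omega), mul_one]
          have hle : avg N (fun z => |Ew (L - r) (fun g' =>
              if kap ((g₀ ++ g').take t) = κ then ker m (g₀ ++ g') z else 0)
              - ker m g₀ z * P (2 * (t - r)) ((κ : ℤ) - kap g₀)|)
              ≤ avg N (fun z => Ew (L - r) (fun g' =>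
                if kap ((g₀ ++ g').take t) = κ then ker m (g₀ ++ g') z else 0)
                + P (2 * (t - r)) ((κ : ℤ) - kap g₀) * ker m g₀ z) := by
            refine avg_mono (fun z => ?_)
            have h2 : 0 ≤ Ew (L - r) (fun g' =>
                if kap ((g₀ ++ g').take t) = κ then ker m (g₀ ++ g') z else 0) :=
              Ew_nonneg (fun g _ => by split_ifs; exacts [ker_nonneg _ _ _, le_rfl])
            have h3 : 0 ≤ P (2 * (t - r)) ((κ : ℤ) - kap g₀) * ker m g₀ z :=
              mul_nonneg (hPnn _ _) (ker_nonneg _ _ _)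
            rw [mul_comm (ker m g₀ z), abs_le]
            constructor
            · linarith
            · linarith
          rw [avg_add, h1] at hle
          exact hle
        refine (Finset.sum_le_sum hb).trans ?_
        rw [Finset.sum_add_distrib, ← avg_finset_sum]
        have h4 : avg N (fun z => ∑ κ ∈ range (2 * t + 1), Ew (L - r) (fun g' =>
            if kap ((g₀ ++ g').take t) = κ then ker m (g₀ ++ g') z else 0)) ≤ 1 := by
          have h5 : ∀ z, ∑ κ ∈ range (2 * t + 1), Ew (L - r) (fun g' =>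
              if kap ((g₀ ++ g').take t) = κ then ker m (g₀ ++ g') z else 0)
              ≤ Ew (L - r) (fun g' => ker m (g₀ ++ g') z) := by
            intro z
            rw [← Ew_finset_sum]
            refine Ew_mono (fun g' _ => ?_)
            rw [Finset.sum_ite_eq]
            split_ifs
            · exact le_rfl
            · exact ker_nonneg _ _ _
          refine (avg_mono h5).trans ?_
          rw [avg_Ew N (L - r) (fun g' z => ker m (g₀ ++ g') z)]
          refine Ew_le_const (fun g' hg' => ?_)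
          have := hkerN (g₀ ++ g') (by rw [List.length_append]; omega)
          exact this.le
        have h6 := sum_P_shift_le hBinBasic (2 * (t - r)) (2 * t + 1) (kap g₀)
        linarith
      · simp only [hk, if_false]
        have hk' : m ≤ kap g₀ := by omega
        have hzero : ∀ (κ : ℕ) (z : ℤ), Ew (L - r) (fun g' =>
            if kap ((g₀ ++ g').take t) = κ then ker m (g₀ ++ g') z else 0)
            - ker m g₀ z * P (2 * (t - r)) ((κ : ℤ) - kap g₀) = 0 := by
          intro κ z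
          have h1 : Ew (L - r) (fun g' =>
              if kap ((g₀ ++ g').take t) = κ then ker m (g₀ ++ g') z else 0)
              = Ew ((t - r) + (L - t)) (fun g' =>
                ker m g₀ z * (if kap g₀ + kap (g'.take (t - r)) = κ then (1 : ℝ) else 0)) := by
            have hL : L - r = (t - r) + (L - t) := by omega
            rw [hL]
            refine Ew_congr (fun g' _ => ?_)
            rw [ker_append m g₀ g' z hk']
            have h2 : (g₀ ++ g').take t = g₀ ++ g'.take (t - r) := by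
              rw [List.take_append, hg₀, List.take_of_length_le (by omega)]
            rw [h2, kap_append]
            split_ifs
            · rw [mul_one]
            · rw [mul_zero]
          rw [h1, Ew_mul, Ew_take (t - r) (L - t)
            (fun g => if kap g₀ + kap g = κ then (1 : ℝ) else 0)]
          have h3 := hKapLaw (t - r) (fun k => if kap g₀ + k = κ then (1 : ℝ) else 0)
          rw [h3, sum_P_ite hBinBasic, sub_self]
        simp only [hzero, abs_zero]
        rw [Finset.sum_eq_zero]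
        intro κ _
        exact avg_const N 0
    · -- Chebyshev
      have h1 := hKapLaw r (fun k => if k < m then (2 : ℝ) else 0)
      rw [h1]
      have h2 : ∑ k ∈ range (2 * r + 1), P (2 * r) k * (if k < m then (2 : ℝ) else 0)
          = 2 * ∑ k ∈ (range (2 * r + 1)).filter (fun k => k < m), P (2 * r) k := by
        rw [Finset.sum_filter, Finset.mul_sum]
        refine Finset.sum_congr rfl (fun k _ => ?_)
        split_ifs
        · ring
        · ring
      rw [h2]
      have h3 := hBinShift.2.2.2.2 (2 * r) (r : ℝ) hrpos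
      have h4 : ∑ k ∈ (range (2 * r + 1)).filter (fun k => k < m), P (2 * r) k
          ≤ ∑ k ∈ (range (2 * r + 1)).filter
            (fun k : ℕ => (r : ℝ) ≤ |2 * (k : ℝ) - ((2 * r : ℕ) : ℝ)|), P (2 * r) k := by
        refine Finset.sum_le_sum_of_subset_of_nonneg ?_ (fun k _ _ => hPnn _ _)
        intro k hk
        rw [Finset.mem_filter] at hk ⊢
        refine ⟨hk.1, ?_⟩
        have h5 : 2 * k + r ≤ 2 * r := by omega
        have h6 : 2 * (k : ℝ) + r ≤ 2 * r := by exact_mod_cast h5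
        rw [abs_sub_comm]
        refine le_trans ?_ (le_abs_self _)
        push_cast
        linarith
      have h7 : (((2 * r : ℕ) : ℝ)) / (r : ℝ) ^ 2 = 2 * (1 / r) := by
        push_cast
        field_simp
      rw [h7] at h3
      linarith
  -- (iii)
  have hshift : ∀ k₀ : ℕ, k₀ ≤ 2 * r →
      ∑ κ ∈ range (2 * t + 1), |P (2 * (t - r)) ((κ : ℤ) - k₀) - P (2 * t) κ|
        ≤ 4 * ((r : ℝ) / Real.sqrt t) := by
    intro k₀ hk₀
    set n := 2 * (t - r) with hn
    have hn' : 2 * t = 2 * r + n := by omega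
    have hV : ∀ κ : ℤ, P (2 * t) κ = ∑ j ∈ range (2 * r + 1), P (2 * r) j * P n (κ - j) := by
      intro κ
      rw [hn']
      exact hBinBasic.2.2.2.2.2.2.1 (2 * r) n κ
    have hmass := hBinBasic.2.2.2.2.1 (2 * r)
    have hsq : Real.sqrt t ≤ Real.sqrt ((n : ℝ) + 1) := by
      refine Real.sqrt_le_sqrt ?_
      have : t ≤ n + 1 := by omega
      exact_mod_cast this
    have hsqpos : 0 < Real.sqrt t := Real.sqrt_pos.mpr htpos
    have hone : ∀ j ∈ range (2 * r + 1), ∑ κ ∈ range (2 * t + 1),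
        |P n ((κ : ℤ) - k₀) - P n ((κ : ℤ) - j)| ≤ 4 * ((r : ℝ) / Real.sqrt t) := by
      intro j hj
      have hj' := Finset.mem_range.mp hj
      have h1 := hBinShift.1 n ((j : ℤ) - k₀) ((range (2 * t + 1)).image (fun κ : ℕ => (κ : ℤ) - k₀))
      rw [Finset.sum_image (by
        intro a _ b _ hab
        simp only at hab
        omega)] at h1
      have h2 : ∀ κ : ℕ, (κ : ℤ) - k₀ - ((j : ℤ) - k₀) = (κ : ℤ) - j := fun κ => by ring
      simp only [h2] at h1
      refine h1.trans ?_
      have h3 : |(((j : ℤ) - (k₀ : ℤ) : ℤ) : ℝ)| ≤ 2 * r := by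
        rw [← Int.cast_abs]
        have : |(j : ℤ) - (k₀ : ℤ)| ≤ 2 * (r : ℤ) := by
          rw [abs_le]
          constructor <;> omega
        exact_mod_cast this
      calc |(((j : ℤ) - (k₀ : ℤ) : ℤ) : ℝ)| * (2 / Real.sqrt ((n : ℝ) + 1))
          ≤ (2 * r) * (2 / Real.sqrt t) := by
            refine mul_le_mul h3 ?_ (by positivity) (by positivity)
            exact div_le_div_of_nonneg_left (by norm_num) hsqpos hsq
        _ = 4 * ((r : ℝ) / Real.sqrt t) := by ring
    calc ∑ κ ∈ range (2 * t + 1), |P n ((κ : ℤ) - k₀) - P (2 * t) κ|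
        = ∑ κ ∈ range (2 * t + 1), |∑ j ∈ range (2 * r + 1),
            P (2 * r) j * (P n ((κ : ℤ) - k₀) - P n ((κ : ℤ) - j))| := by
          refine Finset.sum_congr rfl (fun κ _ => ?_)
          congr 1
          simp only [mul_sub, Finset.sum_sub_distrib]
          rw [← Finset.sum_mul, hmass, one_mul, ← hV]
      _ ≤ ∑ κ ∈ range (2 * t + 1), ∑ j ∈ range (2 * r + 1),
            P (2 * r) j * |P n ((κ : ℤ) - k₀) - P n ((κ : ℤ) - j)| := by
          refine Finset.sum_le_sum (fun κ _ => ?_)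
          refine (Finset.abs_sum_le_sum_abs _ _).trans (Finset.sum_le_sum (fun j _ => ?_))
          rw [abs_mul, abs_of_nonneg (hPnn _ _)]
      _ = ∑ j ∈ range (2 * r + 1), P (2 * r) j * ∑ κ ∈ range (2 * t + 1),
            |P n ((κ : ℤ) - k₀) - P n ((κ : ℤ) - j)| := by
          rw [Finset.sum_comm]
          refine Finset.sum_congr rfl (fun j _ => ?_)
          rw [Finset.mul_sum]
      _ ≤ ∑ j ∈ range (2 * r + 1), P (2 * r) j * (4 * ((r : ℝ) / Real.sqrt t)) :=
          Finset.sum_le_sum (fun j hj => mul_le_mul_of_nonneg_left (hone j hj) (hPnn _ _))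
      _ = 4 * ((r : ℝ) / Real.sqrt t) := by
          rw [← Finset.sum_mul, hmass, one_mul]
  have h_iii : ∑ κ ∈ range (2 * t + 1), avg N (fun z => |A κ z - P (2 * t) κ * frm m r z|)
      ≤ 4 * ((r : ℝ) / Real.sqrt t) := by
    have hrw : ∀ (κ : ℕ) (z : ℤ), A κ z - P (2 * t) κ * frm m r z
        = Ew r (fun g₀ => ker m g₀ z * (P (2 * (t - r)) ((κ : ℤ) - kap g₀) - P (2 * t) κ)) := by
      intro κ z
      rw [hA, frm, ← Ew_mul, ← Ew_sub]
      refine Ew_congr (fun g _ => ?_)
      ring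
    simp only [hrw]
    refine (sum_avg_abs_Ew_le (range (2 * t + 1)) N r
      (fun κ g₀ z => ker m g₀ z * (P (2 * (t - r)) ((κ : ℤ) - kap g₀) - P (2 * t) κ))
      (fun _ => 4 * ((r : ℝ) / Real.sqrt t)) ?_).trans (Ew_const r _).le
    intro g₀ hg₀
    have h1 : ∀ κ ∈ range (2 * t + 1), avg N (fun z => |ker m g₀ z *
        (P (2 * (t - r)) ((κ : ℤ) - kap g₀) - P (2 * t) κ)|)
        = |P (2 * (t - r)) ((κ : ℤ) - kap g₀) - P (2 * t) κ| := by
      intro κ _
      have h2 : ∀ z, |ker m g₀ z * (P (2 * (t - r)) ((κ : ℤ) - kap g₀) - P (2 * t) κ)|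
          = |P (2 * (t - r)) ((κ : ℤ) - kap g₀) - P (2 * t) κ| * ker m g₀ z := by
        intro z
        rw [abs_mul, abs_of_nonneg (ker_nonneg _ _ _), mul_comm]
      simp only [h2]
      rw [avg_mul, hkerN g₀ (by omega), mul_one]
    rw [Finset.sum_congr rfl h1]
    refine hshift (kap g₀) ?_
    have := kap_le g₀
    omega
  -- (iv)
  have h_iv : ∑ κ ∈ range (2 * t + 1), avg N (fun z => |P (2 * t) κ * frm m r z - P (2 * t) κ * fr r z|)
      ≤ 256 * C₂ * ((t : ℝ) / r ^ 8) := by
    have h1 : ∀ κ ∈ range (2 * t + 1), avg N (fun z => |P (2 * t) κ * frm m r z - P (2 * t) κ * fr r z|)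
        = P (2 * t) κ * avg N (fun z => |fr r z - frm m r z|) := by
      intro κ _
      rw [← avg_mul]
      congr 1
      funext z
      rw [← mul_sub, abs_mul, abs_of_nonneg (hPnn _ _), abs_sub_comm]
    rw [Finset.sum_congr rfl h1, ← Finset.sum_mul, hBinBasic.2.2.2.2.1 (2 * t), one_mul]
    refine (hFr m r N hm1 (by omega)).trans ?_
    calc C₂ / (m : ℝ) ^ 8 = C₂ * (1 / (m : ℝ) ^ 8) := by ring
      _ ≤ C₂ * (256 / (r : ℝ) ^ 8) := mul_le_mul_of_nonneg_left hmr hC₂.le
      _ = 256 * C₂ * (1 / r ^ 8) := by ring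
      _ ≤ 256 * C₂ * ((t : ℝ) / r ^ 8) := by
          refine mul_le_mul_of_nonneg_left ?_ (by positivity)
          exact div_le_div_of_nonneg_right htR (by positivity)
  -- conclusion
  have hfin : ∑ κ ∈ range (2 * t + 1), avg N (fun z => |Dd t L κ z - P (2 * t) κ * fr r z|)
      ≤ ∑ κ ∈ range (2 * t + 1), (avg N (fun z => |Dd t L κ z - Ddm m t L κ z|)
        + avg N (fun z => |Ddm m t L κ z - A κ z|)
        + avg N (fun z => |A κ z - P (2 * t) κ * frm m r z|)
        + avg N (fun z => |P (2 * t) κ * frm m r z - P (2 * t) κ * fr r z|)) := by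
    refine Finset.sum_le_sum (fun κ _ => ?_)
    rw [← avg_add, ← avg_add, ← avg_add]
    refine avg_mono (fun z => ?_)
    have h1 : Dd t L κ z - P (2 * t) κ * fr r z = (Dd t L κ z - Ddm m t L κ z)
        + (Ddm m t L κ z - A κ z) + (A κ z - P (2 * t) κ * frm m r z)
        + (P (2 * t) κ * frm m r z - P (2 * t) κ * fr r z) := by ring
    rw [h1]
    refine (abs_add_le _ _).trans (add_le_add ?_ le_rfl)
    refine (abs_add_le _ _).trans (add_le_add ?_ le_rfl)
    exact abs_add_le _ _
  refine hfin.trans ?_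
  rw [Finset.sum_add_distrib, Finset.sum_add_distrib, Finset.sum_add_distrib]
  have hs : 0 ≤ (r : ℝ) / Real.sqrt t := by positivity
  have hs2 : 0 ≤ 1 / (r : ℝ) := by positivity
  have hs3 : 0 ≤ (t : ℝ) / r ^ 8 := by positivity
  nlinarith [mul_nonneg hC₁.le hs, mul_nonneg hC₁.le hs2, mul_nonneg hC₂.le hs,
    mul_nonneg hC₂.le hs2]

end Pool.Agent.Clz
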