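import Pool.Agent.Lib.MP_5a39b1_nt.Clz.Spec3

/-!
MP_5a39b1_nt, module MassPer: mass of a periodic function in a window (harmonic sums over residue classes). See the docstring of `StmtMassPer` in `Spec3.lean` for the proof.
-/

set_option autoImplicit false

namespace Pool.Agent.Clz

open Finset

namespace MassPeraux

section nat

variable {Q : ℕ} {q : ℕ → ℝ}

theorem per_sum (hper : ∀ i, q (i + Q) = q i) (m : ℕ) :
    ∑ i ∈ Ico m (m + Q), q i = ∑ i ∈ range Q, q i := by
  induction m with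
  | zero => simp
  | succ m ih =>
    rw [← ih]
    rcases Nat.eq_zero_or_pos Q with hQ | hQ
    · subst hQ; simp
    have h1 : ∑ i ∈ Ico m (m + Q), q i = q m + ∑ i ∈ Ico (m + 1) (m + Q), q i :=
      Finset.sum_eq_sum_Ico_succ_bot (by omega) _
    have h2 : ∑ i ∈ Ico (m + 1) (m + 1 + Q), q i
        = ∑ i ∈ Ico (m + 1) (m + Q), q i + q (m + Q) := by
      rw [show m + 1 + Q = (m + Q) + 1 by ring, Finset.sum_Ico_succ_top (by omega)]
    rw [h1, h2, hper]
    ring

/-- telescoping -/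
theorem tele (hQ : 0 < Q) (hper : ∀ i, q (i + Q) = q i) {m n : ℕ} (hmn : m ≤ n) :
    ∑ i ∈ Ico m n, q i * (Real.log ((i : ℝ) + Q) - Real.log i)
      = ∑ i ∈ Ico n (n + Q), q i * Real.log i - ∑ i ∈ Ico m (m + Q), q i * Real.log i := by
  induction n, hmn using Nat.le_induction with
  | base => simp
  | succ n hmn ih =>
    rw [Finset.sum_Ico_succ_top hmn, ih]
    have h1 : ∑ i ∈ Ico n (n + Q), q i * Real.log i
        = q n * Real.log n + ∑ i ∈ Ico (n + 1) (n + Q), q i * Real.log i :=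
      Finset.sum_eq_sum_Ico_succ_bot (by omega) _
    have h2 : ∑ i ∈ Ico (n + 1) (n + 1 + Q), q i * Real.log i
        = ∑ i ∈ Ico (n + 1) (n + Q), q i * Real.log i + q (n + Q) * Real.log ((n + Q : ℕ) : ℝ) := by
      rw [show n + 1 + Q = (n + Q) + 1 by ring, Finset.sum_Ico_succ_top (by omega)]
    rw [h1, h2, hper]
    push_cast
    ring

theorem log_step_le {i : ℝ} (hi : 0 < i) {Q : ℝ} (hQ : 0 < Q) :
    1 / Q * (Real.log (i + Q) - Real.log i) ≤ 1 / i := by
  rw [← Real.log_div (by positivity) (by positivity)]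
  have h1 : Real.log ((i + Q) / i) ≤ (i + Q) / i - 1 :=
    Real.log_le_sub_one_of_pos (by positivity)
  have h2 : (i + Q) / i - 1 = Q / i := by field_simp; ring
  rw [h2] at h1
  calc 1 / Q * Real.log ((i + Q) / i) ≤ 1 / Q * (Q / i) :=
        mul_le_mul_of_nonneg_left h1 (by positivity)
    _ = 1 / i := by field_simp

theorem le_log_step {i : ℝ} (hi : 0 < i) {Q : ℝ} (hQ : 0 < Q) :
    1 / (i + Q) ≤ 1 / Q * (Real.log (i + Q) - Real.log i) := by
  rw [← Real.log_div (by positivity) (by positivity)]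
  have h1 : 1 - ((i + Q) / i)⁻¹ ≤ Real.log ((i + Q) / i) :=
    Real.one_sub_inv_le_log_of_pos (by positivity)
  have h2 : 1 - ((i + Q) / i)⁻¹ = Q / (i + Q) := by field_simp; ring
  rw [h2] at h1
  calc 1 / (i + Q) = 1 / Q * (Q / (i + Q)) := by field_simp
    _ ≤ 1 / Q * Real.log ((i + Q) / i) := mul_le_mul_of_nonneg_left h1 (by positivity)

theorem lower (hQ : 0 < Q) (hq : ∀ i, 0 ≤ q i) (hper : ∀ i, q (i + Q) = q i) {a b : ℝ}
    (ha : 0 < a) {m n : ℕ} (hmn : m ≤ n) (hm1 : a ≤ m) (hm2 : (m : ℝ) < a + 1) (hn1 : b ≤ n)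
    (hb : 0 < b) :
    (∑ i ∈ range Q, q i) / Q * Real.log (b / a) - (∑ i ∈ range Q, q i) / a
      ≤ ∑ i ∈ Ico m n, q i / i := by
  set S := ∑ i ∈ range Q, q i with hS
  have hS0 : 0 ≤ S := Finset.sum_nonneg fun i _ => hq i
  have hQr : (0 : ℝ) < Q := by exact_mod_cast hQ
  have hm0 : (0 : ℝ) < m := lt_of_lt_of_le ha hm1
  have h1 : 1 / (Q : ℝ) * ∑ i ∈ Ico m n, q i * (Real.log ((i : ℝ) + Q) - Real.log i)
      ≤ ∑ i ∈ Ico m n, q i / i := by
    rw [Finset.mul_sum]
    apply Finset.sum_le_sum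
    intro i hi
    have him : m ≤ i := (Finset.mem_Ico.1 hi).1
    have hi0 : (0 : ℝ) < i := lt_of_lt_of_le hm0 (by exact_mod_cast him)
    have := log_step_le hi0 hQr
    calc 1 / (Q : ℝ) * (q i * (Real.log ((i : ℝ) + Q) - Real.log i))
        = q i * (1 / (Q : ℝ) * (Real.log ((i : ℝ) + Q) - Real.log i)) := by ring
      _ ≤ q i * (1 / i) := mul_le_mul_of_nonneg_left this (hq i)
      _ = q i / i := by ring
  rw [tele hQ hper hmn] at h1
  have h2 : S * Real.log b ≤ ∑ i ∈ Ico n (n + Q), q i * Real.log i := by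
    rw [hS, ← per_sum hper n, Finset.sum_mul]
    apply Finset.sum_le_sum
    intro i hi
    have hin : n ≤ i := (Finset.mem_Ico.1 hi).1
    apply mul_le_mul_of_nonneg_left _ (hq i)
    apply Real.log_le_log hb
    exact hn1.trans (by exact_mod_cast hin)
  have h3 : ∑ i ∈ Ico m (m + Q), q i * Real.log i ≤ S * Real.log (a + Q) := by
    rw [hS, ← per_sum hper m, Finset.sum_mul]
    apply Finset.sum_le_sum
    intro i hi
    have him : m ≤ i := (Finset.mem_Ico.1 hi).1
    have hi2 : i + 1 ≤ m + Q := (Finset.mem_Ico.1 hi).2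
    apply mul_le_mul_of_nonneg_left _ (hq i)
    apply Real.log_le_log (lt_of_lt_of_le hm0 (by exact_mod_cast him))
    have : ((i : ℝ) + 1) ≤ m + Q := by exact_mod_cast hi2
    linarith
  have h4 : Real.log (a + Q) ≤ Real.log a + Q / a := by
    have h5 : Real.log ((a + Q) / a) ≤ (a + Q) / a - 1 :=
      Real.log_le_sub_one_of_pos (by positivity)
    rw [Real.log_div (by positivity) (by positivity)] at h5
    have h6 : (a + Q) / a - 1 = Q / a := by field_simp; ring
    rw [h6] at h5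
    linarith
  have h7 : S * Real.log (a + Q) ≤ S * (Real.log a + Q / a) := mul_le_mul_of_nonneg_left h4 hS0
  have h8 : 1 / (Q : ℝ) * (S * Real.log b - S * (Real.log a + Q / a)) ≤ ∑ i ∈ Ico m n, q i / i := by
    refine le_trans (mul_le_mul_of_nonneg_left ?_ (by positivity)) h1
    linarith
  rw [Real.log_div (ne_of_gt hb) (ne_of_gt ha)]
  have h9 : 1 / (Q : ℝ) * (S * Real.log b - S * (Real.log a + Q / a))
      = S / Q * (Real.log b - Real.log a) - S / a := by
    field_simp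
    ring
  rw [h9] at h8
  exact h8

theorem upper (hQ : 0 < Q) (hq : ∀ i, 0 ≤ q i) (hper : ∀ i, q (i + Q) = q i) {a b : ℝ}
    (ha : 0 < a) {m n : ℕ} (hab : a ≤ b) (hm1 : a ≤ m) (hn2 : (n : ℝ) < b + 1) :
    ∑ i ∈ Ico m n, q i / i
      ≤ (∑ i ∈ range Q, q i) / Q * Real.log (b / a) + (∑ i ∈ range Q, q i) / a := by
  set S := ∑ i ∈ range Q, q i with hS
  have hS0 : 0 ≤ S := Finset.sum_nonneg fun i _ => hq i
  have hQr : (0 : ℝ) < Q := by exact_mod_cast hQ
  have hm0 : (0 : ℝ) < m := lt_of_lt_of_le ha hm1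
  have hb : 0 < b := lt_of_lt_of_le ha hab
  have hlog : 0 ≤ Real.log (b / a) := Real.log_nonneg ((one_le_div ha).2 hab)
  have hfirst : ∑ i ∈ Ico m (m + Q), q i / i ≤ S / a := by
    rw [hS, ← per_sum hper m, Finset.sum_div]
    apply Finset.sum_le_sum
    intro i hi
    have him : m ≤ i := (Finset.mem_Ico.1 hi).1
    apply div_le_div_of_nonneg_left (hq i) ha
    exact hm1.trans (by exact_mod_cast him)
  rcases Nat.lt_or_ge (m + Q) n with hlt | hge
  · -- long window
    have hsplit : ∑ i ∈ Ico m n, q i / i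
        = ∑ i ∈ Ico m (m + Q), q i / i + ∑ i ∈ Ico (m + Q) n, q i / i :=
      (Finset.sum_Ico_consecutive _ (by omega) (by omega)).symm
    obtain ⟨n', rfl⟩ : ∃ n', n = n' + Q := ⟨n - Q, by omega⟩
    have hmn' : m ≤ n' := by omega
    have hshift : ∑ i ∈ Ico (m + Q) (n' + Q), q i / i
        = ∑ j ∈ Ico m n', q (j + Q) / ((j + Q : ℕ) : ℝ) := by
      rw [← Finset.sum_Ico_add' (fun i => q i / (i : ℝ)) m n' Q]
    have h1 : ∑ j ∈ Ico m n', q (j + Q) / ((j + Q : ℕ) : ℝ)
        ≤ 1 / (Q : ℝ) * ∑ i ∈ Ico m n', q i * (Real.log ((i : ℝ) + Q) - Real.log i) := by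
      rw [Finset.mul_sum]
      apply Finset.sum_le_sum
      intro i hi
      have him : m ≤ i := (Finset.mem_Ico.1 hi).1
      have hi0 : (0 : ℝ) < i := lt_of_lt_of_le hm0 (by exact_mod_cast him)
      have := le_log_step hi0 hQr
      rw [hper]
      push_cast
      calc q i / ((i : ℝ) + Q) = q i * (1 / ((i : ℝ) + Q)) := by ring
        _ ≤ q i * (1 / (Q : ℝ) * (Real.log ((i : ℝ) + Q) - Real.log i)) :=
            mul_le_mul_of_nonneg_left this (hq i)
        _ = _ := by ring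
    rw [tele hQ hper hmn'] at h1
    have h2 : ∑ i ∈ Ico n' (n' + Q), q i * Real.log i ≤ S * Real.log b := by
      rw [hS, ← per_sum hper n', Finset.sum_mul]
      apply Finset.sum_le_sum
      intro i hi
      have hin : n' ≤ i := (Finset.mem_Ico.1 hi).1
      have hi2 : i + 1 ≤ n' + Q := (Finset.mem_Ico.1 hi).2
      apply mul_le_mul_of_nonneg_left _ (hq i)
      apply Real.log_le_log
      · exact lt_of_lt_of_le hm0 (by exact_mod_cast (hmn'.trans hin))
      · have : ((i : ℝ) + 1) ≤ ((n' + Q : ℕ) : ℝ) := by exact_mod_cast hi2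
        linarith
    have h3 : S * Real.log a ≤ ∑ i ∈ Ico m (m + Q), q i * Real.log i := by
      rw [hS, ← per_sum hper m, Finset.sum_mul]
      apply Finset.sum_le_sum
      intro i hi
      have him : m ≤ i := (Finset.mem_Ico.1 hi).1
      apply mul_le_mul_of_nonneg_left _ (hq i)
      apply Real.log_le_log ha
      exact hm1.trans (by exact_mod_cast him)
    have h4 : 1 / (Q : ℝ) * (∑ i ∈ Ico n' (n' + Q), q i * Real.log i
        - ∑ i ∈ Ico m (m + Q), q i * Real.log i) ≤ 1 / (Q : ℝ) * (S * Real.log b - S * Real.log a) := by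
      apply mul_le_mul_of_nonneg_left _ (by positivity)
      linarith
    have h5 : 1 / (Q : ℝ) * (S * Real.log b - S * Real.log a) = S / Q * Real.log (b / a) := by
      rw [Real.log_div (ne_of_gt hb) (ne_of_gt ha)]
      ring
    rw [hsplit, hshift]
    linarith
  · have hle : ∑ i ∈ Ico m n, q i / i ≤ ∑ i ∈ Ico m (m + Q), q i / i := by
      apply Finset.sum_le_sum_of_subset_of_nonneg
      · intro i hi
        rw [Finset.mem_Ico] at hi ⊢
        omega
      · intro i _ _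
        exact div_nonneg (hq i) (Nat.cast_nonneg i)
    have : 0 ≤ S / Q * Real.log (b / a) := mul_nonneg (by positivity) hlog
    linarith

end nat

/-- the mass as a sum over natural numbers -/
theorem mass_eq {s : ℤ} (hs : s = 1 ∨ s = -1) (p : ℤ → ℝ) {a b : ℝ} (ha : 0 < a) :
    mass s p a b = ∑ i ∈ Ico ⌈a⌉₊ ⌈b⌉₊, p (s * (i : ℤ)) / (i : ℝ) := by
  have hss : s * s = 1 := by rcases hs with rfl | rfl <;> rfl
  unfold mass
  apply Finset.sum_nbij' (fun N : ℤ => (s * N).toNat) (fun i : ℕ => s * (i : ℤ))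
  · intro N hN
    have h := (mem_W hs ha).1 hN
    have h5 : (0 : ℝ) < ((s * N : ℤ) : ℝ) := lt_of_lt_of_le ha h.1
    have h6 : 0 < s * N := by exact_mod_cast h5
    have h7 : (((s * N).toNat : ℕ) : ℝ) = ((s * N : ℤ) : ℝ) := by
      have : (((s * N).toNat : ℕ) : ℤ) = s * N := Int.toNat_of_nonneg h6.le
      exact_mod_cast this
    rw [Finset.mem_Ico, Nat.ceil_le, Nat.lt_ceil, h7]
    exact h
  · intro i hi
    rw [Finset.mem_Ico, Nat.ceil_le, Nat.lt_ceil] at hi
    rw [mem_W hs ha, ← mul_assoc, hss, one_mul]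
    exact_mod_cast hi
  · intro N hN
    have h := (mem_W hs ha).1 hN
    have h5 : (0 : ℝ) < ((s * N : ℤ) : ℝ) := lt_of_lt_of_le ha h.1
    have h6 : 0 < s * N := by exact_mod_cast h5
    change s * (((s * N).toNat : ℕ) : ℤ) = N
    rw [Int.toNat_of_nonneg h6.le, ← mul_assoc, hss, one_mul]
  · intro i _
    change (s * (s * (i : ℤ))).toNat = i
    rw [← mul_assoc, hss, one_mul]
    exact Int.toNat_natCast i
  · intro N hN
    have h := (mem_W hs ha).1 hN
    have h5 : (0 : ℝ) < ((s * N : ℤ) : ℝ) := lt_of_lt_of_le ha h.1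
    have h6 : 0 < s * N := by exact_mod_cast h5
    have h8 : (((s * N).toNat : ℕ) : ℤ) = s * N := Int.toNat_of_nonneg h6.le
    have h7 : (((s * N).toNat : ℕ) : ℝ) = ((s * N : ℤ) : ℝ) := by exact_mod_cast h8
    rw [abs_of_mem_W hs ha hN, h7, h8, ← mul_assoc, hss, one_mul]

theorem per_neg {Q : ℤ} {p : ℤ → ℝ} (hp : ∀ z, p (z + Q) = p z) (z : ℤ) : p (z - Q) = p z := by
  have := hp (z - Q)
  rw [sub_add_cancel] at this
  exact this.symm

theorem sum_sign {s : ℤ} (hs : s = 1 ∨ s = -1) {Q : ℕ} {p : ℤ → ℝ}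
    (hp : ∀ z, p (z + Q) = p z) :
    ∑ i ∈ range Q, p (s * (i : ℤ)) = ∑ i ∈ range Q, p (i : ℤ) := by
  rcases hs with rfl | rfl
  · simp
  · have h1 : ∑ i ∈ range Q, p (-1 * (i : ℤ)) = ∑ i ∈ range Q, p (((i + 1 : ℕ) : ℤ)) := by
      rw [← Finset.sum_range_reflect]
      apply Finset.sum_congr rfl
      intro i hi
      rw [Finset.mem_range] at hi
      have h2 : (-1 : ℤ) * ((Q - 1 - i : ℕ) : ℤ) = ((i + 1 : ℕ) : ℤ) - (Q : ℤ) := by
        omega
      rw [h2, per_neg hp]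
    have h3 := per_sum (Q := Q) (q := fun i : ℕ => p (i : ℤ))
      (fun i => by simpa using hp (i : ℤ)) 1
    rw [h1, ← h3, Finset.range_eq_Ico]
    have h4 := Finset.sum_Ico_add' (fun i : ℕ => p (i : ℤ)) 0 Q 1
    rw [h4]
    simp [add_comm]

end MassPeraux

open MassPeraux in
theorem stmtMassPer : StmtMassPer := by
  have main : ∀ (s : ℤ) (N : ℕ) (p : ℤ → ℝ) (a b : ℝ), (s = 1 ∨ s = -1) → (∀ z, 0 ≤ p z) →
      (∀ z, p (z + 3 ^ N) = p z) →
      0 < a → a ≤ b → |mass s p a b - avg N p * Real.log (b / a)| ≤ avg N p * (3 ^ N / a) := by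
    intro s N p a b hs hp0 hper ha hab
    have hb : 0 < b := lt_of_lt_of_le ha hab
    have hQ : 0 < 3 ^ N := by positivity
    have hper' : ∀ z, p (z + ((3 ^ N : ℕ) : ℤ)) = p z := by
      intro z
      push_cast
      exact hper z
    have hq : ∀ i : ℕ, 0 ≤ (fun i : ℕ => p (s * (i : ℤ))) i := fun i => hp0 _
    have hqper : ∀ i : ℕ, (fun i : ℕ => p (s * (i : ℤ))) (i + 3 ^ N)
        = (fun i : ℕ => p (s * (i : ℤ))) i := by
      intro i
      change p (s * ((i + 3 ^ N : ℕ) : ℤ)) = p (s * (i : ℤ))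
      rcases hs with rfl | rfl
      · have := hper (i : ℤ)
        simpa using this
      · have := per_neg hper (-(i : ℤ))
        have h2 : (-1 : ℤ) * ((i + 3 ^ N : ℕ) : ℤ) = -(i : ℤ) - 3 ^ N := by
          push_cast; ring
        rw [h2, this, neg_one_mul]
    have hm1 : a ≤ (⌈a⌉₊ : ℝ) := Nat.le_ceil a
    have hm2 : (⌈a⌉₊ : ℝ) < a + 1 := Nat.ceil_lt_add_one ha.le
    have hn1 : b ≤ (⌈b⌉₊ : ℝ) := Nat.le_ceil b
    have hn2 : (⌈b⌉₊ : ℝ) < b + 1 := Nat.ceil_lt_add_one hb.le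
    have hmn : ⌈a⌉₊ ≤ ⌈b⌉₊ := Nat.ceil_le_ceil hab
    have hlow := lower hQ hq hqper ha hmn hm1 hm2 hn1 hb
    have hup := upper hQ hq hqper ha hab hm1 hn2
    rw [sum_sign hs hper'] at hlow hup
    rw [mass_eq hs p ha]
    have havg : avg N p = (∑ i ∈ range (3 ^ N), p (i : ℤ)) / ((3 ^ N : ℕ) : ℝ) := by
      unfold avg
      push_cast
      rfl
    have hcast : (3 : ℝ) ^ N = ((3 ^ N : ℕ) : ℝ) := by push_cast; rfl
    have hQr : (0 : ℝ) < ((3 ^ N : ℕ) : ℝ) := by exact_mod_cast hQ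
    rw [havg, hcast]
    have h5 : (∑ i ∈ range (3 ^ N), p (i : ℤ)) / ((3 ^ N : ℕ) : ℝ) * (((3 ^ N : ℕ) : ℝ) / a)
        = (∑ i ∈ range (3 ^ N), p (i : ℤ)) / a := by
      field_simp
    rw [h5, abs_le]
    constructor <;> linarith
  refine ⟨main, ?_⟩
  intro s N p a b hs hp0 hper ha3 hb3
  have h3 : (0 : ℝ) < 3 ^ N := by positivity
  have ha : 0 < a := lt_of_lt_of_le h3 ha3
  have havg : 0 ≤ avg N p := by
    unfold avg
    exact div_nonneg (Finset.sum_nonneg fun _ _ => hp0 _) h3.le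
  rcases le_or_gt a b with hab | hab
  · have h1 := (abs_le.1 (main s N p a b hs hp0 hper ha hab)).2
    have h2 : Real.log (b / a) ≤ 2 := by
      have hb : 0 < b := lt_of_lt_of_le ha hab
      have h4 : Real.log (b / a) ≤ b / a - 1 := Real.log_le_sub_one_of_pos (by positivity)
      have h5 : b / a ≤ 3 := by rw [div_le_iff₀ ha]; exact hb3
      linarith
    have h4 : (3 : ℝ) ^ N / a ≤ 1 := by rw [div_le_one ha]; exact ha3
    nlinarith
  · rw [mass_empty s p hab.le]
    positivity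

end Pool.Agent.Clz
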