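import Pool.Agent.Lib.MP_5a39b1_nt.Clz.Spec3

/-!
MP_5a39b1_nt, module PFcore: push-forward of a window, lower bound. See the docstring of `StmtPFcore` in `Spec3.lean` for the proof.
-/

set_option autoImplicit false

namespace Pool.Agent.Clz

open Finset

namespace PFcoreaux

theorem kerF_of_valid {g : List (Fin 4)} {z : ℤ} (h : valid g z) : kerF g z = 3 ^ kap g := by
  unfold kerF
  unfold valid at h
  rw [if_pos h]

theorem kerF_of_not_valid {g : List (Fin 4)} {z : ℤ} (h : ¬ valid g z) : kerF g z = 0 := by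
  unfold kerF
  unfold valid at h
  rw [if_neg h]

/-- splitting off the first `t` letters -/
theorem inner (hWords : StmtWords) (g : List (Fin 4)) (r' : ℕ) (z : ℤ) :
    Ew r' (fun g' => kerF (g ++ g') z) = kerF g z * fr r' (Nz g z) := by
  obtain ⟨_, _, _, _, _, _, h7, h8⟩ := hWords
  by_cases hv : valid g z
  · rw [kerF_of_valid hv]
    unfold fr
    rw [← Ew_mul]
    exact Ew_congr fun g' _ => h7 g g' z hv
  · rw [kerF_of_not_valid hv, zero_mul]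
    rw [← Ew_zero' (E := ℝ) r']
    exact Ew_congr fun g' _ => h8 g g' z hv

open Classical in
theorem Dd_split (hWords : StmtWords) (t r' κ : ℕ) (z : ℤ) :
    Dd t (t + r') κ z = Ew t (fun g => if kap g = κ then kerF g z * fr r' (Nz g z) else 0) := by
  unfold Dd
  rw [Ew_append]
  refine Ew_congr fun g hg => ?_
  have h1 : ∀ g' : List (Fin 4), (g ++ g').take t = g := by
    intro g'
    rw [← hg, List.take_left]
  simp only [h1]
  by_cases hk : kap g = κ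
  · simp only [hk, if_true]
    exact inner hWords g r' z
  · simp only [hk, if_false]
    exact Ew_zero' r'

open Classical in
/-- good part -/
noncomputable def G (t r' κ : ℕ) (y : ℝ) (z : ℤ) : ℝ :=
  Ew t (fun g => if kap g = κ ∧ RR g ≤ y then kerF g z * fr r' (Nz g z) else 0)

open Classical in
/-- bad part -/
noncomputable def B (t r' κ : ℕ) (y : ℝ) (z : ℤ) : ℝ :=
  Ew t (fun g => if kap g = κ ∧ ¬ RR g ≤ y then kerF g z * fr r' (Nz g z) else 0)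

theorem Dd_eq (hWords : StmtWords) (t r' κ : ℕ) (y : ℝ) (z : ℤ) :
    Dd t (t + r') κ z = G t r' κ y z + B t r' κ y z := by
  classical
  rw [Dd_split hWords]
  unfold G B
  rw [← Ew_add]
  refine Ew_congr fun g _ => ?_
  by_cases h1 : kap g = κ <;> by_cases h2 : RR g ≤ y <;> simp [h1, h2]

theorem G_nonneg (t r' κ : ℕ) (y : ℝ) (z : ℤ) : 0 ≤ G t r' κ y z := by
  classical
  unfold G
  refine Ew_nonneg fun g _ => ?_
  split_ifs
  · exact mul_nonneg (kerF_nonneg _ _) (fr_nonneg _ _)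
  · exact le_rfl

theorem B_nonneg (t r' κ : ℕ) (y : ℝ) (z : ℤ) : 0 ≤ B t r' κ y z := by
  classical
  unfold B
  refine Ew_nonneg fun g _ => ?_
  split_ifs
  · exact mul_nonneg (kerF_nonneg _ _) (fr_nonneg _ _)
  · exact le_rfl

theorem periodic_nat_mul {φ : ℤ → ℝ} {q : ℤ} (h : ∀ z, φ (z + q) = φ z) (n : ℕ) (z : ℤ) :
    φ (z + n * q) = φ z := by
  induction n with
  | zero => simp
  | succ n ih =>
    rw [← ih, ← h (z + n * q)]
    congr 1
    push_cast; ring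

/-- periodicity of the transported density -/
theorem kfr_periodic (g : List (Fin 4)) (r' : ℕ) (z : ℤ) :
    kerF g (z + 3 ^ (kap g + 2 * r')) * fr r' (Nz g (z + 3 ^ (kap g + 2 * r')))
      = kerF g z * fr r' (Nz g z) := by
  rw [kerF_periodic g _ (Nat.le_add_right _ _)]
  congr 1
  have h1 : Nz g (z + 3 ^ (kap g + 2 * r')) = Nz g z + (4 ^ g.length : ℕ) * 3 ^ (2 * r') := by
    unfold Nz
    have e : 4 ^ g.length * (z + 3 ^ (kap g + 2 * r')) - FF g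
        = (4 ^ g.length * z - FF g) + ((4 ^ g.length : ℕ) * 3 ^ (2 * r')) * 3 ^ kap g := by
      push_cast
      rw [pow_add]; ring
    rw [e, Int.add_mul_ediv_right _ _ (by positivity)]
  rw [h1]
  exact periodic_nat_mul (q := 3 ^ (2 * r')) (fun z => fr_periodic r' (2 * r') le_rfl z) _ _

theorem B_periodic (t r' κ : ℕ) (y : ℝ) (z : ℤ) :
    B t r' κ y (z + 3 ^ (κ + 2 * r')) = B t r' κ y z := by
  classical
  unfold B
  refine Ew_congr fun g _ => ?_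
  by_cases h : kap g = κ ∧ ¬ RR g ≤ y
  · rw [if_pos h, if_pos h, ← h.1]
    exact kfr_periodic g r' z
  · rw [if_neg h, if_neg h]

open Classical in
theorem avg_B (hKerAvg : StmtKerAvg) (t r' κ : ℕ) (y : ℝ) :
    avg (κ + 2 * r') (B t r' κ y) = Ew t (fun g => if kap g = κ ∧ ¬ RR g ≤ y then 1 else 0) := by
  obtain ⟨_, h2, h3⟩ := hKerAvg
  have : B t r' κ y = fun z => Ew t (fun g =>
      (fun (g : List (Fin 4)) (z : ℤ) =>
        if kap g = κ ∧ ¬ RR g ≤ y then kerF g z * fr r' (Nz g z) else 0) g z) := rfl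
  rw [this, avg_Ew]
  refine Ew_congr fun g _ => ?_
  by_cases h : kap g = κ ∧ ¬ RR g ≤ y
  · simp only [h, if_true, not_false_eq_true, and_self]
    rw [h3 g (2 * r') (κ + 2 * r') (fr r') (fun z => fr_periodic r' (2 * r') le_rfl z) (by omega)]
    exact h2 (2 * r') r' le_rfl
  · simp only [h, if_false]
    exact avg_const _ 0

open Classical in
theorem sum_bad (t : ℕ) (K : Finset ℕ) (y : ℕ → ℝ) (y0 : ℝ) (hy : ∀ κ ∈ K, y0 ≤ y κ) :
    ∑ κ ∈ K, Ew t (fun g => if kap g = κ ∧ ¬ RR g ≤ y κ then (1 : ℝ) else 0)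
      ≤ Ew t (fun g => if ¬ RR g ≤ y0 then (1 : ℝ) else 0) := by
  rw [← Ew_finset_sum]
  refine Ew_mono fun g _ => ?_
  by_cases h : RR g ≤ y0
  · rw [if_neg (not_not.2 h)]
    apply le_of_eq
    refine Finset.sum_eq_zero fun κ hκ => ?_
    rw [if_neg]
    rintro ⟨_, h2⟩
    exact h2 (h.trans (hy κ hκ))
  · rw [if_pos h]
    calc ∑ κ ∈ K, (if kap g = κ ∧ ¬ RR g ≤ y κ then (1 : ℝ) else 0)
        ≤ ∑ κ ∈ K, (if kap g = κ then (1 : ℝ) else 0) := by
          refine Finset.sum_le_sum fun κ _ => ?_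
          by_cases h1 : kap g = κ <;> by_cases h2 : RR g ≤ y κ <;> simp [h1, h2]
      _ ≤ 1 := by
          rw [Finset.sum_ite_eq]
          split_ifs <;> norm_num

open Classical in
theorem markov (hRMoment : StmtRMoment) (t : ℕ) (y0 : ℝ) (hy : 0 < y0) :
    Ew t (fun g => if ¬ RR g ≤ y0 then (1 : ℝ) else 0) ≤ 10 / Real.sqrt y0 := by
  have hs : 0 < Real.sqrt y0 := Real.sqrt_pos.2 hy
  calc Ew t (fun g => if ¬ RR g ≤ y0 then (1 : ℝ) else 0)
      ≤ Ew t (fun g => (1 / Real.sqrt y0) * Real.sqrt (RR g)) := by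
        refine Ew_mono fun g _ => ?_
        by_cases h : RR g ≤ y0
        · rw [if_neg (not_not.2 h)]; positivity
        · rw [if_pos h, one_div, inv_mul_eq_div, le_div_iff₀ hs, one_mul]
          exact Real.sqrt_le_sqrt (not_le.1 h).le
    _ = (1 / Real.sqrt y0) * Ew t (fun g => Real.sqrt (RR g)) := Ew_mul _ _ _
    _ ≤ (1 / Real.sqrt y0) * 10 := by
        gcongr
        exact hRMoment.1 t
    _ = 10 / Real.sqrt y0 := by ring

/-- geometry of one branch: `N = Nz g M` -/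
theorem branch {s : ℤ} (hs : s = 1 ∨ s = -1) {t : ℕ} {a b η : ℝ} (ha : 0 < a) (hη : 0 ≤ η)
    {g : List (Fin 4)} {M : ℤ} (hg : g.length = t) (hv : valid g M)
    (hR : RR g ≤ η * (a * 3 ^ kap g / 4 ^ t)) (hR0 : 0 ≤ RR g)
    (hM : M ∈ W s (a * 3 ^ kap g / 4 ^ t * (1 + η)) (b * 3 ^ kap g / 4 ^ t - η * (a * 3 ^ kap g / 4 ^ t))) :
    Nz g M ∈ W s a b ∧ 3 ^ kap g / (4 ^ t * |(M : ℝ)|) ≤ (1 + η) / |((Nz g M : ℤ) : ℝ)| := by
  set A : ℝ := a * 3 ^ kap g / 4 ^ t with hA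
  have hApos : 0 < A := by positivity
  have hA' : 0 < A * (1 + η) := by positivity
  obtain ⟨hM1, hM2⟩ := (mem_W hs hA').1 hM
  have hMabs := abs_of_mem_W hs hA' hM
  -- the defining equation
  have hN : (Nz g M : ℤ) * 3 ^ kap g = 4 ^ t * M - FF g := by
    have := hv
    unfold valid at this
    unfold Nz
    rw [hg] at this ⊢
    exact Int.ediv_mul_cancel this
  have hNr : ((s * Nz g M : ℤ) : ℝ) = 4 ^ t / 3 ^ kap g * (((s * M : ℤ) : ℝ) - s * RR g) := by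
    have h1 : ((Nz g M : ℤ) : ℝ) * 3 ^ kap g = 4 ^ t * M - FF g := by exact_mod_cast hN
    have h2 : ((Nz g M : ℤ) : ℝ) = (4 ^ t * M - FF g) / 3 ^ kap g := by
      rw [← h1]; field_simp
    push_cast
    rw [h2]
    unfold RR
    rw [hg]
    field_simp
  have hsR : |(s : ℝ) * RR g| ≤ η * A := by
    rcases hs with rfl | rfl
    · rw [abs_le]; push_cast; constructor <;> nlinarith
    · rw [abs_le]; push_cast; constructor <;> nlinarith
  obtain ⟨hsR1, hsR2⟩ := abs_le.1 hsR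
  have hq : (0 : ℝ) < 4 ^ t / 3 ^ kap g := by positivity
  have hqA : 4 ^ t / 3 ^ kap g * A = a := by rw [hA]; field_simp
  have hmem : Nz g M ∈ W s a b := by
    rw [mem_W hs ha, hNr]
    constructor
    · rw [← hqA]
      refine mul_le_mul_of_nonneg_left ?_ hq.le
      nlinarith
    · have hqB : 4 ^ t / 3 ^ kap g * (b * 3 ^ kap g / 4 ^ t) = b := by field_simp
      rw [← hqB]
      refine mul_lt_mul_of_pos_left ?_ hq
      linarith
  refine ⟨hmem, ?_⟩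
  have hNabs := abs_of_mem_W hs ha hmem
  have hNpos : 0 < |((Nz g M : ℤ) : ℝ)| := lt_of_lt_of_le ha (mem_W' hs ha hmem).1
  have hMpos : 0 < |(M : ℝ)| := lt_of_lt_of_le hA' (mem_W' hs hA' hM).1
  rw [div_le_div_iff₀ (by positivity) hNpos, hNabs, hNr, hMabs]
  have hAM : A ≤ ((s * M : ℤ) : ℝ) := by nlinarith
  have h3 : ((s * M : ℤ) : ℝ) - s * RR g ≤ (1 + η) * ((s * M : ℤ) : ℝ) := by nlinarith
  calc 3 ^ kap g * (4 ^ t / 3 ^ kap g * (((s * M : ℤ) : ℝ) - s * RR g))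
      = 4 ^ t * (((s * M : ℤ) : ℝ) - s * RR g) := by field_simp
    _ ≤ 4 ^ t * ((1 + η) * ((s * M : ℤ) : ℝ)) := by gcongr
    _ = (1 + η) * (4 ^ t * ((s * M : ℤ) : ℝ)) := by ring

open Classical in
/-- the counting inequality -/
theorem main_inj (hWords : StmtWords) (hRMoment : StmtRMoment) {s : ℤ} (hs : s = 1 ∨ s = -1)
    (t r' : ℕ) {a b η : ℝ} (ha : 0 < a) (hη : 0 ≤ η) (ψ : ℤ → ℝ) (hψ : ∀ z, 0 ≤ ψ z) (K : Finset ℕ) :
    ∑ κ ∈ K, mass s (fun M => G t r' κ (η * (a * 3 ^ κ / 4 ^ t)) M * ψ M)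
        (a * 3 ^ κ / 4 ^ t * (1 + η)) (b * 3 ^ κ / 4 ^ t - η * (a * 3 ^ κ / 4 ^ t))
      ≤ (1 + η) * mass s (fun M => fr r' M * ψ (T^[2 * t] M)) a b := by
  obtain ⟨hW1, _, _, _, hW5, _, _, _⟩ := hWords
  -- the index set
  set J : Finset (Σ _ : ℕ, ℤ × List (Fin 4)) := K.sigma (fun κ =>
    ((W s (a * 3 ^ κ / 4 ^ t * (1 + η)) (b * 3 ^ κ / 4 ^ t - η * (a * 3 ^ κ / 4 ^ t))) ×ˢ words t).filter
      (fun p => (kap p.2 = κ ∧ RR p.2 ≤ η * (a * 3 ^ κ / 4 ^ t)) ∧ valid p.2 p.1)) with hJ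
  have step1 : ∑ κ ∈ K, mass s (fun M => G t r' κ (η * (a * 3 ^ κ / 4 ^ t)) M * ψ M)
        (a * 3 ^ κ / 4 ^ t * (1 + η)) (b * 3 ^ κ / 4 ^ t - η * (a * 3 ^ κ / 4 ^ t))
      = ∑ j ∈ J, (3 ^ j.1 / (4 ^ t * |(j.2.1 : ℝ)|)) * (fr r' (Nz j.2.2 j.2.1) * ψ j.2.1) := by
    rw [hJ, Finset.sum_sigma]
    refine Finset.sum_congr rfl fun κ _ => ?_
    rw [Finset.sum_filter, Finset.sum_product]
    unfold mass
    refine Finset.sum_congr rfl fun M _ => ?_
    unfold G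
    dsimp only
    rw [Ew_eq_sum, smul_eq_mul, Finset.mul_sum, Finset.sum_mul, Finset.sum_div]
    refine Finset.sum_congr rfl fun g _ => ?_
    by_cases h1 : kap g = κ ∧ RR g ≤ η * (a * 3 ^ κ / 4 ^ t)
    · by_cases hv : valid g M
      · simp only [h1, hv, and_self, if_true]
        rw [kerF_of_valid hv, h1.1]
        ring
      · simp only [h1, hv, and_self, and_false, if_true, if_false]
        rw [kerF_of_not_valid hv]
        ring
    · simp only [h1, false_and, if_false]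
      ring
  rw [step1]
  have hmemJ : ∀ j ∈ J, j.1 ∈ K ∧
      j.2.1 ∈ W s (a * 3 ^ kap j.2.2 / 4 ^ t * (1 + η)) (b * 3 ^ kap j.2.2 / 4 ^ t - η * (a * 3 ^ kap j.2.2 / 4 ^ t)) ∧
      j.2.2.length = t ∧ kap j.2.2 = j.1 ∧ RR j.2.2 ≤ η * (a * 3 ^ kap j.2.2 / 4 ^ t) ∧ valid j.2.2 j.2.1 := by
    rintro ⟨κ, M, g⟩ hj
    rw [hJ, Finset.mem_sigma, Finset.mem_filter, Finset.mem_product] at hj
    obtain ⟨hκ, ⟨hM, hg⟩, ⟨hk, hR⟩, hv⟩ := hj
    simp only at hκ hM hg hk hR hv ⊢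
    subst hk
    exact ⟨hκ, hM, (mem_words t g).1 hg, rfl, hR, hv⟩
  have hinj : Set.InjOn (fun j : (Σ _ : ℕ, ℤ × List (Fin 4)) => Nz j.2.2 j.2.1) (J : Set _) := by
    rintro ⟨κ, M, g⟩ hj ⟨κ', M', g'⟩ hj' h
    obtain ⟨_, _, h3, h4, _, h6⟩ := hmemJ _ hj
    obtain ⟨_, _, h3', h4', _, h6'⟩ := hmemJ _ hj'
    simp only at h3 h4 h6 h3' h4' h6' h
    obtain ⟨e1, e2⟩ := hW5 g g' M M' (h3.trans h3'.symm) h6 h6' h
    subst e1; subst e2; subst h4; subst h4'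
    rfl
  have step2 : ∑ j ∈ J, (3 ^ j.1 / (4 ^ t * |(j.2.1 : ℝ)|)) * (fr r' (Nz j.2.2 j.2.1) * ψ j.2.1)
      ≤ ∑ j ∈ J, (1 + η) * (fr r' (Nz j.2.2 j.2.1) * ψ (T^[2 * t] (Nz j.2.2 j.2.1)) / |((Nz j.2.2 j.2.1 : ℤ) : ℝ)|) := by
    refine Finset.sum_le_sum fun j hj => ?_
    obtain ⟨_, h2, h3, h4, h5, h6⟩ := hmemJ _ hj
    have hT : T^[2 * t] (Nz j.2.2 j.2.1) = j.2.1 := by
      have := hW1 j.2.2 j.2.1 h6
      rwa [h3] at this
    rw [hT, ← h4]
    have hb := (branch hs ha hη h3 h6 h5 (hRMoment.2 _).1 h2).2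
    calc (3 ^ kap j.2.2 / (4 ^ t * |(j.2.1 : ℝ)|)) * (fr r' (Nz j.2.2 j.2.1) * ψ j.2.1)
        ≤ ((1 + η) / |((Nz j.2.2 j.2.1 : ℤ) : ℝ)|) * (fr r' (Nz j.2.2 j.2.1) * ψ j.2.1) :=
          mul_le_mul_of_nonneg_right hb (mul_nonneg (fr_nonneg _ _) (hψ _))
      _ = _ := by ring
  refine step2.trans ?_
  rw [← Finset.mul_sum]
  refine mul_le_mul_of_nonneg_left ?_ (by positivity)
  rw [← Finset.sum_image (f := fun N : ℤ => fr r' N * ψ (T^[2 * t] N) / |(N : ℝ)|) hinj]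
  unfold mass
  refine Finset.sum_le_sum_of_subset_of_nonneg ?_ fun N _ _ =>
    div_nonneg (mul_nonneg (fr_nonneg _ _) (hψ _)) (abs_nonneg _)
  intro N hN
  obtain ⟨j, hj, rfl⟩ := Finset.mem_image.1 hN
  obtain ⟨_, h2, h3, h4, h5, h6⟩ := hmemJ _ hj
  exact (branch hs ha hη h3 h6 h5 (hRMoment.2 _).1 h2).1

/-- short windows -/
theorem short (hKerAvg : StmtKerAvg) (hMassPer : StmtMassPer) {s : ℤ} (hs : s = 1 ∨ s = -1)
    (r : ℕ) {A η : ℝ} (hA : 0 < A) (hη : 0 ≤ η) (ψ : ℤ → ℝ) (hψ : ∀ z, 0 ≤ ψ z ∧ ψ z ≤ 1)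
    {c d : ℝ} (hc : A ≤ c) (hcd : c ≤ d) (hd : d ≤ c * (1 + η)) :
    mass s (fun M => fr r M * ψ M) c d ≤ η + 9 ^ r / A := by
  have hc0 : 0 < c := lt_of_lt_of_le hA hc
  have h1 : mass s (fun M => fr r M * ψ M) c d ≤ mass s (fr r) c d := by
    refine mass_mono fun M _ => ?_
    have := (hψ M).2
    have h0 := fr_nonneg r M
    nlinarith
  have h2 := hMassPer.1 s (2 * r) (fr r) c d hs (fr_nonneg r)
    (fun z => fr_periodic r (2 * r) le_rfl z) hc0 hcd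
  rw [hKerAvg.2.1 (2 * r) r le_rfl] at h2
  have h3 := (abs_le.1 h2).2
  have h4 : Real.log (d / c) ≤ η := by
    have hdc : 0 < d / c := div_pos (lt_of_lt_of_le hc0 hcd) hc0
    have := Real.log_le_sub_one_of_pos hdc
    have h5 : d / c ≤ 1 + η := by
      rw [div_le_iff₀ hc0]; linarith
    linarith
  have h6 : (3 : ℝ) ^ (2 * r) / c ≤ 9 ^ r / A := by
    rw [pow_mul]
    norm_num
    gcongr
  linarith

/-- the two edges -/
theorem edges (hKerAvg : StmtKerAvg) (hMassPer : StmtMassPer) {s : ℤ} (hs : s = 1 ∨ s = -1)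
    (r : ℕ) {A η B' : ℝ} (hA : 0 < A) (hη : 0 ≤ η) (ψ : ℤ → ℝ) (hψ : ∀ z, 0 ≤ ψ z ∧ ψ z ≤ 1)
    (hB : A ≤ B') :
    mass s (fun M => fr r M * ψ M) A B'
      ≤ mass s (fun M => fr r M * ψ M) (A * (1 + η)) (B' - η * A) + 2 * (η + 9 ^ r / A) := by
  have hnn : ∀ M, 0 ≤ (fun M => fr r M * ψ M) M := fun M => mul_nonneg (fr_nonneg r M) (hψ M).1
  have hmid : 0 ≤ mass s (fun M => fr r M * ψ M) (A * (1 + η)) (B' - η * A) := mass_nonneg hnn
  have h9 : 0 ≤ (9 : ℝ) ^ r / A := by positivity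
  have hηA : 0 ≤ η * A := by positivity
  rcases le_or_gt (B' - η * A) A with h1 | h1
  · have := short hKerAvg hMassPer hs r hA hη ψ hψ le_rfl hB (by nlinarith)
    linarith
  · have e1 := mass_add hs (fun M => fr r M * ψ M) hA h1.le (by linarith : B' - η * A ≤ B')
    have e2 := short hKerAvg hMassPer hs r hA hη ψ hψ h1.le (by linarith : B' - η * A ≤ B') (by nlinarith)
    rcases le_or_gt (A * (1 + η)) (B' - η * A) with h2 | h2
    · have e3 := mass_add hs (fun M => fr r M * ψ M) hA (by nlinarith : A ≤ A * (1 + η)) h2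
      have e4 := short hKerAvg hMassPer hs r hA hη ψ hψ le_rfl (by nlinarith : A ≤ A * (1 + η)) le_rfl
      linarith
    · have e4 := short hKerAvg hMassPer hs r hA hη ψ hψ le_rfl h1.le h2.le
      linarith

theorem Dd_zero (t L κ : ℕ) (h : 2 * t < κ) (z : ℤ) : Dd t L κ z = 0 := by
  classical
  unfold Dd
  refine (Ew_congr (ψ := fun _ => (0 : ℝ)) fun g _ => ?_).trans (Ew_zero' L)
  rw [if_neg]
  intro hk
  have h1 := kap_le (g.take t)
  have h2 : (g.take t).length ≤ t := List.length_take_le _ _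
  omega

theorem Dd_per (t r' κ N : ℕ) (h : κ + 2 * r' ≤ N) (z : ℤ) :
    Dd t (t + r') κ (z + 3 ^ N) = Dd t (t + r') κ z := by
  classical
  unfold Dd
  refine Ew_congr fun g hg => ?_
  by_cases hk : kap (g.take t) = κ
  · rw [if_pos hk, if_pos hk]
    refine kerF_periodic g N ?_ z
    have h1 : kap g = kap (g.take t) + kap (g.drop t) := by
      rw [← kap_append, List.take_append_drop]
    have h2 := kap_le (g.drop t)
    have h3 : (g.drop t).length = r' := by rw [List.length_drop, hg]; omega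
    omega
  · rw [if_neg hk, if_neg hk]

/-- the mixing error in one window -/
theorem mix_err (hBinBasic : StmtBinBasic) (hMassPer : StmtMassPer) {s : ℤ} (hs : s = 1 ∨ s = -1)
    (t r r' κ N : ℕ) {A B' : ℝ} (hN : 2 * (t + r + r') ≤ N)
    (hA : (3 : ℝ) ^ (κ + 2 * (r + r')) ≤ A) (hB : B' ≤ 3 * A) :
    mass s (fun z => |Dd t (t + r') κ z - P (2 * t) κ * fr r z|) A B'
      ≤ 3 * avg N (fun z => |Dd t (t + r') κ z - P (2 * t) κ * fr r z|) := by
  rcases le_or_gt κ (2 * t) with h | h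
  · have hper : ∀ z : ℤ, (fun z : ℤ => |Dd t (t + r') κ z - P (2 * t) κ * fr r z|) (z + 3 ^ (κ + 2 * (r + r')))
        = (fun z : ℤ => |Dd t (t + r') κ z - P (2 * t) κ * fr r z|) z := by
      intro z
      dsimp only
      rw [Dd_per t r' κ _ (by omega), fr_periodic r _ (by omega)]
    have h1 := hMassPer.2 s (κ + 2 * (r + r')) (fun z => |Dd t (t + r') κ z - P (2 * t) κ * fr r z|) A B' hs
      (fun z => abs_nonneg _) hper hA hB
    rwa [← avg_of_periodic (by omega : κ + 2 * (r + r') ≤ N) _ hper] at h1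
  · have h0 : ∀ z : ℤ, |Dd t (t + r') κ z - P (2 * t) κ * fr r z| = 0 := by
      intro z
      rw [Dd_zero t _ κ h, hBinBasic.2.1 (2 * t) κ (Or.inr (by exact_mod_cast h))]
      simp
    have h1 : mass s (fun z => |Dd t (t + r') κ z - P (2 * t) κ * fr r z|) A B' = 0 := by
      unfold mass
      exact Finset.sum_eq_zero fun z _ => by dsimp only; rw [h0 z, zero_div]
    rw [h1]
    exact mul_nonneg (by norm_num) (avg_nonneg fun z => abs_nonneg _)

theorem sum_P_le (hBinBasic : StmtBinBasic) (n : ℕ) (K : Finset ℕ) : ∑ κ ∈ K, P n κ ≤ 1 := by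
  obtain ⟨h1, h2, _, _, h5, _⟩ := hBinBasic
  calc ∑ κ ∈ K, P n κ ≤ ∑ κ ∈ K ∪ range (n + 1), P n κ :=
        Finset.sum_le_sum_of_subset_of_nonneg Finset.subset_union_left fun κ _ _ => h1 _ _
    _ = ∑ κ ∈ range (n + 1), P n κ := by
        symm
        refine Finset.sum_subset Finset.subset_union_right fun κ _ hκ => h2 _ _ (Or.inr ?_)
        rw [Finset.mem_range] at hκ
        omega
    _ = 1 := h5 n

end PFcoreaux

open PFcoreaux in
theorem stmtPFcore (hBinBasic : StmtBinBasic) (hKapLaw : StmtKapLaw) (hWords : StmtWords) (hRMoment : StmtRMoment) (hKerAvg : StmtKerAvg) (hMassPer : StmtMassPer) : StmtPFcore := by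
  classical
  intro s t r r' N a b ψ K hs hψ ha hab hb3 hbig hN
  set η : ℝ := Real.sqrt (4 ^ t / a) with hηdef
  have h4t : (0 : ℝ) < 4 ^ t := by positivity
  have hη2 : η ^ 2 = 4 ^ t / a := Real.sq_sqrt (by positivity)
  have hηpos : 0 < η := Real.sqrt_pos.2 (by positivity)
  have h81 : (1 : ℝ) ≤ 81 ^ (r + r') := one_le_pow₀ (by norm_num)
  have h16 : 16 * 4 ^ t ≤ a := by
    calc (16 : ℝ) * 4 ^ t = 16 * 4 ^ t * 1 := by ring
      _ ≤ 16 * 4 ^ t * 81 ^ (r + r') := by gcongr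
      _ ≤ a := hbig
  have hη1 : η ≤ 1 := by
    rw [hηdef]
    refine Real.sqrt_le_one.2 ?_
    rw [div_le_one ha]
    nlinarith
  -- sqrt of eta
  set ζ : ℝ := Real.sqrt η with hζdef
  have hζ2 : ζ ^ 2 = η := Real.sq_sqrt hηpos.le
  have hζpos : 0 < ζ := Real.sqrt_pos.2 hηpos
  have hζ1 : ζ ≤ 1 := Real.sqrt_le_one.2 hη1
  have hηζ : η ≤ ζ := by nlinarith
  -- the windows
  have hAbig : ∀ κ : ℕ, (3 : ℝ) ^ (κ + 2 * (r + r')) ≤ a * 3 ^ κ / 4 ^ t := by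
    intro κ
    rw [le_div_iff₀ h4t, pow_add, pow_mul]
    norm_num
    have h9 : (9 : ℝ) ^ (r + r') ≤ 81 ^ (r + r') := pow_le_pow_left₀ (by norm_num) (by norm_num) _
    calc (3 : ℝ) ^ κ * 9 ^ (r + r') * 4 ^ t ≤ 3 ^ κ * 81 ^ (r + r') * 4 ^ t := by gcongr
      _ ≤ 3 ^ κ * (16 * 4 ^ t * 81 ^ (r + r')) := by
          have : (0 : ℝ) ≤ 3 ^ κ * (4 ^ t * 81 ^ (r + r')) := by positivity
          nlinarith
      _ ≤ 3 ^ κ * a := by gcongr
      _ = a * 3 ^ κ := by ring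
  have hApos : ∀ κ : ℕ, 0 < a * 3 ^ κ / 4 ^ t := fun κ => by positivity
  have hAlow : ∀ κ : ℕ, a / 4 ^ t ≤ a * 3 ^ κ / 4 ^ t := by
    intro κ
    have : (1 : ℝ) ≤ 3 ^ κ := one_le_pow₀ (by norm_num)
    gcongr
    nlinarith
  have hAB : ∀ κ : ℕ, a * 3 ^ κ / 4 ^ t ≤ b * 3 ^ κ / 4 ^ t := fun κ => by gcongr
  have hAB3 : ∀ κ : ℕ, b * 3 ^ κ / 4 ^ t ≤ 3 * (a * 3 ^ κ / 4 ^ t) := by
    intro κ
    calc b * 3 ^ κ / 4 ^ t ≤ (3 * a) * 3 ^ κ / 4 ^ t := by gcongr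
      _ = _ := by ring
  -- the main quantity
  set X : ℝ := mass s (fun M => fr r' M * ψ (T^[2 * t] M)) a b with hX
  have hX3 : X ≤ 3 := by
    have h1 : X ≤ mass s (fr r') a b := by
      refine mass_mono fun M _ => ?_
      have := (hψ (T^[2 * t] M)).2
      have h0 := fr_nonneg r' M
      nlinarith
    have h2 : mass s (fr r') a b ≤ 3 * avg (2 * r') (fr r') := by
      refine hMassPer.2 s (2 * r') (fr r') a b hs (fr_nonneg r')
        (fun z => fr_periodic r' (2 * r') le_rfl z) ?_ hb3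
      calc (3 : ℝ) ^ (2 * r') = 9 ^ r' := by rw [pow_mul]; norm_num
        _ ≤ 9 ^ (r + r') := pow_le_pow_right₀ (by norm_num) (by omega)
        _ ≤ 81 ^ (r + r') := pow_le_pow_left₀ (by norm_num) (by norm_num) _
        _ ≤ 16 * 4 ^ t * 81 ^ (r + r') := by
            have : (1 : ℝ) ≤ 4 ^ t := one_le_pow₀ (by norm_num)
            nlinarith
        _ ≤ a := hbig
    rw [hKerAvg.2.1 (2 * r') r' le_rfl] at h2
    linarith
  -- the inner windows
  set m' : ℕ → (ℤ → ℝ) → ℝ := fun κ φ => mass s φ (a * 3 ^ κ / 4 ^ t * (1 + η))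
    (b * 3 ^ κ / 4 ^ t - η * (a * 3 ^ κ / 4 ^ t)) with hm'
  have hsub : ∀ (κ : ℕ) (φ : ℤ → ℝ), (∀ z, 0 ≤ φ z) →
      m' κ φ ≤ mass s φ (a * 3 ^ κ / 4 ^ t) (b * 3 ^ κ / 4 ^ t) := by
    intro κ φ hφ
    have := hApos κ
    exact mass_subset hs hφ (hApos κ) (by nlinarith) (by nlinarith)
  have hone : ∀ κ ∈ K, P (2 * t) κ * mass s (fun M => fr r M * ψ M) (a * 3 ^ κ / 4 ^ t) (b * 3 ^ κ / 4 ^ t)
      ≤ m' κ (fun M => G t r' κ (η * (a * 3 ^ κ / 4 ^ t)) M * ψ M)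
        + 3 * avg (κ + 2 * r') (B t r' κ (η * (a * 3 ^ κ / 4 ^ t)))
        + 3 * avg N (fun z => |Dd t (t + r') κ z - P (2 * t) κ * fr r z|)
        + P (2 * t) κ * (2 * (η + 9 ^ r * η ^ 2)) := by
    intro κ _
    have hP := hBinBasic.1 (2 * t) κ
    have e1 := edges hKerAvg hMassPer hs r (hApos κ) hηpos.le ψ hψ (hAB κ)
    have e2 : (9 : ℝ) ^ r / (a * 3 ^ κ / 4 ^ t) ≤ 9 ^ r * η ^ 2 := by
      rw [hη2]
      calc (9 : ℝ) ^ r / (a * 3 ^ κ / 4 ^ t) ≤ 9 ^ r / (a / 4 ^ t) := by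
            have := hAlow κ
            gcongr
        _ = 9 ^ r * (4 ^ t / a) := by field_simp
    have e3 : P (2 * t) κ * m' κ (fun M => fr r M * ψ M)
        ≤ m' κ (fun M => G t r' κ (η * (a * 3 ^ κ / 4 ^ t)) M * ψ M)
          + m' κ (B t r' κ (η * (a * 3 ^ κ / 4 ^ t)))
          + m' κ (fun z => |Dd t (t + r') κ z - P (2 * t) κ * fr r z|) := by
      rw [hm']
      dsimp only
      rw [← mass_smul, ← mass_fadd, ← mass_fadd]
      refine mass_mono fun M _ => ?_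
      have h1 := Dd_eq hWords t r' κ (η * (a * 3 ^ κ / 4 ^ t)) M
      have h2 := G_nonneg t r' κ (η * (a * 3 ^ κ / 4 ^ t)) M
      have h3 := B_nonneg t r' κ (η * (a * 3 ^ κ / 4 ^ t)) M
      have h4 := hψ M
      have h5 : (P (2 * t) κ * fr r M - Dd t (t + r') κ M) ≤ |Dd t (t + r') κ M - P (2 * t) κ * fr r M| := by
        rw [abs_sub_comm]; exact le_abs_self _
      have h6 : (P (2 * t) κ * fr r M - Dd t (t + r') κ M) * ψ M ≤ |Dd t (t + r') κ M - P (2 * t) κ * fr r M| := by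
        calc (P (2 * t) κ * fr r M - Dd t (t + r') κ M) * ψ M
            ≤ |Dd t (t + r') κ M - P (2 * t) κ * fr r M| * ψ M := mul_le_mul_of_nonneg_right h5 h4.1
          _ ≤ |Dd t (t + r') κ M - P (2 * t) κ * fr r M| * 1 := mul_le_mul_of_nonneg_left h4.2 (abs_nonneg _)
          _ = _ := mul_one _
      have h7 : B t r' κ (η * (a * 3 ^ κ / 4 ^ t)) M * ψ M ≤ B t r' κ (η * (a * 3 ^ κ / 4 ^ t)) M :=
        mul_le_of_le_one_right h3 h4.2
      calc P (2 * t) κ * (fr r M * ψ M)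
          = (P (2 * t) κ * fr r M - Dd t (t + r') κ M) * ψ M
            + (G t r' κ (η * (a * 3 ^ κ / 4 ^ t)) M * ψ M + B t r' κ (η * (a * 3 ^ κ / 4 ^ t)) M * ψ M) := by
              rw [h1]; ring
        _ ≤ _ := by linarith
    have e4 : m' κ (B t r' κ (η * (a * 3 ^ κ / 4 ^ t))) ≤ 3 * avg (κ + 2 * r') (B t r' κ (η * (a * 3 ^ κ / 4 ^ t))) := by
      refine (hsub κ _ (B_nonneg _ _ _ _)).trans ?_
      refine hMassPer.2 s (κ + 2 * r') _ _ _ hs (B_nonneg _ _ _ _) (B_periodic _ _ _ _) ?_ (hAB3 κ)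
      refine le_trans (pow_le_pow_right₀ (by norm_num) (by omega)) (hAbig κ)
    have e5 : m' κ (fun z => |Dd t (t + r') κ z - P (2 * t) κ * fr r z|)
        ≤ 3 * avg N (fun z => |Dd t (t + r') κ z - P (2 * t) κ * fr r z|) :=
      (hsub κ _ fun z => abs_nonneg _).trans
        (mix_err hBinBasic hMassPer hs t r r' κ N hN (hAbig κ) (hAB3 κ))
    have e6 : P (2 * t) κ * mass s (fun M => fr r M * ψ M) (a * 3 ^ κ / 4 ^ t) (b * 3 ^ κ / 4 ^ t)
        ≤ P (2 * t) κ * (m' κ (fun M => fr r M * ψ M) + 2 * (η + 9 ^ r * η ^ 2)) := by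
      refine mul_le_mul_of_nonneg_left (e1.trans ?_) hP
      rw [hm']
      dsimp only
      linarith
    rw [mul_add] at e6
    linarith
  have hsum := Finset.sum_le_sum hone
  simp only [Finset.sum_add_distrib] at hsum
  rw [← Finset.mul_sum, ← Finset.mul_sum, ← Finset.sum_mul] at hsum
  -- good part
  have f1 : ∑ κ ∈ K, m' κ (fun M => G t r' κ (η * (a * 3 ^ κ / 4 ^ t)) M * ψ M) ≤ (1 + η) * X :=
    main_inj hWords hRMoment hs t r' ha hηpos.le ψ (fun z => (hψ z).1) K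
  -- bad part
  have f2 : ∑ κ ∈ K, avg (κ + 2 * r') (B t r' κ (η * (a * 3 ^ κ / 4 ^ t))) ≤ 10 * ζ := by
    have g1 : ∀ κ ∈ K, avg (κ + 2 * r') (B t r' κ (η * (a * 3 ^ κ / 4 ^ t)))
        = Ew t (fun g => if kap g = κ ∧ ¬ RR g ≤ (fun κ : ℕ => η * (a * 3 ^ κ / 4 ^ t)) κ then (1 : ℝ) else 0) :=
      fun κ _ => avg_B hKerAvg t r' κ _
    rw [Finset.sum_congr rfl g1]
    have g2 := sum_bad t K (fun κ : ℕ => η * (a * 3 ^ κ / 4 ^ t)) (η * (a / 4 ^ t))
      (fun κ _ => mul_le_mul_of_nonneg_left (hAlow κ) hηpos.le)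
    refine g2.trans ((markov hRMoment t _ (by positivity)).trans ?_)
    have g3 : η * (a / 4 ^ t) = η⁻¹ := by
      have : a / 4 ^ t = (η ^ 2)⁻¹ := by rw [hη2, inv_div]
      rw [this]
      field_simp
    rw [g3, Real.sqrt_inv, ← hζdef]
    simp
  have f3 := sum_P_le hBinBasic (2 * t) K
  have hc0 : 0 ≤ 2 * (η + 9 ^ r * η ^ 2) := by positivity
  have f4 : (∑ κ ∈ K, P (2 * t) κ) * (2 * (η + 9 ^ r * η ^ 2)) ≤ 1 * (2 * (η + 9 ^ r * η ^ 2)) :=
    mul_le_mul_of_nonneg_right f3 hc0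
  have h9 : (1 : ℝ) ≤ 9 ^ r := one_le_pow₀ (by norm_num)
  have f5 : η * X ≤ η * 3 := mul_le_mul_of_nonneg_left hX3 hηpos.le
  have f6 : 3 * η + 3 * (10 * ζ) + 2 * (η + 9 ^ r * η ^ 2) ≤ 40 * 9 ^ r * ζ := by
    have k1 : ζ ≤ 9 ^ r * ζ := by nlinarith
    have k2 : η ^ 2 ≤ ζ := by nlinarith
    have k3 : (9 : ℝ) ^ r * η ^ 2 ≤ 9 ^ r * ζ := by gcongr
    linarith
  linarith

end Pool.Agent.Clz
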