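import Pool.Agent.Lib.MP_5a39b1_nt.Clz.Spec3

/-!
MP_5a39b1_nt, module PFp: asymptotic form of PFcore with 3 values of kappa (real analysis). See the docstring of `StmtPFp` in `Spec3.lean` for the proof.
-/

set_option autoImplicit false

namespace Pool.Agent.Clz.PFpaux

open Finset

theorem log4_le : Real.log 4 ≤ 1.27 * Real.log 3 := by
  have h : (4 : ℝ) ^ 100 ≤ 3 ^ 127 := by norm_num
  have h2 := Real.log_le_log (by positivity) h
  rw [Real.log_pow, Real.log_pow] at h2
  push_cast at h2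
  linarith

theorem log3_ge : 1 ≤ Real.log 3 := by
  have := Real.exp_one_lt_d9
  rw [Real.le_log_iff_exp_le (by norm_num)]
  linarith

theorem q4_pow (u : ℝ) (hu : 0 ≤ u) : q4 u ^ 4 = u := by
  unfold q4
  have h1 : Real.sqrt (Real.sqrt u) ^ 2 = Real.sqrt u := Real.sq_sqrt (Real.sqrt_nonneg _)
  have h2 : Real.sqrt u ^ 2 = u := Real.sq_sqrt hu
  calc Real.sqrt (Real.sqrt u) ^ 4 = (Real.sqrt (Real.sqrt u) ^ 2) ^ 2 := by ring
    _ = u := by rw [h1, h2]

theorem q4_nonneg (u : ℝ) : 0 ≤ q4 u := Real.sqrt_nonneg _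

/-- the admissible numbers are of the order of `q4` -/
theorem adm_bounds (u : ℝ) (hu : 0 ≤ u) (r : ℕ) (h : Adm u r) :
    q4 u ≤ 2 * r ∧ (r : ℝ) ≤ 2 * q4 u := by
  have hy := q4_pow u hu
  have hy0 := q4_nonneg u
  constructor
  · rw [← pow_le_pow_iff_left₀ hy0 (by positivity) (show (4 : ℕ) ≠ 0 by norm_num), hy, mul_pow]
    have := h.1
    norm_num
    linarith
  · rw [← pow_le_pow_iff_left₀ (by positivity) (by positivity) (show (4 : ℕ) ≠ 0 by norm_num),
      mul_pow, hy]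
    have := h.2
    norm_num
    linarith

theorem log_a (a : ℝ) : Real.log a = lg a * Real.log 3 := by
  unfold lg
  have : Real.log 3 ≠ 0 := by
    have := log3_ge
    linarith
  field_simp

/-- size condition -/
theorem size (a : ℝ) (t R : ℕ) (y : ℝ) (ha : 0 < a) (hy6 : 6 ≤ y) (hy : y ^ 4 = lg a)
    (ht : 10 * (t : ℝ) ≤ 7 * lg a) (hR : (R : ℝ) ≤ 4 * y) :
    16 * 4 ^ t * 81 ^ R ≤ a := by
  have hL3 := log3_ge
  rw [← Real.log_le_log_iff (by positivity) ha, Real.log_mul (by positivity) (by positivity),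
    Real.log_mul (by norm_num) (by positivity), Real.log_pow, Real.log_pow, log_a a]
  have h16 : Real.log 16 ≤ 3 * Real.log 3 := by
    have h : (16 : ℝ) ≤ 3 ^ 3 := by norm_num
    have h2 := Real.log_le_log (by norm_num) h
    rw [Real.log_pow] at h2
    push_cast at h2
    exact h2
  have h81 : Real.log 81 = 4 * Real.log 3 := by
    rw [show (81 : ℝ) = 3 ^ 4 by norm_num, Real.log_pow]
    push_cast
    ring
  have h4 := log4_le
  have ht0 : (0 : ℝ) ≤ t := Nat.cast_nonneg t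
  have e1 : (t : ℝ) * Real.log 4 ≤ (0.889 * lg a) * Real.log 3 := by
    calc (t : ℝ) * Real.log 4 ≤ t * (1.27 * Real.log 3) := mul_le_mul_of_nonneg_left h4 ht0
      _ = (1.27 * t) * Real.log 3 := by ring
      _ ≤ (0.889 * lg a) * Real.log 3 := by
          apply mul_le_mul_of_nonneg_right _ (by linarith)
          linarith
  have e2 : (R : ℝ) * Real.log 81 ≤ (16 * y) * Real.log 3 := by
    rw [h81]
    calc (R : ℝ) * (4 * Real.log 3) = (4 * R) * Real.log 3 := by ring
      _ ≤ (16 * y) * Real.log 3 := by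
          apply mul_le_mul_of_nonneg_right _ (by linarith)
          linarith
  have e3 : 3 + 0.889 * lg a + 16 * y ≤ lg a := by
    rw [← hy]
    have h3 : (216 : ℝ) ≤ y ^ 3 := by
      have := pow_le_pow_left₀ (by norm_num) hy6 3
      norm_num at this
      exact this
    have h5 : 216 * y ≤ y ^ 4 := by
      calc 216 * y ≤ y ^ 3 * y := mul_le_mul_of_nonneg_right h3 (by linarith)
        _ = y ^ 4 := by ring
    linarith
  calc Real.log 16 + t * Real.log 4 + R * Real.log 81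
      ≤ 3 * Real.log 3 + (0.889 * lg a) * Real.log 3 + (16 * y) * Real.log 3 := by linarith
    _ = (3 + 0.889 * lg a + 16 * y) * Real.log 3 := by ring
    _ ≤ lg a * Real.log 3 := mul_le_mul_of_nonneg_right e3 (by linarith)

/-- the exponentially small term -/
theorem expo (a : ℝ) (t r : ℕ) (y : ℝ) (ha : 0 < a) (hy6 : 6 ≤ y) (hy : y ^ 4 = lg a)
    (ht : 10 * (t : ℝ) ≤ 7 * lg a) (hr : (r : ℝ) ≤ 2 * y) :
    40 * 9 ^ r * Real.sqrt (Real.sqrt (4 ^ t / a)) ≤ 240 / y ^ 3 := by
  have hL3 := log3_ge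
  have hx : (0 : ℝ) < 4 ^ t / a := by positivity
  have hw : 0 < Real.sqrt (Real.sqrt (4 ^ t / a)) := Real.sqrt_pos.2 (Real.sqrt_pos.2 hx)
  have hlogw : Real.log (Real.sqrt (Real.sqrt (4 ^ t / a))) =
      (t * Real.log 4 - lg a * Real.log 3) / 4 := by
    rw [Real.log_sqrt (Real.sqrt_nonneg _), Real.log_sqrt hx.le,
      Real.log_div (by positivity) ha.ne', Real.log_pow, log_a a]
    ring
  have h9 : Real.log 9 = 2 * Real.log 3 := by
    rw [show (9 : ℝ) = 3 ^ 2 by norm_num, Real.log_pow]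
    push_cast
    ring
  have h4 := log4_le
  have ht0 : (0 : ℝ) ≤ t := Nat.cast_nonneg t
  have e1 : (t : ℝ) * Real.log 4 ≤ (0.889 * lg a) * Real.log 3 := by
    calc (t : ℝ) * Real.log 4 ≤ t * (1.27 * Real.log 3) := mul_le_mul_of_nonneg_left h4 ht0
      _ = (1.27 * t) * Real.log 3 := by ring
      _ ≤ (0.889 * lg a) * Real.log 3 := by
          apply mul_le_mul_of_nonneg_right _ (by linarith)
          linarith
  have e3 : 4 * y - 0.02775 * lg a ≤ - y := by
    rw [← hy]
    have h3 : (216 : ℝ) ≤ y ^ 3 := by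
      have := pow_le_pow_left₀ (by norm_num) hy6 3
      norm_num at this
      exact this
    have h5 : 216 * y ≤ y ^ 4 := by
      calc 216 * y ≤ y ^ 3 * y := mul_le_mul_of_nonneg_right h3 (by linarith)
        _ = y ^ 4 := by ring
    linarith
  have hlog : Real.log (9 ^ r * Real.sqrt (Real.sqrt (4 ^ t / a))) ≤ - y := by
    rw [Real.log_mul (by positivity) hw.ne', Real.log_pow, hlogw, h9]
    have e4 : (r : ℝ) * (2 * Real.log 3) ≤ (4 * y) * Real.log 3 := by
      calc (r : ℝ) * (2 * Real.log 3) = (2 * r) * Real.log 3 := by ring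
        _ ≤ (4 * y) * Real.log 3 := by
            apply mul_le_mul_of_nonneg_right _ (by linarith)
            linarith
    calc (r : ℝ) * (2 * Real.log 3) + (t * Real.log 4 - lg a * Real.log 3) / 4
        ≤ (4 * y) * Real.log 3 + ((0.889 * lg a) * Real.log 3 - lg a * Real.log 3) / 4 := by
          linarith
      _ = (4 * y - 0.02775 * lg a) * Real.log 3 := by ring
      _ ≤ (- y) * Real.log 3 := mul_le_mul_of_nonneg_right e3 (by linarith)
      _ ≤ - y := by nlinarith
  have hle : 9 ^ r * Real.sqrt (Real.sqrt (4 ^ t / a)) ≤ Real.exp (- y) := by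
    rw [← Real.log_le_iff_le_exp (by positivity)]
    exact hlog
  have hfac := Real.pow_div_factorial_le_exp y (by linarith) 3
  have h6 : ((Nat.factorial 3 : ℕ) : ℝ) = 6 := by norm_num [Nat.factorial]
  rw [h6] at hfac
  have hy3 : 0 < y ^ 3 := by positivity
  have hexp : Real.exp (- y) ≤ 6 / y ^ 3 := by
    rw [Real.exp_neg]
    have : (6 : ℝ) / y ^ 3 = (y ^ 3 / 6)⁻¹ := by
      rw [inv_div]
    rw [this]
    exact inv_anti₀ (by positivity) hfac
  calc 40 * 9 ^ r * Real.sqrt (Real.sqrt (4 ^ t / a))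
      = 40 * (9 ^ r * Real.sqrt (Real.sqrt (4 ^ t / a))) := by ring
    _ ≤ 40 * (6 / y ^ 3) := by
        apply mul_le_mul_of_nonneg_left (hle.trans hexp) (by norm_num)
    _ = 240 / y ^ 3 := by ring

/-- the polynomially small term -/
theorem poly (t r : ℕ) (y : ℝ) (hy6 : 6 ≤ y) (ht : y ^ 4 ≤ 20 * (t : ℝ))
    (hr1 : y ≤ 2 * r) (hr2 : (r : ℝ) ≤ 2 * y) :
    (r : ℝ) / t + 1 / (r * Real.sqrt t) + 1 / (r : ℝ) ^ 8 ≤ 305 / y ^ 3 := by
  have hy3 : 0 < y ^ 3 := by positivity
  have hy0 : 0 < y := by linarith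
  have hr0 : (0 : ℝ) < r := by linarith
  have ht0 : (0 : ℝ) < t := by
    have : 0 < y ^ 4 := by positivity
    linarith
  have e1 : (r : ℝ) / t ≤ 40 / y ^ 3 := by
    rw [div_le_div_iff₀ ht0 hy3]
    calc (r : ℝ) * y ^ 3 ≤ (2 * y) * y ^ 3 := mul_le_mul_of_nonneg_right hr2 hy3.le
      _ = 2 * y ^ 4 := by ring
      _ ≤ 40 * t := by linarith
  have hsq : y ^ 2 / 4.5 ≤ Real.sqrt t := by
    apply Real.le_sqrt_of_sq_le
    have : (y ^ 2 / 4.5) ^ 2 = y ^ 4 / 20.25 := by ring
    rw [this]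
    rw [div_le_iff₀ (by norm_num)]
    linarith
  have e2 : 1 / (r * Real.sqrt t) ≤ 9 / y ^ 3 := by
    have h1 : y ^ 3 / 9 ≤ r * Real.sqrt t := by
      calc y ^ 3 / 9 = (y / 2) * (y ^ 2 / 4.5) := by ring
        _ ≤ r * Real.sqrt t := by
            apply mul_le_mul _ hsq (by positivity) hr0.le
            linarith
    calc 1 / (r * Real.sqrt t) ≤ 1 / (y ^ 3 / 9) := one_div_le_one_div_of_le (by positivity) h1
      _ = 9 / y ^ 3 := by rw [one_div_div]
  have e3 : 1 / (r : ℝ) ^ 8 ≤ 256 / y ^ 3 := by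
    have h1 : (y / 2) ^ 8 ≤ (r : ℝ) ^ 8 := by
      apply pow_le_pow_left₀ (by positivity)
      linarith
    have h2 : y ^ 3 ≤ y ^ 8 := pow_le_pow_right₀ (by linarith) (by norm_num)
    calc 1 / (r : ℝ) ^ 8 ≤ 1 / (y / 2) ^ 8 := one_div_le_one_div_of_le (by positivity) h1
      _ = 256 / y ^ 8 := by
          rw [div_pow, one_div_div]
          norm_num
      _ ≤ 256 / y ^ 3 := by
          apply div_le_div_of_nonneg_left (by norm_num) hy3 h2
  have e4 : (305 : ℝ) / y ^ 3 = 40 / y ^ 3 + 9 / y ^ 3 + 256 / y ^ 3 := by ring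
  rw [e4]
  linarith

end Pool.Agent.Clz.PFpaux

namespace Pool.Agent.Clz

open Finset

theorem stmtPFp (hPFcore : StmtPFcore) (hMLpt : StmtMLpt) : StmtPFp := by
  obtain ⟨C1, hC1, hML⟩ := hMLpt
  refine ⟨2745 * C1 + 240, 1296, by positivity, by norm_num, ?_⟩
  intro s t r r' a b ψ K hs hψ ha hu hab hb3 hGood hK
  obtain ⟨hg1, hg2, hg3, hg4⟩ := hGood
  have hu0 : 0 ≤ lg a := by linarith
  have hy := PFpaux.q4_pow (lg a) hu0
  have hyn := PFpaux.q4_nonneg (lg a)
  set y := q4 (lg a) with hydef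
  have hy6 : 6 ≤ y := by
    rw [← pow_le_pow_iff_left₀ (by norm_num) hyn (show (4 : ℕ) ≠ 0 by norm_num), hy]
    norm_num
    linarith
  obtain ⟨hr1, hr2⟩ := PFpaux.adm_bounds (lg a) hu0 r hg3
  have hr' : (r' : ℝ) ≤ 2 * y := by
    rcases hg4 with h | h
    · rw [h]
      push_cast
      linarith
    · exact (PFpaux.adm_bounds (lg a) hu0 r' h).2
  have hsize := PFpaux.size a t (r + r') y ha hy6 hy hg2 (by push_cast; linarith)
  have hcore := hPFcore s t r r' (2 * (t + r + r')) a b ψ K hs hψ ha hab hb3 hsize le_rfl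
  have hexpo := PFpaux.expo a t r y ha hy6 hy hg2 hr2
  have hpoly := PFpaux.poly t r y hy6 (by rw [hy]; linarith) hr1 hr2
  have hy3 : 0 < y ^ 3 := by positivity
  have hrone : 1 ≤ r := by
    have : (0 : ℝ) < r := by linarith
    exact_mod_cast this
  have h2r : 2 * r ≤ t := by
    have h3 : (216 : ℝ) ≤ y ^ 3 := by
      have := pow_le_pow_left₀ (by norm_num) hy6 3
      norm_num at this
      exact this
    have h5 : 216 * y ≤ y ^ 4 := by
      calc 216 * y ≤ y ^ 3 * y := mul_le_mul_of_nonneg_right h3 (by linarith)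
        _ = y ^ 4 := by ring
    have h6 : (2 : ℝ) * r ≤ t := by
      rw [hy] at h5
      linarith
    exact_mod_cast h6
  have hsum : ∑ κ ∈ K, avg (2 * (t + r + r')) (fun z => |Dd t (t + r') κ z - P (2 * t) κ * fr r z|)
      ≤ 3 * (C1 * (305 / y ^ 3)) := by
    calc ∑ κ ∈ K, avg (2 * (t + r + r')) (fun z => |Dd t (t + r') κ z - P (2 * t) κ * fr r z|)
        ≤ ∑ κ ∈ K, C1 * (305 / y ^ 3) := by
          apply Finset.sum_le_sum
          intro κ _
          have h1 := hML t (t + r') κ r (2 * (t + r + r')) hrone h2r (by omega) (by omega)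
          exact h1.trans (mul_le_mul_of_nonneg_left hpoly hC1.le)
      _ = K.card * (C1 * (305 / y ^ 3)) := by rw [Finset.sum_const, nsmul_eq_mul]
      _ ≤ 3 * (C1 * (305 / y ^ 3)) := by
          apply mul_le_mul_of_nonneg_right _ (by positivity)
          exact_mod_cast hK
  have e : (2745 * C1 + 240) / y ^ 3 = 3 * (3 * (C1 * (305 / y ^ 3))) + 240 / y ^ 3 := by ring
  rw [e]
  linarith

end Pool.Agent.Clz
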