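import Pool.Agent.Lib.MP_5a39b1_nt.Clz.Spec3

/-!
MP_5a39b1_nt, module PFtwo: push-forward of a window, two-sided. See the docstring of `StmtPFtwo` in `Spec3.lean` for the proof.
-/

set_option autoImplicit false

namespace Pool.Agent.Clz

open Finset

namespace PFtwoaux

theorem mass_split (s : ℤ) (f ψ : ℤ → ℝ) (a b : ℝ) :
    mass s (fun M => f M * ψ M) a b + mass s (fun M => f M * (1 - ψ M)) a b = mass s f a b := by
  rw [← mass_fadd]
  refine mass_congr fun N _ => ?_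
  ring

theorem nine_pow (n : ℕ) : (3 : ℝ) ^ (2 * n) = 9 ^ n := by
  rw [pow_mul]; norm_num

end PFtwoaux

open PFtwoaux in
theorem stmtPFtwo (hBinBasic : StmtBinBasic) (hKerAvg : StmtKerAvg) (hMassPer : StmtMassPer) (hPFcore : StmtPFcore) : StmtPFtwo := by
  intro s t r r' N a b ψ hs hψ ha hab hb3 hbig hN
  obtain ⟨hP0, -, -, -, hP1, -⟩ := hBinBasic
  obtain ⟨-, hAvg, -⟩ := hKerAvg
  obtain ⟨hMP, -⟩ := hMassPer
  -- abbreviations
  set K := range (2 * t + 1) with hK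
  set E := 3 * ∑ κ ∈ K, avg N (fun z => |Dd t (t + r') κ z - P (2 * t) κ * fr r z|) with hE
  set q : ℝ := 4 ^ t / a with hq
  set Q : ℝ := Real.sqrt (Real.sqrt q) with hQ
  have h4t : (1 : ℝ) ≤ 4 ^ t := one_le_pow₀ (by norm_num)
  have h81 : (1 : ℝ) ≤ 81 ^ (r + r') := one_le_pow₀ (by norm_num)
  have hq0 : 0 < q := by positivity
  have hq1 : q ≤ 1 := by
    rw [hq, div_le_one ha]
    nlinarith
  have hsq : q ≤ Real.sqrt q := by
    apply Real.le_sqrt_of_sq_le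
    nlinarith
  have hsq1 : Real.sqrt q ≤ 1 := by
    exact Real.sqrt_le_iff.2 ⟨by norm_num, by linarith⟩
  have hsqQ : Real.sqrt q ≤ Q := by
    apply Real.le_sqrt_of_sq_le
    nlinarith [Real.sqrt_nonneg q]
  have hQ0 : 0 ≤ Q := Real.sqrt_nonneg _
  -- the two applications of PFcore
  have h1 := hPFcore s t r r' N a b ψ K hs hψ ha hab hb3 hbig hN
  have h2 := hPFcore s t r r' N a b (fun z => 1 - ψ z) K hs
    (fun z => ⟨by linarith [(hψ z).2], by linarith [(hψ z).1]⟩) ha hab hb3 hbig hN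
  -- total masses
  have hlog : 0 ≤ Real.log (b / a) := Real.log_nonneg (by rw [le_div_iff₀ ha]; linarith)
  have hX : mass s (fr r') a b ≤ Real.log (b / a) + 9 ^ r' / a := by
    have h := hMP s (2 * r') (fr r') a b hs (fr_nonneg r') (fr_periodic r' (2 * r') le_rfl) ha hab
    rw [hAvg (2 * r') r' le_rfl, one_mul, one_mul, nine_pow] at h
    linarith [(abs_le.1 h).2]
  have hYk : ∀ κ : ℕ, Real.log (b / a) - 9 ^ r * q ≤ mass s (fr r) (a * 3 ^ κ / 4 ^ t) (b * 3 ^ κ / 4 ^ t) := by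
    intro κ
    have h3 : (1 : ℝ) ≤ 3 ^ κ := one_le_pow₀ (by norm_num)
    have hak : 0 < a * 3 ^ κ / 4 ^ t := by positivity
    have hakb : a * 3 ^ κ / 4 ^ t ≤ b * 3 ^ κ / 4 ^ t := by
      have : a * 3 ^ κ ≤ b * 3 ^ κ := by nlinarith
      exact div_le_div_of_nonneg_right this (by positivity)
    have h := hMP s (2 * r) (fr r) _ _ hs (fr_nonneg r) (fr_periodic r (2 * r) le_rfl) hak hakb
    rw [hAvg (2 * r) r le_rfl, one_mul, one_mul, nine_pow] at h
    have hba : (b * 3 ^ κ / 4 ^ t) / (a * 3 ^ κ / 4 ^ t) = b / a := by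
      field_simp
    rw [hba] at h
    have herr : (9 : ℝ) ^ r / (a * 3 ^ κ / 4 ^ t) ≤ 9 ^ r * q := by
      have e1 : (9 : ℝ) ^ r / (a * 3 ^ κ / 4 ^ t) = 9 ^ r * q / 3 ^ κ := by
        rw [hq]; field_simp
      rw [e1]
      exact div_le_self (by positivity) h3
    linarith [(abs_le.1 h).1]
  have hPsum : ∑ κ ∈ K, P (2 * t) (κ : ℤ) = 1 := by
    rw [hK]; exact_mod_cast hP1 (2 * t)
  have hY : Real.log (b / a) - 9 ^ r * q
      ≤ ∑ κ ∈ K, P (2 * t) κ * mass s (fr r) (a * 3 ^ κ / 4 ^ t) (b * 3 ^ κ / 4 ^ t) := by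
    calc Real.log (b / a) - 9 ^ r * q = ∑ κ ∈ K, P (2 * t) (κ : ℤ) * (Real.log (b / a) - 9 ^ r * q) := by
          rw [← Finset.sum_mul, hPsum, one_mul]
      _ ≤ _ := Finset.sum_le_sum fun κ _ => mul_le_mul_of_nonneg_left (hYk κ) (hP0 _ _)
  -- splitting
  have hXs : mass s (fun M => fr r' M * ψ (T^[2 * t] M)) a b
      + mass s (fun M => fr r' M * (1 - ψ (T^[2 * t] M))) a b = mass s (fr r') a b :=
    mass_split s (fr r') (fun M => ψ (T^[2 * t] M)) a b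
  have hYs : ∑ κ ∈ K, P (2 * t) κ * mass s (fun M => fr r M * ψ M) (a * 3 ^ κ / 4 ^ t) (b * 3 ^ κ / 4 ^ t)
      + ∑ κ ∈ K, P (2 * t) κ * mass s (fun M => fr r M * (1 - ψ M)) (a * 3 ^ κ / 4 ^ t) (b * 3 ^ κ / 4 ^ t)
      = ∑ κ ∈ K, P (2 * t) κ * mass s (fr r) (a * 3 ^ κ / 4 ^ t) (b * 3 ^ κ / 4 ^ t) := by
    rw [← Finset.sum_add_distrib]
    refine Finset.sum_congr rfl fun κ _ => ?_
    rw [← mul_add, mass_split]
  -- small terms
  have hr'a : (9 : ℝ) ^ r' / a ≤ 9 ^ r * Q := by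
    have e1 : (9 : ℝ) ^ r' / a ≤ Real.sqrt q := by
      apply Real.le_sqrt_of_sq_le
      have e2 : ((9 : ℝ) ^ r') ^ 2 = 81 ^ r' := by
        rw [← pow_mul, mul_comm, pow_mul]; norm_num
      rw [div_pow, e2, hq, div_le_div_iff₀ (by positivity) ha]
      have e3 : (81 : ℝ) ^ r' ≤ a := by
        have : (81 : ℝ) ^ r' ≤ 81 ^ (r + r') := pow_le_pow_right₀ (by norm_num) (by omega)
        nlinarith
      have e4 : (81 : ℝ) ^ r' * a ≤ a * a := by nlinarith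
      nlinarith
    have e5 : (1 : ℝ) ≤ 9 ^ r := one_le_pow₀ (by norm_num)
    nlinarith
  have hrq : (9 : ℝ) ^ r * q ≤ 9 ^ r * Q := by
    have : (0 : ℝ) < 9 ^ r := by positivity
    nlinarith
  have h9Q : 0 ≤ (9 : ℝ) ^ r * Q := by positivity
  rw [abs_le]
  constructor
  · nlinarith
  · nlinarith

end Pool.Agent.Clz
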