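import Pool.Agent.Lib.MP_5a39b1_nt.Clz.Spec3

/-!
MP_5a39b1_nt, module Rel1: weights 1 and fr r give the same mass. See the docstring of `StmtRel1` in `Spec3.lean` for the proof.
-/

set_option autoImplicit false

namespace Pool.Agent.Clz

open Finset

namespace Rel1aux

theorem fr_zero (z : ℤ) : fr 0 z = 1 := by
  unfold fr
  rw [Ew_zero]
  unfold kerF
  simp

/-- the size condition -/
theorem size {a A0 : ℝ} {t : ℕ} (ha : 0 < a) (hA0 : 1 ≤ A0) (h40 : 40 * lg A0 ≤ lg a)
    (ht : (t : ℝ) < lg a / 20 + 1) (hu : 3 ≤ lg a) : A0 * 4 ^ t < a := by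
  have hL : 0 < Real.log 3 := Real.log_pos (by norm_num)
  have hA : Real.log A0 = lg A0 * Real.log 3 := by
    unfold lg
    field_simp
  have hlga : Real.log a = lg a * Real.log 3 := by
    unfold lg
    field_simp
  have h4 : Real.log 4 ≤ 2 * Real.log 3 := by
    have : (2 : ℝ) * Real.log 3 = Real.log (3 ^ 2) := by
      rw [Real.log_pow]; norm_num
    rw [this]
    apply Real.log_le_log <;> norm_num
  have h4' : 0 ≤ Real.log 4 := Real.log_nonneg (by norm_num)
  have hA0' : 0 < A0 := by linarith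
  have hlt : Real.log (A0 * 4 ^ t) < Real.log a := by
    rw [Real.log_mul (ne_of_gt hA0') (by positivity), Real.log_pow, hA, hlga]
    have h5 : (t : ℝ) * Real.log 4 ≤ (lg a / 20 + 1) * (2 * Real.log 3) := by
      apply mul_le_mul ht.le h4 h4'
      linarith
    have h6 : lg A0 * Real.log 3 ≤ (lg a / 40) * Real.log 3 := by
      apply mul_le_mul_of_nonneg_right _ hL.le
      linarith
    have h7 : (lg a / 40) * Real.log 3 + (lg a / 20 + 1) * (2 * Real.log 3) < lg a * Real.log 3 := by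
      have : (lg a / 40) + (lg a / 20 + 1) * 2 < lg a := by linarith
      calc (lg a / 40) * Real.log 3 + (lg a / 20 + 1) * (2 * Real.log 3)
          = ((lg a / 40) + (lg a / 20 + 1) * 2) * Real.log 3 := by ring
        _ < lg a * Real.log 3 := mul_lt_mul_of_pos_right this hL
    linarith
  exact (Real.log_lt_log_iff (by positivity) ha).1 hlt

end Rel1aux

open Rel1aux in
theorem stmtRel1 (hInvIter : StmtInvIter) (hPFa : StmtPFa) (hGrowth : StmtGrowth) : StmtRel1 := by
  obtain ⟨C, u₀, hC, hu₀, hPF⟩ := hPFa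
  refine ⟨2 * C, max u₀ 3, by positivity, le_max_of_le_left hu₀, ?_⟩
  intro S A0 s r a b hs hInv hA0 h40 ha hua hab hb3 hadm
  have hu1 : u₀ ≤ lg a := (le_max_left _ _).trans hua
  have hu3 : (3 : ℝ) ≤ lg a := (le_max_right _ _).trans hua
  have hlg0 : 0 ≤ lg a / 20 := by linarith
  set t := ⌈lg a / 20⌉₊ with ht
  have ht1 : lg a / 20 ≤ (t : ℝ) := Nat.le_ceil _
  have ht2 : (t : ℝ) < lg a / 20 + 1 := Nat.ceil_lt_add_one hlg0
  have hψ : ∀ z, 0 ≤ ind S z ∧ ind S z ≤ 1 := fun z => ⟨ind_nonneg S z, ind_le_one S z⟩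
  have hsize := size ha hA0 h40 ht2 hu3
  have hg1 : lg a ≤ 20 * t := by linarith
  have hg2 : 10 * (t : ℝ) ≤ 7 * lg a := by linarith
  have h0 := hPF s t r 0 a b (ind S) hs hψ ha hu1 hab hb3 ⟨hg1, hg2, hadm, Or.inl rfl⟩
  have h1 := hPF s t r r a b (ind S) hs hψ ha hu1 hab hb3 ⟨hg1, hg2, hadm, Or.inr hadm⟩
  have hinv : ∀ N ∈ W s a b, ind S (T^[2 * t] N) = ind S N := by
    intro N hN
    have hN1 : a ≤ |(N : ℝ)| := (mem_W' hs ha hN).1
    have := hInvIter.1 S A0 t N hInv (lt_of_lt_of_le hsize hN1)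
    unfold ind
    by_cases hNS : N ∈ S
    · rw [if_pos hNS, if_pos (this.2 hNS)]
    · rw [if_neg hNS, if_neg (fun h => hNS (this.1 h))]
  have e0 : mass s (fun M => fr 0 M * ind S (T^[2 * t] M)) a b = mass s (ind S) a b := by
    apply mass_congr
    intro N hN
    simp only [fr_zero, one_mul]
    exact hinv N hN
  have e1 : mass s (fun M => fr r M * ind S (T^[2 * t] M)) a b
      = mass s (fun M => fr r M * ind S M) a b := by
    apply mass_congr
    intro N hN
    rw [hinv N hN]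
  rw [e0] at h0
  rw [e1] at h1
  have h2 : |mass s (ind S) a b - mass s (fun M => fr r M * ind S M) a b|
      ≤ C / q4 (lg a) + C / q4 (lg a) := by
    rw [abs_le] at h0 h1 ⊢
    constructor <;> linarith [h0.1, h0.2, h1.1, h1.2]
  refine h2.trans (le_of_eq ?_)
  ring

end Pool.Agent.Clz
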