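import Pool.Agent.Lib.MP_5a39b1_nt.Clz.Spec3

/-!
MP_5a39b1_nt, module Rel2: renewal relation. See the docstring of `StmtRel2` in `Spec3.lean` for the proof.
-/

set_option autoImplicit false

namespace Pool.Agent.Clz

open Finset

namespace Rel2aux

theorem log3_pos : 0 < Real.log 3 := Real.log_pos (by norm_num)

theorem log4_le : Real.log 4 ≤ 13 / 10 * Real.log 3 := by
  have h : Real.log ((4 : ℝ) ^ 10) ≤ Real.log ((3 : ℝ) ^ 13) :=
    Real.log_le_log (by norm_num) (by norm_num)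
  rw [Real.log_pow, Real.log_pow] at h
  push_cast at h
  linarith

theorem log3_le_log4 : Real.log 3 ≤ Real.log 4 := Real.log_le_log (by norm_num) (by norm_num)

theorem log_eq (a : ℝ) : Real.log a = lg a * Real.log 3 := by
  unfold lg
  have := log3_pos.ne'
  field_simp

theorem lg_kappa {a : ℝ} (ha : 0 < a) (t κ : ℕ) :
    lg (a * 3 ^ κ / 4 ^ t) * Real.log 3 = (lg a + κ) * Real.log 3 - t * Real.log 4 := by
  rw [← log_eq, Real.log_div (by positivity) (by positivity), Real.log_mul (by positivity)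
    (by positivity), Real.log_pow, Real.log_pow, log_eq a]
  ring

theorem fr_zero (M : ℤ) : fr 0 M = 1 := by
  unfold fr
  rw [Ew_zero]
  unfold kerF
  simp

theorem q4_pos {u : ℝ} (h : 1 ≤ u) : 0 < q4 u := by
  unfold q4
  apply Real.sqrt_pos.2
  apply Real.sqrt_pos.2
  linarith

theorem q4_half {u v : ℝ} (h : 1 ≤ u) (hv : u / 2 ≤ v) : 1 / q4 v ≤ 2 / q4 u := by
  have h1 : q4 u / 2 ≤ q4 v := by
    unfold q4
    have e : Real.sqrt (Real.sqrt u) / 2 = Real.sqrt (Real.sqrt (u / 16)) := by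
      have e1 : Real.sqrt (u / 16) = Real.sqrt u / 4 := by
        rw [Real.sqrt_div' _ (by norm_num)]
        congr 1
        rw [show (16 : ℝ) = 4 ^ 2 by norm_num]
        exact Real.sqrt_sq (by norm_num)
      rw [e1, Real.sqrt_div' _ (by norm_num)]
      congr 1
      rw [show (4 : ℝ) = 2 ^ 2 by norm_num]
      exact (Real.sqrt_sq (by norm_num)).symm
    rw [e]
    apply Real.sqrt_le_sqrt
    apply Real.sqrt_le_sqrt
    linarith
  have hp := q4_pos h
  have h2 : 1 / q4 v ≤ 1 / (q4 u / 2) := one_div_le_one_div_of_le (by linarith) h1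
  refine h2.trans (le_of_eq ?_)
  field_simp

theorem q4_le {u : ℝ} (h : 1 ≤ u) : q4 u ≤ u := by
  unfold q4
  have h1 : Real.sqrt u ≤ u := by
    rw [Real.sqrt_le_left (by linarith)]
    nlinarith
  have h0 : 1 ≤ Real.sqrt u := by
    rw [Real.one_le_sqrt]
    exact h
  have h2 : Real.sqrt (Real.sqrt u) ≤ Real.sqrt u := by
    rw [Real.sqrt_le_left (by linarith)]
    nlinarith
  linarith

theorem r_le {u : ℝ} {r : ℕ} (hu : 100 ≤ u) (h : (r : ℝ) ^ 4 ≤ 16 * u) : 2 * (r : ℝ) ≤ 35 / 100 * u := by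
  by_contra hcon
  push Not at hcon
  have h1 : 175 / 1000 * u < r := by linarith
  have h2 : (175 / 1000 * u) ^ 4 < (r : ℝ) ^ 4 := pow_lt_pow_left₀ h1 (by positivity) (by norm_num)
  have h3 : (175 / 1000 * u) ^ 4 = (175 / 1000) ^ 4 * (u ^ 3 * u) := by ring
  have h4 : (100 : ℝ) ^ 3 ≤ u ^ 3 := pow_le_pow_left₀ (by norm_num) hu 3
  have h5 : (100 : ℝ) ^ 3 * u ≤ u ^ 3 * u := mul_le_mul_of_nonneg_right h4 (by linarith)
  rw [h3] at h2
  norm_num at h2 h5
  linarith

theorem mass_ind_le (hMassPer : StmtMassPer) (S : Set ℤ) {s : ℤ} (hs : s = 1 ∨ s = -1) {a b : ℝ}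
    (ha : 1 ≤ a) (hb : b ≤ 3 * a) : mass s (ind S) a b ≤ 3 := by
  have h1 := hMassPer.2 s 0 (fun _ => 1) a b hs (fun _ => zero_le_one) (fun _ => rfl)
    (by simpa using ha) hb
  rw [avg_const, mul_one] at h1
  exact (mass_mono fun N _ => ind_le_one S N).trans h1

theorem mass_fr_le (hKerAvg : StmtKerAvg) (hMassPer : StmtMassPer) (S : Set ℤ) {s : ℤ} (r : ℕ)
    (hs : s = 1 ∨ s = -1) {a b : ℝ} (ha : (3 : ℝ) ^ (2 * r) ≤ a) (hb : b ≤ 3 * a) :
    mass s (fun M => fr r M * ind S M) a b ≤ 3 := by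
  have h1 := hMassPer.2 s (2 * r) (fr r) a b hs (fr_nonneg r) (fr_periodic r (2 * r) le_rfl) ha hb
  rw [hKerAvg.2.1 (2 * r) r le_rfl, mul_one] at h1
  refine le_trans (mass_mono fun N _ => ?_) h1
  have h2 := fr_nonneg r N
  have h3 := ind_le_one S N
  nlinarith

end Rel2aux

open Rel2aux in
theorem stmtRel2 (hBinBasic : StmtBinBasic) (hBinShift : StmtBinShift) (hInvIter : StmtInvIter) (hKerAvg : StmtKerAvg) (hMassPer : StmtMassPer) (hPFa : StmtPFa) (hAdmEx : StmtAdmEx) (hRel1 : StmtRel1) : StmtRel2 := by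
  obtain ⟨C1, u1, hC1, hu1, hPF⟩ := hPFa
  obtain ⟨u2, hu2, hAdm⟩ := hAdmEx
  obtain ⟨C3, u3, hC3, hu3, hR1⟩ := hRel1
  have hnn := hBinBasic.1
  have hmass := hBinBasic.2.2.2.2.1
  have hcheb := hBinShift.2.2.2.2
  have hl3 := log3_pos
  have hl4 := log4_le
  have hl34 := log3_le_log4
  refine ⟨C1 + 2 * C3 + 9, max u1 (max u2 (max (2 * u3) 100)), by positivity,
    le_max_of_le_left hu1, ?_⟩
  intro S A0 s t a b hs hInv hA0 hA0' ha hu hab hb ht1 ht2
  have k1 : u1 ≤ lg a := (le_max_left _ _).trans hu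
  have k2 : u2 ≤ lg a := ((le_max_left _ _).trans (le_max_right _ _)).trans hu
  have k3 : 2 * u3 ≤ lg a :=
    ((le_max_left _ _).trans ((le_max_right _ _).trans (le_max_right _ _))).trans hu
  have k4 : 100 ≤ lg a :=
    ((le_max_right _ _).trans ((le_max_right _ _).trans (le_max_right _ _))).trans hu
  obtain ⟨r, hr1, hr⟩ := hAdm (lg a) k2
  set u := lg a with hudef
  have hAdmu : Adm u r := hr u (by linarith) (by linarith)
  have hq : 0 < q4 u := q4_pos (by linarith)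
  have hr35 := r_le k4 hAdmu.2
  -- the first relation
  have hA04 : A0 * 4 ^ t < a := by
    have hA0pos : 0 < A0 := by linarith
    rw [← Real.log_lt_log_iff (by positivity) ha, Real.log_mul hA0pos.ne' (by positivity),
      Real.log_pow, log_eq A0, log_eq a, ← hudef]
    have h1 : lg A0 * Real.log 3 ≤ u / 80 * Real.log 3 :=
      mul_le_mul_of_nonneg_right (by linarith) hl3.le
    have h2 : (t : ℝ) * Real.log 4 ≤ u / 2 * (13 / 10 * Real.log 3) :=
      mul_le_mul (by linarith) hl4 (Real.log_nonneg (by norm_num)) (by linarith)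
    have h3 : 0 < u * Real.log 3 := by
      apply mul_pos _ hl3
      linarith
    nlinarith
  have hPF1 := hPF s t r 0 a b (ind S) hs (fun z => ⟨ind_nonneg S z, ind_le_one S z⟩) ha k1 hab hb
    ⟨ht1, by linarith, hAdmu, Or.inl rfl⟩
  have hM1 : mass s (fun M => fr 0 M * ind S (T^[2 * t] M)) a b = mass s (ind S) a b := by
    apply mass_congr
    intro M hM
    rw [fr_zero, one_mul]
    have h1 := (mem_W' hs ha hM).1
    have h2 := hInvIter.1 S A0 t M hInv (lt_of_lt_of_le hA04 h1)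
    unfold ind
    by_cases hN : M ∈ S
    · rw [if_pos hN, if_pos (h2.2 hN)]
    · rw [if_neg hN, if_neg (fun h => hN (h2.1 h))]
  rw [hM1] at hPF1
  -- the windows
  have hkey : ∀ κ ∈ range (2 * t + 1), |mass s (ind S) (a * 3 ^ κ / 4 ^ t) (b * 3 ^ κ / 4 ^ t) -
      mass s (fun M => fr r M * ind S M) (a * 3 ^ κ / 4 ^ t) (b * 3 ^ κ / 4 ^ t)| ≤
      2 * C3 / q4 u + (if 7 / 10 * u ≤ |2 * (κ : ℝ) - ((2 * t : ℕ) : ℝ)| then 3 else 0) := by
    intro κ hκ
    have hκ2 : (κ : ℝ) ≤ 2 * t := by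
      have := Finset.mem_range.1 hκ
      have h2 : κ ≤ 2 * t := by omega
      exact_mod_cast h2
    have hakpos : 0 < a * 3 ^ κ / 4 ^ t := by positivity
    have hlg := lg_kappa ha t κ
    rw [← hudef] at hlg
    have hκ0 : (0 : ℝ) ≤ κ := by positivity
    have ht0 : (0 : ℝ) ≤ t := by positivity
    have htl : (t : ℝ) * Real.log 4 ≤ t * (13 / 10 * Real.log 3) :=
      mul_le_mul_of_nonneg_left hl4 ht0
    have htl' : (t : ℝ) * Real.log 3 ≤ t * Real.log 4 := mul_le_mul_of_nonneg_left hl34 ht0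
    have hlow : 35 / 100 * u ≤ lg (a * 3 ^ κ / 4 ^ t) := by
      have h1 : 35 / 100 * u * Real.log 3 ≤ lg (a * 3 ^ κ / 4 ^ t) * Real.log 3 := by
        rw [hlg]
        have h2 : (t : ℝ) * (13 / 10 * Real.log 3) ≤ u / 2 * (13 / 10 * Real.log 3) :=
          mul_le_mul_of_nonneg_right (by linarith) (by positivity)
        have h3 : 0 ≤ (κ : ℝ) * Real.log 3 := by positivity
        nlinarith
      exact le_of_mul_le_mul_right h1 hl3
    have hab' : a * 3 ^ κ / 4 ^ t ≤ b * 3 ^ κ / 4 ^ t := by gcongr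
    have hb' : b * 3 ^ κ / 4 ^ t ≤ 3 * (a * 3 ^ κ / 4 ^ t) := by
      have : 3 * (a * 3 ^ κ / 4 ^ t) = (3 * a) * 3 ^ κ / 4 ^ t := by ring
      rw [this]
      gcongr
    by_cases hg : u / 2 ≤ lg (a * 3 ^ κ / 4 ^ t)
    · have hup : lg (a * 3 ^ κ / 4 ^ t) ≤ 2 * u := by
        have h1 : lg (a * 3 ^ κ / 4 ^ t) * Real.log 3 ≤ 2 * u * Real.log 3 := by
          rw [hlg]
          have h2 : (κ : ℝ) * Real.log 3 ≤ 2 * t * Real.log 3 :=
            mul_le_mul_of_nonneg_right hκ2 hl3.le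
          have h3 : (t : ℝ) * Real.log 3 ≤ u * Real.log 3 :=
            mul_le_mul_of_nonneg_right (by linarith) hl3.le
          nlinarith
        exact le_of_mul_le_mul_right h1 hl3
      have h1 := hR1 S A0 s r (a * 3 ^ κ / 4 ^ t) (b * 3 ^ κ / 4 ^ t) hs hInv hA0 (by linarith)
        hakpos (by linarith) hab' hb' (hr _ (by linarith) hup)
      refine h1.trans ?_
      have h2 := q4_half (u := u) (by linarith) hg
      have h3 : C3 / q4 (lg (a * 3 ^ κ / 4 ^ t)) ≤ 2 * C3 / q4 u := by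
        have h4 := mul_le_mul_of_nonneg_left h2 hC3.le
        calc C3 / q4 (lg (a * 3 ^ κ / 4 ^ t)) = C3 * (1 / q4 (lg (a * 3 ^ κ / 4 ^ t))) := by ring
          _ ≤ C3 * (2 / q4 u) := h4
          _ = 2 * C3 / q4 u := by ring
      refine h3.trans ?_
      have h5 : (0 : ℝ) ≤ (if 7 / 10 * u ≤ |2 * (κ : ℝ) - ((2 * t : ℕ) : ℝ)| then 3 else 0) := by
        split_ifs <;> norm_num
      linarith
    · push Not at hg
      have hbad : 7 / 10 * u ≤ |2 * (κ : ℝ) - ((2 * t : ℕ) : ℝ)| := by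
        have h1 : lg (a * 3 ^ κ / 4 ^ t) * Real.log 3 < u / 2 * Real.log 3 :=
          mul_lt_mul_of_pos_right hg hl3
        rw [hlg] at h1
        have h2 : ((κ : ℝ) + 35 / 100 * u) * Real.log 3 ≤ t * Real.log 3 := by
          have h3 : (t : ℝ) * (3 / 10 * Real.log 3) ≤ u / 2 * (3 / 10 * Real.log 3) :=
            mul_le_mul_of_nonneg_right (by linarith) (by positivity)
          nlinarith
        have h3 := le_of_mul_le_mul_right h2 hl3
        rw [abs_of_nonpos]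
        · push_cast
          linarith
        · push_cast
          linarith
      rw [if_pos hbad]
      have h9 : (3 : ℝ) ^ (2 * r) ≤ a * 3 ^ κ / 4 ^ t := by
        rw [← Real.log_le_log_iff (by positivity) hakpos, Real.log_pow, log_eq (a * 3 ^ κ / 4 ^ t)]
        apply mul_le_mul_of_nonneg_right _ hl3.le
        push_cast
        linarith
      have h1' : (1 : ℝ) ≤ a * 3 ^ κ / 4 ^ t := le_trans (one_le_pow₀ (by norm_num)) h9
      have m1 := mass_ind_le hMassPer S hs h1' hb'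
      have m2 := mass_fr_le hKerAvg hMassPer S r hs h9 hb'
      have m3 : 0 ≤ mass s (ind S) (a * 3 ^ κ / 4 ^ t) (b * 3 ^ κ / 4 ^ t) :=
        mass_nonneg fun N => ind_nonneg S N
      have m4 : 0 ≤ mass s (fun M => fr r M * ind S M) (a * 3 ^ κ / 4 ^ t) (b * 3 ^ κ / 4 ^ t) :=
        mass_nonneg fun N => mul_nonneg (fr_nonneg r N) (ind_nonneg S N)
      have m5 : 0 ≤ 2 * C3 / q4 u := by positivity
      rw [abs_le]
      constructor <;> linarith
  have hsum : |∑ κ ∈ range (2 * t + 1), P (2 * t) κ *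
        mass s (fun M => fr r M * ind S M) (a * 3 ^ κ / 4 ^ t) (b * 3 ^ κ / 4 ^ t) -
      ∑ κ ∈ range (2 * t + 1), P (2 * t) κ *
        mass s (ind S) (a * 3 ^ κ / 4 ^ t) (b * 3 ^ κ / 4 ^ t)| ≤ 2 * C3 / q4 u + 9 / q4 u := by
    rw [← Finset.sum_sub_distrib]
    refine (Finset.abs_sum_le_sum_abs _ _).trans ?_
    have h1 : ∀ κ ∈ range (2 * t + 1), |P (2 * t) κ *
        mass s (fun M => fr r M * ind S M) (a * 3 ^ κ / 4 ^ t) (b * 3 ^ κ / 4 ^ t) -
        P (2 * t) κ * mass s (ind S) (a * 3 ^ κ / 4 ^ t) (b * 3 ^ κ / 4 ^ t)| ≤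
        P (2 * t) κ * (2 * C3 / q4 u) +
          3 * (if 7 / 10 * u ≤ |2 * (κ : ℝ) - ((2 * t : ℕ) : ℝ)| then P (2 * t) κ else 0) := by
      intro κ hκ
      rw [← mul_sub, abs_mul, abs_of_nonneg (hnn _ _), abs_sub_comm]
      have h2 := mul_le_mul_of_nonneg_left (hkey κ hκ) (hnn (2 * t) κ)
      refine h2.trans (le_of_eq ?_)
      split_ifs <;> ring
    refine (Finset.sum_le_sum h1).trans ?_
    rw [Finset.sum_add_distrib, ← Finset.sum_mul, ← Finset.mul_sum, hmass (2 * t), one_mul,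
      ← Finset.sum_filter]
    have h3 := hcheb (2 * t) (7 / 10 * u) (by linarith)
    have h4 : (((2 * t : ℕ) : ℝ)) / (7 / 10 * u) ^ 2 ≤ 3 / u := by
      rw [div_le_div_iff₀ (by positivity) (by linarith)]
      push_cast
      have h5 : 2 * (t : ℝ) * u ≤ u * u := mul_le_mul_of_nonneg_right ht2 (by linarith)
      nlinarith
    have h5 : 3 / u ≤ 3 / q4 u :=
      div_le_div_of_nonneg_left (by norm_num) hq (q4_le (by linarith))
    have h6 : 9 / q4 u = 3 * (3 / q4 u) := by ring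
    rw [h6]
    have h7 := (h3.trans h4).trans h5
    linarith
  have htri := abs_sub_le (mass s (ind S) a b)
    (∑ κ ∈ range (2 * t + 1), P (2 * t) κ *
      mass s (fun M => fr r M * ind S M) (a * 3 ^ κ / 4 ^ t) (b * 3 ^ κ / 4 ^ t))
    (∑ κ ∈ range (2 * t + 1), P (2 * t) κ *
      mass s (ind S) (a * 3 ^ κ / 4 ^ t) (b * 3 ^ κ / 4 ^ t))
  have hfin : (C1 + 2 * C3 + 9) / q4 u = C1 / q4 u + (2 * C3 / q4 u + 9 / q4 u) := by ring
  rw [hfin]
  exact htri.trans (add_le_add hPF1 hsum)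

end Pool.Agent.Clz
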