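import Pool.Agent.Lib.MP_5a39b1_nt.Clz.Spec4

/-!
MP_5a39b1_nt, module Return: returns to a window are rare. See the docstring of `StmtReturn` in `Spec4.lean` for the proof.
-/

set_option autoImplicit false

namespace Pool.Agent.Clz

open Finset

namespace Returnaux

/-- the number of threes is large -/
def cnd (j : ℕ) (g : List (Fin 4)) : Prop := 5 * 4 ^ j ≤ 16 * 3 ^ kap g

theorem fr_add_mul (r : ℕ) (z : ℤ) (k : ℕ) : fr r (z + (k : ℤ) * 3 ^ (2 * r)) = fr r z := by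
  induction k with
  | zero => simp
  | succ k ih =>
    rw [← ih, ← fr_periodic r (2 * r) le_rfl (z + (k : ℤ) * 3 ^ (2 * r))]
    congr 1
    push_cast
    ring

open Classical in
/-- the density at the end point -/
noncomputable def pp (j r : ℕ) (z : ℤ) : ℝ :=
  Ew j (fun g => if cnd j g then kerF g z * fr r (Nz g z) else 0)

theorem Nz_eq {g : List (Fin 4)} {M : ℤ} (h : valid g M) :
    3 ^ kap g * Nz g M = 4 ^ g.length * M - FF g := by
  unfold Nz
  exact Int.mul_ediv_cancel' h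

theorem kerF_of_valid {g : List (Fin 4)} {M : ℤ} (h : valid g M) : kerF g M = 3 ^ kap g := by
  unfold kerF
  exact if_pos h

theorem kerF_of_not_valid {g : List (Fin 4)} {M : ℤ} (h : ¬ valid g M) : kerF g M = 0 := by
  unfold kerF
  exact if_neg h

theorem term_periodic (r : ℕ) (g : List (Fin 4)) (N : ℕ) (h : kap g + 2 * r ≤ N) (z : ℤ) :
    kerF g (z + 3 ^ N) * fr r (Nz g (z + 3 ^ N)) = kerF g z * fr r (Nz g z) := by
  rw [kerF_periodic g N (by omega)]
  by_cases hv : valid g z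
  · congr 1
    have hv' : valid g (z + 3 ^ N) := by
      unfold valid at hv ⊢
      have e : 4 ^ g.length * (z + 3 ^ N) - FF g =
          (4 ^ g.length * z - FF g) + 4 ^ g.length * 3 ^ N := by ring
      rw [e]
      exact dvd_add hv (Dvd.dvd.mul_left (pow_dvd_pow 3 (by omega)) _)
    obtain ⟨d, hd⟩ := Nat.exists_eq_add_of_le h
    have e2 : Nz g (z + 3 ^ N) = Nz g z + ((4 ^ g.length * 3 ^ d : ℕ) : ℤ) * 3 ^ (2 * r) := by
      have h3 : (3 : ℤ) ^ kap g ≠ 0 := by positivity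
      apply mul_left_cancel₀ h3
      have e3 := Nz_eq hv
      have e4 := Nz_eq hv'
      rw [hd] at e4 ⊢
      push_cast
      linear_combination e4 - e3
    rw [e2, fr_add_mul]
  · rw [kerF_of_not_valid hv]
    simp

theorem pp_periodic (j r : ℕ) (z : ℤ) : pp j r (z + 3 ^ (2 * j + 2 * r)) = pp j r z := by
  unfold pp
  refine Ew_congr fun g hg => ?_
  have h1 := kap_le g
  rw [term_periodic r g (2 * j + 2 * r) (by omega) z]

theorem pp_nonneg (j r : ℕ) (z : ℤ) : 0 ≤ pp j r z := by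
  unfold pp
  refine Ew_nonneg fun g _ => ?_
  split_ifs
  · exact mul_nonneg (kerF_nonneg g z) (fr_nonneg r _)
  · exact le_rfl

open Classical in
theorem avg_pp (hKerAvg : StmtKerAvg) (j r : ℕ) :
    avg (2 * j + 2 * r) (pp j r) = Ew j (fun g => if cnd j g then (1 : ℝ) else 0) := by
  have h0 : avg (2 * j + 2 * r) (pp j r) = avg (2 * j + 2 * r) (fun z => Ew j
      (fun g => if cnd j g then kerF g z * fr r (Nz g z) else 0)) := rfl
  rw [h0, avg_Ew (2 * j + 2 * r) j (fun g z => if cnd j g then kerF g z * fr r (Nz g z) else 0)]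
  refine Ew_congr fun g hg => ?_
  by_cases hc : cnd j g
  · simp only [if_pos hc]
    have h1 := kap_le g
    rw [hKerAvg.2.2 g (2 * r) (2 * j + 2 * r) (fr r) (fr_periodic r (2 * r) le_rfl) (by omega)]
    exact hKerAvg.2.1 (2 * r) r le_rfl
  · simp only [if_neg hc]
    exact avg_const _ 0

/-- the ratio -/
noncomputable def rho : ℝ := ((1 + Real.sqrt 3) / 2) ^ 2 / 2

theorem sqrt3_bounds : 0 < Real.sqrt 3 ∧ Real.sqrt 3 < 1.7321 := by
  refine ⟨by positivity, ?_⟩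
  rw [Real.sqrt_lt' (by norm_num)]
  norm_num

theorem rho_pos : 0 < rho := by
  unfold rho
  positivity

theorem rho_lt : rho < 1 := by
  unfold rho
  obtain ⟨h1, h2⟩ := sqrt3_bounds
  nlinarith [Real.sq_sqrt (show (0 : ℝ) ≤ 3 by norm_num)]

open Classical in
theorem Ew_cond (hBinBasic : StmtBinBasic) (hKapLaw : StmtKapLaw) (j : ℕ) :
    Ew j (fun g => if cnd j g then (1 : ℝ) else 0) ≤ 2 * rho ^ j := by
  have h1 : Ew j (fun g => if cnd j g then (1 : ℝ) else 0) ≤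
      Ew j (fun g => (2 / 2 ^ j) * Real.sqrt 3 ^ kap g) := by
    apply Ew_mono
    intro g _
    by_cases hc : cnd j g
    · rw [if_pos hc]
      unfold cnd at hc
      have hc' : (5 : ℝ) * 4 ^ j ≤ 16 * 3 ^ kap g := by exact_mod_cast hc
      rw [div_mul_eq_mul_div, le_div_iff₀ (by positivity), one_mul]
      apply le_of_sq_le_sq _ (by positivity)
      have e1 : ((2 : ℝ) ^ j) ^ 2 = 4 ^ j := by
        rw [← pow_mul, mul_comm, pow_mul]
        norm_num
      have e2 : (2 * Real.sqrt 3 ^ kap g) ^ 2 = 4 * 3 ^ kap g := by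
        rw [mul_pow, ← pow_mul, mul_comm (kap g), pow_mul, Real.sq_sqrt (by norm_num)]
        norm_num
      rw [e1, e2]
      have : (0 : ℝ) < 3 ^ kap g := by positivity
      linarith
    · rw [if_neg hc]
      positivity
  rw [Ew_mul] at h1
  have h2 := hKapLaw j (fun k => Real.sqrt 3 ^ k)
  obtain ⟨_, _, _, _, _, _, _, _, h9⟩ := hBinBasic
  have h3 := h9 (2 * j) (Real.sqrt 3)
  rw [h2, h3] at h1
  refine h1.trans (le_of_eq ?_)
  unfold rho
  rw [div_pow (((1 + Real.sqrt 3) / 2) ^ 2) 2 j, pow_mul]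
  ring

end Returnaux

open Returnaux in
open Classical in
theorem stmtReturn (hBinBasic : StmtBinBasic) (hKapLaw : StmtKapLaw) (hWords : StmtWords) (hRMoment : StmtRMoment) (hKerAvg : StmtKerAvg) (hMassPer : StmtMassPer) : StmtReturn := by
  refine ⟨32 / 5, rho, by norm_num, rho_pos, rho_lt, ?_⟩
  intro s a r j hs ha
  have h9 : (0 : ℝ) < 9 ^ (j + r) := by positivity
  have ha0 : 0 < a := by linarith
  have hj9 : 16 * (9 : ℝ) ^ j ≤ a := by
    have : (9 : ℝ) ^ j ≤ 9 ^ (j + r) := pow_le_pow_right₀ (by norm_num) (by omega)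
    linarith
  obtain ⟨_, _, _, hW4, _⟩ := hWords
  choose γ hγ1 hγ2 hγ3 using hW4 j
  set Wd := W s a (3 * a) with hWd
  let h : List (Fin 4) → ℤ → ℝ := fun g M' =>
    if cnd j g then (16 / 15) * ((1 / 4 ^ j) * (kerF g M' * fr r (Nz g M'))) / |(M' : ℝ)| else 0
  have hnn : ∀ g M', 0 ≤ h g M' := by
    intro g M'
    show 0 ≤ (if cnd j g then _ else _ : ℝ)
    split_ifs
    · have h1 := kerF_nonneg g M'
      have h2 := fr_nonneg r (Nz g M')
      positivity
    · exact le_rfl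
  have hkey : ∀ M ∈ Wd.filter (fun M => T^[2 * j] M ∈ Wd),
      fr r M / |(M : ℝ)| ≤ h (γ M) (T^[2 * j] M) := by
    intro M hM
    rw [Finset.mem_filter] at hM
    obtain ⟨hM1, hM2⟩ := hM
    obtain ⟨hb1, hb2⟩ := mem_W' hs ha0 hM1
    obtain ⟨hc1, hc2⟩ := mem_W' hs ha0 hM2
    have hg := hγ1 M
    have hv := hγ2 M
    have hN := hγ3 M
    have hF0 := FF_nonneg (γ M)
    have hF1 : (FF (γ M) : ℝ) ≤ 9 ^ j := by
      have h1 := (hRMoment.2 (γ M)).2
      unfold RR at h1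
      rw [hg, div_le_iff₀ (by positivity), ← mul_pow] at h1
      norm_num at h1
      exact h1
    have e1 : (3 : ℝ) ^ kap (γ M) * (M : ℝ) = 4 ^ j * ((T^[2 * j] M : ℤ) : ℝ) - (FF (γ M) : ℝ) := by
      have h1 := Nz_eq hv
      rw [hN, hg] at h1
      exact_mod_cast h1
    have h4 : (1 : ℝ) ≤ 4 ^ j := one_le_pow₀ (by norm_num)
    have e2 : 15 / 16 * (4 ^ j * |((T^[2 * j] M : ℤ) : ℝ)|) ≤ 3 ^ kap (γ M) * |(M : ℝ)| := by
      have h1 : |(3 : ℝ) ^ kap (γ M) * (M : ℝ)| = 3 ^ kap (γ M) * |(M : ℝ)| := by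
        rw [abs_mul, abs_of_pos (by positivity)]
      have h2 : |(4 : ℝ) ^ j * ((T^[2 * j] M : ℤ) : ℝ)| = 4 ^ j * |((T^[2 * j] M : ℤ) : ℝ)| := by
        rw [abs_mul, abs_of_pos (by positivity)]
      rw [← h1, e1]
      have h3 := abs_sub_abs_le_abs_sub ((4 : ℝ) ^ j * ((T^[2 * j] M : ℤ) : ℝ)) (FF (γ M) : ℝ)
      rw [h2, abs_of_nonneg (show (0 : ℝ) ≤ (FF (γ M) : ℝ) by exact_mod_cast hF0)] at h3
      have h5 : |((T^[2 * j] M : ℤ) : ℝ)| ≤ 4 ^ j * |((T^[2 * j] M : ℤ) : ℝ)| :=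
        le_mul_of_one_le_left (abs_nonneg _) h4
      linarith
    have hM0 : 0 < |(M : ℝ)| := by linarith
    have hM0' : 0 < |((T^[2 * j] M : ℤ) : ℝ)| := by linarith
    have h3k : (0 : ℝ) < 3 ^ kap (γ M) := by positivity
    have hcond : cnd j (γ M) := by
      unfold cnd
      have h1 : 15 / 16 * (4 ^ j * a) ≤ 15 / 16 * (4 ^ j * |((T^[2 * j] M : ℤ) : ℝ)|) := by
        have := mul_le_mul_of_nonneg_left hc1 (show (0 : ℝ) ≤ 4 ^ j by positivity)
        linarith
      have h2 : 3 ^ kap (γ M) * |(M : ℝ)| ≤ 3 ^ kap (γ M) * (3 * a) :=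
        mul_le_mul_of_nonneg_left hb2.le h3k.le
      have h5 : 5 * 4 ^ j * a ≤ 16 * (3 : ℝ) ^ kap (γ M) * a := by linarith
      have h6 : 5 * (4 : ℝ) ^ j ≤ 16 * 3 ^ kap (γ M) := le_of_mul_le_mul_right h5 ha0
      exact_mod_cast h6
    show _ ≤ (if cnd j (γ M) then _ else _ : ℝ)
    rw [if_pos hcond, kerF_of_valid hv, hN]
    have hfr := fr_nonneg r M
    have h7 : 1 / |(M : ℝ)| ≤ (16 / 15) * ((1 / 4 ^ j) * 3 ^ kap (γ M)) / |((T^[2 * j] M : ℤ) : ℝ)| := by
      rw [div_le_div_iff₀ hM0 hM0']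
      have h8 : |((T^[2 * j] M : ℤ) : ℝ)| =
          (16 / 15) * (1 / 4 ^ j) * (15 / 16 * (4 ^ j * |((T^[2 * j] M : ℤ) : ℝ)|)) := by
        field_simp
      rw [one_mul, h8]
      calc _ ≤ (16 / 15) * (1 / 4 ^ j) * (3 ^ kap (γ M) * |(M : ℝ)|) :=
            mul_le_mul_of_nonneg_left e2 (by positivity)
        _ = _ := by ring
    calc fr r M / |(M : ℝ)| = fr r M * (1 / |(M : ℝ)|) := by ring
      _ ≤ fr r M * ((16 / 15) * ((1 / 4 ^ j) * 3 ^ kap (γ M)) / |((T^[2 * j] M : ℤ) : ℝ)|) :=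
          mul_le_mul_of_nonneg_left h7 hfr
      _ = _ := by ring
  have hsum1 : mass s (fun M => if T^[2 * j] M ∈ Wd then fr r M else 0) a (3 * a) =
      ∑ M ∈ Wd.filter (fun M => T^[2 * j] M ∈ Wd), fr r M / |(M : ℝ)| := by
    unfold mass
    rw [← hWd, Finset.sum_filter]
    apply Finset.sum_congr rfl
    intro M _
    by_cases hM : T^[2 * j] M ∈ Wd
    · simp [hM]
    · simp [hM]
  have hinj : Set.InjOn (fun M : ℤ => (γ M, T^[2 * j] M))
      (Wd.filter (fun M => T^[2 * j] M ∈ Wd) : Finset ℤ) := by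
    intro M _ M' _ he
    simp only [Prod.mk.injEq] at he
    rw [← hγ3 M, ← hγ3 M', he.1, he.2]
  have hsum2 : ∑ M ∈ Wd.filter (fun M => T^[2 * j] M ∈ Wd), h (γ M) (T^[2 * j] M) ≤
      ∑ q ∈ words j ×ˢ Wd, h q.1 q.2 := by
    rw [← Finset.sum_image (f := fun q : List (Fin 4) × ℤ => h q.1 q.2) hinj]
    refine Finset.sum_le_sum_of_subset_of_nonneg ?_ (fun q _ _ => hnn _ _)
    intro q hq
    rw [Finset.mem_image] at hq
    obtain ⟨M, hM, rfl⟩ := hq
    rw [Finset.mem_product]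
    exact ⟨(mem_words j _).2 (hγ1 M), (Finset.mem_filter.1 hM).2⟩
  have hsum3 : ∑ q ∈ words j ×ˢ Wd, h q.1 q.2 = (16 / 15) * mass s (pp j r) a (3 * a) := by
    rw [Finset.sum_product_right]
    unfold mass
    rw [← hWd, Finset.mul_sum]
    apply Finset.sum_congr rfl
    intro M' _
    unfold pp
    rw [Ew_eq_sum, smul_eq_mul, Finset.mul_sum, Finset.sum_div, Finset.mul_sum]
    apply Finset.sum_congr rfl
    intro g _
    show (if cnd j g then _ else _ : ℝ) = _
    split_ifs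
    · ring
    · simp
  have hper := hMassPer.2 s (2 * j + 2 * r) (pp j r) a (3 * a) hs (pp_nonneg j r) (pp_periodic j r)
    (by
      have e : (3 : ℝ) ^ (2 * j + 2 * r) = 9 ^ (j + r) := by
        rw [← mul_add, pow_mul]
        norm_num
      rw [e]
      linarith) le_rfl
  rw [avg_pp hKerAvg] at hper
  have hfin := Ew_cond hBinBasic hKapLaw j
  rw [hsum1]
  have h10 := (Finset.sum_le_sum hkey).trans (hsum2.trans hsum3.le)
  linarith

end Pool.Agent.Clz
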