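import Pool.Agent.Lib.MP_5a39b1_nt.Clz.Spec3

/-!
MP_5a39b1_nt, module ScaleInv: real analysis: asymptotic scale invariance from 3, 4/3 and continuity (density of 3^i (4/3)^j). See the docstring of `StmtScaleInv` in `Spec3.lean` for the proof.
-/

set_option autoImplicit false

namespace Pool.Agent.Clz

open Finset Filter Topology

namespace ScaleInvaux

/-- the group of asymptotic invariance -/
def grp (G : ℝ → ℝ) : AddSubgroup ℝ where
  carrier := {x | Tendsto (fun a : ℝ => G (Real.exp x * a) - G a) atTop (𝓝 0)}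
  zero_mem' := by simp
  add_mem' := by
    intro x y hx hy
    simp only [Set.mem_setOf_eq] at hx hy ⊢
    have h1 : Tendsto (fun a : ℝ => Real.exp y * a) atTop atTop :=
      tendsto_id.const_mul_atTop (Real.exp_pos y)
    have h2 := (hx.comp h1).add hy
    rw [add_zero] at h2
    refine h2.congr fun a => ?_
    simp only [Function.comp]
    rw [Real.exp_add, mul_assoc]
    ring
  neg_mem' := by
    intro x hx
    simp only [Set.mem_setOf_eq] at hx ⊢
    have h1 : Tendsto (fun a : ℝ => Real.exp (-x) * a) atTop atTop :=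
      tendsto_id.const_mul_atTop (Real.exp_pos _)
    have h2 := (hx.comp h1).neg
    rw [neg_zero] at h2
    refine h2.congr fun a => ?_
    simp only [Function.comp]
    rw [← mul_assoc, ← Real.exp_add, add_neg_cancel, Real.exp_zero, one_mul]
    ring

lemma mem_grp {G : ℝ → ℝ} {l : ℝ} (hl : 0 < l) :
    Real.log l ∈ grp G ↔ Tendsto (fun a : ℝ => G (l * a) - G a) atTop (𝓝 0) := by
  show Tendsto (fun a : ℝ => G (Real.exp (Real.log l) * a) - G a) atTop (𝓝 0) ↔ _
  rw [Real.exp_log hl]

lemma pow_ne (k m : ℕ) (hm : 0 < m) : (3 : ℝ) ^ k ≠ 4 ^ m := by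
  intro h
  have h1 : (3 : ℕ) ^ k = 4 ^ m := by exact_mod_cast h
  have h2 : Even ((4 : ℕ) ^ m) := by
    rw [Nat.even_pow]
    exact ⟨by decide, by omega⟩
  rw [← h1, Nat.even_pow] at h2
  exact absurd h2.1 (by decide)

lemma log_indep (k m : ℤ) (h : (k : ℝ) * Real.log 3 = m * Real.log 4) : m = 0 := by
  by_contra hm
  wlog hmpos : 0 < m generalizing k m
  · have hm' : 0 < -m := by omega
    refine this (-k) (-m) ?_ (by omega) hm'
    push_cast
    linarith
  have hl3 : 0 < Real.log 3 := Real.log_pos (by norm_num)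
  have hl4 : 0 < Real.log 4 := Real.log_pos (by norm_num)
  have hk : 0 < k := by
    have hmR : (0 : ℝ) < m := by exact_mod_cast hmpos
    have h1 : (0 : ℝ) < k * Real.log 3 := by
      rw [h]
      positivity
    have h2 : (0 : ℝ) < k := (pos_iff_pos_of_mul_pos h1).2 hl3
    exact_mod_cast h2
  obtain ⟨K, rfl⟩ := Int.eq_ofNat_of_zero_le hk.le
  obtain ⟨M, rfl⟩ := Int.eq_ofNat_of_zero_le hmpos.le
  have hM : 0 < M := by exact_mod_cast hmpos
  simp only [Int.ofNat_eq_natCast, Int.cast_natCast] at h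
  rw [← Real.log_pow, ← Real.log_pow] at h
  exact pow_ne K M hM (Real.log_injOn_pos (by simp) (by simp) h)

lemma dense_grp {G : ℝ → ℝ} (h3 : Real.log 3 ∈ grp G) (h4 : Real.log (4 / 3) ∈ grp G) :
    Dense (grp G : Set ℝ) := by
  rcases AddSubgroup.dense_or_cyclic (grp G) with h | ⟨a, ha⟩
  · exact h
  · exfalso
    rw [ha, AddSubgroup.mem_closure_singleton] at h3 h4
    obtain ⟨m, hm⟩ := h3
    obtain ⟨n, hn⟩ := h4
    rw [zsmul_eq_mul] at hm hn
    rw [Real.log_div (by norm_num) (by norm_num)] at hn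
    have h5 : ((m + n : ℤ) : ℝ) * Real.log 3 = m * Real.log 4 := by
      push_cast
      have h6 : Real.log 4 = n * a + m * a := by rw [hn, hm]; ring
      rw [h6, ← hm]
      ring
    have h7 := log_indep _ _ h5
    rw [h7] at hm
    have : 0 < Real.log 3 := Real.log_pos (by norm_num)
    simp at hm
    linarith

end ScaleInvaux

open ScaleInvaux

theorem stmtScaleInv : StmtScaleInv := by
  intro G C hC h3 h4 l hl
  have hC0 : 0 ≤ C := by
    have := hC 1 1 le_rfl le_rfl
    simp at this
    exact this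
  have hd : Dense (grp G : Set ℝ) := dense_grp ((mem_grp (by norm_num)).2 h3)
    ((mem_grp (by norm_num)).2 h4)
  rw [Metric.tendsto_atTop]
  intro ε hε
  have hδ : 0 < ε / (4 * (C + 1)) := by positivity
  obtain ⟨y, hy, hyl⟩ := hd.exists_between (show Real.log l - ε / (4 * (C + 1)) < Real.log l by linarith)
  obtain ⟨hy1, hy2⟩ := hyl
  have hyt : Tendsto (fun a : ℝ => G (Real.exp y * a) - G a) atTop (𝓝 0) := hy
  have hya : Tendsto (fun a : ℝ => Real.exp y * a) atTop atTop :=
    tendsto_id.const_mul_atTop (Real.exp_pos y)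
  obtain ⟨a₁, ha₁⟩ := Metric.tendsto_atTop.1 hyt (ε / 4) (by positivity)
  obtain ⟨a₂, ha₂⟩ := eventually_atTop.1 (hya.eventually_ge_atTop (max 1 (4 * (C + 1) / ε)))
  refine ⟨max a₁ a₂, fun a ha => ?_⟩
  have h5 := ha₁ a ((le_max_left _ _).trans ha)
  have h6 := ha₂ a ((le_max_right _ _).trans ha)
  have h7 : 1 ≤ Real.exp y * a := (le_max_left _ _).trans h6
  have h8 : 4 * (C + 1) / ε ≤ Real.exp y * a := (le_max_right _ _).trans h6
  have h9 : 1 / (Real.exp y * a) ≤ ε / (4 * (C + 1)) := by
    rw [div_le_div_iff₀ (by linarith) (by positivity)]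
    rw [div_le_iff₀ hε] at h8
    linarith
  have h10 : 1 ≤ l * Real.exp (-y) := by
    rw [Real.exp_neg, ← div_eq_mul_inv, one_le_div (Real.exp_pos y), ← Real.exp_log hl]
    exact Real.exp_le_exp.2 hy2.le
  have h11 := hC (Real.exp y * a) (l * Real.exp (-y)) h7 h10
  have h12 : l * Real.exp (-y) * (Real.exp y * a) = l * a := by
    rw [Real.exp_neg]
    field_simp
  rw [h12] at h11
  have h13 : Real.log (l * Real.exp (-y)) < ε / (4 * (C + 1)) := by
    rw [Real.log_mul hl.ne' (Real.exp_pos _).ne', Real.log_exp]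
    linarith
  have h14 : C * (Real.log (l * Real.exp (-y)) + 1 / (Real.exp y * a)) ≤ ε / 2 := by
    calc C * (Real.log (l * Real.exp (-y)) + 1 / (Real.exp y * a))
        ≤ (C + 1) * (ε / (4 * (C + 1)) + ε / (4 * (C + 1))) := by
          apply mul_le_mul (by linarith) (by linarith) _ (by positivity)
          have := Real.log_nonneg h10
          positivity
      _ = ε / 2 := by field_simp; ring
  rw [Real.dist_eq, sub_zero] at h5 ⊢
  have h15 : G (l * a) - G a = (G (l * a) - G (Real.exp y * a)) + (G (Real.exp y * a) - G a) := by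
    ring
  rw [h15]
  calc |(G (l * a) - G (Real.exp y * a)) + (G (Real.exp y * a) - G a)|
      ≤ |G (l * a) - G (Real.exp y * a)| + |G (Real.exp y * a) - G a| := abs_add_le _ _
    _ < ε := by linarith

end Pool.Agent.Clz
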