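import Pool.Agent.Lib.MP_5a39b1_nt.Clz.Spec3

/-!
MP_5a39b1_nt, module SlowVar: slow variation. See the docstring of `StmtSlowVar` in `Spec3.lean` for the proof.
-/

set_option autoImplicit false

namespace Pool.Agent.Clz

open Finset

namespace SlowVaraux

theorem fr_zero (z : ℤ) : fr 0 z = 1 := by
  simp [fr, kerF]

/-- a sum over `range (n+1)` of a function supported there, shifted by `d` -/
theorem sum_shift (n : ℕ) (d : ℤ) (g : ℤ → ℝ) (s : Finset ℤ)
    (h1 : ∀ k : ℕ, k ≤ n → (k : ℤ) - d ∈ s)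
    (h2 : ∀ k ∈ s, (k + d < 0 ∨ (n : ℤ) < k + d) → g k = 0) :
    ∑ κ ∈ range (n + 1), g ((κ : ℤ) - d) = ∑ κ ∈ s, g κ := by
  classical
  have e : ∑ κ ∈ range (n + 1), g ((κ : ℤ) - d)
      = ∑ k ∈ (range (n + 1)).image (fun κ : ℕ => (κ : ℤ) - d), g k := by
    rw [Finset.sum_image]
    intro a _ b _ hab
    simp only at hab
    omega
  rw [e]
  refine Finset.sum_subset ?_ ?_
  · intro k hk
    rw [Finset.mem_image] at hk
    obtain ⟨κ, hκ, rfl⟩ := hk
    have := Finset.mem_range.mp hκ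
    exact h1 κ (by omega)
  · intro k hk hk'
    refine h2 k hk ?_
    by_contra h
    push Not at h
    apply hk'
    rw [Finset.mem_image]
    exact ⟨(k + d).toNat, Finset.mem_range.mpr (by omega), by omega⟩

theorem log3_pos : 0 < Real.log 3 := Real.log_pos (by norm_num)

theorem log4_le : Real.log 4 ≤ 13 / 10 * Real.log 3 := by
  have h : Real.log ((4 : ℝ) ^ 10) ≤ Real.log ((3 : ℝ) ^ 13) :=
    Real.log_le_log (by norm_num) (by norm_num)
  rw [Real.log_pow, Real.log_pow] at h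
  push_cast at h
  linarith

theorem quarter_le_c : 1 / 4 ≤ lg (4 / 3) := by
  unfold lg
  rw [le_div_iff₀ log3_pos]
  have h : Real.log (3 : ℝ) ≤ Real.log ((4 / 3 : ℝ) ^ 4) :=
    Real.log_le_log (by norm_num) (by norm_num)
  rw [Real.log_pow] at h
  push_cast at h
  linarith

theorem c_le_one : lg (4 / 3) ≤ 1 := by
  unfold lg
  rw [div_le_one log3_pos]
  exact Real.log_le_log (by norm_num) (by norm_num)

theorem three_rpow_c : (3 : ℝ) ^ lg (4 / 3) = 4 / 3 := by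
  unfold lg
  rw [Real.rpow_def_of_pos (by norm_num), mul_div_cancel₀ _ log3_pos.ne',
    Real.exp_log (by norm_num)]

theorem lg_mul_rpow {a : ℝ} (ha : 0 < a) (x : ℝ) : lg (a * (3 : ℝ) ^ x) = lg a + x := by
  unfold lg
  rw [Real.log_mul ha.ne' (Real.rpow_pos_of_pos (by norm_num) _).ne',
    Real.log_rpow (by norm_num), add_div, mul_div_assoc, div_self log3_pos.ne', mul_one]

theorem q4_mono {u v : ℝ} (h : u ≤ v) : q4 u ≤ q4 v :=
  Real.sqrt_le_sqrt (Real.sqrt_le_sqrt h)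

theorem q4_pos {u : ℝ} (h : 0 < u) : 0 < q4 u := Real.sqrt_pos.mpr (Real.sqrt_pos.mpr h)

theorem q4_le_sqrt {u : ℝ} (h : 1 ≤ u) : q4 u ≤ Real.sqrt u := by
  unfold q4
  have h1 : 1 ≤ Real.sqrt u := Real.one_le_sqrt.mpr h
  have h2 : Real.sqrt u ≤ (Real.sqrt u) ^ 2 := by nlinarith
  calc Real.sqrt (Real.sqrt u) ≤ Real.sqrt ((Real.sqrt u) ^ 2) := Real.sqrt_le_sqrt h2
    _ = Real.sqrt u := Real.sqrt_sq (by linarith)

end SlowVaraux

open SlowVaraux in
theorem stmtSlowVar (hBinBasic : StmtBinBasic) (hBinDiff : StmtBinDiff) (hBinShift : StmtBinShift) (hInvIter : StmtInvIter) (hKerAvg : StmtKerAvg) (hMassPer : StmtMassPer) (hPFa : StmtPFa) (hAdmEx : StmtAdmEx) : StmtSlowVar := by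
  classical
  obtain ⟨C, u₁, hC, hu₁, hPF⟩ := hPFa
  obtain ⟨u₂, hu₂, hAd⟩ := hAdmEx
  refine ⟨2 * C + 105, max (max u₁ u₂) 100, by positivity, ?_, ?_⟩
  · exact le_trans (by norm_num) (le_max_right _ _)
  intro S A0 s a x hs hInv hA0 hA0a ha hu hx hxu
  have hua : u₁ ≤ lg a := (le_max_left _ _).trans ((le_max_left _ _).trans hu)
  have hub : u₂ ≤ lg a := (le_max_right _ _).trans ((le_max_left _ _).trans hu)
  have huc : 100 ≤ lg a := (le_max_right _ _).trans hu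
  obtain ⟨r, hr1, hAdm⟩ := hAd (lg a) hub
  set u : ℝ := lg a with hudef
  set c₁ : ℝ := lg (4 / 3) with hc₁
  have hc₁a : 1 / 4 ≤ c₁ := quarter_le_c
  have hc₁b : c₁ ≤ 1 := c_le_one
  have hc₁0 : 0 < c₁ := by linarith
  set t : ℕ := ⌈u / 4⌉₊ with ht
  set τ : ℕ := ⌊x / c₁⌋₊ with hτ
  have ht1 : u / 4 ≤ (t : ℝ) := Nat.le_ceil _
  have ht2 : (t : ℝ) < u / 4 + 1 := Nat.ceil_lt_add_one (by linarith)
  have hτ1 : (τ : ℝ) ≤ x / c₁ := Nat.floor_le (by positivity)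
  have hτ2 : x / c₁ < (τ : ℝ) + 1 := Nat.lt_floor_add_one _
  have hτ3 : (τ : ℝ) * c₁ ≤ x := by
    rw [le_div_iff₀ hc₁0] at hτ1
    exact hτ1
  have hτ4 : x < ((τ : ℝ) + 1) * c₁ := by
    rw [div_lt_iff₀ hc₁0] at hτ2
    exact hτ2
  have hτ5 : (τ : ℝ) ≤ 4 * x := by nlinarith
  have hτ0 : (0 : ℝ) ≤ τ := Nat.cast_nonneg _
  set ρ : ℝ := x - c₁ * τ with hρ
  have hρ0 : 0 ≤ ρ := by rw [hρ]; linarith
  have hρ1 : ρ ≤ 1 := by rw [hρ]; nlinarith
  set R : ℝ := (3 : ℝ) ^ ρ with hR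
  have hR1 : 1 ≤ R := Real.one_le_rpow (by norm_num) hρ0
  have hR3 : R ≤ 3 := by
    calc R ≤ (3 : ℝ) ^ (1 : ℝ) := Real.rpow_le_rpow_of_exponent_le (by norm_num) hρ1
      _ = 3 := Real.rpow_one 3
  have hRpos : 0 < R := by linarith
  have h3x : (3 : ℝ) ^ x = R * (4 / 3) ^ τ := by
    have h1 : (4 / 3 : ℝ) ^ τ = (3 : ℝ) ^ (c₁ * τ) := by
      rw [Real.rpow_mul (by norm_num), hc₁, three_rpow_c, Real.rpow_natCast]
    rw [h1, hR, ← Real.rpow_add (by norm_num)]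
    congr 1
    rw [hρ]
    ring
  set t' : ℕ := t + τ with ht'
  set a' : ℝ := a * (3 : ℝ) ^ x with ha'
  have ha'pos : 0 < a' := mul_pos ha (Real.rpow_pos_of_pos (by norm_num) _)
  have haa' : a ≤ a' := by
    have : (1 : ℝ) ≤ (3 : ℝ) ^ x := Real.one_le_rpow (by norm_num) hx
    rw [ha']
    nlinarith
  have hlga' : lg a' = u + x := lg_mul_rpow ha x
  have hx50 : x ≤ u / 50 := by linarith
  have hlog3 := log3_pos
  have hlog4 := log4_le
  have hloga : Real.log a = u * Real.log 3 := by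
    rw [hudef, lg, div_mul_cancel₀ _ hlog3.ne']
  have hA0pos : 0 < A0 := by linarith
  have hlogA0 : 40 * Real.log A0 ≤ u * Real.log 3 := by
    have h1 : 40 * (Real.log A0 / Real.log 3) ≤ u := hA0a
    have h2 : Real.log A0 / Real.log 3 * Real.log 3 = Real.log A0 := div_mul_cancel₀ _ hlog3.ne'
    nlinarith
  have ht'R : (t' : ℝ) = t + τ := by rw [ht']; push_cast; ring
  -- A0 * 4 ^ t' < a
  have hAa : A0 * 4 ^ t' < a := by
    rw [← Real.log_lt_log_iff (by positivity) ha, Real.log_mul (by positivity) (by positivity),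
      Real.log_pow, hloga]
    have h1 : (t' : ℝ) * Real.log 4 ≤ (u / 4 + 1 + 4 * (u / 50)) * (13 / 10 * Real.log 3) := by
      refine mul_le_mul ?_ hlog4 (Real.log_nonneg (by norm_num)) (by linarith)
      rw [ht'R]
      linarith
    nlinarith
  have hAa2 : A0 * 4 ^ t < a := by
    refine lt_of_le_of_lt ?_ hAa
    refine mul_le_mul_of_nonneg_left ?_ hA0pos.le
    exact pow_le_pow_right₀ (by norm_num) (Nat.le_add_right _ _)
  have hAa3 : A0 * 4 ^ t' < a' := lt_of_lt_of_le hAa haa'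
  -- r ≤ u / 8
  have hAdmu : Adm u r := hAdm u (by linarith) (by linarith)
  have hAdmu' : Adm (lg a') r := by
    rw [hlga']
    exact hAdm (u + x) (by linarith) (by linarith)
  have hr8 : (r : ℝ) ≤ u / 8 := by
    by_contra h
    push Not at h
    have h1 : (u / 8) ^ 4 < (r : ℝ) ^ 4 := pow_lt_pow_left₀ h (by linarith) (by norm_num)
    have h2 := hAdmu.2
    have h3 : (65536 : ℝ) ≤ u ^ 3 := by
      calc (65536 : ℝ) ≤ 100 ^ 3 := by norm_num
        _ ≤ u ^ 3 := pow_le_pow_left₀ (by norm_num) huc 3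
    have h4 : u ^ 4 ≤ 65536 * u := by nlinarith
    have h5 : u ^ 4 = u ^ 3 * u := by ring
    nlinarith [mul_le_mul_of_nonneg_right h3 (show 0 ≤ u by linarith)]
  -- 9^r 3^(τ+1) 4^t ≤ a
  have hbig : (9 : ℝ) ^ r * 3 ^ (τ + 1) * 4 ^ t ≤ a := by
    rw [← Real.log_le_log_iff (by positivity) ha, Real.log_mul (by positivity) (by positivity),
      Real.log_mul (by positivity) (by positivity), Real.log_pow, Real.log_pow, Real.log_pow, hloga]
    have h9 : Real.log 9 = 2 * Real.log 3 := by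
      rw [show (9 : ℝ) = 3 ^ 2 by norm_num, Real.log_pow]
      push_cast
      ring
    rw [h9]
    have h1 : (t : ℝ) * Real.log 4 ≤ (u / 4 + 1) * (13 / 10 * Real.log 3) :=
      mul_le_mul ht2.le hlog4 (Real.log_nonneg (by norm_num)) (by linarith)
    push_cast
    nlinarith
  -- windows
  set aK : ℤ → ℝ := fun κ => a * (3 : ℝ) ^ κ / 4 ^ t with haK
  have haKpos : ∀ κ, 0 < aK κ := fun κ => by
    simp only [haK]
    positivity
  have haKsucc : ∀ κ, aK (κ + 1) = 3 * aK κ := fun κ => by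
    simp only [haK]
    rw [zpow_add_one₀ (by norm_num)]
    ring
  have haK9 : ∀ κ : ℤ, -(τ : ℤ) - 1 ≤ κ → (9 : ℝ) ^ r ≤ aK κ := by
    intro κ hκ
    simp only [haK]
    rw [le_div_iff₀ (by positivity)]
    have h1 : (3 : ℝ) ^ (-(τ : ℤ) - 1) ≤ (3 : ℝ) ^ κ := zpow_le_zpow_right₀ (by norm_num) hκ
    have h2 : (3 : ℝ) ^ (-(τ : ℤ) - 1) * 3 ^ (τ + 1) = 1 := by
      rw [← zpow_natCast, ← zpow_add₀ (by norm_num)]
      push_cast
      rw [show -(τ : ℤ) - 1 + (τ + 1) = 0 by ring, zpow_zero]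
    calc (9 : ℝ) ^ r * 4 ^ t = (9 ^ r * 4 ^ t) * ((3 : ℝ) ^ (-(τ : ℤ) - 1) * 3 ^ (τ + 1)) := by
          rw [h2, mul_one]
      _ = (9 ^ r * 3 ^ (τ + 1) * 4 ^ t) * (3 : ℝ) ^ (-(τ : ℤ) - 1) := by ring
      _ ≤ a * (3 : ℝ) ^ (-(τ : ℤ) - 1) := mul_le_mul_of_nonneg_right hbig (by positivity)
      _ ≤ a * (3 : ℝ) ^ κ := mul_le_mul_of_nonneg_left h1 ha.le
  set f : ℤ → ℝ := fun M => fr r M * ind S M with hf
  have hf0 : ∀ M, 0 ≤ f M := fun M => mul_nonneg (fr_nonneg r M) (ind_nonneg S M)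
  have hmass3 : ∀ a₁ b₁ : ℝ, (9 : ℝ) ^ r ≤ a₁ → b₁ ≤ 3 * a₁ → mass s f a₁ b₁ ≤ 3 := by
    intro a₁ b₁ h1 h2
    have h3 : mass s f a₁ b₁ ≤ mass s (fr r) a₁ b₁ := by
      refine mass_mono (fun N _ => ?_)
      have := ind_le_one S N
      have h4 := fr_nonneg r N
      simp only [hf]
      nlinarith
    have h4 := hMassPer.2 s (2 * r) (fr r) a₁ b₁ hs (fun z => fr_nonneg r z)
      (fun z => fr_periodic r (2 * r) le_rfl z) (by
        rw [pow_mul]
        norm_num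
        exact h1) h2
    rw [hKerAvg.2.1 (2 * r) r le_rfl, mul_one] at h4
    exact h3.trans h4
  set α : ℤ → ℝ := fun κ => mass s f (aK κ) (R * aK κ) with hα
  set β : ℤ → ℝ := fun κ => mass s f (R * aK κ) (3 * aK κ) with hβ
  have hα0 : ∀ κ, 0 ≤ α κ := fun κ => mass_nonneg hf0
  have hβ0 : ∀ κ, 0 ≤ β κ := fun κ => mass_nonneg hf0
  have hα3 : ∀ κ : ℤ, -(τ : ℤ) - 1 ≤ κ → α κ ≤ 3 := fun κ hκ =>
    hmass3 _ _ (haK9 κ hκ) (mul_le_mul_of_nonneg_right hR3 (haKpos κ).le)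
  have hβ3 : ∀ κ : ℤ, -(τ : ℤ) - 1 ≤ κ → β κ ≤ 3 := fun κ hκ => by
    have h1 : aK κ ≤ R * aK κ := by
      have := haKpos κ
      nlinarith
    refine hmass3 _ _ ((haK9 κ hκ).trans h1) ?_
    linarith
  have hαβ : ∀ κ, mass s f (aK κ) (3 * aK κ) = α κ + β κ := by
    intro κ
    have := haKpos κ
    simp only [hα, hβ]
    rw [mass_add hs f (haKpos κ) (by nlinarith) (by nlinarith)]
  have hβα : ∀ κ, mass s f (R * aK κ) (3 * (R * aK κ)) = β κ + α (κ + 1) := by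
    intro κ
    have := haKpos κ
    simp only [hα, hβ]
    rw [haKsucc, show R * (3 * aK κ) = 3 * (R * aK κ) by ring]
    rw [mass_add hs f (by positivity) (by nlinarith) (by nlinarith)]
  -- the two push-forward statements
  have hind : ∀ z, 0 ≤ ind S z ∧ ind S z ≤ 1 := fun z => ⟨ind_nonneg S z, ind_le_one S z⟩
  have hinv : ∀ (a₁ : ℝ) (t₁ : ℕ), 0 < a₁ → A0 * 4 ^ t₁ < a₁ →
      mass s (fun M => fr 0 M * ind S (T^[2 * t₁] M)) a₁ (3 * a₁) = mass s (ind S) a₁ (3 * a₁) := by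
    intro a₁ t₁ h1 h2
    refine mass_congr (fun N hN => ?_)
    have h3 := (mem_W' hs h1 hN).1
    have h4 := hInvIter.1 S A0 t₁ N hInv (by linarith)
    rw [fr_zero, one_mul]
    unfold ind
    simp only [h4]
  have hP1 := hPF s t r 0 a (3 * a) (ind S) hs hind ha hua (by linarith) le_rfl
    ⟨by rw [← hudef]; linarith, by rw [← hudef]; linarith, hAdmu, Or.inl rfl⟩
  rw [hinv a t ha hAa2] at hP1
  have hP2 := hPF s t' r 0 a' (3 * a') (ind S) hs hind ha'pos (by rw [hlga']; linarith)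
    (by linarith) le_rfl
    ⟨by rw [hlga', ht'R]; linarith, by rw [hlga', ht'R]; linarith, hAdmu', Or.inl rfl⟩
  rw [hinv a' t' ha'pos hAa3] at hP2
  -- rewriting the main terms
  set Z : Finset ℤ := Finset.Icc (-(τ : ℤ) - 1) (2 * t' + 1) with hZ
  have hPzero : ∀ (n : ℕ) (k : ℤ), (k < 0 ∨ (n : ℤ) < k) → P n k = 0 := hBinBasic.2.1
  have hPnn : ∀ (n : ℕ) (k : ℤ), 0 ≤ P n k := hBinBasic.1
  have hM1 : ∑ κ ∈ range (2 * t + 1), P (2 * t) κ * mass s (fun M => fr r M * ind S M)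
      (a * 3 ^ κ / 4 ^ t) (3 * a * 3 ^ κ / 4 ^ t) = ∑ κ ∈ Z, P (2 * t) κ * (α κ + β κ) := by
    rw [← sum_shift (2 * t) 0 (fun κ => P (2 * t) κ * (α κ + β κ)) Z]
    · refine Finset.sum_congr rfl (fun κ _ => ?_)
      rw [sub_zero, ← hαβ]
      simp only [haK, zpow_natCast]
      rw [show 3 * a * 3 ^ κ / 4 ^ t = 3 * (a * 3 ^ κ / 4 ^ t) by ring]
    · intro k hk
      rw [hZ, Finset.mem_Icc]
      constructor <;> push_cast <;> omega
    · intro k _ hk
      rw [add_zero] at hk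
      simp only [hPzero (2 * t) k hk, zero_mul]
  have hM2 : ∑ κ ∈ range (2 * t' + 1), P (2 * t') κ * mass s (fun M => fr r M * ind S M)
      (a' * 3 ^ κ / 4 ^ t') (3 * a' * 3 ^ κ / 4 ^ t')
      = ∑ κ ∈ Z, P (2 * t') (κ + τ) * β κ + ∑ κ ∈ Z, P (2 * t') (κ + τ - 1) * α κ := by
    rw [← sum_shift (2 * t') τ (fun κ => P (2 * t') (κ + τ) * β κ) Z,
      ← sum_shift (2 * t') (τ - 1) (fun κ => P (2 * t') (κ + τ - 1) * α κ) Z,
      ← Finset.sum_add_distrib]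
    · refine Finset.sum_congr rfl (fun κ _ => ?_)
      rw [show (κ : ℤ) - τ + τ = κ by ring, show (κ : ℤ) - (τ - 1) + τ - 1 = κ by ring,
        show (κ : ℤ) - (τ - 1) = (κ - τ) + 1 by ring, ← mul_add, ← hβα]
      have e : a' * 3 ^ κ / 4 ^ t' = R * aK ((κ : ℤ) - τ) := by
        simp only [haK, ha']
        rw [h3x, ht', pow_add, zpow_sub₀ (by norm_num), zpow_natCast, zpow_natCast, div_pow]
        field_simp
      rw [e, show 3 * a' * 3 ^ κ / 4 ^ t' = 3 * (a' * 3 ^ κ / 4 ^ t') by ring, e]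
    · intro k hk
      rw [hZ, Finset.mem_Icc]
      constructor <;> push_cast <;> omega
    · intro k _ hk
      have : P (2 * t') (k + τ - 1) = 0 := hPzero _ _ (by
        rcases hk with hk | hk
        · left; omega
        · right; omega)
      simp only [this, zero_mul]
    · intro k hk
      rw [hZ, Finset.mem_Icc]
      constructor <;> push_cast <;> omega
    · intro k _ hk
      simp only [hPzero (2 * t') (k + τ) hk, zero_mul]
  -- the difference of the main terms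
  have hB3 := hBinShift.2.2.1 t τ Z
  have hB1 := hBinShift.1 (2 * t') 1 (Z.image (fun κ : ℤ => κ + τ))
  rw [Finset.sum_image (by
    intro i _ j _ hij
    simp only at hij
    omega)] at hB1
  have hdiff : |∑ κ ∈ Z, P (2 * t) κ * (α κ + β κ)
      - (∑ κ ∈ Z, P (2 * t') (κ + τ) * β κ + ∑ κ ∈ Z, P (2 * t') (κ + τ - 1) * α κ)|
      ≤ 6 * (2 * τ / (2 * t + 1)) + 3 * (2 / Real.sqrt ((2 * t' : ℕ) + 1)) := by
    have e1 : ∑ κ ∈ Z, P (2 * t) κ * (α κ + β κ)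
      - (∑ κ ∈ Z, P (2 * t') (κ + τ) * β κ + ∑ κ ∈ Z, P (2 * t') (κ + τ - 1) * α κ)
      = ∑ κ ∈ Z, ((P (2 * t) κ - P (2 * t') (κ + τ)) * β κ
        + ((P (2 * t) κ - P (2 * t') (κ + τ)) + (P (2 * t') (κ + τ) - P (2 * t') (κ + τ - 1))) * α κ) := by
      rw [← Finset.sum_add_distrib, ← Finset.sum_sub_distrib]
      refine Finset.sum_congr rfl (fun κ _ => ?_)
      ring
    rw [e1]
    refine (Finset.abs_sum_le_sum_abs _ _).trans ?_
    have e2 : ∀ κ ∈ Z, |(P (2 * t) κ - P (2 * t') (κ + τ)) * β κ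
        + ((P (2 * t) κ - P (2 * t') (κ + τ)) + (P (2 * t') (κ + τ) - P (2 * t') (κ + τ - 1))) * α κ|
        ≤ 6 * |P (2 * t) κ - P (2 * (t + τ)) (κ + τ)|
          + 3 * |P (2 * t') (κ + τ) - P (2 * t') (κ + τ - 1)| := by
      intro κ hκ
      rw [hZ, Finset.mem_Icc] at hκ
      have hb1 := hα3 κ hκ.1
      have hb2 := hβ3 κ hκ.1
      have hb3 := hα0 κ
      have hb4 := hβ0 κ
      refine (abs_add_le _ _).trans ?_
      rw [abs_mul, abs_mul, abs_of_nonneg hb3, abs_of_nonneg hb4]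
      have h5 : |(P (2 * t) κ - P (2 * t') (κ + τ)) + (P (2 * t') (κ + τ) - P (2 * t') (κ + τ - 1))|
          ≤ |P (2 * t) κ - P (2 * t') (κ + τ)| + |P (2 * t') (κ + τ) - P (2 * t') (κ + τ - 1)| :=
        abs_add_le _ _
      have h6 : |P (2 * t) κ - P (2 * t') (κ + τ)| * β κ
          ≤ |P (2 * t) κ - P (2 * t') (κ + τ)| * 3 :=
        mul_le_mul_of_nonneg_left hb2 (abs_nonneg _)
      have h7 : |(P (2 * t) κ - P (2 * t') (κ + τ)) + (P (2 * t') (κ + τ) - P (2 * t') (κ + τ - 1))| * α κ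
          ≤ (|P (2 * t) κ - P (2 * t') (κ + τ)| + |P (2 * t') (κ + τ) - P (2 * t') (κ + τ - 1)|) * 3 :=
        mul_le_mul h5 hb1 hb3 (by positivity)
      rw [← ht']
      linarith
    refine (Finset.sum_le_sum e2).trans ?_
    rw [Finset.sum_add_distrib, ← Finset.mul_sum, ← Finset.mul_sum]
    have h8 : ∑ κ ∈ Z, |P (2 * t') (κ + τ) - P (2 * t') (κ + τ - 1)|
        ≤ 2 / Real.sqrt ((2 * t' : ℕ) + 1) := by
      refine hB1.trans (le_of_eq ?_)
      push_cast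
      rw [abs_one, one_mul]
    linarith
  -- numerical bounds
  have hu0 : 0 < u := by linarith
  have hq := q4_pos hu0
  have hN1 : 6 * (2 * (τ : ℝ) / (2 * t + 1)) ≤ 96 * (x / u) := by
    have h1 : 2 * (τ : ℝ) / (2 * t + 1) ≤ 8 * x / (u / 2) := by
      refine div_le_div₀ (by linarith) (by linarith) (by linarith) (by linarith)
    calc 6 * (2 * (τ : ℝ) / (2 * t + 1)) ≤ 6 * (8 * x / (u / 2)) :=
          mul_le_mul_of_nonneg_left h1 (by norm_num)
      _ = 96 * (x / u) := by field_simp; ring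
  have hN2 : 3 * (2 / Real.sqrt ((2 * t' : ℕ) + 1)) ≤ 9 * (1 / q4 u) := by
    have h1 : q4 u ≤ 3 / 2 * Real.sqrt ((2 * t' : ℕ) + 1) := by
      refine (q4_le_sqrt (by linarith)).trans ?_
      have h2 : Real.sqrt u ≤ Real.sqrt ((3 / 2) ^ 2 * ((2 * t' : ℕ) + 1)) := by
        refine Real.sqrt_le_sqrt ?_
        push_cast
        rw [ht'R]
        linarith
      rw [Real.sqrt_mul (by norm_num), Real.sqrt_sq (by norm_num)] at h2
      exact h2
    have h3 : 0 < Real.sqrt ((2 * t' : ℕ) + 1) := Real.sqrt_pos.mpr (by positivity)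
    rw [mul_one_div, mul_div_assoc', div_le_div_iff₀ h3 hq]
    linarith
  have hN3 : C / q4 (lg a') ≤ C / q4 u := by
    refine div_le_div_of_nonneg_left hC.le hq (q4_mono ?_)
    rw [hlga']
    linarith
  rw [hM1] at hP1
  rw [hM2] at hP2
  rw [← hudef] at hP1
  have hfin : mass s (ind S) a' (3 * a') - mass s (ind S) a (3 * a)
      = (mass s (ind S) a' (3 * a') - (∑ κ ∈ Z, P (2 * t') (κ + τ) * β κ
          + ∑ κ ∈ Z, P (2 * t') (κ + τ - 1) * α κ))
        - (∑ κ ∈ Z, P (2 * t) κ * (α κ + β κ)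
          - (∑ κ ∈ Z, P (2 * t') (κ + τ) * β κ + ∑ κ ∈ Z, P (2 * t') (κ + τ - 1) * α κ))
        - (mass s (ind S) a (3 * a) - ∑ κ ∈ Z, P (2 * t) κ * (α κ + β κ)) := by ring
  rw [hfin]
  refine (abs_sub _ _).trans ?_
  refine (add_le_add (abs_sub _ _) le_rfl).trans ?_
  have hq1 : 0 ≤ 1 / q4 u := by positivity
  have hx1 : 0 ≤ x / u := by positivity
  have e3 : C / q4 u = C * (1 / q4 u) := by ring
  rw [e3] at hP1 hN3
  nlinarith [mul_nonneg hC.le hx1]

end Pool.Agent.Clz
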