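import Pool.Agent.Lib.MP_5a39b1_nt.Clz.Spec4

/-!
MP_5a39b1_nt, module Spread: trees of a set of positive mass (disjoint time slices). See the docstring of `StmtSpread` in `Spec4.lean` for the proof.
-/

set_option autoImplicit false

namespace Pool.Agent.Clz

open Finset

namespace Spreadaux

/-- the constant `lg 4 - 1` -/
noncomputable def c1 : ℝ := lg 4 - 1

theorem log3_pos : (0 : ℝ) < Real.log 3 := Real.log_pos (by norm_num)

theorem c1_bounds : 1 / 4 ≤ c1 ∧ c1 ≤ 1 / 3 := by
  have h3 := log3_pos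
  have h4 : Real.log 4 = Real.log 3 * (c1 + 1) := by
    unfold c1 lg
    field_simp
    ring
  constructor
  · have h1 : Real.log ((3 : ℝ) ^ 5) ≤ Real.log ((4 : ℝ) ^ 4) :=
      Real.log_le_log (by norm_num) (by norm_num)
    rw [Real.log_pow, Real.log_pow, h4] at h1
    push_cast at h1
    by_contra hcon
    push Not at hcon
    nlinarith
  · have h1 : Real.log ((4 : ℝ) ^ 3) ≤ Real.log ((3 : ℝ) ^ 4) :=
      Real.log_le_log (by norm_num) (by norm_num)
    rw [Real.log_pow, Real.log_pow, h4] at h1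
    push_cast at h1
    by_contra hcon
    push Not at hcon
    nlinarith

theorem lg_scale {a : ℝ} (ha : 0 < a) (κ t : ℕ) :
    lg (a * 3 ^ κ / 4 ^ t) = lg a + κ - t - c1 * t := by
  have h3 := log3_pos
  unfold c1 lg
  rw [Real.log_div (by positivity) (by positivity), Real.log_mul (by positivity) (by positivity),
    Real.log_pow, Real.log_pow]
  field_simp
  ring

theorem lg_three_mul {a : ℝ} (ha : 0 < a) : lg (3 * a) = lg a + 1 := by
  have h3 := log3_pos
  unfold lg
  rw [Real.log_mul (by norm_num) ha.ne']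
  field_simp
  ring

theorem le_of_lg_le {a b : ℝ} (ha : 0 < a) (hb : 0 < b) (h : lg a ≤ lg b) : a ≤ b := by
  have h3 := log3_pos
  unfold lg at h
  rw [div_le_div_iff_of_pos_right h3] at h
  exact (Real.log_le_log_iff ha hb).1 h

theorem q4_pow4 {u : ℝ} (hu : 0 ≤ u) : q4 u ^ 4 = u := by
  unfold q4
  calc Real.sqrt (Real.sqrt u) ^ 4 = (Real.sqrt (Real.sqrt u) ^ 2) ^ 2 := by ring
    _ = u := by rw [Real.sq_sqrt (Real.sqrt_nonneg _), Real.sq_sqrt hu]

theorem q4_nonneg (u : ℝ) : 0 ≤ q4 u := Real.sqrt_nonneg _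

theorem q4_sq (u : ℝ) : q4 u ^ 2 = Real.sqrt u := by
  unfold q4
  rw [Real.sq_sqrt (Real.sqrt_nonneg _)]

/-- geometric tail -/
theorem geom_le {C ρ β : ℝ} (hC : 0 < C) (hρ0 : 0 < ρ) (hρ1 : ρ < 1) (hβ : 0 < β) :
    ∃ l : ℕ, 1 ≤ l ∧ ∀ J : ℕ, ∑ j ∈ Finset.Icc l J, C * ρ ^ j ≤ β / 2 := by
  have h1 : 0 < 1 - ρ := by linarith
  obtain ⟨l, hl⟩ := exists_pow_lt_of_lt_one (show 0 < β / 2 * (1 - ρ) / C by positivity) hρ1
  refine ⟨l + 1, by omega, fun J => ?_⟩
  have hs : Summable fun j : ℕ => C * ρ ^ (j + (l + 1)) := by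
    have : (fun j : ℕ => C * ρ ^ (j + (l + 1))) = fun j => (C * ρ ^ (l + 1)) * ρ ^ j := by
      ext j; rw [pow_add]; ring
    rw [this]
    exact (summable_geometric_of_lt_one hρ0.le hρ1).mul_left _
  have h2 : ∑ j ∈ Finset.Icc (l + 1) J, C * ρ ^ j ≤ ∑' j : ℕ, C * ρ ^ (j + (l + 1)) := by
    have e : Finset.Icc (l + 1) J = (Finset.range (J + 1 - (l + 1))).image (fun j => j + (l + 1)) := by
      ext j
      simp only [Finset.mem_Icc, Finset.mem_image, Finset.mem_range]
      constructor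
      · intro h
        exact ⟨j - (l + 1), by omega, by omega⟩
      · rintro ⟨i, hi, rfl⟩
        omega
    rw [e, Finset.sum_image (fun x _ y _ h => by simpa using h)]
    exact hs.sum_le_tsum _ fun j _ => by positivity
  have h3 : ∑' j : ℕ, C * ρ ^ (j + (l + 1)) = C * ρ ^ (l + 1) / (1 - ρ) := by
    have : (fun j : ℕ => C * ρ ^ (j + (l + 1))) = fun j => (C * ρ ^ (l + 1)) * ρ ^ j := by
      ext j; rw [pow_add]; ring
    rw [this, tsum_mul_left, tsum_geometric_of_lt_one hρ0.le hρ1, div_eq_mul_inv]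
  have h4 : C * ρ ^ (l + 1) / (1 - ρ) ≤ β / 2 := by
    rw [div_le_iff₀ h1]
    have h5 : ρ ^ (l + 1) ≤ ρ ^ l := pow_le_pow_of_le_one hρ0.le hρ1.le (by omega)
    have h6 : C * ρ ^ l ≤ β / 2 * (1 - ρ) := by
      have := hl.le
      rw [le_div_iff₀ hC] at this
      linarith
    nlinarith
  linarith

open Classical in
/-- the set `B'` -/
def Bp (B : Set ℤ) (s : ℤ) (a : ℝ) (l J : ℕ) : Set ℤ :=
  {M | M ∈ B ∧ M ∈ W s a (3 * a) ∧ ∀ j, l ≤ j → j ≤ J → T^[2 * j] M ∉ W s a (3 * a)}

open Classical in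
theorem mass_Bp (B : Set ℤ) (s : ℤ) (a : ℝ) (l J r : ℕ) :
    mass s (fun M => fr r M * ind B M) a (3 * a) ≤
      mass s (fun M => fr r M * ind (Bp B s a l J) M) a (3 * a) +
      ∑ j ∈ Finset.Icc l J,
        mass s (fun M => if T^[2 * j] M ∈ W s a (3 * a) then fr r M else 0) a (3 * a) := by
  have h1 : ∑ j ∈ Finset.Icc l J,
      mass s (fun M => if T^[2 * j] M ∈ W s a (3 * a) then fr r M else 0) a (3 * a) =
      mass s (fun M => ∑ j ∈ Finset.Icc l J, if T^[2 * j] M ∈ W s a (3 * a) then fr r M else 0)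
        a (3 * a) := by
    unfold mass
    rw [Finset.sum_comm]
    refine Finset.sum_congr rfl fun N _ => ?_
    rw [Finset.sum_div]
  rw [h1, ← mass_fadd]
  refine mass_mono fun M hM => ?_
  have hf := fr_nonneg r M
  have hnn : 0 ≤ ∑ j ∈ Finset.Icc l J, (if T^[2 * j] M ∈ W s a (3 * a) then fr r M else 0) :=
    Finset.sum_nonneg fun j _ => by split_ifs; exacts [hf, le_rfl]
  by_cases hB : M ∈ B
  · by_cases hB' : M ∈ Bp B s a l J
    · have e1 : ind B M = 1 := by unfold ind; rw [if_pos hB]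
      have e2 : ind (Bp B s a l J) M = 1 := by unfold ind; rw [if_pos hB']
      rw [e1, e2]
      linarith
    · have : ∃ j, l ≤ j ∧ j ≤ J ∧ T^[2 * j] M ∈ W s a (3 * a) := by
        by_contra hcon
        push Not at hcon
        exact hB' ⟨hB, hM, hcon⟩
      obtain ⟨j, h2, h3, h4⟩ := this
      have h5 : fr r M ≤ ∑ j ∈ Finset.Icc l J,
          (if T^[2 * j] M ∈ W s a (3 * a) then fr r M else 0) := by
        have h6 := Finset.single_le_sum
          (f := fun j => if T^[2 * j] M ∈ W s a (3 * a) then fr r M else 0)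
          (fun j _ => by split_ifs; exacts [hf, le_rfl]) (Finset.mem_Icc.2 ⟨h2, h3⟩)
        simp only [if_pos h4] at h6
        exact h6
      have e1 : ind B M = 1 := by unfold ind; rw [if_pos hB]
      have e2 := mul_nonneg hf (ind_nonneg (Bp B s a l J) M)
      rw [e1]
      linarith
  · have e1 : ind B M = 0 := by unfold ind; rw [if_neg hB]
    have e2 := mul_nonneg hf (ind_nonneg (Bp B s a l J) M)
    rw [e1, mul_zero]
    linarith

/-- the slices are disjoint and contained in `S` -/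
theorem slices {S B : Set ℤ} (s : ℤ) (a : ℝ) (l J t0 n : ℕ) (hn : (n - 1) * l ≤ J)
    (hB : B ⊆ S) (hS : ∀ (j : ℕ) (N : ℤ), T^[j] N ∈ S → N ∈ S) (N : ℤ) :
    ∑ i ∈ Finset.range n, ind (Bp B s a l J) (T^[2 * (t0 + i * l)] N) ≤ ind S N := by
  classical
  by_cases h : ∃ i ∈ Finset.range n, T^[2 * (t0 + i * l)] N ∈ Bp B s a l J
  · obtain ⟨i, hi, hiB⟩ := h
    have hN : N ∈ S := hS _ _ (hB hiB.1)
    have e1 : ind S N = 1 := by unfold ind; rw [if_pos hN]
    rw [e1, Finset.sum_eq_single i]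
    · exact ind_le_one _ _
    · intro i' hi' hne
      have : T^[2 * (t0 + i' * l)] N ∉ Bp B s a l J := by
        intro hcon
        rw [Finset.mem_range] at hi hi'
        have key : ∀ p q : ℕ, p < q → q < n → T^[2 * (t0 + p * l)] N ∈ Bp B s a l J →
            T^[2 * (t0 + q * l)] N ∈ Bp B s a l J → False := by
          intro p q hpq hq hp hq'
          have h1 : 2 * (t0 + q * l) = 2 * ((q - p) * l) + 2 * (t0 + p * l) := by
            obtain ⟨d, rfl⟩ := Nat.exists_eq_add_of_lt hpq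
            have : p + d + 1 - p = d + 1 := by omega
            rw [this]
            ring
          have h2 : T^[2 * (t0 + q * l)] N = T^[2 * ((q - p) * l)] (T^[2 * (t0 + p * l)] N) := by
            rw [h1, Function.iterate_add_apply]
          have h3 := hp.2.2 ((q - p) * l) (by nlinarith [Nat.sub_pos_of_lt hpq]) (by
            refine le_trans (Nat.mul_le_mul_right l ?_) hn
            omega)
          rw [← h2] at h3
          exact h3 hq'.2.1
        rcases lt_or_gt_of_ne hne with h5 | h5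
        · exact key _ _ h5 hi hcon hiB
        · exact key _ _ h5 hi' hiB hcon
      unfold ind
      rw [if_neg this]
    · intro h0; exact absurd hi h0
  · push Not at h
    have : ∑ i ∈ Finset.range n, ind (Bp B s a l J) (T^[2 * (t0 + i * l)] N) = 0 := by
      refine Finset.sum_eq_zero fun i hi => ?_
      unfold ind
      rw [if_neg (h i hi)]
    rw [this]
    exact ind_nonneg _ _

end Spreadaux

open Spreadaux in
theorem stmtSpread (hBinBasic : StmtBinBasic) (hBinShift : StmtBinShift) (hInvIter : StmtInvIter) (hPFp : StmtPFp) (hReturn : StmtReturn) : StmtSpread := by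
  classical
  intro β hβ
  obtain ⟨CR, ρ, hCR, hρ0, hρ1, hR⟩ := hReturn
  obtain ⟨CP, u₀, hCP, hu₀, hP⟩ := hPFp
  obtain ⟨l, hl1, hl⟩ := geom_le hCR hρ0 hρ1 hβ
  obtain ⟨hc1l, hc1u⟩ := c1_bounds
  refine ⟨β / (200 * l), max (max u₀ (10 ^ 6)) ((16 * CP / β) ^ 4), by positivity, ?_, ?_⟩
  · exact le_trans hu₀ ((le_max_left _ _).trans (le_max_left _ _))
  intro S B s a a' r₀ r' hs hPre hBS ha hv ha' hva1 hva2 hAdm hr' hmass
  set v := lg a with hvdef
  set u := lg a' with hudef
  have hv1 : u₀ ≤ v := ((le_max_left _ _).trans (le_max_left _ _)).trans hv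
  have hv2 : (10 : ℝ) ^ 6 ≤ v := ((le_max_right _ _).trans (le_max_left _ _)).trans hv
  have hv3 : (16 * CP / β) ^ 4 ≤ v := (le_max_right _ _).trans hv
  have hc10 : 0 < c1 := by linarith
  -- the time
  set ts : ℝ := (u - v) / c1 with hts
  have huv1 : 0.05 * v ≤ u - v := by linarith
  have huv2 : u - v ≤ 0.15 * v := by linarith
  have hts1 : 0.15 * v ≤ ts := by
    rw [hts, le_div_iff₀ hc10]
    nlinarith
  have hts2 : ts ≤ 4 * (u - v) := by
    rw [hts, div_le_iff₀ hc10]
    nlinarith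
  have hts0 : 0 < ts := by nlinarith
  set x : ℝ := Real.sqrt ts with hx
  have hx2 : x ^ 2 = ts := Real.sq_sqrt hts0.le
  have hx0 : 0 ≤ x := Real.sqrt_nonneg _
  have hx1 : 300 ≤ x := by
    by_contra hcon
    push Not at hcon
    nlinarith
  set J : ℕ := ⌊x / 6⌋₊ with hJ
  have hJ1 : (J : ℝ) ≤ x / 6 := Nat.floor_le (by positivity)
  have hJ2 : x / 6 < J + 1 := Nat.lt_floor_add_one _
  set t0 : ℕ := ⌈ts⌉₊ with ht0
  have ht01 : ts ≤ t0 := Nat.le_ceil _
  have ht02 : (t0 : ℝ) < ts + 1 := Nat.ceil_lt_add_one hts0.le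
  set n : ℕ := J / l + 1 with hn
  have hn1 : (n - 1) * l ≤ J := by
    rw [hn, Nat.add_sub_cancel]
    exact Nat.div_mul_le_self J l
  have hn2 : x / 6 < n * l := by
    have : J + 1 ≤ n * l := by
      rw [hn]
      have := Nat.lt_mul_div_succ J (by omega : 0 < l)
      nlinarith
    have h' : ((J + 1 : ℕ) : ℝ) ≤ ((n * l : ℕ) : ℝ) := by exact_mod_cast this
    push_cast at h'
    linarith
  -- `r₀` is small
  have hAr := hAdm (v / 4) le_rfl (by linarith)
  have hr4 : (r₀ : ℝ) ^ 4 ≤ 4 * v := by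
    have := hAr.2
    linarith
  have hr8 : (r₀ : ℝ) ≤ v / 8 := by
    by_contra hcon
    push Not at hcon
    have h1 : (v / 8) ^ 4 ≤ (r₀ : ℝ) ^ 4 := pow_le_pow_left₀ (by linarith) hcon.le 4
    have h2 : 4 * v < (v / 8) ^ 4 := by
      have h3 : (10 ^ 6 : ℝ) ^ 3 ≤ v ^ 3 := pow_le_pow_left₀ (by norm_num) hv2 3
      nlinarith
    linarith
  have hxv : x ≤ v / 100 := by
    have : x * 300 ≤ x * x := by nlinarith
    nlinarith
  -- the set `B'`
  set B' : Set ℤ := Bp B s a l J with hB'
  have hmassB' : β / 2 ≤ mass s (fun M => fr r₀ M * ind B' M) a (3 * a) := by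
    have h1 := mass_Bp B s a l J r₀
    have h2 : ∑ j ∈ Finset.Icc l J,
        mass s (fun M => if T^[2 * j] M ∈ W s a (3 * a) then fr r₀ M else 0) a (3 * a) ≤
        ∑ j ∈ Finset.Icc l J, CR * ρ ^ j := by
      refine Finset.sum_le_sum fun j hj => ?_
      rw [Finset.mem_Icc] at hj
      convert hR s a r₀ j hs ?_ using 1
      refine le_of_lg_le (by positivity) ha ?_
      have h3 := log3_pos
      have h16 : Real.log 16 ≤ 3 * Real.log 3 := by
        have : Real.log 16 ≤ Real.log ((3 : ℝ) ^ 3) := Real.log_le_log (by norm_num) (by norm_num)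
        rw [Real.log_pow] at this
        push_cast at this
        exact this
      have h9 : Real.log 9 = 2 * Real.log 3 := by
        rw [show (9 : ℝ) = 3 ^ 2 by norm_num, Real.log_pow]
        push_cast
        rfl
      have h5 : lg (16 * (9 : ℝ) ^ (j + r₀)) ≤ 3 + 2 * (j + r₀) := by
        unfold lg
        rw [Real.log_mul (by norm_num) (by positivity), Real.log_pow, h9, div_le_iff₀ h3]
        push_cast
        nlinarith
      refine h5.trans ?_
      have h6 : (j : ℝ) ≤ J := by exact_mod_cast hj.2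
      rw [← hvdef]
      linarith
    have h3 := hl J
    linarith
  -- the slices
  have hslice : ∀ i ∈ Finset.range n,
      β / (32 * x) ≤ mass s (fun M => fr r' M * ind B' (T^[2 * (t0 + i * l)] M)) a' (3 * a') := by
    intro i hi
    rw [Finset.mem_range] at hi
    set t : ℕ := t0 + i * l with ht
    have hiJ : i * l ≤ J := by
      refine le_trans (Nat.mul_le_mul_right l ?_) hn1
      omega
    have hiJ' : ((i * l : ℕ) : ℝ) ≤ J := by exact_mod_cast hiJ
    have htR : (t : ℝ) = t0 + ((i * l : ℕ) : ℝ) := by rw [ht]; push_cast; ring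
    have ht1 : ts ≤ t := by
      have : (0 : ℝ) ≤ ((i * l : ℕ) : ℝ) := Nat.cast_nonneg _
      linarith
    have ht2 : (t : ℝ) ≤ ts + 1 + x / 6 := by linarith
    have ht4 : (t : ℝ) ≤ 4 * ts := by nlinarith
    set y : ℝ := c1 * (t - ts) with hy
    have hy0 : 0 ≤ y := mul_nonneg hc10.le (by linarith)
    have hy1 : y ≤ (1 + x / 6) / 3 := by
      have h1 : c1 * (t - ts) ≤ 1 / 3 * (t - ts) :=
        mul_le_mul_of_nonneg_right hc1u (by linarith)
      rw [hy]
      linarith
    set k : ℕ := ⌊y⌋₊ with hk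
    have hk1 : (k : ℝ) ≤ y := Nat.floor_le hy0
    have hk2 : y < k + 1 := Nat.lt_floor_add_one _
    set κ : ℕ := t + k with hκ
    have hsqt : x ≤ Real.sqrt t := Real.sqrt_le_sqrt ht1
    have hsqt2 : Real.sqrt t ≤ 2 * x := by
      rw [Real.sqrt_le_left (by positivity)]
      nlinarith
    have htpos : (0 : ℝ) < t := by linarith
    have hsq0 : 0 < Real.sqrt t := Real.sqrt_pos.2 htpos
    have hPk : ∀ x' : ℕ, x' ≤ k + 1 → 1 / (4 * Real.sqrt t) ≤ P (2 * t) ((t + x' : ℕ) : ℤ) := by
      intro x' hx'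
      have h1 := hBinShift.2.2.2.1 t (x' : ℤ) (by exact_mod_cast (by linarith : (1 : ℝ) ≤ t)) ?_
      · push_cast
        exact h1
      · have h2 : ((x' : ℕ) : ℝ) ≤ k + 1 := by exact_mod_cast hx'
        have h3 : |(((x' : ℕ) : ℤ) : ℝ)| = (x' : ℝ) := by
          rw [Int.cast_natCast, abs_of_nonneg (Nat.cast_nonneg _)]
        rw [h3]
        linarith
    -- the two windows
    set A : ℝ := a' * 3 ^ κ / 4 ^ t with hA
    have hA0 : 0 < A := by positivity
    have hlgA : lg A = v - y + k := by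
      rw [hA, lg_scale ha', ← hudef, hκ]
      have : c1 * ts = u - v := by rw [hts]; field_simp
      rw [hy]
      push_cast
      linarith
    have hAa : A ≤ a := le_of_lg_le hA0 ha (by rw [hlgA, ← hvdef]; linarith)
    have haA : a ≤ 3 * A := le_of_lg_le ha (by positivity) (by
      rw [lg_three_mul hA0, hlgA, ← hvdef]; linarith)
    have hA3 : a' * 3 ^ (κ + 1) / 4 ^ t = 3 * A := by
      rw [hA, pow_succ]; ring
    have hf0 : ∀ M, 0 ≤ fr r₀ M * ind B' M := fun M => mul_nonneg (fr_nonneg _ _) (ind_nonneg _ _)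
    have hcover : β / 2 ≤ mass s (fun M => fr r₀ M * ind B' M) A (3 * A) +
        mass s (fun M => fr r₀ M * ind B' M) (3 * A) (3 * (3 * A)) := by
      rw [mass_add hs _ hA0 (by linarith) (by linarith)]
      refine hmassB'.trans (mass_subset hs hf0 hA0 hAa (by linarith))
    have hgood : Good a' t r₀ r' := by
      refine ⟨?_, ?_, ?_, hr'⟩
      · rw [← hudef]; linarith
      · rw [← hudef]; linarith
      · exact hAdm u (by linarith) (by linarith)
    have h1 := hP s t r₀ r' a' (3 * a') (ind B') {κ, κ + 1} hs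
      (fun z => ⟨ind_nonneg _ _, ind_le_one _ _⟩) ha' (by rw [← hudef]; linarith) (by linarith)
      le_rfl hgood (by
        refine (Finset.card_insert_le _ _).trans ?_
        simp)
    rw [Finset.sum_pair (by omega)] at h1
    have e3 : 3 * a' * 3 ^ κ / 4 ^ t = 3 * A := by rw [hA]; ring
    have e4 : 3 * a' * 3 ^ (κ + 1) / 4 ^ t = 3 * (3 * A) := by rw [hA, pow_succ]; ring
    rw [hA3, e3, e4, ← hA, ← hudef] at h1
    have hp0 := hPk k (by omega)
    have hp1 := hPk (k + 1) le_rfl
    have ek1 : ((t + (k + 1) : ℕ) : ℤ) = ((κ + 1 : ℕ) : ℤ) := by rw [hκ]; push_cast; ring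
    rw [ek1] at hp1
    have h2 : 1 / (4 * Real.sqrt t) * (β / 2) ≤
        P (2 * t) (κ : ℤ) * mass s (fun M => fr r₀ M * ind B' M) A (3 * A) +
        P (2 * t) ((κ + 1 : ℕ) : ℤ) * mass s (fun M => fr r₀ M * ind B' M) (3 * A) (3 * (3 * A)) := by
      have m1 := mul_le_mul_of_nonneg_right hp0 (mass_nonneg (s := s) (a := A) (b := 3 * A) hf0)
      have m2 := mul_le_mul_of_nonneg_right hp1
        (mass_nonneg (s := s) (a := 3 * A) (b := 3 * (3 * A)) hf0)
      have m3 := mul_le_mul_of_nonneg_left hcover (show 0 ≤ 1 / (4 * Real.sqrt t) by positivity)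
      rw [mul_add] at m3
      exact m3.trans (add_le_add m1 m2)
    -- the error term
    have hu1 : (0 : ℝ) ≤ u := by linarith
    have hq0 : 0 ≤ q4 u := q4_nonneg u
    have hq4 : q4 u ^ 4 = u := q4_pow4 hu1
    have hqP : 16 * CP / β ≤ q4 u := by
      refine le_of_pow_le_pow_left₀ (by norm_num : (4 : ℕ) ≠ 0) hq0 ?_
      rw [hq4]
      linarith
    have hqpos : 0 < q4 u := lt_of_lt_of_le (by positivity) hqP
    have hq2 : Real.sqrt t ≤ q4 u ^ 2 := by
      rw [q4_sq]
      exact Real.sqrt_le_sqrt (by linarith)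
    have herr : CP / q4 u ^ 3 ≤ β / (16 * Real.sqrt t) := by
      rw [div_le_div_iff₀ (by positivity) (by positivity)]
      have h5 : 16 * CP ≤ β * q4 u := by
        rw [div_le_iff₀ hβ] at hqP
        linarith
      calc CP * (16 * Real.sqrt t) = 16 * CP * Real.sqrt t := by ring
        _ ≤ (β * q4 u) * q4 u ^ 2 :=
          mul_le_mul h5 hq2 hsq0.le (by positivity)
        _ = β * q4 u ^ 3 := by ring
    have h6 : 1 / (4 * Real.sqrt t) * (β / 2) = β / (8 * Real.sqrt t) := by
      field_simp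
      norm_num
    have h7 : β / (8 * Real.sqrt t) - β / (16 * Real.sqrt t) = β / (16 * Real.sqrt t) := by
      field_simp
      norm_num
    have h8 : β / (32 * x) ≤ β / (16 * Real.sqrt t) := by
      refine div_le_div_of_nonneg_left hβ.le (by positivity) (by linarith)
    push_cast at h1 h2
    linarith
  -- summation
  have hsum : ∑ i ∈ Finset.range n,
      mass s (fun M => fr r' M * ind B' (T^[2 * (t0 + i * l)] M)) a' (3 * a') ≤
      mass s (fun M => fr r' M * ind S M) a' (3 * a') := by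
    have h1 : ∑ i ∈ Finset.range n,
        mass s (fun M => fr r' M * ind B' (T^[2 * (t0 + i * l)] M)) a' (3 * a') =
        mass s (fun M => fr r' M * ∑ i ∈ Finset.range n, ind B' (T^[2 * (t0 + i * l)] M))
          a' (3 * a') := by
      unfold mass
      rw [Finset.sum_comm]
      refine Finset.sum_congr rfl fun N _ => ?_
      simp only
      rw [Finset.mul_sum, Finset.sum_div]
    rw [h1]
    refine mass_mono fun M _ => mul_le_mul_of_nonneg_left ?_ (fr_nonneg _ _)
    exact slices s a l J t0 n hn1 hBS (fun j N h => hInvIter.2 S j N hPre h) M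
  have hfin : (n : ℝ) * (β / (32 * x)) ≤ ∑ i ∈ Finset.range n,
      mass s (fun M => fr r' M * ind B' (T^[2 * (t0 + i * l)] M)) a' (3 * a') := by
    have := Finset.card_nsmul_le_sum (Finset.range n) _ _ hslice
    rwa [Finset.card_range, nsmul_eq_mul] at this
  refine le_trans ?_ (hfin.trans hsum)
  have hl0 : (0 : ℝ) < l := by exact_mod_cast hl1
  have hxpos : 0 < x := by linarith
  rw [div_le_iff₀ (by positivity)]
  have : (n : ℝ) * (β / (32 * x)) * (200 * l) = β * ((200 / 32) * (n * l) / x) := by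
    field_simp
  rw [this]
  have h2 : 1 ≤ (200 / 32) * ((n : ℝ) * l) / x := by
    rw [le_div_iff₀ hxpos]
    nlinarith
  nlinarith

end Pool.Agent.Clz
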