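import Pool.Agent.Lib.MP_5a39b1_nt.Clz.Spec3

/-!
MP_5a39b1_nt, module SubWin: invariance of sub-windows under 3 and 4/3. See the docstring of `StmtSubWin` in `Spec3.lean` for the proof.
-/

set_option autoImplicit false

namespace Pool.Agent.Clz

open Finset Filter Topology

namespace SubWinaux

/-- sums against `P n` as sums over integers -/
theorem sumZ (hBB : StmtBinBasic) (n : ℕ) (j : ℤ) (f : ℤ → ℝ) (I : Finset ℤ)
    (hI : ∀ k : ℤ, j ≤ k → k ≤ n + j → k ∈ I) :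
    ∑ κ ∈ range (n + 1), P n κ * f (κ + j) = ∑ k ∈ I, P n (k - j) * f k := by
  classical
  have h1 : ∑ κ ∈ range (n + 1), P n κ * f (κ + j)
      = ∑ k ∈ (range (n + 1)).map ⟨fun κ : ℕ => (κ : ℤ) + j, fun a b h => by simpa using h⟩,
          P n (k - j) * f k := by
    rw [Finset.sum_map]
    refine Finset.sum_congr rfl fun κ _ => ?_
    simp
  rw [h1]
  refine Finset.sum_subset ?_ ?_
  · intro k hk
    rw [Finset.mem_map] at hk
    obtain ⟨κ, hκ, rfl⟩ := hk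
    rw [Finset.mem_range] at hκ
    refine hI _ ?_ ?_
    · simp
    · simp only [Function.Embedding.coeFn_mk]; omega
  · intro k _ hk
    have h0 : P n (k - j) = 0 := by
      refine hBB.2.1 n _ ?_
      by_contra hcon
      push Not at hcon
      apply hk
      rw [Finset.mem_map]
      refine ⟨(k - j).toNat, ?_, ?_⟩
      · rw [Finset.mem_range]; omega
      · simp only [Function.Embedding.coeFn_mk]; omega
    rw [h0, zero_mul]

theorem diff_le (A B f : ℤ → ℝ) (I : Finset ℤ) (hf : ∀ k ∈ I, |f k| ≤ 3) (D : ℝ)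
    (hD : ∑ k ∈ I, |A k - B k| ≤ D) :
    |∑ k ∈ I, A k * f k - ∑ k ∈ I, B k * f k| ≤ 3 * D := by
  rw [← Finset.sum_sub_distrib]
  calc |∑ k ∈ I, (A k * f k - B k * f k)| ≤ ∑ k ∈ I, |A k * f k - B k * f k| :=
        Finset.abs_sum_le_sum_abs _ _
    _ ≤ ∑ k ∈ I, 3 * |A k - B k| := by
        refine Finset.sum_le_sum fun k hk => ?_
        rw [← sub_mul, abs_mul, mul_comm]
        exact mul_le_mul_of_nonneg_right (hf k hk) (abs_nonneg _)
    _ = 3 * ∑ k ∈ I, |A k - B k| := by rw [Finset.mul_sum]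
    _ ≤ 3 * D := by linarith

/-- weighted mass of the window `[x, c x)` -/
noncomputable def Fm (S : Set ℤ) (s : ℤ) (c : ℝ) (r : ℕ) (x : ℝ) : ℝ :=
  mass s (fun M => fr r M * ind S M) x (c * x)

theorem Fm_le (hMP : StmtMassPer) (hKA : StmtKerAvg) (S : Set ℤ) (s : ℤ) (c : ℝ) (r : ℕ) (x : ℝ)
    (hs : s = 1 ∨ s = -1) (hc3 : c ≤ 3) (hx : (3 : ℝ) ^ (2 * r) ≤ x) :
    |Fm S s c r x| ≤ 3 := by
  have hx0 : 0 < x := lt_of_lt_of_le (by positivity) hx
  have h0 : 0 ≤ Fm S s c r x := mass_nonneg fun N => mul_nonneg (fr_nonneg r N) (ind_nonneg S N)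
  rw [abs_of_nonneg h0]
  have h1 : Fm S s c r x ≤ mass s (fr r) x (c * x) := by
    refine mass_mono fun N _ => ?_
    exact mul_le_of_le_one_right (fr_nonneg r N) (ind_le_one S N)
  have h2 := hMP.2 s (2 * r) (fr r) x (c * x) hs (fr_nonneg r) (fr_periodic r (2 * r) le_rfl) hx
    (by nlinarith)
  rw [hKA.2.1 (2 * r) r le_rfl] at h2
  linarith

theorem fr_zero (z : ℤ) : fr 0 z = 1 := by
  simp [fr, kerF]

theorem core (hII : StmtInvIter) {C u₀ : ℝ}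
    (hP : ∀ (s : ℤ) (t r r' : ℕ) (a b : ℝ) (ψ : ℤ → ℝ), (s = 1 ∨ s = -1) →
      (∀ z, 0 ≤ ψ z ∧ ψ z ≤ 1) → 0 < a → u₀ ≤ lg a → a ≤ b → b ≤ 3 * a → Good a t r r' →
      |mass s (fun M => fr r' M * ψ (T^[2 * t] M)) a b
        - ∑ κ ∈ range (2 * t + 1), P (2 * t) κ *
          mass s (fun M => fr r M * ψ M) (a * 3 ^ κ / 4 ^ t) (b * 3 ^ κ / 4 ^ t)|
        ≤ C / q4 (lg a))
    (S : Set ℤ) (A0 : ℝ) (s : ℤ) (c : ℝ) (t r : ℕ) (a : ℝ) (hs : s = 1 ∨ s = -1) (hInv : Inv S A0)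
    (hc1 : 1 ≤ c) (hc3 : c ≤ 3) (ha : 0 < a) (hu : u₀ ≤ lg a) (hG : Good a t r 0)
    (hA : A0 * 4 ^ t < a) :
    |mass s (ind S) a (c * a) - ∑ κ ∈ range (2 * t + 1), P (2 * t) κ * Fm S s c r (a * 3 ^ κ / 4 ^ t)|
      ≤ C / q4 (lg a) := by
  have h1 := hP s t r 0 a (c * a) (ind S) hs (fun z => ⟨ind_nonneg S z, ind_le_one S z⟩) ha hu
    (by nlinarith) (by nlinarith) hG
  have h2 : mass s (fun M => fr 0 M * ind S (T^[2 * t] M)) a (c * a) = mass s (ind S) a (c * a) := by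
    refine mass_congr fun N hN => ?_
    have h3 := (mem_W' hs ha hN).1
    have h4 := hII.1 S A0 t N hInv (lt_of_lt_of_le hA h3)
    simp only [fr_zero, one_mul]
    unfold ind
    by_cases h : N ∈ S
    · rw [if_pos (h4.2 h), if_pos h]
    · rw [if_neg (mt h4.1 h), if_neg h]
  have h5 : ∑ κ ∈ range (2 * t + 1), P (2 * t) κ *
          mass s (fun M => fr r M * ind S M) (a * 3 ^ κ / 4 ^ t) (c * a * 3 ^ κ / 4 ^ t)
      = ∑ κ ∈ range (2 * t + 1), P (2 * t) κ * Fm S s c r (a * 3 ^ κ / 4 ^ t) := by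
    refine Finset.sum_congr rfl fun κ _ => ?_
    unfold Fm
    rw [show c * (a * 3 ^ κ / 4 ^ t) = c * a * 3 ^ κ / 4 ^ t by ring]
  rw [h2, h5] at h1
  exact h1

theorem rpow_lg {a : ℝ} (ha : 0 < a) : (3 : ℝ) ^ (lg a) = a := by
  unfold lg
  have h3 : Real.log 3 ≠ 0 := (Real.log_pos (by norm_num)).ne'
  rw [Real.rpow_def_of_pos (by norm_num), mul_div_cancel₀ _ h3, Real.exp_log ha]

theorem lg_mul {a b : ℝ} (ha : 0 < a) (hb : 0 < b) : lg (a * b) = lg a + lg b := by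
  unfold lg
  rw [Real.log_mul ha.ne' hb.ne', add_div]

theorem lg_three : lg 3 = 1 := by
  unfold lg
  exact div_self (Real.log_pos (by norm_num)).ne'

theorem lg_four_thirds : 0 ≤ lg (4 / 3) ∧ lg (4 / 3) ≤ 1 := by
  have h3 : 0 < Real.log 3 := Real.log_pos (by norm_num)
  constructor
  · exact div_nonneg (Real.log_nonneg (by norm_num)) h3.le
  · unfold lg
    rw [div_le_one h3]
    exact Real.log_le_log (by norm_num) (by norm_num)

theorem four_pow_le {u : ℝ} {t : ℕ} (hu : 0 ≤ u) (ht : (t : ℝ) ≤ u / 4 + 1) :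
    (4 : ℝ) ^ t ≤ 4 * (3 : ℝ) ^ (u / 2) := by
  have h1 : (4 : ℝ) ^ t ≤ (4 : ℝ) ^ (u / 4 + 1) := by
    rw [← Real.rpow_natCast]
    exact Real.rpow_le_rpow_of_exponent_le (by norm_num) ht
  have h2 : (4 : ℝ) ^ (u / 4 + 1) = (4 : ℝ) ^ (u / 4) * 4 := Real.rpow_add_one (by norm_num) _
  have h3 : (4 : ℝ) ^ (u / 4) ≤ (9 : ℝ) ^ (u / 4) :=
    Real.rpow_le_rpow (by norm_num) (by norm_num) (by linarith)
  have h4 : (9 : ℝ) ^ (u / 4) = (3 : ℝ) ^ (u / 2) := by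
    rw [show (9 : ℝ) = (3 : ℝ) ^ (2 : ℝ) by norm_num, ← Real.rpow_mul (by norm_num)]
    congr 1; ring
  rw [h4] at h3
  linarith

theorem adm_le {u : ℝ} {r : ℕ} (hu : 64 ≤ u) (h : Adm u r) : 2 * (r : ℝ) + 3 ≤ u / 2 := by
  by_contra hcon
  push Not at hcon
  have h1 : u / 8 < r := by linarith
  have h2 : (u / 8) ^ 4 < (r : ℝ) ^ 4 := pow_lt_pow_left₀ h1 (by linarith) (by norm_num)
  have h3 := h.2
  have h4 : (8 : ℝ) ≤ u / 8 := by linarith
  have h5 : (8 : ℝ) ^ 3 ≤ (u / 8) ^ 3 := pow_le_pow_left₀ (by norm_num) h4 3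
  have h6 : (u / 8) ^ 4 = (u / 8) * (u / 8) ^ 3 := by ring
  have h7 : (u / 8) * 8 ^ 3 ≤ (u / 8) * (u / 8) ^ 3 := mul_le_mul_of_nonneg_left h5 (by linarith)
  linarith

/-- the numerical conditions -/
theorem big {a A0 : ℝ} {t r : ℕ} (ha : 0 < a) (hu : 64 ≤ lg a) (ht : (t : ℝ) ≤ lg a / 4 + 1)
    (hA0 : 1 ≤ A0) (hA : 12 * A0 < (3 : ℝ) ^ (lg a / 2)) (hr : Adm (lg a) r) :
    3 * (A0 * 4 ^ t) < a ∧ (3 : ℝ) ^ (2 * r) * 3 * 4 ^ t ≤ a := by
  have h4 := four_pow_le (by linarith) ht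
  have hy : 0 < (3 : ℝ) ^ (lg a / 2) := Real.rpow_pos_of_pos (by norm_num) _
  have hsq : (3 : ℝ) ^ (lg a / 2) * (3 : ℝ) ^ (lg a / 2) = a := by
    rw [← Real.rpow_add (by norm_num), add_halves, rpow_lg ha]
  constructor
  · calc 3 * (A0 * 4 ^ t) ≤ 3 * (A0 * (4 * (3 : ℝ) ^ (lg a / 2))) := by gcongr
      _ = (12 * A0) * (3 : ℝ) ^ (lg a / 2) := by ring
      _ < (3 : ℝ) ^ (lg a / 2) * (3 : ℝ) ^ (lg a / 2) := mul_lt_mul_of_pos_right hA hy
      _ = a := hsq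
  · have h1 : (3 : ℝ) ^ (2 * r) * 27 ≤ (3 : ℝ) ^ (lg a / 2) := by
      have e : (3 : ℝ) ^ (2 * r) * 27 = (3 : ℝ) ^ (((2 * r + 3 : ℕ) : ℝ)) := by
        rw [Real.rpow_natCast, pow_add]; norm_num
      rw [e]
      refine Real.rpow_le_rpow_of_exponent_le (by norm_num) ?_
      push_cast
      exact adm_le hu hr
    calc (3 : ℝ) ^ (2 * r) * 3 * 4 ^ t ≤ (3 : ℝ) ^ (2 * r) * 3 * (4 * (3 : ℝ) ^ (lg a / 2)) := by
          gcongr
      _ = ((3 : ℝ) ^ (2 * r) * 12) * (3 : ℝ) ^ (lg a / 2) := by ring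
      _ ≤ (3 : ℝ) ^ (lg a / 2) * (3 : ℝ) ^ (lg a / 2) := by
          refine mul_le_mul_of_nonneg_right ?_ hy.le
          have : (0 : ℝ) < (3 : ℝ) ^ (2 * r) := by positivity
          linarith
      _ = a := hsq

theorem q4_mono {u v : ℝ} (h : u ≤ v) : q4 u ≤ q4 v :=
  Real.sqrt_le_sqrt (Real.sqrt_le_sqrt h)

theorem q4_pos {u : ℝ} (h : 0 < u) : 0 < q4 u := Real.sqrt_pos.2 (Real.sqrt_pos.2 h)

theorem zp_eq (a : ℝ) (κ : ℕ) (j : ℤ) (t : ℕ) :
    a * (3 : ℝ) ^ ((κ : ℤ) + j) / 4 ^ t = a * (3 : ℝ) ^ j * 3 ^ κ / 4 ^ t := by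
  rw [zpow_add₀ (by norm_num), zpow_natCast]; ring

theorem bound (hBinBasic : StmtBinBasic) (hBinShift : StmtBinShift) (hInvIter : StmtInvIter)
    (hKerAvg : StmtKerAvg) (hMassPer : StmtMassPer) {C u₀ : ℝ} (hC : 0 < C)
    (hP : ∀ (s : ℤ) (t r r' : ℕ) (a b : ℝ) (ψ : ℤ → ℝ), (s = 1 ∨ s = -1) →
      (∀ z, 0 ≤ ψ z ∧ ψ z ≤ 1) → 0 < a → u₀ ≤ lg a → a ≤ b → b ≤ 3 * a → Good a t r r' →
      |mass s (fun M => fr r' M * ψ (T^[2 * t] M)) a b
        - ∑ κ ∈ range (2 * t + 1), P (2 * t) κ *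
          mass s (fun M => fr r M * ψ M) (a * 3 ^ κ / 4 ^ t) (b * 3 ^ κ / 4 ^ t)|
        ≤ C / q4 (lg a))
    {u₁ : ℝ} (hAE : ∀ u : ℝ, u₁ ≤ u → ∃ r : ℕ, 1 ≤ r ∧ ∀ u' : ℝ, u / 4 ≤ u' → u' ≤ 2 * u → Adm u' r)
    (S : Set ℤ) (A0 : ℝ) (s : ℤ) (c : ℝ) (a : ℝ) (hs : s = 1 ∨ s = -1) (hInv : Inv S A0)
    (hA0 : 1 ≤ A0) (hc1 : 1 ≤ c) (hc3 : c ≤ 3) (ha : 0 < a) (hu0 : u₀ ≤ lg a) (hu1 : u₁ ≤ lg a)
    (hu : 64 ≤ lg a) (hA : 12 * A0 < (3 : ℝ) ^ (lg a / 2)) :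
    |mass s (ind S) (3 * a) (c * (3 * a)) - mass s (ind S) a (c * a)|
        ≤ 2 * (C / q4 (lg a)) + 3 * (2 / Real.sqrt (lg a / 2)) + 3 * (2 / (lg a / 2)) ∧
    |mass s (ind S) (4 / 3 * a) (c * (4 / 3 * a)) - mass s (ind S) a (c * a)|
        ≤ 2 * (C / q4 (lg a)) + 3 * (2 / Real.sqrt (lg a / 2)) + 3 * (2 / (lg a / 2)) := by
  obtain ⟨r, _, hr⟩ := hAE (lg a) hu1
  set u := lg a with hudef
  set t : ℕ := ⌈u / 4⌉₊ with htdef
  have ht1 : u / 4 ≤ (t : ℝ) := Nat.le_ceil _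
  have ht2 : (t : ℝ) ≤ u / 4 + 1 := (Nat.ceil_lt_add_one (by linarith)).le
  have hru : Adm u r := hr u (by linarith) (by linarith)
  obtain ⟨hb1, hb2⟩ := big (A0 := A0) (t := t) (r := r) ha hu ht2 hA0 hA hru
  have h4t : (0 : ℝ) < 4 ^ t := by positivity
  -- the function on the integers
  set f : ℤ → ℝ := fun k => Fm S s c r (a * (3 : ℝ) ^ k / 4 ^ t) with hf
  set I : Finset ℤ := Finset.Icc (-1) (2 * (t : ℤ) + 1) with hI
  have hfI : ∀ k ∈ I, |f k| ≤ 3 := by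
    intro k hk
    rw [hI, Finset.mem_Icc] at hk
    refine Fm_le hMassPer hKerAvg S s c r _ hs hc3 ?_
    rw [le_div_iff₀ h4t]
    have h1 : (3 : ℝ) ^ (-1 : ℤ) ≤ (3 : ℝ) ^ k := zpow_le_zpow_right₀ (by norm_num) hk.1
    have h2 : (3 : ℝ) ^ (2 * r) * 4 ^ t ≤ a * (3 : ℝ) ^ (-1 : ℤ) := by
      rw [zpow_neg_one]
      have : (3 : ℝ) ^ (2 * r) * 4 ^ t = ((3 : ℝ) ^ (2 * r) * 3 * 4 ^ t) * 3⁻¹ := by ring
      rw [this]
      exact mul_le_mul_of_nonneg_right hb2 (by norm_num)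
    exact h2.trans (mul_le_mul_of_nonneg_left h1 ha.le)
  -- the three core estimates
  have c1 := core hInvIter hP S A0 s c t r a hs hInv hc1 hc3 ha hu0
    ⟨by linarith, by linarith, hru, Or.inl rfl⟩ (by nlinarith [mul_pos (lt_of_lt_of_le one_pos hA0) h4t])
  have hl3 : lg (3 * a) = u + 1 := by rw [lg_mul (by norm_num) ha, lg_three]; ring
  have c2 := core hInvIter hP S A0 s c t r (3 * a) hs hInv hc1 hc3 (by linarith) (by linarith)
    ⟨by rw [hl3]; linarith, by rw [hl3]; linarith, by rw [hl3]; exact hr _ (by linarith) (by linarith),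
      Or.inl rfl⟩ (by nlinarith [mul_pos (lt_of_lt_of_le one_pos hA0) h4t])
  obtain ⟨hd0, hd1⟩ := lg_four_thirds
  have hl4 : lg (4 / 3 * a) = u + lg (4 / 3) := by rw [lg_mul (by norm_num) ha]; ring
  have c3 := core hInvIter hP S A0 s c (t + 1) r (4 / 3 * a) hs hInv hc1 hc3 (by linarith)
    (by linarith)
    ⟨by rw [hl4]; push_cast; linarith, by rw [hl4]; push_cast; linarith,
      by rw [hl4]; exact hr _ (by linarith) (by linarith), Or.inl rfl⟩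
    (by rw [pow_succ]; nlinarith [mul_pos (lt_of_lt_of_le one_pos hA0) h4t])
  -- main terms
  have m1 : ∑ κ ∈ range (2 * t + 1), P (2 * t) κ * Fm S s c r (a * 3 ^ κ / 4 ^ t)
      = ∑ k ∈ I, P (2 * t) (k - 0) * f k := by
    rw [← sumZ hBinBasic (2 * t) 0 f I (by
      intro k h1 h2; rw [hI, Finset.mem_Icc]; push_cast at h2; omega)]
    refine Finset.sum_congr rfl fun κ _ => ?_
    rw [hf]; simp only
    rw [zp_eq, zpow_zero, mul_one]
  have m2 : ∑ κ ∈ range (2 * t + 1), P (2 * t) κ * Fm S s c r (3 * a * 3 ^ κ / 4 ^ t)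
      = ∑ k ∈ I, P (2 * t) (k - 1) * f k := by
    rw [← sumZ hBinBasic (2 * t) 1 f I (by
      intro k h1 h2; rw [hI, Finset.mem_Icc]; push_cast at h2; omega)]
    refine Finset.sum_congr rfl fun κ _ => ?_
    rw [hf]; simp only
    rw [zp_eq, zpow_one, mul_comm a 3]
  have m3 : ∑ κ ∈ range (2 * (t + 1) + 1), P (2 * (t + 1)) κ *
        Fm S s c r (4 / 3 * a * 3 ^ κ / 4 ^ (t + 1))
      = ∑ k ∈ I, P (2 * (t + 1)) (k - (-1)) * f k := by
    rw [← sumZ hBinBasic (2 * (t + 1)) (-1) f I (by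
      intro k h1 h2; rw [hI, Finset.mem_Icc]; push_cast at h2; omega)]
    refine Finset.sum_congr rfl fun κ _ => ?_
    rw [hf]; simp only
    rw [zp_eq, zpow_neg_one, pow_succ]
    congr 2
    field_simp
  rw [m1] at c1
  rw [m2] at c2
  rw [m3] at c3
  have hq : 0 < q4 u := q4_pos (by linarith)
  have hq2 : C / q4 (lg (3 * a)) ≤ C / q4 u :=
    div_le_div_of_nonneg_left hC.le hq (q4_mono (by linarith))
  have hq3 : C / q4 (lg (4 / 3 * a)) ≤ C / q4 u :=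
    div_le_div_of_nonneg_left hC.le hq (q4_mono (by linarith))
  have hsq : 0 < Real.sqrt (u / 2) := Real.sqrt_pos.2 (by linarith)
  have hn1 : 0 ≤ 3 * (2 / Real.sqrt (u / 2)) := by positivity
  have hn2 : 0 ≤ 3 * (2 / (u / 2)) := by
    have : 0 < u / 2 := by linarith
    positivity
  constructor
  · have d := diff_le (fun k => P (2 * t) (k - 1)) (fun k => P (2 * t) (k - 0)) f I hfI
      (2 / Real.sqrt (u / 2)) (by
        have h1 := hBinShift.1 (2 * t) 1 I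
        have h2 : ∑ k ∈ I, |P (2 * t) (k - 1) - P (2 * t) (k - 0)|
            = ∑ k ∈ I, |P (2 * t) k - P (2 * t) (k - 1)| := by
          refine Finset.sum_congr rfl fun k _ => ?_
          rw [sub_zero, abs_sub_comm]
        rw [h2]
        refine h1.trans ?_
        push_cast
        rw [abs_one, one_mul]
        refine div_le_div_of_nonneg_left (by norm_num) hsq (Real.sqrt_le_sqrt ?_)
        linarith)
    rw [abs_le] at c1 c2 d ⊢
    constructor <;> linarith [c1.1, c1.2, c2.1, c2.2, d.1, d.2]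
  · have d := diff_le (fun k => P (2 * (t + 1)) (k - (-1))) (fun k => P (2 * t) (k - 0)) f I hfI
      (2 / (u / 2)) (by
        have h1 := hBinShift.2.2.1 t 1 I
        have h2 : ∑ k ∈ I, |P (2 * (t + 1)) (k - (-1)) - P (2 * t) (k - 0)|
            = ∑ k ∈ I, |P (2 * t) k - P (2 * (t + 1)) (k + ((1 : ℕ) : ℤ))| := by
          refine Finset.sum_congr rfl fun k _ => ?_
          rw [sub_zero, abs_sub_comm, sub_neg_eq_add]
          rfl
        rw [h2]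
        refine h1.trans ?_
        push_cast
        rw [mul_one]
        exact div_le_div_of_nonneg_left (by norm_num) (by linarith) (by linarith))
    rw [abs_le] at c1 c3 d ⊢
    constructor <;> linarith [c1.1, c1.2, c3.1, c3.2, d.1, d.2]

theorem tendsto_lg : Tendsto lg atTop atTop := by
  unfold lg
  exact Real.tendsto_log_atTop.atTop_div_const (Real.log_pos (by norm_num))

theorem tendsto_bound (C : ℝ) :
    Tendsto (fun a : ℝ => 2 * (C / q4 (lg a)) + 3 * (2 / Real.sqrt (lg a / 2)) + 3 * (2 / (lg a / 2)))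
      atTop (𝓝 0) := by
  have h1 : Tendsto (fun a : ℝ => q4 (lg a)) atTop atTop :=
    Real.tendsto_sqrt_atTop.comp (Real.tendsto_sqrt_atTop.comp tendsto_lg)
  have h2 : Tendsto (fun a : ℝ => lg a / 2) atTop atTop := tendsto_lg.atTop_div_const (by norm_num)
  have h3 : Tendsto (fun a : ℝ => Real.sqrt (lg a / 2)) atTop atTop :=
    Real.tendsto_sqrt_atTop.comp h2
  have e1 := (h1.const_div_atTop C).const_mul 2
  have e2 := (h3.const_div_atTop 2).const_mul 3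
  have e3 := (h2.const_div_atTop 2).const_mul 3
  have := (e1.add e2).add e3
  simpa using this

end SubWinaux

open SubWinaux in
theorem stmtSubWin (hBinBasic : StmtBinBasic) (hBinDiff : StmtBinDiff) (hBinShift : StmtBinShift) (hInvIter : StmtInvIter) (hKerAvg : StmtKerAvg) (hMassPer : StmtMassPer) (hPFa : StmtPFa) (hAdmEx : StmtAdmEx) : StmtSubWin := by
  obtain ⟨C, u₀, hC, _, hP⟩ := hPFa
  obtain ⟨u₁, _, hAE⟩ := hAdmEx
  intro S A0 s c hs hInv hA0 hc1 hc3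
  have hev : ∀ᶠ a : ℝ in atTop, 0 < a ∧ u₀ ≤ lg a ∧ u₁ ≤ lg a ∧ 64 ≤ lg a ∧
      12 * A0 < (3 : ℝ) ^ (lg a / 2) := by
    have h2 : Tendsto (fun a : ℝ => lg a / 2) atTop atTop :=
      tendsto_lg.atTop_div_const (by norm_num)
    have h3 : Tendsto (fun a : ℝ => (3 : ℝ) ^ (lg a / 2)) atTop atTop := by
      have : Tendsto (fun x : ℝ => (3 : ℝ) ^ x) atTop atTop :=
        tendsto_rpow_atTop_of_base_gt_one 3 (by norm_num)
      exact this.comp h2
    filter_upwards [eventually_gt_atTop (0 : ℝ), tendsto_lg.eventually_ge_atTop u₀,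
      tendsto_lg.eventually_ge_atTop u₁, tendsto_lg.eventually_ge_atTop 64,
      h3.eventually_gt_atTop (12 * A0)] with a h1 h2 h3 h4 h5
    exact ⟨h1, h2, h3, h4, h5⟩
  constructor
  · refine squeeze_zero_norm' ?_ (tendsto_bound C)
    filter_upwards [hev] with a ⟨h1, h2, h3, h4, h5⟩
    exact (bound hBinBasic hBinShift hInvIter hKerAvg hMassPer hC hP hAE S A0 s c a hs hInv hA0
      hc1 hc3 h1 h2 h3 h4 h5).1
  · refine squeeze_zero_norm' ?_ (tendsto_bound C)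
    filter_upwards [hev] with a ⟨h1, h2, h3, h4, h5⟩
    exact (bound hBinBasic hBinShift hInvIter hKerAvg hMassPer hC hP hAE S A0 s c a hs hInv hA0
      hc1 hc3 h1 h2 h3 h4 h5).2

end Pool.Agent.Clz
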