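import Pool.Agent.Lib.MP_5a39b1_nt.Clz.Spec4

/-!
MP_5a39b1_nt, module Up: propagation of a lower bound to larger scales. See the docstring of `StmtUp` in `Spec4.lean` for the proof.
-/

set_option autoImplicit false

namespace Pool.Agent.Clz

open Finset

namespace Upaux

theorem log3_pos : 0 < Real.log 3 := Real.log_pos (by norm_num)

/-- `lg 4` -/
noncomputable def L4 : ℝ := Real.log 4 / Real.log 3

theorem L4_le : L4 ≤ 13 / 10 := by
  have h : Real.log ((4 : ℝ) ^ 10) ≤ Real.log ((3 : ℝ) ^ 13) :=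
    Real.log_le_log (by norm_num) (by norm_num)
  rw [Real.log_pow, Real.log_pow] at h
  push_cast at h
  unfold L4
  rw [div_le_iff₀ log3_pos]
  linarith

theorem L4_ge : 5 / 4 ≤ L4 := by
  have h : Real.log ((3 : ℝ) ^ 5) ≤ Real.log ((4 : ℝ) ^ 4) :=
    Real.log_le_log (by norm_num) (by norm_num)
  rw [Real.log_pow, Real.log_pow] at h
  push_cast at h
  unfold L4
  rw [le_div_iff₀ log3_pos]
  linarith

theorem lg_kappa {a : ℝ} (ha : 0 < a) (t κ : ℕ) :
    lg (a * 3 ^ κ / 4 ^ t) = lg a + κ - t * L4 := by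
  unfold lg L4
  rw [Real.log_div (by positivity) (by positivity), Real.log_mul (by positivity)
    (by positivity), Real.log_pow, Real.log_pow]
  have := log3_pos.ne'
  field_simp

theorem q4_pos {u : ℝ} (h : 0 < u) : 0 < q4 u := by
  unfold q4
  apply Real.sqrt_pos.2
  apply Real.sqrt_pos.2
  exact h

theorem q4_mono {u v : ℝ} (h : u ≤ v) : q4 u ≤ q4 v := by
  unfold q4
  exact Real.sqrt_le_sqrt (Real.sqrt_le_sqrt h)

theorem q4_shrink {u : ℝ} (h : 0 ≤ u) : q4 (96 / 100 * u) ≤ 99 / 100 * q4 u := by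
  unfold q4
  have e : 99 / 100 * Real.sqrt (Real.sqrt u) = Real.sqrt (Real.sqrt ((99 / 100) ^ 4 * u)) := by
    rw [Real.sqrt_mul (by positivity), show ((99 / 100 : ℝ) ^ 4) = ((99 / 100) ^ 2) ^ 2 by ring,
      Real.sqrt_sq (by positivity), Real.sqrt_mul (by positivity), Real.sqrt_sq (by positivity)]
  rw [e]
  apply Real.sqrt_le_sqrt
  apply Real.sqrt_le_sqrt
  apply mul_le_mul_of_nonneg_right _ h
  norm_num

theorem q4_le {u : ℝ} (h : 1 ≤ u) : q4 u ≤ u := by
  unfold q4
  have h1 : Real.sqrt u ≤ u := by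
    rw [Real.sqrt_le_left (by linarith)]
    nlinarith
  have h0 : 1 ≤ Real.sqrt u := by
    rw [Real.one_le_sqrt]
    exact h
  have h2 : Real.sqrt (Real.sqrt u) ≤ Real.sqrt u := by
    rw [Real.sqrt_le_left (by linarith)]
    nlinarith
  linarith

end Upaux

open Upaux in
theorem stmtUp (hBinBasic : StmtBinBasic) (hBinShift : StmtBinShift) (hInvIter : StmtInvIter) (hPFa : StmtPFa) (hAdmEx : StmtAdmEx) : StmtUp := by
  obtain ⟨C1, u1, hC1, hu1, hPF⟩ := hPFa
  obtain ⟨u2, hu2, hAdm⟩ := hAdmEx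
  have hnn := hBinBasic.1
  have hmass := hBinBasic.2.2.2.2.1
  have hcheb := hBinShift.2.2.2.2
  have hL1 := L4_le
  have hL2 := L4_ge
  set K : ℝ := 100 * (C1 + 3750) with hK
  have hKpos : 0 < K := by positivity
  refine ⟨K, max u1 (max u2 100), hKpos, le_max_of_le_left hu1, ?_⟩
  intro S s v c₀ hs hPre hv hc0 hc3 H
  have k1 : u1 ≤ v := (le_max_left _ _).trans hv
  have k2 : u2 ≤ v := ((le_max_left _ _).trans (le_max_right _ _)).trans hv
  have k3 : 100 ≤ v := ((le_max_right _ _).trans (le_max_right _ _)).trans hv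
  have hqv : 0 < q4 v := q4_pos (by linarith)
  have claim : ∀ n : ℕ, ∀ (a' : ℝ) (r' : ℕ), 0 < a' → 1.05 * v ≤ lg a' →
      lg a' ≤ 1.15 * v * 1.01 ^ n → (r' = 0 ∨ Adm (lg a') r') →
      c₀ - K * (1 / q4 v - 1 / q4 (lg a')) ≤ mass s (fun M => fr r' M * ind S M) a' (3 * a') := by
    intro n
    induction n with
    | zero =>
      intro a' r' ha' h1 h2 h3
      rw [pow_zero, mul_one] at h2
      refine le_trans ?_ (H a' r' ha' h1 h2 h3)
      have h4 : 1 / q4 (lg a') ≤ 1 / q4 v := one_div_le_one_div_of_le hqv (q4_mono (by linarith))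
      have h5 : 0 ≤ K * (1 / q4 v - 1 / q4 (lg a')) := mul_nonneg hKpos.le (by linarith)
      linarith
    | succ n ih =>
      intro a' r' ha' h1 h2 h3
      by_cases hsm : lg a' ≤ 1.15 * v * 1.01 ^ n
      · exact ih a' r' ha' h1 hsm h3
      push Not at hsm
      set u := lg a' with hu
      have hpow1 : (1 : ℝ) ≤ 1.01 ^ n := one_le_pow₀ (by norm_num)
      have hu115 : 1.15 * v ≤ u := by
        have : 1.15 * v * 1 ≤ 1.15 * v * 1.01 ^ n :=
          mul_le_mul_of_nonneg_left hpow1 (by linarith)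
        linarith
      have hu100 : 100 ≤ u := by linarith
      have hqu : 0 < q4 u := q4_pos (by linarith)
      obtain ⟨r, hr1, hr⟩ := hAdm u (by linarith)
      -- the time
      have hc1 : 1 / 4 ≤ L4 - 1 := by linarith
      have hc2 : L4 - 1 ≤ 3 / 10 := by linarith
      have hcpos : 0 < L4 - 1 := by linarith
      obtain ⟨t, ht1, ht2⟩ : ∃ t : ℕ, 0.05 * u ≤ (L4 - 1) * t ∧ (L4 - 1) * t ≤ 0.05 * u + 3 / 10 := by
        refine ⟨⌈0.05 * u / (L4 - 1)⌉₊, ?_, ?_⟩
        · have := Nat.le_ceil (0.05 * u / (L4 - 1))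
          rw [div_le_iff₀ hcpos] at this
          linarith
        · have := Nat.ceil_lt_add_one (a := 0.05 * u / (L4 - 1)) (by positivity)
          have h5 : (L4 - 1) * (⌈0.05 * u / (L4 - 1)⌉₊ : ℝ) ≤ (L4 - 1) * (0.05 * u / (L4 - 1) + 1) :=
            mul_le_mul_of_nonneg_left this.le hcpos.le
          have h6 : (L4 - 1) * (0.05 * u / (L4 - 1) + 1) = 0.05 * u + (L4 - 1) := by
            field_simp
          linarith
      have ht0 : (0 : ℝ) ≤ t := by positivity
      have ht4 : (t : ℝ) ≤ u / 4 := by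
        have h5 : 1 / 4 * (t : ℝ) ≤ (L4 - 1) * t := mul_le_mul_of_nonneg_right hc1 ht0
        linarith
      have ht20 : u ≤ 20 * t := by
        have h5 : (L4 - 1) * (t : ℝ) ≤ 3 / 10 * t := mul_le_mul_of_nonneg_right hc2 ht0
        linarith
      have hPF1 := hPF s t r r' a' (3 * a') (ind S) hs (fun z => ⟨ind_nonneg S z, ind_le_one S z⟩)
        ha' (by linarith) (by linarith) le_rfl
        ⟨ht20, by linarith, hr u (by linarith) (by linarith), h3⟩
      rw [← hu] at hPF1
      have hge : mass s (fun M => fr r' M * ind S (T^[2 * t] M)) a' (3 * a') ≤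
          mass s (fun M => fr r' M * ind S M) a' (3 * a') := by
        apply mass_mono
        intro M _
        apply mul_le_mul_of_nonneg_left _ (fr_nonneg r' M)
        unfold ind
        by_cases hT : T^[2 * t] M ∈ S
        · rw [if_pos hT, if_pos (hInvIter.2 S (2 * t) M hPre hT)]
        · rw [if_neg hT]
          split_ifs <;> norm_num
      -- the windows
      set B : ℝ := c₀ - K * (1 / q4 v - 1 / q4 (96 / 100 * u)) with hB
      have hB3 : B ≤ 3 := by
        have h4 : 1 / q4 (96 / 100 * u) ≤ 1 / q4 v :=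
          one_div_le_one_div_of_le hqv (q4_mono (by linarith))
        have h5 : 0 ≤ K * (1 / q4 v - 1 / q4 (96 / 100 * u)) := mul_nonneg hKpos.le (by linarith)
        linarith
      have hkey : ∀ κ ∈ range (2 * t + 1),
          B - (if 2 / 100 * u ≤ |2 * (κ : ℝ) - ((2 * t : ℕ) : ℝ)| then 3 else 0) ≤
          mass s (fun M => fr r M * ind S M) (a' * 3 ^ κ / 4 ^ t) (3 * a' * 3 ^ κ / 4 ^ t) := by
        intro κ _
        have e3 : 3 * a' * 3 ^ κ / 4 ^ t = 3 * (a' * 3 ^ κ / 4 ^ t) := by ring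
        rw [e3]
        by_cases hbad : 2 / 100 * u ≤ |2 * (κ : ℝ) - ((2 * t : ℕ) : ℝ)|
        · rw [if_pos hbad]
          have : 0 ≤ mass s (fun M => fr r M * ind S M) (a' * 3 ^ κ / 4 ^ t)
              (3 * (a' * 3 ^ κ / 4 ^ t)) :=
            mass_nonneg fun N => mul_nonneg (fr_nonneg r N) (ind_nonneg S N)
          linarith
        · rw [if_neg hbad, sub_zero]
          push Not at hbad
          rw [abs_lt] at hbad
          obtain ⟨b1, b2⟩ := hbad
          push_cast at b1 b2
          have hlg := lg_kappa ha' t κ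
          rw [← hu] at hlg
          have hlow : 94 / 100 * u - 3 / 10 ≤ lg (a' * 3 ^ κ / 4 ^ t) := by
            rw [hlg]
            linarith
          have hup : lg (a' * 3 ^ κ / 4 ^ t) ≤ 96 / 100 * u := by
            rw [hlg]
            linarith
          have hup2 : lg (a' * 3 ^ κ / 4 ^ t) ≤ 1.15 * v * 1.01 ^ n := by
            refine hup.trans ?_
            have h6 : 96 / 100 * u ≤ 96 / 100 * (1.15 * v * 1.01 ^ (n + 1)) :=
              mul_le_mul_of_nonneg_left h2 (by norm_num)
            have h7 : 96 / 100 * (1.15 * v * 1.01 ^ (n + 1)) =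
                (96 / 100 * 1.01) * (1.15 * v * 1.01 ^ n) := by
              rw [pow_succ]
              ring
            have h8 : (96 / 100 * 1.01) * (1.15 * v * 1.01 ^ n) ≤ 1 * (1.15 * v * 1.01 ^ n) :=
              mul_le_mul_of_nonneg_right (by norm_num) (by positivity)
            linarith
          have h9 := ih (a' * 3 ^ κ / 4 ^ t) r (by positivity) (by linarith) hup2
            (Or.inr (hr _ (by linarith) (by linarith)))
          refine le_trans ?_ h9
          have h10 : 1 / q4 (96 / 100 * u) ≤ 1 / q4 (lg (a' * 3 ^ κ / 4 ^ t)) :=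
            one_div_le_one_div_of_le (q4_pos (by linarith)) (q4_mono hup)
          have h11 : K * (1 / q4 (96 / 100 * u)) ≤ K * (1 / q4 (lg (a' * 3 ^ κ / 4 ^ t))) :=
            mul_le_mul_of_nonneg_left h10 hKpos.le
          rw [hB]
          linarith
      have hsum : B - 3750 / u ≤ ∑ κ ∈ range (2 * t + 1), P (2 * t) κ *
          mass s (fun M => fr r M * ind S M) (a' * 3 ^ κ / 4 ^ t) (3 * a' * 3 ^ κ / 4 ^ t) := by
        have h6 : ∑ κ ∈ range (2 * t + 1), P (2 * t) κ *
            (B - (if 2 / 100 * u ≤ |2 * (κ : ℝ) - ((2 * t : ℕ) : ℝ)| then 3 else 0)) ≤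
            ∑ κ ∈ range (2 * t + 1), P (2 * t) κ *
            mass s (fun M => fr r M * ind S M) (a' * 3 ^ κ / 4 ^ t) (3 * a' * 3 ^ κ / 4 ^ t) :=
          Finset.sum_le_sum fun κ hκ => mul_le_mul_of_nonneg_left (hkey κ hκ) (hnn _ _)
        refine le_trans ?_ h6
        have h7 : ∀ κ ∈ range (2 * t + 1), P (2 * t) κ *
            (B - (if 2 / 100 * u ≤ |2 * (κ : ℝ) - ((2 * t : ℕ) : ℝ)| then 3 else 0)) =
            P (2 * t) κ * B - 3 * (if 2 / 100 * u ≤ |2 * (κ : ℝ) - ((2 * t : ℕ) : ℝ)| then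
              P (2 * t) κ else 0) := by
          intro κ _
          split_ifs <;> ring
        rw [Finset.sum_congr rfl h7, Finset.sum_sub_distrib, ← Finset.sum_mul, ← Finset.mul_sum,
          hmass (2 * t), one_mul, ← Finset.sum_filter]
        have h8 := hcheb (2 * t) (2 / 100 * u) (by linarith)
        have h9 : (((2 * t : ℕ) : ℝ)) / (2 / 100 * u) ^ 2 ≤ 1250 / u := by
          rw [div_le_div_iff₀ (by positivity) (by linarith)]
          push_cast
          have h5 : (t : ℝ) * u ≤ u / 4 * u := mul_le_mul_of_nonneg_right ht4 (by linarith)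
          nlinarith
        have h10 : 3750 / u = 3 * (1250 / u) := by ring
        rw [h10]
        linarith [h8.trans h9]
      have hlowB : c₀ - K * (1 / q4 v - 1 / q4 u) ≤ B - 3750 / u - C1 / q4 u := by
        have h4 : 101 / 100 * (1 / q4 u) ≤ 1 / q4 (96 / 100 * u) := by
          have h5 := q4_shrink (u := u) (by linarith)
          have h6 : 1 / (99 / 100 * q4 u) ≤ 1 / q4 (96 / 100 * u) :=
            one_div_le_one_div_of_le (q4_pos (by linarith)) h5
          refine le_trans ?_ h6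
          rw [← div_eq_mul_one_div, div_le_div_iff₀ hqu (by positivity)]
          nlinarith
        have h5 : 3750 / u ≤ 3750 * (1 / q4 u) := by
          rw [mul_one_div]
          exact div_le_div_of_nonneg_left (by norm_num) hqu (q4_le (by linarith))
        have h6 : K * (101 / 100 * (1 / q4 u)) ≤ K * (1 / q4 (96 / 100 * u)) :=
          mul_le_mul_of_nonneg_left h4 hKpos.le
        have h7 : C1 / q4 u = C1 * (1 / q4 u) := div_eq_mul_one_div _ _
        have h8 : K * (1 / 100 * (1 / q4 u)) = (C1 + 3750) * (1 / q4 u) := by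
          rw [hK]
          ring
        rw [hB, h7]
        linarith
      have hfin := (abs_le.1 hPF1).1
      linarith
  intro a' r' ha' h1 h3
  obtain ⟨n, hn⟩ := pow_unbounded_of_one_lt (lg a') (show (1 : ℝ) < 1.01 by norm_num)
  have h2 : lg a' ≤ 1.15 * v * 1.01 ^ n := by
    have h4 : 1 * (1.01 : ℝ) ^ n ≤ 1.15 * v * 1.01 ^ n :=
      mul_le_mul_of_nonneg_right (by linarith) (by positivity)
    linarith
  refine le_trans ?_ (claim n a' r' ha' h1 h2 h3)
  have h5 : 0 ≤ K * (1 / q4 (lg a')) := by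
    have := q4_pos (u := lg a') (by linarith)
    positivity
  have h6 : K / q4 v = K * (1 / q4 v) := div_eq_mul_one_div _ _
  rw [h6]
  linarith

end Pool.Agent.Clz
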