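import Pool.Agent.Lib.MP_5a39b1_nt.Clz.Spec3

/-!
MP_5a39b1_nt, module WinConv: masses of windows of ratio 3^(1/k). See the docstring of `StmtWinConv` in `Spec3.lean` for the proof.
-/

set_option autoImplicit false

namespace Pool.Agent.Clz

open Finset Filter Topology

namespace WinConvaux

lemma mass_ind_le (hMassPer : StmtMassPer) (S : Set ℤ) {s : ℤ} (hs : s = 1 ∨ s = -1) {x l : ℝ}
    (hx : 0 < x) (hl : 1 ≤ l) : mass s (ind S) x (l * x) ≤ Real.log l + 1 / x := by
  have h1 := hMassPer.1 s 0 (fun _ => (1 : ℝ)) x (l * x) hs (fun _ => zero_le_one) (fun _ => rfl) hx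
    (by nlinarith)
  rw [avg_const, one_mul, one_mul, pow_zero, mul_div_assoc, div_self hx.ne', mul_one] at h1
  have h2 : mass s (ind S) x (l * x) ≤ mass s (fun _ => (1 : ℝ)) x (l * x) :=
    mass_mono fun N _ => ind_le_one S N
  have h3 := (abs_le.1 h1).2
  linarith

lemma mass_pow {s : ℤ} (hs : s = 1 ∨ s = -1) (φ : ℤ → ℝ) {a c : ℝ} (ha : 0 < a) (hc : 1 ≤ c) (m : ℕ) :
    mass s φ a (c ^ m * a) = ∑ j ∈ range m, mass s φ (c ^ j * a) (c * (c ^ j * a)) := by
  induction m with
  | zero => simp [mass_empty]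
  | succ m ih =>
    rw [Finset.sum_range_succ, ← ih]
    have h1 : a ≤ c ^ m * a := le_mul_of_one_le_left ha.le (one_le_pow₀ hc)
    have h2 : c ^ m * a ≤ c * (c ^ m * a) := le_mul_of_one_le_left (by positivity) hc
    rw [mass_add hs φ ha h1 h2, pow_succ]
    congr 1
    ring

end WinConvaux

open WinConvaux in
theorem stmtWinConv (hMassPer : StmtMassPer) (hSubWin : StmtSubWin) (hScaleInv : StmtScaleInv) : StmtWinConv := by
  intro S A0 s ℓ k hs hInv hA0 hk hlim
  set c : ℝ := (3 : ℝ) ^ (1 / (k : ℝ)) with hc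
  have hk0 : (0 : ℝ) < k := by exact_mod_cast hk
  have hk1 : (1 : ℝ) ≤ k := by exact_mod_cast hk
  have hc1 : 1 ≤ c := Real.one_le_rpow (by norm_num) (by positivity)
  have hc3 : c ≤ 3 := by
    calc c ≤ (3 : ℝ) ^ (1 : ℝ) :=
          Real.rpow_le_rpow_of_exponent_le (by norm_num) (by rw [div_le_one hk0]; exact hk1)
      _ = 3 := Real.rpow_one 3
  have hc0 : 0 < c := lt_of_lt_of_le one_pos hc1
  have hck : c ^ k = 3 := by
    rw [hc, ← Real.rpow_natCast, ← Real.rpow_mul (by norm_num), one_div, inv_mul_cancel₀ hk0.ne',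
      Real.rpow_one]
  obtain ⟨hw3, hw4⟩ := hSubWin S A0 s c hs hInv hA0 hc1 hc3
  set G : ℝ → ℝ := fun a => mass s (ind S) a (c * a) with hG
  have hcont : ∀ a l : ℝ, 1 ≤ a → 1 ≤ l → |G (l * a) - G a| ≤ 1 * (Real.log l + 1 / a) := by
    intro a l ha hl
    have ha0 : 0 < a := lt_of_lt_of_le one_pos ha
    have hl0 : 0 < l := lt_of_lt_of_le one_pos hl
    have hla : a ≤ l * a := le_mul_of_one_le_left ha0.le hl
    have hca : a ≤ c * a := le_mul_of_one_le_left ha0.le hc1
    have hcla : l * a ≤ c * (l * a) := le_mul_of_one_le_left (by positivity) hc1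
    have hlca : c * a ≤ l * (c * a) := le_mul_of_one_le_left (by positivity) hl
    have e1 := mass_add hs (ind S) ha0 hla hcla
    have e2 := mass_add hs (ind S) ha0 hca hlca
    have e3 : l * (c * a) = c * (l * a) := by ring
    have h1 := mass_ind_le hMassPer S hs ha0 hl
    have h2 := mass_ind_le hMassPer S hs (x := c * a) (by positivity) hl
    have h3 : 0 ≤ mass s (ind S) a (l * a) := mass_nonneg (ind_nonneg S)
    have h4 : 0 ≤ mass s (ind S) (c * a) (l * (c * a)) := mass_nonneg (ind_nonneg S)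
    have h5 : 1 / (c * a) ≤ 1 / a := one_div_le_one_div_of_le ha0 hca
    rw [e3] at e2 h2 h4
    simp only [hG]
    rw [abs_le]
    constructor <;> linarith
  have hall := hScaleInv G 1 hcont hw3 hw4
  have hsum : Tendsto (fun a : ℝ => ∑ j ∈ range k, (G (c ^ j * a) - G a)) atTop (𝓝 0) := by
    have := tendsto_finsetSum (range k) (fun j _ => hall (c ^ j) (pow_pos hc0 j))
    simpa using this
  have hmain : Tendsto (fun a : ℝ => mass s (ind S) a (3 * a) - ∑ j ∈ range k, (G (c ^ j * a) - G a))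
      atTop (𝓝 (ℓ - 0)) := hlim.sub hsum
  rw [sub_zero] at hmain
  have heq : (fun a : ℝ => (k : ℝ) * G a) =ᶠ[atTop]
      (fun a : ℝ => mass s (ind S) a (3 * a) - ∑ j ∈ range k, (G (c ^ j * a) - G a)) := by
    filter_upwards [eventually_gt_atTop (0 : ℝ)] with a ha
    have h1 := mass_pow hs (ind S) ha hc1 k
    rw [hck] at h1
    rw [h1, Finset.sum_sub_distrib, Finset.sum_const, Finset.card_range, nsmul_eq_mul]
    simp only [hG]
    ring
  have hkG : Tendsto (fun a : ℝ => (k : ℝ) * G a) atTop (𝓝 ℓ) := hmain.congr' heq.symm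
  have hfin := hkG.div_const (k : ℝ)
  refine hfin.congr fun a => ?_
  simp only [hG]
  rw [mul_div_assoc, mul_comm, div_mul_cancel₀ _ hk0.ne']

end Pool.Agent.Clz
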