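import Pool.Agent.Lib.MP_5a39b1_nt.Clz.Spec4

/-!
MP_5a39b1_nt, module ZeroDens: from windows to natural density zero. See the docstring of `StmtZeroDens` in `Spec4.lean` for the proof.
-/

set_option autoImplicit false

namespace Pool.Agent.Clz

open Finset Filter Topology

namespace ZeroDensaux

open Classical in
/-- the elements of `Z` of absolute value at most `X` -/
noncomputable def zcnt (Z : Set ℤ) (X : ℕ) : Finset ℤ :=
  (Finset.Icc (-(X : ℤ)) X).filter (fun n => n ∈ Z)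

open Classical in
theorem mem_cnt (Z : Set ℤ) (X : ℕ) (n : ℤ) : n ∈ zcnt Z X ↔ |n| ≤ (X : ℤ) ∧ n ∈ Z := by
  unfold zcnt
  rw [Finset.mem_filter, Finset.mem_Icc, abs_le]

open Classical in
theorem cnt_card_le (Z : Set ℤ) (X : ℕ) : (zcnt Z X).card ≤ 2 * X + 1 := by
  unfold zcnt
  refine (Finset.card_filter_le _ _).trans ?_
  rw [Int.card_Icc]
  omega

open Classical in
theorem window_card (Z : Set ℤ) {s : ℤ} (hs : s = 1 ∨ s = -1) {x : ℝ} (hx : 0 < x) :
    (((W s x (3 * x)).filter (fun n => n ∈ Z)).card : ℝ) ≤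
      3 * x * mass s (ind Z) x (3 * x) := by
  have h1 : (((W s x (3 * x)).filter (fun n => n ∈ Z)).card : ℝ) * (1 / (3 * x)) ≤
      mass s (ind Z) x (3 * x) := by
    unfold mass
    calc (((W s x (3 * x)).filter (fun n => n ∈ Z)).card : ℝ) * (1 / (3 * x))
        = ∑ N ∈ (W s x (3 * x)).filter (fun n => n ∈ Z), 1 / (3 * x) := by
          rw [Finset.sum_const, nsmul_eq_mul]
      _ ≤ ∑ N ∈ (W s x (3 * x)).filter (fun n => n ∈ Z), ind Z N / |(N : ℝ)| := by
          apply Finset.sum_le_sum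
          intro N hN
          rw [Finset.mem_filter] at hN
          obtain ⟨h2, h3⟩ := mem_W' hs hx hN.1
          have h4 : ind Z N = 1 := by
            unfold ind
            rw [if_pos hN.2]
          rw [h4]
          exact one_div_le_one_div_of_le (by linarith) h3.le
      _ ≤ ∑ N ∈ W s x (3 * x), ind Z N / |(N : ℝ)| := by
          apply Finset.sum_le_sum_of_subset_of_nonneg (Finset.filter_subset _ _)
          intro N _ _
          exact div_nonneg (ind_nonneg _ _) (abs_nonneg _)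
  have h5 : (0 : ℝ) < 3 * x := by positivity
  rw [mul_one_div, div_le_iff₀ h5] at h1
  linarith

theorem step (Z : Set ℤ) (X : ℕ) :
    ((zcnt Z X).card : ℝ) ≤ ((zcnt Z ((X + 1) / 3)).card : ℝ) +
      ((X : ℝ) + 1) * (mass 1 (ind Z) (((X : ℝ) + 1) / 3) (3 * (((X : ℝ) + 1) / 3)) +
        mass (-1) (ind Z) (((X : ℝ) + 1) / 3) (3 * (((X : ℝ) + 1) / 3))) := by
  classical
  set x : ℝ := ((X : ℝ) + 1) / 3 with hx
  have hx0 : 0 < x := by positivity
  have h3x : 3 * x = (X : ℝ) + 1 := by rw [hx]; ring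
  have hsub : zcnt Z X ⊆ zcnt Z ((X + 1) / 3) ∪ ((W 1 x (3 * x)).filter (fun n => n ∈ Z) ∪
      (W (-1) x (3 * x)).filter (fun n => n ∈ Z)) := by
    intro n hn
    rw [mem_cnt] at hn
    rw [Finset.mem_union, Finset.mem_union, mem_cnt, Finset.mem_filter, Finset.mem_filter,
      mem_W (Or.inl rfl) hx0, mem_W (Or.inr rfl) hx0]
    by_cases h : |n| ≤ (((X + 1) / 3 : ℕ) : ℤ)
    · exact Or.inl ⟨h, hn.2⟩
    · right
      have h4 : (((X + 1) / 3 : ℕ) : ℤ) + 1 ≤ |n| := by omega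
      have h6 : (X : ℤ) + 1 ≤ 3 * |n| := by
        have : X + 1 < 3 * ((X + 1) / 3 + 1) := by omega
        have h7 : ((X : ℤ) + 1) < 3 * ((((X + 1) / 3 : ℕ) : ℤ) + 1) := by exact_mod_cast this
        linarith
      have h8 : (X : ℝ) + 1 ≤ 3 * |(n : ℝ)| := by exact_mod_cast h6
      have h9 : |(n : ℝ)| ≤ (X : ℝ) := by exact_mod_cast hn.1
      rcases le_or_gt 0 n with h10 | h10
      · left
        have h11 : (0 : ℝ) ≤ (n : ℝ) := by exact_mod_cast h10
        rw [abs_of_nonneg h11] at h8 h9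
        refine ⟨⟨?_, ?_⟩, hn.2⟩
        · push_cast
          rw [hx]
          linarith
        · push_cast
          rw [h3x]
          linarith
      · right
        have h11 : (n : ℝ) < 0 := by exact_mod_cast h10
        rw [abs_of_neg h11] at h8 h9
        refine ⟨⟨?_, ?_⟩, hn.2⟩
        · push_cast
          rw [hx]
          linarith
        · push_cast
          rw [h3x]
          linarith
  have h1 := (Finset.card_le_card hsub).trans ((Finset.card_union_le _ _).trans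
    (Nat.add_le_add_left (Finset.card_union_le _ _) _))
  have h2 := window_card Z (Or.inl rfl : (1 : ℤ) = 1 ∨ (1 : ℤ) = -1) hx0
  have h3 := window_card Z (Or.inr rfl : (-1 : ℤ) = 1 ∨ (-1 : ℤ) = -1) hx0
  have h4 : ((zcnt Z X).card : ℝ) ≤ ((zcnt Z ((X + 1) / 3)).card : ℝ) +
      ((((W 1 x (3 * x)).filter (fun n => n ∈ Z)).card : ℝ) +
        (((W (-1) x (3 * x)).filter (fun n => n ∈ Z)).card : ℝ)) := by
    exact_mod_cast h1
  have h5 : 3 * x * mass 1 (ind Z) x (3 * x) + 3 * x * mass (-1) (ind Z) x (3 * x) =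
      ((X : ℝ) + 1) * (mass 1 (ind Z) x (3 * x) + mass (-1) (ind Z) x (3 * x)) := by
    rw [h3x]
    ring
  linarith

theorem bound (Z : Set ℤ) {ε : ℝ} (hε : 0 ≤ ε) {A : ℕ} (hA : 2 ≤ A)
    (h : ∀ X : ℕ, A ≤ X → ∀ s : ℤ, (s = 1 ∨ s = -1) →
      mass s (ind Z) (((X : ℝ) + 1) / 3) (3 * (((X : ℝ) + 1) / 3)) ≤ ε) (X : ℕ) :
    ((zcnt Z X).card : ℝ) ≤ 6 * ε * ((X : ℝ) + 1) + (2 * A + 1) := by
  induction X using Nat.strong_induction_on with
  | _ X ih =>
    rcases lt_or_ge X A with h1 | h1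
    · have h2 : ((zcnt Z X).card : ℝ) ≤ 2 * X + 1 := by exact_mod_cast cnt_card_le Z X
      have h3 : (X : ℝ) ≤ A := by exact_mod_cast h1.le
      have h4 : 0 ≤ 6 * ε * ((X : ℝ) + 1) := by positivity
      linarith
    · have hX2 : (2 : ℝ) ≤ X := by exact_mod_cast hA.trans h1
      have h2 := ih ((X + 1) / 3) (by omega)
      have h3 := step Z X
      have h4 := h X h1 1 (Or.inl rfl)
      have h5 := h X h1 (-1) (Or.inr rfl)
      have h6 : (((X + 1) / 3 : ℕ) : ℝ) ≤ ((X : ℝ) + 1) / 3 := by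
        have := @Nat.cast_div_le ℝ _ _ _ (X + 1) 3
        push_cast at this
        exact this
      have h7 : ((X : ℝ) + 1) * (mass 1 (ind Z) (((X : ℝ) + 1) / 3) (3 * (((X : ℝ) + 1) / 3)) +
          mass (-1) (ind Z) (((X : ℝ) + 1) / 3) (3 * (((X : ℝ) + 1) / 3))) ≤
          ((X : ℝ) + 1) * (2 * ε) := by
        apply mul_le_mul_of_nonneg_left _ (by positivity)
        linarith
      have h8 : 6 * ε * ((((X + 1) / 3 : ℕ) : ℝ) + 1) ≤ 6 * ε * (((X : ℝ) + 1) / 3 + 1) := by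
        apply mul_le_mul_of_nonneg_left _ (by positivity)
        linarith
      nlinarith

end ZeroDensaux

open ZeroDensaux in
theorem stmtZeroDens : StmtZeroDens := by
  intro Z hZ
  have hset : ∀ X : ℕ, (({n : ℤ | |n| ≤ (X : ℤ) ∧ n ∈ Z}.ncard : ℕ) : ℝ) =
      ((zcnt Z X).card : ℝ) := by
    intro X
    rw [← Set.ncard_coe_finset]
    congr 2
    ext n
    simp only [Set.mem_ofPred_eq, Finset.mem_coe, mem_cnt]
  simp_rw [hset]
  rw [Metric.tendsto_atTop]
  intro δ hδ
  set ε : ℝ := δ / 24 with hε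
  have hε0 : 0 < ε := by positivity
  have hlim : Tendsto (fun X : ℕ => ((X : ℝ) + 1) / 3) atTop atTop :=
    Tendsto.atTop_div_const (by norm_num)
      (tendsto_atTop_add_const_right _ _ tendsto_natCast_atTop_atTop)
  have h1 := ((hZ 1 (Or.inl rfl)).comp hlim).eventually (gt_mem_nhds hε0)
  have h2 := ((hZ (-1) (Or.inr rfl)).comp hlim).eventually (gt_mem_nhds hε0)
  obtain ⟨A1, hA1⟩ := (h1.and h2).exists_forall_of_atTop
  have hb := bound Z hε0.le (A := A1 + 2) (by omega) (by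
    intro X hX s hs
    have h3 := hA1 X (by omega)
    rcases hs with rfl | rfl
    · exact h3.1.le
    · exact h3.2.le)
  obtain ⟨A2, hA2⟩ := exists_nat_gt ((2 * ((A1 + 2 : ℕ) : ℝ) + 1) / (δ / 4))
  refine ⟨A2 + 1, fun X hX => ?_⟩
  have hX1 : (1 : ℝ) ≤ X := by exact_mod_cast (by omega : 1 ≤ X)
  have hXA : (A2 : ℝ) ≤ X := by exact_mod_cast (by omega : A2 ≤ X)
  rw [Real.dist_0_eq_abs, abs_of_nonneg (by positivity), div_lt_iff₀ (by positivity)]
  refine lt_of_le_of_lt (hb X) ?_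
  rw [div_lt_iff₀ (by positivity)] at hA2
  have h3 : (A2 : ℝ) * (δ / 4) ≤ X * (δ / 4) :=
    mul_le_mul_of_nonneg_right hXA (by positivity)
  rw [hε]
  nlinarith

end Pool.Agent.Clz
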