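import Pool.Agent.Lib.MP_5a39b1_nt.Clz.Asm1
import Pool.Agent.Lib.MP_5a39b1_nt.Clz.FrTail
import Pool.Agent.Lib.MP_5a39b1_nt.Clz.MLpt
import Pool.Agent.Lib.MP_5a39b1_nt.Clz.MLsum
import Pool.Agent.Lib.MP_5a39b1_nt.Clz.FrSmall
import Pool.Agent.Lib.MP_5a39b1_nt.Clz.Growth
import Pool.Agent.Lib.MP_5a39b1_nt.Clz.InvIter
import Pool.Agent.Lib.MP_5a39b1_nt.Clz.MassPer
import Pool.Agent.Lib.MP_5a39b1_nt.Clz.PFcore
import Pool.Agent.Lib.MP_5a39b1_nt.Clz.PFtwo
import Pool.Agent.Lib.MP_5a39b1_nt.Clz.PFa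
import Pool.Agent.Lib.MP_5a39b1_nt.Clz.PFp
import Pool.Agent.Lib.MP_5a39b1_nt.Clz.AdmEx
import Pool.Agent.Lib.MP_5a39b1_nt.Clz.Rel1
import Pool.Agent.Lib.MP_5a39b1_nt.Clz.Rel2
import Pool.Agent.Lib.MP_5a39b1_nt.Clz.SlowVar
import Pool.Agent.Lib.MP_5a39b1_nt.Clz.ConvRate
import Pool.Agent.Lib.MP_5a39b1_nt.Clz.SubWin
import Pool.Agent.Lib.MP_5a39b1_nt.Clz.ScaleInv
import Pool.Agent.Lib.MP_5a39b1_nt.Clz.WinConv
import Pool.Agent.Lib.MP_5a39b1_nt.Clz.Count
import Pool.Agent.Lib.MP_5a39b1_nt.Clz.Tree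
import Pool.Agent.Lib.MP_5a39b1_nt.Clz.DensTree
import Pool.Agent.Lib.MP_5a39b1_nt.Clz.Return
import Pool.Agent.Lib.MP_5a39b1_nt.Clz.Spread
import Pool.Agent.Lib.MP_5a39b1_nt.Clz.Up
import Pool.Agent.Lib.MP_5a39b1_nt.Clz.BadMass
import Pool.Agent.Lib.MP_5a39b1_nt.Clz.ZeroDens

/-!
MP_5a39b1_nt, assembly of the density theorem (the natural density of every tree exists).
-/

set_option autoImplicit false

namespace Pool.Agent.Clz

namespace Asm

theorem frTail : StmtFrTail := stmtFrTail binBasic binShift kapLaw kerAvg hFsum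
theorem mLpt : StmtMLpt := stmtMLpt binBasic binDiff binShift kapLaw kerAvg hFsum frTail
theorem mLsum : StmtMLsum := stmtMLsum binBasic binDiff binShift kapLaw kerAvg hFsum frTail
theorem frSmall : StmtFrSmall := stmtFrSmall kapLaw words kerAvg frTail
theorem growth : StmtGrowth := stmtGrowth 
theorem invIter : StmtInvIter := stmtInvIter growth
theorem massPer : StmtMassPer := stmtMassPer 
theorem pFcore : StmtPFcore := stmtPFcore binBasic kapLaw words rMoment kerAvg massPer
theorem pFtwo : StmtPFtwo := stmtPFtwo binBasic kerAvg massPer pFcore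
theorem pFa : StmtPFa := stmtPFa pFtwo mLsum
theorem pFp : StmtPFp := stmtPFp pFcore mLpt
theorem admEx : StmtAdmEx := stmtAdmEx 
theorem rel1 : StmtRel1 := stmtRel1 invIter pFa growth
theorem rel2 : StmtRel2 := stmtRel2 binBasic binShift invIter kerAvg massPer pFa admEx rel1
theorem slowVar : StmtSlowVar := stmtSlowVar binBasic binDiff binShift invIter kerAvg massPer pFa admEx
theorem convRate : StmtConvRate := stmtConvRate binBasic binShift massPer rel2 slowVar
theorem subWin : StmtSubWin := stmtSubWin binBasic binDiff binShift invIter kerAvg massPer pFa admEx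
theorem scaleInv : StmtScaleInv := stmtScaleInv 
theorem winConv : StmtWinConv := stmtWinConv massPer subWin scaleInv
theorem count : StmtCount := stmtCount 
theorem tree : StmtTree := stmtTree growth
theorem densTree : StmtDensTree := stmtDensTree tree convRate winConv count
theorem return' : StmtReturn := stmtReturn binBasic kapLaw words rMoment kerAvg massPer
theorem spread : StmtSpread := stmtSpread binBasic binShift invIter pFp return'
theorem up : StmtUp := stmtUp binBasic binShift invIter pFa admEx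
theorem badMass : StmtBadMass := stmtBadMass massPer admEx frSmall tree densTree spread up
theorem zeroDens : StmtZeroDens := stmtZeroDens 

/-- for almost all `a` not divisible by 3 the assertion of Q1 holds -/
theorem almostAll :
    Filter.Tendsto (fun X : ℕ => (({n : ℤ | |n| ≤ (X : ℤ) ∧ n ∈ {z : ℤ | ¬ (3 : ℤ) ∣ z ∧ ¬ Q1at z}}.ncard : ℕ) : ℝ) / X)
      Filter.atTop (nhds 0) := by
  refine zeroDens _ fun s hs => ?_
  rw [Metric.tendsto_atTop]
  intro ε hε
  obtain ⟨U, hU1, hU⟩ := badMass (ε / 2) (by positivity)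
  refine ⟨max 1 ((3 : ℝ) ^ U), fun a ha => ?_⟩
  have ha1 : 1 ≤ a := (le_max_left _ _).trans ha
  have ha0 : 0 < a := by linarith
  have hlg : U ≤ lg a := by
    unfold lg
    rw [le_div_iff₀ (Real.log_pos (by norm_num))]
    have h3 : (3 : ℝ) ^ U ≤ a := (le_max_right _ _).trans ha
    have := Real.log_le_log (by positivity) h3
    rwa [Real.log_rpow (by norm_num)] at this
  have h1 := hU s a hs ha0 hlg
  have h0 : 0 ≤ mass s (ind {z : ℤ | ¬ (3 : ℤ) ∣ z ∧ ¬ Q1at z}) a (3 * a) := mass_nonneg (ind_nonneg _)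
  rw [Real.dist_eq, sub_zero, abs_of_nonneg h0]
  linarith

end Asm

end Pool.Agent.Clz
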