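import Pool.Agent.Lib.MP_5a39b1_nt.Clz.SpecF

set_option autoImplicit false

namespace Pool.Agent.Clz

open Finset

namespace Badaux

open Classical in
theorem pointwise (τ : ℕ) (D : ℝ) (hD : 0 < D) (g : List (Fin 4)) (hg : g.length = τ) :
    (if typ D g then (0 : ℝ) else 1) ≤
      (if ¬ 1000 * |(kap g : ℤ) - (τ : ℤ)| ≤ (τ : ℤ) then (1 : ℝ) else 0) +
        (1 / Real.sqrt D) * Real.sqrt (RR g) := by
  have hs : 0 < Real.sqrt D := Real.sqrt_pos.2 hD
  have h0 : 0 ≤ (1 / Real.sqrt D) * Real.sqrt (RR g) := by positivity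
  by_cases ht : typ D g
  · rw [if_pos ht]
    split_ifs <;> linarith
  · rw [if_neg ht]
    by_cases hk : 1000 * |(kap g : ℤ) - (τ : ℤ)| ≤ (τ : ℤ)
    · rw [if_neg (not_not.2 hk)]
      have hR : D < RR g := by
        by_contra hcon
        rw [not_lt] at hcon
        apply ht
        refine ⟨?_, hcon⟩
        rw [hg]
        exact hk
      have hsq : Real.sqrt D ≤ Real.sqrt (RR g) := Real.sqrt_le_sqrt hR.le
      rw [zero_add, one_div, inv_mul_eq_div, le_div_iff₀ hs]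
      linarith
    · rw [if_pos hk]
      linarith

end Badaux

/-- see the docstring of `StmtBad` in SpecF.lean for the paper proof -/
theorem stmtBad (h1 : StmtKapLaw) (h2 : StmtRMoment) (h3 : StmtTail3) : StmtBad := by
  classical
  obtain ⟨C, ρ, hC, hρ, hρ1, h⟩ := h3
  refine ⟨C, ρ, hC, hρ, hρ1, fun τ D hD => ?_⟩
  have hs : 0 < Real.sqrt D := Real.sqrt_pos.2 hD
  have key := Ew_mono (n := τ) (fun g hg => Badaux.pointwise τ D hD g hg)
  rw [Ew_add, Ew_mul, h1 τ (fun k : ℕ => if ¬ 1000 * |(k : ℤ) - (τ : ℤ)| ≤ (τ : ℤ) then (1 : ℝ) else 0)]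
    at key
  have e1 : ∑ k ∈ range (2 * τ + 1), P (2 * τ) k *
      (if ¬ 1000 * |(k : ℤ) - (τ : ℤ)| ≤ (τ : ℤ) then (1 : ℝ) else 0) ≤ C * ρ ^ τ := by
    refine le_trans (le_of_eq ?_) (h τ)
    rw [Finset.sum_filter]
    refine Finset.sum_congr rfl fun k _ => ?_
    split_ifs <;> simp
  have e2 : (1 / Real.sqrt D) * Ew τ (fun g => Real.sqrt (RR g)) ≤ 10 / Real.sqrt D := by
    rw [one_div, inv_mul_eq_div]
    exact div_le_div_of_nonneg_right (h2.1 τ) hs.le
  linarith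

end Pool.Agent.Clz
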