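import Pool.Agent.Lib.MP_5a39b1_nt.Clz.SpecF

set_option autoImplicit false

namespace Pool.Agent.Clz

open Finset

namespace Cntaux

theorem log_eq (D X : ℝ) (hD : 0 < D) (hX : 0 < X) (L : ℕ) :
    Real.log (4 ^ L * D / X) = ((L : ℝ) * al - Real.log (X / D) / Real.log 3) * Real.log 3 := by
  have h3 : Real.log 3 ≠ 0 := (Real.log_pos (by norm_num)).ne'
  have h4 : (4 : ℝ) ^ L ≠ 0 := by positivity
  rw [Real.log_div (by positivity) hX.ne', Real.log_mul h4 hD.ne', Real.log_pow,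
    Real.log_div hX.ne' hD.ne', al]
  field_simp
  ring

theorem pow_bounds (D X : ℝ) (hD : 0 < D) (hX : 0 < X) (L : ℕ)
    (h : Real.log (X / D) / Real.log 3 ≤ L * al) :
    4 ^ L * D / X ≤ (3 : ℝ) ^ kz (Real.log (X / D) / Real.log 3) L ∧
      (3 : ℝ) ^ kz (Real.log (X / D) / Real.log 3) L ≤ 3 * (4 ^ L * D / X) := by
  have h3 : 0 < Real.log 3 := Real.log_pos (by norm_num)
  set β := Real.log (X / D) / Real.log 3 with hβ
  have hlog := log_eq D X hD hX L
  rw [← hβ] at hlog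
  have hy : 0 ≤ (L : ℝ) * al - β := by linarith
  have h1 : (L : ℝ) * al - β ≤ (kz β L : ℝ) := Nat.le_ceil _
  have h2 : (kz β L : ℝ) < (L : ℝ) * al - β + 1 := Nat.ceil_lt_add_one hy
  have hpos : 0 < 4 ^ L * D / X := by positivity
  constructor
  · rw [← Real.log_le_log_iff hpos (by positivity), hlog, Real.log_pow]
    exact mul_le_mul_of_nonneg_right h1 h3.le
  · rw [← Real.log_le_log_iff (by positivity) (by positivity), Real.log_pow,
      Real.log_mul (by norm_num) hpos.ne', hlog]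
    nlinarith

open Classical in
/-- the words counted at level `L` -/
noncomputable def GG (L κ : ℕ) (C : ℝ) (b : ℤ) : Finset (List (Fin 4)) :=
  (words L).filter (fun g => (kap g = κ ∧ RR g ≤ C) ∧ valid g b)

theorem VV_eq (L κ : ℕ) (C : ℝ) (b : ℤ) :
    VV L κ C b = (GG L κ C b).card * 3 ^ κ / 4 ^ L := by
  classical
  unfold VV GG
  rw [Ew_eq_sum, smul_eq_mul]
  have : ∑ g ∈ words L, (if kap g = κ ∧ RR g ≤ C then kerF g b else 0) =
      ∑ g ∈ (words L).filter (fun g => (kap g = κ ∧ RR g ≤ C) ∧ valid g b), (3 : ℝ) ^ κ := by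
    rw [Finset.sum_filter]
    refine Finset.sum_congr rfl fun g _ => ?_
    by_cases h : kap g = κ ∧ RR g ≤ C
    · by_cases hv : valid g b
      · rw [if_pos h, if_pos ⟨h, hv⟩]
        unfold kerF
        rw [if_pos (show (3 : ℤ) ^ kap g ∣ 4 ^ g.length * b - FF g from hv), h.1]
      · rw [if_pos h, if_neg (fun hh => hv hh.2)]
        unfold kerF
        rw [if_neg (show ¬ (3 : ℤ) ^ kap g ∣ 4 ^ g.length * b - FF g from hv)]
    · rw [if_neg h, if_neg (fun hh => h hh.1)]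
  rw [this, Finset.sum_const, nsmul_eq_mul]
  ring

theorem Nz_mul {g : List (Fin 4)} {b : ℤ} (hv : valid g b) :
    (3 : ℤ) ^ kap g * Nz g b = 4 ^ g.length * b - FF g := by
  unfold Nz
  exact Int.mul_ediv_cancel' hv

theorem abs_Nz_le {g : List (Fin 4)} {b : ℤ} {C X : ℝ} (hv : valid g b) (hC : RR g ≤ C)
    (hX : 0 < X)
    (h : 4 ^ g.length * (|(b : ℝ)| + C) / X ≤ (3 : ℝ) ^ kap g) : |(Nz g b : ℝ)| ≤ X := by
  have h4 : (0 : ℝ) < 4 ^ g.length := by positivity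
  have h3 : (0 : ℝ) < 3 ^ kap g := by positivity
  have e : (3 : ℝ) ^ kap g * (Nz g b : ℝ) = 4 ^ g.length * b - FF g := by
    exact_mod_cast Nz_mul hv
  have hFF : (FF g : ℝ) ≤ C * 4 ^ g.length := by
    unfold RR at hC
    rwa [div_le_iff₀ h4] at hC
  have hFF0 : (0 : ℝ) ≤ FF g := by exact_mod_cast FF_nonneg g
  have h1 : (3 : ℝ) ^ kap g * |(Nz g b : ℝ)| ≤ 4 ^ g.length * (|(b : ℝ)| + C) := by
    rw [← abs_of_pos h3, ← abs_mul, e]
    calc |(4 : ℝ) ^ g.length * b - FF g| ≤ |(4 : ℝ) ^ g.length * b| + |(FF g : ℝ)| := abs_sub _ _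
      _ = 4 ^ g.length * |(b : ℝ)| + FF g := by rw [abs_mul, abs_of_pos h4, abs_of_nonneg hFF0]
      _ ≤ _ := by nlinarith
  rw [div_le_iff₀ hX] at h
  have h2 : (3 : ℝ) ^ kap g * |(Nz g b : ℝ)| ≤ 3 ^ kap g * X := h1.trans h
  exact le_of_mul_le_mul_left h2 h3

end Cntaux

open Cntaux in
/-- see the docstring of `StmtCnt` in SpecF.lean for the paper proof -/
theorem stmtCnt (h1 : StmtWords) : StmtCnt := by
  classical
  obtain ⟨w1, -, -, -, w5, -, -, -⟩ := h1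
  intro b C X S hb hC hX hS
  have hD : 0 < |(b : ℝ)| + C := by positivity
  have hX' : (0 : ℝ) < (X : ℝ) := by exact_mod_cast hX
  set β := Real.log (X / (|(b : ℝ)| + C)) / Real.log 3 with hβ
  -- the finite set
  set A : ℕ → Finset ℤ := fun L => (GG L (kz β L) C b).image (fun g => Nz g b) with hA
  have hcard : ∀ L ∈ S, ((A L).card : ℝ) = (GG L (kz β L) C b).card := by
    intro L _
    rw [hA]
    simp only
    rw [Finset.card_image_of_injOn]
    intro g hg g' hg' hgg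
    simp only [GG, Finset.coe_filter, Set.mem_ofPred_eq, mem_words] at hg hg'
    exact (w5 g g' b b (by rw [hg.1, hg'.1]) hg.2.2 hg'.2.2 hgg).1
  have hT : ∀ L n, n ∈ A L → T^[2 * L] n = b := by
    intro L n hn
    rw [hA] at hn
    simp only [Finset.mem_image, GG, Finset.mem_filter, mem_words] at hn
    obtain ⟨g, ⟨hl, _, hv⟩, rfl⟩ := hn
    rw [← hl]
    exact w1 g b hv
  have hdisj : ∀ L ∈ S, ∀ L' ∈ S, L ≠ L' → Disjoint (A L) (A L') := by
    have key : ∀ L L', L < L' → Disjoint (A L) (A L') := by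
      intro L L' hLL
      rw [Finset.disjoint_left]
      intro n hn hn'
      have e1 := hT L n hn
      have e2 := hT L' n hn'
      apply hb (2 * L' - 2 * L) (by omega)
      rw [← e1, ← Function.iterate_add_apply, show 2 * L' - 2 * L + 2 * L = 2 * L' by omega, e2, e1]
    intro L _ L' _ hne
    rcases lt_or_gt_of_ne hne with h | h
    · exact key L L' h
    · exact (key L' L h).symm
  have hsub : ((S.biUnion A : Finset ℤ) : Set ℤ) ⊆ {n : ℤ | |n| ≤ (X : ℤ) ∧ ∃ k : ℕ, T^[k] n = b} := by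
    intro n hn
    simp only [Finset.coe_biUnion, Set.mem_iUnion, Finset.mem_coe] at hn
    obtain ⟨L, hL, hn⟩ := hn
    refine ⟨?_, 2 * L, hT L n hn⟩
    rw [hA] at hn
    simp only [Finset.mem_image, GG, Finset.mem_filter, mem_words] at hn
    obtain ⟨g, ⟨hl, ⟨hk, hR⟩, hv⟩, rfl⟩ := hn
    have hp := (pow_bounds (|(b : ℝ)| + C) X hD hX' L (hS L hL)).1
    rw [← hβ, ← hk, ← hl] at hp
    have := abs_Nz_le hv hR hX' hp
    exact_mod_cast this
  have hfin : {n : ℤ | |n| ≤ (X : ℤ) ∧ ∃ k : ℕ, T^[k] n = b}.Finite := by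
    apply (Set.finite_Icc (-(X : ℤ)) X).subset
    intro n hn
    exact abs_le.mp hn.1
  have hle : (S.biUnion A).card ≤ {n : ℤ | |n| ≤ (X : ℤ) ∧ ∃ k : ℕ, T^[k] n = b}.ncard := by
    rw [← Set.ncard_coe_finset]
    exact Set.ncard_le_ncard hsub hfin
  have hle' : ((S.biUnion A).card : ℝ) ≤
      (({n : ℤ | |n| ≤ (X : ℤ) ∧ ∃ k : ℕ, T^[k] n = b}.ncard : ℕ) : ℝ) := by exact_mod_cast hle
  refine le_trans ?_ hle'
  rw [Finset.card_biUnion hdisj, Nat.cast_sum, Finset.mul_sum]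
  refine Finset.sum_le_sum fun L hL => ?_
  rw [hcard L hL, VV_eq]
  have hp := (pow_bounds (|(b : ℝ)| + C) X hD hX' L (hS L hL)).2
  rw [← hβ] at hp
  have h4 : (0 : ℝ) < 4 ^ L := by positivity
  have hc : (0 : ℝ) ≤ (GG L (kz β L) C b).card := by positivity
  have : (X : ℝ) / (3 * (|(b : ℝ)| + C)) * (3 ^ kz β L / 4 ^ L) ≤ 1 := by
    calc (X : ℝ) / (3 * (|(b : ℝ)| + C)) * (3 ^ kz β L / 4 ^ L)
        ≤ (X : ℝ) / (3 * (|(b : ℝ)| + C)) * (3 * (4 ^ L * (|(b : ℝ)| + C) / X) / 4 ^ L) := by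
          gcongr
      _ = 1 := by field_simp
  calc (X : ℝ) / (3 * (|(b : ℝ)| + C)) * ((GG L (kz β L) C b).card * 3 ^ kz β L / 4 ^ L)
      = (GG L (kz β L) C b).card * ((X : ℝ) / (3 * (|(b : ℝ)| + C)) * (3 ^ kz β L / 4 ^ L)) := by ring
    _ ≤ (GG L (kz β L) C b).card * 1 := by gcongr
    _ = _ := mul_one _

end Pool.Agent.Clz
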