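import Pool.Agent.Lib.MP_5a39b1_nt.Clz.SpecF

set_option autoImplicit false

namespace Pool.Agent.Clz

open Finset

namespace Finaux

theorem T_eq : T = (fun m : ℤ => if m % 2 = 0 then m / 2 else (3 * m + 1) / 2) := rfl

/-- the counted sets are finite -/
theorem finite_set (N : ℕ) (a : ℤ) :
    {n : ℤ | |n| ≤ (N : ℤ) ∧ ∃ k : ℕ, T^[k] n = a}.Finite := by
  refine (Set.finite_Icc (-(N : ℤ)) (N : ℤ)).subset fun n hn => ?_
  exact ⟨(abs_le.mp hn.1).1, (abs_le.mp hn.1).2⟩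

/-- preimages of `b` are preimages of `a` if `b` is a preimage of `a` -/
theorem subset_of_iterate {a b : ℤ} {s : ℕ} (hs : T^[s] b = a) (N : ℕ) :
    {n : ℤ | |n| ≤ (N : ℤ) ∧ ∃ k : ℕ, T^[k] n = b} ⊆
      {n : ℤ | |n| ≤ (N : ℤ) ∧ ∃ k : ℕ, T^[k] n = a} := by
  rintro n ⟨h1, k, hk⟩
  exact ⟨h1, s + k, by rw [Function.iterate_add_apply, hk, hs]⟩

end Finaux

/-- see the docstring of `StmtFin` in SpecF.lean for the paper proof -/
theorem stmtFin (h1 : StmtGrow) (h2 : StmtOdo) : StmtFin := by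
  intro a ha
  rw [← Finaux.T_eq]
  obtain ⟨x₀, n₀, hG⟩ := h1
  obtain ⟨b, hb, ⟨s, hs⟩, hper⟩ := h2 a ha x₀ n₀
  obtain ⟨c, hc, N₀, hN⟩ := hG b hb hper
  refine ⟨c, hc, N₀, fun N hN' => lt_of_lt_of_le (hN N hN') ?_⟩
  exact_mod_cast Set.ncard_le_ncard (Finaux.subset_of_iterate hs N) (Finaux.finite_set N a)

end Pool.Agent.Clz
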