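import Pool.Agent.Lib.MP_5a39b1_nt.Clz.SpecF

set_option autoImplicit false

namespace Pool.Agent.Clz

open Finset

namespace FrAaux

theorem ker_append (m : ℕ) (g g' : List (Fin 4)) (z : ℤ) (h : m ≤ kap g) :
    ker m (g ++ g') z = ker m g z := by
  have h' : m ≤ kap (g ++ g') := by rw [kap_append]; omega
  unfold ker
  rw [min_eq_left h, min_eq_left h', FF_append, List.length_append]
  have key : (3 : ℤ) ^ m ∣ 4 ^ (g.length + g'.length) * z - (4 ^ g'.length * FF g + 3 ^ kap g * FF g') ↔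
      (3 : ℤ) ^ m ∣ 4 ^ g.length * z - FF g := by
    have e : (4 : ℤ) ^ (g.length + g'.length) * z - (4 ^ g'.length * FF g + 3 ^ kap g * FF g') =
        4 ^ g'.length * (4 ^ g.length * z - FF g) - 3 ^ kap g * FF g' := by
      rw [pow_add]; ring
    have h3 : (3 : ℤ) ^ m ∣ 3 ^ kap g * FF g' := Dvd.dvd.mul_right (pow_dvd_pow 3 h) _
    have hcop : IsCoprime ((3 : ℤ) ^ m) (4 ^ g'.length) :=
      IsCoprime.pow (by norm_num)
    rw [e]
    constructor
    · intro h4
      have h5 : (3 : ℤ) ^ m ∣ 4 ^ g'.length * (4 ^ g.length * z - FF g) := by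
        have := dvd_add h4 h3
        rwa [sub_add_cancel] at this
      exact hcop.dvd_of_dvd_mul_left h5
    · intro h4
      exact dvd_sub (Dvd.dvd.mul_left h4 _) h3
  by_cases hd : (3 : ℤ) ^ m ∣ 4 ^ g.length * z - FF g
  · rw [if_pos hd, if_pos (key.mpr hd)]
  · rw [if_neg hd, if_neg (fun hc => hd (key.mp hc))]

theorem Dd_zero (r : ℕ) (z : ℤ) : Dd 0 r 0 z = fr r z := by
  unfold Dd fr
  simp

theorem Ddm_zero (m r : ℕ) (z : ℤ) : Ddm m 0 r 0 z = frm m r z := by
  unfold Ddm frm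
  simp

theorem mid (h1 : StmtKapLaw) (h2 : StmtKerAvg) (s r N : ℕ) (hsr : s ≤ r) (hN : 2 * r ≤ N) :
    avg N (fun z => |frm ((s + 1) / 2) r z - frm ((s + 1) / 2) s z|) ≤
      2 * ∑ k ∈ (range (2 * s + 1)).filter
        (fun k : ℕ => ¬ 1000 * |(k : ℤ) - (s : ℤ)| ≤ (s : ℤ)), P (2 * s) k := by
  classical
  set m := (s + 1) / 2 with hm
  obtain ⟨d, rfl⟩ := Nat.exists_eq_add_of_le hsr
  have hmN : m ≤ N := by omega
  have hpt : ∀ z : ℤ, |frm m (s + d) z - frm m s z| ≤
      Ew s (fun g => if kap g < m then Ew d (fun g' => ker m (g ++ g') z) + ker m g z else 0) := by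
    intro z
    have e1 : frm m (s + d) z = Ew s (fun g => Ew d (fun g' => ker m (g ++ g') z)) := by
      unfold frm
      rw [Ew_append]
    have e2 : frm m s z = Ew s (fun g => ker m g z) := rfl
    rw [e1, e2, ← Ew_sub]
    refine (abs_Ew_le _ _).trans (Ew_mono fun g _ => ?_)
    split_ifs with hg
    · have n1 : 0 ≤ Ew d (fun g' => ker m (g ++ g') z) := Ew_nonneg fun g' _ => ker_nonneg _ _ _
      have n2 := ker_nonneg m g z
      rw [abs_le]
      constructor <;> linarith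
    · have : Ew d (fun g' => ker m (g ++ g') z) = ker m g z := by
        rw [← Ew_const (E := ℝ) d (ker m g z)]
        exact Ew_congr fun g' _ => ker_append m g g' z (by omega)
      rw [this, sub_self, abs_zero]
  refine (avg_mono hpt).trans ?_
  rw [avg_Ew]
  have hterm : ∀ g : List (Fin 4), g.length = s →
      avg N (fun z => if kap g < m then Ew d (fun g' => ker m (g ++ g') z) + ker m g z else 0) ≤
        2 * (fun k : ℕ => if k < m then (1 : ℝ) else 0) (kap g) := by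
    intro g _
    show _ ≤ 2 * (if kap g < m then (1 : ℝ) else 0)
    by_cases hg : kap g < m
    · simp only [hg, if_true]
      rw [avg_add, avg_Ew, h2.1 m N g (by omega)]
      have : Ew d (fun g' => avg N (ker m (g ++ g'))) = 1 := by
        rw [← Ew_const (E := ℝ) d 1]
        exact Ew_congr fun g' _ => h2.1 m N (g ++ g') (by omega)
      rw [this]
      norm_num
    · simp only [hg, if_false]
      rw [avg_const]
      norm_num
  refine (Ew_mono hterm).trans ?_
  rw [Ew_mul, h1 s (fun k : ℕ => if k < m then (1 : ℝ) else 0), Finset.sum_filter]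
  refine mul_le_mul_of_nonneg_left (Finset.sum_le_sum fun k _ => ?_) (by norm_num)
  have hP : 0 ≤ P (2 * s) (k : ℤ) := by
    unfold P
    split_ifs
    · positivity
    · exact le_rfl
  by_cases hk : k < m
  · have hk' : ¬ 1000 * |(k : ℤ) - (s : ℤ)| ≤ (s : ℤ) := by
      have : (k : ℤ) - s < 0 := by omega
      rw [abs_of_neg this]
      omega
    rw [if_pos hk, if_pos hk', mul_one]
  · rw [if_neg hk, mul_zero]
    split_ifs
    · exact le_rfl
    · exact hP

theorem pow_bound {ρ : ℝ} (h0 : 0 < ρ) (h1 : ρ < 1) (a : ℕ) :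
    ∃ C : ℝ, 0 < C ∧ ∀ s : ℕ, 1 ≤ s → ρ ^ s ≤ C / (s : ℝ) ^ a := by
  have ht := tendsto_pow_const_mul_const_pow_of_abs_lt_one a
    (r := ρ) (by rw [abs_of_pos h0]; exact h1)
  obtain ⟨C, hC⟩ := ht.bddAbove_range
  refine ⟨max C 1, lt_max_of_lt_right one_pos, fun s hs => ?_⟩
  have hspos : (0 : ℝ) < (s : ℝ) ^ a := by
    have : (0 : ℝ) < s := by exact_mod_cast hs
    positivity
  rw [le_div_iff₀ hspos]
  have h2 : (s : ℝ) ^ a * ρ ^ s ≤ C := hC ⟨s, rfl⟩
  calc ρ ^ s * (s : ℝ) ^ a = (s : ℝ) ^ a * ρ ^ s := mul_comm _ _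
    _ ≤ C := h2
    _ ≤ max C 1 := le_max_left _ _

end FrAaux

open FrAaux

/-- see the docstring of `StmtFrA` in SpecF.lean for the paper proof -/
theorem stmtFrA (h1 : StmtKapLaw) (h2 : StmtKerAvg) (h3 : StmtHFsum) (h4 : StmtTail3) : StmtFrA := by
  intro a
  obtain ⟨C1, hC1, hF⟩ := h3 a
  obtain ⟨C2, ρ, hC2, hρ0, hρ1, hT⟩ := h4
  obtain ⟨C3, hC3, hB⟩ := pow_bound hρ0 hρ1 a
  refine ⟨2 * (C1 * 2 ^ a) + 2 * (C2 * C3), by positivity, ?_⟩
  intro s r N hs hsr hN
  set m := (s + 1) / 2 with hm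
  have hm1 : 1 ≤ m := by omega
  have hspos : (0 : ℝ) < (s : ℝ) := by exact_mod_cast hs
  have hmpos : (0 : ℝ) < (m : ℝ) := by exact_mod_cast hm1
  have hms : (s : ℝ) / 2 ≤ (m : ℝ) := by
    have : s ≤ 2 * m := by omega
    have h : (s : ℝ) ≤ 2 * m := by exact_mod_cast this
    linarith
  have hq : C1 / (m : ℝ) ^ a ≤ C1 * 2 ^ a / (s : ℝ) ^ a := by
    rw [div_le_div_iff₀ (by positivity) (by positivity)]
    have h5 : (s : ℝ) ^ a ≤ 2 ^ a * (m : ℝ) ^ a := by
      rw [← mul_pow]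
      apply pow_le_pow_left₀ hspos.le
      linarith
    calc C1 * (s : ℝ) ^ a ≤ C1 * (2 ^ a * (m : ℝ) ^ a) := by gcongr
      _ = C1 * 2 ^ a * (m : ℝ) ^ a := by ring
  have b1 := hF m r 0 0 N hm1 (Nat.zero_le _) hN
  have b2 := hF m s 0 0 N hm1 (Nat.zero_le _) (by omega)
  simp only [Dd_zero, Ddm_zero] at b1 b2
  have b3 := (mid h1 h2 s r N hsr hN).trans (mul_le_mul_of_nonneg_left (hT s) (by norm_num))
  rw [← hm] at b3
  have b4 := hB s hs
  have hpt : ∀ z : ℤ, |fr r z - fr s z| ≤ |fr r z - frm m r z| +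
      (|frm m r z - frm m s z| + |fr s z - frm m s z|) := by
    intro z
    have e1 : fr r z - fr s z = (fr r z - frm m r z) + ((frm m r z - frm m s z) - (fr s z - frm m s z)) := by
      ring
    rw [e1]
    refine (abs_add_le _ _).trans ?_
    have := abs_sub (frm m r z - frm m s z) (fr s z - frm m s z)
    linarith
  refine (avg_mono hpt).trans ?_
  rw [avg_add, avg_add]
  have b5 : 2 * (C2 * ρ ^ s) ≤ 2 * (C2 * C3) / (s : ℝ) ^ a := by
    calc 2 * (C2 * ρ ^ s) ≤ 2 * (C2 * (C3 / (s : ℝ) ^ a)) := by gcongr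
      _ = 2 * (C2 * C3) / (s : ℝ) ^ a := by ring
  calc avg N (fun z => |fr r z - frm m r z|) +
        (avg N (fun z => |frm m r z - frm m s z|) + avg N (fun z => |fr s z - frm m s z|))
      ≤ C1 * 2 ^ a / (s : ℝ) ^ a + (2 * (C2 * C3) / (s : ℝ) ^ a + C1 * 2 ^ a / (s : ℝ) ^ a) := by
        refine add_le_add (b1.trans hq) (add_le_add (b3.trans b5) (b2.trans hq))
    _ = (2 * (C1 * 2 ^ a) + 2 * (C2 * C3)) / (s : ℝ) ^ a := by ring

end Pool.Agent.Clz
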