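import Pool.Agent.Lib.MP_5a39b1_nt.Clz.SpecF

set_option autoImplicit false

namespace Pool.Agent.Clz

open Finset

namespace Frqaux

theorem P_nonneg (n : ℕ) (k : ℤ) : 0 ≤ P n k := by
  unfold P; split_ifs <;> positivity

theorem Dd_zero (r : ℕ) (z : ℤ) : Dd 0 r 0 z = fr r z := by
  unfold Dd fr
  refine Ew_congr fun g _ => ?_
  simp

theorem Ddm_zero (m r : ℕ) (z : ℤ) : Ddm m 0 r 0 z = frm m r z := by
  unfold Ddm frm
  refine Ew_congr fun g _ => ?_
  simp

open Classical in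
theorem frm_sub_frq (m r : ℕ) (z : ℤ) :
    frm m r z - frq m r z = Ew r (fun g => if kap g < m then ker m g z else 0) := by
  unfold frm frq
  rw [← Ew_sub]
  refine Ew_congr fun g _ => ?_
  by_cases h : m ≤ kap g
  · rw [if_pos h, if_neg (by omega)]; ring
  · rw [if_neg h, if_pos (by omega)]; ring

theorem avg_abs_frq (h1 : StmtKapLaw) (h2 : StmtKerAvg) (m N : ℕ) (hN : m ≤ N) :
    avg N (fun z => |frq m (2 * m) z - frm m (2 * m) z|) ≤
      ∑ k ∈ (range (2 * (2 * m) + 1)).filter (fun k : ℕ => k < m), P (2 * (2 * m)) k := by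
  classical
  have e1 : ∀ z : ℤ, |frq m (2 * m) z - frm m (2 * m) z| =
      Ew (2 * m) (fun g => if kap g < m then ker m g z else 0) := by
    intro z
    rw [abs_sub_comm, frm_sub_frq, abs_of_nonneg]
    exact Ew_nonneg fun g _ => by split_ifs; exacts [ker_nonneg m g z, le_rfl]
  simp only [e1]
  rw [avg_Ew N (2 * m) (fun g z => if kap g < m then ker m g z else 0)]
  have e2 : ∀ g : List (Fin 4), avg N (fun z => if kap g < m then ker m g z else 0) =
      if kap g < m then (1 : ℝ) else 0 := by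
    intro g
    by_cases h : kap g < m
    · simp only [if_pos h]
      exact h2.1 m N g (by omega)
    · simp only [if_neg h]
      exact avg_const N 0
  simp only [e2]
  rw [h1 (2 * m) (fun k => if k < m then (1 : ℝ) else 0), Finset.sum_filter]
  refine le_of_eq (Finset.sum_congr rfl fun k _ => ?_)
  split_ifs <;> simp

theorem bounded_pow (ρ : ℝ) (h0 : 0 < ρ) (h1 : ρ < 1) (a : ℕ) :
    ∃ B : ℝ, 0 < B ∧ ∀ m : ℕ, 1 ≤ m → ρ ^ (2 * m) ≤ B / (m : ℝ) ^ a := by
  have ht := tendsto_pow_const_mul_const_pow_of_abs_lt_one a (r := ρ) (by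
    rw [abs_of_pos h0]; exact h1)
  obtain ⟨B, hB⟩ := ht.bddAbove_range
  refine ⟨max B 1, by positivity, fun m hm => ?_⟩
  have hmpos : (0 : ℝ) < (m : ℝ) ^ a := by
    have : (0 : ℝ) < m := by exact_mod_cast hm
    positivity
  rw [le_div_iff₀ hmpos]
  have hb : (m : ℝ) ^ a * ρ ^ m ≤ B := hB ⟨m, rfl⟩
  have h2 : ρ ^ (2 * m) ≤ ρ ^ m := pow_le_pow_of_le_one h0.le h1.le (by omega)
  calc ρ ^ (2 * m) * (m : ℝ) ^ a ≤ ρ ^ m * (m : ℝ) ^ a :=
        mul_le_mul_of_nonneg_right h2 hmpos.le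
    _ = (m : ℝ) ^ a * ρ ^ m := mul_comm _ _
    _ ≤ B := hb
    _ ≤ max B 1 := le_max_left _ _

end Frqaux

/-- see the docstring of `StmtFrq` in SpecF.lean for the paper proof -/
theorem stmtFrq (h1 : StmtKapLaw) (h2 : StmtKerAvg) (h3 : StmtHFsum) (h4 : StmtTail3) (h5 : StmtFrA) : StmtFrq := by
  classical
  intro a
  obtain ⟨C3, hC3, H3⟩ := h3 a
  obtain ⟨C4, ρ, hC4, hρ0, hρ1, H4⟩ := h4
  obtain ⟨C5, hC5, H5⟩ := h5 a
  obtain ⟨B, hB, HB⟩ := Frqaux.bounded_pow ρ hρ0 hρ1 a
  refine ⟨C4 * B + C3 + C5, by positivity, fun m s N hm hms hsN => ?_⟩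
  have hmpos : (0 : ℝ) < (m : ℝ) ^ a := by
    have : (0 : ℝ) < m := by exact_mod_cast hm
    positivity
  -- the three parts
  have p1 : avg N (fun z => |frq m (2 * m) z - frm m (2 * m) z|) ≤ C4 * B / (m : ℝ) ^ a := by
    refine (Frqaux.avg_abs_frq h1 h2 m N (by omega)).trans ?_
    have hsub : (range (2 * (2 * m) + 1)).filter (fun k : ℕ => k < m) ⊆
        (range (2 * (2 * m) + 1)).filter
          (fun k : ℕ => ¬ 1000 * |(k : ℤ) - ((2 * m : ℕ) : ℤ)| ≤ ((2 * m : ℕ) : ℤ)) := by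
      intro k hk
      rw [Finset.mem_filter] at hk ⊢
      refine ⟨hk.1, ?_⟩
      have hk2 := hk.2
      push_cast
      rw [abs_sub_comm, abs_of_nonneg (by omega)]
      omega
    refine (Finset.sum_le_sum_of_subset_of_nonneg hsub fun k _ _ => Frqaux.P_nonneg _ _).trans ?_
    refine (H4 (2 * m)).trans ?_
    rw [mul_div_assoc]
    exact mul_le_mul_of_nonneg_left (HB m hm) hC4.le
  have p2 : avg N (fun z => |frm m (2 * m) z - fr (2 * m) z|) ≤ C3 / (m : ℝ) ^ a := by
    have := H3 m (2 * m) 0 0 N hm (Nat.zero_le _) (by omega)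
    simp only [Frqaux.Dd_zero, Frqaux.Ddm_zero] at this
    simpa only [abs_sub_comm] using this
  have p3 : avg N (fun z => |fr (2 * m) z - fr s z|) ≤ C5 / (m : ℝ) ^ a := by
    have := H5 (2 * m) s N (by omega) hms hsN
    have e : avg N (fun z => |fr (2 * m) z - fr s z|) = avg N (fun z => |fr s z - fr (2 * m) z|) := by
      simp only [abs_sub_comm]
    rw [e]
    refine this.trans ?_
    apply div_le_div_of_nonneg_left hC5.le hmpos
    apply pow_le_pow_left₀ (by positivity)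
    push_cast
    have : (0 : ℝ) ≤ m := by positivity
    linarith
  have key : avg N (fun z => |frq m (2 * m) z - fr s z|) ≤
      avg N (fun z => |frq m (2 * m) z - frm m (2 * m) z|) +
        avg N (fun z => |frm m (2 * m) z - fr (2 * m) z|) +
        avg N (fun z => |fr (2 * m) z - fr s z|) := by
    rw [← avg_add, ← avg_add]
    refine avg_mono fun z => ?_
    have e : frq m (2 * m) z - fr s z = (frq m (2 * m) z - frm m (2 * m) z) +
        (frm m (2 * m) z - fr (2 * m) z) + (fr (2 * m) z - fr s z) := by ring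
    rw [e]
    exact (abs_add_le _ _).trans (add_le_add (abs_add_le _ _) le_rfl)
  have : (C4 * B + C3 + C5) / (m : ℝ) ^ a =
      C4 * B / (m : ℝ) ^ a + C3 / (m : ℝ) ^ a + C5 / (m : ℝ) ^ a := by ring
  rw [this]
  linarith

end Pool.Agent.Clz
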