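import Pool.Agent.Lib.MP_5a39b1_nt.Clz.SpecF

set_option autoImplicit false

namespace Pool.Agent.Clz

open Finset

namespace Growaux

theorem al_gt_one : 1 < al := by
  unfold al
  rw [one_lt_div (Real.log_pos (by norm_num))]
  exact Real.log_lt_log (by norm_num) (by norm_num)

theorem al_lt_two : al < 2 := by
  unfold al
  rw [div_lt_iff₀ (Real.log_pos (by norm_num))]
  have h : 2 * Real.log 3 = Real.log 9 := by
    rw [show (9 : ℝ) = 3 ^ 2 by norm_num, Real.log_pow]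
    norm_num
  rw [h]
  exact Real.log_lt_log (by norm_num) (by norm_num)

end Growaux

open Growaux in
/-- see the docstring of `StmtGrow` in SpecF.lean for the paper proof -/
theorem stmtGrow (h1 : StmtProp) (h2 : StmtVsum) (h3 : StmtPick) (h4 : StmtCnt) : StmtGrow := by
  obtain ⟨Cs, x₀, n₀, Lk, hCs, hL100, hLs, hSS⟩ := h1
  obtain ⟨ℓ₀, hV⟩ := h2 Cs hCs
  obtain ⟨y₀, hy⟩ := h3 Lk hL100 hLs ℓ₀
  refine ⟨x₀, n₀, fun b hb hper => ?_⟩
  have hal := al_gt_one
  have hal2 := al_lt_two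
  have hlog : 0 < Real.log 3 := Real.log_pos (by norm_num)
  set A : ℝ := |(b : ℝ)| + (Cs + 1) with hA
  have hApos : 0 < A := by
    have := abs_nonneg (b : ℝ)
    linarith
  refine ⟨1 / (2400 * A), by positivity,
    max 1 ⌈A * Real.exp (Real.log 3 * (y₀ * (al - 1)))⌉₊, fun N hN => ?_⟩
  have hN1 : 1 ≤ N := (le_max_left _ _).trans hN
  have hNpos : (0 : ℝ) < N := by
    have : 0 < N := hN1
    exact_mod_cast this
  have hNe : A * Real.exp (Real.log 3 * (y₀ * (al - 1))) ≤ N :=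
    (Nat.le_ceil _).trans (by exact_mod_cast (le_max_right _ _).trans hN)
  set β : ℝ := Real.log ((N : ℝ) / A) / Real.log 3 with hβ
  have hβy : y₀ * (al - 1) ≤ β := by
    rw [hβ, le_div_iff₀ hlog]
    have h5 : Real.exp (Real.log 3 * (y₀ * (al - 1))) ≤ (N : ℝ) / A := by
      rw [le_div_iff₀ hApos]
      linarith
    have h6 := Real.log_le_log (Real.exp_pos _) h5
    rw [Real.log_exp] at h6
    linarith
  have hal1 : 0 < al - 1 := by linarith
  obtain ⟨k, hk0, hk1, hk2⟩ := hy (β / (al - 1)) (by rwa [le_div_iff₀ hal1])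
  rw [le_div_iff₀ hal1] at hk1
  rw [div_le_iff₀ hal1] at hk2
  have hv := hV (Lk k) β b hk0 hk1 hk2 (hSS k b hb)
  have hlow : ∀ L ∈ (Finset.Icc (Lk k / 200) (Lk k / 20)).image (fun τ => Lk k + τ),
      Real.log ((N : ℝ) / (|(b : ℝ)| + (Cs + 1))) / Real.log 3 ≤ (L : ℝ) * al := by
    intro L hL
    obtain ⟨τ, _, rfl⟩ := Finset.mem_image.1 hL
    have e : Real.log ((N : ℝ) / (|(b : ℝ)| + (Cs + 1))) / Real.log 3 = β := rfl
    rw [e]
    have hLk : (0 : ℝ) ≤ (Lk k : ℝ) := Nat.cast_nonneg _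
    have hτ : (0 : ℝ) ≤ (τ : ℝ) := Nat.cast_nonneg _
    push_cast
    have h7 : (Lk k : ℝ) * al ≤ ((Lk k : ℝ) + τ) * al := by
      apply mul_le_mul_of_nonneg_right _ (by linarith)
      linarith
    have h8 : 1022 / 1000 * (Lk k : ℝ) * (al - 1) ≤ (Lk k : ℝ) * al := by
      nlinarith
    linarith
  have hc := h4 b (Cs + 1) N ((Finset.Icc (Lk k / 200) (Lk k / 20)).image (fun τ => Lk k + τ))
    hper (by linarith) hN1 hlow
  rw [Finset.sum_image (fun i _ j _ hij => by simpa using hij)] at hc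
  refine lt_of_lt_of_le ?_ hc
  have h9 : (N : ℝ) / (3 * A) * (1 / 400) ≤ (N : ℝ) / (3 * A) *
      ∑ τ ∈ Finset.Icc (Lk k / 200) (Lk k / 20), VV (Lk k + τ) (kz β (Lk k + τ)) (Cs + 1) b :=
    mul_le_mul_of_nonneg_left hv (by positivity)
  refine lt_of_lt_of_le ?_ h9
  have e1 : 1 / (2400 * A) * (N : ℝ) = (N : ℝ) / (3 * A) * (1 / 800) := by
    field_simp
    norm_num
  rw [e1]
  have : 0 < (N : ℝ) / (3 * A) := by positivity
  nlinarith

end Pool.Agent.Clz
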