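import Pool.Agent.Lib.MP_5a39b1_nt.Clz.SpecF

set_option autoImplicit false

namespace Pool.Agent.Clz

open Finset

namespace Locaux

/-- appending letters after `m` threes does not change the kernel modulo `3^m` -/
theorem ker_append (m : ℕ) (g g' : List (Fin 4)) (h : m ≤ kap g) (z : ℤ) :
    ker m (g ++ g') z = ker m g z := by
  unfold ker
  have h1 : min m (kap (g ++ g')) = m := by
    rw [kap_append]; exact min_eq_left (by omega)
  have h2 : min m (kap g) = m := min_eq_left h
  rw [h1, h2]
  have e : (4 : ℤ) ^ (g ++ g').length * z - FF (g ++ g') =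
      4 ^ g'.length * (4 ^ g.length * z - FF g) - 3 ^ kap g * FF g' := by
    rw [FF_append, List.length_append, pow_add]; ring
  have hd : (3 : ℤ) ^ m ∣ 3 ^ kap g * FF g' := Dvd.dvd.mul_right (pow_dvd_pow 3 h) _
  have hiff : (3 : ℤ) ^ m ∣ 4 ^ (g ++ g').length * z - FF (g ++ g') ↔
      (3 : ℤ) ^ m ∣ 4 ^ g.length * z - FF g := by
    rw [e]
    constructor
    · intro hh
      have h3 : (3 : ℤ) ^ m ∣ 4 ^ g'.length * (4 ^ g.length * z - FF g) :=
        (dvd_sub_left hd).1 hh
      have hc : IsCoprime ((3 : ℤ) ^ m) (4 ^ g'.length) := by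
        apply IsCoprime.pow
        exact ⟨-1, 1, by norm_num⟩
      exact hc.dvd_of_dvd_mul_left h3
    · intro hh
      exact dvd_sub (Dvd.dvd.mul_left hh _) hd
  simp only [hiff]

/-- the law of `kap` at a point -/
theorem Ew_point (h1 : StmtBinBasic) (h3 : StmtKapLaw) (t a κ : ℕ) :
    Ew t (fun g' => if a + kap g' = κ then (1 : ℝ) else 0) = P (2 * t) ((κ : ℤ) - a) := by
  have hk := h3 t (fun k => if a + k = κ then (1 : ℝ) else 0)
  rw [hk]
  obtain ⟨_, hsupp, _⟩ := h1
  by_cases hc : a ≤ κ ∧ κ - a < 2 * t + 1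
  · obtain ⟨ha, hb⟩ := hc
    rw [Finset.sum_eq_single (κ - a)]
    · rw [if_pos (by omega), mul_one]
      congr 1
      push_cast [ha]
      ring
    · intro k _ hk'
      rw [if_neg (by omega), mul_zero]
    · intro hn
      exact absurd (Finset.mem_range.2 hb) hn
  · rw [hsupp (2 * t) ((κ : ℤ) - a) (by
      rw [not_and_or] at hc
      rcases hc with hc | hc
      · left; omega
      · by_cases ha : a ≤ κ
        · right; push_cast; omega
        · left; omega)]
    apply Finset.sum_eq_zero
    intro k hk'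
    rw [Finset.mem_range] at hk'
    rw [if_neg (by
      intro h
      apply hc
      constructor <;> omega), mul_zero]

end Locaux

open Locaux in
/-- see the docstring of `StmtLoc` in SpecF.lean for the paper proof -/
theorem stmtLoc (h1 : StmtBinBasic) (h2 : StmtBinShift) (h3 : StmtKapLaw) : StmtLoc := by
  intro m r τ κ z hr hs
  obtain ⟨t, rfl⟩ := Nat.exists_eq_add_of_lt hr
  set t' := t + 1 with ht'
  have hτ : r + t + 1 = r + t' := by omega
  rw [hτ] at hs ⊢
  have hsub : (((r + t' : ℕ) : ℝ) - r) = (t' : ℝ) := by push_cast; ring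
  rw [hsub] at hs
  have ht1 : 1 ≤ t' := by omega
  have ht0 : (0 : ℝ) < t' := by exact_mod_cast ht1
  unfold frq Ddm
  rw [Ew_append, ← Ew_mul]
  apply Ew_mono
  intro g hg
  by_cases hm : m ≤ kap g
  · rw [if_pos hm]
    have e1 : Ew t' (fun g' => if kap ((g ++ g').take (r + t')) = κ then ker m (g ++ g') z else 0)
        = ker m g z * P (2 * t') ((κ : ℤ) - kap g) := by
      rw [← Ew_point h1 h3 t' (kap g) κ, ← Ew_mul]
      apply Ew_congr
      intro g' hg'
      have hl : (g ++ g').take (r + t') = g ++ g' := by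
        apply List.take_of_length_le
        rw [List.length_append, hg, hg']
      rw [hl, kap_append, ker_append m g g' hm]
      split_ifs <;> simp
    rw [e1]
    have hP : 1 / (4 * Real.sqrt t') ≤ P (2 * t') ((κ : ℤ) - kap g) := by
      have h4 := h2.2.2.2.1 t' ((κ : ℤ) - kap g - t') ht1 (by
        refine le_trans ?_ hs
        have hk : (kap g : ℝ) ≤ 2 * r := by
          have := kap_le g
          rw [hg] at this
          exact_mod_cast this
        have hk0 : (0 : ℝ) ≤ kap g := by positivity
        have e2 : (((κ : ℤ) - kap g - t' : ℤ) : ℝ) =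
            ((κ : ℝ) - ((r + t' : ℕ) : ℝ)) - ((kap g : ℝ) - r) := by push_cast; ring
        rw [e2]
        have h5 : |(kap g : ℝ) - r| ≤ r := by
          rw [abs_le]; constructor <;> linarith
        have h6 := abs_sub ((κ : ℝ) - ((r + t' : ℕ) : ℝ)) ((kap g : ℝ) - r)
        linarith)
      have e3 : (t' : ℤ) + ((κ : ℤ) - kap g - t') = (κ : ℤ) - kap g := by ring
      rw [e3] at h4
      exact h4
    have hle : 1 / (4 * Real.sqrt ((r + t' : ℕ) : ℝ)) ≤ 1 / (4 * Real.sqrt t') := by
      have hs0 : 0 < Real.sqrt t' := Real.sqrt_pos.2 ht0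
      apply one_div_le_one_div_of_le (by positivity)
      have : Real.sqrt t' ≤ Real.sqrt ((r + t' : ℕ) : ℝ) := by
        apply Real.sqrt_le_sqrt
        push_cast
        have : (0 : ℝ) ≤ r := by positivity
        linarith
      linarith
    have hk := ker_nonneg m g z
    calc 1 / (4 * Real.sqrt ((r + t' : ℕ) : ℝ)) * ker m g z
        ≤ P (2 * t') ((κ : ℤ) - kap g) * ker m g z :=
          mul_le_mul_of_nonneg_right (hle.trans hP) hk
      _ = _ := mul_comm _ _
  · rw [if_neg hm, mul_zero]
    apply Ew_nonneg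
    intro g' _
    split_ifs
    · exact ker_nonneg _ _ _
    · exact le_rfl

end Pool.Agent.Clz
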