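import Pool.Agent.Lib.MP_5a39b1_nt.Clz.SpecF

set_option autoImplicit false

namespace Pool.Agent.Clz

open Finset

namespace Odoaux

/-- the backward sequence `b, 4b+1, 4(4b+1)+1, ...` -/
def bb (b : ℤ) : ℕ → ℤ
  | 0 => b
  | i + 1 => 4 * bb b i + 1

theorem bb_eq (b : ℤ) (i : ℕ) : 3 * bb b i + 1 = 4 ^ i * (3 * b + 1) := by
  induction i with
  | zero => simp [bb]
  | succ i ih =>
    simp only [bb, pow_succ]
    linear_combination 4 * ih

theorem T_two_pow (a : ℤ) (m : ℕ) : T^[m] (2 ^ m * a) = a := by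
  induction m with
  | zero => simp
  | succ m ih =>
    rw [Function.iterate_succ_apply]
    have h : T (2 ^ (m + 1) * a) = 2 ^ m * a := by
      have e : (2 : ℤ) ^ (m + 1) * a = 2 * (2 ^ m * a) := by ring
      rw [e]
      unfold T
      rw [if_pos (by omega)]
      omega
    rw [h, ih]

theorem T_of_odd (b : ℤ) (h : b % 2 = 1) : T b = (3 * b + 1) / 2 := by
  unfold T
  rw [if_neg (by omega)]

theorem reach (a b : ℤ) (j : ℕ) (h : 3 * b + 1 = 2 ^ (j + 1) * a) : T^[j + 1] b = a := by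
  have e : (2 : ℤ) ^ (j + 1) * a = 2 * (2 ^ j * a) := by ring
  rw [Function.iterate_succ_apply]
  have hT : T b = 2 ^ j * a := by
    rw [T_of_odd b (by omega)]
    omega
  rw [hT, T_two_pow]

theorem four_pow (n : ℕ) : ∃ c : ℤ, (4 : ℤ) ^ (3 ^ n) = 1 + 3 ^ (n + 1) * (1 + 3 * c) := by
  induction n with
  | zero => exact ⟨0, by norm_num⟩
  | succ n ih =>
    obtain ⟨c, hc⟩ := ih
    have e : (4 : ℤ) ^ (3 ^ (n + 1)) = ((4 : ℤ) ^ (3 ^ n)) ^ 3 := by
      rw [← pow_mul, pow_succ]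
    rw [e, hc]
    -- (1 + x)^3 = 1 + 3 x + 3 x^2 + x^3, x = 3^(n+1) u
    refine ⟨c + 3 ^ n * (1 + 3 * c) ^ 2 + 3 ^ (2 * n) * (1 + 3 * c) ^ 3, ?_⟩
    have e1 : (3 : ℤ) ^ (2 * n) = 3 ^ n * 3 ^ n := by rw [two_mul, pow_add]
    rw [e1]
    ring

theorem bb_shift (b : ℤ) (i s : ℕ) : 3 * bb b (i + s) + 1 = 4 ^ s * (3 * bb b i + 1) := by
  rw [bb_eq, bb_eq, pow_add]
  ring

theorem bb_step (b : ℤ) (i n : ℕ) : ∃ d : ℤ, bb b (i + 3 ^ n) = bb b i + 3 ^ n * (1 + 3 * d) := by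
  obtain ⟨c, hc⟩ := four_pow n
  have h := bb_shift b i (3 ^ n)
  rw [hc] at h
  refine ⟨bb b i * (1 + 3 * c) + c, ?_⟩
  have h3 : (3 : ℤ) * bb b (i + 3 ^ n) = 3 * (bb b i + 3 ^ n * (1 + 3 * (bb b i * (1 + 3 * c) + c))) := by
    linear_combination h
  omega

theorem residue (b x : ℤ) (n : ℕ) : ∀ N : ℕ, ∃ i : ℕ, N ≤ i ∧ (3 : ℤ) ^ n ∣ bb b i - x := by
  induction n with
  | zero => exact fun N => ⟨N, le_rfl, by simp⟩
  | succ n ih =>
    intro N
    obtain ⟨i, hi, e, he⟩ := ih N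
    obtain ⟨d1, h1⟩ := bb_step b i n
    obtain ⟨d2, h2⟩ := bb_step b (i + 3 ^ n) n
    have hcase : e % 3 = 0 ∨ e % 3 = 2 ∨ e % 3 = 1 := by omega
    rcases hcase with h | h | h
    · refine ⟨i, hi, ?_⟩
      obtain ⟨f, hf⟩ : ∃ f, e = 3 * f := ⟨e / 3, by omega⟩
      exact ⟨f, by rw [he, hf]; ring⟩
    · refine ⟨i + 3 ^ n, le_add_right hi, ?_⟩
      obtain ⟨f, hf⟩ : ∃ f, e = 3 * f - 1 := ⟨(e + 1) / 3, by omega⟩
      refine ⟨f + d1, ?_⟩
      rw [hf] at he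
      linear_combination h1 + he
    · refine ⟨i + 3 ^ n + 3 ^ n, le_add_right (le_add_right hi), ?_⟩
      obtain ⟨f, hf⟩ : ∃ f, e = 3 * f - 2 := ⟨(e + 2) / 3, by omega⟩
      refine ⟨f + d1 + d2, ?_⟩
      rw [hf] at he
      linear_combination h1 + h2 + he

theorem bb_inj (b : ℤ) : Function.Injective (bb b) := by
  intro i j h
  have hi := bb_eq b i
  have hj := bb_eq b j
  rw [h] at hi
  have hne : 3 * b + 1 ≠ 0 := by omega
  have h4 : (4 : ℤ) ^ i = 4 ^ j := mul_right_cancel₀ hne (hi.symm.trans hj)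
  exact Int.pow_right_injective (by norm_num) h4

end Odoaux

open Odoaux in
/-- see the docstring of `StmtOdo` in SpecF.lean for the paper proof -/
theorem stmtOdo : StmtOdo := by
  intro a ha x₀ n₀
  -- the first preimage
  obtain ⟨j, b, hb⟩ : ∃ (j : ℕ) (b : ℤ), 3 * b + 1 = 2 ^ (j + 1) * a := by
    have h3 : a % 3 = 1 ∨ a % 3 = 2 := by omega
    rcases h3 with h | h
    · exact ⟨1, (4 * a - 1) / 3, by norm_num; omega⟩
    · exact ⟨0, (2 * a - 1) / 3, by norm_num; omega⟩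
  have hreach : ∀ i : ℕ, ∃ k : ℕ, T^[k] (bb b i) = a := by
    intro i
    refine ⟨j + 2 * i + 1, reach a (bb b i) (j + 2 * i) ?_⟩
    rw [bb_eq, hb]
    have e : (4 : ℤ) ^ i = 2 ^ (2 * i) := by rw [pow_mul]; norm_num
    rw [e]
    ring
  by_cases hper : ∃ k, 1 ≤ k ∧ T^[k] a = a
  · obtain ⟨k, hk1, hk⟩ := hper
    -- the orbit of `a` is finite
    have hfin : (Set.range fun m : ℕ => T^[m] a).Finite := by
      refine (Set.Finite.image (fun m : ℕ => T^[m] a) (Set.finite_Iio k)).subset ?_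
      rintro _ ⟨m, rfl⟩
      have hp : Function.IsPeriodicPt T k a := hk
      exact ⟨m % k, Nat.mod_lt _ (by omega), hp.iterate_mod_apply m⟩
    have hfin2 : {i : ℕ | bb b i ∈ Set.range fun m : ℕ => T^[m] a}.Finite :=
      hfin.preimage ((bb_inj b).injOn)
    obtain ⟨N, hN⟩ := hfin2.bddAbove
    obtain ⟨i, hi, hdvd⟩ := residue b x₀ n₀ (N + 1)
    refine ⟨bb b i, hdvd, hreach i, ?_⟩
    intro l hl1 hl
    obtain ⟨s, hs⟩ := hreach i
    have hmem : i ∈ {i : ℕ | bb b i ∈ Set.range fun m : ℕ => T^[m] a} := by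
      refine ⟨l * s - s, ?_⟩
      have hp : Function.IsPeriodicPt T l (bb b i) := hl
      have h1 : T^[l * s] (bb b i) = bb b i := hp.mul_const s
      have h2 : l * s = (l * s - s) + s := by
        have : s ≤ l * s := Nat.le_mul_of_pos_left s (by omega)
        omega
      rw [h2, Function.iterate_add_apply, hs] at h1
      exact h1
    have := hN hmem
    omega
  · obtain ⟨i, -, hdvd⟩ := residue b x₀ n₀ 0
    refine ⟨bb b i, hdvd, hreach i, ?_⟩
    intro l hl1 hl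
    obtain ⟨s, hs⟩ := hreach i
    refine hper ⟨l, hl1, ?_⟩
    have h1 : T^[l] (T^[s] (bb b i)) = T^[s] (T^[l] (bb b i)) := by
      rw [← Function.iterate_add_apply, ← Function.iterate_add_apply, add_comm]
    rw [hl, hs] at h1
    exact h1

end Pool.Agent.Clz
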