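import Pool.Agent.Lib.MP_5a39b1_nt.Clz.SpecF

set_option autoImplicit false

namespace Pool.Agent.Clz

open Finset

namespace Stepaux

theorem RR_nonneg (g : List (Fin 4)) : 0 ≤ RR g := by
  unfold RR
  have := FF_nonneg g
  have h : (0 : ℝ) ≤ (FF g : ℝ) := by exact_mod_cast this
  positivity

theorem RR_append (g g' : List (Fin 4)) :
    RR (g ++ g') = RR g + 3 ^ kap g / 4 ^ g.length * RR g' := by
  unfold RR
  rw [FF_append, List.length_append, pow_add]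
  push_cast
  field_simp

theorem pow_kap_le (g : List (Fin 4)) (h : 1000 * |(kap g : ℤ) - (g.length : ℤ)| ≤ (g.length : ℤ)) :
    (3 : ℝ) ^ kap g ≤ (16 / 5) ^ g.length := by
  have h1 : 50 * kap g ≤ 51 * g.length := by
    have := (abs_le.mp (show |(kap g : ℤ) - (g.length : ℤ)| ≤ |(kap g : ℤ) - (g.length : ℤ)| from le_rfl)).2
    omega
  have h2 : ((3 : ℝ) ^ kap g) ^ 50 ≤ ((16 / 5) ^ g.length) ^ 50 := by
    calc ((3 : ℝ) ^ kap g) ^ 50 = 3 ^ (50 * kap g) := by rw [← pow_mul, mul_comm]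
      _ ≤ 3 ^ (51 * g.length) := pow_le_pow_right₀ (by norm_num) h1
      _ = (3 ^ 51) ^ g.length := by rw [pow_mul]
      _ ≤ ((16 / 5) ^ 50) ^ g.length := by
          refine pow_le_pow_left₀ (by positivity) ?_ _
          norm_num
      _ = ((16 / 5) ^ g.length) ^ 50 := by rw [← pow_mul, ← pow_mul, mul_comm]
  exact le_of_pow_le_pow_left₀ (by norm_num) (by positivity) h2

theorem typ_append {C : ℝ} {g g' : List (Fin 4)} (hg : typ C g) (hg' : typ ((11 / 10) ^ g.length) g') :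
    typ (C + (9 / 10) ^ g.length) (g ++ g') := by
  obtain ⟨h1, h2⟩ := hg
  obtain ⟨h3, h4⟩ := hg'
  refine ⟨?_, ?_⟩
  · rw [kap_append, List.length_append]
    push_cast
    have a1 := abs_add_le ((kap g : ℤ) - g.length) ((kap g' : ℤ) - g'.length)
    have a2 : ((kap g : ℤ) - g.length) + ((kap g' : ℤ) - g'.length)
      = (kap g : ℤ) + kap g' - ((g.length : ℤ) + g'.length) := by ring
    rw [a2] at a1
    omega
  · rw [RR_append]
    have a1 := pow_kap_le g h1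
    have a2 : (3 : ℝ) ^ kap g / 4 ^ g.length * RR g' ≤ (9 / 10) ^ g.length := by
      calc (3 : ℝ) ^ kap g / 4 ^ g.length * RR g'
          ≤ (16 / 5) ^ g.length / 4 ^ g.length * (11 / 10) ^ g.length := by
            gcongr
            exact RR_nonneg g'
        _ = (22 / 25) ^ g.length := by
            rw [← div_pow, ← mul_pow]; norm_num
        _ ≤ (9 / 10) ^ g.length := pow_le_pow_left₀ (by norm_num) (by norm_num) _
    linarith

/-- `3^N`-periodicity in the form of arbitrary multiples -/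
theorem per_mul {φ : ℤ → ℝ} {N : ℕ} (h : ∀ z, φ (z + 3 ^ N) = φ z) (z : ℤ) (j : ℕ) :
    φ (z + j * 3 ^ N) = φ z := by
  induction j with
  | zero => simp
  | succ j ih =>
    rw [← ih, ← h (z + j * 3 ^ N)]
    congr 1
    push_cast; ring

theorem Nz_add (g : List (Fin 4)) (N : ℕ) (h : kap g ≤ N) (z : ℤ) :
    Nz g (z + 3 ^ N) = Nz g z + 4 ^ g.length * 3 ^ (N - kap g) := by
  unfold Nz
  have e : 4 ^ g.length * (z + 3 ^ N) - FF g
      = (4 ^ g.length * z - FF g) + (4 ^ g.length * 3 ^ (N - kap g)) * 3 ^ kap g := by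
    have : (3 : ℤ) ^ N = 3 ^ (N - kap g) * 3 ^ kap g := by
      rw [← pow_add]; congr 1; omega
    rw [this]; ring
  rw [e, Int.add_mul_ediv_right _ _ (by positivity)]

theorem kerF_Nz_periodic {φ : ℤ → ℝ} {M : ℕ} (hφ : ∀ z, φ (z + 3 ^ M) = φ z) (g : List (Fin 4)) (N : ℕ)
    (h : kap g + M ≤ N) (z : ℤ) :
    kerF g (z + 3 ^ N) * φ (Nz g (z + 3 ^ N)) = kerF g z * φ (Nz g z) := by
  rw [kerF_periodic g N (by omega), Nz_add g N (by omega)]
  congr 1
  have : (4 : ℤ) ^ g.length * 3 ^ (N - kap g) = ((4 ^ g.length * 3 ^ (N - kap g - M) : ℕ) : ℤ) * 3 ^ M := by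
    push_cast
    rw [mul_assoc, ← pow_add]
    congr 2
    omega
  rw [this]
  exact per_mul hφ _ _

theorem kerF_append (hW : StmtWords) (g g' : List (Fin 4)) (z : ℤ) :
    kerF (g ++ g') z = kerF g z * kerF g' (Nz g z) := by
  obtain ⟨-, -, -, -, -, -, h7, h8⟩ := hW
  by_cases hv : valid g z
  · rw [h7 g g' z hv]
    unfold kerF
    rw [if_pos (show (3 : ℤ) ^ kap g ∣ 4 ^ g.length * z - FF g from hv)]
  · rw [h8 g g' z hv]
    have : kerF g z = 0 := by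
      unfold kerF
      rw [if_neg (show ¬ (3 : ℤ) ^ kap g ∣ 4 ^ g.length * z - FF g from hv)]
    rw [this, zero_mul]

theorem kerF_Nz_append (hW : StmtWords) (φ : ℤ → ℝ) (g g' : List (Fin 4)) (z : ℤ) :
    kerF (g ++ g') z * φ (Nz (g ++ g') z) = kerF g z * (kerF g' (Nz g z) * φ (Nz g' (Nz g z))) := by
  rw [kerF_append hW]
  by_cases hv : valid g z
  · rw [hW.2.2.1 g g' z hv]; ring
  · have : kerF g z = 0 := by
      unfold kerF
      rw [if_neg (show ¬ (3 : ℤ) ^ kap g ∣ 4 ^ g.length * z - FF g from hv)]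
    rw [this]; ring

theorem fr_add (hW : StmtWords) (τ r : ℕ) (z : ℤ) :
    fr (τ + r) z = Ew τ (fun g => kerF g z * fr r (Nz g z)) := by
  unfold fr
  rw [Ew_append]
  refine Ew_congr fun g _ => ?_
  rw [← Ew_mul]
  exact Ew_congr fun g' _ => kerF_append hW g g' z

open Classical in
theorem SS_append (hW : StmtWords) (L τ : ℕ) (C : ℝ) (φ : ℤ → ℝ) (hφ : ∀ z, 0 ≤ φ z) (x : ℤ) :
    SS L C (fun z => SS τ ((11 / 10) ^ L) φ z) x ≤ SS (L + τ) (C + (9 / 10) ^ L) φ x := by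
  unfold SS
  rw [Ew_append]
  refine Ew_mono fun g hg => ?_
  by_cases h : typ C g
  · rw [if_pos h, ← Ew_mul]
    refine Ew_mono fun g' _ => ?_
    by_cases h' : typ ((11 / 10) ^ L) g'
    · rw [if_pos h', if_pos, kerF_Nz_append hW]
      rw [← hg] at h' ⊢
      exact typ_append h h'
    · rw [if_neg h', mul_zero]
      split_ifs
      · exact mul_nonneg (kerF_nonneg _ _) (hφ _)
      · exact le_rfl
  · rw [if_neg h]
    refine Ew_nonneg fun g' _ => ?_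
    split_ifs
    · exact mul_nonneg (kerF_nonneg _ _) (hφ _)
    · exact le_rfl

open Classical in
/-- the contribution of the atypical words -/
noncomputable def chi (τ r : ℕ) (D : ℝ) (z : ℤ) : ℝ :=
  Ew τ (fun g => if typ D g then 0 else kerF g z * fr r (Nz g z))

theorem chi_nonneg (τ r : ℕ) (D : ℝ) (z : ℤ) : 0 ≤ chi τ r D z := by
  unfold chi
  refine Ew_nonneg fun g _ => ?_
  split_ifs
  · exact le_rfl
  · exact mul_nonneg (kerF_nonneg _ _) (fr_nonneg _ _)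

theorem chi_eq (hW : StmtWords) (τ r : ℕ) (D : ℝ) (z : ℤ) :
    SS τ D (fr r) z = fr (τ + r) z - chi τ r D z := by
  classical
  rw [fr_add hW, SS, chi, ← Ew_sub]
  refine Ew_congr fun g _ => ?_
  split_ifs <;> ring

theorem chi_periodic (τ r : ℕ) (D : ℝ) (z : ℤ) :
    chi τ r D (z + 3 ^ (2 * τ + 2 * r)) = chi τ r D z := by
  unfold chi
  refine Ew_congr fun g hg => ?_
  have := kap_le g
  rw [kerF_Nz_periodic (M := 2 * r) (fun z => fr_periodic r (2 * r) le_rfl z) g (2 * τ + 2 * r) (by omega)]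

open Classical in
theorem avg_chi (hK : StmtKerAvg) (τ r : ℕ) (D : ℝ) :
    avg (2 * τ + 2 * r) (chi τ r D) = Ew τ (fun g => if typ D g then (0 : ℝ) else 1) := by
  have e : chi τ r D = fun z => Ew τ (fun g => (fun (g : List (Fin 4)) (z : ℤ) =>
    if typ D g then 0 else kerF g z * fr r (Nz g z)) g z) := rfl
  rw [e, avg_Ew]
  refine Ew_congr fun g hg => ?_
  have hk := kap_le g
  by_cases h : typ D g
  · simp only [if_pos h]
    exact avg_const _ _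
  · simp only [if_neg h]
    rw [hK.2.2 g (2 * r) (2 * τ + 2 * r) (fr r) (fun z => fr_periodic r (2 * r) le_rfl z) (by omega)]
    exact hK.2.1 (2 * r) r le_rfl

theorem SS_mono (L : ℕ) (C : ℝ) {φ ψ : ℤ → ℝ} (h : ∀ z, φ z ≤ ψ z) (x : ℤ) : SS L C φ x ≤ SS L C ψ x := by
  unfold SS
  refine Ew_mono fun g _ => ?_
  split_ifs
  · exact mul_le_mul_of_nonneg_left (h _) (kerF_nonneg _ _)
  · exact le_rfl

theorem SS_sub (L : ℕ) (C : ℝ) (φ ψ : ℤ → ℝ) (x : ℤ) :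
    SS L C (fun z => φ z - ψ z) x = SS L C φ x - SS L C ψ x := by
  unfold SS
  rw [← Ew_sub]
  refine Ew_congr fun g _ => ?_
  split_ifs <;> ring

/-- the inequality with the three error terms -/
theorem step_ineq (hW : StmtWords) (hK : StmtKerAvg) (hS : StmtSliceSum) (L : ℕ) (C : ℝ) (hC : 0 ≤ C) (x : ℤ)
    (E₁ E₂ : ℝ)
    (h1 : avg (2 * (L / 100) + 2 * ((L + L / 100) / 100))
      (fun z => |fr (L / 100 + (L + L / 100) / 100) z - fr (L / 100) z|) ≤ E₁)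
    (h2 : avg (2 * (L / 100) + 2 * ((L + L / 100) / 100)) (chi (L / 100) ((L + L / 100) / 100) ((11 / 10) ^ L)) ≤ E₂) :
    SS L C (fr (L / 100)) x - (L + 1) * (C + 1) * E₁ - (L + 1) * (C + 1) * E₂
      ≤ SS (L + L / 100) (C + (9 / 10) ^ L) (fr ((L + L / 100) / 100)) x := by
  set τ := L / 100 with hτ
  set r' := (L + τ) / 100 with hr'
  have hn : 5 * (2 * τ + 2 * r') ≤ L := by omega
  refine le_trans ?_ (SS_append hW L τ C (fr r') (fr_nonneg r') x)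
  have hper1 : ∀ z : ℤ, |fr (τ + r') (z + 3 ^ (2 * τ + 2 * r')) - fr τ (z + 3 ^ (2 * τ + 2 * r'))|
      = |fr (τ + r') z - fr τ z| := by
    intro z
    rw [fr_periodic (τ + r') _ (by omega), fr_periodic τ _ (by omega)]
  have a1 := hS L (2 * τ + 2 * r') C x (fun z => |fr (τ + r') z - fr τ z|) hC hn
    (fun z => abs_nonneg _) hper1
  have a2 := hS L (2 * τ + 2 * r') C x (chi τ r' ((11 / 10) ^ L)) hC hn
    (fun z => chi_nonneg _ _ _ z) (fun z => chi_periodic _ _ _ z)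
  have hL : (0 : ℝ) ≤ (L + 1) * (C + 1) := by positivity
  have a3 : SS L C (fun z => |fr (τ + r') z - fr τ z|) x ≤ (L + 1) * (C + 1) * E₁ :=
    a1.trans (mul_le_mul_of_nonneg_left h1 hL)
  have a4 : SS L C (chi τ r' ((11 / 10) ^ L)) x ≤ (L + 1) * (C + 1) * E₂ :=
    a2.trans (mul_le_mul_of_nonneg_left h2 hL)
  have a5 : SS L C (fun z => (fr τ z - |fr (τ + r') z - fr τ z|) - chi τ r' ((11 / 10) ^ L) z) x
      ≤ SS L C (fun z => SS τ ((11 / 10) ^ L) (fr r') z) x := by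
    refine SS_mono L C (fun z => ?_) x
    rw [chi_eq hW]
    have := neg_abs_le (fr (τ + r') z - fr τ z)
    linarith
  have a6 := SS_sub L C (fun z => fr τ z - |fr (τ + r') z - fr τ z|) (chi τ r' ((11 / 10) ^ L)) x
  have a7 := SS_sub L C (fr τ) (fun z => |fr (τ + r') z - fr τ z|) x
  rw [a6, a7] at a5
  linarith

/-! ### the error terms -/

theorem ev1 (K : ℝ) : ∀ᶠ L : ℕ in Filter.atTop, ((L : ℝ) + 1) * K / (L : ℝ) ^ 4 ≤ 1 / 3 * (1 / (L : ℝ) ^ 2) := by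
  have h : ∀ᶠ L : ℕ in Filter.atTop, 6 * |K| ≤ (L : ℝ) := by
    have := tendsto_natCast_atTop_atTop (R := ℝ)
    exact this.eventually_ge_atTop _
  filter_upwards [h, Filter.eventually_ge_atTop 1] with L hL h1
  have hL1 : (1 : ℝ) ≤ L := by exact_mod_cast h1
  have hK := le_abs_self K
  have hK0 := abs_nonneg K
  rw [div_le_iff₀ (by positivity)]
  have e : 1 / 3 * (1 / (L : ℝ) ^ 2) * (L : ℝ) ^ 4 = (L : ℝ) ^ 2 / 3 := by
    field_simp
  rw [e]
  nlinarith [mul_le_mul_of_nonneg_left hK (show (0 : ℝ) ≤ L + 1 by linarith),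
    mul_le_mul_of_nonneg_right hL (show (0 : ℝ) ≤ L by linarith)]

theorem ev2 (K ρ : ℝ) (h0 : 0 < ρ) (h1 : ρ < 1) :
    ∀ᶠ L : ℕ in Filter.atTop, ((L : ℝ) + 1) * K * ρ ^ (L / 100) ≤ 1 / 3 * (1 / (L : ℝ) ^ 2) := by
  have t1 : Filter.Tendsto (fun n : ℕ => (n : ℝ) ^ 3 * ρ ^ n) Filter.atTop (nhds 0) :=
    tendsto_pow_const_mul_const_pow_of_abs_lt_one 3 (by rw [abs_of_pos h0]; exact h1)
  have t2 : Filter.Tendsto (fun L : ℕ => L / 100) Filter.atTop Filter.atTop :=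
    Nat.tendsto_div_const_atTop (by norm_num)
  have t3 := (t1.comp t2).const_mul (6 * |K| * 200 ^ 3)
  rw [mul_zero] at t3
  have h := t3.eventually (gt_mem_nhds (show (0 : ℝ) < 1 by norm_num))
  filter_upwards [h, Filter.eventually_ge_atTop 100] with L hL h100
  simp only [Function.comp] at hL
  have hLr : (L : ℝ) ≤ 200 * ((L / 100 : ℕ) : ℝ) := by
    have : L ≤ 200 * (L / 100) := by omega
    exact_mod_cast this
  have hL1 : (1 : ℝ) ≤ L := by
    have : 1 ≤ L := by omega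
    exact_mod_cast this
  set q := ((L / 100 : ℕ) : ℝ) with hq
  have hρ : 0 < ρ ^ (L / 100) := by positivity
  have hK := le_abs_self K
  have hK0 := abs_nonneg K
  have e : 1 / 3 * (1 / (L : ℝ) ^ 2) = 1 / (3 * (L : ℝ) ^ 2) := by
    field_simp
  rw [e, le_div_iff₀ (by positivity)]
  have hL3 : (L : ℝ) ^ 3 ≤ 200 ^ 3 * q ^ 3 := by
    rw [← mul_pow]
    exact pow_le_pow_left₀ (by positivity) hLr 3
  have b1 : ((L : ℝ) + 1) * K * ρ ^ (L / 100) * (3 * (L : ℝ) ^ 2) ≤ (2 * L) * |K| * ρ ^ (L / 100) * (3 * (L : ℝ) ^ 2) := by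
    have : ((L : ℝ) + 1) * K ≤ (2 * L) * |K| := by
      calc ((L : ℝ) + 1) * K ≤ ((L : ℝ) + 1) * |K| := by gcongr
        _ ≤ (2 * L) * |K| := by gcongr; linarith
    gcongr
  have b2 : (2 * L) * |K| * ρ ^ (L / 100) * (3 * (L : ℝ) ^ 2) = 6 * |K| * ρ ^ (L / 100) * (L : ℝ) ^ 3 := by ring
  have b3 : 6 * |K| * ρ ^ (L / 100) * (L : ℝ) ^ 3 ≤ 6 * |K| * ρ ^ (L / 100) * (200 ^ 3 * q ^ 3) := by
    gcongr
  have b4 : 6 * |K| * ρ ^ (L / 100) * (200 ^ 3 * q ^ 3) = 6 * |K| * 200 ^ 3 * (q ^ 3 * ρ ^ (L / 100)) := by ring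
  linarith

theorem ev3 (K : ℝ) :
    ∀ᶠ L : ℕ in Filter.atTop, ((L : ℝ) + 1) * K * (10 / Real.sqrt ((11 / 10) ^ L)) ≤ 1 / 3 * (1 / (L : ℝ) ^ 2) := by
  set ρ : ℝ := 1 / Real.sqrt (11 / 10) with hρd
  have hs : 1 < Real.sqrt (11 / 10) := by
    rw [Real.lt_sqrt (by norm_num)]; norm_num
  have h0 : 0 < ρ := by positivity
  have h1 : ρ < 1 := by
    rw [hρd, div_lt_one (by linarith)]; exact hs
  have hsq : ∀ L : ℕ, 10 / Real.sqrt ((11 / 10 : ℝ) ^ L) = 10 * ρ ^ L := by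
    intro L
    have : Real.sqrt ((11 / 10 : ℝ) ^ L) = Real.sqrt (11 / 10) ^ L := by
      rw [show (11 / 10 : ℝ) ^ L = (Real.sqrt (11 / 10) ^ L) ^ 2 by
        rw [← pow_mul, mul_comm, pow_mul, Real.sq_sqrt (by norm_num)], Real.sqrt_sq (by positivity)]
    rw [this, hρd, one_div, inv_pow]; ring
  have t1 : Filter.Tendsto (fun n : ℕ => (n : ℝ) ^ 3 * ρ ^ n) Filter.atTop (nhds 0) :=
    tendsto_pow_const_mul_const_pow_of_abs_lt_one 3 (by rw [abs_of_pos h0]; exact h1)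
  have t3 := t1.const_mul (60 * |K|)
  rw [mul_zero] at t3
  have h := t3.eventually (gt_mem_nhds (show (0 : ℝ) < 1 by norm_num))
  filter_upwards [h, Filter.eventually_ge_atTop 1] with L hL h100
  rw [hsq]
  have hL1 : (1 : ℝ) ≤ L := by exact_mod_cast h100
  have hρ : 0 < ρ ^ L := by positivity
  have hK := le_abs_self K
  have hK0 := abs_nonneg K
  have e : 1 / 3 * (1 / (L : ℝ) ^ 2) = 1 / (3 * (L : ℝ) ^ 2) := by
    field_simp
  rw [e, le_div_iff₀ (by positivity)]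
  have b1 : ((L : ℝ) + 1) * K * (10 * ρ ^ L) * (3 * (L : ℝ) ^ 2) ≤ (2 * L) * |K| * (10 * ρ ^ L) * (3 * (L : ℝ) ^ 2) := by
    have : ((L : ℝ) + 1) * K ≤ (2 * L) * |K| := by
      calc ((L : ℝ) + 1) * K ≤ ((L : ℝ) + 1) * |K| := by gcongr
        _ ≤ (2 * L) * |K| := by gcongr; linarith
    gcongr
  have b2 : (2 * L) * |K| * (10 * ρ ^ L) * (3 * (L : ℝ) ^ 2) = 60 * |K| * ((L : ℝ) ^ 3 * ρ ^ L) := by ring
  linarith

end Stepaux

open Stepaux in
/-- see the docstring of `StmtStep` in SpecF.lean for the paper proof -/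
theorem stmtStep (h1 : StmtWords) (h2 : StmtKerAvg) (h3 : StmtSliceSum) (h4 : StmtFrA) (h5 : StmtBad) : StmtStep := by
  intro Cs hCs
  obtain ⟨A, hA, hfr⟩ := h4 4
  obtain ⟨B, ρ, hB, hρ0, hρ1, hbad⟩ := h5
  have e1 := ev1 ((Cs + 1) * (A * 200 ^ 4))
  have e2 := ev2 ((Cs + 1) * B) ρ hρ0 hρ1
  have e3 := ev3 (Cs + 1)
  obtain ⟨L₀, hL₀⟩ := Filter.eventually_atTop.mp (e1.and (e2.and (e3.and (Filter.eventually_ge_atTop 100))))
  refine ⟨L₀, fun L hL C hC hCCs x => ?_⟩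
  obtain ⟨g1, g2, g3, g4⟩ := hL₀ L hL
  have hLpos : (0 : ℝ) < L := by
    have : 0 < L := by omega
    exact_mod_cast this
  -- the first error
  have k1 : avg (2 * (L / 100) + 2 * ((L + L / 100) / 100))
      (fun z => |fr (L / 100 + (L + L / 100) / 100) z - fr (L / 100) z|) ≤ A * 200 ^ 4 / (L : ℝ) ^ 4 := by
    refine (hfr (L / 100) (L / 100 + (L + L / 100) / 100) _ (by omega) (by omega) (by omega)).trans ?_
    have hq : (L : ℝ) / 200 ≤ ((L / 100 : ℕ) : ℝ) := by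
      rw [div_le_iff₀ (by norm_num)]
      have : L ≤ (L / 100) * 200 := by omega
      exact_mod_cast this
    have hq4 : ((L : ℝ) / 200) ^ 4 ≤ ((L / 100 : ℕ) : ℝ) ^ 4 := pow_le_pow_left₀ (by positivity) hq 4
    calc A / ((L / 100 : ℕ) : ℝ) ^ 4 ≤ A / ((L : ℝ) / 200) ^ 4 := by gcongr
      _ = A * 200 ^ 4 / (L : ℝ) ^ 4 := by
        field_simp
  have k2 : avg (2 * (L / 100) + 2 * ((L + L / 100) / 100)) (chi (L / 100) ((L + L / 100) / 100) ((11 / 10) ^ L))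
      ≤ B * ρ ^ (L / 100) + 10 / Real.sqrt ((11 / 10) ^ L) := by
    rw [avg_chi h2]
    exact hbad (L / 100) ((11 / 10) ^ L) (by positivity)
  have k3 := step_ineq h1 h2 h3 L C hC x _ _ k1 k2
  refine le_trans ?_ k3
  have hCC : ((L : ℝ) + 1) * (C + 1) ≤ ((L : ℝ) + 1) * (Cs + 1) := by gcongr
  have m1 : ((L : ℝ) + 1) * (C + 1) * (A * 200 ^ 4 / (L : ℝ) ^ 4) ≤ 1 / 3 * (1 / (L : ℝ) ^ 2) := by
    refine le_trans ?_ g1
    calc ((L : ℝ) + 1) * (C + 1) * (A * 200 ^ 4 / (L : ℝ) ^ 4)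
        ≤ ((L : ℝ) + 1) * (Cs + 1) * (A * 200 ^ 4 / (L : ℝ) ^ 4) := by gcongr
      _ = ((L : ℝ) + 1) * ((Cs + 1) * (A * 200 ^ 4)) / (L : ℝ) ^ 4 := by ring
  have m2 : ((L : ℝ) + 1) * (C + 1) * (B * ρ ^ (L / 100)) ≤ 1 / 3 * (1 / (L : ℝ) ^ 2) := by
    refine le_trans ?_ g2
    calc ((L : ℝ) + 1) * (C + 1) * (B * ρ ^ (L / 100))
        ≤ ((L : ℝ) + 1) * (Cs + 1) * (B * ρ ^ (L / 100)) := by gcongr
      _ = ((L : ℝ) + 1) * ((Cs + 1) * B) * ρ ^ (L / 100) := by ring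
  have m3 : ((L : ℝ) + 1) * (C + 1) * (10 / Real.sqrt ((11 / 10) ^ L)) ≤ 1 / 3 * (1 / (L : ℝ) ^ 2) := by
    refine le_trans ?_ g3
    gcongr
  have m4 : ((L : ℝ) + 1) * (C + 1) * (B * ρ ^ (L / 100) + 10 / Real.sqrt ((11 / 10) ^ L))
      = ((L : ℝ) + 1) * (C + 1) * (B * ρ ^ (L / 100)) + ((L : ℝ) + 1) * (C + 1) * (10 / Real.sqrt ((11 / 10) ^ L)) := by
    ring
  rw [m4]
  linarith

end Pool.Agent.Clz
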