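import Pool.Agent.Lib.MP_5a39b1_nt.Clz.SpecF

set_option autoImplicit false

namespace Pool.Agent.Clz

open Finset

namespace Peraux

theorem kerF_add (g : List (Fin 4)) (N : ℕ) (h : kap g ≤ N) (z j : ℤ) :
    kerF g (z + 3 ^ N * j) = kerF g z := by
  unfold kerF
  have : (3 : ℤ) ^ kap g ∣ 4 ^ g.length * (z + 3 ^ N * j) - FF g ↔
      (3 : ℤ) ^ kap g ∣ 4 ^ g.length * z - FF g := by
    have e : 4 ^ g.length * (z + 3 ^ N * j) - FF g
        = (4 ^ g.length * z - FF g) + 3 ^ N * (4 ^ g.length * j) := by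
      ring
    rw [e]
    exact dvd_add_left (Dvd.dvd.mul_right (pow_dvd_pow 3 h) _)
  simp only [this]

theorem fr_add (r N : ℕ) (h : 2 * r ≤ N) (z j : ℤ) : fr r (z + 3 ^ N * j) = fr r z := by
  unfold fr
  refine Ew_congr fun g hg => kerF_add g N ?_ z j
  have := kap_le g
  omega

theorem Nz_add (g : List (Fin 4)) (N : ℕ) (h : kap g ≤ N) (z j : ℤ) :
    Nz g (z + 3 ^ N * j) = Nz g z + 3 ^ (N - kap g) * (4 ^ g.length * j) := by
  unfold Nz
  have e : 4 ^ g.length * (z + 3 ^ N * j) - FF g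
      = (4 ^ g.length * z - FF g) + (3 ^ (N - kap g) * (4 ^ g.length * j)) * 3 ^ kap g := by
    have e1 : (3 : ℤ) ^ N = 3 ^ (N - kap g) * 3 ^ kap g := by
      rw [← pow_add]
      congr 1
      omega
    rw [e1]
    ring
  rw [e, Int.add_mul_ediv_right _ _ (pow_ne_zero _ (by norm_num))]

end Peraux

open Peraux in
/-- see the docstring of `StmtPer` in SpecF.lean for the paper proof -/
theorem stmtPer : StmtPer := by
  intro L r N C x j hN
  unfold SS
  refine Ew_congr fun g hg => ?_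
  have hk := kap_le g
  rw [kerF_add g N (by omega) x j, Nz_add g N (by omega) x j,
    fr_add r (N - kap g) (by omega)]

end Pool.Agent.Clz
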