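import Pool.Agent.Lib.MP_5a39b1_nt.Clz.SpecF

set_option autoImplicit false

namespace Pool.Agent.Clz

open Finset

/-- see the docstring of `StmtPick` in SpecF.lean for the paper proof -/
theorem stmtPick : StmtPick := by
  intro Lk h100 hstep ℓ₀
  have hlt : ∀ k, Lk k + 1 ≤ Lk (k + 1) := by
    intro k
    have h1 := h100 k
    have h2 := hstep k
    omega
  have hmono : Monotone Lk := monotone_nat_of_le_succ fun k => by
    have := hlt k
    omega
  have hge : ∀ k, k ≤ Lk k := by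
    intro k
    induction k with
    | zero => exact Nat.zero_le _
    | succ k ih =>
      have := hlt k
      omega
  refine ⟨1011 / 1000 * (Lk ℓ₀ : ℝ), fun y hy => ?_⟩
  have hex : ∃ k, y < 1011 / 1000 * (Lk k : ℝ) := by
    obtain ⟨k, hk⟩ := exists_nat_gt y
    refine ⟨k, hk.trans_le ?_⟩
    have h1 : (k : ℝ) ≤ Lk k := by exact_mod_cast hge k
    have h2 : (0 : ℝ) ≤ Lk k := Nat.cast_nonneg _
    linarith
  classical
  obtain ⟨k1, hk1⟩ : ∃ k1, k1 = Nat.find hex := ⟨_, rfl⟩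
  have h1 : y < 1011 / 1000 * (Lk k1 : ℝ) := by
    rw [hk1]
    exact Nat.find_spec hex
  have h2 : ∀ k < k1, 1011 / 1000 * (Lk k : ℝ) ≤ y := by
    intro k hk
    rw [hk1] at hk
    exact not_lt.1 (Nat.find_min hex hk)
  have h3 : ℓ₀ < k1 := by
    by_contra hcon
    push Not at hcon
    have h4 : (Lk k1 : ℝ) ≤ Lk ℓ₀ := by exact_mod_cast hmono hcon
    linarith
  obtain ⟨k, rfl⟩ : ∃ k, k1 = k + 1 := ⟨k1 - 1, by omega⟩
  refine ⟨k, ?_, h2 k (Nat.lt_succ_self k), ?_⟩
  · have h4 := hge k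
    omega
  · have h4 : (Lk (k + 1) : ℝ) ≤ 101 / 100 * (Lk k : ℝ) := by
      have h5 : 100 * Lk (k + 1) ≤ 101 * Lk k := by
        have := hstep k
        omega
      have h6 : (100 : ℝ) * (Lk (k + 1) : ℝ) ≤ 101 * (Lk k : ℝ) := by exact_mod_cast h5
      linarith
    have h5 : (0 : ℝ) ≤ Lk k := Nat.cast_nonneg _
    linarith

end Pool.Agent.Clz
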