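import Pool.Agent.Lib.MP_5a39b1_nt.Clz.SpecF

set_option autoImplicit false

namespace Pool.Agent.Clz

open Finset

namespace Sliceaux

/-- number of integers of a residue class in an interval -/
theorem card_class_le (S : Finset ℤ) (q : ℤ) (hq : 0 < q) (c : ℤ) (M : ℝ) (hM : 0 ≤ M)
    (h : ∀ x ∈ S, 0 ≤ x ∧ (x : ℝ) ≤ M ∧ q ∣ x - c) : (S.card : ℝ) ≤ M / q + 1 := by
  have hqR : (0 : ℝ) < (q : ℝ) := by exact_mod_cast hq
  have hmaps : ∀ x ∈ S, (x / q).toNat ∈ Finset.range (⌊M / q⌋₊ + 1) := by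
    intro x hx
    obtain ⟨h0, h1, -⟩ := h x hx
    rw [Finset.mem_range, Nat.lt_succ_iff]
    apply Nat.le_floor
    have h2 : 0 ≤ x / q := Int.ediv_nonneg h0 hq.le
    have h3 : ((x / q).toNat : ℤ) = x / q := Int.toNat_of_nonneg h2
    have h4 : (((x / q).toNat : ℕ) : ℝ) = ((x / q : ℤ) : ℝ) := by exact_mod_cast h3
    rw [h4, le_div_iff₀ hqR]
    have h5 : x / q * q ≤ x := Int.ediv_mul_le x hq.ne'
    have h6 : ((x / q : ℤ) : ℝ) * (q : ℝ) ≤ (x : ℝ) := by exact_mod_cast h5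
    linarith
  have hinj : Set.InjOn (fun x : ℤ => (x / q).toNat) (S : Set ℤ) := by
    intro x hx y hy hxy
    obtain ⟨hx0, -, hxd⟩ := h x hx
    obtain ⟨hy0, -, hyd⟩ := h y hy
    have e : x / q = y / q := by
      have h1 : ((x / q).toNat : ℤ) = x / q := Int.toNat_of_nonneg (Int.ediv_nonneg hx0 hq.le)
      have h2 : ((y / q).toNat : ℤ) = y / q := Int.toNat_of_nonneg (Int.ediv_nonneg hy0 hq.le)
      have h3 : (x / q).toNat = (y / q).toNat := hxy
      omega
    have hd : q ∣ x - y := by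
      have := dvd_sub hxd hyd
      have e2 : x - c - (y - c) = x - y := by ring
      rwa [e2] at this
    have hm : x % q = y % q := Int.emod_eq_emod_iff_emod_sub_eq_zero.mpr (Int.emod_eq_zero_of_dvd hd)
    rw [← Int.mul_ediv_add_emod x q, ← Int.mul_ediv_add_emod y q, e, hm]
  have hcard := Finset.card_le_card_of_injOn _ hmaps hinj
  rw [Finset.card_range] at hcard
  have h1 : (S.card : ℝ) ≤ ((⌊M / q⌋₊ + 1 : ℕ) : ℝ) := by exact_mod_cast hcard
  refine h1.trans ?_
  push_cast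
  have := Nat.floor_le (div_nonneg hM hqR.le)
  linarith

theorem phi_per (n : ℕ) (φ : ℤ → ℝ) (h : ∀ z, φ (z + 3 ^ n) = φ z) (z : ℤ) (j : ℤ) :
    φ (z + j * 3 ^ n) = φ z := by
  have hp : Function.Periodic φ ((3 : ℤ) ^ n) := h
  have := hp.int_mul j z
  simpa using this

theorem phi_emod (n : ℕ) (φ : ℤ → ℝ) (h : ∀ z, φ (z + 3 ^ n) = φ z) (z : ℤ) :
    φ z = φ (((z % 3 ^ n).toNat : ℕ) : ℤ) := by
  have h3 : (0 : ℤ) < 3 ^ n := by positivity
  rw [Int.toNat_of_nonneg (Int.emod_nonneg z h3.ne')]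
  rw [← phi_per n φ h (z % 3 ^ n) (z / 3 ^ n)]
  congr 1
  have := Int.mul_ediv_add_emod z (3 ^ n)
  linarith

end Sliceaux

open Sliceaux in
/-- see the docstring of `StmtSlice` in Spec4.lean for the paper proof -/
theorem stmtSlice (h1 : StmtWords) : StmtSlice := by
  classical
  intro L κ n C x φ hC hκ hφ0 hφ
  obtain ⟨-, -, -, -, -, hinjFF, -, -⟩ := h1
  have h3n : (0 : ℤ) < 3 ^ n := by positivity
  -- the set of words
  set G : Finset (List (Fin 4)) := (words L).filter (fun g => (kap g = κ ∧ RR g ≤ C) ∧ valid g x) with hG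
  -- residues
  let res : List (Fin 4) → ℕ := fun g => (Nz g x % 3 ^ n).toNat
  have hres : ∀ g ∈ G, res g ∈ Finset.range (3 ^ n) := by
    intro g _
    rw [Finset.mem_range]
    have a1 := Int.emod_lt_of_pos (Nz g x) h3n
    have a2 := Int.emod_nonneg (Nz g x) h3n.ne'
    have a3 : ((res g : ℕ) : ℤ) = Nz g x % 3 ^ n := Int.toNat_of_nonneg a2
    have a4 : ((res g : ℕ) : ℤ) < ((3 ^ n : ℕ) : ℤ) := by rw [a3]; push_cast; exact a1
    exact_mod_cast a4
  have key : ∑ g ∈ words L, (if kap g = κ ∧ RR g ≤ C then kerF g x * φ (Nz g x) else 0)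
      = ∑ ρ ∈ Finset.range (3 ^ n), ∑ g ∈ G.filter (fun g => res g = ρ), (3 : ℝ) ^ κ * φ (ρ : ℤ) := by
    have e1 : ∑ g ∈ words L, (if kap g = κ ∧ RR g ≤ C then kerF g x * φ (Nz g x) else 0)
        = ∑ g ∈ G, (3 : ℝ) ^ κ * φ (((res g : ℕ)) : ℤ) := by
      rw [hG, Finset.sum_filter]
      refine Finset.sum_congr rfl fun g _ => ?_
      by_cases hc : kap g = κ ∧ RR g ≤ C
      · by_cases hv : valid g x
        · rw [if_pos hc, if_pos ⟨hc, hv⟩]
          have : kerF g x = 3 ^ kap g := by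
            unfold kerF
            exact if_pos hv
          rw [this, hc.1, phi_emod n φ hφ (Nz g x)]
        · rw [if_pos hc, if_neg (fun h => hv h.2)]
          have : kerF g x = 0 := by
            unfold kerF
            exact if_neg hv
          rw [this, zero_mul]
      · rw [if_neg hc, if_neg (fun h => hc h.1)]
    rw [e1, ← Finset.sum_fiberwise_of_maps_to hres]
    refine Finset.sum_congr rfl fun ρ _ => Finset.sum_congr rfl fun g hg => ?_
    rw [(Finset.mem_filter.mp hg).2]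
  have hcard : ∀ ρ : ℕ, ((G.filter (fun g => res g = ρ)).card : ℝ) ≤ (C + 1) * (4 ^ L / 3 ^ (κ + n)) := by
    intro ρ
    have hinj : Set.InjOn FF ((G.filter (fun g => res g = ρ) : Finset (List (Fin 4))) : Set (List (Fin 4))) := by
      intro g hg g' hg' hgg
      rw [Finset.mem_coe, Finset.mem_filter, hG, Finset.mem_filter, mem_words] at hg hg'
      exact hinjFF g g' (hg.1.1.trans hg'.1.1.symm) (hg.1.2.1.1.trans hg'.1.2.1.1.symm) hgg
    rw [← Finset.card_image_of_injOn hinj]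
    have hle := card_class_le ((G.filter (fun g => res g = ρ)).image FF) (3 ^ (κ + n)) (by positivity)
      (4 ^ L * x - 3 ^ κ * ρ) (C * 4 ^ L) (by positivity) (by
        intro y hy
        obtain ⟨g, hg, rfl⟩ := Finset.mem_image.mp hy
        rw [Finset.mem_filter, hG, Finset.mem_filter, mem_words] at hg
        obtain ⟨⟨hlen, ⟨hk, hR⟩, hv⟩, hr⟩ := hg
        refine ⟨FF_nonneg g, ?_, ?_⟩
        · unfold RR at hR
          rw [div_le_iff₀ (by positivity), hlen] at hR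
          exact hR
        · have hN : Nz g x * 3 ^ kap g = 4 ^ g.length * x - FF g := Int.ediv_mul_cancel hv
          rw [hk, hlen] at hN
          have a2 := Int.emod_nonneg (Nz g x) h3n.ne'
          have a3 : ((res g : ℕ) : ℤ) = Nz g x % 3 ^ n := Int.toNat_of_nonneg a2
          have a4 : (ρ : ℤ) = Nz g x % 3 ^ n := by rw [← a3, hr]
          have a5 : (3 : ℤ) ^ n ∣ Nz g x - ρ := by
            rw [a4]
            exact Int.dvd_self_sub_emod
          obtain ⟨j, hj⟩ := a5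
          refine ⟨-j, ?_⟩
          have : Nz g x = ρ + 3 ^ n * j := by linarith
          rw [this] at hN
          rw [pow_add]
          linarith)
    refine hle.trans ?_
    have hq : (0 : ℝ) < 3 ^ (κ + n) := by positivity
    have h1 : (1 : ℝ) ≤ 4 ^ L / 3 ^ (κ + n) := by
      rw [one_le_div hq]
      exact_mod_cast hκ
    push_cast
    rw [mul_div_assoc]
    linarith
  rw [Ew_eq_sum, smul_eq_mul, key]
  have hsum : ∑ ρ ∈ Finset.range (3 ^ n), ∑ g ∈ G.filter (fun g => res g = ρ), (3 : ℝ) ^ κ * φ (ρ : ℤ)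
      ≤ ∑ ρ ∈ Finset.range (3 ^ n), ((C + 1) * (4 ^ L / 3 ^ (κ + n))) * ((3 : ℝ) ^ κ * φ (ρ : ℤ)) := by
    refine Finset.sum_le_sum fun ρ _ => ?_
    rw [Finset.sum_const, nsmul_eq_mul]
    exact mul_le_mul_of_nonneg_right (hcard ρ) (mul_nonneg (by positivity) (hφ0 _))
  calc (1 / 4 ^ L : ℝ) * ∑ ρ ∈ Finset.range (3 ^ n), ∑ g ∈ G.filter (fun g => res g = ρ), (3 : ℝ) ^ κ * φ (ρ : ℤ)
      ≤ (1 / 4 ^ L : ℝ) * ∑ ρ ∈ Finset.range (3 ^ n), ((C + 1) * (4 ^ L / 3 ^ (κ + n))) * ((3 : ℝ) ^ κ * φ (ρ : ℤ)) := by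
        gcongr
    _ = (C + 1) * avg n φ := by
        rw [← Finset.mul_sum, ← Finset.mul_sum]
        unfold avg
        rw [pow_add]
        field_simp

end Pool.Agent.Clz
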