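import Pool.Agent.Lib.MP_5a39b1_nt.Clz.SpecF

set_option autoImplicit false

namespace Pool.Agent.Clz

open Finset

namespace SliceSumaux

theorem pow_le {N L : ℕ} (h : 4 * N ≤ 5 * L) : 3 ^ N ≤ 4 ^ L := by
  have h1 : (3 ^ N) ^ 5 ≤ (4 ^ L) ^ 5 := by
    calc (3 ^ N) ^ 5 = (3 ^ 5) ^ N := by rw [← pow_mul, ← pow_mul, mul_comm]
      _ ≤ (4 ^ 4) ^ N := Nat.pow_le_pow_left (by norm_num) N
      _ = 4 ^ (4 * N) := by rw [← pow_mul]
      _ ≤ 4 ^ (5 * L) := Nat.pow_le_pow_right (by norm_num) h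
      _ = (4 ^ L) ^ 5 := by rw [← pow_mul, mul_comm]
  exact (Nat.pow_le_pow_iff_left (by norm_num)).1 h1

/-- the typical values of `kap` -/
def KK (L : ℕ) : Finset ℕ := (range (2 * L + 1)).filter
  (fun k : ℕ => 1000 * |(k : ℤ) - (L : ℤ)| ≤ (L : ℤ))

theorem mem_KK {L k : ℕ} : k ∈ KK L ↔ 1000 * |(k : ℤ) - (L : ℤ)| ≤ (L : ℤ) := by
  unfold KK
  rw [Finset.mem_filter, Finset.mem_range]
  constructor
  · exact fun h => h.2
  · intro h
    refine ⟨?_, h⟩
    have := le_abs_self ((k : ℤ) - (L : ℤ))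
    omega

theorem card_KK (L : ℕ) : (KK L).card ≤ L + 1 := by
  have h1 : KK L ⊆ Finset.Icc (L - L / 1000) (L + L / 1000) := by
    intro k hk
    rw [mem_KK] at hk
    have h2 := le_abs_self ((k : ℤ) - (L : ℤ))
    have h3 := neg_abs_le ((k : ℤ) - (L : ℤ))
    rw [Finset.mem_Icc]
    constructor <;> omega
  have h2 := Finset.card_le_card h1
  rw [Nat.card_Icc] at h2
  omega

end SliceSumaux

open SliceSumaux in
/-- see the docstring of `StmtSliceSum` in SpecF.lean for the paper proof -/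
theorem stmtSliceSum (h1 : StmtSlice) : StmtSliceSum := by
  classical
  intro L n C x φ hC hn hφ hper
  have havg : 0 ≤ avg n φ := avg_nonneg hφ
  have h2 : SS L C φ x ≤ ∑ κ ∈ KK L, Ew L (fun g => if kap g = κ ∧ RR g ≤ C then
      kerF g x * φ (Nz g x) else 0) := by
    rw [← Ew_finset_sum]
    unfold SS
    apply Ew_mono
    intro g hg
    by_cases h : typ C g
    · rw [if_pos h]
      obtain ⟨h3, h4⟩ := h
      rw [hg] at h3
      have h5 : kap g ∈ KK L := mem_KK.2 h3
      refine le_trans ?_ (Finset.single_le_sum (f := fun κ => if kap g = κ ∧ RR g ≤ C then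
        kerF g x * φ (Nz g x) else 0) ?_ h5)
      · simp [h4]
      · intro κ _
        split_ifs
        · exact mul_nonneg (kerF_nonneg _ _) (hφ _)
        · exact le_rfl
    · rw [if_neg h]
      apply Finset.sum_nonneg
      intro κ _
      split_ifs
      · exact mul_nonneg (kerF_nonneg _ _) (hφ _)
      · exact le_rfl
  refine h2.trans ?_
  have h3 : ∀ κ ∈ KK L, Ew L (fun g => if kap g = κ ∧ RR g ≤ C then
      kerF g x * φ (Nz g x) else 0) ≤ (C + 1) * avg n φ := by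
    intro κ hκ
    apply h1 L κ n C x φ hC (pow_le _) hφ hper
    rw [mem_KK] at hκ
    have := le_abs_self ((κ : ℤ) - (L : ℤ))
    omega
  refine (Finset.sum_le_sum h3).trans ?_
  rw [Finset.sum_const, nsmul_eq_mul]
  have h4 : ((KK L).card : ℝ) ≤ (L : ℝ) + 1 := by exact_mod_cast card_KK L
  have h5 : 0 ≤ (C + 1) * avg n φ := mul_nonneg (by linarith) havg
  calc ((KK L).card : ℝ) * ((C + 1) * avg n φ) ≤ ((L : ℝ) + 1) * ((C + 1) * avg n φ) :=
        mul_le_mul_of_nonneg_right h4 h5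
    _ = _ := by ring

end Pool.Agent.Clz
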