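import Pool.Agent.Lib.MP_5a39b1_nt.Clz.SpecF

set_option autoImplicit false

namespace Pool.Agent.Clz

open Finset

namespace Startaux

/-- some value is at least the average -/
theorem exists_ge_avg (N : ℕ) (φ : ℤ → ℝ) {a : ℝ} (h : a ≤ avg N φ) : ∃ x : ℤ, a ≤ φ x := by
  by_contra hne
  push Not at hne
  have hpos : (0 : ℝ) < 3 ^ N := by positivity
  have h1 : ∑ z ∈ Finset.range (3 ^ N), φ (z : ℤ) < ∑ _z ∈ Finset.range (3 ^ N), a := by
    refine Finset.sum_lt_sum_of_nonempty ⟨0, ?_⟩ fun z _ => hne z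
    exact Finset.mem_range.2 (by positivity)
  have h2 : ∑ _z ∈ Finset.range (3 ^ N), a = 3 ^ N * a := by
    simp
  have h3 : avg N φ < a := by
    unfold avg
    rw [div_lt_iff₀ hpos]
    rw [h2] at h1
    linarith
  linarith

end Startaux

/-- see the docstring of `StmtStart` in SpecF.lean for the paper proof -/
theorem stmtStart (h1 : StmtBad) (h2 : StmtKerAvg) : StmtStart := by
  classical
  obtain ⟨C, ρ, hC, hρ, hρ1, hbad⟩ := h1
  obtain ⟨-, h22, h23⟩ := h2
  -- the threshold
  obtain ⟨L₀, hL₀⟩ : ∃ L₀ : ℕ, ∀ L ≥ L₀, C * ρ ^ L ≤ 1 / 4 := by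
    obtain ⟨n, hn⟩ := exists_pow_lt_of_lt_one (show (0 : ℝ) < 1 / (4 * C) by positivity) hρ1
    refine ⟨n, fun L hL => ?_⟩
    have h3 : ρ ^ L ≤ ρ ^ n := pow_le_pow_of_le_one hρ.le hρ1.le hL
    have h4 : C * ρ ^ L ≤ C * (1 / (4 * C)) := mul_le_mul_of_nonneg_left (h3.trans hn.le) hC.le
    have h5 : C * (1 / (4 * C)) = 1 / 4 := by field_simp
    linarith
  refine ⟨1600, L₀, by norm_num, fun L hL r => ?_⟩
  apply Startaux.exists_ge_avg (2 * L + 2 * r)
  -- the average
  have e1 : avg (2 * L + 2 * r) (SS L 1600 (fr r)) =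
      Ew L (fun g => avg (2 * L + 2 * r) (fun x =>
        if typ 1600 g then kerF g x * fr r (Nz g x) else 0)) :=
    avg_Ew (2 * L + 2 * r) L (fun g x => if typ 1600 g then kerF g x * fr r (Nz g x) else 0)
  have e2 : Ew L (fun g => avg (2 * L + 2 * r) (fun x =>
        if typ 1600 g then kerF g x * fr r (Nz g x) else 0)) =
      Ew L (fun g => if typ 1600 g then (1 : ℝ) else 0) := by
    refine Ew_congr fun g hg => ?_
    by_cases ht : typ 1600 g
    · simp only [ht, if_true]
      have hk := kap_le g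
      rw [h23 g (2 * r) (2 * L + 2 * r) (fr r) (fun z => fr_periodic r (2 * r) le_rfl z)
        (by rw [hg] at hk; omega)]
      exact h22 (2 * r) r le_rfl
    · simp only [ht, if_false]
      exact avg_const _ _
  have e3 : Ew L (fun g => if typ 1600 g then (1 : ℝ) else 0) =
      1 - Ew L (fun g => if typ 1600 g then (0 : ℝ) else 1) := by
    have h3 : Ew L (fun g => (if typ 1600 g then (1 : ℝ) else 0) +
        (if typ 1600 g then (0 : ℝ) else 1)) = 1 := by
      have : (fun g : List (Fin 4) => (if typ 1600 g then (1 : ℝ) else 0) +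
        (if typ 1600 g then (0 : ℝ) else 1)) = fun _ => 1 := by
        funext g
        by_cases ht : typ 1600 g <;> simp [ht]
      rw [this, Ew_const]
    rw [Ew_add] at h3
    linarith
  have h4 := hbad L 1600 (by norm_num)
  have h5 : Real.sqrt 1600 = 40 := by
    rw [show (1600 : ℝ) = 40 ^ 2 by norm_num]
    exact Real.sqrt_sq (by norm_num)
  rw [h5] at h4
  have h6 := hL₀ L hL
  rw [e1, e2, e3]
  linarith

end Pool.Agent.Clz
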