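import Pool.Agent.Lib.MP_5a39b1_nt.Clz.SpecF

set_option autoImplicit false

namespace Pool.Agent.Clz

open Finset

namespace Tail3aux

lemma one_le_of_le (z a : ℝ) (hz : 1 ≤ z) (n : ℕ) (h : a ≤ n) : 1 ≤ z ^ n / z ^ a := by
  have hz0 : 0 < z := by linarith
  rw [le_div_iff₀ (Real.rpow_pos_of_pos hz0 a), one_mul, ← Real.rpow_natCast z n]
  exact Real.rpow_le_rpow_of_exponent_le hz h

end Tail3aux

/-- see the docstring of `StmtTail3` in SpecF.lean for the paper proof -/
theorem stmtTail3 (h1 : StmtBinBasic) : StmtTail3 := by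
  classical
  obtain ⟨hnn, -, -, -, -, hsym, -, -, hgen⟩ := h1
  set z : ℝ := 501 / 500 with hz
  have hz1 : (1 : ℝ) ≤ z := by rw [hz]; norm_num
  have hz0 : (0 : ℝ) < z := by linarith
  set w : ℝ := z ^ (1001 / 1000 : ℝ) with hw
  have hw0 : 0 < w := Real.rpow_pos_of_pos hz0 _
  have hw1 : (1002002 / 1000000 : ℝ) ≤ w := by
    have h := one_add_mul_self_le_rpow_one_add (s := (1 / 500 : ℝ)) (by norm_num)
      (p := (1001 / 1000 : ℝ)) (by norm_num)
    have e : (1 : ℝ) + 1 / 500 = z := by rw [hz]; norm_num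
    rw [e] at h
    rw [hw]
    linarith
  refine ⟨2, (1001 / 1000) ^ 2 / w, by norm_num, by positivity, ?_, fun L => ?_⟩
  · rw [div_lt_one hw0]
    linarith
  have hwL : z ^ ((1001 / 1000 : ℝ) * L) = w ^ L := by
    rw [hw, Real.rpow_mul hz0.le, Real.rpow_natCast]
  have hgen' : ∑ k ∈ range (2 * L + 1), P (2 * L) k * z ^ k = ((1001 / 1000) ^ 2) ^ L := by
    rw [hgen (2 * L) z, ← pow_mul]
    congr 1
    rw [hz]; norm_num
  have hflip : ∑ k ∈ range (2 * L + 1), P (2 * L) k * z ^ (2 * L - k)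
      = ∑ k ∈ range (2 * L + 1), P (2 * L) k * z ^ k := by
    rw [← Finset.sum_flip (fun k : ℕ => P (2 * L) k * z ^ k)]
    refine Finset.sum_congr rfl fun k hk => ?_
    have hk' : k ≤ 2 * L := by
      have := Finset.mem_range.1 hk
      omega
    have e : P (2 * L) ((2 * L - k : ℕ) : ℤ) = P (2 * L) (k : ℤ) := by
      rw [← hsym (2 * L) (k : ℤ)]
      congr 1
      push_cast [Nat.cast_sub hk']
      ring
    rw [e]
  have hpt : ∀ k ∈ (range (2 * L + 1)).filter
      (fun k : ℕ => ¬ 1000 * |(k : ℤ) - (L : ℤ)| ≤ (L : ℤ)),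
      P (2 * L) k ≤ P (2 * L) k * (z ^ k / z ^ ((1001 / 1000 : ℝ) * L)
        + z ^ (2 * L - k) / z ^ ((1001 / 1000 : ℝ) * L)) := by
    intro k hk
    rw [Finset.mem_filter, Finset.mem_range] at hk
    obtain ⟨hk1, hk2⟩ := hk
    have hP := hnn (2 * L) (k : ℤ)
    have hA : 0 ≤ z ^ k / z ^ ((1001 / 1000 : ℝ) * L) := by positivity
    have hB : 0 ≤ z ^ (2 * L - k) / z ^ ((1001 / 1000 : ℝ) * L) := by positivity
    have hge : 1 ≤ z ^ k / z ^ ((1001 / 1000 : ℝ) * L)
        + z ^ (2 * L - k) / z ^ ((1001 / 1000 : ℝ) * L) := by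
      push Not at hk2
      rcases le_total (L : ℤ) (k : ℤ) with h | h
      · rw [abs_of_nonneg (by linarith)] at hk2
        have : (1001 / 1000 : ℝ) * L ≤ (k : ℝ) := by
          have h3 : (1001 * (L : ℤ)) ≤ 1000 * (k : ℤ) := by linarith
          have h4 : (1001 * (L : ℝ)) ≤ 1000 * (k : ℝ) := by exact_mod_cast h3
          linarith
        have := Tail3aux.one_le_of_le z _ hz1 k this
        linarith
      · rw [abs_of_nonpos (by linarith)] at hk2
        have : (1001 / 1000 : ℝ) * L ≤ ((2 * L - k : ℕ) : ℝ) := by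
          have h3 : (1001 * (L : ℤ)) ≤ 1000 * ((2 * L - k : ℕ) : ℤ) := by
            have : k ≤ 2 * L := by omega
            push_cast [Nat.cast_sub this]
            linarith
          have h4 : (1001 * (L : ℝ)) ≤ 1000 * ((2 * L - k : ℕ) : ℝ) := by exact_mod_cast h3
          linarith
        have := Tail3aux.one_le_of_le z _ hz1 (2 * L - k) this
        linarith
    nlinarith
  calc ∑ k ∈ (range (2 * L + 1)).filter (fun k : ℕ => ¬ 1000 * |(k : ℤ) - (L : ℤ)| ≤ (L : ℤ)),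
        P (2 * L) k
      ≤ ∑ k ∈ (range (2 * L + 1)).filter (fun k : ℕ => ¬ 1000 * |(k : ℤ) - (L : ℤ)| ≤ (L : ℤ)),
        P (2 * L) k * (z ^ k / z ^ ((1001 / 1000 : ℝ) * L)
        + z ^ (2 * L - k) / z ^ ((1001 / 1000 : ℝ) * L)) := Finset.sum_le_sum hpt
    _ ≤ ∑ k ∈ range (2 * L + 1),
        P (2 * L) k * (z ^ k / z ^ ((1001 / 1000 : ℝ) * L)
        + z ^ (2 * L - k) / z ^ ((1001 / 1000 : ℝ) * L)) := by
        refine Finset.sum_le_sum_of_subset_of_nonneg (Finset.filter_subset _ _) fun k _ _ => ?_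
        have hP := hnn (2 * L) (k : ℤ)
        positivity
    _ = (∑ k ∈ range (2 * L + 1), P (2 * L) k * z ^ k) / z ^ ((1001 / 1000 : ℝ) * L)
        + (∑ k ∈ range (2 * L + 1), P (2 * L) k * z ^ (2 * L - k)) / z ^ ((1001 / 1000 : ℝ) * L) := by
        rw [Finset.sum_div, Finset.sum_div, ← Finset.sum_add_distrib]
        refine Finset.sum_congr rfl fun k _ => ?_
        ring
    _ = 2 * ((1001 / 1000) ^ 2 / w) ^ L := by
        rw [hflip, hgen', hwL, div_pow]
        ring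

end Pool.Agent.Clz
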