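import Pool.Agent.Lib.MP_5a39b1_nt.Clz.SpecF

set_option autoImplicit false

namespace Pool.Agent.Clz

open Finset

namespace Vstepaux

open Classical in
/-- the mass of the words with large `RR` -/
noncomputable def chi (τ : ℕ) (D : ℝ) (z : ℤ) : ℝ :=
  Ew τ (fun g => if D < RR g then kerF g z else 0)

theorem chi_nonneg (τ : ℕ) (D : ℝ) (z : ℤ) : 0 ≤ chi τ D z :=
  Ew_nonneg fun g _ => by
    split_ifs
    exacts [kerF_nonneg g z, le_rfl]

theorem chi_periodic (τ : ℕ) (D : ℝ) (z : ℤ) : chi τ D (z + 3 ^ (2 * τ)) = chi τ D z := by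
  unfold chi
  refine Ew_congr fun g hg => ?_
  have := kap_le g
  rw [kerF_periodic g (2 * τ) (by omega) z]

theorem Ddm_periodic (m τ κ : ℕ) (z : ℤ) : Ddm m τ τ κ (z + 3 ^ (2 * τ)) = Ddm m τ τ κ z := by
  unfold Ddm
  refine Ew_congr fun g hg => ?_
  have := kap_le g
  rw [ker_periodic m g (2 * τ) (by omega) z]

theorem avg_kerF (h2 : StmtKerAvg) (g : List (Fin 4)) (N : ℕ) (h : kap g ≤ N) :
    avg N (kerF g) = 1 := by
  rw [kerF_eq_ker g (kap g) le_rfl]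
  exact h2.1 _ _ _ (by simpa using h)

theorem avg_chi (h2 : StmtKerAvg) (h5 : StmtRMoment) (τ : ℕ) {s : ℝ} (hs : 0 < s) :
    avg (2 * τ) (chi τ (s ^ 2)) ≤ 10 / s := by
  have e1 : avg (2 * τ) (chi τ (s ^ 2)) =
      Ew τ (fun g => avg (2 * τ) (fun z => if s ^ 2 < RR g then kerF g z else 0)) := by
    unfold chi
    exact avg_Ew (2 * τ) τ (fun g z => if s ^ 2 < RR g then kerF g z else 0)
  rw [e1]
  have h1 := h5.1 τ
  have h3 : Ew τ (fun g => avg (2 * τ) (fun z => if s ^ 2 < RR g then kerF g z else 0)) ≤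
      Ew τ (fun g => Real.sqrt (RR g) * (1 / s)) := by
    refine Ew_mono fun g hg => ?_
    by_cases hc : s ^ 2 < RR g
    · simp only [hc, if_true]
      have h4 := kap_le g
      rw [avg_kerF h2 g (2 * τ) (by omega)]
      have h5' : s ≤ Real.sqrt (RR g) := by
        apply Real.le_sqrt_of_sq_le hc.le
      rw [mul_one_div, le_div_iff₀ hs, one_mul]
      exact h5'
    · simp only [hc, if_false]
      rw [avg_const]
      positivity
  rw [Ew_mul_right] at h3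
  refine h3.trans ?_
  rw [mul_one_div]
  gcongr

theorem RR_append (g g' : List (Fin 4)) :
    RR (g ++ g') = RR g + 3 ^ kap g / 4 ^ g.length * RR g' := by
  unfold RR
  rw [FF_append, List.length_append]
  push_cast
  rw [pow_add]
  field_simp

theorem pow_kap_le {ℓ k : ℕ} (h : 1000 * k ≤ 1001 * ℓ) :
    (3 : ℝ) ^ k / 4 ^ ℓ * ((26 / 25) ^ ℓ) ^ 2 ≤ 1 := by
  have h1 : (3 : ℝ) ^ k ≤ (40 / 11) ^ ℓ := by
    have h2 : ((3 : ℝ) ^ k) ^ 10 ≤ ((40 / 11) ^ ℓ) ^ 10 := by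
      calc ((3 : ℝ) ^ k) ^ 10 = 3 ^ (k * 10) := by rw [← pow_mul]
        _ ≤ 3 ^ (11 * ℓ) := pow_le_pow_right₀ (by norm_num) (by omega)
        _ = (3 ^ 11) ^ ℓ := by rw [pow_mul]
        _ ≤ ((40 / 11) ^ 10) ^ ℓ := pow_le_pow_left₀ (by norm_num) (by norm_num) _
        _ = ((40 / 11) ^ ℓ) ^ 10 := by rw [← pow_mul, ← pow_mul, mul_comm]
    exact le_of_pow_le_pow_left₀ (by norm_num) (by positivity) h2
  have h3 : ((26 / 25 : ℝ) ^ ℓ) ^ 2 ≤ (11 / 10) ^ ℓ := by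
    rw [← pow_mul, mul_comm ℓ 2, pow_mul]
    exact pow_le_pow_left₀ (by norm_num) (by norm_num) _
  calc (3 : ℝ) ^ k / 4 ^ ℓ * ((26 / 25) ^ ℓ) ^ 2
      ≤ (40 / 11) ^ ℓ / 4 ^ ℓ * (11 / 10) ^ ℓ := by gcongr
    _ = 1 := by
      rw [← div_pow, ← mul_pow]
      norm_num

/-- the inner comparison for one word `g` -/
theorem inner_le (h1 : StmtWords) {Cs : ℝ} {ℓ τ κ : ℕ} {b : ℤ}
    {g : List (Fin 4)} (hg : g.length = ℓ) (ht : typ Cs g) (hκ : kap g ≤ κ) :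
    kerF g b * (Dd τ τ (κ - kap g) (Nz g b) - chi τ (((26 / 25) ^ ℓ) ^ 2) (Nz g b)) ≤
      Ew τ (fun g' => if kap (g ++ g') = κ ∧ RR (g ++ g') ≤ Cs + 1 then kerF (g ++ g') b
        else 0) := by
  classical
  obtain ⟨w1, w2, w3, w4, w5, w6, w7, w8⟩ := h1
  by_cases hv : valid g b
  · have e1 : kerF g b = 3 ^ kap g := by
      unfold kerF
      exact if_pos hv
    rw [e1]
    unfold Dd chi
    rw [← Ew_sub, ← Ew_mul]
    refine Ew_mono fun g' hg' => ?_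
    have e2 : g'.take τ = g' := by
      rw [← hg']
      exact List.take_length
    rw [e2, kap_append, w7 g g' b hv]
    have hn := kerF_nonneg g' (Nz g b)
    have h3 : (0 : ℝ) ≤ 3 ^ kap g := by positivity
    by_cases hD : ((26 / 25 : ℝ) ^ ℓ) ^ 2 < RR g'
    · rw [if_pos hD]
      have h4 : (0 : ℝ) ≤ if kap g + kap g' = κ ∧ RR (g ++ g') ≤ Cs + 1 then
          3 ^ kap g * kerF g' (Nz g b) else 0 := by
        split_ifs
        · positivity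
        · exact le_rfl
      refine le_trans ?_ h4
      apply mul_nonpos_of_nonneg_of_nonpos h3
      split_ifs
      · simp
      · linarith
    · rw [if_neg hD, sub_zero]
      by_cases hk : kap g' = κ - kap g
      · rw [if_pos hk]
        have hR : RR (g ++ g') ≤ Cs + 1 := by
          rw [RR_append, hg]
          have h6 := ht.2
          have h7 : (3 : ℝ) ^ kap g / 4 ^ ℓ * RR g' ≤ 1 := by
            refine le_trans ?_ (pow_kap_le (ℓ := ℓ) (k := kap g) ?_)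
            · push Not at hD
              gcongr
            · have h8 := ht.1
              rw [hg] at h8
              have h9 := le_abs_self ((kap g : ℤ) - (ℓ : ℤ))
              omega
          linarith
        rw [if_pos ⟨by omega, hR⟩]
      · rw [if_neg hk, mul_zero]
        split_ifs
        · positivity
        · exact le_rfl
  · have e1 : kerF g b = 0 := by
      unfold kerF
      exact if_neg hv
    rw [e1, zero_mul]
    exact Ew_nonneg fun g' _ => by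
      split_ifs
      exacts [kerF_nonneg _ _, le_rfl]

open Classical in
theorem main_le (h1 : StmtWords) (Cs : ℝ) (ℓ τ κ m : ℕ) (b : ℤ) :
    Ew ℓ (fun g => if typ Cs g ∧ kap g ≤ κ then kerF g b * Ddm m τ τ (κ - kap g) (Nz g b) else 0)
      ≤ VV (ℓ + τ) κ (Cs + 1) b +
        Ew ℓ (fun g => if typ Cs g then kerF g b *
          (|Dd τ τ (κ - kap g) (Nz g b) - Ddm m τ τ (κ - kap g) (Nz g b)| +
            chi τ (((26 / 25) ^ ℓ) ^ 2) (Nz g b)) else 0) := by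
  unfold VV
  rw [Ew_append, ← Ew_add]
  refine Ew_mono fun g hg => ?_
  have h0 : (0 : ℝ) ≤ Ew τ (fun g' => if kap (g ++ g') = κ ∧ RR (g ++ g') ≤ Cs + 1 then
      kerF (g ++ g') b else 0) :=
    Ew_nonneg fun g' _ => by
      split_ifs
      exacts [kerF_nonneg _ _, le_rfl]
  by_cases ht : typ Cs g
  · rw [if_pos ht]
    have hk := kerF_nonneg g b
    by_cases hκ : kap g ≤ κ
    · rw [if_pos ⟨ht, hκ⟩]
      have h2 := inner_le (τ := τ) (b := b) h1 hg ht hκ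
      have h3 : Ddm m τ τ (κ - kap g) (Nz g b) ≤ Dd τ τ (κ - kap g) (Nz g b) +
          |Dd τ τ (κ - kap g) (Nz g b) - Ddm m τ τ (κ - kap g) (Nz g b)| := by
        have := neg_abs_le (Dd τ τ (κ - kap g) (Nz g b) - Ddm m τ τ (κ - kap g) (Nz g b))
        linarith
      have h4 := mul_le_mul_of_nonneg_left h3 hk
      nlinarith
    · rw [if_neg (by tauto)]
      have h3 : 0 ≤ kerF g b * (|Dd τ τ (κ - kap g) (Nz g b) - Ddm m τ τ (κ - kap g) (Nz g b)| +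
            chi τ (((26 / 25) ^ ℓ) ^ 2) (Nz g b)) :=
        mul_nonneg hk (add_nonneg (abs_nonneg _) (chi_nonneg _ _ _))
      linarith
  · rw [if_neg ht, if_neg (by tauto), add_zero]
    exact h0

theorem pow_le_of {ℓ τ k : ℕ} (hτ : 10 * τ ≤ ℓ) (hk : 1000 * k ≤ 1001 * ℓ) :
    3 ^ (k + 2 * τ) ≤ 4 ^ ℓ := by
  have h1 : (3 ^ (k + 2 * τ)) ^ 5 ≤ (4 ^ ℓ) ^ 5 := by
    calc (3 ^ (k + 2 * τ)) ^ 5 = (3 ^ 5) ^ (k + 2 * τ) := by rw [← pow_mul, ← pow_mul, mul_comm]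
      _ ≤ (4 ^ 4) ^ (k + 2 * τ) := Nat.pow_le_pow_left (by norm_num) _
      _ = 4 ^ (4 * (k + 2 * τ)) := by rw [← pow_mul]
      _ ≤ 4 ^ (ℓ * 5) := Nat.pow_le_pow_right (by norm_num) (by omega)
      _ = (4 ^ ℓ) ^ 5 := by rw [pow_mul]
  exact le_of_pow_le_pow_left₀ (by norm_num) (by positivity) h1

open Classical in
theorem err_le (h2 : StmtKerAvg) (h3 : StmtSlice) (h5 : StmtRMoment) {Cs Ca : ℝ} (hCs : 0 ≤ Cs)
    {a m τ : ℕ}
    (hCa : ∀ κ, avg (2 * τ) (fun z => |Dd τ τ κ z - Ddm m τ τ κ z|) ≤ Ca / (m : ℝ) ^ a)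
    {ℓ : ℕ} (κ : ℕ) (b : ℤ) (hτ : 10 * τ ≤ ℓ) :
    Ew ℓ (fun g => if typ Cs g then kerF g b *
          (|Dd τ τ (κ - kap g) (Nz g b) - Ddm m τ τ (κ - kap g) (Nz g b)| +
            chi τ (((26 / 25) ^ ℓ) ^ 2) (Nz g b)) else 0) ≤
      (ℓ + 1) * ((Cs + 1) * (Ca / (m : ℝ) ^ a + 10 / (26 / 25) ^ ℓ)) := by
  obtain ⟨φ, hφ⟩ : ∃ φ : ℕ → ℤ → ℝ, φ = fun k z => |Dd τ τ (κ - k) z - Ddm m τ τ (κ - k) z| +
      chi τ (((26 / 25) ^ ℓ) ^ 2) z := ⟨_, rfl⟩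
  have hφ0 : ∀ k z, 0 ≤ φ k z := by
    intro k z
    rw [hφ]
    exact add_nonneg (abs_nonneg _) (chi_nonneg _ _ _)
  have hφp : ∀ k z, φ k (z + 3 ^ (2 * τ)) = φ k z := by
    intro k z
    rw [hφ]
    show |Dd τ τ (κ - k) (z + 3 ^ (2 * τ)) - Ddm m τ τ (κ - k) (z + 3 ^ (2 * τ))| +
      chi τ (((26 / 25) ^ ℓ) ^ 2) (z + 3 ^ (2 * τ)) = _
    rw [Dd_periodic τ τ _ (2 * τ) le_rfl, Ddm_periodic, chi_periodic]
  have hφa : ∀ k, avg (2 * τ) (φ k) ≤ Ca / (m : ℝ) ^ a + 10 / (26 / 25) ^ ℓ := by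
    intro k
    rw [hφ]
    show avg (2 * τ) (fun z => |Dd τ τ (κ - k) z - Ddm m τ τ (κ - k) z| +
      chi τ (((26 / 25) ^ ℓ) ^ 2) z) ≤ _
    rw [avg_add]
    exact add_le_add (hCa _) (avg_chi h2 h5 τ (by positivity))
  have h6 : Ew ℓ (fun g => if typ Cs g then kerF g b *
          (|Dd τ τ (κ - kap g) (Nz g b) - Ddm m τ τ (κ - kap g) (Nz g b)| +
            chi τ (((26 / 25) ^ ℓ) ^ 2) (Nz g b)) else 0) ≤
      Ew ℓ (fun g => ∑ k ∈ Finset.Icc (ℓ - ℓ / 1000) (ℓ + ℓ / 1000),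
        if kap g = k ∧ RR g ≤ Cs then kerF g b * φ k (Nz g b) else 0) := by
    refine Ew_mono fun g hg => ?_
    have hnn : ∀ k, (0 : ℝ) ≤ if kap g = k ∧ RR g ≤ Cs then kerF g b * φ k (Nz g b) else 0 := by
      intro k
      split_ifs
      · exact mul_nonneg (kerF_nonneg _ _) (hφ0 _ _)
      · exact le_rfl
    by_cases ht : typ Cs g
    · rw [if_pos ht]
      have h7 : kap g ∈ Finset.Icc (ℓ - ℓ / 1000) (ℓ + ℓ / 1000) := by
        have h8 := ht.1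
        rw [hg] at h8
        have h9 := le_abs_self ((kap g : ℤ) - (ℓ : ℤ))
        have h10 := neg_abs_le ((kap g : ℤ) - (ℓ : ℤ))
        rw [Finset.mem_Icc]
        omega
      refine le_trans ?_ (Finset.single_le_sum (fun k _ => hnn k) h7)
      rw [if_pos ⟨rfl, ht.2⟩, hφ]
    · rw [if_neg ht]
      exact Finset.sum_nonneg fun k _ => hnn k
  refine h6.trans ?_
  rw [Ew_finset_sum]
  have h7 : ∀ k ∈ Finset.Icc (ℓ - ℓ / 1000) (ℓ + ℓ / 1000),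
      Ew ℓ (fun g => if kap g = k ∧ RR g ≤ Cs then kerF g b * φ k (Nz g b) else 0) ≤
        (Cs + 1) * (Ca / (m : ℝ) ^ a + 10 / (26 / 25) ^ ℓ) := by
    intro k hk
    rw [Finset.mem_Icc] at hk
    have h8 : 3 ^ (k + 2 * τ) ≤ 4 ^ ℓ := pow_le_of hτ (by omega)
    refine (h3 ℓ k (2 * τ) Cs b (φ k) hCs h8 (hφ0 k) (hφp k)).trans ?_
    exact mul_le_mul_of_nonneg_left (hφa k) (by linarith)
  refine (Finset.sum_le_card_nsmul _ _ _ h7).trans ?_
  rw [nsmul_eq_mul, Nat.card_Icc]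
  have h9 : 0 ≤ (Cs + 1) * (Ca / (m : ℝ) ^ a + 10 / (26 / 25) ^ ℓ) := by
    have h10 := hφa 0
    have h11 := avg_nonneg (N := 2 * τ) (hφ0 0)
    have h12 : 0 ≤ Ca / (m : ℝ) ^ a + 10 / (26 / 25) ^ ℓ := h11.trans h10
    have h13 : (0 : ℝ) ≤ Cs + 1 := by linarith
    exact mul_nonneg h13 h12
  refine mul_le_mul_of_nonneg_right ?_ h9
  have h10 : ℓ + ℓ / 1000 + 1 - (ℓ - ℓ / 1000) ≤ ℓ + 1 := by omega
  calc (((ℓ + ℓ / 1000 + 1 - (ℓ - ℓ / 1000) : ℕ)) : ℝ) ≤ ((ℓ + 1 : ℕ) : ℝ) := by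
        exact_mod_cast h10
    _ = ℓ + 1 := by push_cast; ring

theorem exists_large (a : ℕ) : ∃ ℓ₀ : ℕ, 1 ≤ ℓ₀ ∧ ∀ ℓ ≥ ℓ₀, (ℓ : ℝ) ^ a ≤ (26 / 25) ^ ℓ := by
  have h1 : Filter.Tendsto (fun n : ℕ => (n : ℝ) ^ a * (25 / 26 : ℝ) ^ n) Filter.atTop
      (nhds 0) := tendsto_pow_const_mul_const_pow_of_abs_lt_one a (by rw [abs_lt]; norm_num)
  have h2 := h1.eventually (gt_mem_nhds (show (0 : ℝ) < 1 by norm_num))
  obtain ⟨N, hN⟩ := Filter.eventually_atTop.1 h2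
  refine ⟨max N 1, le_max_right _ _, fun ℓ hℓ => ?_⟩
  have h3 := hN ℓ (le_trans (le_max_left _ _) hℓ)
  have h4 : (25 / 26 : ℝ) ^ ℓ = ((26 / 25) ^ ℓ)⁻¹ := by
    rw [← inv_pow]
    norm_num
  rw [h4, ← div_eq_mul_inv, div_lt_one (by positivity)] at h3
  exact h3.le

end Vstepaux

open Vstepaux in
/-- see the docstring of `StmtVstep` in Spec4.lean for the paper proof -/
theorem stmtVstep (h1 : StmtWords) (h2 : StmtKerAvg) (h3 : StmtSlice) (h4 : StmtHFsum) (h5 : StmtRMoment) : StmtVstep := by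
  intro a Cs hCs
  obtain ⟨Ca, hCa0, hCa⟩ := h4 a
  obtain ⟨ℓ₀, hℓ₀, hlarge⟩ := exists_large a
  refine ⟨2 * (Cs + 1) * (Ca + 10), ℓ₀, by positivity, ?_⟩
  intro ℓ τ κ m b hℓ hτ hm hmℓ
  refine (main_le h1 Cs ℓ τ κ m b).trans ?_
  have h6 := err_le h2 h3 h5 hCs (a := a) (m := m) (τ := τ) (Ca := Ca)
    (fun κ => hCa m τ τ κ (2 * τ) hm le_rfl le_rfl) κ b hτ
  have h7 : (10 : ℝ) / (26 / 25) ^ ℓ ≤ 10 / (m : ℝ) ^ a := by
    have h8 := hlarge ℓ hℓ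
    have hm0 : (0 : ℝ) < m := by exact_mod_cast hm
    have h9 : (m : ℝ) ^ a ≤ (ℓ : ℝ) ^ a := by
      have : (m : ℝ) ≤ ℓ := by exact_mod_cast hmℓ
      gcongr
    have h10 : (0 : ℝ) < (m : ℝ) ^ a := by positivity
    gcongr
    exact h9.trans h8
  have h8 : ((ℓ : ℝ) + 1) * ((Cs + 1) * (Ca / (m : ℝ) ^ a + 10 / (26 / 25) ^ ℓ)) ≤
      2 * (Cs + 1) * (Ca + 10) * ℓ / (m : ℝ) ^ a := by
    have hℓ1 : (1 : ℝ) ≤ ℓ := by exact_mod_cast hℓ₀.trans hℓ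
    have hm0 : (0 : ℝ) < m := by exact_mod_cast hm
    have h10 : (0 : ℝ) < (m : ℝ) ^ a := by positivity
    calc ((ℓ : ℝ) + 1) * ((Cs + 1) * (Ca / (m : ℝ) ^ a + 10 / (26 / 25) ^ ℓ))
        ≤ (2 * ℓ) * ((Cs + 1) * (Ca / (m : ℝ) ^ a + 10 / (m : ℝ) ^ a)) := by
          gcongr
          linarith
      _ = 2 * (Cs + 1) * (Ca + 10) * ℓ / (m : ℝ) ^ a := by
          field_simp
  linarith

end Pool.Agent.Clz
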