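import Pool.Agent.Lib.MP_5a39b1_nt.Clz.SpecF

set_option autoImplicit false

namespace Pool.Agent.Clz

open Finset

namespace Vsumaux

theorem frq_nonneg (m r : ℕ) (z : ℤ) : 0 ≤ frq m r z := by
  classical
  unfold frq
  refine Ew_nonneg fun g _ => ?_
  split_ifs
  · exact ker_nonneg _ _ _
  · exact le_rfl

theorem Ddm_nonneg (m t L κ : ℕ) (z : ℤ) : 0 ≤ Ddm m t L κ z := by
  classical
  unfold Ddm
  refine Ew_nonneg fun g _ => ?_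
  split_ifs
  · exact ker_nonneg _ _ _
  · exact le_rfl

theorem frq_periodic (m r N : ℕ) (h : m ≤ N) (z : ℤ) : frq m r (z + 3 ^ N) = frq m r z := by
  classical
  unfold frq
  refine Ew_congr fun g _ => ?_
  rw [ker_periodic m g N (le_trans (min_le_left _ _) h) z]

/-- `SS` is additive and monotone in the function -/
theorem SS_le (L : ℕ) (C : ℝ) (φ ψ : ℤ → ℝ) (x : ℤ) :
    SS L C φ x ≤ SS L C ψ x + SS L C (fun z => |ψ z - φ z|) x := by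
  classical
  unfold SS
  rw [← Ew_add]
  refine Ew_mono fun g _ => ?_
  by_cases h : typ C g
  · simp only [h, if_true]
    rw [← mul_add]
    refine mul_le_mul_of_nonneg_left ?_ (kerF_nonneg _ _)
    have := neg_abs_le (ψ (Nz g x) - φ (Nz g x))
    linarith
  · simp only [h, if_false]
    norm_num

open Classical in
/-- pointwise (in the word `g`) lower bound for the sum over `τ` -/
theorem point (h5 : StmtLoc) (ℓ κ₁ m : ℕ) (β : ℝ) (z : ℤ) (hℓ : 1 ≤ ℓ)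
    (hadm : Real.sqrt ℓ / 100 ≤ (((Finset.Icc (ℓ / 200) (ℓ / 20)).filter (fun τ : ℕ => κ₁ ≤ kz β (ℓ + τ) ∧ 2 * m < τ ∧
      16 * (|((kz β (ℓ + τ) - κ₁ : ℕ) : ℝ) - τ| + 2 * m) ≤ Real.sqrt ((τ : ℝ) - 2 * m))).card : ℝ)) :
    1 / 100 * frq m (2 * m) z ≤ ∑ τ ∈ Finset.Icc (ℓ / 200) (ℓ / 20),
      (if κ₁ ≤ kz β (ℓ + τ) then Ddm m τ τ (kz β (ℓ + τ) - κ₁) z else 0) := by
  have hsq : 0 < Real.sqrt ℓ := Real.sqrt_pos.2 (by exact_mod_cast hℓ)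
  have hf := frq_nonneg m (2 * m) z
  set A := (Finset.Icc (ℓ / 200) (ℓ / 20)).filter (fun τ : ℕ => κ₁ ≤ kz β (ℓ + τ) ∧ 2 * m < τ ∧
      16 * (|((kz β (ℓ + τ) - κ₁ : ℕ) : ℝ) - τ| + 2 * m) ≤ Real.sqrt ((τ : ℝ) - 2 * m)) with hA
  have e1 : ∀ τ ∈ A, 1 / Real.sqrt ℓ * frq m (2 * m) z
      ≤ (if κ₁ ≤ kz β (ℓ + τ) then Ddm m τ τ (kz β (ℓ + τ) - κ₁) z else 0) := by
    intro τ hτ
    rw [hA, Finset.mem_filter, Finset.mem_Icc] at hτ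
    obtain ⟨⟨_, hτ2⟩, hk, hm, hsqrt⟩ := hτ
    rw [if_pos hk]
    have hloc := h5 m (2 * m) τ (kz β (ℓ + τ) - κ₁) z hm (by push_cast at hsqrt ⊢; exact hsqrt)
    refine le_trans (mul_le_mul_of_nonneg_right ?_ hf) hloc
    have hτpos : 0 < τ := by omega
    have hs : 0 < Real.sqrt τ := Real.sqrt_pos.2 (by exact_mod_cast hτpos)
    refine one_div_le_one_div_of_le (by positivity) ?_
    have h4 : 4 * Real.sqrt τ = Real.sqrt (16 * τ) := by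
      rw [Real.sqrt_mul (by norm_num), show (16 : ℝ) = 4 ^ 2 by norm_num, Real.sqrt_sq (by norm_num)]
    rw [h4]
    refine Real.sqrt_le_sqrt ?_
    have : 16 * τ ≤ ℓ := by omega
    exact_mod_cast this
  have e2 : ∑ τ ∈ A, (if κ₁ ≤ kz β (ℓ + τ) then Ddm m τ τ (kz β (ℓ + τ) - κ₁) z else 0)
      ≤ ∑ τ ∈ Finset.Icc (ℓ / 200) (ℓ / 20),
        (if κ₁ ≤ kz β (ℓ + τ) then Ddm m τ τ (kz β (ℓ + τ) - κ₁) z else 0) := by
    refine Finset.sum_le_sum_of_subset_of_nonneg (Finset.filter_subset _ _) fun τ _ _ => ?_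
    split_ifs
    · exact Ddm_nonneg _ _ _ _ _
    · exact le_rfl
  refine le_trans ?_ e2
  refine le_trans ?_ (Finset.sum_le_sum e1)
  rw [Finset.sum_const, nsmul_eq_mul, ← mul_assoc]
  refine mul_le_mul_of_nonneg_right ?_ hf
  rw [mul_one_div, le_div_iff₀ hsq]
  linarith

open Classical in
/-- interchange of the two sums -/
theorem inter (h5 : StmtLoc) (h4 : StmtAdm) : ∃ ℓ₀ : ℕ, ∀ (ℓ m : ℕ) (β Cs : ℝ) (b : ℤ), ℓ₀ ≤ ℓ →
    1011 / 1000 * ℓ * (al - 1) ≤ β → β ≤ 1022 / 1000 * ℓ * (al - 1) → 2000 * (m : ℝ) ≤ Real.sqrt ℓ →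
    1 / 100 * SS ℓ Cs (frq m (2 * m)) b ≤ ∑ τ ∈ Finset.Icc (ℓ / 200) (ℓ / 20),
      Ew ℓ (fun g => if typ Cs g ∧ kap g ≤ kz β (ℓ + τ) then
        kerF g b * Ddm m τ τ (kz β (ℓ + τ) - kap g) (Nz g b) else 0) := by
  obtain ⟨ℓ₀, hℓ₀⟩ := h4
  refine ⟨ℓ₀ + 1, fun ℓ m β Cs b hℓ hβ1 hβ2 hm => ?_⟩
  rw [← Ew_finset_sum]
  unfold SS
  rw [← Ew_mul]
  refine Ew_mono fun g hg => ?_
  by_cases h : typ Cs g
  · simp only [h, true_and, if_true]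
    have hκ : 1000 * |(kap g : ℤ) - (ℓ : ℤ)| ≤ (ℓ : ℤ) := by
      have := h.1
      rwa [hg] at this
    have hp := point h5 ℓ (kap g) m β (Nz g b) (by omega)
      (hℓ₀ ℓ (kap g) m β (by omega) hβ1 hβ2 hκ hm)
    have hk := kerF_nonneg g b
    calc 1 / 100 * (kerF g b * frq m (2 * m) (Nz g b))
        = kerF g b * (1 / 100 * frq m (2 * m) (Nz g b)) := by ring
      _ ≤ kerF g b * ∑ τ ∈ Finset.Icc (ℓ / 200) (ℓ / 20),
            (if kap g ≤ kz β (ℓ + τ) then Ddm m τ τ (kz β (ℓ + τ) - kap g) (Nz g b) else 0) :=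
          mul_le_mul_of_nonneg_left hp hk
      _ = _ := by
          rw [Finset.mul_sum]
          refine Finset.sum_congr rfl fun τ _ => ?_
          split_ifs <;> simp
  · simp only [h, false_and, if_false]
    simp

/-- comparison of `frq m (2m)` with `fr (ℓ/100)` -/
theorem comp (h2 : StmtFrq) (h3 : StmtSliceSum) (Cs : ℝ) (hCs : 0 ≤ Cs) : ∃ C : ℝ, 0 < C ∧
    ∀ (ℓ m : ℕ) (b : ℤ), 1 ≤ m → 200 * m ≤ ℓ →
    SS ℓ Cs (fr (ℓ / 100)) b ≤ SS ℓ Cs (frq m (2 * m)) b + (ℓ + 1) * (Cs + 1) * (C / (m : ℝ) ^ 6) := by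
  obtain ⟨C, hC, h⟩ := h2 6
  refine ⟨C, hC, fun ℓ m b hm hml => ?_⟩
  have e1 := SS_le ℓ Cs (fr (ℓ / 100)) (frq m (2 * m)) b
  have hper : ∀ z : ℤ, (fun z => |frq m (2 * m) z - fr (ℓ / 100) z|) (z + 3 ^ (2 * (ℓ / 100)))
      = (fun z => |frq m (2 * m) z - fr (ℓ / 100) z|) z := by
    intro z
    dsimp only
    rw [frq_periodic m (2 * m) _ (by omega), fr_periodic (ℓ / 100) _ le_rfl]
  have e2 := h3 ℓ (2 * (ℓ / 100)) Cs b (fun z => |frq m (2 * m) z - fr (ℓ / 100) z|) hCs (by omega)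
    (fun z => abs_nonneg _) hper
  have e3 := h m (ℓ / 100) (2 * (ℓ / 100)) hm (by omega) le_rfl
  have e4 : ((ℓ : ℝ) + 1) * (Cs + 1) * avg (2 * (ℓ / 100)) (fun z => |frq m (2 * m) z - fr (ℓ / 100) z|)
      ≤ (ℓ + 1) * (Cs + 1) * (C / (m : ℝ) ^ 6) := mul_le_mul_of_nonneg_left e3 (by positivity)
  linarith

end Vsumaux

open Vsumaux in
/-- see the docstring of `StmtVsum` in SpecF.lean for the paper proof -/
theorem stmtVsum (h1 : StmtVstep) (h2 : StmtFrq) (h3 : StmtSliceSum) (h4 : StmtAdm) (h5 : StmtLoc) : StmtVsum := by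
  classical
  intro Cs hCs
  obtain ⟨K, ℓ₁, hK, hV⟩ := h1 6 Cs hCs
  obtain ⟨ℓ₂, hI⟩ := inter h5 h4
  obtain ⟨C, hC, hcomp⟩ := comp h2 h3 Cs hCs
  obtain ⟨ℓ₃, hℓ₃⟩ := exists_nat_ge (800 * ((Cs + 1) * C + K) * 4000 ^ 6)
  refine ⟨ℓ₁ + ℓ₂ + ℓ₃ + 16000000, fun ℓ β b hℓ hβ1 hβ2 hSS => ?_⟩
  set m : ℕ := ⌊Real.sqrt ℓ / 2000⌋₊ with hm
  have hℓR : (16000000 : ℝ) ≤ ℓ := by
    have : 16000000 ≤ ℓ := by omega
    exact_mod_cast this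
  have hℓ3R : (ℓ₃ : ℝ) ≤ ℓ := by
    have : ℓ₃ ≤ ℓ := by omega
    exact_mod_cast this
  have hsq : (4000 : ℝ) ≤ Real.sqrt ℓ := by
    refine Real.le_sqrt_of_sq_le ?_
    norm_num
    linarith
  have hsq2 : Real.sqrt ℓ ^ 2 = ℓ := Real.sq_sqrt (by linarith)
  have hmle : (m : ℝ) ≤ Real.sqrt ℓ / 2000 := Nat.floor_le (by positivity)
  have hmlt : Real.sqrt ℓ / 2000 < (m : ℝ) + 1 := Nat.lt_floor_add_one _
  have hmlow : Real.sqrt ℓ / 4000 ≤ m := by linarith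
  have hm1 : 1 ≤ m := by
    have : (1 : ℝ) ≤ m := by linarith
    exact_mod_cast this
  have hm2000 : 2000 * (m : ℝ) ≤ Real.sqrt ℓ := by linarith
  have hm200 : 200 * m ≤ ℓ := by
    have : 200 * (m : ℝ) ≤ ℓ := by nlinarith
    exact_mod_cast this
  have hmpow : (ℓ : ℝ) ^ 3 / 4000 ^ 6 ≤ (m : ℝ) ^ 6 := by
    calc (ℓ : ℝ) ^ 3 / 4000 ^ 6 = (Real.sqrt ℓ / 4000) ^ 6 := by
          rw [div_pow]
          congr 1
          rw [← hsq2]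
          ring_nf
          rw [hsq2]
      _ ≤ (m : ℝ) ^ 6 := pow_le_pow_left₀ (by positivity) hmlow 6
  have hm6 : (0 : ℝ) < (m : ℝ) ^ 6 := by positivity
  -- sum of Vstep
  have s1 := hI ℓ m β Cs b (by omega) hβ1 hβ2 hm2000
  have s2 : ∑ τ ∈ Finset.Icc (ℓ / 200) (ℓ / 20),
      Ew ℓ (fun g => if typ Cs g ∧ kap g ≤ kz β (ℓ + τ) then
        kerF g b * Ddm m τ τ (kz β (ℓ + τ) - kap g) (Nz g b) else 0)
      ≤ ∑ τ ∈ Finset.Icc (ℓ / 200) (ℓ / 20), (VV (ℓ + τ) (kz β (ℓ + τ)) (Cs + 1) b + K * ℓ / (m : ℝ) ^ 6) := by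
    refine Finset.sum_le_sum fun τ hτ => ?_
    rw [Finset.mem_Icc] at hτ
    exact hV ℓ τ (kz β (ℓ + τ)) m b (by omega) (by omega) hm1 (by omega)
  rw [Finset.sum_add_distrib, Finset.sum_const, nsmul_eq_mul] at s2
  have hcard : (((Finset.Icc (ℓ / 200) (ℓ / 20)).card : ℕ) : ℝ) ≤ ℓ := by
    have : (Finset.Icc (ℓ / 200) (ℓ / 20)).card ≤ ℓ := by
      rw [Nat.card_Icc]; omega
    exact_mod_cast this
  have s3 : (((Finset.Icc (ℓ / 200) (ℓ / 20)).card : ℕ) : ℝ) * (K * ℓ / (m : ℝ) ^ 6)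
      ≤ ℓ * (K * ℓ / (m : ℝ) ^ 6) := by
    refine mul_le_mul_of_nonneg_right hcard (by positivity)
  have s4 := hcomp ℓ m b hm1 hm200
  -- error terms
  have hℓ0 : (0 : ℝ) < ℓ := by linarith
  have hinv : 1 / (m : ℝ) ^ 6 ≤ 4000 ^ 6 / (ℓ : ℝ) ^ 3 := by
    rw [div_le_div_iff₀ hm6 (by positivity)]
    rw [div_le_iff₀ (by positivity)] at hmpow
    linarith
  have e1 : ((ℓ : ℝ) + 1) * (Cs + 1) * (C / (m : ℝ) ^ 6) / 100 + ℓ * (K * ℓ / (m : ℝ) ^ 6) ≤ 1 / 800 := by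
    have hl2 : ((ℓ : ℝ) + 1) / 100 ≤ (ℓ : ℝ) ^ 2 := by nlinarith
    have k0 : 0 ≤ (Cs + 1) * C := by positivity
    calc ((ℓ : ℝ) + 1) * (Cs + 1) * (C / (m : ℝ) ^ 6) / 100 + ℓ * (K * ℓ / (m : ℝ) ^ 6)
        = (((ℓ : ℝ) + 1) / 100 * ((Cs + 1) * C) + (ℓ : ℝ) ^ 2 * K) * (1 / (m : ℝ) ^ 6) := by ring
      _ ≤ ((ℓ : ℝ) ^ 2 * ((Cs + 1) * C) + (ℓ : ℝ) ^ 2 * K) * (4000 ^ 6 / (ℓ : ℝ) ^ 3) := by
          gcongr
      _ = (((Cs + 1) * C + K) * 4000 ^ 6) / ℓ := by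
          field_simp
      _ ≤ 1 / 800 := by
          rw [div_le_div_iff₀ hℓ0 (by norm_num)]
          linarith
  linarith

end Pool.Agent.Clz
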