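import Pool.Agent.Lib.MP_5a39b1_nt.Clz.Asm1
import Pool.Agent.Lib.MP_5a39b1_nt.Clz.Tail3
import Pool.Agent.Lib.MP_5a39b1_nt.Clz.Slice
import Pool.Agent.Lib.MP_5a39b1_nt.Clz.SliceSum
import Pool.Agent.Lib.MP_5a39b1_nt.Clz.FrA
import Pool.Agent.Lib.MP_5a39b1_nt.Clz.Frq
import Pool.Agent.Lib.MP_5a39b1_nt.Clz.Bad
import Pool.Agent.Lib.MP_5a39b1_nt.Clz.PStep
import Pool.Agent.Lib.MP_5a39b1_nt.Clz.Start
import Pool.Agent.Lib.MP_5a39b1_nt.Clz.Per
import Pool.Agent.Lib.MP_5a39b1_nt.Clz.Prop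
import Pool.Agent.Lib.MP_5a39b1_nt.Clz.Loc
import Pool.Agent.Lib.MP_5a39b1_nt.Clz.Vstep
import Pool.Agent.Lib.MP_5a39b1_nt.Clz.Adm
import Pool.Agent.Lib.MP_5a39b1_nt.Clz.Vsum
import Pool.Agent.Lib.MP_5a39b1_nt.Clz.Pick
import Pool.Agent.Lib.MP_5a39b1_nt.Clz.Cnt
import Pool.Agent.Lib.MP_5a39b1_nt.Clz.Grow
import Pool.Agent.Lib.MP_5a39b1_nt.Clz.Odo
import Pool.Agent.Lib.MP_5a39b1_nt.Clz.Fin

/-!
MP_5a39b1_nt, assembly of the full theorem (linear growth for every a not divisible by 3).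
-/

set_option autoImplicit false

namespace Pool.Agent.Clz

namespace Asm

theorem tail3 : StmtTail3 := stmtTail3 binBasic
theorem slice : StmtSlice := stmtSlice words
theorem sliceSum : StmtSliceSum := stmtSliceSum slice
theorem frA : StmtFrA := stmtFrA kapLaw kerAvg hFsum tail3
theorem frq : StmtFrq := stmtFrq kapLaw kerAvg hFsum tail3 frA
theorem bad : StmtBad := stmtBad kapLaw rMoment tail3
theorem step : StmtStep := stmtStep words kerAvg sliceSum frA bad
theorem start : StmtStart := stmtStart bad kerAvg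
theorem per : StmtPer := stmtPer 
theorem prop : StmtProp := stmtProp step start per
theorem loc : StmtLoc := stmtLoc binBasic binShift kapLaw
theorem vstep : StmtVstep := stmtVstep words kerAvg slice hFsum rMoment
theorem adm : StmtAdm := stmtAdm 
theorem vsum : StmtVsum := stmtVsum vstep frq sliceSum adm loc
theorem pick : StmtPick := stmtPick 
theorem cnt : StmtCnt := stmtCnt words
theorem grow : StmtGrow := stmtGrow prop vsum pick cnt
theorem odo : StmtOdo := stmtOdo 
theorem fin : StmtFin := stmtFin grow odo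

end Asm

end Pool.Agent.Clz
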