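import Pool.Agent.Lib.MP_5a39b1_nt.Clz.Spec1

/-!
MP_5a39b1_nt, module BadProb: probability of the bad exit columns. See the docstring of `StmtBadProb` in `Spec1.lean` for the proof.
-/

set_option autoImplicit false

namespace Pool.Agent.Clz

open Finset

namespace BadProbaux

theorem pow_le {k e : ℕ} (h : 4 * k ≤ 5 * e) : 3 ^ k ≤ 4 ^ e := by
  by_contra hc
  push Not at hc
  have h1 : (4 ^ e) ^ 4 < (3 ^ k) ^ 4 := Nat.pow_lt_pow_left hc (by norm_num)
  have h2 : (3 ^ k) ^ 4 = 3 ^ (4 * k) := by rw [← pow_mul, mul_comm]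
  have h3 : 3 ^ (4 * k) ≤ 3 ^ (5 * e) := Nat.pow_le_pow_right (by norm_num) h
  have h4 : 3 ^ (5 * e) = 243 ^ e := by rw [pow_mul]; norm_num
  have h5 : (4 ^ e) ^ 4 = 256 ^ e := by rw [← pow_mul, mul_comm, pow_mul]; norm_num
  have h6 : 243 ^ e ≤ 256 ^ e := Nat.pow_le_pow_left (by norm_num) e
  omega

end BadProbaux

open BadProbaux

theorem stmtBadProb (hBinBasic : StmtBinBasic) (hBinDiff : StmtBinDiff) (hBinShift : StmtBinShift) (hSparse : StmtSparse) (hLemS : StmtLemS) : StmtBadProb := by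
  intro h m i H σ hm he hH hσ
  classical
  generalize hee : dl h m i = e at *
  have hP0 : ∀ (n : ℕ) (k : ℤ), 0 ≤ P n k := hBinBasic.1
  set K : Finset ℕ := (range (2 * e + 1)).filter
        (fun k : ℕ => ∃ h' ≤ H, ∃ s' ≤ 2 * H, σ ≤ dl h (m - (k + s')) (i + e + h')) with hK
  set K1 : Finset ℕ := K.filter (fun k => 4 * (k + 2 * H) ≤ 5 * e) with hK1
  set K2 : Finset ℕ := K.filter (fun k => ¬ 4 * (k + 2 * H) ≤ 5 * e) with hK2
  have hsplit : ∑ k ∈ K, P (2 * e) k = ∑ k ∈ K1, P (2 * e) k + ∑ k ∈ K2, P (2 * e) k :=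
    (Finset.sum_filter_add_sum_filter_not K _ _).symm
  -- the sparse part
  have hA : ∑ k ∈ K1, P (2 * e) (k : ℤ) ≤
      (4 * H + 1) * (1 / ((σ : ℝ) - 1 - 3 * H) + 2 / Real.sqrt (2 * e + 1)) := by
    set B : Finset ℤ := K1.map ⟨fun k : ℕ => (k : ℤ), fun _ _ hh => Int.ofNat_injective hh⟩ with hB
    have h1 : ∑ k ∈ B, P (2 * e) k = ∑ k ∈ K1, P (2 * e) (k : ℤ) := by
      rw [hB, Finset.sum_map]; rfl
    have hG : 1 ≤ σ - 1 - 3 * H := by omega
    have hsp := hSparse (2 * e) (4 * H + 1) (σ - 1 - 3 * H) B (by omega) hG ?_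
    · rw [h1] at hsp
      have h2 : (((σ - 1 - 3 * H : ℕ)) : ℝ) = (σ : ℝ) - 1 - 3 * H := by
        rw [Nat.cast_sub (by omega), Nat.cast_sub (by omega)]; push_cast; ring
      rw [h2] at hsp
      push_cast at hsp
      exact hsp
    · intro k hk k' hk' hlt
      obtain ⟨a, ha, rfl⟩ := Finset.mem_map.1 hk
      obtain ⟨b, hb, rfl⟩ := Finset.mem_map.1 hk'
      simp only [Function.Embedding.coeFn_mk] at hlt ⊢
      have hab : a < b := by exact_mod_cast hlt
      rw [hK1, Finset.mem_filter, hK, Finset.mem_filter] at ha hb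
      obtain ⟨⟨-, h1, hh1, s1, hs1, hd1⟩, ha2⟩ := ha
      obtain ⟨⟨-, h2, hh2, s2, hs2, hd2⟩, hb2⟩ := hb
      rcases le_total (a + s1) (b + s2) with hle | hle
      · have := hLemS h m i (a + s1) (b + s2) h1 h2 H σ hm (by rw [hee]; exact he) hle
          (by rw [hee]; exact pow_le (by omega)) hh1 hh2 (by omega)
          (by rw [hee]; exact hd1) (by rw [hee]; exact hd2)
        omega
      · have := hLemS h m i (b + s2) (a + s1) h2 h1 H σ hm (by rw [hee]; exact he) hle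
          (by rw [hee]; exact pow_le (by omega)) hh2 hh1 (by omega)
          (by rw [hee]; exact hd2) (by rw [hee]; exact hd1)
        omega
  -- the tail
  have he' : (0 : ℝ) < e := by exact_mod_cast he
  have hC : ∑ k ∈ K2, P (2 * e) (k : ℤ) ≤ 32 / (e : ℝ) := by
    have hcheb := hBinShift.2.2.2.2 (2 * e) ((e : ℝ) / 4) (by positivity)
    have hsub : K2 ⊆ (range (2 * e + 1)).filter
        (fun k : ℕ => (e : ℝ) / 4 ≤ |2 * (k : ℝ) - (2 * e : ℕ)|) := by
      intro k hk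
      rw [hK2, Finset.mem_filter, hK, Finset.mem_filter] at hk
      rw [Finset.mem_filter]
      refine ⟨hk.1.1, ?_⟩
      have h1 : 9 * e ≤ 8 * k := by omega
      have h2 : (9 : ℝ) * e ≤ 8 * k := by exact_mod_cast h1
      refine le_trans ?_ (le_abs_self _)
      push_cast
      linarith
    calc ∑ k ∈ K2, P (2 * e) (k : ℤ) ≤ _ :=
          Finset.sum_le_sum_of_subset_of_nonneg hsub (fun _ _ _ => hP0 _ _)
      _ ≤ _ := hcheb
      _ = 32 / (e : ℝ) := by
          push_cast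
          field_simp
          norm_num
  rw [hsplit]
  exact add_le_add hA hC

end Pool.Agent.Clz
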