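import Pool.Agent.Lib.MP_5a39b1_nt.Clz.Spec1

/-!
MP_5a39b1_nt, module BinBasic: elementary facts on the binomial weights P n k (Pascal, mass, symmetry, Vandermonde, second moment, generating function). See the docstring of `StmtBinBasic` in `Spec1.lean` for the proof.
-/

set_option autoImplicit false

namespace Pool.Agent.Clz

open Finset

namespace BinBasicaux

theorem P_nonneg (n : ℕ) (k : ℤ) : 0 ≤ P n k := by
  unfold P
  split_ifs <;> positivity

theorem P_natCast (n k : ℕ) : P n (k : ℤ) = (n.choose k : ℝ) / 2 ^ n := by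
  unfold P
  rw [if_pos (Int.natCast_nonneg k), Int.toNat_natCast]

theorem P_neg (n : ℕ) (k : ℤ) (h : k < 0) : P n k = 0 := by
  unfold P
  rw [if_neg (not_le.mpr h)]

theorem P_out (n : ℕ) (k : ℤ) (h : k < 0 ∨ (n : ℤ) < k) : P n k = 0 := by
  rcases h with h | h
  · exact P_neg n k h
  · obtain ⟨m, rfl⟩ := Int.eq_ofNat_of_zero_le (le_trans (Int.natCast_nonneg n) h.le)
    rw [P_natCast, Nat.choose_eq_zero_of_lt (by exact_mod_cast h)]
    simp

theorem P_zero (k : ℤ) : P 0 k = if k = 0 then 1 else 0 := by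
  split_ifs with h
  · subst h
    have := P_natCast 0 0
    simpa using this
  · apply P_out
    push_cast
    omega

theorem P_succ (n : ℕ) (k : ℤ) :
    P (n + 1) k = (1 / 2) * P n k + (1 / 2) * P n (k - 1) := by
  rcases lt_trichotomy k 0 with h | h | h
  · rw [P_neg _ _ h, P_neg _ _ h, P_neg _ _ (by omega)]
    ring
  · subst h
    rw [P_neg n (0 - 1) (by omega)]
    have h1 := P_natCast (n + 1) 0
    have h2 := P_natCast n 0
    simp only [Nat.cast_zero, Nat.choose_zero_right, Nat.cast_one] at h1 h2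
    rw [h1, h2, pow_succ]
    field_simp
    ring
  · obtain ⟨m, rfl⟩ : ∃ m : ℕ, k = ((m + 1 : ℕ) : ℤ) := ⟨(k - 1).toNat, by omega⟩
    have e : (((m + 1 : ℕ) : ℤ) - 1) = (m : ℤ) := by push_cast; ring
    rw [e, P_natCast, P_natCast, P_natCast, Nat.choose_succ_succ, pow_succ]
    push_cast
    field_simp
    ring

theorem P_sum_pow (n : ℕ) (z : ℝ) :
    ∑ k ∈ range (n + 1), P n k * z ^ k = ((1 + z) / 2) ^ n := by
  rw [div_pow, add_comm (1 : ℝ) z, add_pow, Finset.sum_div]
  refine Finset.sum_congr rfl fun k _ => ?_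
  rw [P_natCast]
  simp only [one_pow]
  ring

theorem P_mass (n : ℕ) : ∑ k ∈ range (n + 1), P n k = 1 := by
  have := P_sum_pow n 1
  simpa using this

theorem P_symm (n : ℕ) (k : ℤ) : P n (n - k) = P n k := by
  by_cases h : k < 0 ∨ (n : ℤ) < k
  · rw [P_out n k h, P_out n (n - k) (by omega)]
  · push Not at h
    obtain ⟨m, rfl⟩ := Int.eq_ofNat_of_zero_le h.1
    have hm : m ≤ n := by exact_mod_cast h.2
    have e : ((n : ℤ) - (m : ℤ)) = ((n - m : ℕ) : ℤ) := by omega
    rw [e, P_natCast, P_natCast, Nat.choose_symm hm]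

theorem P_vander (a b : ℕ) (k : ℤ) :
    P (a + b) k = ∑ j ∈ range (a + 1), P a j * P b (k - j) := by
  induction a generalizing k with
  | zero =>
    have := P_natCast 0 0
    simp only [Nat.cast_zero, Nat.choose_zero_right, Nat.cast_one, pow_zero, div_one] at this
    simp [this]
  | succ a ih =>
    have e : a + 1 + b = (a + b) + 1 := by ring
    rw [e, P_succ, ih k, ih (k - 1)]
    have h1 : ∑ j ∈ range (a + 1 + 1), P (a + 1) j * P b (k - j)
        = (1 / 2) * ∑ j ∈ range (a + 1 + 1), P a j * P b (k - j)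
          + (1 / 2) * ∑ j ∈ range (a + 1 + 1), P a (j - 1) * P b (k - j) := by
      rw [Finset.mul_sum, Finset.mul_sum, ← Finset.sum_add_distrib]
      refine Finset.sum_congr rfl fun j _ => ?_
      rw [P_succ]
      ring
    rw [h1, Finset.sum_range_succ (fun j : ℕ => P a j * P b (k - j)) (a + 1),
      P_out a ((a + 1 : ℕ) : ℤ) (Or.inr (by push_cast; omega)),
      Finset.sum_range_succ' (fun j : ℕ => P a ((j : ℤ) - 1) * P b (k - j)) (a + 1)]
    rw [P_neg a (((0 : ℕ) : ℤ) - 1) (by norm_num)]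
    simp only [zero_mul, add_zero]
    congr 2
    refine Finset.sum_congr rfl fun j _ => ?_
    have e1 : (((j + 1 : ℕ) : ℤ) - 1) = (j : ℤ) := by push_cast; ring
    have e2 : k - ((j + 1 : ℕ) : ℤ) = k - 1 - (j : ℤ) := by push_cast; ring
    rw [e1, e2]

/-- first moment, centred -/
theorem P_first (n : ℕ) : ∑ k ∈ range (n + 1), P n k * (2 * (k : ℝ) - n) = 0 := by
  have h := Finset.sum_range_reflect (fun k : ℕ => P n k * (2 * (k : ℝ) - n)) (n + 1)
  have h2 : ∑ j ∈ range (n + 1), (fun k : ℕ => P n k * (2 * (k : ℝ) - n)) (n + 1 - 1 - j)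
      = - ∑ k ∈ range (n + 1), P n k * (2 * (k : ℝ) - n) := by
    rw [← Finset.sum_neg_distrib]
    refine Finset.sum_congr rfl fun j hj => ?_
    have hj' : j ≤ n := by simpa [Nat.lt_succ_iff] using hj
    have e : ((n + 1 - 1 - j : ℕ) : ℤ) = (n : ℤ) - j := by omega
    have e' : ((n + 1 - 1 - j : ℕ) : ℝ) = (n : ℝ) - j := by
      rw [Nat.add_sub_cancel, Nat.cast_sub hj']
    simp only [e, e', P_symm]
    ring
  rw [h2] at h
  linarith

theorem P_second (n : ℕ) :
    ∑ k ∈ range (n + 1), P n k * (2 * (k : ℝ) - n) ^ 2 = (n : ℝ) := by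
  induction n with
  | zero =>
    simp
  | succ n ih =>
    have h1 : ∑ k ∈ range (n + 1 + 1), P (n + 1) k * (2 * (k : ℝ) - ((n + 1 : ℕ) : ℝ)) ^ 2
        = (1 / 2) * ∑ k ∈ range (n + 1 + 1), P n k * (2 * (k : ℝ) - ((n + 1 : ℕ) : ℝ)) ^ 2
          + (1 / 2) * ∑ k ∈ range (n + 1 + 1),
              P n (k - 1) * (2 * (k : ℝ) - ((n + 1 : ℕ) : ℝ)) ^ 2 := by
      rw [Finset.mul_sum, Finset.mul_sum, ← Finset.sum_add_distrib]
      refine Finset.sum_congr rfl fun j _ => ?_
      rw [P_succ]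
      ring
    rw [h1, Finset.sum_range_succ
        (fun k : ℕ => P n k * (2 * (k : ℝ) - ((n + 1 : ℕ) : ℝ)) ^ 2) (n + 1),
      P_out n ((n + 1 : ℕ) : ℤ) (Or.inr (by push_cast; omega)),
      Finset.sum_range_succ'
        (fun k : ℕ => P n ((k : ℤ) - 1) * (2 * (k : ℝ) - ((n + 1 : ℕ) : ℝ)) ^ 2) (n + 1)]
    rw [P_neg n (((0 : ℕ) : ℤ) - 1) (by norm_num)]
    simp only [zero_mul, add_zero]
    have hm := P_mass n
    have hf := P_first n
    have e1 : ∑ k ∈ range (n + 1), P n k * (2 * (k : ℝ) - ((n + 1 : ℕ) : ℝ)) ^ 2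
        = ∑ k ∈ range (n + 1), P n k * (2 * (k : ℝ) - n) ^ 2
          - 2 * ∑ k ∈ range (n + 1), P n k * (2 * (k : ℝ) - n)
          + ∑ k ∈ range (n + 1), P n k := by
      rw [Finset.mul_sum, ← Finset.sum_sub_distrib, ← Finset.sum_add_distrib]
      refine Finset.sum_congr rfl fun j _ => ?_
      push_cast
      ring
    have e2 : ∑ k ∈ range (n + 1),
          P n (((k + 1 : ℕ) : ℤ) - 1) * (2 * ((k + 1 : ℕ) : ℝ) - ((n + 1 : ℕ) : ℝ)) ^ 2
        = ∑ k ∈ range (n + 1), P n k * (2 * (k : ℝ) - n) ^ 2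
          + 2 * ∑ k ∈ range (n + 1), P n k * (2 * (k : ℝ) - n)
          + ∑ k ∈ range (n + 1), P n k := by
      rw [Finset.mul_sum, ← Finset.sum_add_distrib, ← Finset.sum_add_distrib]
      refine Finset.sum_congr rfl fun j _ => ?_
      have e : (((j + 1 : ℕ) : ℤ) - 1) = (j : ℤ) := by push_cast; ring
      rw [e]
      push_cast
      ring
    rw [e1, e2, ih, hm, hf]
    push_cast
    ring

end BinBasicaux

open BinBasicaux in
theorem stmtBinBasic : StmtBinBasic :=
  ⟨P_nonneg, P_out, P_zero, P_succ, P_mass, P_symm, P_vander, P_second, P_sum_pow⟩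

end Pool.Agent.Clz
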