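import Mathlib

/-!
MP_5a39b1_nt, definitions.  Namespace `Pool.Agent.Clz`.
A *letter* `c : Fin 4` codes two backward steps of the 3x+1 map `T`; a *word* is a list of letters,
the head of the list is the step applied first.  The word `g` is *valid* at `M` if
`3^(kap g) ∣ 4^|g| M - FF g`, and then `Nz g M = (4^|g| M - FF g) / 3^(kap g)` is a `2|g|`-fold
preimage of `M` under `T`; all of them arise in this way, exactly once.
-/

set_option autoImplicit false

namespace Pool.Agent.Clz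

open Finset

/-- the `3x+1` map -/
def T (n : ℤ) : ℤ := if n % 2 = 0 then n / 2 else (3 * n + 1) / 2

/-- `P n k = C(n,k) / 2^n` for `k : ℤ` (zero outside `[0,n]`). -/
noncomputable def P (n : ℕ) (k : ℤ) : ℝ := if 0 ≤ k then (n.choose k.toNat : ℝ) / 2 ^ n else 0

/-- number of `3`'s of a letter -/
def kap1 (c : Fin 4) : ℕ := ![0, 1, 1, 2] c

/-- constant of a letter -/
def F1 (c : Fin 4) : ℤ := ![0, 1, 2, 5] c

/-- number of `3`'s of a word -/
def kap : List (Fin 4) → ℕ
  | [] => 0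
  | c :: g => kap1 c + kap g

/-- the constant of a word: the branch is `M ↦ (4^|g| M - FF g) / 3^(kap g)` -/
def FF : List (Fin 4) → ℤ
  | [] => 0
  | c :: g => 4 ^ g.length * F1 c + 3 ^ kap1 c * FF g

/-- average of `φ` over the `4^n` words of length `n` -/
noncomputable def Ew {E : Type} [AddCommGroup E] [Module ℝ E] : ℕ → (List (Fin 4) → E) → E
  | 0, φ => φ []
  | n + 1, φ => (1 / 4 : ℝ) • ∑ c : Fin 4, Ew n (fun g => φ (c :: g))

/-- `g` is valid at `M` -/
def valid (g : List (Fin 4)) (M : ℤ) : Prop := (3 : ℤ) ^ kap g ∣ 4 ^ g.length * M - FF g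

/-- the preimage of `M` along `g` -/
def Nz (g : List (Fin 4)) (M : ℤ) : ℤ := (4 ^ g.length * M - FF g) / 3 ^ kap g

open Classical in
/-- kernel of the word `g` seen modulo `3^m` -/
noncomputable def ker (m : ℕ) (g : List (Fin 4)) (z : ℤ) : ℝ :=
  if (3 : ℤ) ^ min m (kap g) ∣ 4 ^ g.length * z - FF g then 3 ^ min m (kap g) else 0

open Classical in
/-- full kernel of the word `g` -/
noncomputable def kerF (g : List (Fin 4)) (z : ℤ) : ℝ :=
  if (3 : ℤ) ^ kap g ∣ 4 ^ g.length * z - FF g then 3 ^ kap g else 0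

/-- average over the residues modulo `3^N` -/
noncomputable def avg (N : ℕ) (φ : ℤ → ℝ) : ℝ := (∑ z ∈ Finset.range (3 ^ N), φ (z : ℤ)) / 3 ^ N

/-- density `f_r` (level `r`) -/
noncomputable def fr (r : ℕ) (z : ℤ) : ℝ := Ew r (fun g => kerF g z)

/-- `f_r` averaged over the classes modulo `3^m` -/
noncomputable def frm (m r : ℕ) (z : ℤ) : ℝ := Ew r (fun g => ker m g z)

open Classical in
/-- density of the words of length `L` whose first `t` letters have `kap = κ` -/
noncomputable def Dd (t L κ : ℕ) (z : ℤ) : ℝ :=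
  Ew L (fun g => if kap (g.take t) = κ then kerF g z else 0)

open Classical in
/-- the same modulo `3^m` -/
noncomputable def Ddm (m t L κ : ℕ) (z : ℤ) : ℝ :=
  Ew L (fun g => if kap (g.take t) = κ then ker m g z else 0)

/-- `FF g / 4^|g|` -/
noncomputable def RR (g : List (Fin 4)) : ℝ := (FF g : ℝ) / 4 ^ g.length

open Classical in
/-- integers `N` with `a ≤ s N < b` (`s = 1` or `s = -1`) -/
noncomputable def W (s : ℤ) (a b : ℝ) : Finset ℤ :=
  (Finset.Icc (-⌈|b|⌉) ⌈|b|⌉).filter (fun N : ℤ => a ≤ ((s * N : ℤ) : ℝ) ∧ ((s * N : ℤ) : ℝ) < b)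

/-- `∑_{N ∈ W s a b} φ(N)/|N|` -/
noncomputable def mass (s : ℤ) (φ : ℤ → ℝ) (a b : ℝ) : ℝ := ∑ N ∈ W s a b, φ N / |(N : ℝ)|

open Classical in
/-- indicator of a set of integers -/
noncomputable def ind (S : Set ℤ) (N : ℤ) : ℝ := if N ∈ S then 1 else 0

/-- logarithm to base 3 -/
noncomputable def lg (a : ℝ) : ℝ := Real.log a / Real.log 3

/-- `r` is of the order of `u^(1/4)` -/
def Adm (u : ℝ) (r : ℕ) : Prop := u ≤ 16 * (r : ℝ) ^ 4 ∧ (r : ℝ) ^ 4 ≤ 16 * u

/-! ### The abstract exponential sum walk -/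

/-- the fractional parts `θ m i = ξ 4^(-i-1) / 3^m` in abstract form -/
structure Th where
  M0 : ℕ
  θ : ℕ → ℕ → UnitAddCircle
  h3 : ∀ m i : ℕ, (3 : ℕ) • θ (m + 1) i = θ m i
  h4 : ∀ m i : ℕ, m ≤ M0 → (4 : ℕ) • θ m (i + 1) = θ m i
  hlow : ∀ m i : ℕ, 1 ≤ m → m ≤ M0 → (1 / 3 : ℝ) ^ m ≤ ‖θ m i‖

/-- a point is white if `m = 0` or `‖θ m i‖ > 1/10` -/
def white (h : Th) (m i : ℕ) : Prop := m = 0 ∨ (1 / 10 : ℝ) < ‖h.θ m i‖

/-- the loss factor -/
noncomputable def qq : ℝ := Real.cos (Real.pi / 10)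

/-- the factor per attempt -/
noncomputable def gam : ℝ := 1 - (1 - qq) / 4

open Classical in
/-- expectation of `qq^(number of hits in τ steps)`; a hit is a step `m → m-1` from a white point;
steps: `m → m, m-1, m-2` with probabilities `1/4, 1/2, 1/4` (truncated subtraction). -/
noncomputable def V (h : Th) : ℕ → ℕ → ℕ → ℝ
  | 0, _, _ => 1
  | τ + 1, m, i => (1 / 4) * V h τ m (i + 1)
      + (1 / 2) * (if white h m i then qq else 1) * V h τ (m - 1) (i + 1)
      + (1 / 4) * V h τ (m - 2) (i + 1)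

open Classical in
/-- the same with the walk stopped at `m = 0` -/
noncomputable def X (h : Th) : ℕ → ℕ → ℕ → ℝ
  | 0, _, _ => 1
  | _ + 1, 0, _ => 1
  | τ + 1, m + 1, i => (1 / 4) * X h τ (m + 1) (i + 1)
      + (1 / 2) * (if (1 / 10 : ℝ) < ‖h.θ (m + 1) i‖ then qq else 1) * X h τ m (i + 1)
      + (1 / 4) * X h τ (m - 1) (i + 1)

/-- free evolution for `τ` steps -/
noncomputable def Qop (τ : ℕ) (f : ℕ → ℕ → ℝ) (m i : ℕ) : ℝ :=
  ∑ k ∈ Finset.range (2 * τ + 1), P (2 * τ) k * f (m - k) (i + τ)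

/-- waiting time until the column `m` is white -/
noncomputable def dl (h : Th) (m i : ℕ) : ℕ := sInf {j : ℕ | white h m (i + j)}

/-- `e(x) = exp(2 π i x)` -/
noncomputable def ee (x : ℝ) : ℂ := Complex.exp (2 * Real.pi * Complex.I * x)

end Pool.Agent.Clz
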