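import Pool.Agent.Lib.MP_5a39b1_nt.Clz.Defs

/-!
MP_5a39b1_nt, library of (proved) basic lemmas on words and on the average `Ew`.
-/

set_option autoImplicit false

namespace Pool.Agent.Clz

open Finset

/-! ### letters and words -/

@[simp] theorem kap_nil : kap [] = 0 := rfl
@[simp] theorem kap_cons (c : Fin 4) (g : List (Fin 4)) : kap (c :: g) = kap1 c + kap g := rfl
@[simp] theorem FF_nil : FF [] = 0 := rfl
@[simp] theorem FF_cons (c : Fin 4) (g : List (Fin 4)) :
    FF (c :: g) = 4 ^ g.length * F1 c + 3 ^ kap1 c * FF g := rfl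

theorem kap_append (g g' : List (Fin 4)) : kap (g ++ g') = kap g + kap g' := by
  induction g with
  | nil => simp
  | cons c g ih => simp [ih, add_assoc]

theorem FF_append (g g' : List (Fin 4)) :
    FF (g ++ g') = 4 ^ g'.length * FF g + 3 ^ kap g * FF g' := by
  induction g with
  | nil => simp
  | cons c g ih => simp [ih, pow_add]; ring

theorem kap1_le (c : Fin 4) : kap1 c ≤ 2 := by fin_cases c <;> simp [kap1]

theorem F1_nonneg (c : Fin 4) : 0 ≤ F1 c := by fin_cases c <;> simp [F1]

theorem kap_le (g : List (Fin 4)) : kap g ≤ 2 * g.length := by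
  induction g with
  | nil => simp
  | cons c g ih => have := kap1_le c; simp only [kap_cons, List.length_cons]; omega

theorem FF_nonneg (g : List (Fin 4)) : 0 ≤ FF g := by
  induction g with
  | nil => simp
  | cons c g ih => have := F1_nonneg c; simp only [FF_cons]; positivity

theorem kap_take_le (t : ℕ) (g : List (Fin 4)) : kap (g.take t) ≤ kap g := by
  conv_rhs => rw [← List.take_append_drop t g, kap_append]
  omega

theorem kap_eq_sum (g : List (Fin 4)) : kap g = (g.map kap1).sum := by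
  induction g with
  | nil => simp
  | cons c g ih => simp [ih]

/-- words with the same `kap1`-sequence have the same `kap` and the same `kap` of initial pieces -/
theorem kap_congr {g g' : List (Fin 4)} (h : g.map kap1 = g'.map kap1) (t : ℕ) :
    kap (g.take t) = kap (g'.take t) := by
  rw [kap_eq_sum, kap_eq_sum, List.map_take, List.map_take, h]

/-! ### the average `Ew` -/

section Ew

variable {E : Type} [AddCommGroup E] [Module ℝ E]

@[simp] theorem Ew_zero (φ : List (Fin 4) → E) : Ew 0 φ = φ [] := rfl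

theorem Ew_succ (n : ℕ) (φ : List (Fin 4) → E) :
    Ew (n + 1) φ = (1 / 4 : ℝ) • ∑ c : Fin 4, Ew n (fun g => φ (c :: g)) := rfl

theorem Ew_congr {n : ℕ} {φ ψ : List (Fin 4) → E} (h : ∀ g, g.length = n → φ g = ψ g) :
    Ew n φ = Ew n ψ := by
  induction n generalizing φ ψ with
  | zero => exact h [] rfl
  | succ n ih =>
    rw [Ew_succ, Ew_succ]
    congr 1
    refine Finset.sum_congr rfl fun c _ => ih fun g hg => h _ (by simp [hg])

theorem Ew_add (n : ℕ) (φ ψ : List (Fin 4) → E) :
    Ew n (fun g => φ g + ψ g) = Ew n φ + Ew n ψ := by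
  induction n generalizing φ ψ with
  | zero => simp
  | succ n ih => simp only [Ew_succ, ih, Finset.sum_add_distrib, smul_add]

theorem Ew_neg (n : ℕ) (φ : List (Fin 4) → E) :
    Ew n (fun g => - φ g) = - Ew n φ := by
  induction n generalizing φ with
  | zero => simp
  | succ n ih => simp only [Ew_succ, ih, Finset.sum_neg_distrib, smul_neg]

theorem Ew_sub (n : ℕ) (φ ψ : List (Fin 4) → E) :
    Ew n (fun g => φ g - ψ g) = Ew n φ - Ew n ψ := by
  simp only [sub_eq_add_neg, Ew_add, Ew_neg]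

theorem Ew_zero' (n : ℕ) : Ew n (fun _ => (0 : E)) = 0 := by
  induction n with
  | zero => simp
  | succ n ih => simp [Ew_succ, ih]

theorem Ew_smul (n : ℕ) (c : ℝ) (φ : List (Fin 4) → E) :
    Ew n (fun g => c • φ g) = c • Ew n φ := by
  induction n generalizing φ with
  | zero => simp
  | succ n ih => simp only [Ew_succ, ih, ← Finset.smul_sum, smul_comm c]

theorem Ew_finset_sum {ι : Type} (n : ℕ) (s : Finset ι) (φ : ι → List (Fin 4) → E) :
    Ew n (fun g => ∑ i ∈ s, φ i g) = ∑ i ∈ s, Ew n (φ i) := by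
  classical
  induction s using Finset.induction_on with
  | empty => simp [Ew_zero']
  | insert a s ha ih => simp only [Finset.sum_insert ha, Ew_add, ih]

theorem Ew_const (n : ℕ) (c : E) : Ew n (fun _ => c) = c := by
  induction n with
  | zero => simp
  | succ n ih =>
    simp only [Ew_succ, ih, Finset.sum_const, Finset.card_univ, Fintype.card_fin]
    rw [← Nat.cast_smul_eq_nsmul ℝ, smul_smul]
    norm_num

theorem Ew_append (s t : ℕ) (φ : List (Fin 4) → E) :
    Ew (s + t) φ = Ew s (fun g => Ew t (fun g' => φ (g ++ g'))) := by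
  induction s generalizing φ with
  | zero => simp
  | succ s ih =>
    rw [show s + 1 + t = (s + t) + 1 by omega, Ew_succ, Ew_succ]
    simp only [ih, List.cons_append]

end Ew

theorem Ew_mul (n : ℕ) (c : ℝ) (φ : List (Fin 4) → ℝ) :
    Ew n (fun g => c * φ g) = c * Ew n φ := Ew_smul n c φ

theorem Ew_mul_right (n : ℕ) (c : ℝ) (φ : List (Fin 4) → ℝ) :
    Ew n (fun g => φ g * c) = Ew n φ * c := by
  simp only [mul_comm _ c, Ew_mul]

theorem Ew_cmul (n : ℕ) (c : ℂ) (φ : List (Fin 4) → ℂ) :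
    Ew n (fun g => c * φ g) = c * Ew n φ := by
  induction n generalizing φ with
  | zero => simp
  | succ n ih => simp only [Ew_succ, ih, ← Finset.mul_sum, mul_smul_comm]

theorem Ew_ofReal (n : ℕ) (φ : List (Fin 4) → ℝ) :
    Ew n (fun g => ((φ g : ℝ) : ℂ)) = ((Ew n φ : ℝ) : ℂ) := by
  induction n generalizing φ with
  | zero => simp
  | succ n ih => simp only [Ew_succ, ih]; simp

theorem Ew_mono {n : ℕ} {φ ψ : List (Fin 4) → ℝ} (h : ∀ g, g.length = n → φ g ≤ ψ g) :
    Ew n φ ≤ Ew n ψ := by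
  induction n generalizing φ ψ with
  | zero => exact h [] rfl
  | succ n ih =>
    rw [Ew_succ, Ew_succ]
    simp only [smul_eq_mul]
    gcongr with c _
    exact ih fun g hg => h _ (by simp [hg])

theorem Ew_nonneg {n : ℕ} {φ : List (Fin 4) → ℝ} (h : ∀ g, g.length = n → 0 ≤ φ g) :
    0 ≤ Ew n φ := by
  have := Ew_mono (n := n) (φ := fun _ => 0) (ψ := φ) h
  rwa [Ew_zero'] at this

theorem Ew_le_const {n : ℕ} {φ : List (Fin 4) → ℝ} {M : ℝ} (h : ∀ g, g.length = n → φ g ≤ M) :
    Ew n φ ≤ M := by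
  have := Ew_mono (n := n) (φ := φ) (ψ := fun _ => M) h
  rwa [Ew_const] at this

theorem norm_Ew_le (n : ℕ) (φ : List (Fin 4) → ℂ) : ‖Ew n φ‖ ≤ Ew n (fun g => ‖φ g‖) := by
  induction n generalizing φ with
  | zero => simp
  | succ n ih =>
    rw [Ew_succ, Ew_succ, norm_smul]
    have h4 : ‖(1 / 4 : ℝ)‖ = 1 / 4 := by norm_num
    rw [h4, smul_eq_mul]
    refine mul_le_mul_of_nonneg_left ?_ (by norm_num)
    exact (norm_sum_le _ _).trans (Finset.sum_le_sum fun c _ => ih _)

theorem abs_Ew_le (n : ℕ) (φ : List (Fin 4) → ℝ) : |Ew n φ| ≤ Ew n (fun g => |φ g|) := by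
  rw [abs_le]
  constructor
  · rw [← Ew_neg]; exact Ew_mono fun g _ => neg_abs_le _
  · exact Ew_mono fun g _ => le_abs_self _

/-! ### Averages over residues -/

theorem avg_add (N : ℕ) (φ ψ : ℤ → ℝ) : avg N (fun z => φ z + ψ z) = avg N φ + avg N ψ := by
  simp [avg, Finset.sum_add_distrib, add_div]

theorem avg_mul (N : ℕ) (c : ℝ) (φ : ℤ → ℝ) : avg N (fun z => c * φ z) = c * avg N φ := by
  simp [avg, ← Finset.mul_sum, mul_div_assoc]

theorem avg_const (N : ℕ) (c : ℝ) : avg N (fun _ => c) = c := by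
  simp [avg]

theorem avg_mono {N : ℕ} {φ ψ : ℤ → ℝ} (h : ∀ z, φ z ≤ ψ z) : avg N φ ≤ avg N ψ := by
  unfold avg
  gcongr with z _
  exact h _

theorem avg_nonneg {N : ℕ} {φ : ℤ → ℝ} (h : ∀ z, 0 ≤ φ z) : 0 ≤ avg N φ := by
  unfold avg
  exact div_nonneg (Finset.sum_nonneg fun z _ => h _) (by positivity)

theorem avg_finset_sum {ι : Type} (N : ℕ) (s : Finset ι) (φ : ι → ℤ → ℝ) :
    avg N (fun z => ∑ i ∈ s, φ i z) = ∑ i ∈ s, avg N (φ i) := by
  unfold avg
  rw [Finset.sum_comm, Finset.sum_div]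

theorem avg_Ew (N n : ℕ) (φ : List (Fin 4) → ℤ → ℝ) :
    avg N (fun z => Ew n (fun g => φ g z)) = Ew n (fun g => avg N (φ g)) := by
  unfold avg
  rw [← Ew_finset_sum, div_eq_mul_inv, ← Ew_mul_right]
  simp [div_eq_mul_inv]

/-! ### Periodicity -/

theorem sum_range_periodic (φ : ℤ → ℝ) (q : ℕ) (hφ : ∀ z, φ (z + q) = φ z) (j : ℕ) :
    ∑ z ∈ Finset.range (j * q), φ (z : ℤ) = j * ∑ z ∈ Finset.range q, φ (z : ℤ) := by
  induction j with
  | zero => simp
  | succ j ih =>
    rw [Nat.succ_mul, Finset.sum_range_add, ih]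
    have : ∀ z : ℕ, φ ((j * q + z : ℕ) : ℤ) = φ z := by
      intro z
      have : ∀ i : ℕ, φ ((z : ℤ) + i * q) = φ z := by
        intro i
        induction i with
        | zero => simp
        | succ i ih =>
          rw [← ih, ← hφ ((z : ℤ) + i * q)]
          congr 1
          push_cast; ring
      rw [← this j]
      congr 1
      push_cast; ring
    simp only [this]
    push_cast; ring

/-- the average over residues modulo `3^N'` of a function with period `3^N`, `N ≤ N'` -/
theorem avg_of_periodic {N N' : ℕ} (h : N ≤ N') (φ : ℤ → ℝ) (hφ : ∀ z, φ (z + 3 ^ N) = φ z) :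
    avg N' φ = avg N φ := by
  obtain ⟨d, rfl⟩ := Nat.exists_eq_add_of_le h
  unfold avg
  have := sum_range_periodic φ (3 ^ N) (by push_cast; exact hφ) (3 ^ d)
  rw [pow_add, mul_comm (3 ^ N) (3 ^ d), this]
  push_cast
  rw [pow_add]
  field_simp

theorem ker_periodic (m : ℕ) (g : List (Fin 4)) (N : ℕ) (h : min m (kap g) ≤ N) (z : ℤ) :
    ker m g (z + 3 ^ N) = ker m g z := by
  unfold ker
  have : (3 : ℤ) ^ min m (kap g) ∣ 4 ^ g.length * (z + 3 ^ N) - FF g ↔
      (3 : ℤ) ^ min m (kap g) ∣ 4 ^ g.length * z - FF g := by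
    have e : 4 ^ g.length * (z + 3 ^ N) - FF g = (4 ^ g.length * z - FF g) + 4 ^ g.length * 3 ^ N := by
      ring
    rw [e]
    exact dvd_add_left (Dvd.dvd.mul_left (pow_dvd_pow 3 h) _)
  simp only [this]

theorem kerF_eq_ker (g : List (Fin 4)) (m : ℕ) (h : kap g ≤ m) : kerF g = ker m g := by
  funext z
  unfold kerF ker
  rw [min_eq_right h]

theorem ker_nonneg (m : ℕ) (g : List (Fin 4)) (z : ℤ) : 0 ≤ ker m g z := by
  unfold ker; split_ifs <;> positivity

theorem kerF_nonneg (g : List (Fin 4)) (z : ℤ) : 0 ≤ kerF g z := by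
  unfold kerF; split_ifs <;> positivity

theorem kerF_periodic (g : List (Fin 4)) (N : ℕ) (h : kap g ≤ N) (z : ℤ) :
    kerF g (z + 3 ^ N) = kerF g z := by
  rw [kerF_eq_ker g (kap g) le_rfl]
  exact ker_periodic _ _ _ (by simpa using h) z

theorem fr_periodic (r N : ℕ) (h : 2 * r ≤ N) (z : ℤ) : fr r (z + 3 ^ N) = fr r z := by
  unfold fr
  refine Ew_congr fun g hg => kerF_periodic g N ?_ z
  have := kap_le g
  omega

theorem fr_nonneg (r : ℕ) (z : ℤ) : 0 ≤ fr r z := Ew_nonneg fun g _ => kerF_nonneg g z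

theorem Dd_periodic (t L κ N : ℕ) (h : 2 * L ≤ N) (z : ℤ) : Dd t L κ (z + 3 ^ N) = Dd t L κ z := by
  unfold Dd
  refine Ew_congr fun g hg => ?_
  have := kap_le g
  rw [kerF_periodic g N (by omega) z]

theorem Dd_nonneg (t L κ : ℕ) (z : ℤ) : 0 ≤ Dd t L κ z :=
  Ew_nonneg fun g _ => by split_ifs; exacts [kerF_nonneg g z, le_rfl]

/-! ### Words as a finset -/

/-- the words of length `n` -/
noncomputable def words : ℕ → Finset (List (Fin 4))
  | 0 => {[]}
  | n + 1 => ((Finset.univ : Finset (Fin 4)) ×ˢ words n).map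
      ⟨fun p => p.1 :: p.2, fun p q h => by
        simp only [List.cons.injEq] at h
        exact Prod.ext h.1 h.2⟩

theorem mem_words (n : ℕ) (g : List (Fin 4)) : g ∈ words n ↔ g.length = n := by
  induction n generalizing g with
  | zero => simp [words]
  | succ n ih =>
    cases g with
    | nil => simp [words]
    | cons c g => simp [words, ih]

theorem Ew_eq_sum {E : Type} [AddCommGroup E] [Module ℝ E] (n : ℕ) (φ : List (Fin 4) → E) :
    Ew n φ = (1 / 4 ^ n : ℝ) • ∑ g ∈ words n, φ g := by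
  induction n generalizing φ with
  | zero => simp [words]
  | succ n ih =>
    rw [Ew_succ]
    simp only [ih, words, Finset.sum_map, Finset.sum_product, Function.Embedding.coeFn_mk,
      ← Finset.smul_sum, smul_smul]
    congr 1
    rw [pow_succ]
    field_simp

theorem card_words (n : ℕ) : (words n).card = 4 ^ n := by
  induction n with
  | zero => simp [words]
  | succ n ih => simp [words, ih, pow_succ, mul_comm]

end Pool.Agent.Clz
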