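import Pool.Agent.Lib.MP_5a39b1_nt.Clz.Spec2

/-!
MP_5a39b1_nt, module KerAvg: averages of kernels over residues. See the docstring of `StmtKerAvg` in `Spec2.lean` for the proof.
-/

set_option autoImplicit false

namespace Pool.Agent.Clz.KerAvgaux

open Finset

theorem per_mod (φ : ℤ → ℝ) (c : ℤ) (h : ∀ z, φ (z + c) = φ z) (x : ℤ) : φ (x % c) = φ x := by
  have hp : Function.Periodic φ c := h
  have h2 := hp.int_mul (x / c) (x % c)
  rw [← h2]
  congr 1
  have := Int.emod_add_mul_ediv x c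
  push_cast
  linarith [mul_comm c (x / c)]

/-- the key bijection -/
theorem sum_bij' (j N : ℕ) (a F : ℤ) (ha : IsCoprime a 3) (φ : ℤ → ℝ)
    (hφ : ∀ z, φ (z + 3 ^ N) = φ z) :
    ∑ z ∈ (range (3 ^ (j + N))).filter (fun z : ℕ => (3 : ℤ) ^ j ∣ a * z - F),
        φ ((a * z - F) / 3 ^ j) = ∑ y ∈ range (3 ^ N), φ (y : ℤ) := by
  obtain ⟨b, v, hbv⟩ : IsCoprime a ((3 : ℤ) ^ (j + N)) := ha.pow_right
  have h3j : (0 : ℤ) < 3 ^ j := by positivity
  have h3N : (0 : ℤ) < 3 ^ N := by positivity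
  have h3 : (0 : ℤ) < 3 ^ (j + N) := by positivity
  have hpow : (3 : ℤ) ^ (j + N) = 3 ^ j * 3 ^ N := pow_add _ _ _
  refine Finset.sum_nbij' (fun z : ℕ => (((a * z - F) / 3 ^ j) % 3 ^ N).toNat)
    (fun y : ℕ => ((b * (3 ^ j * y + F)) % 3 ^ (j + N)).toNat) ?_ ?_ ?_ ?_ ?_
  · intro z _
    have h1 := Int.emod_nonneg ((a * z - F) / 3 ^ j) h3N.ne'
    have h2 := Int.emod_lt_of_pos ((a * z - F) / 3 ^ j) h3N
    rw [Finset.mem_range]
    zify
    rw [Int.toNat_of_nonneg h1]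
    exact h2
  · intro y _
    have h1 := Int.emod_nonneg (b * (3 ^ j * y + F)) h3.ne'
    have h2 := Int.emod_lt_of_pos (b * (3 ^ j * y + F)) h3
    rw [Finset.mem_filter, Finset.mem_range]
    constructor
    · zify
      rw [Int.toNat_of_nonneg h1]
      exact h2
    · rw [Int.toNat_of_nonneg h1]
      have h4 := Int.emod_add_mul_ediv (b * (3 ^ j * y + F)) (3 ^ (j + N))
      set t := (b * (3 ^ j * (y : ℤ) + F)) / 3 ^ (j + N)
      set r := (b * (3 ^ j * (y : ℤ) + F)) % 3 ^ (j + N)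
      refine ⟨y - 3 ^ N * (v * (3 ^ j * y + F)) - 3 ^ N * (a * t), ?_⟩
      have h5 : r = b * (3 ^ j * y + F) - 3 ^ (j + N) * t := by linarith
      rw [h5, hpow]
      rw [hpow] at hbv
      linear_combination (3 ^ j * (y : ℤ) + F) * hbv
  · intro z hz
    rw [Finset.mem_filter, Finset.mem_range] at hz
    obtain ⟨hz1, y0, hy0⟩ := hz
    have hq : (a * (z : ℤ) - F) / 3 ^ j = y0 := by
      rw [hy0, Int.mul_ediv_cancel_left _ h3j.ne']
    have h1 := Int.emod_nonneg y0 h3N.ne'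
    have h4 := Int.emod_add_mul_ediv y0 (3 ^ N)
    rw [hq, Int.toNat_of_nonneg h1]
    have h5 : y0 % 3 ^ N = y0 - 3 ^ N * (y0 / 3 ^ N) := by linarith
    have h6 : b * (3 ^ j * (y0 % 3 ^ N) + F) =
        z + 3 ^ (j + N) * (- (v * z) - b * (y0 / 3 ^ N)) := by
      rw [h5, hpow]
      rw [hpow] at hbv
      linear_combination (z : ℤ) * hbv - b * hy0
    rw [h6, Int.add_mul_emod_self_left, Int.emod_eq_of_lt (by positivity) (by exact_mod_cast hz1)]
    simp
  · intro y hy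
    rw [Finset.mem_range] at hy
    have h1 := Int.emod_nonneg (b * (3 ^ j * y + F)) h3.ne'
    rw [Int.toNat_of_nonneg h1]
    have h4 := Int.emod_add_mul_ediv (b * (3 ^ j * (y : ℤ) + F)) (3 ^ (j + N))
    set t := (b * (3 ^ j * (y : ℤ) + F)) / 3 ^ (j + N)
    set r := (b * (3 ^ j * (y : ℤ) + F)) % 3 ^ (j + N)
    have h5 : r = b * (3 ^ j * y + F) - 3 ^ (j + N) * t := by linarith
    have h6 : a * r - F = 3 ^ j * (y + 3 ^ N * (- (v * (3 ^ j * y + F)) - a * t)) := by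
      rw [h5, hpow]
      rw [hpow] at hbv
      linear_combination (3 ^ j * (y : ℤ) + F) * hbv
    rw [h6, Int.mul_ediv_cancel_left _ h3j.ne', Int.add_mul_emod_self_left,
      Int.emod_eq_of_lt (by positivity) (by exact_mod_cast hy)]
    simp
  · intro z _
    have h1 := Int.emod_nonneg ((a * z - F) / 3 ^ j) h3N.ne'
    rw [Int.toNat_of_nonneg h1, per_mod φ (3 ^ N) hφ]

open Classical in
theorem avg_key (j N : ℕ) (a F : ℤ) (ha : IsCoprime a 3) (φ : ℤ → ℝ)
    (hφ : ∀ z, φ (z + 3 ^ N) = φ z) :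
    avg (j + N) (fun z => if (3 : ℤ) ^ j ∣ a * z - F then 3 ^ j * φ ((a * z - F) / 3 ^ j) else 0)
      = avg N φ := by
  unfold avg
  rw [← Finset.sum_filter, ← Finset.mul_sum]
  have h := sum_bij' j N a F ha φ hφ
  have h' : ∑ z ∈ (range (3 ^ (j + N))).filter (fun z : ℕ => (3 : ℤ) ^ j ∣ a * z - F),
        φ ((a * z - F) / 3 ^ j) = ∑ y ∈ range (3 ^ N), φ (y : ℤ) := by
    rw [← h]
  rw [show (∑ z ∈ (range (3 ^ (j + N))).filter (fun z : ℕ => (3 : ℤ) ^ j ∣ a * z - F),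
        φ ((a * z - F) / 3 ^ j)) = ∑ y ∈ range (3 ^ N), φ (y : ℤ) from by
      convert h']
  rw [pow_add]
  have e1 : (3 : ℝ) ^ j ≠ 0 := by positivity
  have e2 : (3 : ℝ) ^ N ≠ 0 := by positivity
  field_simp

theorem cop (L : ℕ) : IsCoprime ((4 : ℤ) ^ L) 3 := by
  apply IsCoprime.pow_left
  exact ⟨1, -1, by norm_num⟩

theorem avg_ker (m N : ℕ) (g : List (Fin 4)) (h : min m (kap g) ≤ N) : avg N (ker m g) = 1 := by
  classical
  rw [avg_of_periodic h (ker m g) (fun z => ker_periodic m g _ le_rfl z)]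
  have h1 := avg_key (min m (kap g)) 0 (4 ^ g.length) (FF g) (cop g.length) (fun _ => 1)
    (fun _ => rfl)
  rw [avg_const, add_zero] at h1
  rw [← h1]
  congr 1
  funext z
  unfold ker
  by_cases hz : (3 : ℤ) ^ min m (kap g) ∣ 4 ^ g.length * z - FF g
  · rw [if_pos hz, if_pos hz, mul_one]
  · rw [if_neg hz, if_neg hz]

theorem avg_fr (N r : ℕ) (h : 2 * r ≤ N) : avg N (fr r) = 1 := by
  have h1 : avg N (fr r) = Ew r (fun g => avg N (kerF g)) := by
    have := avg_Ew N r (fun g => kerF g)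
    exact this
  rw [h1, ← Ew_const r (1 : ℝ)]
  apply Ew_congr
  intro g hg
  have hk := kap_le g
  rw [kerF_eq_ker g (kap g) le_rfl]
  apply avg_ker
  rw [min_self]
  omega

theorem avg_kerF (g : List (Fin 4)) (N N' : ℕ) (φ : ℤ → ℝ) (hφ : ∀ z, φ (z + 3 ^ N) = φ z)
    (h : kap g + N ≤ N') : avg N' (fun z => kerF g z * φ (Nz g z)) = avg N φ := by
  classical
  have hper : ∀ z, (fun z => kerF g z * φ (Nz g z)) (z + 3 ^ (kap g + N)) =
      (fun z => kerF g z * φ (Nz g z)) z := by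
    intro z
    simp only
    rw [kerF_periodic g (kap g + N) (by omega) z]
    congr 1
    unfold Nz
    have e : 4 ^ g.length * (z + 3 ^ (kap g + N)) - FF g =
        (4 ^ g.length * z - FF g) + (4 ^ g.length * 3 ^ N) * 3 ^ kap g := by
      rw [pow_add]; ring
    rw [e, Int.add_mul_ediv_right _ _ (by positivity)]
    have hp : Function.Periodic φ ((3 : ℤ) ^ N) := hφ
    have := hp.int_mul (4 ^ g.length) ((4 ^ g.length * z - FF g) / 3 ^ kap g)
    rw [← this]
    congr 1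
  rw [avg_of_periodic h _ hper, ← avg_key (kap g) N (4 ^ g.length) (FF g) (cop g.length) φ hφ]
  congr 1
  funext z
  unfold kerF Nz
  by_cases hz : (3 : ℤ) ^ kap g ∣ 4 ^ g.length * z - FF g
  · rw [if_pos hz, if_pos hz]
  · rw [if_neg hz, if_neg hz, zero_mul]

end Pool.Agent.Clz.KerAvgaux

namespace Pool.Agent.Clz

open Finset

theorem stmtKerAvg : StmtKerAvg :=
  ⟨fun m N g h => KerAvgaux.avg_ker m N g h, fun N r h => KerAvgaux.avg_fr N r h,
    fun g N N' φ hφ h => KerAvgaux.avg_kerF g N N' φ hφ h⟩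

end Pool.Agent.Clz
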