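import Pool.Agent.Lib.MP_5a39b1_nt.Clz.Spec3

/-!
MP_5a39b1_nt, module PFa: asymptotic form of PFtwo (real analysis). See the docstring of `StmtPFa` in `Spec3.lean` for the proof.
-/

set_option autoImplicit false

namespace Pool.Agent.Clz

open Finset

namespace PFaaux

lemma q4_pow {u : ℝ} (hu : 0 ≤ u) : q4 u ^ 4 = u := by
  unfold q4
  have h1 : Real.sqrt (Real.sqrt u) ^ 2 = Real.sqrt u := Real.sq_sqrt (Real.sqrt_nonneg _)
  have h2 : Real.sqrt u ^ 2 = u := Real.sq_sqrt hu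
  calc Real.sqrt (Real.sqrt u) ^ 4 = (Real.sqrt (Real.sqrt u) ^ 2) ^ 2 := by ring
    _ = u := by rw [h1, h2]

lemma q4_nonneg (u : ℝ) : 0 ≤ q4 u := Real.sqrt_nonneg _

lemma q4_ge {u : ℝ} (hu : 1296 ≤ u) : 6 ≤ q4 u := by
  have h := q4_pow (u := u) (by linarith)
  have h0 : 0 ≤ q4 u := q4_nonneg u
  by_contra hlt
  push Not at hlt
  have : q4 u ^ 4 < 6 ^ 4 := pow_lt_pow_left₀ hlt h0 (by norm_num)
  norm_num at this
  linarith

lemma log3_ge : (1 : ℝ) ≤ Real.log 3 := by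
  rw [Real.le_log_iff_exp_le (by norm_num)]
  have := Real.exp_one_lt_d9
  linarith

lemma log4_le : Real.log 4 ≤ 24 / 19 * Real.log 3 := by
  have h : Real.log ((4 : ℝ) ^ 19) ≤ Real.log ((3 : ℝ) ^ 24) :=
    Real.log_le_log (by positivity) (by norm_num)
  rw [Real.log_pow, Real.log_pow] at h
  push_cast at h
  linarith

lemma adm_le {u : ℝ} {r : ℕ} (hu : 0 ≤ u) (h : Adm u r) : (r : ℝ) ≤ 2 * q4 u := by
  obtain ⟨-, h2⟩ := h
  by_contra hlt
  push Not at hlt
  have h3 : (2 * q4 u) ^ 4 < (r : ℝ) ^ 4 :=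
    pow_lt_pow_left₀ hlt (by have := q4_nonneg u; positivity) (by norm_num)
  have h4 : (2 * q4 u) ^ 4 = 16 * u := by rw [mul_pow, q4_pow hu]; norm_num
  linarith

lemma adm_ge {u : ℝ} {r : ℕ} (hu : 0 ≤ u) (h : Adm u r) : q4 u / 2 ≤ (r : ℝ) := by
  obtain ⟨h1, -⟩ := h
  by_contra hlt
  push Not at hlt
  have h3 : (r : ℝ) ^ 4 < (q4 u / 2) ^ 4 :=
    pow_lt_pow_left₀ hlt (by positivity) (by norm_num)
  have h4 : (q4 u / 2) ^ 4 = u / 16 := by rw [div_pow, q4_pow hu]; norm_num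
  linarith

lemma good_size {a : ℝ} {t r r' : ℕ} (ha : 0 < a) (hu : 1296 ≤ lg a) (ht : 10 * (t : ℝ) ≤ 7 * lg a)
    (hr : (r : ℝ) ≤ 2 * q4 (lg a)) (hr' : (r' : ℝ) ≤ 2 * q4 (lg a)) :
    16 * 4 ^ t * 81 ^ (r + r') ≤ a := by
  set q := q4 (lg a) with hq
  have hq6 : 6 ≤ q := q4_ge hu
  have hq4 : q ^ 4 = lg a := q4_pow (by linarith)
  have hl := log3_ge
  have hl4 := log4_le
  have hla : Real.log a = lg a * Real.log 3 := by
    unfold lg; field_simp
  rw [← Real.log_le_log_iff (by positivity) ha]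
  rw [Real.log_mul (by positivity) (by positivity), Real.log_mul (by norm_num) (by positivity),
    Real.log_pow, Real.log_pow, hla]
  have h16 : Real.log 16 ≤ 3 * Real.log 3 := by
    have : Real.log 16 ≤ Real.log ((3:ℝ) ^ 3) := Real.log_le_log (by norm_num) (by norm_num)
    rw [Real.log_pow] at this
    push_cast at this
    exact this
  have h81 : Real.log 81 = 4 * Real.log 3 := by
    have : Real.log 81 = Real.log ((3:ℝ) ^ 4) := by norm_num
    rw [this, Real.log_pow]; push_cast; ring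
  rw [h81]
  push_cast
  have h1 : (t : ℝ) * Real.log 4 ≤ (7 / 10 * lg a) * (24 / 19 * Real.log 3) := by
    apply mul_le_mul (by linarith) hl4 (Real.log_nonneg (by norm_num)) (by linarith)
  have h2 : ((r : ℝ) + r') * (4 * Real.log 3) ≤ (4 * q) * (4 * Real.log 3) := by
    apply mul_le_mul_of_nonneg_right (by linarith) (by linarith)
  have h3 : 3 + 16 * q ≤ (1 - 84 / 95) * lg a := by
    rw [← hq4]
    nlinarith [mul_nonneg (mul_nonneg (sub_nonneg.2 hq6) (sub_nonneg.2 hq6)) (by linarith : (0:ℝ) ≤ q),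
      mul_nonneg (sub_nonneg.2 hq6) (by linarith : (0:ℝ) ≤ q),
      sq_nonneg (q ^ 2 - 36), sq_nonneg q]
  nlinarith [mul_le_mul_of_nonneg_right h3 (by linarith : (0:ℝ) ≤ Real.log 3)]

lemma good_err {a : ℝ} {t r : ℕ} (ha : 0 < a) (hu : 1296 ≤ lg a) (ht : 10 * (t : ℝ) ≤ 7 * lg a)
    (hr : (r : ℝ) ≤ 2 * q4 (lg a)) :
    42 * 9 ^ r * Real.sqrt (Real.sqrt (4 ^ t / a)) ≤ 1 / q4 (lg a) := by
  set q := q4 (lg a) with hq
  have hq6 : 6 ≤ q := q4_ge hu
  have hq4 : q ^ 4 = lg a := q4_pow (by linarith)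
  have hl := log3_ge
  have hl4 := log4_le
  have hla : Real.log a = lg a * Real.log 3 := by
    unfold lg; field_simp
  have hX : (0 : ℝ) < 4 ^ t / a := by positivity
  have hS1 : 0 < Real.sqrt (4 ^ t / a) := Real.sqrt_pos.2 hX
  have hS : 0 < Real.sqrt (Real.sqrt (4 ^ t / a)) := Real.sqrt_pos.2 hS1
  rw [← Real.log_le_log_iff (by positivity) (by positivity)]
  rw [Real.log_mul (by positivity) (by positivity), Real.log_mul (by norm_num) (by positivity),
    Real.log_pow, Real.log_sqrt hS1.le, Real.log_sqrt hX.le, Real.log_div (by positivity) (by positivity),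
    Real.log_pow, hla, one_div, Real.log_inv]
  have h42 : Real.log 42 ≤ 4 * Real.log 3 := by
    have : Real.log 42 ≤ Real.log ((3:ℝ) ^ 4) := Real.log_le_log (by norm_num) (by norm_num)
    rw [Real.log_pow] at this
    push_cast at this
    exact this
  have h9 : Real.log 9 = 2 * Real.log 3 := by
    have : Real.log 9 = Real.log ((3:ℝ) ^ 2) := by norm_num
    rw [this, Real.log_pow]; push_cast; ring
  have hlq : Real.log q ≤ q := by
    have := Real.log_le_sub_one_of_pos (by linarith : 0 < q)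
    linarith
  have hlq' : q ≤ q * Real.log 3 := by nlinarith
  rw [h9]
  have h1 : (t : ℝ) * Real.log 4 ≤ (7 / 10 * lg a) * (24 / 19 * Real.log 3) := by
    apply mul_le_mul (by linarith) hl4 (Real.log_nonneg (by norm_num)) (by linarith)
  have h2 : (r : ℝ) * (2 * Real.log 3) ≤ (2 * q) * (2 * Real.log 3) := by
    apply mul_le_mul_of_nonneg_right (by linarith) (by linarith)
  have h3 : 4 + 5 * q ≤ (11 / 95) / 4 * lg a := by
    rw [← hq4]
    nlinarith [mul_nonneg (mul_nonneg (sub_nonneg.2 hq6) (sub_nonneg.2 hq6)) (by linarith : (0:ℝ) ≤ q),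
      mul_nonneg (sub_nonneg.2 hq6) (by linarith : (0:ℝ) ≤ q),
      sq_nonneg (q ^ 2 - 36), sq_nonneg q]
  nlinarith [mul_le_mul_of_nonneg_right h3 (by linarith : (0:ℝ) ≤ Real.log 3)]

lemma sum_err {u : ℝ} {t r : ℕ} (hu : 1296 ≤ u) (ht20 : u ≤ 20 * t) (ht : 10 * (t : ℝ) ≤ 7 * u)
    (hr : (r : ℝ) ≤ 2 * q4 u) (hr2 : q4 u / 2 ≤ (r : ℝ)) :
    (r : ℝ) / Real.sqrt t + 1 / r + (t : ℝ) / (r : ℝ) ^ 8 ≤ 192 / q4 u := by
  set q := q4 u with hq
  have hq6 : 6 ≤ q := q4_ge hu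
  have hq4 : q ^ 4 = u := q4_pow (by linarith)
  have hq0 : 0 < q := by linarith
  have hr0 : 0 < (r : ℝ) := by linarith
  have hsq : q ^ 2 / 5 ≤ Real.sqrt t := by
    apply Real.le_sqrt_of_sq_le
    have : (q ^ 2 / 5) ^ 2 = q ^ 4 / 25 := by ring
    rw [this, hq4]
    linarith
  have h1 : (r : ℝ) / Real.sqrt t ≤ 10 / q := by
    calc (r : ℝ) / Real.sqrt t ≤ (2 * q) / (q ^ 2 / 5) := by
          apply div_le_div₀ (by positivity) hr (by positivity) hsq
      _ = 10 / q := by field_simp; norm_num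
  have h2 : (1 : ℝ) / r ≤ 2 / q := by
    calc (1 : ℝ) / r ≤ 1 / (q / 2) := one_div_le_one_div_of_le (by positivity) hr2
      _ = 2 / q := by field_simp
  have h3 : (t : ℝ) / (r : ℝ) ^ 8 ≤ 180 / q := by
    have h8 : (q / 2) ^ 8 ≤ (r : ℝ) ^ 8 := pow_le_pow_left₀ (by positivity) hr2 8
    have ht' : (t : ℝ) ≤ 7 / 10 * q ^ 4 := by rw [hq4]; linarith
    have hq3 : 1 ≤ q ^ 3 := one_le_pow₀ (by linarith)
    calc (t : ℝ) / (r : ℝ) ^ 8 ≤ (7 / 10 * q ^ 4) / (q / 2) ^ 8 := by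
          apply div_le_div₀ (by positivity) ht' (by positivity) h8
      _ = (7 / 10 * 256) / (q * q ^ 3) := by field_simp; norm_num
      _ ≤ 180 / q := by
          rw [div_le_div_iff₀ (by positivity) (by positivity)]
          nlinarith
  calc (r : ℝ) / Real.sqrt t + 1 / r + (t : ℝ) / (r : ℝ) ^ 8 ≤ 10 / q + 2 / q + 180 / q := by
        linarith
    _ = 192 / q := by ring

end PFaaux

theorem stmtPFa (hPFtwo : StmtPFtwo) (hMLsum : StmtMLsum) : StmtPFa := by
  obtain ⟨C1, hC1, hML⟩ := hMLsum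
  refine ⟨576 * C1 + 1, 1296, by positivity, by norm_num, ?_⟩
  intro s t r r' a b ψ hs hψ ha hu hab hb hgood
  obtain ⟨hg1, hg2, hg3, hg4⟩ := hgood
  have hq6 : 6 ≤ q4 (lg a) := PFaaux.q4_ge hu
  have hq4 : q4 (lg a) ^ 4 = lg a := PFaaux.q4_pow (by linarith)
  have hr := PFaaux.adm_le (by linarith) hg3
  have hr2 := PFaaux.adm_ge (by linarith) hg3
  have hr' : (r' : ℝ) ≤ 2 * q4 (lg a) := by
    rcases hg4 with h | h
    · rw [h]; push_cast; linarith
    · exact PFaaux.adm_le (by linarith) h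
  have hA := PFaaux.good_size ha hu hg2 hr hr'
  have hB := PFaaux.good_err ha hu hg2 hr
  have hr1 : 1 ≤ r := by
    have : (0 : ℝ) < r := by linarith
    exact_mod_cast this
  have h2r : 2 * r ≤ t := by
    have : (2 : ℝ) * r ≤ t := by
      have h1 : (2 : ℝ) * r ≤ 4 * q4 (lg a) := by linarith
      have h2 : 4 * q4 (lg a) ≤ lg a / 20 := by
        have h216 : (216 : ℝ) ≤ q4 (lg a) ^ 3 := by
          have := pow_le_pow_left₀ (by norm_num : (0:ℝ) ≤ 6) hq6 3
          norm_num at this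
          exact this
        have h4 : q4 (lg a) * 216 ≤ lg a := by
          calc q4 (lg a) * 216 ≤ q4 (lg a) * q4 (lg a) ^ 3 :=
                mul_le_mul_of_nonneg_left h216 (by linarith)
            _ = q4 (lg a) ^ 4 := by ring
            _ = lg a := hq4
        linarith
      linarith
    exact_mod_cast this
  have hS := hML t (t + r') r (2 * (t + r + r')) hr1 h2r (by omega) (by omega)
  have hM := hPFtwo s t r r' (2 * (t + r + r')) a b ψ hs hψ ha hab hb hA le_rfl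
  have hE := PFaaux.sum_err hu hg1 hg2 hr hr2
  have hq0 : 0 < q4 (lg a) := by linarith
  refine hM.trans ?_
  have h1 : C1 * ((r : ℝ) / Real.sqrt t + 1 / r + (t : ℝ) / (r : ℝ) ^ 8) ≤ C1 * (192 / q4 (lg a)) :=
    mul_le_mul_of_nonneg_left hE hC1.le
  calc 3 * ∑ κ ∈ range (2 * t + 1), avg (2 * (t + r + r')) (fun z => |Dd t (t + r') κ z - P (2 * t) κ * fr r z|)
        + 42 * 9 ^ r * Real.sqrt (Real.sqrt (4 ^ t / a))
      ≤ 3 * (C1 * (192 / q4 (lg a))) + 1 / q4 (lg a) := by linarith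
    _ = (576 * C1 + 1) / q4 (lg a) := by ring

end Pool.Agent.Clz
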