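import Pool.Agent.Lib.MP_5a39b1_nt.Clz.SpecF

set_option autoImplicit false

namespace Pool.Agent.Clz

open Finset

namespace Propaux

theorem SS_mono {L : ℕ} {C C' : ℝ} (h : C ≤ C') (r : ℕ) (x : ℤ) :
    SS L C (fr r) x ≤ SS L C' (fr r) x := by
  classical
  unfold SS
  refine Ew_mono fun g _ => ?_
  have hnn : 0 ≤ kerF g x * fr r (Nz g x) := mul_nonneg (kerF_nonneg _ _) (fr_nonneg _ _)
  by_cases h1 : typ C g
  · have h2 : typ C' g := ⟨h1.1, h1.2.trans h⟩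
    simp [h1, h2]
  · simp only [h1, if_false]
    split_ifs
    · exact hnn
    · exact le_rfl

/-- the levels -/
def Lk (M : ℕ) : ℕ → ℕ
  | 0 => M
  | k + 1 => Lk M k + Lk M k / 100

theorem Lk_ge (M : ℕ) (hM : 100 ≤ M) (k : ℕ) : M + k ≤ Lk M k := by
  induction k with
  | zero => simp [Lk]
  | succ k ih =>
    have : 1 ≤ Lk M k / 100 := by omega
    simp only [Lk]
    omega

theorem sum_pow_le (M : ℕ) (hM : 100 ≤ M) (k : ℕ) :
    ∑ j ∈ range k, ((9 : ℝ) / 10) ^ Lk M j ≤ 10 * (9 / 10) ^ M - 10 * (9 / 10) ^ (M + k) := by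
  induction k with
  | zero => simp
  | succ k ih =>
    rw [Finset.sum_range_succ]
    have h1 : ((9 : ℝ) / 10) ^ Lk M k ≤ (9 / 10) ^ (M + k) :=
      pow_le_pow_of_le_one (by norm_num) (by norm_num) (Lk_ge M hM k)
    have h2 : ((9 : ℝ) / 10) ^ (M + (k + 1)) = (9 / 10) ^ (M + k) * (9 / 10) := by
      rw [← add_assoc, pow_succ]
    rw [h2]
    linarith

theorem sum_pow_le_one (M : ℕ) (hM : 100 ≤ M) (k : ℕ) :
    ∑ j ∈ range k, ((9 : ℝ) / 10) ^ Lk M j ≤ 1 := by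
  have h1 := sum_pow_le M hM k
  have h2 : (0 : ℝ) ≤ (9 / 10) ^ (M + k) := by positivity
  have h3 : ((9 : ℝ) / 10) ^ M ≤ (9 / 10) ^ 100 :=
    pow_le_pow_of_le_one (by norm_num) (by norm_num) hM
  have h4 : ((9 : ℝ) / 10) ^ 100 ≤ 1 / 10 := by norm_num
  linarith

theorem sum_inv_le (M : ℕ) (hM : 100 ≤ M) (k : ℕ) :
    ∑ j ∈ range k, 1 / ((Lk M j : ℕ) : ℝ) ^ 2 ≤ 1 / ((M : ℝ) - 1) - 1 / ((M : ℝ) + k - 1) := by
  have hMr : (100 : ℝ) ≤ M := by exact_mod_cast hM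
  induction k with
  | zero => simp
  | succ k ih =>
    rw [Finset.sum_range_succ]
    have h1 : ((M : ℝ) + k) ≤ Lk M k := by exact_mod_cast Lk_ge M hM k
    have hk : (0 : ℝ) ≤ k := Nat.cast_nonneg k
    have h2 : 1 / ((Lk M k : ℕ) : ℝ) ^ 2 ≤ 1 / ((M : ℝ) + k) ^ 2 :=
      one_div_le_one_div_of_le (by positivity) (pow_le_pow_left₀ (by positivity) h1 2)
    have h3 : 1 / ((M : ℝ) + k) ^ 2 ≤ 1 / ((M : ℝ) + k - 1) - 1 / ((M : ℝ) + (k + 1 : ℕ) - 1) := by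
      have ha : (0 : ℝ) < (M : ℝ) + k - 1 := by linarith
      have hb : (0 : ℝ) < (M : ℝ) + k := by linarith
      push_cast
      rw [show (M : ℝ) + (k + 1) - 1 = (M : ℝ) + k by ring, div_sub_div _ _ ha.ne' hb.ne',
        div_le_div_iff₀ (by positivity) (by positivity)]
      nlinarith
    linarith

theorem sum_inv_le' (M : ℕ) (hM : 100 ≤ M) (k : ℕ) :
    ∑ j ∈ range k, 1 / ((Lk M j : ℕ) : ℝ) ^ 2 ≤ 1 / 8 := by
  have h1 := sum_inv_le M hM k
  have hMr : (100 : ℝ) ≤ M := by exact_mod_cast hM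
  have hk : (0 : ℝ) ≤ k := Nat.cast_nonneg k
  have h2 : 0 ≤ 1 / ((M : ℝ) + k - 1) := one_div_nonneg.2 (by linarith)
  have h3 : 1 / ((M : ℝ) - 1) ≤ 1 / 8 := one_div_le_one_div_of_le (by norm_num) (by linarith)
  linarith

end Propaux

open Propaux in
/-- see the docstring of `StmtProp` in SpecF.lean for the paper proof -/
theorem stmtProp (h1 : StmtStep) (h2 : StmtStart) (h3 : StmtPer) : StmtProp := by
  obtain ⟨C₀, L₁, hC₀, hstart⟩ := h2
  obtain ⟨L₂, hstep⟩ := h1 (C₀ + 1) (by linarith)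
  set M : ℕ := max 100 (max L₁ L₂) with hM
  have hM100 : 100 ≤ M := le_max_left _ _
  have hML1 : L₁ ≤ M := (le_max_left _ _).trans (le_max_right _ _)
  have hML2 : L₂ ≤ M := (le_max_right _ _).trans (le_max_right _ _)
  obtain ⟨x₀, hx₀⟩ := hstart M hML1 (M / 100)
  have main : ∀ (k : ℕ) (x : ℤ), (3 : ℤ) ^ (2 * M + 2 * (M / 100)) ∣ x - x₀ →
      1 / 2 - ∑ j ∈ range k, 1 / ((Lk M j : ℕ) : ℝ) ^ 2 ≤
        SS (Lk M k) (C₀ + ∑ j ∈ range k, ((9 : ℝ) / 10) ^ Lk M j) (fr (Lk M k / 100)) x := by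
    intro k
    induction k with
    | zero =>
      intro x hx
      obtain ⟨j, hj⟩ := hx
      have hx' : x = x₀ + 3 ^ (2 * M + 2 * (M / 100)) * j := by linarith
      simp only [Finset.range_zero, Finset.sum_empty, sub_zero, add_zero, Lk]
      rw [hx', h3 M (M / 100) _ C₀ x₀ j le_rfl]
      exact hx₀
    | succ k ih =>
      intro x hx
      have hs := hstep (Lk M k) (hML2.trans ((Nat.le_add_right _ _).trans (Lk_ge M hM100 k)))
        (C₀ + ∑ j ∈ range k, ((9 : ℝ) / 10) ^ Lk M j)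
        (add_nonneg hC₀ (Finset.sum_nonneg fun _ _ => by positivity))
        (by linarith [sum_pow_le_one M hM100 k]) x
      have hi := ih x hx
      rw [Finset.sum_range_succ, Finset.sum_range_succ, ← add_assoc]
      simp only [Lk] at hs ⊢
      linarith
  refine ⟨C₀ + 1, x₀, 2 * M + 2 * (M / 100), Lk M, by linarith,
    fun k => hM100.trans ((Nat.le_add_right _ _).trans (Lk_ge M hM100 k)), fun k => rfl, ?_⟩
  intro k x hx
  have ha := main k x hx
  have hb := sum_inv_le' M hM100 k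
  have hc : SS (Lk M k) (C₀ + ∑ j ∈ range k, ((9 : ℝ) / 10) ^ Lk M j) (fr (Lk M k / 100)) x ≤
      SS (Lk M k) (C₀ + 1) (fr (Lk M k / 100)) x :=
    SS_mono (by linarith [sum_pow_le_one M hM100 k]) _ _
  linarith

end Pool.Agent.Clz
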