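import Pool.Agent.Lib.MP_5a39b1_nt.Clz.Defs

/-!
MP_5a39b1_nt, statements of the modules, part 1 (binomial weights, exponential sum walk, Fourier decay).
Every `Stmt...` is to be proved in a file of its own, `theorem stmtXxx (h₁ : StmtA) ... : StmtXxx`,
where the hypotheses are among those named under Uses.
-/

set_option autoImplicit false

namespace Pool.Agent.Clz

open Finset

/-! ## A. Binomial weights -/

/-- **BinBasic.** Elementary facts on `P n k = C(n,k)/2^n`, `k : ℤ`.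
(support, Pascal, total mass, symmetry, Vandermonde, second moment, generating function).
Proofs: induction on `n` from Pascal; the convolution formula by induction on `a`;
second moment by induction (or from `Finset` sums of `Nat.choose`); generating function = binomial theorem. -/
def StmtBinBasic : Prop :=
  (∀ (n : ℕ) (k : ℤ), 0 ≤ P n k) ∧
  (∀ (n : ℕ) (k : ℤ), (k < 0 ∨ (n : ℤ) < k) → P n k = 0) ∧
  (∀ k : ℤ, P 0 k = if k = 0 then 1 else 0) ∧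
  (∀ (n : ℕ) (k : ℤ), P (n + 1) k = (1 / 2) * P n k + (1 / 2) * P n (k - 1)) ∧
  (∀ n : ℕ, ∑ k ∈ range (n + 1), P n k = 1) ∧
  (∀ (n : ℕ) (k : ℤ), P n (n - k) = P n k) ∧
  (∀ (a b : ℕ) (k : ℤ), P (a + b) k = ∑ j ∈ range (a + 1), P a j * P b (k - j)) ∧
  (∀ n : ℕ, ∑ k ∈ range (n + 1), P n k * (2 * (k : ℝ) - n) ^ 2 = (n : ℝ)) ∧
  (∀ (n : ℕ) (z : ℝ), ∑ k ∈ range (n + 1), P n k * z ^ k = ((1 + z) / 2) ^ n)

/-- **BinDiff.** First and second differences of binomial weights.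
Uses: StmtBinBasic.
Proof. For every `k : ℤ`, `P n (k+1) - P n k = (n - 2k - 1) * P (n+1) (k+1) * 2 / (n+1)`, so the first sum is
at most `2/(n+1) * E|n+1-2K|`, `K` binomial with parameter `n+1`, and `E|.| ≤ √(E (.)^2) = √(n+1)`.
`P n (k+1) - 2 P n k + P n (k-1) = 4 P (n+2) (k+1) ((n-2k)^2 - (n+2)) / ((n+1)(n+2))`, so the second sum is at most
`4/((n+1)(n+2)) (E (n+2-2K)^2 + (n+2)) = 8/(n+1)`, `K` binomial with parameter `n+2`.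
Third: `P n (k+1) - P n k` is the sum of the second differences over `j ≤ k` (finite support).
Fourth: `P n k` is the sum of the first differences over `j < k`. -/
def StmtBinDiff : Prop :=
  (∀ (n : ℕ) (s : Finset ℤ), ∑ k ∈ s, |P n (k + 1) - P n k| ≤ 2 / Real.sqrt (n + 1)) ∧
  (∀ (n : ℕ) (s : Finset ℤ), ∑ k ∈ s, |P n (k + 1) - 2 * P n k + P n (k - 1)| ≤ 8 / (n + 1)) ∧
  (∀ (n : ℕ) (k : ℤ), |P n (k + 1) - P n k| ≤ 8 / (n + 1)) ∧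
  (∀ (n : ℕ) (k : ℤ), P n k ≤ 2 / Real.sqrt (n + 1))

/-- **BinShift.** Consequences of BinDiff.
Uses: StmtBinBasic, StmtBinDiff.
(1) telescoping over `|j|` unit shifts. (2) the same for the sup norm.
(3) `P (n+2) (k+1) - P n k = (1/4) (P n (k+1) - 2 P n k + P n (k-1))` by Pascal twice; telescoping over `τ` steps
gives `∑ ≤ τ * (1/4) * 8/(2t+1) `.
(4) `P (2t) t ≥ 1/(2√t)` by induction (`(C(2t,t)/4^t)^2 * t` is nondecreasing, value `1/4` at `t = 1`), then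
`P (2t) (t+x) ≥ P (2t) t - |x| * 8/(2t+1)` by (2).
(5) Chebyshev from the second moment. -/
def StmtBinShift : Prop :=
  (∀ (n : ℕ) (j : ℤ) (s : Finset ℤ), ∑ k ∈ s, |P n k - P n (k - j)| ≤ |(j : ℝ)| * (2 / Real.sqrt (n + 1))) ∧
  (∀ (n : ℕ) (j k : ℤ), |P n k - P n (k - j)| ≤ |(j : ℝ)| * (8 / (n + 1))) ∧
  (∀ (t τ : ℕ) (s : Finset ℤ), ∑ k ∈ s, |P (2 * t) k - P (2 * (t + τ)) (k + τ)| ≤ 2 * τ / (2 * t + 1)) ∧
  (∀ (t : ℕ) (x : ℤ), 1 ≤ t → 16 * |(x : ℝ)| ≤ Real.sqrt t → 1 / (4 * Real.sqrt t) ≤ P (2 * t) (t + x)) ∧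
  (∀ (n : ℕ) (x : ℝ), 0 < x →
    ∑ k ∈ (range (n + 1)).filter (fun k : ℕ => x ≤ |2 * (k : ℝ) - n|), P n k ≤ n / x ^ 2)

/-- **Sparse.** A set of integers whose distances are `< w` or `≥ G` has small binomial weight.
Uses: StmtBinBasic, StmtBinDiff.
Proof. Split `B` into its residue classes modulo `w`. In one class two distinct points are at distance `≥ w`,
hence `≥ G`. For such a class `B'`: for `k ∈ B'`, `P n k ≤ (1/G) ∑_{i<G} P n (k+i) + ∑_{i<G} |P n (k+i+1) - P n (k+i)|`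
and the intervals `[k, k+G)` are disjoint, so `∑_{k∈B'} P n k ≤ 1/G + 2/√(n+1)`. -/
def StmtSparse : Prop :=
  ∀ (n w G : ℕ) (B : Finset ℤ), 1 ≤ w → 1 ≤ G →
    (∀ k ∈ B, ∀ k' ∈ B, k < k' → k' - k < w ∨ (G : ℤ) ≤ k' - k) →
    ∑ k ∈ B, P n k ≤ w * (1 / (G : ℝ) + 2 / Real.sqrt (n + 1))

/-! ## B. The abstract walk -/

/-- **ThBasic.** Waiting times. Write `e = dl h m i`.
Uses: nothing.
Proof. `m = 0`: `e = 0`. `m ≥ 1`: if `(m,i), …, (m,i+j)` are all black then by `h4` and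
`‖4 • y‖ = 4‖y‖` for `‖y‖ ≤ 1/8` we get `‖θ m i‖ = 4^j ‖θ m (i+j)‖`, so with `hlow`
`3^{-m} ≤ ‖θ m (i+j)‖ = 4^{-j} ‖θ m i‖ ≤ 4^{-j}/10`, i.e. `4^j ≤ 3^m / 10`; hence a white point exists and
`e - 1 = j` satisfies `4^(e-1) ≤ 3^m`. -/
def StmtThBasic : Prop :=
  ∀ (h : Th) (m i : ℕ), m ≤ h.M0 →
    white h m (i + dl h m i) ∧
    (∀ j < dl h m i, ¬ white h m (i + j) ∧ ‖h.θ m (i + j)‖ ≤ 1 / 10 ∧ ‖h.θ m i‖ = 4 ^ j * ‖h.θ m (i + j)‖) ∧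
    4 ^ dl h m i ≤ 4 * 3 ^ m ∧ (1 ≤ dl h m i → 4 ^ dl h m i ≤ 3 ^ m)

/-- **ExitWhite.** The exit row is white. `e = dl h m i ≥ 1`, `3^k ≤ 4^e`; then `(m-k, i+e)` is white.
Uses: StmtThBasic.
Proof. If `m ≤ k` then `m - k = 0`. Else put `x = θ m (i+e-1)`, `y = θ m (i+e)`, `4•y = x`,
`‖x‖ = 4^{-(e-1)} ‖θ m i‖ ≤ 4^{-(e-1)}/10`. Let `x₀ ∈ ℝ`, `|x₀| = ‖x‖`, be a lift of `x` and `y₀ = y - ↑(x₀/4)`;
`4•y₀ = 0`. `y₀ ≠ 0` because otherwise `‖y‖ ≤ |x₀|/4 ≤ 1/40`, but `(m,i+e)` is white. `3^k • y₀ ≠ 0` (3 odd) and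
`4 • (3^k • y₀) = 0`, so `‖3^k • y₀‖ ≥ 1/4`. Hence `‖θ (m-k) (i+e)‖ = ‖3^k • y‖ ≥ 1/4 - 3^k |x₀| / 4 ≥ 1/4 - 3^k 4^{-e}/10 ≥ 0.15`. -/
def StmtExitWhite : Prop :=
  ∀ (h : Th) (m i k : ℕ), m ≤ h.M0 → 1 ≤ dl h m i → 3 ^ k ≤ 4 ^ dl h m i → white h (m - k) (i + dl h m i)

/-- **LemS.** Columns with long waiting times shortly after an exit are either close or far apart.
Uses: StmtThBasic, StmtExitWhite.
Proof. `e = dl h m i`, `g = k₂ - k₁`, row `R = i + e + σ - 1`; both columns `m-k₁`, `m-k₂` are `≥ 1` (otherwise the waiting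
time is `0 < σ`) and black in the row `R` (`h_j ≤ H ≤ σ-1 ≤ h_j + σ - 1`). `x = θ (m-k₁) R`, `z = θ (m-k₂) R = 3^g • x`.
`‖x‖ ≤ 4^{-(σ-1-H)}/10`, `‖z‖ = 4^{-(σ-1-h₂)} ‖θ (m-k₂) (i+e+h₂)‖ ≤ 4^{-(σ-1-H)}/10`. If `3^g ‖x‖ ≥ 9/10` then
`3^g ≥ 9·4^{σ-1-H}`, so `g ≥ σ-1-H`. Otherwise `‖z‖ = 3^g ‖x‖` (lift `x₀`, `|x₀| = ‖x‖`, the integer nearest to `3^g x₀` is `0`).
By ExitWhite (`3^k₁ ≤ 3^k₂ ≤ 4^e`) `1/10 < ‖θ (m-k₁) (i+e)‖ = ‖4^(σ-1) • x‖ ≤ 4^(σ-1) ‖x‖`. So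
`3^g = ‖z‖/‖x‖ < 4^H ≤ 9^H`, i.e. `g < 2H`. -/
def StmtLemS : Prop :=
  ∀ (h : Th) (m i k₁ k₂ h₁ h₂ H σ : ℕ), m ≤ h.M0 → 1 ≤ dl h m i → k₁ ≤ k₂ → 3 ^ k₂ ≤ 4 ^ dl h m i →
    h₁ ≤ H → h₂ ≤ H → H + 1 ≤ σ →
    σ ≤ dl h (m - k₁) (i + dl h m i + h₁) → σ ≤ dl h (m - k₂) (i + dl h m i + h₂) →
    k₂ - k₁ ≤ 2 * H ∨ σ ≤ k₂ - k₁ + 1 + H

/-- **VBasic.** Elementary properties of `V`, `X`, `Qop`.
Uses: StmtBinBasic.
Proofs: induction on the number of steps. For (4) use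
`Qop (e+1) f m i = 1/4 Qop e f m (i+1) + 1/2 Qop e f (m-1) (i+1) + 1/4 Qop e f (m-2) (i+1)` (also part of the statement),
which is Pascal twice. `X` is 1 at `m = 0`. -/
def StmtVBasic : Prop :=
  (∀ (h : Th) (τ m i : ℕ), 0 ≤ V h τ m i ∧ V h τ m i ≤ 1) ∧
  (∀ (h : Th) (τ m i : ℕ), 0 ≤ X h τ m i ∧ X h τ m i ≤ 1) ∧
  (∀ (h : Th) (τ τ' m i : ℕ), τ ≤ τ' → V h τ' m i ≤ V h τ m i) ∧
  (∀ (h : Th) (τ τ' m i : ℕ), τ ≤ τ' → X h τ' m i ≤ X h τ m i) ∧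
  (∀ (f : ℕ → ℕ → ℝ) (e m i : ℕ), Qop (e + 1) f m i
      = (1 / 4) * Qop e f m (i + 1) + (1 / 2) * Qop e f (m - 1) (i + 1) + (1 / 4) * Qop e f (m - 2) (i + 1)) ∧
  (∀ (h : Th) (e τ m i : ℕ), V h (e + τ) m i ≤ Qop e (V h τ) m i)

/-- **Attempt.** One attempt. If after waiting `e = dl h m i` steps and one more step all values are `≤ M` then
the value is `≤ gam * M`.
Uses: StmtBinBasic, StmtVBasic, StmtThBasic, StmtExitWhite.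
Proof. `V (e+1+τ) m i ≤ Qop e (V (1+τ)) m i`, and `V (1+τ) (m-k) (i+e) ≤ (1 - (1-qq)/2 [white (m-k) (i+e)]) M`.
`(m-k,i+e)` is white for all `k ≤ e` (if `e ≥ 1`: ExitWhite and `3^k ≤ 4^e`; if `e = 0`: only `k = 0` occurs and `(m,i)` is white) and
`∑_{k ≤ e} P (2e) k ≥ 1/2` by symmetry. So the value is at most `(1 - (1-qq)/4) M`. -/
def StmtAttempt : Prop :=
  ∀ (h : Th) (τ m i : ℕ) (M : ℝ), m ≤ h.M0 → 0 ≤ M →
    (∀ k ≤ 2 * (dl h m i + 1), V h τ (m - k) (i + (dl h m i + 1)) ≤ M) →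
    V h (dl h m i + 1 + τ) m i ≤ gam * M

/-- **Chain.** `Q` attempts in a region where the waiting times are controlled.
Uses: StmtVBasic, StmtAttempt.
Proof. Put `Hs q = ∑_{j<q} σ j`. Claim by downward induction on `q`: for all `h' ≤ Hs q`, `s' ≤ 2h'` and all
`τ ≥ Hs Q - Hs q`: `V τ (m-s') (i+h') ≤ gam^(Q-q)`. `q = Q`: `V ≤ 1`. Step: `dl < σ q`, so `dl + 1 ≤ σ q`, apply Attempt. Take `q = 0`. -/
def StmtChain : Prop :=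
  ∀ (h : Th) (σ : ℕ → ℕ) (Q m i τ : ℕ), m ≤ h.M0 →
    (∀ q < Q, ∀ h' ≤ ∑ j ∈ range q, σ j, ∀ s' ≤ 2 * h', dl h (m - s') (i + h') < σ q) →
    ∑ j ∈ range Q, σ j ≤ τ → V h τ m i ≤ gam ^ Q

open Classical in
/-- **BadProb.** `e = dl h m i` large; `k` is *bad* if from the exit point `(m-k, i+e)` one can reach within `H` steps a point
with waiting time `≥ σ`. The bad set has small weight under the exit distribution `P (2e)`.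
Uses: StmtBinBasic, StmtBinDiff, StmtBinShift, StmtSparse, StmtLemS.
Proof. Let `𝓑 = {k' : ∃ h' ≤ H, σ ≤ dl h (m-k') (i+e+h')}`. The bad `k` with `4(k + 2H) ≤ 5e` satisfy: `[k, k+2H]` meets
`𝓑 ∩ {4k' ≤ 5e}`, for these `3^k' ≤ 4^e` (`3^5 ≤ 4^4`), so by LemS two bad `k` differ by `≤ 4H` or by `≥ σ-1-3H`: Sparse with
`w = 4H+1`, `G = σ-1-3H`. The others have `k > 5e/4 - 2H ≥ 9e/8` (as `16 H ≤ e`), i.e. `2k - 2e ≥ e/4`: Chebyshev gives `2e/(e/4)^2 = 32/e`. -/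
def StmtBadProb : Prop :=
  ∀ (h : Th) (m i H σ : ℕ), m ≤ h.M0 → 1 ≤ dl h m i → 16 * H ≤ dl h m i → 3 * H + 2 ≤ σ →
    ∑ k ∈ (range (2 * dl h m i + 1)).filter
        (fun k : ℕ => ∃ h' ≤ H, ∃ s' ≤ 2 * H, σ ≤ dl h (m - (k + s')) (i + dl h m i + h')), P (2 * dl h m i) k
      ≤ (4 * H + 1) * (1 / ((σ : ℝ) - 1 - 3 * H) + 2 / Real.sqrt (2 * dl h m i + 1)) + 32 / dl h m i

/-- **Cross.** After a long waiting time the next `Q` attempts are short with high probability.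
Uses: StmtVBasic, StmtBinBasic, StmtChain, StmtBadProb.
Proof. Choose `σ` recursively, `Hs q = ∑_{j<q} σ j`, `σ q` so large that `(4 Hs q + 1)/(σ q - 1 - 3 Hs q) ≤ η/(4Q+4)`; then `y₀` so large
that for `e ≥ y₀` and all `q < Q`: `16 Hs q ≤ e`, `(4 Hs q+1) 2/√(2e+1) + 32/e ≤ η/(4Q+4)`. `τ₀ = Hs Q`.
`V (e + τ) m i ≤ Qop e (V τ) m i`; `V τ (m-k) (i+e) ≤ gam^Q` by Chain if `k` is not bad for any pair `(Hs q, σ q)`, `q < Q`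
(`m - k - s' = m - (k+s')`), and `≤ 1` otherwise. -/
def StmtCross : Prop :=
  ∀ (Q : ℕ) (η : ℝ), 0 < η → ∃ τ₀ y₀ : ℕ, ∀ (h : Th) (m i τ : ℕ), m ≤ h.M0 → y₀ ≤ dl h m i → τ₀ ≤ τ →
    V h (dl h m i + τ) m i ≤ gam ^ Q + η

/-- **Scale.** In `0.8 m` steps the value becomes small.
Uses: StmtVBasic, StmtThBasic, StmtAttempt, StmtCross.
Proof. `Q` with `gam^Q ≤ δ/2` (`gam < 1` since `qq < 1`), `η = δ/2`, `τ₀, y₀` from Cross. Let `E(m) ` bound all waiting times of columns `≤ m`: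
`4^(e-1) ≤ 3^m` gives `200 (e-1) ≤ 159 m` (`3^200 ≤ 4^159`). Claim by induction on `a`: for all `m' ≤ m`, all `i'`, all
`τ ≥ a (y₀+1) + E(m) + τ₀`: `V τ m' i' ≤ max (gam^a) (gam^Q + η)`. Step: if `dl < y₀` use Attempt (all reachable points have column `≤ m`),
if `dl ≥ y₀` use Cross. Take `a = Q` and `m` so large that `Q (y₀+1) + 159m/200 + 2 + τ₀ ≤ 4m/5`. -/
def StmtScale : Prop :=
  ∀ δ : ℝ, 0 < δ → ∃ m₁ : ℕ, ∀ (h : Th) (m i τ : ℕ), m₁ ≤ m → m ≤ h.M0 → 4 * m ≤ 5 * τ → V h τ m i ≤ δ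

/-- **XStep.** Uses: StmtBinBasic, StmtVBasic.
Proof. Induction on `τ`. `τ = 0`: `X ≤ B` if `lo ≤ m ≤ hi`, `X ≤ 1` otherwise. Step, `m = 0`: the left side is 1 and the last sum is 1
(as `lo ≥ 1`). Step, `m ≥ 1`: recursion for `X`, `V`, and Pascal twice for the last sum. -/
def StmtXStep : Prop :=
  ∀ (h : Th) (lo hi T' : ℕ) (B : ℝ), 1 ≤ lo → 0 ≤ B →
    (∀ m' i', lo ≤ m' → m' ≤ hi → X h T' m' i' ≤ B) →
    ∀ τ m i, X h (τ + T') m i ≤ B * V h τ m i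
      + ∑ k ∈ (range (2 * τ + 1)).filter (fun k : ℕ => ¬ (lo ≤ m - k ∧ m - k ≤ hi)), P (2 * τ) k

/-- **Tails.** Exponential tails. Uses: StmtBinBasic.
Proof. The condition fails iff `10 k > 9 m` or `10 k < 3 m` (for `k ≤ m`) or `k > m`. Markov with `z^k`:
`∑_{10k>9m} P(2τ) k ≤ z^(-9m/10) ((1+z)/2)^(2τ)` with `z = 13/10`, `2τ ≤ 8m/5 + 2`: `(13/10)^(-9/10) (23/20)^(8/5) < 0.988`;
lower tail with `z = 3/10`. -/
def StmtTails : Prop :=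
  ∃ (C ρ : ℝ), 0 < ρ ∧ ρ < 1 ∧ ∀ m τ : ℕ, 4 * m ≤ 5 * τ → 5 * τ ≤ 4 * m + 5 →
    ∑ k ∈ (range (2 * τ + 1)).filter (fun k : ℕ => ¬ (m ≤ 10 * (m - k) ∧ 10 * (m - k) ≤ 7 * m)), P (2 * τ) k ≤ C * ρ ^ m

/-- **XPoly.** Polynomial decay of `X`.
Uses: StmtVBasic, StmtScale, StmtXStep, StmtTails.
Proof. Strong induction on `m`: `X T m i ≤ C m^{-A}` for `T ≥ 3m`. Let `δ = 10^{-A}/4`, `m₁` from Scale, `τ = ⌈4m/5⌉`, `T - τ ≥ 3m'` for all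
`m' ≤ 7m/10` (`m ≥ 10`). XStep with `lo = ⌈m/10⌉`, `hi = ⌊7m/10⌋`, `B = C (m/10)^{-A}`: `X ≤ δ 10^A C m^{-A} + C₁ ρ^m ≤ C m^{-A}/4 + C m^{-A}/2`,
for `m ≥ max m₁ 10` and `C` large (`C₁ ρ^m m^A` bounded); for small `m` take `C ≥ m₁^A`. -/
def StmtXPoly : Prop :=
  ∀ A : ℕ, ∃ C : ℝ, 0 < C ∧ ∀ (h : Th) (m i T : ℕ), 1 ≤ m → m ≤ h.M0 → 3 * m ≤ T → X h T m i ≤ C / (m : ℝ) ^ A

/-- **FDSum.** The exponential sum is bounded by the walk.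
Uses: StmtVBasic.
Proof. Induction on `L`, `i` general (replace `ξ` by `ξ u^i`); the statement below is for all `ξ`. Word `c :: g`, `|g| = L`:
`u^(L+1) FF(c::g) = u^(L+1) 4^L F1 c + u^(L+1) 3^(kap1 c) FF g ≡ u F1 c + 3^(kap1 c) u (u^L FF g)  (mod 3^M0)`, so
`ee(-ξ u^(L+1) FF(c::g)/3^n) = ee(-ξ u F1 c/3^n) * ee(-(ξ u) u^L FF g / 3^(n - kap1 c))` if `kap1 c ≤ n`
(if `n = 0` or `n = 1, kap1 c = 2`, the remaining sum is simply bounded by 1 = `X h T 0 i`).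
The letters `1` and `2` have the same `kap1 = 1` and the weights `w (1::g) = w (2::g)`; together they contribute
`1/2 * |(ee(-ξu/3^n) + ee(-2ξu/3^n))/2| = 1/2 |cos (π ξ u/3^n)| ≤ 1/2 (if 1/10 < ‖ξu/3^n‖ then qq else 1)`.
`L = 0`: `w [] = 0` unless `n = 0`. Here `h.θ n i = ξ u^(i+1)/3^n` is the family of the `Th`. -/
def StmtFDSum : Prop :=
  ∀ (h : Th) (ξ u : ℤ), (3 : ℤ) ^ h.M0 ∣ 4 * u - 1 →
    (∀ m i : ℕ, h.θ m i = (((ξ : ℝ) * u ^ (i + 1) / 3 ^ m : ℝ) : UnitAddCircle)) →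
    ∀ (L n i T : ℕ) (w : List (Fin 4) → ℂ), n ≤ h.M0 → L ≤ T → (∀ g, ‖w g‖ ≤ 1) →
      (∀ g g' : List (Fin 4), g.map kap1 = g'.map kap1 → w g = w g') →
      (∀ g, kap g < n → w g = 0) →
      ‖Ew L (fun g => w g * ee (-((ξ : ℝ) * u ^ i * u ^ L * FF g / 3 ^ n)))‖ ≤ X h T n i

/-- **FD (Fourier decay).**
Uses: StmtVBasic, StmtXPoly, StmtFDSum.
Proof. Build the `Th` with `θ m i = ξ u^(i+1)/3^m` (`3 ∤ u`, so `3 ∤ ξ u^(i+1)`, distance to integers `≥ 3^{-m}`), apply FDSum with `i = 0`,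
`T = max L (3n)` and XPoly. -/
def StmtFD : Prop :=
  ∀ A : ℕ, ∃ C : ℝ, 0 < C ∧ ∀ (M0 n L : ℕ) (ξ u : ℤ) (w : List (Fin 4) → ℂ), 1 ≤ n → n ≤ M0 →
    (3 : ℤ) ^ M0 ∣ 4 * u - 1 → ¬ (3 : ℤ) ∣ ξ → (∀ g, ‖w g‖ ≤ 1) →
    (∀ g g' : List (Fin 4), g.map kap1 = g'.map kap1 → w g = w g') →
    (∀ g, kap g < n → w g = 0) →
    ‖Ew L (fun g => w g * ee (-((ξ : ℝ) * u ^ L * FF g / 3 ^ n)))‖ ≤ C / (n : ℝ) ^ A

end Pool.Agent.Clz
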