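import Pool.Agent.Lib.MP_5a39b1_nt.Clz.Spec1
import Pool.Agent.Lib.MP_5a39b1_nt.Clz.EwLib

/-!
MP_5a39b1_nt, statements of the modules, part 2 (words and preimages, L¹ mixing).
`EwLib.lean` contains proved basic lemmas on `Ew`, `avg`, `kap`, `FF`, `ker`, `fr`, `Dd`.
Every `Stmt...` is to be proved in a file of its own, `theorem stmtXxx (h₁ : StmtA) ... : StmtXxx`,
where the hypotheses are among those named under Uses.
-/

set_option autoImplicit false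

namespace Pool.Agent.Clz

open Finset

/-- **KapLaw.** The number of threes of a random word of length `n` is binomial with parameter `2n`.
Uses: StmtBinBasic.
Proof. Induction on `n`: letters have `kap1 = 0,1,1,2`, and `P (2n+2) k = 1/4 P (2n) k + 1/2 P (2n) (k-1) + 1/4 P (2n) (k-2)`. -/
def StmtKapLaw : Prop :=
  ∀ (n : ℕ) (f : ℕ → ℝ), Ew n (fun g => f (kap g)) = ∑ k ∈ range (2 * n + 1), P (2 * n) k * f k

/-- **Words.** Words and preimages.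
Uses: nothing.
(1) one letter: if `3^(kap1 c) ∣ 4M - F1 c` then `T (T ((4M - F1 c)/3^(kap1 c))) = M` (cases; letter 0: `4M → 2M → M`; letter 1:
`N = (4M-1)/3` odd, `T N = 2M`; letter 2: `N = (4M-2)/3` even, `N/2 = (2M-1)/3` odd; letter 3: `N = (4M-5)/9` odd, `T N = (2M-1)/3` odd);
(2) composition: `4^{|g|+|g'|} M - FF (g++g') = 4^{|g'|} (4^{|g|} M - FF g) - 3^(kap g) FF g'`;
(3) every `N` is reached: the letter of `N` is determined by the parities of `N` and `T N`;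
(4) uniqueness by induction (the first letters are read off from the last iterates: if `Nz g M = Nz g' M = N`, both words of length `t`,
then the letter at each place is determined by the parities of `T^[2j] N`, `T^[2j+1] N`).
(5) follows from (4) by choosing `M` with `3^(kap g) ∣ 4^{|g|} M - FF g`.
(6) from (2). -/
def StmtWords : Prop :=
  (∀ (g : List (Fin 4)) (M : ℤ), valid g M → T^[2 * g.length] (Nz g M) = M) ∧
  (∀ (g g' : List (Fin 4)) (M : ℤ), valid (g ++ g') M ↔ (valid g M ∧ valid g' (Nz g M))) ∧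
  (∀ (g g' : List (Fin 4)) (M : ℤ), valid g M → Nz (g ++ g') M = Nz g' (Nz g M)) ∧
  (∀ (t : ℕ) (N : ℤ), ∃ g : List (Fin 4), g.length = t ∧ valid g (T^[2 * t] N) ∧ Nz g (T^[2 * t] N) = N) ∧
  (∀ (g g' : List (Fin 4)) (M M' : ℤ), g.length = g'.length → valid g M → valid g' M' → Nz g M = Nz g' M' →
    g = g' ∧ M = M') ∧
  (∀ g g' : List (Fin 4), g.length = g'.length → kap g = kap g' → FF g = FF g' → g = g') ∧
  (∀ (g g' : List (Fin 4)) (z : ℤ), valid g z → kerF (g ++ g') z = 3 ^ kap g * kerF g' (Nz g z)) ∧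
  (∀ (g g' : List (Fin 4)) (z : ℤ), ¬ valid g z → kerF (g ++ g') z = 0)

/-- **RMoment.** Square root moment of `RR`, and a crude bound.
Uses: nothing.
Proof. `RR (c::g) = (F1 c + 3^(kap1 c) RR g)/4`, `√(a+b) ≤ √a + √b`, so with `x = Ew t √RR`:
`Ew (t+1) √RR ≤ (1/8)((0+1+√2+√5) + (1+√3+√3+3) x) ≤ 0.582 + 0.9331 x ≤ 10` if `x ≤ 10`. Crude: `RR (c::g) + 1 ≤ (9/4) (RR g + 1)`. -/
def StmtRMoment : Prop :=
  (∀ t : ℕ, Ew t (fun g => Real.sqrt (RR g)) ≤ 10) ∧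
  (∀ g : List (Fin 4), 0 ≤ RR g ∧ RR g ≤ (9 / 4) ^ g.length)

/-- **KerAvg.** Averages of kernels.
Uses: nothing. Proof: `4` is invertible modulo `3^j`, so exactly one residue class modulo `3^j` satisfies
`3^j ∣ 4^{|g|} z - FF g`. (3): `z ↦ Nz g z` maps the residues of `z` modulo `3^(kap g + N)` with `valid g z` bijectively onto the residues modulo `3^N`. -/
def StmtKerAvg : Prop :=
  (∀ (m N : ℕ) (g : List (Fin 4)), min m (kap g) ≤ N → avg N (ker m g) = 1) ∧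
  (∀ (N r : ℕ), 2 * r ≤ N → avg N (fr r) = 1) ∧
  (∀ (g : List (Fin 4)) (N N' : ℕ) (φ : ℤ → ℝ), (∀ z, φ (z + 3 ^ N) = φ z) → kap g + N ≤ N' →
    avg N' (fun z => kerF g z * φ (Nz g z)) = avg N φ)

/-- **Ram.** Ramanujan sum expansion of the difference of two kernels.
Uses: nothing. Proof: `∑_{ξ < 3^n} ee(ξ y/3^n) = 3^n [3^n ∣ y]` (geometric sum), and the multiples of 3 give the same with `n-1`. -/
def StmtRam : Prop :=
  ∀ (n : ℕ) (y : ℤ), 1 ≤ n →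
    ∑ ξ ∈ (range (3 ^ n)).filter (fun ξ : ℕ => ¬ 3 ∣ ξ), ee ((ξ : ℝ) * y / 3 ^ n)
      = (if (3 : ℤ) ^ n ∣ y then (3 : ℂ) ^ n else 0) - (if (3 : ℤ) ^ (n - 1) ∣ y then (3 : ℂ) ^ (n - 1) else 0)

/-- **L2.** L¹ norm of a convolution by Cauchy–Schwarz and Parseval.
Uses: nothing.
Proof. `(1/N) ∑_z ‖Θ z‖ ≤ ((1/N) ∑_z ‖Θ z‖²)^{1/2}`, `(1/N) ∑_z ‖Θ z‖² = ∑_ξ ‖B ξ‖² ‖A ξ‖² ≤ β² ∑_ξ ‖A ξ‖²` where
`A ξ = ∑_i c_i ee(-ξ y_i/N)`, and `∑_{ξ<N} ‖A ξ‖² = N ∑_i ‖c_i‖²` because the `y_i` are distinct modulo `N` (orthogonality of the characters). -/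
def StmtL2 : Prop :=
  ∀ (N : ℕ) (s : Finset (List (Fin 4))) (y : List (Fin 4) → ℤ) (c : List (Fin 4) → ℂ) (B : ℕ → ℂ) (β : ℝ),
    1 ≤ N → 0 ≤ β → (∀ ξ, ‖B ξ‖ ≤ β) →
    (∀ g ∈ s, ∀ g' ∈ s, (N : ℤ) ∣ y g - y g' → g = g') →
    (∑ z ∈ range N, ‖∑ ξ ∈ range N, B ξ * (∑ g ∈ s, c g * ee (-((ξ : ℝ) * y g / N))) * ee ((ξ : ℝ) * z / N)‖) / N
      ≤ β * Real.sqrt (N * ∑ g ∈ s, ‖c g‖ ^ 2)

open Classical in
/-- **HFfix.** The difference of the levels `n` and `n-1`, for words whose first `s` letters have `kap = k` and `FF < 3^n`.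
Uses: StmtWords, StmtRam, StmtL2.
`C` is a bound for the Fourier coefficients at level `n - k` (hypothesis `hC`, supplied by StmtFD).
Proof. Let `u` be an integer with `3^n ∣ 4u - 1`. Words with `kap g < n` have `ker n g = ker (n-1) g`. For `kap g ≥ n`
`ker n g z - ker (n-1) g z = 3^n [3^n ∣ y] - 3^(n-1) [3^(n-1) ∣ y]` with `y = 4^L z - FF g`, equivalently with `y = u^L (4^L z - FF g)`, which is
`≡ z - u^L FF g (mod 3^n)`; by Ram it is `∑_{ξ, 3∤ξ} ee(ξ z/3^n) ee(-ξ u^L FF g/3^n)`. For `g = g₁ ++ g₂`, `|g₁| = s`, `kap g₁ = k`: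
`u^L FF g ≡ u^s FF g₁ + 3^k u^s u^(L-s) FF g₂`. Hence the function is
`∑_{ξ, 3∤ξ} ee(ξ z/3^n) A(ξ) B(ξ)`, `A(ξ) = 4^{-s} ∑_{g₁} ee(-ξ u^s FF g₁/3^n)` (sum over the admissible `g₁`),
`B(ξ) = Ew (L-s) (w(g₂) ee(-(ξ u^s) u^(L-s) FF g₂/3^(n-k)))`, `w(g₂) = [kap g₂ ≥ n-k] [t ≤ s or kap (g₂.take (t-s)) + k = κ]`, `‖B ξ‖ ≤ C`
(put `B ξ = 0` if `3 ∣ ξ`). The numbers `u^s FF g₁` are distinct modulo `3^n` (Words (5), `0 ≤ FF g₁ < 3^n`).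
L2 with `c = 4^{-s}` on at most `4^s` words gives `C √(3^n 4^{-s})`. -/
def StmtHFfix : Prop :=
  ∀ (n L s t κ k : ℕ) (C : ℝ), 1 ≤ n → k < n → s ≤ L → t ≤ L → 0 ≤ C →
    (∀ (ξ u : ℤ) (w : List (Fin 4) → ℂ), (3 : ℤ) ^ n ∣ 4 * u - 1 → ¬ (3 : ℤ) ∣ ξ → (∀ g, ‖w g‖ ≤ 1) →
      (∀ g g' : List (Fin 4), g.map kap1 = g'.map kap1 → w g = w g') →
      (∀ g, kap g < n - k → w g = 0) →
      ‖Ew (L - s) (fun g => w g * ee (-((ξ : ℝ) * u ^ (L - s) * FF g / 3 ^ (n - k))))‖ ≤ C) →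
    avg n (fun z => |Ew L (fun g => if kap (g.take t) = κ ∧ kap (g.take s) = k ∧ FF (g.take s) < 3 ^ n
        then ker n g z - ker (n - 1) g z else 0)|)
      ≤ C * Real.sqrt (3 ^ n / 4 ^ s)

/-- **Tails2.** Exponential tail.
Uses: StmtBinBasic. Proof. `2s ≤ 159n/100` (`3^200 ≤ 4^159`), Markov with `z = 11/10`: `(11/10)^(-17/20) (21/20)^(159/100) < 0.998`. -/
def StmtTails2 : Prop :=
  ∃ (C ρ : ℝ), 0 < C ∧ 0 < ρ ∧ ρ < 1 ∧ ∀ n s : ℕ, 4 ^ s ≤ 3 ^ n →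
    ∑ k ∈ (range (2 * s + 1)).filter (fun k : ℕ => 17 * n < 20 * k), P (2 * s) k ≤ C * ρ ^ n

/-- **HFstep.** One level.
Uses: StmtBinBasic, StmtKapLaw, StmtRMoment, StmtKerAvg, StmtHFfix, StmtTails2, StmtFD.
Proof. Given `a`. For small `n` the bound is trivial (the left side is `≤ 2`). For large `n` let `s` be the largest integer with
`4^s n^(2a) ≤ 3^n`. If `L < s`: `ker n g = ker (n-1) g` unless `kap g ≥ n`, so the left side is `≤ 2 P(kap ≥ n) ≤ 2 C ρ^n` by Tails2 (`4^L ≤ 3^n`).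
If `s ≤ L`: the words with `FF (g.take s) ≥ 3^n`, i.e. `RR (g.take s) ≥ 3^n/4^s ≥ n^(2a)`, contribute `≤ 2 · 10/n^a` (Markov for `√RR`);
those with `20 kap (g.take s) > 17 n` contribute `≤ 2 C ρ^n`. For every `k ≤ 17n/20` HFfix and FD with exponent `A = 2a+1` (level `n-k ≥ 3n/20`)
give `≤ C_A (20/(3n))^A √(3^n/4^s) ≤ C_A (20/3)^A n^{-A} 2 n^a`; sum over `k ≤ n`. -/
def StmtHFstep : Prop :=
  ∀ a : ℕ, ∃ C : ℝ, 0 < C ∧ ∀ (n L t κ : ℕ), 1 ≤ n → t ≤ L →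
    avg n (fun z => |Ddm n t L κ z - Ddm (n - 1) t L κ z|) ≤ C / (n : ℝ) ^ a

/-- **HFsum.** Fine scale mixing.
Uses: StmtHFstep. Proof: telescoping from `n = 2L` (where `Ddm = Dd`) down to `m`, `∑_{n>m} C/n^(a+2) ≤ 2C/m^a`
(if `m ≥ 2L` the left side is 0); averages of functions with period `3^n` by `avg_of_periodic`. -/
def StmtHFsum : Prop :=
  ∀ a : ℕ, ∃ C : ℝ, 0 < C ∧ ∀ (m L t κ N : ℕ), 1 ≤ m → t ≤ L → 2 * L ≤ N →
    avg N (fun z => |Dd t L κ z - Ddm m t L κ z|) ≤ C / (m : ℝ) ^ a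

/-- **FrTail.** The densities `fr r` are a Cauchy sequence in L¹.
Uses: StmtBinBasic, StmtBinShift, StmtKapLaw, StmtKerAvg, StmtHFsum.
Proof. (1) is HFsum with `t = κ = 0`. (2) Let `m = ⌈s/2⌉`. If `kap (g.take s) ≥ m` then `ker m g = ker m (g.take s)`
(`|g| = r ≥ s`), so `avg |frm m r - frm m s| ≤ 2 P(kap < m) ≤ 2 · 2/s` by Chebyshev (parameter `2s`, deviation `|2k - 2s| ≥ s`). -/
def StmtFrTail : Prop :=
  (∀ a : ℕ, ∃ C : ℝ, 0 < C ∧ ∀ (m r N : ℕ), 1 ≤ m → 2 * r ≤ N →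
    avg N (fun z => |fr r z - frm m r z|) ≤ C / (m : ℝ) ^ a) ∧
  (∃ C : ℝ, 0 < C ∧ ∀ (s r N : ℕ), 1 ≤ s → s ≤ r → 2 * r ≤ N →
    avg N (fun z => |fr r z - fr s z|) ≤ C / (s : ℝ))

/-- **MLpt.** Pointwise (in `κ`) local mixing.
Uses: StmtBinBasic, StmtBinDiff, StmtBinShift, StmtKapLaw, StmtKerAvg, StmtHFsum, StmtFrTail.
Proof. `m = ⌈r/2⌉`, exponent 8.
(i) `avg |Dd t L κ - Ddm m t L κ| ≤ C/m^8`.
(ii) split `g = g₀ ++ g'`, `|g₀| = r`. If `kap g₀ ≥ m` then `ker m g = ker m g₀` and the average over `g'` of `[kap (g.take t) = κ]` is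
`P (2(t-r)) (κ - kap g₀)`. So `avg |Ddm m t L κ - Ew r (ker m g₀ · P (2(t-r)) (κ - kap g₀))| ≤ 2 P(kap g₀ < m) sup P(2(t-r)) ≤ 2 (2/r) 2/√t`.
(iii) `|P (2(t-r)) (κ - k₀) - P (2t) κ| ≤ 2r · 8/(2(t-r)+1) ≤ 16 r/t` since `P (2t) κ` is an average of `P (2(t-r)) (κ - j)`, `0 ≤ j ≤ 2r`.
(iv) `P (2t) κ · avg |frm m r - fr r| ≤ C/m^8`. -/
def StmtMLpt : Prop :=
  ∃ C : ℝ, 0 < C ∧ ∀ (t L κ r N : ℕ), 1 ≤ r → 2 * r ≤ t → t ≤ L → 2 * (L + r) ≤ N →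
    avg N (fun z => |Dd t L κ z - P (2 * t) κ * fr r z|)
      ≤ C * ((r : ℝ) / t + 1 / (r * Real.sqrt t) + 1 / (r : ℝ) ^ 8)

/-- **MLsum.** Summed local mixing.
Uses: as MLpt. Proof: as MLpt; (i) summed over `2t+1` values of `κ`; (ii) `≤ 2 P(kap g₀ < m) ≤ 4/r`;
(iii) `∑_κ |P (2(t-r)) (κ - k₀) - P (2t) κ| ≤ 2r · 2/√(2(t-r)+1) ≤ 4r/√t`; (iv) `∑_κ P (2t) κ = 1`. -/
def StmtMLsum : Prop :=
  ∃ C : ℝ, 0 < C ∧ ∀ (t L r N : ℕ), 1 ≤ r → 2 * r ≤ t → t ≤ L → 2 * (L + r) ≤ N →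
    ∑ κ ∈ range (2 * t + 1), avg N (fun z => |Dd t L κ z - P (2 * t) κ * fr r z|)
      ≤ C * ((r : ℝ) / Real.sqrt t + 1 / r + (t : ℝ) / (r : ℝ) ^ 8)

open Classical in
/-- **FrSmall.** The density is positive on most units.
Uses: StmtKapLaw, StmtWords, StmtKerAvg, StmtFrTail.
Proof. One letter recursion: `fr (s+1) z = 1/4 fr s (4z) + 3/4 [3 ∣ 4z-1] fr s ((4z-1)/3) + 3/4 [3 ∣ 4z-2] fr s ((4z-2)/3) + 9/4 [9 ∣ 4z-5] fr s ((4z-5)/9)`.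
Averages `p₁(s), p₂(s)` of `fr s` over the classes 1, 2 modulo 3: `p₁(s+1) = p₁(s)/4 + 3/4`, `p₂(s+1) = p₂(s)/4 + 3/2`, so `p₁(s) = 1`, `p₂(s) ≥ 1`.
Given `η`, take `s ≥ 1` with `avg |fr r - fr s| ≤ η/2` for all `r ≥ s`. `fr s` has period `3^(2s)`; with `K = 3^(2s-1)` the numbers `4^k`, `k < K`, run over the residues
`≡ 1 mod 3` modulo `3^(2s)`, so `(1/K) ∑_{k<K} fr s (4^k z) = p_{z mod 3}(s) ≥ 1` for `3 ∤ z`. By the recursion `fr (r-k) (4^k z) ≤ 4^k fr r z`.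
If `fr r z < δ = 4^{-K}/2` then `1 ≤ 1/2 + (1/K) ∑_k |fr s - fr (r-k)| (4^k z)`. Average over `z` (`z ↦ 4^k z` permutes the residues):
`avg [3∤z, fr r z < δ] ≤ 2 max_k avg |fr s - fr (r-k)| ≤ η` for `r ≥ s + K`. -/
def StmtFrSmall : Prop :=
  ∀ η : ℝ, 0 < η → ∃ (δ : ℝ) (r₀ : ℕ), 0 < δ ∧ ∀ r N : ℕ, r₀ ≤ r → 2 * r ≤ N →
    avg N (fun z => if ¬ (3 : ℤ) ∣ z ∧ fr r z < δ then 1 else 0) ≤ η

end Pool.Agent.Clz
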