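import Pool.Agent.Lib.MP_5a39b1_nt.Clz.EwLib

/-!
MP_5a39b1_nt, library of (proved) basic lemmas on windows `W` and on `mass`.
-/

set_option autoImplicit false

namespace Pool.Agent.Clz

open Finset

theorem mem_W {s : ℤ} (hs : s = 1 ∨ s = -1) {a b : ℝ} (ha : 0 < a) {N : ℤ} :
    N ∈ W s a b ↔ a ≤ ((s * N : ℤ) : ℝ) ∧ ((s * N : ℤ) : ℝ) < b := by
  unfold W
  rw [Finset.mem_filter, Finset.mem_Icc]
  constructor
  · rintro ⟨_, h⟩; exact h
  · rintro ⟨h1, h2⟩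
    refine ⟨?_, h1, h2⟩
    have hb : |b| ≤ (⌈|b|⌉ : ℝ) := Int.le_ceil _
    have hb0 : 0 < b := lt_trans (lt_of_lt_of_le ha h1) h2
    rw [abs_of_pos hb0] at hb
    rw [abs_of_pos hb0]
    have h3 : ((s * N : ℤ) : ℝ) < ((⌈b⌉ : ℤ) : ℝ) := lt_of_lt_of_le h2 hb
    have h4 : s * N < ⌈b⌉ := by exact_mod_cast h3
    have h5 : (0 : ℝ) < ((s * N : ℤ) : ℝ) := lt_of_lt_of_le ha h1
    have h6 : 0 < s * N := by exact_mod_cast h5
    rcases hs with rfl | rfl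
    · constructor <;> omega
    · constructor <;> omega

theorem abs_of_mem_W {s : ℤ} (hs : s = 1 ∨ s = -1) {a b : ℝ} (ha : 0 < a) {N : ℤ} (h : N ∈ W s a b) :
    |(N : ℝ)| = ((s * N : ℤ) : ℝ) := by
  have h1 := (mem_W hs ha).1 h
  have h5 : (0 : ℝ) < ((s * N : ℤ) : ℝ) := lt_of_lt_of_le ha h1.1
  rcases hs with rfl | rfl
  · have : (0 : ℝ) < (N : ℝ) := by simpa using h5
    simp [abs_of_pos this]
  · have : (N : ℝ) < 0 := by
      have : (0 : ℝ) < -(N : ℝ) := by simpa using h5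
      linarith
    simp [abs_of_neg this]

theorem mem_W' {s : ℤ} (hs : s = 1 ∨ s = -1) {a b : ℝ} (ha : 0 < a) {N : ℤ} (h : N ∈ W s a b) :
    a ≤ |(N : ℝ)| ∧ |(N : ℝ)| < b := by
  rw [abs_of_mem_W hs ha h]; exact (mem_W hs ha).1 h

theorem W_disjoint {s : ℤ} (hs : s = 1 ∨ s = -1) {a b c d : ℝ} (ha : 0 < a) (hc : 0 < c) (h : b ≤ c) :
    Disjoint (W s a b) (W s c d) := by
  rw [Finset.disjoint_left]
  intro N h1 h2
  have := ((mem_W hs ha).1 h1).2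
  have := ((mem_W hs hc).1 h2).1
  linarith

theorem W_union {s : ℤ} (hs : s = 1 ∨ s = -1) {a b c : ℝ} (ha : 0 < a) (h1 : a ≤ b) (h2 : b ≤ c) :
    W s a b ∪ W s b c = W s a c := by
  ext N
  rw [Finset.mem_union, mem_W hs ha, mem_W hs (lt_of_lt_of_le ha h1), mem_W hs ha]
  constructor
  · rintro (⟨h3, h4⟩ | ⟨h3, h4⟩)
    · exact ⟨h3, by linarith⟩
    · exact ⟨by linarith, h4⟩
  · rintro ⟨h3, h4⟩
    rcases lt_or_ge ((s * N : ℤ) : ℝ) b with h5 | h5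
    · exact Or.inl ⟨h3, h5⟩
    · exact Or.inr ⟨h5, h4⟩

theorem mass_add {s : ℤ} (hs : s = 1 ∨ s = -1) (φ : ℤ → ℝ) {a b c : ℝ} (ha : 0 < a) (h1 : a ≤ b) (h2 : b ≤ c) :
    mass s φ a b + mass s φ b c = mass s φ a c := by
  unfold mass
  rw [← W_union hs ha h1 h2, Finset.sum_union (W_disjoint hs ha (lt_of_lt_of_le ha h1) le_rfl)]

theorem mass_mono {s : ℤ} {φ ψ : ℤ → ℝ} {a b : ℝ} (h : ∀ N ∈ W s a b, φ N ≤ ψ N) :
    mass s φ a b ≤ mass s ψ a b := by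
  unfold mass
  exact Finset.sum_le_sum fun N hN => div_le_div_of_nonneg_right (h N hN) (abs_nonneg _)

theorem mass_nonneg {s : ℤ} {φ : ℤ → ℝ} {a b : ℝ} (h : ∀ N, 0 ≤ φ N) : 0 ≤ mass s φ a b := by
  unfold mass
  exact Finset.sum_nonneg fun N _ => div_nonneg (h N) (abs_nonneg _)

theorem mass_congr {s : ℤ} {φ ψ : ℤ → ℝ} {a b : ℝ} (h : ∀ N ∈ W s a b, φ N = ψ N) :
    mass s φ a b = mass s ψ a b := by
  unfold mass
  exact Finset.sum_congr rfl fun N hN => by rw [h N hN]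

theorem mass_fadd (s : ℤ) (φ ψ : ℤ → ℝ) (a b : ℝ) :
    mass s (fun N => φ N + ψ N) a b = mass s φ a b + mass s ψ a b := by
  unfold mass
  rw [← Finset.sum_add_distrib]
  exact Finset.sum_congr rfl fun N _ => by rw [add_div]

theorem mass_smul (s : ℤ) (c : ℝ) (φ : ℤ → ℝ) (a b : ℝ) :
    mass s (fun N => c * φ N) a b = c * mass s φ a b := by
  unfold mass
  rw [Finset.mul_sum]
  exact Finset.sum_congr rfl fun N _ => by rw [mul_div_assoc]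

theorem mass_empty (s : ℤ) (φ : ℤ → ℝ) {a b : ℝ} (h : b ≤ a) : mass s φ a b = 0 := by
  unfold mass W
  rw [Finset.sum_eq_zero]
  intro N hN
  rw [Finset.mem_filter] at hN
  linarith [hN.2.1, hN.2.2]

/-- enlarging the window -/
theorem mass_subset {s : ℤ} (hs : s = 1 ∨ s = -1) {φ : ℤ → ℝ} (hφ : ∀ N, 0 ≤ φ N) {a b a' b' : ℝ}
    (ha' : 0 < a') (h1 : a' ≤ a) (h2 : b ≤ b') : mass s φ a b ≤ mass s φ a' b' := by
  unfold mass
  refine Finset.sum_le_sum_of_subset_of_nonneg ?_ fun N _ _ => div_nonneg (hφ N) (abs_nonneg _)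
  intro N hN
  have := (mem_W hs (lt_of_lt_of_le ha' h1)).1 hN
  exact (mem_W hs ha').2 ⟨h1.trans this.1, this.2.trans_le h2⟩

theorem ind_nonneg (S : Set ℤ) (N : ℤ) : 0 ≤ ind S N := by unfold ind; split_ifs <;> norm_num
theorem ind_le_one (S : Set ℤ) (N : ℤ) : ind S N ≤ 1 := by unfold ind; split_ifs <;> norm_num

end Pool.Agent.Clz
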