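import Pool.Agent.Lib.MP_5a39b1_nt.Clz.Spec2
import Pool.Agent.Lib.MP_5a39b1_nt.Clz.WLib

/-!
MP_5a39b1_nt, statements of the modules, part 3 (push-forward of windows, convergence, natural density).
`EwLib.lean`, `WLib.lean` contain proved basic lemmas.
Every `Stmt...` is to be proved in a file of its own, `theorem stmtXxx (h₁ : StmtA) ... : StmtXxx`,
where the hypotheses are among those named under Uses.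
Notation in the docstrings: `u = lg a`, `a_κ = a 3^κ/4^t`, `b_κ = b 3^κ/4^t`, `W_κ = W s a_κ b_κ`, `lg 4 = log 4/log 3 = 1.26186`,
`c₁ = lg 4 - 1 = lg (4/3) = 0.26186`, so `lg a_κ = u - c₁ t + (κ - t)`.
-/

set_option autoImplicit false

namespace Pool.Agent.Clz

open Finset Filter Topology

/-- `u^(1/4)` -/
noncomputable def q4 (u : ℝ) : ℝ := Real.sqrt (Real.sqrt u)

/-- parameters for which the push-forward theorem is used -/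
def Good (a : ℝ) (t r r' : ℕ) : Prop :=
  lg a ≤ 20 * t ∧ 10 * (t : ℝ) ≤ 7 * lg a ∧ Adm (lg a) r ∧ (r' = 0 ∨ Adm (lg a) r')

/-- `S` is invariant away from the origin -/
def Inv (S : Set ℤ) (A0 : ℝ) : Prop := ∀ N : ℤ, A0 < |(N : ℝ)| → (T N ∈ S ↔ N ∈ S)

/-- `S` contains the preimages of its elements -/
def Pre (S : Set ℤ) : Prop := ∀ N : ℤ, T N ∈ S → N ∈ S

/-- **Growth.** Orbits decrease at most by a factor 2 per step and do not change sign.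
Uses: nothing. Proof: `2|T N| ≥ |N|` and `s N > 0 → s T N > 0` by cases, then induction. -/
def StmtGrowth : Prop :=
  (∀ (N : ℤ) (j : ℕ), |(N : ℝ)| ≤ 2 ^ j * |((T^[j] N : ℤ) : ℝ)|) ∧
  (∀ (s N : ℤ) (j : ℕ), (s = 1 ∨ s = -1) → 0 < s * N → 0 < s * T^[j] N)

/-- **InvIter.** Uses: StmtGrowth. Proof: induction; `|T^[j] N| ≥ |N|/2^j > A0` for `j ≤ 2t`. -/
def StmtInvIter : Prop :=
  (∀ (S : Set ℤ) (A0 : ℝ) (t : ℕ) (N : ℤ), Inv S A0 → A0 * 4 ^ t < |(N : ℝ)| → (T^[2 * t] N ∈ S ↔ N ∈ S)) ∧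
  (∀ (S : Set ℤ) (j : ℕ) (N : ℤ), Pre S → T^[j] N ∈ S → N ∈ S)

/-- **MassPer.** Mass of a periodic function in a window.
Uses: nothing.
Proof. For one residue class modulo `Q = 3^N` the elements of `[a,b)` are `M₀ < M₀ + Q < …`, and telescoping
`Q/(M+Q) ≤ log((M+Q)/M) ≤ Q/M` gives `|∑ 1/M - (1/Q) log (b/a)| ≤ 1/a`. Multiply by `p` and sum over the classes.
(For `s = -1` replace `p z` by `p (-z)`, the average is the same.) Second part: `log 3 + 1 ≤ 3`. -/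
def StmtMassPer : Prop :=
  (∀ (s : ℤ) (N : ℕ) (p : ℤ → ℝ) (a b : ℝ), (s = 1 ∨ s = -1) → (∀ z, 0 ≤ p z) → (∀ z, p (z + 3 ^ N) = p z) →
    0 < a → a ≤ b → |mass s p a b - avg N p * Real.log (b / a)| ≤ avg N p * (3 ^ N / a)) ∧
  (∀ (s : ℤ) (N : ℕ) (p : ℤ → ℝ) (a b : ℝ), (s = 1 ∨ s = -1) → (∀ z, 0 ≤ p z) → (∀ z, p (z + 3 ^ N) = p z) →
    (3 : ℝ) ^ N ≤ a → b ≤ 3 * a → mass s p a b ≤ 3 * avg N p)

/-- **PFcore.** Push-forward of a window, lower bound.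
Uses: StmtBinBasic, StmtKapLaw, StmtWords, StmtRMoment, StmtKerAvg, StmtMassPer.
Proof. Put `η = √(4^t/a) ≤ 1/4`, `Pκ = P (2t) κ`. For `κ ∈ K`, `M ∈ W'_κ = W s (a_κ(1+η)) (b_κ - η a_κ)` and a word `g`, `|g| = t`, `kap g = κ`,
valid at `M`, `RR g ≤ η a_κ`, the integer `N = Nz g M` satisfies `s N = (4^t/3^κ)(s M - s RR g)`, hence `N ∈ W s a b`,
`|N| ≤ (4^t/3^κ)|M|(1+η)`, `T^[2t] N = M`; and `N` determines `M, g` (Words (5)). Therefore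
`mass s (fr r' · ψ∘T^[2t]) a b ≥ (1/(1+η)) ∑_{κ∈K} ∑_{M∈W'_κ} ψ(M) (Dd t (t+r') κ M - Bad_κ M)/|M|`, where by Words (7), (8)
`Dd t (t+r') κ M = Ew t ([kap g = κ, valid g M] 3^κ fr r' (Nz g M))` and `Bad_κ` is the part with `RR g > η a_κ`.
`∑_κ mass s Bad_κ a_κ b_κ ≤ 3 ∑_κ avg Bad_κ ≤ 3 Ew t [RR g > η a/4^t] ≤ 30 (4^t/a)^{1/4}` (period `3^(κ+2r') ≤ a_κ`; RMoment and Markov),
`∑_κ mass s |Dd - Pκ fr r| a_κ b_κ ≤ 3 ∑_κ avg |Dd - Pκ fr r|` (periods `3^(κ+2r')`, `3^(2r)` are `≤ a_κ`),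
`1/(1+η) ≥ 1 - η` costs `3η`, and the two edges cost `≤ ∑_κ Pκ 9^r (2η a_κ + 2)/a_κ ≤ 4·9^r η` (`fr r ≤ 9^r`, `1/a_κ ≤ 4^t/a = η² ≤ η`).
Total error `≤ 40 · 9^r √η`. -/
def StmtPFcore : Prop :=
  ∀ (s : ℤ) (t r r' N : ℕ) (a b : ℝ) (ψ : ℤ → ℝ) (K : Finset ℕ), (s = 1 ∨ s = -1) →
    (∀ z, 0 ≤ ψ z ∧ ψ z ≤ 1) → 0 < a → a ≤ b → b ≤ 3 * a → 16 * 4 ^ t * 81 ^ (r + r') ≤ a →
    2 * (t + r + r') ≤ N →
    ∑ κ ∈ K, P (2 * t) κ * mass s (fun M => fr r M * ψ M) (a * 3 ^ κ / 4 ^ t) (b * 3 ^ κ / 4 ^ t)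
      ≤ mass s (fun M => fr r' M * ψ (T^[2 * t] M)) a b
        + 3 * ∑ κ ∈ K, avg N (fun z => |Dd t (t + r') κ z - P (2 * t) κ * fr r z|)
        + 40 * 9 ^ r * Real.sqrt (Real.sqrt (4 ^ t / a))

/-- **PFtwo.** Push-forward of a window, two sided.
Uses: StmtBinBasic, StmtKerAvg, StmtMassPer, StmtPFcore.
Proof. PFcore for `ψ` and for `1 - ψ` (with `K = range (2t+1)`), and the total masses: `mass s (fr r') a b ≤ log (b/a) + 9^r'/a`,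
`mass s (fr r) a_κ b_κ ≥ log (b/a) - 9^r/a_κ ≥ log(b/a) - 9^r 4^t/a`, `∑_κ P (2t) κ = 1`. -/
def StmtPFtwo : Prop :=
  ∀ (s : ℤ) (t r r' N : ℕ) (a b : ℝ) (ψ : ℤ → ℝ), (s = 1 ∨ s = -1) →
    (∀ z, 0 ≤ ψ z ∧ ψ z ≤ 1) → 0 < a → a ≤ b → b ≤ 3 * a → 16 * 4 ^ t * 81 ^ (r + r') ≤ a →
    2 * (t + r + r') ≤ N →
    |mass s (fun M => fr r' M * ψ (T^[2 * t] M)) a b
      - ∑ κ ∈ range (2 * t + 1), P (2 * t) κ * mass s (fun M => fr r M * ψ M) (a * 3 ^ κ / 4 ^ t) (b * 3 ^ κ / 4 ^ t)|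
      ≤ 3 * ∑ κ ∈ range (2 * t + 1), avg N (fun z => |Dd t (t + r') κ z - P (2 * t) κ * fr r z|)
        + 42 * 9 ^ r * Real.sqrt (Real.sqrt (4 ^ t / a))

/-- **PFa.** Asymptotic form.
Uses: StmtPFtwo, StmtMLsum.
Proof. `u = lg a`. `4^t ≤ 3^(0.8834 u)` (`t ≤ 0.7 u`, `lg 4 ≤ 1.262`), `r, r' ≤ 2 u^{1/4}`, so for large `u`: `16·4^t·81^(r+r') ≤ a` and
`42·9^r·(4^t/a)^{1/4} ≤ 1/q4 u`. MLsum with `L = t + r'` (`2r ≤ t`): `r/√t ≤ 9/q4 u`·const, `1/r ≤ 2/q4 u`, `t/r^8 ≤ 0.7·16/r^4`. -/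
def StmtPFa : Prop :=
  ∃ C u₀ : ℝ, 0 < C ∧ 1 ≤ u₀ ∧ ∀ (s : ℤ) (t r r' : ℕ) (a b : ℝ) (ψ : ℤ → ℝ), (s = 1 ∨ s = -1) →
    (∀ z, 0 ≤ ψ z ∧ ψ z ≤ 1) → 0 < a → u₀ ≤ lg a → a ≤ b → b ≤ 3 * a → Good a t r r' →
    |mass s (fun M => fr r' M * ψ (T^[2 * t] M)) a b
      - ∑ κ ∈ range (2 * t + 1), P (2 * t) κ * mass s (fun M => fr r M * ψ M) (a * 3 ^ κ / 4 ^ t) (b * 3 ^ κ / 4 ^ t)|
      ≤ C / q4 (lg a)

/-- **PFp.** Asymptotic lower bound with at most three values of `κ` and a better error.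
Uses: StmtPFcore, StmtMLpt.
Proof. As PFa with MLpt: `r/t, 1/(r√t), 1/r^8` are all `≤ const/(q4 u)^3`. -/
def StmtPFp : Prop :=
  ∃ C u₀ : ℝ, 0 < C ∧ 1 ≤ u₀ ∧ ∀ (s : ℤ) (t r r' : ℕ) (a b : ℝ) (ψ : ℤ → ℝ) (K : Finset ℕ), (s = 1 ∨ s = -1) →
    (∀ z, 0 ≤ ψ z ∧ ψ z ≤ 1) → 0 < a → u₀ ≤ lg a → a ≤ b → b ≤ 3 * a → Good a t r r' → K.card ≤ 3 →
    ∑ κ ∈ K, P (2 * t) κ * mass s (fun M => fr r M * ψ M) (a * 3 ^ κ / 4 ^ t) (b * 3 ^ κ / 4 ^ t)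
      ≤ mass s (fun M => fr r' M * ψ (T^[2 * t] M)) a b + C / q4 (lg a) ^ 3

/-- **AdmEx.** Existence of admissible `r`.
Uses: nothing. Proof: `r = ⌈q4 u⌉`, `r^4 ≤ (q4 u + 1)^4 ≤ 2u` for large `u`. -/
def StmtAdmEx : Prop :=
  ∃ u₀ : ℝ, 1 ≤ u₀ ∧ ∀ u : ℝ, u₀ ≤ u → ∃ r : ℕ, 1 ≤ r ∧ ∀ u' : ℝ, u / 4 ≤ u' → u' ≤ 2 * u → Adm u' r

/-- **Rel1.** For invariant sets the weights `1` and `fr r` give the same mass.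
Uses: StmtInvIter, StmtPFa, StmtGrowth.
Proof. `t = ⌈lg a/20⌉`, so `4^t ≤ 4·3^(0.0631 u)`, `A0 ≤ 3^(u/40)`, hence `A0·4^t < a` for large `u` and
`ind S (T^[2t] M) = ind S M` for `M ∈ W s a b`. Apply PFa with `ψ = ind S`, with `r' = 0` (`fr 0 = 1`) and with `r' = r`. -/
def StmtRel1 : Prop :=
  ∃ C u₀ : ℝ, 0 < C ∧ 1 ≤ u₀ ∧ ∀ (S : Set ℤ) (A0 : ℝ) (s : ℤ) (r : ℕ) (a b : ℝ), (s = 1 ∨ s = -1) →
    Inv S A0 → 1 ≤ A0 → 40 * lg A0 ≤ lg a → 0 < a → u₀ ≤ lg a → a ≤ b → b ≤ 3 * a → Adm (lg a) r →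
    |mass s (ind S) a b - mass s (fun M => fr r M * ind S M) a b| ≤ C / q4 (lg a)

/-- **Rel2.** The renewal relation for invariant sets.
Uses: StmtBinBasic, StmtBinShift, StmtInvIter, StmtKerAvg, StmtMassPer, StmtPFa, StmtAdmEx, StmtRel1.
Proof. `r` from AdmEx for `u = lg a`. PFa with `ψ = ind S`, `r' = 0` (`A0·4^t < a`). For the `κ` with `lg a_κ ≥ u/2` apply Rel1 at `a_κ`
(`40 lg A0 ≤ lg a_κ` as `80 lg A0 ≤ u`; error `C/q4(u/2) ≤ 1.2 C/q4 u`). `κ` with `lg a_κ < u/2` have `|κ - t| > 0.36 u`; Chebyshev: probability `≤ 2t/(0.72u)^2 ≤ 2/u`, and the masses are `≤ 3`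
(MassPer with `N = 0`, `N = 2r`; `a_κ ≥ a/4^t ≥ 9^r`). -/
def StmtRel2 : Prop :=
  ∃ C u₀ : ℝ, 0 < C ∧ 1 ≤ u₀ ∧ ∀ (S : Set ℤ) (A0 : ℝ) (s : ℤ) (t : ℕ) (a b : ℝ), (s = 1 ∨ s = -1) →
    Inv S A0 → 1 ≤ A0 → 80 * lg A0 ≤ lg a → 0 < a → u₀ ≤ lg a → a ≤ b → b ≤ 3 * a →
    lg a ≤ 20 * t → 2 * (t : ℝ) ≤ lg a →
    |mass s (ind S) a b
      - ∑ κ ∈ range (2 * t + 1), P (2 * t) κ * mass s (ind S) (a * 3 ^ κ / 4 ^ t) (b * 3 ^ κ / 4 ^ t)| ≤ C / q4 (lg a)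

/-- **SlowVar.** Slow variation.
Uses: StmtBinBasic, StmtBinDiff, StmtBinShift, StmtInvIter, StmtKerAvg, StmtMassPer, StmtPFa, StmtAdmEx.
Proof. `u = lg a`, `t = ⌈u/4⌉`, `τ = ⌊x/c₁⌋`, `ρ = x - c₁ τ ∈ [0, c₁)`, `t' = t + τ`, `a' = a 3^x` (`t' ≤ 0.7 lg a'`, `A0·4^(t')< a'`). PFa with `r' = 0`, `ψ = ind S` at
`(a, t)` and `(a', t')`, same `r` (AdmEx). `a' 3^(κ+τ)/4^(t+τ) = 3^ρ a_κ`. With `α_κ = mass s (fr r ind S) a_κ (3^ρ a_κ)`, `β_κ = mass s (fr r ind S) (3^ρ a_κ) (3 a_κ)`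
(`κ ∈ ℤ`, all `≤ 3`) the first main term is `∑ P (2t) κ (α_κ + β_κ)`, the second `∑ P (2t') (κ+τ) (β_κ + α_{κ+1})`. By BinShift the difference is at most
`3 (∑_κ |P (2t) κ - P (2t') (κ+τ)| + ∑_κ |P (2t) κ - P (2t') (κ-1+τ)|) ≤ 3 (4τ/(2t+1) + 2/√(2t'+1)) ≤ C (x/u + 1/q4 u)`. -/
def StmtSlowVar : Prop :=
  ∃ C u₀ : ℝ, 0 < C ∧ 1 ≤ u₀ ∧ ∀ (S : Set ℤ) (A0 : ℝ) (s : ℤ) (a x : ℝ), (s = 1 ∨ s = -1) →
    Inv S A0 → 1 ≤ A0 → 40 * lg A0 ≤ lg a → 0 < a → u₀ ≤ lg a → 0 ≤ x → 50 * x ≤ lg a →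
    |mass s (ind S) (a * (3 : ℝ) ^ x) (3 * (a * (3 : ℝ) ^ x)) - mass s (ind S) a (3 * a)|
      ≤ C * (x / lg a + 1 / q4 (lg a))

/-- **ConvRate.** The window masses converge, with a rate depending only on `lg a`.
Uses: StmtBinBasic, StmtBinShift, StmtMassPer, StmtRel2, StmtSlowVar.
Proof. `G u = mass s (ind S) (3^u) (3·3^u)`. For `t` with `u/20 ≤ t ≤ u/2` put `v = u - c₁ t`; `lg a_κ = v + (κ - t)`. Rel2 and SlowVar (for `|κ-t| ≤ v/60`; shifts in both directions)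
give `|G u - G v| ≤ ∑_κ P (2t) κ C (|κ-t|/v + 1/q4) + Chebyshev tail + C/q4 u ≤ C'/q4 u` since `∑ P (2t) κ |κ-t| ≤ √t`. So
`|G u - G v'| ≤ C''/q4 u` for all `v' ∈ [0.9u, 0.95u]` (choose `t` with `|u - c₁ t - v'| ≤ c₁`, SlowVar). Hence `|G u - G w| ≤ C₃/q4 u` for `u ≤ w ≤ 1.05u`
(compare both with a common larger point), and by a geometric series `|G u - G w| ≤ C₄/q4 u` for all `w ≥ u ≥ U`, so `G` converges (Cauchy), with this rate. -/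
def StmtConvRate : Prop :=
  ∃ C : ℝ, 0 < C ∧ ∀ (S : Set ℤ) (A0 : ℝ) (s : ℤ), (s = 1 ∨ s = -1) → Inv S A0 → 1 ≤ A0 →
    ∃ ℓ U : ℝ, 0 ≤ ℓ ∧ 1 ≤ U ∧ ∀ a : ℝ, 0 < a → U ≤ lg a →
      |mass s (ind S) a (3 * a) - ℓ| ≤ C / q4 (lg a)

/-- **SubWin.** Asymptotic invariance of the mass of arbitrary sub-windows under `a ↦ 3a` and `a ↦ 4a/3`.
Uses: StmtBinBasic, StmtBinDiff, StmtBinShift, StmtInvIter, StmtKerAvg, StmtMassPer, StmtPFa, StmtAdmEx.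
Proof. PFa (`r' = 0`, `ψ = ind S`, `b = c a`) at `(a, t)` and at `(3a, t)`: `(3a)_κ = a_{κ+1}`, the main terms differ by at most `3 ∑ |P (2t) κ - P (2t) (κ-1)| ≤ 6/√(2t+1)`.
At `(a,t)` and `(4a/3, t+1)`: `(4a/3) 3^(κ+1)/4^(t+1) = a_κ`, difference `≤ 3 ∑ |P (2t) κ - P (2t+2) (κ+1)| + 3 (two end terms) ≤ 12/(2t+1)`. `t = ⌈lg a/4⌉`. -/
def StmtSubWin : Prop :=
  ∀ (S : Set ℤ) (A0 : ℝ) (s : ℤ) (c : ℝ), (s = 1 ∨ s = -1) → Inv S A0 → 1 ≤ A0 → 1 ≤ c → c ≤ 3 →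
    Tendsto (fun a : ℝ => mass s (ind S) (3 * a) (c * (3 * a)) - mass s (ind S) a (c * a)) atTop (𝓝 0) ∧
    Tendsto (fun a : ℝ => mass s (ind S) (4 / 3 * a) (c * (4 / 3 * a)) - mass s (ind S) a (c * a)) atTop (𝓝 0)

/-- **ScaleInv.** Real analysis.
Uses: nothing.
Proof. The set of `λ > 0` with `G (λ a) - G a → 0` is a group containing `3` and `4/3`, hence dense in `(0,∞)` (`log 4/log 3` is irrational).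
Given `λ` and `ε` choose such `λ' ≤ λ ≤ λ' e^ε` and use the continuity hypothesis between `λ' a` and `λ a`. -/
def StmtScaleInv : Prop :=
  ∀ (G : ℝ → ℝ) (C : ℝ), (∀ a l : ℝ, 1 ≤ a → 1 ≤ l → |G (l * a) - G a| ≤ C * (Real.log l + 1 / a)) →
    Tendsto (fun a : ℝ => G (3 * a) - G a) atTop (𝓝 0) →
    Tendsto (fun a : ℝ => G (4 / 3 * a) - G a) atTop (𝓝 0) →
    ∀ l : ℝ, 0 < l → Tendsto (fun a : ℝ => G (l * a) - G a) atTop (𝓝 0)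

/-- **WinConv.** Masses of windows of ratio `3^(1/k)`.
Uses: StmtMassPer, StmtSubWin, StmtScaleInv.
Proof. `G a = mass s (ind S) a (3^(1/k) a)` satisfies the hypotheses of ScaleInv (`|G (l a) - G a| ≤` mass of `[a, l a)` plus mass of `[c a, l c a)` `≤ 2 log l + 2/a`, MassPer with `N = 0`).
`mass s (ind S) a (3a) = ∑_{j<k} G (3^(j/k) a)`, and `G (3^(j/k) a) - G a → 0`. -/
def StmtWinConv : Prop :=
  ∀ (S : Set ℤ) (A0 : ℝ) (s : ℤ) (ℓ : ℝ) (k : ℕ), (s = 1 ∨ s = -1) → Inv S A0 → 1 ≤ A0 → 1 ≤ k →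
    Tendsto (fun a : ℝ => mass s (ind S) a (3 * a)) atTop (𝓝 ℓ) →
    Tendsto (fun a : ℝ => mass s (ind S) a ((3 : ℝ) ^ (1 / (k : ℝ)) * a)) atTop (𝓝 (ℓ / k))

open Classical in
/-- **Count.** From windows to natural density, for an arbitrary set `S`.
Uses: nothing.
Proof. Let `c = 3^(1/k)`, `n(X) = #{N ∈ S : 1 ≤ s N < X}`. `X·mass [X, cX) ≤ n(cX) - n(X) ≤ cX·mass [X, cX)`. So with `X_j = X c^(-j)`:
`n(X)/X` lies between `∑_{1≤j≤J} c^(-j) (ℓ/k - ε)` and `∑_{1≤j≤J} c^(-j+1) (ℓ/k + ε) + c^(-J)` for `X` large (fixed `k, J, ε`).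
As `J → ∞`, `k → ∞`: `(1/k)/(3^(1/k) - 1) → 1/log 3`. -/
def StmtCount : Prop :=
  ∀ (S : Set ℤ) (s : ℤ) (ℓ : ℝ), (s = 1 ∨ s = -1) →
    (∀ k : ℕ, 1 ≤ k → Tendsto (fun a : ℝ => mass s (ind S) a ((3 : ℝ) ^ (1 / (k : ℝ)) * a)) atTop (𝓝 (ℓ / k))) →
    Tendsto (fun X : ℝ => (((W s 1 X).filter (fun N => N ∈ S)).card : ℝ) / X) atTop (𝓝 (ℓ / Real.log 3))

end Pool.Agent.Clz
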