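import Pool.Agent.Lib.MP_5a39b1_nt.Clz.Spec3

/-!
MP_5a39b1_nt, statements of the modules, part 4 (trees, positivity for almost all `a`, final statements).
`EwLib.lean`, `WLib.lean` contain proved basic lemmas.
Every `Stmt...` is to be proved in a file of its own, `theorem stmtXxx (h₁ : StmtA) ... : StmtXxx`,
where the hypotheses are among those named under Uses.
Notation in the docstrings: `v = lg a`, `u = lg a'`, `a'_κ = a' 3^κ/4^t`, `c₁ = lg 4 - 1 = lg (4/3) = 0.26186`,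
so `lg a'_κ = u - c₁ t + (κ - t)`.
-/

set_option autoImplicit false

namespace Pool.Agent.Clz

open Finset Filter Topology

/-- the integers whose forward orbit contains `a` -/
def tree (a : ℤ) : Set ℤ := {n | ∃ k : ℕ, T^[k] n = a}

/-- the inverse iterate counting function -/
noncomputable def cnt (a : ℤ) (N : ℕ) : ℕ := {n : ℤ | |n| ≤ (N : ℤ) ∧ ∃ k : ℕ, T^[k] n = a}.ncard

/-- the assertion of Q1 for `a` -/
def Q1at (a : ℤ) : Prop := ∃ c : ℝ, 0 < c ∧ ∃ N₀ : ℕ, ∀ N : ℕ, N₀ ≤ N → c * (N : ℝ) < (cnt a N : ℝ)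

/-- **Tree.** Uses: StmtGrowth.
Proof. If `|N| > |a|` then `N ≠ a`, so `N ∈ tree a ↔ T N ∈ tree a` (`T^[k+1] N = T^[k] (T N)`). Sign: Growth (2) for `s` and `-s` (`T 0 = 0`). -/
def StmtTree : Prop :=
  (∀ (B : Finset ℤ) (A0 : ℝ), (∀ a ∈ B, |(a : ℝ)| ≤ A0) → Inv (⋃ a ∈ B, tree a) A0 ∧ Pre (⋃ a ∈ B, tree a)) ∧
  (∀ (a s n : ℤ), (s = 1 ∨ s = -1) → n ∈ tree a → (0 < s * a ↔ 0 < s * n)) ∧
  (∀ a : ℤ, a ≠ 0 → (0 : ℤ) ∉ tree a)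

/-- **DensTree.** The natural density of `tree a` exists.
Uses: StmtTree, StmtConvRate, StmtWinConv, StmtCount.
Proof. `tree a = ⋃ b ∈ {a}, tree b` is `Inv` with `A0 = |a| ≥ 1`. ConvRate gives `mass s (ind (tree a)) x (3x) → ℓ_s`, `s = ±1` (`q4 (lg x) → ∞`); WinConv and Count give
`#{n ∈ tree a : 1 ≤ s n < X}/X → ℓ_s/log 3`; `cnt a N` is the sum of these two numbers for `X = N + 1` (`0 ∉ tree a`), so `d = (ℓ_1 + ℓ_{-1})/log 3`.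
If `¬ Q1at a` then `d = 0`, so `ℓ_1 = ℓ_{-1} = 0`. -/
def StmtDensTree : Prop :=
  ∀ a : ℤ, a ≠ 0 →
    (∃ d : ℝ, 0 ≤ d ∧ Tendsto (fun N : ℕ => (cnt a N : ℝ) / N) atTop (𝓝 d)) ∧
    (¬ Q1at a → ∀ s : ℤ, (s = 1 ∨ s = -1) →
      Tendsto (fun x : ℝ => mass s (ind (tree a)) x (3 * x)) atTop (𝓝 0))

/-- **Dich.** A dichotomy: if `π_a(N)` is infinitely often as large as `C N/(log N)^(1/4)` then Q1 holds for `a`.
Uses: StmtTree, StmtConvRate, StmtDensTree.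
Proof. Suppose `¬ Q1at a`. By DensTree the window masses tend to 0, so the limit in ConvRate is 0 and `mass s (ind (tree a)) x (3x) ≤ C₀/q4 (lg x)` for `lg x ≥ U`, `s = ±1`.
With `x_j = (N+1) 3^(-j)`: `#{n ∈ tree a : x_{j} ≤ s n < 3 x_{j}} ≤ 3 x_j C₀/q4 (lg x_j)`. For `1 ≤ j ≤ (lg N)/2` we have `q4 (lg x_j) ≥ 0.8 q4 (lg N)`; the sum over these `j` is
`≤ 2 C₀ (N+1)/ q4 (lg N)`, the rest is `≤ 4 √(N+1)`. So `cnt a N ≤ C₁ N/(log N)^(1/4)` for large `N`, `C₁` depending only on `C₀`. Take `C = 2 C₁`. -/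
def StmtDich : Prop :=
  ∃ C : ℝ, 0 < C ∧ ∀ a : ℤ, a ≠ 0 →
    (∃ᶠ N : ℕ in atTop, C * (N : ℝ) / (Real.log N) ^ ((1 : ℝ) / 4) ≤ (cnt a N : ℝ)) → Q1at a

open Classical in
/-- **Return.** Returns to a window are rare.
Uses: StmtBinBasic, StmtKapLaw, StmtWords, StmtRMoment, StmtKerAvg, StmtMassPer.
Proof. Let `M ∈ W s a (3a)`, `M' = T^[2j] M ∈ W s a (3a)`; by Words (4) `M = Nz g M'`, `|g| = j`, `g` valid at `M'`. `RR g ≤ (9/4)^j ≤ a/16 ≤ |M'|/16`,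
`|M| = (4^j/3^κ)|M' - RR g| ≥ (15/16)(4^j/3^κ)|M'|`, `κ = kap g`; as `|M| < 3a`, `|M'| ≥ a`: `16·3^κ ≥ 5·4^j`. So the mass is at most
`(16/15) ∑_{M' ∈ W s a (3a)} (1/|M'|) Ew j ([16·3^κ ≥ 5·4^j] 4^(-j)…)`, precisely `(16/15) mass s (fun M' => Ew j ([16·3^κ ≥ 5·4^j] kerF g M' · fr r (Nz g M'))) a (3a)`
`≤ (16/15)·3·Ew j [16·3^κ ≥ 5·4^j]` (MassPer, period `9^(j+r) ≤ a`; KerAvg (3)) and by Markov with `√(16·3^κ/(5·4^j))` and the generating function (BinBasic, `z = √3`)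
`Ew j [..] ≤ √(16/5) ρ^j`, `ρ = ((1+√3)/2)^2/2 = 0.9331`. -/
def StmtReturn : Prop :=
  ∃ (C ρ : ℝ), 0 < C ∧ 0 < ρ ∧ ρ < 1 ∧ ∀ (s : ℤ) (a : ℝ) (r j : ℕ), (s = 1 ∨ s = -1) →
    16 * (9 : ℝ) ^ (j + r) ≤ a →
    mass s (fun M => if T^[2 * j] M ∈ W s a (3 * a) then fr r M else 0) a (3 * a) ≤ C * ρ ^ j

/-- **Spread.** A set of positive mass in a window at scale `v` has a tree of positive mass at all scales in `[1.05 v, 1.15 v]`.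
Uses: StmtBinBasic, StmtBinShift, StmtInvIter, StmtPFp, StmtReturn.
Proof. `v = lg a`, `u = lg a'`. Choose `ℓ₀` with `∑_{j ≥ ℓ₀} C ρ^j ≤ β/2`. `t* = (u - v)/c₁ ∈ [0.19 v, 0.58 v]`, `J = ⌊√t*/6⌋`, `B' = {M ∈ B ∩ W s a (3a) : T^[2j] M ∉ W s a (3a) for ℓ₀ ≤ j ≤ J}`;
`mass s (fr r₀ · ind B') a (3a) ≥ β/2` (Return, `16·9^(J+r₀) ≤ a` for large `v`). For `t ∈ {⌈t*⌉ + i ℓ₀ : 0 ≤ i, i ℓ₀ ≤ J}` let `A_t = {N ∈ W s a' (3a') : T^[2t] N ∈ B'}`. These sets are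
pairwise disjoint and contained in `S` (Pre). The `κ` with `W s a'_κ (3a'_κ)` meeting `W s a (3a)` satisfy `|κ - t - (v - u + c₁ t)| < 1`, so there are at most 3 (call the set `K`; they are natural numbers),
and `|κ - t| ≤ 1 + c₁ |t - t*| ≤ √t/16`, so `P (2t) κ ≥ 1/(4√t)`. PFp (with `ψ = ind B'`, `r = r₀`, `b = 3a'`) gives
`mass s (fr r' · ind A_t) a' (3a') ≥ (β/2)/(4√t) - C/(q4 u)^3 ≥ β/(16 √t)` for large `v`. Sum over the `≥ √t*/(6ℓ₀)` values of `t` (`√t ≤ 2√t*`): `≥ β/(200 ℓ₀) = c`. -/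
def StmtSpread : Prop :=
  ∀ β : ℝ, 0 < β → ∃ c v₀ : ℝ, 0 < c ∧ 1 ≤ v₀ ∧ ∀ (S B : Set ℤ) (s : ℤ) (a a' : ℝ) (r₀ r' : ℕ),
    (s = 1 ∨ s = -1) → Pre S → B ⊆ S → 0 < a → v₀ ≤ lg a → 0 < a' →
    1.05 * lg a ≤ lg a' → lg a' ≤ 1.15 * lg a →
    (∀ u' : ℝ, lg a / 4 ≤ u' → u' ≤ 2 * lg a → Adm u' r₀) → (r' = 0 ∨ Adm (lg a') r') →
    β ≤ mass s (fun M => fr r₀ M * ind B M) a (3 * a) →
    c ≤ mass s (fun M => fr r' M * ind S M) a' (3 * a')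

/-- **Up.** Propagation of a lower bound to all larger scales.
Uses: StmtBinBasic, StmtBinShift, StmtInvIter, StmtPFa, StmtAdmEx.
Proof. `B(u) = c₀ - K (1/q4 v - 1/q4 u)`, `K` a large constant. Claim by induction on `n`: for all `a'` with `1.05 v ≤ lg a' = u ≤ 1.15 v·1.01^n` and all `r'`: `mass ≥ B(u)`.
`n = 0`: hypothesis. Step: let `u > 1.15 v·1.01^n`, `t = ⌈0.05 u/c₁⌉`, `r` from AdmEx for `u`. As `ind S N ≥ ind S (T^[2t] N)`, PFa gives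
`mass s (fr r' ind S) a' (3a') ≥ ∑_κ P (2t) κ mass s (fr r ind S) a'_κ (3a'_κ) - C/q4 u`. For `|κ - t| ≤ 0.01 u`: `0.94 u - 1 ≤ lg a'_κ ≤ 0.96 u`, in particular `≥ 1.05 v` and `≤ 1.15 v·1.01^n`,
so the masses are `≥ B(0.96 u)`. The other `κ` have probability `≤ 1000/u` (Chebyshev). `B(0.96u) - B(u) = (K/q4 u)(0.96^(-1/4) - 1) ≥ 0.01 K/q4 u ≥ C/q4 u + 3000/u`. -/
def StmtUp : Prop :=
  ∃ C v₀ : ℝ, 0 < C ∧ 1 ≤ v₀ ∧ ∀ (S : Set ℤ) (s : ℤ) (v c₀ : ℝ), (s = 1 ∨ s = -1) → Pre S → v₀ ≤ v → 0 ≤ c₀ → c₀ ≤ 3 →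
    (∀ (a' : ℝ) (r' : ℕ), 0 < a' → 1.05 * v ≤ lg a' → lg a' ≤ 1.15 * v → (r' = 0 ∨ Adm (lg a') r') →
      c₀ ≤ mass s (fun M => fr r' M * ind S M) a' (3 * a')) →
    ∀ (a' : ℝ) (r' : ℕ), 0 < a' → 1.05 * v ≤ lg a' → (r' = 0 ∨ Adm (lg a') r') →
      c₀ - C / q4 v ≤ mass s (fun M => fr r' M * ind S M) a' (3 * a')

/-- **BadMass.** The exceptional set has small mass in all large windows.
Uses: StmtMassPer, StmtAdmEx, StmtFrSmall, StmtTree, StmtDensTree, StmtSpread, StmtUp.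
Proof. Let `Z = {a : 3 ∤ a, ¬ Q1at a}` and suppose `mass s (ind Z) a (3a) > η`, `v = lg a` large. `r₀` from AdmEx for `v`; FrSmall with `η/6`: `δ`, and
`mass s [3∤z, fr r₀ z < δ] a (3a) ≤ 3·η/6` (MassPer). With `B = Z ∩ W s a (3a)` (finite): `mass s (fr r₀ ind B) a (3a) ≥ δ (η - η/2) = β`. `S = ⋃_{b∈B} tree b ⊇ B` is Pre. Spread gives
`c = c(β)` (use `min c 3`), Up gives `mass s (ind S) a' (3a') ≥ c - C/q4 v ≥ c/2` for all `lg a' ≥ 1.05 v` (`r' = 0`, `fr 0 = 1`) if `v` is large. But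
`mass s (ind S) a' (3a') ≤ ∑_{b∈B} mass s (ind (tree b)) a' (3a') → 0` by DensTree (`b ≠ 0`, `¬ Q1at b`). -/
def StmtBadMass : Prop :=
  ∀ η : ℝ, 0 < η → ∃ U : ℝ, 1 ≤ U ∧ ∀ (s : ℤ) (a : ℝ), (s = 1 ∨ s = -1) → 0 < a → U ≤ lg a →
    mass s (ind {z : ℤ | ¬ (3 : ℤ) ∣ z ∧ ¬ Q1at z}) a (3 * a) ≤ η

/-- **ZeroDens.** From windows to natural density zero.
Uses: nothing. Proof. `#{n ∈ Z : x ≤ s n < 3x} ≤ 3x·mass s (ind Z) x (3x)`; with `x_j = (X+1) 3^(-j)`: sum over `1 ≤ j ≤ J` of `3 x_j ε`, the rest is `≤ 3^(-J) (X+1) + 1` numbers on each side. -/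
def StmtZeroDens : Prop :=
  ∀ Z : Set ℤ, (∀ s : ℤ, (s = 1 ∨ s = -1) → Tendsto (fun a : ℝ => mass s (ind Z) a (3 * a)) atTop (𝓝 0)) →
    Tendsto (fun X : ℕ => (({n : ℤ | |n| ≤ (X : ℤ) ∧ n ∈ Z}.ncard : ℕ) : ℝ) / X) atTop (𝓝 0)

end Pool.Agent.Clz
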