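import Pool.Agent.Lib.MP_5a39b1_nt.Clz.Spec2

/-!
MP_5a39b1_nt, statements of the modules, part F (linear growth for EVERY `a`; frozen statement S17055).
`EwLib.lean` contains proved basic lemmas. Spec3 (natural density) is NOT needed here.
Every `Stmt...` is to be proved in a file of its own, `theorem stmtXxx (h₁ : StmtA) ... : StmtXxx`,
where the hypotheses are among those named under Uses.
Overview: `SS L C φ x` = weighted sum of `φ` over the preimages of `x` along typical words of length `L`.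
(Slice) for EVERY `x` the preimages of a given length and given `kap` have bounded density modulo `3^n`, `n ≤ L/5`;
with fine scale mixing (HFsum) this gives `SS (L+L/100) (C+(9/10)^L) (fr ..) x ≥ SS L C (fr ..) x - 1/L^2` for EVERY `x` (Step);
starting from one residue class (Start) it stays `≥ 3/8` (Prop). Counting (Vsum, Cnt) gives linear growth for the
non-periodic integers of this class, and every `a`, `3 ∤ a`, has a non-periodic preimage in this class (Odo).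
-/

set_option autoImplicit false

namespace Pool.Agent.Clz

open Finset

/-- typical words: `kap g` within `|g|/1000` of `|g|`, and `RR g ≤ C` -/
def typ (C : ℝ) (g : List (Fin 4)) : Prop :=
  1000 * |(kap g : ℤ) - (g.length : ℤ)| ≤ (g.length : ℤ) ∧ RR g ≤ C

open Classical in
/-- weighted sum over the typical words of length `L` -/
noncomputable def SS (L : ℕ) (C : ℝ) (φ : ℤ → ℝ) (x : ℤ) : ℝ :=
  Ew L (fun g => if typ C g then kerF g x * φ (Nz g x) else 0)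

open Classical in
/-- `frm m r` restricted to the words with at least `m` threes -/
noncomputable def frq (m r : ℕ) (z : ℤ) : ℝ := Ew r (fun g => if m ≤ kap g then ker m g z else 0)

open Classical in
/-- weighted number of the preimages of `b` along words of length `L`, `kap = κ`, `RR ≤ C` -/
noncomputable def VV (L κ : ℕ) (C : ℝ) (b : ℤ) : ℝ :=
  Ew L (fun g => if kap g = κ ∧ RR g ≤ C then kerF g b else 0)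

/-- `log 4 / log 3 = 1.2618...` -/
noncomputable def al : ℝ := Real.log 4 / Real.log 3

/-- the least `κ` with `3^κ ≥ 4^L / 3^β` (for `L al ≥ β`) -/
noncomputable def kz (β : ℝ) (L : ℕ) : ℕ := ⌈(L : ℝ) * al - β⌉₊

/-- **Tail3.** Exponential bound for the deviation `L/1000` of a binomial variable with parameter `2L`.
Uses: StmtBinBasic.
Proof. Upper tail: for `1000 k > 1001 L`, `1 ≤ z^(k - 1001 L/1000)` with `z = 501/500`, so the sum is at most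
`z^(-1001 L/1000) ((1+z)/2)^(2L) = ((1001/1000)^2 / (501/500)^(1001/1000))^L` and `(501/500)^(1001/1000) ≥ 1 + (1001/1000)/500 = 1.002002`
(Bernoulli), `(1001/1000)^2 = 1.002001`. Lower tail by the symmetry `P n (n-k) = P n k` (`k ↦ 2L - k`). `C = 2`. -/
def StmtTail3 : Prop :=
  ∃ (C ρ : ℝ), 0 < C ∧ 0 < ρ ∧ ρ < 1 ∧ ∀ L : ℕ,
    ∑ k ∈ (range (2 * L + 1)).filter (fun k : ℕ => ¬ 1000 * |(k : ℤ) - (L : ℤ)| ≤ (L : ℤ)), P (2 * L) k ≤ C * ρ ^ L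

open Classical in
/-- **Slice.** For EVERY `x` the preimages along words of given length and given `kap` have bounded density modulo `3^n`.
Uses: StmtWords.
Proof. `Ew_eq_sum`. Let `G` be the set of words of length `L` with `kap g = κ`, `RR g ≤ C`, `valid g x`; weights `3^κ/4^L`.
Group by `ρ = Nz g x mod 3^n` (`φ (Nz g x) = φ ρ`). For fixed `ρ ∈ range (3^n)`: `3^κ Nz g x = 4^L x - FF g`, so `FF g ≡ 4^L x - 3^κ ρ (mod 3^(κ+n))`;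
`FF` is injective on `G` (Words (6)) and `0 ≤ FF g ≤ C 4^L`, so there are at most `C 4^L/3^(κ+n) + 1 ≤ (C+1) 4^L/3^(κ+n)` such `g`. -/
def StmtSlice : Prop :=
  ∀ (L κ n : ℕ) (C : ℝ) (x : ℤ) (φ : ℤ → ℝ), 0 ≤ C → 3 ^ (κ + n) ≤ 4 ^ L → (∀ z, 0 ≤ φ z) → (∀ z, φ (z + 3 ^ n) = φ z) →
    Ew L (fun g => if kap g = κ ∧ RR g ≤ C then kerF g x * φ (Nz g x) else 0) ≤ (C + 1) * avg n φ

/-- **SliceSum.** Sum over the typical slices.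
Uses: StmtSlice.
Proof. Typical words have `1000 |κ - L| ≤ L`: at most `L/500 + 1 ≤ L + 1` values of `κ`, and `κ + n ≤ 1.201 L`, `3^(κ+n) ≤ 4^L` because `3^5 ≤ 4^4`. -/
def StmtSliceSum : Prop :=
  ∀ (L n : ℕ) (C : ℝ) (x : ℤ) (φ : ℤ → ℝ), 0 ≤ C → 5 * n ≤ L → (∀ z, 0 ≤ φ z) → (∀ z, φ (z + 3 ^ n) = φ z) →
    SS L C φ x ≤ (L + 1) * (C + 1) * avg n φ

/-- **FrA.** The densities `fr r` are a Cauchy sequence in L¹, with superpolynomial rate.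
Uses: StmtKapLaw, StmtKerAvg, StmtHFsum, StmtTail3.
Proof. Let `m = ⌈s/2⌉`. HFsum with `t = κ = 0` (`Dd 0 r 0 = fr r`, `Ddm m 0 r 0 = frm m r`): `avg |fr r - frm m r| ≤ C/m^a`, the same for `s`.
If `kap (g.take s) ≥ m` then `ker m g = ker m (g.take s)` (`|g| = r ≥ s`), so `avg |frm m r - frm m s| ≤ 2 P(kap < m) ≤ 2 C ρ^s`
(words of length `s` with `kap < m` have `2 kap < s + 1`, so `1000 |kap - s| > s` for `s ≥ 2`; `s = 1` trivial by enlarging `C`). `ρ^s ≤ C'/s^a`. -/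
def StmtFrA : Prop :=
  ∀ a : ℕ, ∃ C : ℝ, 0 < C ∧ ∀ (s r N : ℕ), 1 ≤ s → s ≤ r → 2 * r ≤ N →
    avg N (fun z => |fr r z - fr s z|) ≤ C / (s : ℝ) ^ a

/-- **Frq.** Uses: StmtKapLaw, StmtKerAvg, StmtHFsum, StmtTail3, StmtFrA.
Proof. `|frq m (2m) - frm m (2m)| = Ew (2m) [kap g < m] ker m g`, average `P(kap < m) ≤ C ρ^(2m)` (Tail3: `kap g < m` gives `1000 |kap g - 2m| > 2m`);
`avg |frm m (2m) - fr (2m)| ≤ C/m^a` (HFsum, `t = κ = 0`, `L = 2m`); `avg |fr (2m) - fr s| ≤ C/(2m)^a` (FrA). -/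
def StmtFrq : Prop :=
  ∀ a : ℕ, ∃ C : ℝ, 0 < C ∧ ∀ (m s N : ℕ), 1 ≤ m → 2 * m ≤ s → 2 * s ≤ N →
    avg N (fun z => |frq m (2 * m) z - fr s z|) ≤ C / (m : ℝ) ^ a

open Classical in
/-- **Bad.** Atypical words.
Uses: StmtKapLaw, StmtRMoment, StmtTail3.
Proof. `[RR g > D] ≤ √(RR g)/√D`, RMoment (1); Tail3 and KapLaw for the condition on `kap`. -/
def StmtBad : Prop :=
  ∃ (C ρ : ℝ), 0 < C ∧ 0 < ρ ∧ ρ < 1 ∧ ∀ (τ : ℕ) (D : ℝ), 0 < D →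
    Ew τ (fun g => if typ D g then (0 : ℝ) else 1) ≤ C * ρ ^ τ + 10 / Real.sqrt D

/-- **Step.** One step of the propagation, for EVERY `x`.
Uses: StmtWords, StmtKerAvg, StmtSliceSum, StmtFrA, StmtBad.
Proof. `τ = L/100`, `r = L/100`, `r' = (L+τ)/100`, `C' = C + (9/10)^L`, `D = (11/10)^L`. For `|g| = L`, `typ C g`, `|g₂| = τ`, `typ D g₂` the word
`g ++ g₂` is `typ C'`: `kap` and lengths add up; `RR (g++g₂) = RR g + 3^(kap g)/4^L RR g₂`, `1000 kap g ≤ 1001 L` gives `3^(kap g) ≤ (16/5)^L`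
(`3^1001 5^1000 ≤ 16^1000`), and `(4/5)(11/10) ≤ 9/10`. By Words (7), (8) and `Ew_append`: `SS (L+τ) C' (fr r') x ≥ SS L C ψ x`,
`ψ z = SS τ D (fr r') z = fr (τ+r') z - χ z`, `χ z = Ew τ [¬ typ D g₂] kerF g₂ z * fr r' (Nz g₂ z)` (`Ew_append`, Words (7), (8)).
With `n = 2τ + 2r'` (`5n ≤ L`) `avg n χ = Ew τ [¬ typ D] ≤ C ρ^τ + 10/√D` (KerAvg (2), (3)); SliceSum for `|fr (τ+r') - fr r|` and for `χ`:
`SS L C ψ x ≥ SS L C (fr r) x - (L+1)(C+1)(avg n |fr (τ+r') - fr r| + avg n χ)`. FrA with `a = 4`: the error is `≤ 1/L^2` for large `L`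
(`r ≥ L/200`; `ρ^τ` and `1/√D` decay exponentially). -/
def StmtStep : Prop :=
  ∀ Cs : ℝ, 0 ≤ Cs → ∃ L₀ : ℕ, ∀ L ≥ L₀, ∀ C : ℝ, 0 ≤ C → C ≤ Cs → ∀ x : ℤ,
    SS L C (fr (L / 100)) x - 1 / (L : ℝ) ^ 2 ≤ SS (L + L / 100) (C + (9 / 10) ^ L) (fr ((L + L / 100) / 100)) x

/-- **Start.** Uses: StmtBad, StmtKerAvg.
Proof. `C₀ = 1600`. With `N = 2L + 2r`, `avg N (SS L C₀ (fr r)) = Ew L [typ C₀ g] ≥ 1 - C ρ^L - 10/40 ≥ 1/2` (`avg_Ew`, KerAvg (2), (3)); some value is at least the average. -/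
def StmtStart : Prop :=
  ∃ (C₀ : ℝ) (L₀ : ℕ), 0 ≤ C₀ ∧ ∀ L ≥ L₀, ∀ r : ℕ, ∃ x₀ : ℤ, 1 / 2 ≤ SS L C₀ (fr r) x₀

/-- **Per.** Uses: nothing. Proof. `kerF_periodic`, `fr_periodic`, `Nz g (x + 3^N j) = Nz g x + 4^L 3^(N - kap g) j`, `kap g ≤ 2L` (`kap_le`). -/
def StmtPer : Prop :=
  ∀ (L r N : ℕ) (C : ℝ) (x j : ℤ), 2 * L + 2 * r ≤ N → SS L C (fr r) (x + 3 ^ N * j) = SS L C (fr r) x

/-- **Prop.** Propagation: one residue class, all levels.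
Uses: StmtStep, StmtStart, StmtPer.
Proof. `Cs = C₀ + 1`; `Lk 0` large (`≥ 100`, `≥` both thresholds, `10 (9/10)^(Lk 0) ≤ 1`, `2/Lk 0 ≤ 1/8`), `Lk (k+1) = Lk k + Lk k/100 ≥ Lk k + 1`, so
`Lk k ≥ Lk 0 + k`, `∑ (9/10)^(Lk j) ≤ 1`, `∑ 1/(Lk j)^2 ≤ 2/Lk 0`. With `C_k = C₀ + ∑_{j<k} (9/10)^(Lk j)`: `SS (Lk k) C_k (fr (Lk k/100)) x ≥ 1/2 - ∑_{j<k} 1/(Lk j)^2`
for all `x ≡ x₀ (mod 3^n₀)`, `n₀ = 2 Lk 0 + 2 (Lk 0/100)` (Per for `k = 0`, Step). `SS` is monotone in `C`. -/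
def StmtProp : Prop :=
  ∃ (Cs : ℝ) (x₀ : ℤ) (n₀ : ℕ) (Lk : ℕ → ℕ), 0 ≤ Cs ∧ (∀ k, 100 ≤ Lk k) ∧ (∀ k, Lk (k + 1) = Lk k + Lk k / 100) ∧
    ∀ (k : ℕ) (x : ℤ), (3 : ℤ) ^ n₀ ∣ x - x₀ → 3 / 8 ≤ SS (Lk k) Cs (fr (Lk k / 100)) x

/-- **Loc.** Local lower bound.
Uses: StmtBinBasic, StmtBinShift, StmtKapLaw.
Proof. `t = τ - r ≥ 1`. `Ew_append` (`τ = r + t`), `g = g₀ ++ g'`. If `m ≤ kap g₀` then `ker m g = ker m g₀`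
(`4^τ z - FF g = 4^t (4^r z - FF g₀) - 3^(kap g₀) FF g'`), and by KapLaw the average over `g'` of `[kap g₀ + kap g' = κ]` is `P (2t) (κ - kap g₀)`
(integer argument), which is `≥ 1/(4√t) ≥ 1/(4√τ)` by BinShift (4) with `x = κ - kap g₀ - t`, `|x| ≤ |κ - τ| + |kap g₀ - r| ≤ |κ - τ| + r`.
The words with `kap g₀ < m` contribute `≥ 0`. -/
def StmtLoc : Prop :=
  ∀ (m r τ κ : ℕ) (z : ℤ), r < τ → 16 * (|(κ : ℝ) - τ| + r) ≤ Real.sqrt ((τ : ℝ) - r) →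
    1 / (4 * Real.sqrt τ) * frq m r z ≤ Ddm m τ τ κ z

open Classical in
/-- **Vstep.** Counting at length `ℓ + τ` through length `ℓ`, for EVERY `b`.
Uses: StmtWords, StmtKerAvg, StmtSlice, StmtHFsum, StmtRMoment.
Proof. `D = (11/10)^ℓ`. For `|g| = ℓ`, `typ Cs g`, `kap g ≤ κ`, `|g₂| = τ`, `kap g₂ = κ - kap g`, `RR g₂ ≤ D` the word `g ++ g₂` has `kap = κ`, `RR ≤ Cs + (9/10)^ℓ ≤ Cs + 1`
(as in Step). By `Ew_append`, Words (7), (8): `VV (ℓ+τ) κ (Cs+1) b ≥ Ew ℓ [typ Cs g, kap g ≤ κ] kerF g b * (Dd τ τ (κ - kap g) - χ) (Nz g b)`,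
`χ z = Ew τ [RR g₂ > D] kerF g₂ z`, `avg (2τ) χ ≤ 10/√D` (KerAvg (1), RMoment (1)). For each of the `≤ ℓ+1` values `κ₁` of `kap g` apply Slice with `n = 2τ`
(`κ₁ + 2τ ≤ 1.201 ℓ`, `3^5 ≤ 4^4`) to `|Dd τ τ (κ-κ₁) - Ddm m τ τ (κ-κ₁)|` (HFsum with `t = L = τ`: average `≤ C/m^a`) and to `χ`. Total error
`(ℓ+1)(Cs+1)(C/m^a + 10/√D) ≤ K ℓ/m^a`, since `m ≤ ℓ` and `ℓ^a/√D` is bounded. -/
def StmtVstep : Prop :=
  ∀ (a : ℕ) (Cs : ℝ), 0 ≤ Cs → ∃ (K : ℝ) (ℓ₀ : ℕ), 0 < K ∧ ∀ (ℓ τ κ m : ℕ) (b : ℤ), ℓ₀ ≤ ℓ → 10 * τ ≤ ℓ → 1 ≤ m → m ≤ ℓ →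
    Ew ℓ (fun g => if typ Cs g ∧ kap g ≤ κ then kerF g b * Ddm m τ τ (κ - kap g) (Nz g b) else 0)
      ≤ VV (ℓ + τ) κ (Cs + 1) b + K * ℓ / (m : ℝ) ^ a

open Classical in
/-- **Adm.** Lattice point count.
Uses: nothing.
Proof. `0.2618 ≤ al - 1 ≤ 0.2619` (from `Real.log` bounds, or `3^(1262) > 4^1000`-type inequalities). `kz β (ℓ+τ) = al (ℓ+τ) - β + θ`, `0 ≤ θ < 1` (the argument is positive),
so `kz β (ℓ+τ) - κ₁ - τ = (al-1)(τ - τ*) + θ`, `τ* = (β + κ₁ - ℓ)/(al-1) - ℓ ∈ [0.007 ℓ, 0.026 ℓ]`. All integers `τ` with `|τ - τ*| ≤ √ℓ/100` are counted: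
`|..| + 2m ≤ 0.00262 √ℓ + 1 + 0.001 √ℓ ≤ 0.005 √ℓ ≤ √(τ-2m)/16` for large `ℓ` (`τ - 2m ≥ 0.0064 ℓ`), and `ℓ/200 ≤ τ ≤ ℓ/20`, `κ₁ ≤ kz β (ℓ+τ)`. There are at least
`√ℓ/50 - 1 ≥ √ℓ/100` of them. -/
def StmtAdm : Prop :=
  ∃ ℓ₀ : ℕ, ∀ (ℓ κ₁ m : ℕ) (β : ℝ), ℓ₀ ≤ ℓ → 1011 / 1000 * ℓ * (al - 1) ≤ β → β ≤ 1022 / 1000 * ℓ * (al - 1) →
    1000 * |(κ₁ : ℤ) - (ℓ : ℤ)| ≤ (ℓ : ℤ) → 2000 * (m : ℝ) ≤ Real.sqrt ℓ →
    Real.sqrt ℓ / 100 ≤ (((Finset.Icc (ℓ / 200) (ℓ / 20)).filter (fun τ : ℕ => κ₁ ≤ kz β (ℓ + τ) ∧ 2 * m < τ ∧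
      16 * (|((kz β (ℓ + τ) - κ₁ : ℕ) : ℝ) - τ| + 2 * m) ≤ Real.sqrt ((τ : ℝ) - 2 * m))).card : ℝ)

/-- **Vsum.** Uses: StmtVstep, StmtFrq, StmtSliceSum, StmtAdm, StmtLoc.
Proof. `m = ⌊√ℓ/2000⌋ ≥ 1`. Vstep with `a = 6`, `κ = kz β (ℓ+τ)`; for typical `g` with (`τ` admissible for `κ₁ = kap g`), Loc with `r = 2m` gives
`Ddm m τ τ (κ - kap g) (Nz g b) ≥ 1/(4√τ) frq m (2m) (Nz g b) ≥ 1/√ℓ frq m (2m) (Nz g b)` (`20 τ ≤ ℓ`, `√20/4 ≥ 1`); `Ddm ≥ 0` otherwise. Sum over `τ ∈ Icc (ℓ/200) (ℓ/20)`, Adm: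
`∑_τ VV ≥ (1/100) SS ℓ Cs (frq m (2m)) b - (ℓ+1) K ℓ/m^6`, and by SliceSum with `n = 2(ℓ/100)` and Frq (`s = ℓ/100`, `a = 6`)
`SS ℓ Cs (frq m (2m)) b ≥ SS ℓ Cs (fr (ℓ/100)) b - (ℓ+1)(Cs+1) C/m^6`. Errors tend to 0; `3/800 > 1/400`. -/
def StmtVsum : Prop :=
  ∀ Cs : ℝ, 0 ≤ Cs → ∃ ℓ₀ : ℕ, ∀ (ℓ : ℕ) (β : ℝ) (b : ℤ), ℓ₀ ≤ ℓ →
    1011 / 1000 * ℓ * (al - 1) ≤ β → β ≤ 1022 / 1000 * ℓ * (al - 1) → 3 / 8 ≤ SS ℓ Cs (fr (ℓ / 100)) b →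
    1 / 400 ≤ ∑ τ ∈ Finset.Icc (ℓ / 200) (ℓ / 20), VV (ℓ + τ) (kz β (ℓ + τ)) (Cs + 1) b

/-- **Pick.** Choice of the level.
Uses: nothing.
Proof. `Lk` is strictly increasing, `Lk (k+1) ≤ 101/100 Lk k`. Take the largest `k` with `1011/1000 Lk k ≤ y`; then `y < 1011/1000 · 101/100 Lk k ≤ 1022/1000 Lk k`;
`k → ∞` with `y`. -/
def StmtPick : Prop :=
  ∀ Lk : ℕ → ℕ, (∀ k, 100 ≤ Lk k) → (∀ k, Lk (k + 1) = Lk k + Lk k / 100) → ∀ ℓ₀ : ℕ, ∃ y₀ : ℝ, ∀ y : ℝ, y₀ ≤ y →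
    ∃ k : ℕ, ℓ₀ ≤ Lk k ∧ 1011 / 1000 * (Lk k : ℝ) ≤ y ∧ y ≤ 1022 / 1000 * (Lk k : ℝ)

/-- **Cnt.** From weights to numbers.
Uses: StmtWords.
Proof. `κ = kz β L`, `3^(L al) = 4^L`, `3^β = X/(|b|+C)`, so `4^L (|b|+C)/X ≤ 3^κ < 3 · 4^L (|b|+C)/X`. For `L ∈ S` let `A_L` be the image of
`{g : |g| = L, kap g = κ, RR g ≤ C, valid g b}` under `g ↦ Nz g b` (injective: Words (5)): `|Nz g b| ≤ (4^L |b| + 4^L C)/3^κ ≤ X`, `T^[2L] (Nz g b) = b` (Words (1)),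
`card A_L = 4^L/3^κ · VV L κ C b ≥ X/(3(|b|+C)) VV` (`Ew_eq_sum`; weights `3^κ/4^L`). For `L < L'` the sets are disjoint: otherwise `T^[2L'-2L] b = b`. -/
def StmtCnt : Prop :=
  ∀ (b : ℤ) (C : ℝ) (X : ℕ) (S : Finset ℕ), (∀ k, 1 ≤ k → T^[k] b ≠ b) → 0 < C → 1 ≤ X →
    (∀ L ∈ S, Real.log (X / (|(b : ℝ)| + C)) / Real.log 3 ≤ L * al) →
    (X : ℝ) / (3 * (|(b : ℝ)| + C)) * ∑ L ∈ S, VV L (kz (Real.log (X / (|(b : ℝ)| + C)) / Real.log 3) L) C b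
      ≤ (({n : ℤ | |n| ≤ (X : ℤ) ∧ ∃ k : ℕ, T^[k] n = b}.ncard : ℕ) : ℝ)

/-- **Grow.** Linear growth for the non-periodic integers of one residue class.
Uses: StmtProp, StmtVsum, StmtPick, StmtCnt.
Proof. `β = log (X/(|b|+Cs+1))/log 3 → ∞`, `y = β/(al-1)`, Pick gives `k` with `1011/1000 ℓ ≤ y ≤ 1022/1000 ℓ`, `ℓ = Lk k` large; Vsum, then Cnt with `C = Cs + 1` and
`S = image (ℓ + ·) (Icc (ℓ/200) (ℓ/20))` (`β ≤ 1022/1000 ℓ (al-1) ≤ ℓ al`). The count is `≥ X/(1200 (|b|+Cs+1)) > c X` with `c = 1/(2400 (|b|+Cs+1))`. -/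
def StmtGrow : Prop :=
  ∃ (x₀ : ℤ) (n₀ : ℕ), ∀ b : ℤ, (3 : ℤ) ^ n₀ ∣ b - x₀ → (∀ k, 1 ≤ k → T^[k] b ≠ b) →
    ∃ c : ℝ, 0 < c ∧ ∃ N₀ : ℕ, ∀ N : ℕ, N₀ ≤ N →
      c * (N : ℝ) < (({n : ℤ | |n| ≤ (N : ℤ) ∧ ∃ k : ℕ, T^[k] n = b}.ncard : ℕ) : ℝ)

/-- **Odo.** Every `a` not divisible by 3 has a non-periodic preimage in every residue class modulo `3^n₀`.
Uses: nothing.
Proof. `j₀ ∈ {1,2}` with `3 ∣ 2^(j₀) a - 1`, `b_i = (2^(j₀+2i) a - 1)/3`, `b_(i+1) = 4 b_i + 1`. `T b_i = 2^(j₀+2i-1) a` (`b_i` is odd, `3 b_i + 1 = 2^(j₀+2i) a`), so `T^[j₀+2i] b_i = a`.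
`3 b_i + 1 = 4^i (3 b_0 + 1)`: on `Z/3^n₀` the map `z ↦ 4z+1` has `3^n₀` distinct iterates of `b_0`, since `b_i ≡ b_j (mod 3^n₀)` iff `3^(n₀+1) ∣ 4^(i-j) - 1` iff `3^n₀ ∣ i - j`
(lifting the exponent), so `i ↦ b_i mod 3^n₀`, `i < 3^n₀`, is surjective and some `i₁` has `b_(i₁) ≡ x₀`; then all `i ≡ i₁ (mod 3^n₀)` do. The `b_i` are distinct. If `b_i` is periodic then (as `T^[s] b_i = a`) `a` is
periodic and `b_i` lies on the finite orbit of `a`; so only finitely many `i` are excluded. -/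
def StmtOdo : Prop :=
  ∀ a : ℤ, ¬ (3 : ℤ) ∣ a → ∀ (x₀ : ℤ) (n₀ : ℕ), ∃ b : ℤ, (3 : ℤ) ^ n₀ ∣ b - x₀ ∧ (∃ k : ℕ, T^[k] b = a) ∧ ∀ k, 1 ≤ k → T^[k] b ≠ b

/-- **Fin.** The frozen statement S17055 (with `T` unfolded in the final hand-in).
Uses: StmtGrow, StmtOdo.
Proof. `{n : |n| ≤ N, ∃ k, T^[k] n = b} ⊆ {n : |n| ≤ N, ∃ k, T^[k] n = a}` if `T^[s] b = a` (finite sets, `Set.ncard_le_ncard`). -/
def StmtFin : Prop :=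
  ∀ a : ℤ, ¬ ((3 : ℤ) ∣ a) → ∃ c : ℝ, 0 < c ∧ ∃ N₀ : ℕ, ∀ N : ℕ, N₀ ≤ N →
    c * (N : ℝ) < (({n : ℤ | |n| ≤ (N : ℤ) ∧
      ∃ k : ℕ, (fun m : ℤ => if m % 2 = 0 then m / 2 else (3 * m + 1) / 2)^[k] n = a}.ncard : ℕ) : ℝ)

end Pool.Agent.Clz
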