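import Pool.Agent.Lib.MP_5a39b1_nt.Clz.Spec4

/-!
MP_5a39b1_nt, module Tree: trees are invariant and preimage closed. See the docstring of `StmtTree` in `Spec4.lean` for the proof.
-/

set_option autoImplicit false

namespace Pool.Agent.Clz

open Finset

namespace Treeaux

theorem T_zero : T 0 = 0 := by simp [T]

theorem iter_zero (k : ℕ) : T^[k] 0 = 0 := Function.iterate_fixed T_zero k

theorem pre {a N : ℤ} (h : T N ∈ tree a) : N ∈ tree a := by
  obtain ⟨k, hk⟩ := h
  exact ⟨k + 1, by rw [Function.iterate_succ_apply]; exact hk⟩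

theorem post {a N : ℤ} (hne : N ≠ a) (h : N ∈ tree a) : T N ∈ tree a := by
  obtain ⟨k, hk⟩ := h
  cases k with
  | zero => exact absurd hk hne
  | succ k =>
    rw [Function.iterate_succ_apply] at hk
    exact ⟨k, hk⟩

end Treeaux

open Treeaux in
theorem stmtTree (hGrowth : StmtGrowth) : StmtTree := by
  refine ⟨?_, ?_, ?_⟩
  · intro B A0 hB
    constructor
    · intro N hN
      simp only [Set.mem_iUnion, exists_prop]
      constructor
      · rintro ⟨a, ha, h⟩
        exact ⟨a, ha, pre h⟩
      · rintro ⟨a, ha, h⟩
        refine ⟨a, ha, post ?_ h⟩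
        rintro rfl
        exact absurd (hB N ha) (not_le.2 hN)
    · intro N
      simp only [Set.mem_iUnion, exists_prop]
      rintro ⟨a, ha, h⟩
      exact ⟨a, ha, pre h⟩
  · rintro a s n hs ⟨k, hk⟩
    constructor
    · intro h
      by_contra hcon
      rcases (not_lt.1 hcon).eq_or_lt with h1 | h1
      · have h2 : n = 0 := by
          rcases hs with h3 | h3 <;> subst h3 <;> linarith
        rw [h2, iter_zero] at hk
        rw [← hk, mul_zero] at h
        exact lt_irrefl _ h
      · have h2 := hGrowth.2 (-s) n k (by rcases hs with h3 | h3 <;> subst h3 <;> simp)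
          (by rw [neg_mul]; linarith)
        rw [hk, neg_mul] at h2
        linarith
    · intro h
      have h2 := hGrowth.2 s n k hs h
      rw [hk] at h2
      exact h2
  · rintro a ha ⟨k, hk⟩
    rw [iter_zero] at hk
    exact ha hk.symm

end Pool.Agent.Clz
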